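import Pool.Agent.Lib.MP_a0a351_co.Defs

/-!
General position lemmas in vector form (module GPL of MP_a0a351_co).
-/

set_option autoImplicit false

open Module Finset

namespace Pool.Agent.MPa0a351

variable {ι V : Type*} [Fintype ι] [AddCommGroup V] [Module ℝ V] [FiniteDimensional ℝ V]

namespace GplAux

omit [FiniteDimensional ℝ V] in
theorem mem_sp_iff {y : ι → V} {T : Finset ι} {x : V} :
    x ∈ Sp y T ↔ ∃ g : ι → ℝ, (∀ i, i ∉ T → g i = 0) ∧ ∑ i, g i • y i = x := by
  classical
  unfold Sp
  constructor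
  · intro hx
    rw [Submodule.mem_span_image_finset_iff_exists_fun] at hx
    obtain ⟨c, hc⟩ := hx
    refine ⟨fun i => if h : i ∈ T then c ⟨i, h⟩ else 0, fun i hi => by simp [hi], ?_⟩
    rw [← hc]
    rw [← Finset.sum_subset (Finset.subset_univ T) (fun i _ hi => by simp [hi])]
    rw [← Finset.sum_coe_sort T]
    exact Finset.sum_congr rfl (fun i _ => by simp)
  · rintro ⟨g, hg, rfl⟩
    rw [← Finset.sum_subset (Finset.subset_univ T) (fun i _ hi => by simp [hg i hi])]
    exact Submodule.sum_mem _ (fun i hi => Submodule.smul_mem _ _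
      (Submodule.subset_span ⟨i, hi, rfl⟩))

omit [FiniteDimensional ℝ V] in
theorem sum_ext_zero {y : ι → V} {T : Finset ι} (g : ι → ℝ) (hg : ∀ i, i ∉ T → g i = 0) :
    ∑ i ∈ T, g i • y i = ∑ i, g i • y i :=
  Finset.sum_subset (Finset.subset_univ T) (fun i _ hi => by rw [hg i hi, zero_smul])

omit [FiniteDimensional ℝ V] in
/-- A linear dependence supported on a set of at most `d + 1` elements containing a circuit `C` is a
multiple of the dependence of `C`. -/
theorem dep_eq {d : ℕ} {y : ι → V} (h : GPV d y) {C T : Finset ι} (hCT : C ⊆ T)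
    (hT : T.card ≤ d + 1) (a : ι → ℝ) (ha0 : ∀ i, i ∉ C → a i = 0) (hsum : ∑ i, a i = 1)
    (hay : ∑ i, a i • y i = 0) (g : ι → ℝ) (hg0 : ∀ i, i ∉ T → g i = 0)
    (hgy : ∑ i, g i • y i = 0) : ∀ i, g i = (∑ j, g j) * a i := by
  intro i
  have := h T hT (fun i => g i - (∑ j, g j) * a i)
    (fun i hi => by rw [hg0 i hi, ha0 i (fun hh => hi (hCT hh))]; ring)
    (by rw [Finset.sum_sub_distrib, ← Finset.mul_sum, hsum]; ring)
    (by
      have : ∀ i, (g i - (∑ j, g j) * a i) • y i = g i • y i - (∑ j, g j) • (a i • y i) := by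
        intro i; rw [sub_smul, mul_smul]
      simp only [this, Finset.sum_sub_distrib, ← Finset.smul_sum, hgy, hay, smul_zero, sub_zero])
    i
  linarith

end GplAux

open GplAux

theorem GPV.sub {d : ℕ} {X : ι → V} (h : GPV d X) (o : V) : GPV d (fun i => X i - o) := by
  intro T hT a ha hsum hy
  refine h T hT a ha hsum ?_
  simp only [smul_sub, Finset.sum_sub_distrib, ← Finset.sum_smul, hsum, zero_smul, sub_zero] at hy
  exact hy

theorem GPV.indep {d : ℕ} {y : ι → V} (h : GPV d y) {C : Finset ι} (hC : Circ y C)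
    (Q : Finset ι) (hdisj : Disjoint C Q) (hcard : C.card + Q.card ≤ d + 1) :
    LinearIndependent ℝ (fun i : Q => (Sp y C).mkQ (y i)) := by
  classical
  obtain ⟨a, ha, ha0, hsum, hay⟩ := hC
  rw [Fintype.linearIndependent_iff]
  intro g hg
  -- extend g
  let g' : ι → ℝ := fun i => if hi : i ∈ Q then g ⟨i, hi⟩ else 0
  have hg'0 : ∀ i, i ∉ Q → g' i = 0 := fun i hi => by simp [g', hi]
  have h1 : ∑ i : Q, g i • (y i) = ∑ i, g' i • y i := by
    rw [← sum_ext_zero g' hg'0, ← Finset.sum_coe_sort Q]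
    exact Finset.sum_congr rfl (fun i _ => by simp [g'])
  have h2 : ∑ i, g' i • y i ∈ Sp y C := by
    rw [← Submodule.Quotient.mk_eq_zero, ← Submodule.mkQ_apply, ← h1, map_sum, ← hg]
    exact Finset.sum_congr rfl (fun i _ => by rw [map_smul])
  obtain ⟨b, hb0, hby⟩ := mem_sp_iff.mp h2
  have h3 := dep_eq h (C := C) (T := C ∪ Q) Finset.subset_union_left
    ((Finset.card_union_le _ _).trans hcard) a ha0 hsum hay (fun i => g' i - b i)
    (fun i hi => by
      rw [Finset.mem_union, not_or] at hi
      rw [hg'0 i hi.2, hb0 i hi.1, sub_zero])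
    (by simp only [sub_smul, Finset.sum_sub_distrib, hby, sub_self])
  intro i
  have hiC : (i : ι) ∉ C := fun hh => Finset.disjoint_left.mp hdisj hh i.2
  have h4 := h3 i
  rw [ha0 i hiC, hb0 i hiC, mul_zero, sub_zero] at h4
  simpa [g'] using h4

theorem GPV.finrank_circ {d : ℕ} {y : ι → V} (h : GPV d y) {T : Finset ι} (hT : Circ y T)
    (hcard : T.card ≤ d + 1) : finrank ℝ (Sp y T) + 1 = T.card := by
  classical
  obtain ⟨a, ha, ha0, hsum, hay⟩ := hT
  have hTne : T.Nonempty := by
    by_contra hne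
    rw [Finset.not_nonempty_iff_eq_empty] at hne
    subst hne
    have : ∑ i, a i = 0 := Finset.sum_eq_zero (fun i _ => ha0 i (by simp))
    linarith
  obtain ⟨t, ht⟩ := hTne
  have hat := ha t ht
  -- y t is in the span of the others
  have hspan : Sp y T = Submodule.span ℝ (Set.range (fun i : (T.erase t : Finset ι) => y i)) := by
    apply le_antisymm
    · unfold Sp
      rw [Submodule.span_le]
      rintro v ⟨i, hi, rfl⟩
      by_cases hit : i = t
      · subst hit
        have h1 : a i • y i = - ∑ j ∈ T.erase i, a j • y j := by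
          have h2 : ∑ j ∈ T, a j • y j = 0 := by rw [sum_ext_zero a ha0]; exact hay
          rw [← Finset.add_sum_erase T _ ht] at h2
          exact eq_neg_of_add_eq_zero_left h2
        have h3 : y i = (a i)⁻¹ • (- ∑ j ∈ T.erase i, a j • y j) := by
          rw [← h1, smul_smul, inv_mul_cancel₀ hat.ne', one_smul]
        show y i ∈ Submodule.span ℝ _
        rw [h3]
        refine Submodule.smul_mem _ _ (Submodule.neg_mem _ (Submodule.sum_mem _ (fun j hj => ?_)))
        exact Submodule.smul_mem _ _ (Submodule.subset_span ⟨⟨j, hj⟩, rfl⟩)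
      · exact Submodule.subset_span ⟨⟨i, Finset.mem_erase.mpr ⟨hit, hi⟩⟩, rfl⟩
    · rw [Submodule.span_le]
      rintro v ⟨i, rfl⟩
      exact Submodule.subset_span ⟨i, Finset.mem_of_mem_erase i.2, rfl⟩
  have hli : LinearIndependent ℝ (fun i : (T.erase t : Finset ι) => y i) := by
    rw [Fintype.linearIndependent_iff]
    intro g hg
    let g' : ι → ℝ := fun i => if hi : i ∈ T.erase t then g ⟨i, hi⟩ else 0
    have hg'0 : ∀ i, i ∉ T.erase t → g' i = 0 := fun i hi => dif_neg hi
    have h1 : ∑ i, g' i • y i = 0 := by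
      rw [← sum_ext_zero g' hg'0, ← Finset.sum_coe_sort (T.erase t), ← hg]
      exact Finset.sum_congr rfl (fun i _ => by
        simp only [g', dif_pos i.2])
    have h3 := dep_eq h (C := T) (T := T) (Finset.Subset.refl _) hcard a ha0 hsum hay g'
      (fun i hi => hg'0 i (fun hh => hi (Finset.mem_of_mem_erase hh))) h1
    have h4 := h3 t
    rw [hg'0 t (Finset.notMem_erase _ _)] at h4
    have h5 : ∑ j, g' j = 0 := by
      rcases mul_eq_zero.mp h4.symm with h5 | h5
      · exact h5
      · exact absurd h5 hat.ne'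
    intro i
    have h6 := h3 i
    rw [h5, zero_mul] at h6
    simpa only [g', dif_pos i.2] using h6
  rw [hspan, finrank_span_eq_card hli, Fintype.card_coe, Finset.card_erase_of_mem ht]
  have : 0 < T.card := Finset.card_pos.mpr ⟨t, ht⟩
  omega

theorem GPV.union {d : ℕ} {y : ι → V} [DecidableEq ι] (h : GPV d y) {T T' : Finset ι}
    (hT : Circ y T) (hT' : Circ y T') (hne : T ≠ T') : d + 2 ≤ (T ∪ T').card := by
  by_contra hcon
  push Not at hcon
  obtain ⟨a, ha, ha0, hsum, hay⟩ := hT
  obtain ⟨b, hb, hb0, hbsum, hby⟩ := hT'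
  have h1 := h (T ∪ T') (by omega) (fun i => a i - b i)
    (fun i hi => by
      rw [Finset.mem_union, not_or] at hi
      rw [ha0 i hi.1, hb0 i hi.2, sub_zero])
    (by rw [Finset.sum_sub_distrib, hsum, hbsum, sub_self])
    (by simp only [sub_smul, Finset.sum_sub_distrib, hay, hby, sub_self])
  apply hne
  ext i
  have h2 := h1 i
  constructor
  · intro hi
    by_contra hi'
    have := ha i hi
    rw [hb0 i hi'] at h2
    linarith
  · intro hi
    by_contra hi'
    have := hb i hi
    rw [ha0 i hi'] at h2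
    linarith

theorem GPV.span {d : ℕ} {y : ι → V} (hd : finrank ℝ V = d) (h : GPV d y) (S : Finset ι)
    (hS : d + 1 ≤ S.card) : Sp y S = ⊤ := by
  classical
  obtain ⟨S', hS'S, hS'c⟩ := Finset.exists_subset_card_eq hS
  -- affine independence of the d+1 vectors of S'
  have haff : AffineIndependent ℝ (fun i : S' => y i) := by
    rw [affineIndependent_iff]
    intro s w hw hwy i hi
    let g' : ι → ℝ := fun i => if hi : i ∈ S' then (if (⟨i, hi⟩ : S') ∈ s then w ⟨i, hi⟩ else 0) else 0
    have hg'0 : ∀ i, i ∉ S' → g' i = 0 := fun i hi => dif_neg hi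
    have h1 : ∑ i, g' i = 0 := by
      rw [← Finset.sum_subset (Finset.subset_univ S') (fun i _ hi => hg'0 i hi),
        ← Finset.sum_coe_sort S', ← hw]
      rw [← Finset.sum_subset (Finset.subset_univ s) (fun i _ hi => ?_)]
      · exact Finset.sum_congr rfl (fun i hi => by simp [g', hi])
      · simp [g', hi]
    have h2 : ∑ i, g' i • y i = 0 := by
      rw [← sum_ext_zero g' hg'0, ← Finset.sum_coe_sort S' (fun i => g' i • y i), ← hwy]
      rw [← Finset.sum_subset (Finset.subset_univ s) (fun i _ hi => ?_)]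
      · exact Finset.sum_congr rfl (fun i hi => by simp [g', hi])
      · simp [g', hi]
    have h3 := h S' (by omega) g' hg'0 h1 h2 i
    simpa [g', hi] using h3
  have htop : affineSpan ℝ (Set.range (fun i : S' => y i)) = ⊤ := by
    rw [haff.affineSpan_eq_top_iff_card_eq_finrank_add_one, Fintype.card_coe, hS'c, hd]
  have h1 : vectorSpan ℝ (Set.range (fun i : S' => y i)) = ⊤ := by
    rw [← direction_affineSpan, htop, AffineSubspace.direction_top]
  rw [eq_top_iff, ← h1, vectorSpan_def, Submodule.span_le]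
  rintro v ⟨p, ⟨i, rfl⟩, q, ⟨j, rfl⟩, rfl⟩
  have hi : y i ∈ Sp y S := Submodule.subset_span ⟨i, hS'S i.2, rfl⟩
  have hj : y j ∈ Sp y S := Submodule.subset_span ⟨j, hS'S j.2, rfl⟩
  exact Submodule.sub_mem _ hi hj

end Pool.Agent.MPa0a351
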