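import Pool.Agent.Lib.MP_a0a351_co.Defs
import Pool.Agent.Lib.MP_a0a351_co.Gpl

/-!
Module MODC: circuits modulo the span of a circuit `C`: existence, neighbours, positive
spanning, lifting.
-/

set_option autoImplicit false
set_option linter.unusedSectionVars false

open Module Finset

namespace Pool.Agent.MPa0a351

namespace MODC

section General

variable {ι U : Type*} [Fintype ι] [AddCommGroup U] [Module ℝ U] [FiniteDimensional ℝ U]

/-- More than `finrank + 1` vectors have a nontrivial linear relation with coefficient sum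
zero. -/
theorem exists_rel (f : ι → U) (S : Finset ι) (hS : finrank ℝ U + 1 < S.card) :
    ∃ g : ι → ℝ, (∀ i, i ∉ S → g i = 0) ∧ ∑ i, g i = 0 ∧ ∑ i, g i • f i = 0 ∧
      ∃ i, g i ≠ 0 := by
  classical
  let ext : (S → ℝ) →ₗ[ℝ] (ι → ℝ) :=
    { toFun := fun g i => if hi : i ∈ S then g ⟨i, hi⟩ else 0
      map_add' := by
        intro a b; ext i; by_cases hi : i ∈ S <;> simp [hi]
      map_smul' := by
        intro a b; ext i; by_cases hi : i ∈ S <;> simp [hi] }
  let φ : (S → ℝ) →ₗ[ℝ] (ℝ × U) :=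
    { toFun := fun g => (∑ i, ext g i, ∑ i, ext g i • f i)
      map_add' := by
        intro a b
        simp only [map_add, Pi.add_apply, add_smul, Finset.sum_add_distrib, Prod.mk_add_mk]
      map_smul' := by
        intro a b
        simp only [map_smul, Pi.smul_apply, smul_eq_mul, mul_smul, RingHom.id_apply,
          Prod.smul_mk, Finset.mul_sum, Finset.smul_sum] }
  have hlt : finrank ℝ (ℝ × U) < finrank ℝ (S → ℝ) := by
    rw [Module.finrank_prod, Module.finrank_self, Module.finrank_fintype_fun_eq_card,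
      Fintype.card_coe]
    omega
  have hker := LinearMap.ker_ne_bot_of_finrank_lt (f := φ) hlt
  obtain ⟨g, hg, hg0⟩ := (Submodule.ne_bot_iff _).1 hker
  have hφ : φ g = 0 := hg
  have h1 : ∑ i, ext g i = 0 := congrArg Prod.fst hφ
  have h2 : ∑ i, ext g i • f i = 0 := congrArg Prod.snd hφ
  refine ⟨ext g, ?_, h1, h2, ?_⟩
  · intro i hi
    show (if hi : i ∈ S then g ⟨i, hi⟩ else 0) = 0
    rw [dif_neg hi]
  · by_contra hcon
    push Not at hcon
    apply hg0
    funext i
    have := hcon i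
    have h3 : ext g i = g i := by
      show (if hi : (i : ι) ∈ S then g ⟨i, hi⟩ else 0) = g i
      rw [dif_pos i.2]
    rw [h3] at this
    simpa using this

/-- Gordan: if no linear functional is positive on all `f i`, `i ∈ S`, then the `f i`, `i ∈ S`,
have a nontrivial nonnegative relation. -/
theorem gordan (f : ι → U) (S : Finset ι)
    (hS : ∀ η : U →ₗ[ℝ] ℝ, ∃ u ∈ S, η (f u) ≤ 0) :
    ∃ b : ι → ℝ, (∀ i, 0 ≤ b i) ∧ (∀ i, i ∉ S → b i = 0) ∧ ∑ i, b i = 1 ∧
      ∑ i, b i • f i = 0 := by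
  classical
  let e : U ≃ₗ[ℝ] (Fin (finrank ℝ U) → ℝ) := (finBasis ℝ U).equivFun
  let K : Set (Fin (finrank ℝ U) → ℝ) := convexHull ℝ ((fun i => e (f i)) '' (S : Set ι))
  have hKc : IsClosed K := by
    apply Set.Finite.isClosed_convexHull
    exact S.finite_toSet.image _
  have h0 : (0 : Fin (finrank ℝ U) → ℝ) ∈ K := by
    by_contra h0
    obtain ⟨φ, u, hφ0, hφ⟩ := geometric_hahn_banach_point_closed (convex_convexHull ℝ _) hKc h0
    rw [map_zero] at hφ0
    obtain ⟨v, hv, hv0⟩ := hS ((φ : (Fin (finrank ℝ U) → ℝ) →ₗ[ℝ] ℝ).comp e.toLinearMap)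
    have hvK : e (f v) ∈ K := subset_convexHull ℝ _ ⟨v, hv, rfl⟩
    have := hφ _ hvK
    have hv1 : φ (e (f v)) ≤ 0 := hv0
    linarith
  let K' : Set (Fin (finrank ℝ U) → ℝ) :=
    {v | ∃ b : ι → ℝ, (∀ i, 0 ≤ b i) ∧ (∀ i, i ∉ S → b i = 0) ∧ ∑ i, b i = 1 ∧
      ∑ i, b i • e (f i) = v}
  have hconv : Convex ℝ K' := by
    intro v hv w hw s t hs ht hst
    obtain ⟨b, hb0, hbS, hb1, hbv⟩ := hv
    obtain ⟨b', hb'0, hb'S, hb'1, hb'v⟩ := hw
    refine ⟨fun i => s * b i + t * b' i, ?_, ?_, ?_, ?_⟩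
    · intro i
      have := hb0 i
      have := hb'0 i
      positivity
    · intro i hi
      simp [hbS i hi, hb'S i hi]
    · rw [Finset.sum_add_distrib, ← Finset.mul_sum, ← Finset.mul_sum, hb1, hb'1]
      linarith
    · rw [← hbv, ← hb'v, Finset.smul_sum, Finset.smul_sum, ← Finset.sum_add_distrib]
      refine Finset.sum_congr rfl fun i _ => ?_
      rw [add_smul, mul_smul, mul_smul]
  have hsub : K ⊆ K' := by
    apply convexHull_min _ hconv
    rintro _ ⟨i, hi, rfl⟩
    refine ⟨fun j => if j = i then 1 else 0, ?_, ?_, ?_, ?_⟩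
    · intro j
      dsimp only
      split_ifs <;> norm_num
    · intro j hj
      dsimp only
      rw [if_neg]
      rintro rfl
      exact hj hi
    · simp
    · simp
  obtain ⟨b, hb0, hbS, hb1, hbv⟩ := hsub h0
  refine ⟨b, hb0, hbS, hb1, ?_⟩
  apply e.injective
  rw [map_sum, map_zero]
  rw [← hbv]
  refine Finset.sum_congr rfl fun i _ => ?_
  rw [map_smul]

/-- Caratheodory: a nontrivial nonnegative relation can be chosen with at most `finrank + 1`
terms. -/
theorem caratheodory (f : ι → U) (S : Finset ι) (b : ι → ℝ) (hb : ∀ i, 0 ≤ b i)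
    (hbS : ∀ i, i ∉ S → b i = 0) (hb1 : 0 < ∑ i, b i) (hsum : ∑ i, b i • f i = 0) :
    ∃ P ⊆ S, P.Nonempty ∧ P.card ≤ finrank ℝ U + 1 ∧ ∃ a : ι → ℝ, (∀ i ∈ P, 0 < a i) ∧
      (∀ i, i ∉ P → a i = 0) ∧ ∑ i, a i • f i = 0 := by
  classical
  induction hn : S.card using Nat.strong_induction_on generalizing S b with
  | _ n ih =>
    subst hn
    let P : Finset ι := S.filter (fun i => 0 < b i)
    have hPout : ∀ i, i ∉ P → b i = 0 := by
      intro i hi
      by_cases hiS : i ∈ S
      · have : ¬ 0 < b i := fun h => hi (Finset.mem_filter.2 ⟨hiS, h⟩)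
        exact le_antisymm (not_lt.1 this) (hb i)
      · exact hbS i hiS
    have hPin : ∀ i ∈ P, 0 < b i := fun i hi => (Finset.mem_filter.1 hi).2
    have hPne : P.Nonempty := by
      by_contra hne
      rw [Finset.not_nonempty_iff_eq_empty] at hne
      have : ∑ i, b i = 0 := Finset.sum_eq_zero fun i _ => hPout i (by rw [hne]; simp)
      linarith
    by_cases hcard : P.card ≤ finrank ℝ U + 1
    · exact ⟨P, Finset.filter_subset _ _, hPne, hcard, b, hPin, hPout, hsum⟩
    · push Not at hcard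
      obtain ⟨g, hgP, hg0, hgf, i0, hi0⟩ := exists_rel f P hcard
      -- some positive entry
      have hpos : ∃ i, 0 < g i := by
        by_contra hcon
        push Not at hcon
        have h1 : ∀ i ∈ (Finset.univ : Finset ι), g i = 0 := by
          rw [← Finset.sum_eq_zero_iff_of_nonpos (fun i _ => hcon i)]
          exact hg0
        exact hi0 (h1 i0 (Finset.mem_univ _))
      obtain ⟨i1, hi1⟩ := hpos
      let Q : Finset ι := Finset.univ.filter (fun i => 0 < g i)
      have hQne : Q.Nonempty := ⟨i1, by simp [Q, hi1]⟩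
      obtain ⟨j, hjQ, hjmin⟩ := Finset.exists_min_image Q (fun i => b i / g i) hQne
      have hgj : 0 < g j := (Finset.mem_filter.1 hjQ).2
      have hjP : j ∈ P := by
        by_contra hj
        rw [hgP j hj] at hgj
        exact lt_irrefl _ hgj
      set t : ℝ := b j / g j with ht
      have ht0 : 0 ≤ t := div_nonneg (hb j) hgj.le
      let b' : ι → ℝ := fun i => b i - t * g i
      have hb' : ∀ i, 0 ≤ b' i := by
        intro i
        show 0 ≤ b i - t * g i
        by_cases hgi : 0 < g i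
        · have := hjmin i (Finset.mem_filter.2 ⟨Finset.mem_univ _, hgi⟩)
          have h2 : t ≤ b i / g i := this
          rw [le_div_iff₀ hgi] at h2
          linarith
        · have : g i ≤ 0 := not_lt.1 hgi
          have := hb i
          nlinarith
      have hb'j : b' j = 0 := by
        show b j - t * g j = 0
        rw [ht, div_mul_cancel₀ _ hgj.ne', sub_self]
      have hb'out : ∀ i, i ∉ P.erase j → b' i = 0 := by
        intro i hi
        by_cases hij : i = j
        · rw [hij]; exact hb'j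
        · have hiP : i ∉ P := fun h => hi (Finset.mem_erase.2 ⟨hij, h⟩)
          show b i - t * g i = 0
          rw [hPout i hiP, hgP i hiP]; ring
      have hb'1 : 0 < ∑ i, b' i := by
        have : ∑ i, b' i = ∑ i, b i - t * ∑ i, g i := by
          rw [Finset.mul_sum, ← Finset.sum_sub_distrib]
        rw [this, hg0]; linarith
      have hb'f : ∑ i, b' i • f i = 0 := by
        have : ∑ i, b' i • f i = ∑ i, b i • f i - t • ∑ i, g i • f i := by
          rw [Finset.smul_sum, ← Finset.sum_sub_distrib]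
          refine Finset.sum_congr rfl fun i _ => ?_
          show (b i - t * g i) • f i = _
          rw [sub_smul, mul_smul]
        rw [this, hsum, hgf]; simp
      have hlt : (P.erase j).card < S.card := by
        calc (P.erase j).card < P.card := Finset.card_erase_lt_of_mem hjP
          _ ≤ S.card := Finset.card_le_card (Finset.filter_subset _ _)
      obtain ⟨P', hP'sub, hP'⟩ := ih _ hlt (P.erase j) b' hb' hb'out hb'1 hb'f rfl
      exact ⟨P', hP'sub.trans ((Finset.erase_subset _ _).trans (Finset.filter_subset _ _)), hP'⟩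

end General

variable {ι V : Type*} [Fintype ι] [AddCommGroup V] [Module ℝ V] [FiniteDimensional ℝ V]

omit [FiniteDimensional ℝ V] in
theorem mem_Sp_sum (y : ι → V) (T : Finset ι) (a : ι → ℝ) (ha : ∀ i, i ∉ T → a i = 0) :
    ∑ i, a i • y i ∈ Sp y T := by
  refine Submodule.sum_mem _ fun i _ => ?_
  by_cases hi : i ∈ T
  · exact Submodule.smul_mem _ _ (Submodule.subset_span ⟨i, hi, rfl⟩)
  · rw [ha i hi, zero_smul]; exact Submodule.zero_mem _

omit [FiniteDimensional ℝ V] in
theorem exists_of_mem_Sp (y : ι → V) (T : Finset ι) (v : V) (hv : v ∈ Sp y T) :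
    ∃ a : ι → ℝ, (∀ i, i ∉ T → a i = 0) ∧ ∑ i, a i • y i = v := by
  classical
  induction hv using Submodule.span_induction with
  | mem x hx =>
    obtain ⟨i, hi, rfl⟩ := hx
    refine ⟨fun j => if j = i then 1 else 0, ?_, by simp⟩
    intro j hj
    dsimp only
    rw [if_neg]
    rintro rfl
    exact hj hi
  | zero => exact ⟨0, by simp, by simp⟩
  | add x z _ _ hx hz =>
    obtain ⟨a, ha, hax⟩ := hx
    obtain ⟨b, hb, hbz⟩ := hz
    refine ⟨a + b, ?_, ?_⟩
    · intro i hi; simp [ha i hi, hb i hi]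
    · simp only [Pi.add_apply, add_smul, Finset.sum_add_distrib, hax, hbz]
  | smul c x _ hx =>
    obtain ⟨a, ha, hax⟩ := hx
    refine ⟨c • a, ?_, ?_⟩
    · intro i hi; simp [ha i hi]
    · simp only [Pi.smul_apply, smul_eq_mul, mul_smul]
      rw [← Finset.smul_sum, hax]

end MODC

variable {ι V : Type*} [Fintype ι] [AddCommGroup V] [Module ℝ V] [FiniteDimensional ℝ V]

/-- `P` carries a positive dependence modulo the span of `C`. -/
def PC (y : ι → V) (C P : Finset ι) : Prop :=
  ∃ b : ι → ℝ, (∀ i ∈ P, 0 < b i) ∧ (∀ i, i ∉ P → b i = 0) ∧ ∑ i, b i • y i ∈ Sp y C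

namespace MODC

theorem finrank_quot {d c : ℕ} {y : ι → V} [DecidableEq ι] {E : Submodule ℝ V} {C L : Finset ι}
    (h : Row d c y E C L) : finrank ℝ (V ⧸ Sp y C) = c := by
  have h1 := h.gp.finrank_circ h.circ (by have := h.card; omega)
  have h2 := Submodule.finrank_quotient_add_finrank (Sp y C)
  have h3 := h.hd
  have h4 := h.card
  omega

/-- A positive dependence modulo `Sp y C` has more than `c` terms. -/
theorem card_ge {d c : ℕ} {y : ι → V} [DecidableEq ι] {E : Submodule ℝ V} {C L : Finset ι}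
    (h : Row d c y E C L) {P : Finset ι} (hPL : P ⊆ L) (b : ι → ℝ) (hb : ∀ i, i ∉ P → b i = 0)
    (hbne : ∃ i, b i ≠ 0) (hsum : ∑ i, b i • y i ∈ Sp y C) : c + 1 ≤ P.card := by
  by_contra hlt
  have hdisj : Disjoint C P := Finset.disjoint_of_subset_right hPL h.disj
  have hind := h.gp.indep h.circ P hdisj (by have := h.card; omega)
  have hz : ∑ i : P, b i • (Sp y C).mkQ (y i) = 0 := by
    have h1 : (Sp y C).mkQ (∑ i, b i • y i) = 0 := by
      rw [Submodule.mkQ_apply, Submodule.Quotient.mk_eq_zero]; exact hsum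
    rw [map_sum] at h1
    have h2 : ∑ i ∈ P, b i • (Sp y C).mkQ (y i) = ∑ i, (Sp y C).mkQ (b i • y i) := by
      rw [← Finset.sum_subset (Finset.subset_univ P)]
      · refine Finset.sum_congr rfl fun i _ => ?_
        rw [map_smul]
      · intro i _ hi
        rw [hb i hi, zero_smul, map_zero]
    rw [Finset.sum_coe_sort P (fun i => b i • (Sp y C).mkQ (y i)), h2, h1]
  have hall := Fintype.linearIndependent_iff.1 hind (fun i => b i) hz
  obtain ⟨i, hi⟩ := hbne
  by_cases hiP : i ∈ P
  · exact hi (hall ⟨i, hiP⟩)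
  · exact hi (hb i hiP)

omit [FiniteDimensional ℝ V] in
theorem E_le {d c : ℕ} {y : ι → V} [DecidableEq ι] {E : Submodule ℝ V} {C L : Finset ι}
    (h : Row d c y E C L) : E ≤ Sp y C :=
  (h.exch C Finset.subset_union_left h.circ (by have := h.card; omega)).2

end MODC

theorem Row.exists_P {d c : ℕ} {y : ι → V} [DecidableEq ι] {E : Submodule ℝ V} {C L : Finset ι}
    (h : Row d c y E C L) : ∃ P ⊆ L, P.card = c + 1 ∧ PC y C P := by
  have hq := MODC.finrank_quot h
  obtain ⟨b, hb0, hbL, hb1, hbs⟩ := MODC.gordan (fun i => (Sp y C).mkQ (y i)) L (by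
    intro η
    by_cases hη : η.comp (Sp y C).mkQ = 0
    · -- find some element of `L`
      have hne : ∃ η' : V →ₗ[ℝ] ℝ, η' ≠ 0 ∧ ∀ x ∈ E, η' x = 0 := by
        have hlt : Sp y C < ⊤ := by
          rw [lt_top_iff_ne_top]
          intro htop
          rw [htop] at hq
          have h2 : finrank ℝ (V ⧸ (⊤ : Submodule ℝ V)) = 0 := by
            have := Submodule.finrank_quotient_add_finrank (⊤ : Submodule ℝ V)
            rw [finrank_top] at this
            omega
          have := h.pos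
          omega
        obtain ⟨φ, hφ0, hφ⟩ := Submodule.exists_le_ker_of_lt_top _ hlt
        exact ⟨φ, hφ0, fun x hx => hφ (MODC.E_le h hx)⟩
      obtain ⟨η', hη'0, hη'E⟩ := hne
      obtain ⟨u, hu, _⟩ := h.span η' hη'0 hη'E
      refine ⟨u, hu, ?_⟩
      have : η ((Sp y C).mkQ (y u)) = (η.comp (Sp y C).mkQ) (y u) := rfl
      rw [this, hη]
      simp
    · obtain ⟨u, hu, hu0⟩ := h.span _ hη (by
        intro x hx
        have hxC := MODC.E_le h hx
        have : (Sp y C).mkQ x = 0 := by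
          rw [Submodule.mkQ_apply, Submodule.Quotient.mk_eq_zero]; exact hxC
        rw [LinearMap.comp_apply, this, map_zero])
      exact ⟨u, hu, hu0.le⟩)
  obtain ⟨P, hPL, hPne, hPcard, a, ha, ha0, hasum⟩ :=
    MODC.caratheodory (fun i => (Sp y C).mkQ (y i)) L b hb0 hbL (by rw [hb1]; norm_num) hbs
  have hmem : ∑ i, a i • y i ∈ Sp y C := by
    rw [← Submodule.Quotient.mk_eq_zero, ← Submodule.mkQ_apply, map_sum]
    rw [← hasum]
    refine Finset.sum_congr rfl fun i _ => ?_
    rw [map_smul]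
  refine ⟨P, hPL, ?_, a, ha, ha0, hmem⟩
  have h1 : c + 1 ≤ P.card := by
    obtain ⟨i, hi⟩ := hPne
    exact MODC.card_ge h hPL a ha0 ⟨i, (ha i hi).ne'⟩ hmem
  omega

theorem Row.neighbour {d c : ℕ} {y : ι → V} [DecidableEq ι] {E : Submodule ℝ V} {C L : Finset ι}
    (h : Row d c y E C L) {P : Finset ι} (hPL : P ⊆ L) (hP : P.card = c + 1) (hPC : PC y C P)
    {x : ι} (hx : x ∈ L) (hxP : x ∉ P) : ∃ z ∈ P, PC y C (insert x (P.erase z)) := by
  obtain ⟨b, hbP, hb0, hbs⟩ := hPC
  have hdisj : Disjoint C P := Finset.disjoint_of_subset_right hPL h.disj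
  have htop : Sp y (C ∪ P) = ⊤ := h.gp.span h.hd _ (by
    rw [Finset.card_union_of_disjoint hdisj]
    have := h.card
    omega)
  obtain ⟨β, hβ0, hβ⟩ := MODC.exists_of_mem_Sp y (C ∪ P) (-(y x)) (by rw [htop]; trivial)
  -- restrict to `P`
  have hPne : P.Nonempty := Finset.card_pos.1 (by omega)
  obtain ⟨z, hz, hzmax⟩ := Finset.exists_max_image P (fun i => -(β i) / b i) hPne
  set t : ℝ := -(β z) / b z with ht
  have hbz := hbP z hz
  let a : ι → ℝ := fun i => if i = x then 1 else if i ∈ P then β i + t * b i else 0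
  have hax : a x = 1 := if_pos rfl
  have haP : ∀ i ∈ P, a i = β i + t * b i := by
    intro i hi
    have hix : i ≠ x := by rintro rfl; exact hxP hi
    show (if i = x then (1 : ℝ) else if i ∈ P then β i + t * b i else 0) = _
    rw [if_neg hix, if_pos hi]
  have haout : ∀ i, i ≠ x → i ∉ P → a i = 0 := by
    intro i hix hi
    show (if i = x then (1 : ℝ) else if i ∈ P then β i + t * b i else 0) = _
    rw [if_neg hix, if_neg hi]
  have ha0 : ∀ i, 0 ≤ a i := by
    intro i
    by_cases hix : i = x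
    · rw [hix, hax]; norm_num
    by_cases hi : i ∈ P
    · rw [haP i hi]
      have h1 : -(β i) / b i ≤ t := hzmax i hi
      rw [div_le_iff₀ (hbP i hi)] at h1
      linarith
    · rw [haout i hix hi]
  have haz : a z = 0 := by
    rw [haP z hz, ht, div_mul_cancel₀ _ hbz.ne']; ring
  have hsum : ∑ i, a i • y i ∈ Sp y C := by
    -- a = (indicator of x) + β on P + t b
    have hdecomp : ∑ i, a i • y i = y x + (∑ i, (if i ∈ P then β i else 0) • y i)
        + t • ∑ i, b i • y i := by
      have hyx : y x = ∑ i, (if i = x then (1 : ℝ) else 0) • y i := by simp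
      rw [Finset.smul_sum]
      conv_rhs => rw [hyx]
      rw [← Finset.sum_add_distrib, ← Finset.sum_add_distrib]
      refine Finset.sum_congr rfl fun i _ => ?_
      rw [smul_smul, ← add_smul, ← add_smul]
      congr 1
      by_cases hix : i = x
      · subst hix
        rw [hax, if_pos rfl, if_neg hxP, hb0 i hxP]; ring
      · rw [if_neg hix]
        by_cases hi : i ∈ P
        · rw [haP i hi, if_pos hi]; ring
        · rw [haout i hix hi, if_neg hi, hb0 i hi]; ring
    rw [hdecomp]
    refine Submodule.add_mem _ ?_ (Submodule.smul_mem _ _ hbs)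
    have h2 : y x = -∑ i, β i • y i := by rw [hβ]; simp
    rw [h2, neg_add_eq_sub, ← Finset.sum_sub_distrib]
    have h3 : ∑ i, ((if i ∈ P then β i else 0) • y i - β i • y i)
        = ∑ i, ((if i ∈ P then β i else 0) - β i) • y i := by
      refine Finset.sum_congr rfl fun i _ => ?_
      rw [sub_smul]
    rw [h3]
    apply MODC.mem_Sp_sum
    intro i hi
    by_cases hiP : i ∈ P
    · rw [if_pos hiP, sub_self]
    · rw [if_neg hiP, hβ0 i (by rw [Finset.mem_union]; tauto)]; ring
  let S : Finset ι := (insert x (P.erase z)).filter (fun i => 0 < a i)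
  have hSout : ∀ i, i ∉ S → a i = 0 := by
    intro i hi
    by_cases hi' : i ∈ insert x (P.erase z)
    · have : ¬ 0 < a i := fun hh => hi (Finset.mem_filter.2 ⟨hi', hh⟩)
      exact le_antisymm (not_lt.1 this) (ha0 i)
    · rw [Finset.mem_insert, Finset.mem_erase] at hi'
      push Not at hi'
      by_cases hiP : i ∈ P
      · have : i = z := by
          by_contra hne
          exact hi'.2 hne hiP
        rw [this]; exact haz
      · exact haout i hi'.1 hiP
  have hSL : S ⊆ L := by
    intro i hi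
    have := (Finset.mem_filter.1 hi).1
    rw [Finset.mem_insert, Finset.mem_erase] at this
    rcases this with rfl | ⟨_, h2⟩
    · exact hx
    · exact hPL h2
  have hScard : c + 1 ≤ S.card := MODC.card_ge h hSL a hSout ⟨x, by rw [hax]; norm_num⟩ hsum
  have hcard' : (insert x (P.erase z)).card ≤ c + 1 := by
    refine (Finset.card_insert_le _ _).trans ?_
    rw [Finset.card_erase_of_mem hz, hP]
    omega
  have hSeq : S = insert x (P.erase z) :=
    Finset.eq_of_subset_of_card_le (Finset.filter_subset _ _) (hcard'.trans hScard)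
  refine ⟨z, hz, a, ?_, ?_, hsum⟩
  · intro i hi
    rw [← hSeq] at hi
    exact (Finset.mem_filter.1 hi).2
  · intro i hi
    rw [← hSeq] at hi
    exact hSout i hi

namespace MODC

theorem absorb (T : Finset ι) (e : ι → ℝ) (he : ∀ i ∈ T, 0 < e i) (g : ι → ℝ) :
    ∃ t : ℝ, 0 < t ∧ ∀ i ∈ T, 0 < g i + t * e i := by
  classical
  refine ⟨1 + ∑ i ∈ T, |g i| / e i, ?_, ?_⟩
  · have : 0 ≤ ∑ i ∈ T, |g i| / e i :=
      Finset.sum_nonneg fun i hi => div_nonneg (abs_nonneg _) (he i hi).le
    linarith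
  · intro i hi
    have h1 : |g i| / e i ≤ ∑ i ∈ T, |g i| / e i :=
      Finset.single_le_sum (f := fun i => |g i| / e i)
        (fun j hj => div_nonneg (abs_nonneg _) (he j hj).le) hi
    have h2 := he i hi
    have h3 : |g i| = |g i| / e i * e i := by rw [div_mul_cancel₀ _ h2.ne']
    have h4 : |g i| ≤ (∑ i ∈ T, |g i| / e i) * e i := by
      rw [h3]
      exact mul_le_mul_of_nonneg_right h1 h2.le
    have h5 := neg_abs_le (g i)
    have h6 : (1 + ∑ i ∈ T, |g i| / e i) * e i = e i + (∑ i ∈ T, |g i| / e i) * e i := by ring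
    rw [h6]
    linarith

/-- A strictly positive dependence on `C ∪ P`. -/
theorem pos_dep {d c : ℕ} {y : ι → V} [DecidableEq ι] {E : Submodule ℝ V} {C L : Finset ι}
    (h : Row d c y E C L) {P : Finset ι} (hPL : P ⊆ L) (hPC : PC y C P) :
    ∃ a : ι → ℝ, (∀ i ∈ C ∪ P, 0 < a i) ∧ (∀ i, i ∉ C ∪ P → a i = 0) ∧
      ∑ i, a i • y i = 0 := by
  obtain ⟨b, hbP, hb0, hbs⟩ := hPC
  obtain ⟨γ, hγ0, hγ⟩ := exists_of_mem_Sp y C _ hbs
  obtain ⟨aC, haC, haC0, _, haCs⟩ := h.circ
  have hdisj : Disjoint C P := Finset.disjoint_of_subset_right hPL h.disj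
  obtain ⟨t, _, ht⟩ := absorb C aC haC (fun i => -(γ i))
  refine ⟨fun i => b i - γ i + t * aC i, ?_, ?_, ?_⟩
  · intro i hi
    dsimp only
    rw [Finset.mem_union] at hi
    rcases hi with hi | hi
    · have h1 : b i = 0 := hb0 i (Finset.disjoint_left.1 hdisj hi)
      have := ht i hi
      rw [h1]; linarith
    · have h1 : i ∉ C := Finset.disjoint_right.1 hdisj hi
      rw [hγ0 i h1, haC0 i h1]
      have := hbP i hi
      linarith
  · intro i hi
    rw [Finset.mem_union] at hi
    push Not at hi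
    dsimp only
    rw [hb0 i hi.2, hγ0 i hi.1, haC0 i hi.1]; ring
  · have : ∑ i, (b i - γ i + t * aC i) • y i
        = ∑ i, b i • y i - ∑ i, γ i • y i + t • ∑ i, aC i • y i := by
      rw [Finset.smul_sum, ← Finset.sum_sub_distrib, ← Finset.sum_add_distrib]
      refine Finset.sum_congr rfl fun i _ => ?_
      rw [add_smul, sub_smul, mul_smul]
    rw [this, hγ, haCs]; simp

/-- The cone over `C ∪ P` is everything, with strictly positive coefficients. -/
theorem cone_full {d c : ℕ} {y : ι → V} [DecidableEq ι] {E : Submodule ℝ V} {C L : Finset ι}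
    (h : Row d c y E C L) {P : Finset ι} (hPL : P ⊆ L) (hP : P.card = c + 1) (hPC : PC y C P)
    (v : V) : ∃ a : ι → ℝ, (∀ i ∈ C ∪ P, 0 < a i) ∧ (∀ i, i ∉ C ∪ P → a i = 0) ∧
      ∑ i, a i • y i = v := by
  have hdisj : Disjoint C P := Finset.disjoint_of_subset_right hPL h.disj
  have htop : Sp y (C ∪ P) = ⊤ := h.gp.span h.hd _ (by
    rw [Finset.card_union_of_disjoint hdisj]
    have := h.card
    omega)
  obtain ⟨β, hβ0, hβ⟩ := exists_of_mem_Sp y (C ∪ P) v (by rw [htop]; trivial)
  obtain ⟨e, he, he0, hes⟩ := pos_dep h hPL hPC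
  obtain ⟨t, _, ht⟩ := absorb (C ∪ P) e he β
  refine ⟨fun i => β i + t * e i, ht, ?_, ?_⟩
  · intro i hi
    dsimp only
    rw [hβ0 i hi, he0 i hi]; ring
  · have : ∑ i, (β i + t * e i) • y i = ∑ i, β i • y i + t • ∑ i, e i • y i := by
      rw [Finset.smul_sum, ← Finset.sum_add_distrib]
      refine Finset.sum_congr rfl fun i _ => ?_
      rw [add_smul, mul_smul]
    rw [this, hβ, hes]; simp

end MODC

theorem Row.full {d c : ℕ} {y : ι → V} [DecidableEq ι] {E : Submodule ℝ V} {C L : Finset ι}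
    (h : Row d c y E C L) {P : Finset ι} (hPL : P ⊆ L) (hP : P.card = c + 1) (hPC : PC y C P)
    (Q : Finset ι) : ∃ a : ι → ℝ, (∀ i ∈ C ∪ P ∪ Q, 0 < a i) ∧
      (∀ i, i ∉ C ∪ P ∪ Q → a i = 0) ∧ ∑ i, a i • y i = 0 := by
  obtain ⟨a, ha, ha0, has⟩ := MODC.cone_full h hPL hP hPC
    (-∑ i, (if i ∈ Q \ (C ∪ P) then (1 : ℝ) else 0) • y i)
  refine ⟨fun i => a i + (if i ∈ Q \ (C ∪ P) then (1 : ℝ) else 0), ?_, ?_, ?_⟩
  · intro i hi
    dsimp only
    by_cases h1 : i ∈ C ∪ P
    · have := ha i h1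
      have h2 : (0 : ℝ) ≤ (if i ∈ Q \ (C ∪ P) then (1 : ℝ) else 0) := by
        split_ifs <;> norm_num
      linarith
    · have h2 : i ∈ Q \ (C ∪ P) := by
        rw [Finset.mem_sdiff]
        rw [Finset.mem_union] at hi
        exact ⟨hi.resolve_left h1, h1⟩
      rw [ha0 i h1, if_pos h2]; norm_num
  · intro i hi
    dsimp only
    rw [Finset.mem_union] at hi
    push Not at hi
    have h2 : i ∉ Q \ (C ∪ P) := fun hh => hi.2 (Finset.mem_sdiff.1 hh).1
    rw [ha0 i hi.1, if_neg h2]; norm_num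
  · simp only [add_smul, Finset.sum_add_distrib]
    rw [has]; simp

theorem Row.lift {d c : ℕ} {y : ι → V} [DecidableEq ι] {E : Submodule ℝ V} {C L : Finset ι}
    (h : Row d c y E C L) {P : Finset ι} (hPL : P ⊆ L) (hP : P.card = c + 1) (hPC : PC y C P) :
    ∃ Z ⊆ C, c + 1 ≤ Z.card ∧ Circ y (P ∪ (C \ Z)) ∧ (P ∪ (C \ Z)).card ≤ C.card ∧
      E ≤ Sp y (P ∪ (C \ Z)) := by
  obtain ⟨b, hbP, hb0, hbs⟩ := hPC
  obtain ⟨γ, hγ0, hγ⟩ := MODC.exists_of_mem_Sp y C _ hbs
  obtain ⟨aC, haC, haC0, haC1, haCs⟩ := h.circ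
  have hdisj : Disjoint C P := Finset.disjoint_of_subset_right hPL h.disj
  have hCne : C.Nonempty := by
    by_contra hne
    rw [Finset.not_nonempty_iff_eq_empty] at hne
    have : ∑ i, aC i = 0 := Finset.sum_eq_zero fun i _ => haC0 i (by rw [hne]; simp)
    rw [haC1] at this
    exact one_ne_zero this
  obtain ⟨z, hz, hzmax⟩ := Finset.exists_max_image C (fun i => γ i / aC i) hCne
  set t : ℝ := γ z / aC z with ht
  let g : ι → ℝ := fun i => b i - γ i + t * aC i
  have hgC : ∀ i ∈ C, 0 ≤ g i := by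
    intro i hi
    have h1 : b i = 0 := hb0 i (Finset.disjoint_left.1 hdisj hi)
    show 0 ≤ b i - γ i + t * aC i
    have h2 : γ i / aC i ≤ t := hzmax i hi
    rw [div_le_iff₀ (haC i hi)] at h2
    rw [h1]; linarith
  have hgP : ∀ i ∈ P, g i = b i := by
    intro i hi
    have h1 : i ∉ C := Finset.disjoint_right.1 hdisj hi
    show b i - γ i + t * aC i = b i
    rw [hγ0 i h1, haC0 i h1]; ring
  have hgout : ∀ i, i ∉ C → i ∉ P → g i = 0 := by
    intro i h1 h2
    show b i - γ i + t * aC i = 0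
    rw [hb0 i h2, hγ0 i h1, haC0 i h1]; ring
  have hgs : ∑ i, g i • y i = 0 := by
    have : ∑ i, g i • y i
        = ∑ i, b i • y i - ∑ i, γ i • y i + t • ∑ i, aC i • y i := by
      rw [Finset.smul_sum, ← Finset.sum_sub_distrib, ← Finset.sum_add_distrib]
      refine Finset.sum_congr rfl fun i _ => ?_
      show (b i - γ i + t * aC i) • y i = _
      rw [add_smul, sub_smul, mul_smul]
    rw [this, hγ, haCs]; simp
  let Z : Finset ι := C.filter (fun i => g i = 0)
  have hzZ : z ∈ Z := by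
    refine Finset.mem_filter.2 ⟨hz, ?_⟩
    show b z - γ z + t * aC z = 0
    rw [hb0 z (Finset.disjoint_left.1 hdisj hz), ht, div_mul_cancel₀ _ (haC z hz).ne']; ring
  have hZC : Z ⊆ C := Finset.filter_subset _ _
  have hgT : ∀ i ∈ P ∪ (C \ Z), 0 < g i := by
    intro i hi
    rw [Finset.mem_union, Finset.mem_sdiff] at hi
    rcases hi with hi | ⟨hiC, hiZ⟩
    · rw [hgP i hi]; exact hbP i hi
    · refine lt_of_le_of_ne (hgC i hiC) ?_
      intro h0
      exact hiZ (Finset.mem_filter.2 ⟨hiC, h0.symm⟩)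
  have hgT0 : ∀ i, i ∉ P ∪ (C \ Z) → g i = 0 := by
    intro i hi
    rw [Finset.mem_union, Finset.mem_sdiff] at hi
    push Not at hi
    by_cases hiC : i ∈ C
    · exact (Finset.mem_filter.1 (hi.2 hiC)).2
    · exact hgout i hiC hi.1
  have hPne : P.Nonempty := Finset.card_pos.1 (by omega)
  have hgsum : 0 < ∑ i, g i := by
    obtain ⟨p, hp⟩ := hPne
    refine Finset.sum_pos' (fun i _ => ?_) ⟨p, Finset.mem_univ _, hgT p (Finset.mem_union_left _ hp)⟩
    by_cases hi : i ∈ P ∪ (C \ Z)
    · exact (hgT i hi).le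
    · rw [hgT0 i hi]
  have hcirc : Circ y (P ∪ (C \ Z)) := by
    refine ⟨fun i => g i / ∑ j, g j, ?_, ?_, ?_, ?_⟩
    · intro i hi
      exact div_pos (hgT i hi) hgsum
    · intro i hi
      dsimp only
      rw [hgT0 i hi, zero_div]
    · rw [← Finset.sum_div, div_self hgsum.ne']
    · have : ∑ i, (g i / ∑ j, g j) • y i = (∑ j, g j)⁻¹ • ∑ i, g i • y i := by
        rw [Finset.smul_sum]
        refine Finset.sum_congr rfl fun i _ => ?_
        rw [smul_smul, div_eq_inv_mul]
      rw [this, hgs, smul_zero]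
  have hdisj' : Disjoint P (C \ Z) :=
    Finset.disjoint_of_subset_right Finset.sdiff_subset hdisj.symm
  have hcardT : (P ∪ (C \ Z)).card = P.card + (C.card - Z.card) := by
    rw [Finset.card_union_of_disjoint hdisj', Finset.card_sdiff_of_subset hZC]
  have hZpos : 1 ≤ Z.card := Finset.card_pos.2 ⟨z, hzZ⟩
  have hZle : Z.card ≤ C.card := Finset.card_le_card hZC
  have hsub : P ∪ (C \ Z) ⊆ C ∪ L := by
    intro i hi
    rw [Finset.mem_union, Finset.mem_sdiff] at hi
    rw [Finset.mem_union]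
    rcases hi with hi | hi
    · exact Or.inr (hPL hi)
    · exact Or.inl hi.1
  have hc := h.card
  obtain ⟨h1, h2⟩ := h.exch _ hsub hcirc (by omega)
  exact ⟨Z, hZC, by omega, hcirc, h1, h2⟩

end Pool.Agent.MPa0a351
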