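import Pool.Agent.Lib.MP_a0a351_co.Conf

/-!
`d + 3` positively dependent vectors contain three circuits (module THREE of MP_a0a351_co).
-/

set_option autoImplicit false

open Module Finset

namespace Pool.Agent.MPa0a351

variable {ι V : Type*} [Fintype ι] [AddCommGroup V] [Module ℝ V] [FiniteDimensional ℝ V]

namespace ThreeAux

open GplAux

/-- Subtract a dependence supported on `R` from a nonnegative one until a coefficient vanishes. -/
theorem kill {y : ι → V} (R : Finset ι) (hR : finrank ℝ V < R.card) (b : ι → ℝ)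
    (hb : ∀ i ∈ R, 0 < b i) (hbnn : ∀ i, 0 ≤ b i) (hsum : ∑ i, b i • y i = 0) :
    ∃ b' : ι → ℝ, (∀ i, 0 ≤ b' i) ∧ (∀ i, i ∉ R → b' i = b i) ∧ (∃ m ∈ R, b' m = 0) ∧
      ∑ i, b' i • y i = 0 := by
  classical
  have hnli : ¬ LinearIndependent ℝ (fun i : R => y i) := by
    intro hli
    have := hli.fintype_card_le_finrank
    rw [Fintype.card_coe] at this
    omega
  rw [Fintype.not_linearIndependent_iff] at hnli
  obtain ⟨g, hg, i0, hi0⟩ := hnli
  let g1 : ι → ℝ := fun i => if hi : i ∈ R then g ⟨i, hi⟩ else 0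
  have hg10 : ∀ i, i ∉ R → g1 i = 0 := fun i hi => dif_neg hi
  have hg1y : ∑ i, g1 i • y i = 0 := by
    rw [← sum_ext_zero g1 hg10, ← Finset.sum_coe_sort R, ← hg]
    exact Finset.sum_congr rfl (fun i _ => by simp only [g1, dif_pos i.2])
  have hg1i0 : g1 i0 ≠ 0 := by simp only [g1, dif_pos i0.2]; exact hi0
  obtain ⟨g2, hg20, hg2y, i1, hi1⟩ : ∃ g2 : ι → ℝ, (∀ i, i ∉ R → g2 i = 0) ∧
      ∑ i, g2 i • y i = 0 ∧ ∃ i1, 0 < g2 i1 := by
    rcases lt_or_gt_of_ne hg1i0 with hneg | hpos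
    · refine ⟨fun i => - g1 i, fun i hi => by simp only [hg10 i hi, neg_zero], ?_, i0, by linarith⟩
      simp only [neg_smul, Finset.sum_neg_distrib, hg1y, neg_zero]
    · exact ⟨g1, hg10, hg1y, i0, hpos⟩
  set P := R.filter (fun i => 0 < g2 i) with hP
  have hi1R : i1 ∈ R := by
    by_contra hh
    have := hg20 i1 hh
    linarith
  have hPne : P.Nonempty := ⟨i1, by simp [hP, hi1R, hi1]⟩
  obtain ⟨m, hm, hmin⟩ := Finset.exists_min_image P (fun i => b i / g2 i) hPne
  have hmR : m ∈ R := (Finset.mem_filter.mp hm).1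
  have hgm : 0 < g2 m := (Finset.mem_filter.mp hm).2
  set t := b m / g2 m with ht
  have htpos : 0 < t := div_pos (hb m hmR) hgm
  refine ⟨fun i => b i - t * g2 i, ?_, ?_, ⟨m, hmR, ?_⟩, ?_⟩
  · intro i
    by_cases hiR : i ∈ R
    · by_cases hgi : 0 < g2 i
      · have h1 := hmin i (by simp [hP, hiR, hgi])
        have h2 : t * g2 i ≤ b i / g2 i * g2 i := mul_le_mul_of_nonneg_right h1 hgi.le
        rw [div_mul_cancel₀ _ hgi.ne'] at h2
        show 0 ≤ b i - t * g2 i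
        linarith
      · push Not at hgi
        have := hb i hiR
        have := mul_nonneg_of_nonpos_of_nonpos (neg_nonpos.mpr htpos.le) hgi
        show 0 ≤ b i - t * g2 i
        linarith
    · have h2 := hg20 i hiR
      show 0 ≤ b i - t * g2 i
      rw [h2, mul_zero, sub_zero]
      exact hbnn i
  · intro i hi
    show b i - t * g2 i = b i
    rw [hg20 i hi, mul_zero, sub_zero]
  · show b m - t * g2 m = 0
    rw [ht, div_mul_cancel₀ _ hgm.ne', sub_self]
  · have : ∀ i, (b i - t * g2 i) • y i = b i • y i - t • (g2 i • y i) := by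
      intro i; simp only [sub_smul, mul_smul]
    simp only [this, Finset.sum_sub_distrib, ← Finset.smul_sum, hsum, hg2y, smul_zero, sub_zero]

end ThreeAux

open ThreeAux

theorem exists_three {d : ℕ} {y : ι → V} (hd : finrank ℝ V = d) (h : GPV d y)
    (S : Finset ι) (hS : S.card = d + 3) (a : ι → ℝ) (ha : ∀ i ∈ S, 0 < a i)
    (ha0 : ∀ i, i ∉ S → a i = 0) (hsum : ∑ i, a i • y i = 0) :
    ∃ T : Fin 3 → Finset ι, (∀ i, Circ y (T i) ∧ T i ⊆ S ∧ (T i).card ≤ d + 1) ∧
      ∀ i j, i ≠ j → T i ≠ T j := by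
  classical
  have hann : ∀ i, 0 ≤ a i := fun i => by
    by_cases hi : i ∈ S
    · exact (ha i hi).le
    · exact (ha0 i hi).ge
  have hmemS : ∀ i, 0 < a i → i ∈ S := fun i hi => by
    by_contra hh
    rw [ha0 i hh] at hi
    exact lt_irrefl _ hi
  -- it suffices to find three distinct circuits
  suffices hsuff : ∃ T1 T2 T3 : Finset ι, (Circ y T1 ∧ T1 ⊆ S ∧ T1.card ≤ d + 1) ∧
      (Circ y T2 ∧ T2 ⊆ S ∧ T2.card ≤ d + 1) ∧ (Circ y T3 ∧ T3 ⊆ S ∧ T3.card ≤ d + 1) ∧
      T1 ≠ T2 ∧ T1 ≠ T3 ∧ T2 ≠ T3 by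
    obtain ⟨T1, T2, T3, h1, h2, h3, n12, n13, n23⟩ := hsuff
    refine ⟨![T1, T2, T3], ?_, ?_⟩
    · intro i
      fin_cases i
      · exact h1
      · exact h2
      · exact h3
    · intro i j hij
      fin_cases i <;> fin_cases j <;>
        first
        | exact absurd rfl hij
        | exact n12
        | exact n13
        | exact n23
        | exact n12.symm
        | exact n13.symm
        | exact n23.symm
  have hSne : S.Nonempty := by rw [← Finset.card_pos]; omega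
  obtain ⟨x1, hx1⟩ := hSne
  obtain ⟨T1, hx1T, hT1a, hT1, hT1c⟩ := exists_circ_mem hd a hann hsum x1 (ha x1 hx1)
  have hT1S : T1 ⊆ S := fun i hi => hmemS i (hT1a i hi)
  have hex2 : ∃ x ∈ S, x ∉ T1 := by
    by_contra hcon
    push Not at hcon
    have := Finset.card_le_card (show S ⊆ T1 from hcon)
    omega
  obtain ⟨x2, hx2, hx2T1⟩ := hex2
  obtain ⟨T2, hx2T, hT2a, hT2, hT2c⟩ := exists_circ_mem hd a hann hsum x2 (ha x2 hx2)
  have hT2S : T2 ⊆ S := fun i hi => hmemS i (hT2a i hi)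
  have n12 : T1 ≠ T2 := fun hh => hx2T1 (hh ▸ hx2T)
  by_cases hU : T1 ∪ T2 = S
  · -- the union is everything
    have hUc := h.union hT1 hT2 n12
    obtain ⟨t1, ht1, ht1'⟩ : ∃ t ∈ T1, t ∉ T2 := by
      by_contra hcon
      push Not at hcon
      have : T1 ∪ T2 = T2 := Finset.union_eq_right.mpr hcon
      rw [this] at hUc
      omega
    obtain ⟨t2, ht2, ht2'⟩ : ∃ t ∈ T2, t ∉ T1 := ⟨x2, hx2T, hx2T1⟩
    have ht12 : t1 ≠ t2 := fun hh => ht2' (hh ▸ ht1)
    have ht1S := hT1S ht1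
    have ht2S := hT2S ht2
    set R := (S.erase t1).erase t2 with hR
    have hRc : R.card = d + 1 := by
      rw [hR, Finset.card_erase_of_mem (Finset.mem_erase.mpr ⟨ht12.symm, ht2S⟩),
        Finset.card_erase_of_mem ht1S]
      omega
    have hRS : R ⊆ S := (Finset.erase_subset _ _).trans (Finset.erase_subset _ _)
    obtain ⟨b, hbnn, hboff, ⟨m, hmR, hbm⟩, hby⟩ := kill R (by omega) a
      (fun i hi => ha i (hRS hi)) hann hsum
    have hbt1 : 0 < b t1 := by
      rw [hboff t1 (fun hh => (Finset.mem_erase.mp (Finset.mem_of_mem_erase hh)).1 rfl)]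
      exact ha t1 ht1S
    have hbt2 : 0 < b t2 := by
      rw [hboff t2 (fun hh => (Finset.mem_erase.mp hh).1 rfl)]
      exact ha t2 ht2S
    have hbS : ∀ i, 0 < b i → i ∈ S := by
      intro i hi
      by_contra hh
      rw [hboff i (fun hh' => hh (hRS hh')), ha0 i hh] at hi
      exact lt_irrefl _ hi
    by_cases hm1 : m ∈ T1
    · obtain ⟨T3, ht1T3, hT3b, hT3, hT3c⟩ := exists_circ_mem hd b hbnn hby t1 hbt1
      refine ⟨T1, T2, T3, ⟨hT1, hT1S, hT1c⟩, ⟨hT2, hT2S, hT2c⟩,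
        ⟨hT3, fun i hi => hbS i (hT3b i hi), hT3c⟩, n12, ?_, ?_⟩
      · intro hh
        have := hT3b m (hh ▸ hm1)
        rw [hbm] at this
        exact lt_irrefl _ this
      · exact fun hh => ht1' (hh ▸ ht1T3)
    · have hm2 : m ∈ T2 := by
        have := hRS hmR
        rw [← hU] at this
        exact (Finset.mem_union.mp this).resolve_left hm1
      obtain ⟨T3, ht2T3, hT3b, hT3, hT3c⟩ := exists_circ_mem hd b hbnn hby t2 hbt2
      refine ⟨T1, T2, T3, ⟨hT1, hT1S, hT1c⟩, ⟨hT2, hT2S, hT2c⟩,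
        ⟨hT3, fun i hi => hbS i (hT3b i hi), hT3c⟩, n12, ?_, ?_⟩
      · exact fun hh => ht2' (hh ▸ ht2T3)
      · intro hh
        have := hT3b m (hh ▸ hm2)
        rw [hbm] at this
        exact lt_irrefl _ this
  · obtain ⟨x3, hx3S, hx3⟩ : ∃ x ∈ S, x ∉ T1 ∪ T2 := by
      by_contra hcon
      push Not at hcon
      exact hU (Finset.Subset.antisymm (Finset.union_subset hT1S hT2S) hcon)
    rw [Finset.mem_union, not_or] at hx3
    obtain ⟨T3, hx3T, hT3a, hT3, hT3c⟩ := exists_circ_mem hd a hann hsum x3 (ha x3 hx3S)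
    exact ⟨T1, T2, T3, ⟨hT1, hT1S, hT1c⟩, ⟨hT2, hT2S, hT2c⟩,
      ⟨hT3, fun i hi => hmemS i (hT3a i hi), hT3c⟩, n12,
      fun hh => hx3.1 (hh ▸ hx3T), fun hh => hx3.2 (hh ▸ hx3T)⟩

end Pool.Agent.MPa0a351
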