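import Pool.Agent.Lib.MP_a0a351_co.T3
import Pool.Agent.Lib.MP_a0a351_co.Three
import Pool.Agent.Lib.MP_a0a351_co.ModC

set_option autoImplicit false

open Module Finset

namespace Pool.Agent.MPa0a351

section Vec

variable {ι V : Type*} [Fintype ι] [AddCommGroup V] [Module ℝ V] [FiniteDimensional ℝ V]

namespace B4Aux

omit [FiniteDimensional ℝ V] in
theorem mem_sp_iff {y : ι → V} {T : Finset ι} {x : V} :
    x ∈ Sp y T ↔ ∃ g : ι → ℝ, (∀ i, i ∉ T → g i = 0) ∧ ∑ i, g i • y i = x := by
  classical
  unfold Sp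
  constructor
  · intro hx
    rw [Submodule.mem_span_image_finset_iff_exists_fun] at hx
    obtain ⟨c, hc⟩ := hx
    refine ⟨fun i => if h : i ∈ T then c ⟨i, h⟩ else 0, fun i hi => by simp [hi], ?_⟩
    rw [← hc]
    rw [← Finset.sum_subset (Finset.subset_univ T) (fun i _ hi => by simp [hi])]
    rw [← Finset.sum_coe_sort T]
    exact Finset.sum_congr rfl (fun i _ => by simp)
  · rintro ⟨g, hg, rfl⟩
    rw [← Finset.sum_subset (Finset.subset_univ T) (fun i _ hi => by simp [hg i hi])]
    exact Submodule.sum_mem _ (fun i hi => Submodule.smul_mem _ _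
      (Submodule.subset_span ⟨i, hi, rfl⟩))

/-- Big multiple: if `f > 0` on a finset then `K * f + g > 0` there for large `K`. -/
theorem exists_big {s : Finset ι} (f g : ι → ℝ) (hf : ∀ i ∈ s, 0 < f i) :
    ∃ K : ℝ, 0 < K ∧ ∀ i ∈ s, 0 < K * f i + g i := by
  classical
  induction s using Finset.induction_on with
  | empty => exact ⟨1, one_pos, by simp⟩
  | insert a s ha ih =>
    obtain ⟨K, hK, hK'⟩ := ih (fun i hi => hf i (Finset.mem_insert_of_mem hi))
    have hfa := hf a (Finset.mem_insert_self _ _)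
    refine ⟨max K ((|g a| + 1) / f a), lt_max_of_lt_left hK, ?_⟩
    intro i hi
    rcases Finset.mem_insert.mp hi with rfl | hi'
    · have h1 : (|g i| + 1) / f i * f i ≤ max K ((|g i| + 1) / f i) * f i :=
        mul_le_mul_of_nonneg_right (le_max_right _ _) hfa.le
      rw [div_mul_cancel₀ _ hfa.ne'] at h1
      have h2 := neg_abs_le (g i)
      linarith
    · have h1 : K * f i ≤ max K ((|g a| + 1) / f a) * f i :=
        mul_le_mul_of_nonneg_right (le_max_left _ _)
          (hf i (Finset.mem_insert_of_mem hi')).le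
      have := hK' i hi'
      linarith

end B4Aux

open B4Aux

theorem Row.bound4 {d c : ℕ} {y : ι → V} [DecidableEq ι] {E : Submodule ℝ V} {C L : Finset ι}
    (h : Row d c y E C L) (hL : 2 * c + 3 ≤ L.card) : 4 * c + finrank ℝ E ≤ d := by
  classical
  obtain ⟨P, hPL, hPc, hPC⟩ := h.exists_P
  have hCd := h.card
  have hEC : E ≤ Sp y C := (h.exch C subset_union_left h.circ (by omega)).2
  have hcard : (L \ P).card = L.card - (c + 1) := by
    rw [Finset.card_sdiff_of_subset hPL]; omega
  have hnb : ∀ x ∈ L \ P, ∃ z ∈ P, PC y C (insert x (P.erase z)) := fun x hx =>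
    h.neighbour hPL hPc hPC (Finset.mem_sdiff.mp hx).1 (Finset.mem_sdiff.mp hx).2
  choose! z hzP hPCz using hnb
  obtain ⟨x1, hx1, x2, hx2, hne12, hz12⟩ :=
    Finset.exists_ne_map_eq_of_card_lt_of_maps_to (s := L \ P) (t := P) (f := z)
      (by rw [hcard, hPc]; omega) (fun x hx => hzP x hx)
  set z0 := z x1 with hz0
  have hz0P : z0 ∈ P := hzP x1 hx1
  set P0 := P.erase z0 with hP0
  have hP0c : P0.card = c := by rw [hP0, Finset.card_erase_of_mem hz0P]; omega
  have hx1L := (Finset.mem_sdiff.mp hx1).1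
  have hx1P := (Finset.mem_sdiff.mp hx1).2
  have hx2L := (Finset.mem_sdiff.mp hx2).1
  have hx2P := (Finset.mem_sdiff.mp hx2).2
  have hPC1 : PC y C (insert x1 P0) := hPCz x1 hx1
  have hPC2 : PC y C (insert x2 P0) := by
    have := hPCz x2 hx2
    rw [← hz12] at this
    exact this
  have hPins : insert z0 P0 = P := Finset.insert_erase hz0P
  have hdisjCL := h.disj
  have notC : ∀ i, i ∈ L → i ∉ C := fun i hi hiC => Finset.disjoint_left.mp hdisjCL hiC hi
  have hP0P : P0 ⊆ P := Finset.erase_subset _ _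
  have hP0L : P0 ⊆ L := hP0P.trans hPL
  -- dependence of C
  obtain ⟨α, hα, hα0, hα1, hαy⟩ := h.circ
  -- circuit T1
  obtain ⟨Z, hZC, hZc, hT1, hT1c, hET1⟩ := h.lift hPL hPc hPC
  set T1 := P ∪ (C \ Z) with hT1def
  obtain ⟨a1, ha1, ha10, -, ha1y⟩ := id hT1
  have ha1nn : ∀ i, 0 ≤ a1 i := fun i => by
    by_cases hi : i ∈ T1
    · exact (ha1 i hi).le
    · exact (ha10 i hi).ge
  -- the relations for z0, x1, x2
  obtain ⟨b0, hb0, hb00, hb0y⟩ := id hPC
  obtain ⟨b1, hb1, hb10, hb1y⟩ := id hPC1
  obtain ⟨b2, hb2, hb20, hb2y⟩ := id hPC2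
  obtain ⟨g1, hg10, hg1y⟩ := mem_sp_iff.mp hb1y
  obtain ⟨g2, hg20, hg2y⟩ := mem_sp_iff.mp hb2y
  -- δ_t = b_t - g_t
  set δ1 : ι → ℝ := fun i => b1 i - g1 i with hδ1
  set δ2 : ι → ℝ := fun i => b2 i - g2 i with hδ2
  have hδ1y : ∑ i, δ1 i • y i = 0 := by
    simp only [hδ1, sub_smul, Finset.sum_sub_distrib, hg1y, sub_self]
  have hδ2y : ∑ i, δ2 i • y i = 0 := by
    simp only [hδ2, sub_smul, Finset.sum_sub_distrib, hg2y, sub_self]
  -- choose a in Z
  have hZne : Z.Nonempty := by rw [← Finset.card_pos]; omega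
  obtain ⟨a', ha'Z, ha'min⟩ := Finset.exists_min_image Z (fun i => δ1 i / α i) hZne
  set Z' := Z.filter (fun i => δ1 i / α i = δ1 a' / α a') with hZ'
  have hZ'ne : Z'.Nonempty := ⟨a', by simp [hZ', ha'Z]⟩
  obtain ⟨a, haZ', hamin⟩ := Finset.exists_min_image Z' (fun i => δ2 i / α i) hZ'ne
  have haZ : a ∈ Z := (Finset.mem_filter.mp haZ').1
  have hρa : δ1 a / α a = δ1 a' / α a' := (Finset.mem_filter.mp haZ').2
  have haC : a ∈ C := hZC haZ
  have hαa : 0 < α a := hα a haC
  -- D2
  set ρ1 := δ1 a / α a with hρ1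
  set ρ2 := δ2 a / α a with hρ2
  obtain ⟨K, hK, hKpos⟩ := exists_big (s := C \ Z) a1 (fun i => δ1 i - ρ1 * α i)
    (fun i hi => ha1 i (Finset.mem_union_right _ hi))
  set D2 : ι → ℝ := fun i => K * a1 i + (δ1 i - ρ1 * α i) with hD2
  have hD2y : ∑ i, D2 i • y i = 0 := by
    have : ∀ i, D2 i • y i = K • (a1 i • y i) + (δ1 i • y i - ρ1 • (α i • y i)) := by
      intro i
      simp only [hD2, add_smul, sub_smul, mul_smul]
    simp only [this, Finset.sum_add_distrib, Finset.sum_sub_distrib, ← Finset.smul_sum, ha1y,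
      hδ1y, hαy, smul_zero, sub_zero, add_zero]
  have hZle1 : ∀ i ∈ Z, 0 ≤ δ1 i - ρ1 * α i := by
    intro i hi
    have hαi := hα i (hZC hi)
    have h1 := ha'min i hi
    rw [← hρa] at h1
    have h2 : ρ1 * α i ≤ δ1 i / α i * α i := mul_le_mul_of_nonneg_right h1 hαi.le
    rw [div_mul_cancel₀ _ hαi.ne'] at h2
    linarith
  have hT1Z : ∀ i ∈ Z, i ∉ T1 := by
    intro i hi hiT
    rcases Finset.mem_union.mp hiT with hh | hh
    · exact notC i (hPL hh) (hZC hi)
    · exact (Finset.mem_sdiff.mp hh).2 hi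
  have hαP : ∀ i, i ∈ L → α i = 0 := fun i hi => hα0 i (notC i hi)
  have hg1P : ∀ i, i ∈ L → g1 i = 0 := fun i hi => hg10 i (notC i hi)
  have hg2P : ∀ i, i ∈ L → g2 i = 0 := fun i hi => hg20 i (notC i hi)
  have hb1nn : ∀ i, 0 ≤ b1 i := fun i => by
    by_cases hi : i ∈ insert x1 P0
    · exact (hb1 i hi).le
    · exact (hb10 i hi).ge
  have hb2nn : ∀ i, 0 ≤ b2 i := fun i => by
    by_cases hi : i ∈ insert x2 P0
    · exact (hb2 i hi).le
    · exact (hb20 i hi).ge
  have hb1C : ∀ i ∈ C, b1 i = 0 := fun i hi => hb10 i (fun hh => by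
    rcases Finset.mem_insert.mp hh with hh | hh
    · exact notC i (hh ▸ hx1L) hi
    · exact notC i (hP0L hh) hi)
  have hb2C : ∀ i ∈ C, b2 i = 0 := fun i hi => hb20 i (fun hh => by
    rcases Finset.mem_insert.mp hh with hh | hh
    · exact notC i (hh ▸ hx2L) hi
    · exact notC i (hP0L hh) hi)
  -- outside C
  have hoff1 : ∀ i, i ∉ C → D2 i = K * a1 i + b1 i := fun i hi => by
    simp only [hD2, hδ1, hα0 i hi, hg10 i hi]; ring
  have hD2nn : ∀ i, 0 ≤ D2 i := by
    intro i
    by_cases hiC : i ∈ C
    · by_cases hiZ : i ∈ Z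
      · have := hZle1 i hiZ
        have h0 := ha1nn i
        have := mul_nonneg hK.le h0
        simp only [hD2]; linarith
      · exact (hKpos i (Finset.mem_sdiff.mpr ⟨hiC, hiZ⟩)).le
    · rw [hoff1 i hiC]
      exact add_nonneg (mul_nonneg hK.le (ha1nn i)) (hb1nn i)
  have hx1ne : x1 ∉ P0 := fun hh => hx1P (hP0P hh)
  have hx2ne : x2 ∉ P0 := fun hh => hx2P (hP0P hh)
  have hD2x1 : 0 < D2 x1 := by
    rw [hoff1 x1 (notC x1 hx1L)]
    have := hb1 x1 (Finset.mem_insert_self _ _)
    have := mul_nonneg hK.le (ha1nn x1)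
    linarith
  have hT1x2 : x2 ∉ T1 := fun hh => by
    rcases Finset.mem_union.mp hh with hh | hh
    · exact hx2P hh
    · exact notC x2 hx2L (Finset.mem_sdiff.mp hh).1
  have hT1x1 : x1 ∉ T1 := fun hh => by
    rcases Finset.mem_union.mp hh with hh | hh
    · exact hx1P hh
    · exact notC x1 hx1L (Finset.mem_sdiff.mp hh).1
  have hD2x2 : D2 x2 = 0 := by
    rw [hoff1 x2 (notC x2 hx2L), ha10 x2 hT1x2, hb10 x2 (fun hh => by
      rcases Finset.mem_insert.mp hh with hh | hh
      · exact hne12 hh.symm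
      · exact hx2ne hh)]
    ring
  have hρaα : δ1 a - ρ1 * α a = 0 := by rw [hρ1, div_mul_cancel₀ _ hαa.ne', sub_self]
  have hD2a : D2 a = 0 := by
    simp only [hD2]
    rw [ha10 a (hT1Z a haZ), hρaα]; ring
  -- D3
  obtain ⟨K', hK', hKpos'⟩ := exists_big (s := univ.filter (fun i => 0 < D2 i)) D2
    (fun i => δ2 i - ρ2 * α i) (fun i hi => (Finset.mem_filter.mp hi).2)
  set D3 : ι → ℝ := fun i => K' * D2 i + (δ2 i - ρ2 * α i) with hD3
  have hD3y : ∑ i, D3 i • y i = 0 := by
    have : ∀ i, D3 i • y i = K' • (D2 i • y i) + (δ2 i • y i - ρ2 • (α i • y i)) := by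
      intro i
      simp only [hD3, add_smul, sub_smul, mul_smul]
    simp only [this, Finset.sum_add_distrib, Finset.sum_sub_distrib, ← Finset.smul_sum, hD2y,
      hδ2y, hαy, smul_zero, sub_zero, add_zero]
  have hoff2 : ∀ i, i ∉ C → D3 i = K' * D2 i + b2 i := fun i hi => by
    simp only [hD3, hδ2, hα0 i hi, hg20 i hi]; ring
  have hD3nn : ∀ i, 0 ≤ D3 i := by
    intro i
    by_cases hiC : i ∈ C
    · rcases (hD2nn i).lt_or_eq with hpos | hzero
      · exact (hKpos' i (by simp [hpos])).le
      · -- D2 i = 0, so i ∈ Z'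
        have hiZ : i ∈ Z := by
          by_contra hiZ
          have := hKpos i (Finset.mem_sdiff.mpr ⟨hiC, hiZ⟩)
          rw [hD2] at hzero
          simp only at hzero
          linarith
        have hαi := hα i hiC
        have h1 : δ1 i - ρ1 * α i = 0 := by
          have h0 : a1 i = 0 := ha10 i (hT1Z i hiZ)
          rw [hD2] at hzero
          simp only [h0] at hzero
          linarith
        have hiZ' : i ∈ Z' := by
          rw [hZ', Finset.mem_filter]
          refine ⟨hiZ, ?_⟩
          rw [← hρa, div_eq_iff hαi.ne']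
          linarith
        have h2 := hamin i hiZ'
        have h3 : ρ2 * α i ≤ δ2 i / α i * α i := mul_le_mul_of_nonneg_right h2 hαi.le
        rw [div_mul_cancel₀ _ hαi.ne'] at h3
        simp only [hD3, ← hzero]
        linarith
    · rw [hoff2 i hiC]
      exact add_nonneg (mul_nonneg hK'.le (hD2nn i)) (hb2nn i)
  have hD3x2 : 0 < D3 x2 := by
    rw [hoff2 x2 (notC x2 hx2L)]
    have := hb2 x2 (Finset.mem_insert_self _ _)
    have := mul_nonneg hK'.le (hD2nn x2)
    linarith
  have hD3a : D3 a = 0 := by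
    simp only [hD3]
    rw [hD2a, hρ2, div_mul_cancel₀ _ hαa.ne', sub_self]; ring
  -- circuits T2, T3
  obtain ⟨T2, hxT2, hT2D, hT2, hT2c⟩ := exists_circ_mem h.hd D2 hD2nn hD2y x1 hD2x1
  obtain ⟨T3, hxT3, hT3D, hT3, hT3c⟩ := exists_circ_mem h.hd D3 hD3nn hD3y x2 hD3x2
  set S := (C.erase a) ∪ P ∪ {x1, x2} with hS
  have hScard : S.card = d + 3 := by
    have hd1 : Disjoint (C.erase a) P := by
      rw [Finset.disjoint_left]
      intro i hi hiP
      exact notC i (hPL hiP) (Finset.mem_of_mem_erase hi)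
    have hd2 : Disjoint (C.erase a ∪ P) ({x1, x2} : Finset ι) := by
      rw [Finset.disjoint_right]
      intro i hi hh
      rcases Finset.mem_insert.mp hi with rfl | hi
      · rcases Finset.mem_union.mp hh with hh | hh
        · exact notC _ hx1L (Finset.mem_of_mem_erase hh)
        · exact hx1P hh
      · rw [Finset.mem_singleton] at hi
        subst hi
        rcases Finset.mem_union.mp hh with hh | hh
        · exact notC _ hx2L (Finset.mem_of_mem_erase hh)
        · exact hx2P hh
    rw [hS, Finset.card_union_of_disjoint hd2, Finset.card_union_of_disjoint hd1,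
      Finset.card_erase_of_mem haC, Finset.card_pair hne12]
    have : 0 < C.card := Finset.card_pos.mpr ⟨a, haC⟩
    omega
  have hsuppD2 : ∀ i, 0 < D2 i → i ∈ S := by
    intro i hi
    have hia : i ≠ a := fun hh => by rw [hh, hD2a] at hi; exact lt_irrefl _ hi
    by_cases hiC : i ∈ C
    · exact Finset.mem_union_left _ (Finset.mem_union_left _ (Finset.mem_erase.mpr ⟨hia, hiC⟩))
    · rw [hoff1 i hiC] at hi
      by_cases hiP : i ∈ P
      · exact Finset.mem_union_left _ (Finset.mem_union_right _ hiP)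
      · have h1 : a1 i = 0 := ha10 i (fun hh => by
          rcases Finset.mem_union.mp hh with hh | hh
          · exact hiP hh
          · exact hiC (Finset.mem_sdiff.mp hh).1)
        rw [h1] at hi
        have h2 : i ∈ insert x1 P0 := by
          by_contra hh
          rw [hb10 i hh] at hi
          simp at hi
        rcases Finset.mem_insert.mp h2 with h2 | h2
        · exact Finset.mem_union_right _ (by simp [h2])
        · exact absurd (hP0P h2) hiP
  have hsuppD3 : ∀ i, 0 < D3 i → i ∈ S := by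
    intro i hi
    have hia : i ≠ a := fun hh => by rw [hh, hD3a] at hi; exact lt_irrefl _ hi
    by_cases hiC : i ∈ C
    · exact Finset.mem_union_left _ (Finset.mem_union_left _ (Finset.mem_erase.mpr ⟨hia, hiC⟩))
    · rw [hoff2 i hiC] at hi
      rcases (hD2nn i).lt_or_eq with hpos | hzero
      · exact hsuppD2 i hpos
      · rw [← hzero] at hi
        have h2 : i ∈ insert x2 P0 := by
          by_contra hh
          rw [hb20 i hh] at hi
          simp at hi
        rcases Finset.mem_insert.mp h2 with h2 | h2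
        · exact Finset.mem_union_right _ (by simp [h2])
        · exact Finset.mem_union_left _ (Finset.mem_union_right _ (hP0P h2))
  have haT1 : a ∉ T1 := hT1Z a haZ
  have hT1S : T1 ⊆ S := by
    intro i hi
    rcases Finset.mem_union.mp hi with hh | hh
    · exact Finset.mem_union_left _ (Finset.mem_union_right _ hh)
    · exact Finset.mem_union_left _ (Finset.mem_union_left _ (Finset.mem_erase.mpr
        ⟨fun hia => haT1 (hia ▸ hi), (Finset.mem_sdiff.mp hh).1⟩))
  have hT2S : T2 ⊆ S := fun i hi => hsuppD2 i (hT2D i hi)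
  have hT3S : T3 ⊆ S := fun i hi => hsuppD3 i (hT3D i hi)
  have hSCL : S ⊆ C ∪ L := by
    intro i hi
    simp only [hS, Finset.mem_union, Finset.mem_insert, Finset.mem_singleton] at hi ⊢
    rcases hi with (hi | hi) | hi | hi
    · exact Or.inl (Finset.mem_of_mem_erase hi)
    · exact Or.inr (hPL hi)
    · exact Or.inr (hi ▸ hx1L)
    · exact Or.inr (hi ▸ hx2L)
  -- independence of P0 modulo Sp y C
  have hindep : LinearIndependent ℝ (fun i : P0 => (Sp y C).mkQ (y i)) :=
    h.gp.indep h.circ P0 (Finset.disjoint_of_subset_right hP0L h.disj) (by omega)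
  -- P0 is contained in every circuit of S that contains z0, x1 or x2
  have key : ∀ T : Finset ι, T ⊆ S → Circ y T → (z0 ∈ T ∨ x1 ∈ T ∨ x2 ∈ T) → P0 ⊆ T := by
    rintro T hTS ⟨t, ht, ht0, -, hty⟩ hq
    have htnn : ∀ i, 0 ≤ t i := fun i => by
      by_cases hi : i ∈ T
      · exact (ht i hi).le
      · exact (ht0 i hi).ge
    have hbz0 := hb0 z0 hz0P
    have hbx1 := hb1 x1 (Finset.mem_insert_self _ _)
    have hbx2 := hb2 x2 (Finset.mem_insert_self _ _)
    set s0 := t z0 / b0 z0 with hs0
    set s1 := t x1 / b1 x1 with hs1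
    set s2 := t x2 / b2 x2 with hs2
    have hs0nn : 0 ≤ s0 := div_nonneg (htnn _) hbz0.le
    have hs1nn : 0 ≤ s1 := div_nonneg (htnn _) hbx1.le
    have hs2nn : 0 ≤ s2 := div_nonneg (htnn _) hbx2.le
    -- the combination s0 b0 + s1 b1 + s2 b2 - t off C is supported on P0
    set w : ι → ℝ := fun i => s0 * b0 i + s1 * b1 i + s2 * b2 i - t i with hw
    have hz0ne1 : z0 ≠ x1 := fun hh => hx1P (hh ▸ hz0P)
    have hz0ne2 : z0 ≠ x2 := fun hh => hx2P (hh ▸ hz0P)
    have hz0P0 : z0 ∉ P0 := by rw [hP0]; exact Finset.notMem_erase _ _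
    have hwoff : ∀ i, i ∉ C → i ∉ P0 → w i = 0 := by
      intro i hiC hiP0
      by_cases hi0 : i = z0
      · subst hi0
        have e1 : b1 z0 = 0 := hb10 _ (fun hh => by
          rcases Finset.mem_insert.mp hh with hh | hh
          · exact hz0ne1 hh
          · exact hz0P0 hh)
        have e2 : b2 z0 = 0 := hb20 _ (fun hh => by
          rcases Finset.mem_insert.mp hh with hh | hh
          · exact hz0ne2 hh
          · exact hz0P0 hh)
        simp only [hw, e1, e2, hs0]
        rw [div_mul_cancel₀ _ hbz0.ne']; ring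
      · by_cases hi1 : i = x1
        · rw [hi1]
          have e0 : b0 x1 = 0 := hb00 _ hx1P
          have e2 : b2 x1 = 0 := hb20 _ (fun hh => by
            rcases Finset.mem_insert.mp hh with hh | hh
            · exact hne12 hh
            · exact hx1ne hh)
          simp only [hw, e0, e2, hs1]
          rw [div_mul_cancel₀ _ hbx1.ne']; ring
        · by_cases hi2 : i = x2
          · rw [hi2]
            have e0 : b0 x2 = 0 := hb00 _ hx2P
            have e1 : b1 x2 = 0 := hb10 _ (fun hh => by
              rcases Finset.mem_insert.mp hh with hh | hh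
              · exact hne12 hh.symm
              · exact hx2ne hh)
            simp only [hw, e0, e1, hs2]
            rw [div_mul_cancel₀ _ hbx2.ne']; ring
          · have e0 : b0 i = 0 := hb00 _ (fun hh => by
              rw [← hPins] at hh
              rcases Finset.mem_insert.mp hh with hh | hh
              · exact hi0 hh
              · exact hiP0 hh)
            have e1 : b1 i = 0 := hb10 _ (fun hh => by
              rcases Finset.mem_insert.mp hh with hh | hh
              · exact hi1 hh
              · exact hiP0 hh)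
            have e2 : b2 i = 0 := hb20 _ (fun hh => by
              rcases Finset.mem_insert.mp hh with hh | hh
              · exact hi2 hh
              · exact hiP0 hh)
            have e3 : t i = 0 := ht0 i (fun hh => by
              have := hTS hh
              simp only [hS, Finset.mem_union, Finset.mem_insert, Finset.mem_singleton] at this
              rcases this with (hh | hh) | hh | hh
              · exact hiC (Finset.mem_of_mem_erase hh)
              · rw [← hPins] at hh
                rcases Finset.mem_insert.mp hh with hh | hh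
                · exact hi0 hh
                · exact hiP0 hh
              · exact hi1 hh
              · exact hi2 hh)
            simp only [hw, e0, e1, e2, e3]; ring
    have hwsp : ∑ i, w i • y i ∈ Sp y C := by
      have : ∑ i, w i • y i = s0 • (∑ i, b0 i • y i) + s1 • (∑ i, b1 i • y i)
          + s2 • (∑ i, b2 i • y i) - ∑ i, t i • y i := by
        simp only [hw, sub_smul, add_smul, mul_smul, Finset.sum_sub_distrib,
          Finset.sum_add_distrib, ← Finset.smul_sum]
      rw [this, hty, sub_zero]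
      exact Submodule.add_mem _ (Submodule.add_mem _ (Submodule.smul_mem _ _ hb0y)
        (Submodule.smul_mem _ _ hb1y)) (Submodule.smul_mem _ _ hb2y)
    have hwP0 : ∑ i ∈ P0, w i • y i ∈ Sp y C := by
      have h1 : ∑ i, w i • y i = ∑ i ∈ P0, w i • y i + ∑ i ∈ C, w i • y i := by
        rw [← Finset.sum_union (Finset.disjoint_left.mpr fun i hi hiC => notC i (hP0L hi) hiC)]
        symm
        refine Finset.sum_subset (Finset.subset_univ _) (fun i _ hi => ?_)
        rw [Finset.mem_union, not_or] at hi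
        rw [hwoff i hi.2 hi.1, zero_smul]
      have h2 : ∑ i ∈ C, w i • y i ∈ Sp y C :=
        Submodule.sum_mem _ (fun i hi => Submodule.smul_mem _ _
          (Submodule.subset_span ⟨i, hi, rfl⟩))
      have h3 : ∑ i ∈ P0, w i • y i = ∑ i, w i • y i - ∑ i ∈ C, w i • y i := by
        rw [h1]; abel
      rw [h3]
      exact Submodule.sub_mem _ hwsp h2
    have hw0 : ∀ i ∈ P0, w i = 0 := by
      have h1 : ∑ i : P0, w i • (Sp y C).mkQ (y i) = 0 := by
        have h2 : (Sp y C).mkQ (∑ i ∈ P0, w i • y i) = 0 := by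
          rwa [Submodule.mkQ_apply, Submodule.Quotient.mk_eq_zero]
        rw [map_sum] at h2
        rw [← h2, ← Finset.sum_coe_sort P0 (fun i => (Sp y C).mkQ (w i • y i))]
        exact Finset.sum_congr rfl (fun i _ => by rw [map_smul])
      have h3 := Fintype.linearIndependent_iff.mp hindep (fun i => w i) h1
      exact fun i hi => h3 ⟨i, hi⟩
    intro i hi
    by_contra hiT
    have h1 := hw0 i hi
    simp only [hw, ht0 i hiT, sub_zero] at h1
    have p0 : 0 < b0 i := hb0 i (hP0P hi)
    have p1 : 0 < b1 i := hb1 i (Finset.mem_insert_of_mem hi)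
    have p2 : 0 < b2 i := hb2 i (Finset.mem_insert_of_mem hi)
    have q0 := mul_nonneg hs0nn p0.le
    have q1 := mul_nonneg hs1nn p1.le
    have q2 := mul_nonneg hs2nn p2.le
    rcases hq with hq | hq | hq
    · have : 0 < s0 * b0 i := mul_pos (div_pos (ht _ hq) hbz0) p0
      linarith
    · have : 0 < s1 * b1 i := mul_pos (div_pos (ht _ hq) hbx1) p1
      linarith
    · have : 0 < s2 * b2 i := mul_pos (div_pos (ht _ hq) hbx2) p2
      linarith
  have hz0T1 : z0 ∈ T1 := Finset.mem_union_left _ hz0P
  have hk1 := key T1 hT1S hT1 (Or.inl hz0T1)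
  have hk2 := key T2 hT2S hT2 (Or.inr (Or.inl hxT2))
  have hk3 := key T3 hT3S hT3 (Or.inr (Or.inr hxT3))
  have hx2T2 : x2 ∉ T2 := fun hh => by
    have := hT2D _ hh
    rw [hD2x2] at this
    exact lt_irrefl _ this
  have e1 := h.exch T1 (hT1S.trans hSCL) hT1 (by omega)
  have e2 := h.exch T2 (hT2S.trans hSCL) hT2 hT2c
  have e3 := h.exch T3 (hT3S.trans hSCL) hT3 hT3c
  -- the subspace F
  have hspmono : ∀ {A B : Finset ι}, A ⊆ B → Sp y A ≤ Sp y B := fun {A B} hAB =>
    Submodule.span_mono (Set.image_mono (by exact_mod_cast hAB))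
  have hinf : Sp y C ⊓ Sp y P0 = ⊥ := by
    rw [eq_bot_iff]
    rintro v ⟨hvC, hvP⟩
    obtain ⟨g, hg0, hgy⟩ := mem_sp_iff.mp hvP
    have h0 : ∑ i ∈ P0, g i • y i = v := by
      rw [← hgy]
      exact Finset.sum_subset (Finset.subset_univ _) (fun i _ hi => by rw [hg0 i hi, zero_smul])
    have h1 : ∑ i : P0, g i • (Sp y C).mkQ (y i) = 0 := by
      have h2 : (Sp y C).mkQ (∑ i ∈ P0, g i • y i) = 0 := by
        rw [h0]
        rwa [Submodule.mkQ_apply, Submodule.Quotient.mk_eq_zero]
      rw [map_sum] at h2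
      rw [← h2, ← Finset.sum_coe_sort P0 (fun i => (Sp y C).mkQ (g i • y i))]
      exact Finset.sum_congr rfl (fun i _ => by rw [map_smul])
    have h3 := Fintype.linearIndependent_iff.mp hindep (fun i => g i) h1
    rw [Submodule.mem_bot, ← h0]
    exact Finset.sum_eq_zero (fun i hi => by rw [h3 ⟨i, hi⟩, zero_smul])
  have hP0rank : finrank ℝ (Sp y P0) = c := by
    have hli : LinearIndependent ℝ (fun i : P0 => y i) := hindep.of_comp _
    have : Sp y P0 = Submodule.span ℝ (Set.range (fun i : P0 => y i)) := by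
      unfold Sp
      congr 1
      ext v
      simp
    rw [this, finrank_span_eq_card hli, Fintype.card_coe, hP0c]
  have hFrank : finrank ℝ ↥(E ⊔ Sp y P0) = finrank ℝ E + c := by
    have h1 := Submodule.finrank_sup_add_finrank_inf_eq E (Sp y P0)
    have h2 : E ⊓ Sp y P0 = ⊥ := by
      rw [eq_bot_iff, ← hinf]
      exact inf_le_inf_right _ hEC
    rw [h2, finrank_bot, hP0rank] at h1
    omega
  have hT := three_circuits h.hd h.gp S hScard ![T1, T2, T3]
    (fun i => by fin_cases i <;> assumption) (fun i => by fin_cases i <;> assumption)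
    (fun i => by
      fin_cases i
      · show T1.card ≤ d + 1
        omega
      · exact hT2c
      · exact hT3c)
    (fun i j hij => by
      have n12 : T1 ≠ T2 := fun hh => hT1x1 (hh ▸ hxT2)
      have n13 : T1 ≠ T3 := fun hh => hT1x2 (hh ▸ hxT3)
      have n23 : T2 ≠ T3 := fun hh => hx2T2 (hh ▸ hxT3)
      fin_cases i <;> fin_cases j <;>
        first
        | exact absurd rfl hij
        | exact n12
        | exact n13
        | exact n23
        | exact n12.symm
        | exact n13.symm
        | exact n23.symm)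
    (E ⊔ Sp y P0)
    (fun i => by
      fin_cases i
      · exact sup_le e1.2 (hspmono hk1)
      · exact sup_le e2.2 (hspmono hk2)
      · exact sup_le e3.2 (hspmono hk3))
  rw [Fin.sum_univ_three, hFrank] at hT
  have c1 := e1.1
  have c2 := e2.1
  have c3 := e3.1
  simp only [Matrix.cons_val_zero, Matrix.cons_val_one, Matrix.cons_val_two, Matrix.head_cons,
    Matrix.tail_cons] at hT
  omega

end Vec

end Pool.Agent.MPa0a351
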