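import Pool.Agent.Lib.MP_a0a351_co.T3
import Pool.Agent.Lib.MP_a0a351_co.Three
import Pool.Agent.Lib.MP_a0a351_co.ModC

set_option autoImplicit false

open Module Finset

namespace Pool.Agent.MPa0a351

section Vec

variable {ι V : Type*} [Fintype ι] [AddCommGroup V] [Module ℝ V] [FiniteDimensional ℝ V]

namespace BoundsAux

theorem sp_union {y : ι → V} [DecidableEq ι] (S T : Finset ι) : Sp y S ⊔ Sp y T = Sp y (S ∪ T) := by
  unfold Sp
  rw [← Submodule.span_union, ← Set.image_union, Finset.coe_union]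

theorem row_E_le {d c : ℕ} {y : ι → V} [DecidableEq ι] {E : Submodule ℝ V} {C L : Finset ι}
    (h : Row d c y E C L) : E ≤ Sp y C :=
  (h.exch C subset_union_left h.circ (by have := h.card; omega)).2

end BoundsAux

open BoundsAux

theorem Row.bound2 {d c : ℕ} {y : ι → V} [DecidableEq ι] {E : Submodule ℝ V} {C L : Finset ι}
    (h : Row d c y E C L) : 2 * c + finrank ℝ E ≤ d := by
  obtain ⟨P, hPL, hPc, hPC⟩ := h.exists_P
  obtain ⟨Z, hZC, hZc, hT, hTc, hET⟩ := h.lift hPL hPc hPC
  set T := P ∪ (C \ Z) with hTdef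
  have hCd := h.card
  have hne : C ≠ T := by
    intro hCT
    have : P ⊆ C := by rw [hCT]; exact subset_union_left
    have hPne : P.Nonempty := by rw [← Finset.card_pos]; omega
    obtain ⟨x, hx⟩ := hPne
    exact Finset.disjoint_left.mp h.disj (this hx) (hPL hx)
  have hU := h.gp.union h.circ hT hne
  have htop : Sp y C ⊔ Sp y T = ⊤ := by
    rw [sp_union]
    exact h.gp.span h.hd _ (by omega)
  have h1 := Submodule.finrank_sup_add_finrank_inf_eq (Sp y C) (Sp y T)
  have h2 := h.gp.finrank_circ h.circ (by omega)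
  have h3 := h.gp.finrank_circ hT (by omega)
  have h4 : finrank ℝ E ≤ finrank ℝ ↥(Sp y C ⊓ Sp y T) :=
    Submodule.finrank_mono (le_inf (row_E_le h) hET)
  rw [htop, finrank_top, h.hd] at h1
  omega

theorem Row.bound3 {d c : ℕ} {y : ι → V} [DecidableEq ι] {E : Submodule ℝ V} {C L : Finset ι}
    (h : Row d c y E C L) (hL : c + 2 ≤ L.card) : 3 * c + finrank ℝ E ≤ d := by
  obtain ⟨P, hPL, hPc, hPC⟩ := h.exists_P
  have hCd := h.card
  have hex : ∃ x ∈ L, x ∉ P := by
    by_contra hcon
    push Not at hcon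
    have : L ⊆ P := fun x hx => hcon x hx
    have := Finset.card_le_card this
    omega
  obtain ⟨x, hxL, hxP⟩ := hex
  obtain ⟨a, ha, ha0, hsum⟩ := h.full hPL hPc hPC {x}
  have hCP : Disjoint C P := Finset.disjoint_of_subset_right hPL h.disj
  have hxC : x ∉ C := fun hx => Finset.disjoint_left.mp h.disj hx hxL
  have hS : (C ∪ P ∪ {x}).card = d + 3 := by
    rw [Finset.card_union_of_disjoint, Finset.card_union_of_disjoint hCP, Finset.card_singleton]
    · omega
    · rw [Finset.disjoint_singleton_right, Finset.mem_union]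
      tauto
  obtain ⟨T, hT, hne⟩ := exists_three h.hd h.gp _ hS a ha ha0 hsum
  have hsub : C ∪ P ∪ {x} ⊆ C ∪ L := by
    intro i hi
    simp only [Finset.mem_union, Finset.mem_singleton] at hi ⊢
    rcases hi with (hi | hi) | hi
    · exact Or.inl hi
    · exact Or.inr (hPL hi)
    · exact Or.inr (hi ▸ hxL)
  have hex := fun i => h.exch (T i) ((hT i).2.1.trans hsub) (hT i).1 (hT i).2.2
  have := three_circuits h.hd h.gp _ hS T (fun i => (hT i).1) (fun i => (hT i).2.1)
    (fun i => (hT i).2.2) hne E (fun i => (hex i).2)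
  rw [Fin.sum_univ_three] at this
  have h0 := (hex 0).1
  have h1 := (hex 1).1
  have h2 := (hex 2).1
  omega

end Vec

end Pool.Agent.MPa0a351
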