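import Pool.Agent.Lib.MP_a0a351_co.Defs

/-!
Module COLOR: the cone version of the colourful Caratheodory theorem.
-/

set_option autoImplicit false

open Module Finset

namespace Pool.Agent.MPa0a351

namespace Color

section Inner

variable {E ι κ : Type*} [NormedAddCommGroup E] [InnerProductSpace ℝ E] [FiniteDimensional ℝ E]
  [Fintype ι] [Fintype κ]

/-- The cone generated by the `v i`, `i ∈ J`. -/
def K (v : ι → E) (J : Finset ι) : Set E :=
  {x | ∃ c : ι → ℝ, (∀ i, 0 ≤ c i) ∧ (∀ i, i ∉ J → c i = 0) ∧ ∑ i, c i • v i = x}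

omit [FiniteDimensional ℝ E] in
lemma K_eq_image [DecidableEq ι] (v : ι → E) (J : Finset ι) :
    K v J = (Fintype.linearCombination ℝ (fun j : J => v j)) '' {c : J → ℝ | ∀ j, 0 ≤ c j} := by
  ext x
  constructor
  · rintro ⟨c, hc, hJ, rfl⟩
    refine ⟨fun j => c j, fun j => hc j, ?_⟩
    rw [Fintype.linearCombination_apply]
    rw [Finset.sum_coe_sort J (fun i => c i • v i)]
    apply Finset.sum_subset (Finset.subset_univ J)
    intro i _ hi
    rw [hJ i hi, zero_smul]
  · rintro ⟨c, hc, rfl⟩
    refine ⟨fun i => if h : i ∈ J then c ⟨i, h⟩ else 0, ?_, ?_, ?_⟩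
    · intro i
      by_cases h : i ∈ J
      · simp only [h, dif_pos]; exact hc _
      · simp only [h, dif_neg, not_false_iff]; exact le_refl _
    · intro i hi
      simp only [hi, dif_neg, not_false_iff]
    · rw [Fintype.linearCombination_apply]
      have : ∑ j : J, c j • v j = ∑ j : J, (fun i => (if h : i ∈ J then c ⟨i, h⟩ else 0) • v i) j := by
        apply Finset.sum_congr rfl
        intro j _
        simp
      rw [this, Finset.sum_coe_sort J (fun i => (if h : i ∈ J then c ⟨i, h⟩ else 0) • v i)]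
      symm
      apply Finset.sum_subset (Finset.subset_univ J)
      intro i _ hi
      simp [hi]

omit [FiniteDimensional ℝ E] in
lemma K_closed [DecidableEq ι] (v : ι → E) (J : Finset ι)
    (h : LinearIndepOn ℝ v (J : Set ι)) : IsClosed (K v J) := by
  rw [K_eq_image]
  have hinj : Function.Injective (Fintype.linearCombination ℝ (fun j : J => v j)) := by
    have h2 : LinearIndependent ℝ (fun j : J => v j) := h
    exact linearIndependent_iff_injective_fintypeLinearCombination.1 h2
  have hemb := LinearMap.isClosedEmbedding_of_injective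
    (f := Fintype.linearCombination ℝ (fun j : J => v j)) (LinearMap.ker_eq_bot.2 hinj)
  apply hemb.isClosedMap
  have : {c : J → ℝ | ∀ j, 0 ≤ c j} = ⋂ j : J, {c : J → ℝ | 0 ≤ c j} := by
    ext c; simp
  rw [this]
  exact isClosed_iInter fun j => isClosed_le continuous_const (continuous_apply j)

lemma quad_zero {A B δ : ℝ} (hδ : 0 < δ) (h : ∀ t : ℝ, |t| ≤ δ → 0 ≤ t ^ 2 * A - 2 * t * B) :
    B = 0 := by
  by_contra hB
  -- choose t of the sign of B, small
  have hA : 0 < |A| + 1 := by positivity
  set s : ℝ := min δ (|B| / (|A| + 1)) with hs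
  have hBpos : 0 < |B| := abs_pos.2 hB
  have hspos : 0 < s := lt_min hδ (by positivity)
  have hsδ : s ≤ δ := min_le_left _ _
  have hs2 : s * (|A| + 1) ≤ |B| := by
    have : s ≤ |B| / (|A| + 1) := min_le_right _ _
    rwa [le_div_iff₀ hA] at this
  rcases lt_or_gt_of_ne hB with hneg | hpos
  · have h1 := h (-s) (by rw [abs_neg, abs_of_pos hspos]; exact hsδ)
    have h2 : |B| = -B := abs_of_neg hneg
    have h3 : s * A ≤ s * |A| := by
      exact mul_le_mul_of_nonneg_left (le_abs_self A) hspos.le
    nlinarith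
  · have h1 := h s (by rw [abs_of_pos hspos]; exact hsδ)
    have h2 : |B| = B := abs_of_pos hpos
    have h3 : s * A ≤ s * |A| := by
      exact mul_le_mul_of_nonneg_left (le_abs_self A) hspos.le
    nlinarith

lemma quad_nonpos {A B : ℝ} (h : ∀ t : ℝ, 0 ≤ t → 0 ≤ t ^ 2 * A - 2 * t * B) :
    B ≤ 0 := by
  by_contra hB
  push Not at hB
  have hA : 0 < |A| + 1 := by positivity
  set s : ℝ := B / (|A| + 1) with hs
  have hspos : 0 < s := by positivity
  have hs2 : s * (|A| + 1) = B := by
    rw [hs]; field_simp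
  have h1 := h s hspos.le
  have h3 : s * A ≤ s * |A| := mul_le_mul_of_nonneg_left (le_abs_self A) hspos.le
  nlinarith

omit [FiniteDimensional ℝ E] [Fintype ι] [Fintype κ] in
lemma norm_step (b z v : E) (t : ℝ) :
    ‖b - (z + t • v)‖ ^ 2 = ‖b - z‖ ^ 2 + (t ^ 2 * ‖v‖ ^ 2 - 2 * t * inner ℝ (b - z) v) := by
  have h1 : b - (z + t • v) = (b - z) - t • v := by abel
  rw [h1, norm_sub_sq_real, inner_smul_right, norm_smul, mul_pow, Real.norm_eq_abs, sq_abs]
  ring

theorem cone_colorful_inner [Nonempty κ] (C : ι → κ → E) (b : E)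
    (hcard : finrank ℝ E ≤ Fintype.card ι)
    (hb : ∀ i, ∃ a : κ → ℝ, (∀ k, 0 ≤ a k) ∧ ∑ k, a k • C i k = b) :
    ∃ (f : ι → κ) (c : ι → ℝ), (∀ i, 0 ≤ c i) ∧ ∑ i, c i • C i (f i) = b := by
  classical
  let S : Finset ((ι → κ) × Finset ι) :=
    univ.filter (fun p => LinearIndepOn ℝ (fun i => C i (p.1 i)) (p.2 : Set ι))
  let U : Set E := ⋃ p ∈ S, K (fun i => C i (p.1 i)) p.2
  have hUmem : ∀ y, y ∈ U ↔ ∃ p ∈ S, y ∈ K (fun i => C i (p.1 i)) p.2 := by
    intro y; simp [U]
  have hUc : IsClosed U := by
    apply isClosed_biUnion_finset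
    intro p hp
    apply K_closed
    exact (Finset.mem_filter.1 hp).2
  have hUne : U.Nonempty := by
    obtain ⟨k0⟩ := (inferInstance : Nonempty κ)
    refine ⟨0, (hUmem 0).2 ⟨(fun _ => k0, ∅), ?_, fun _ => 0, ?_, ?_, ?_⟩⟩
    · simp [S]
    · intro i; exact le_refl _
    · intro i _; rfl
    · simp
  obtain ⟨z, hz, hdist⟩ := hUc.exists_infDist_eq_dist hUne b
  have hmin : ∀ y ∈ U, ‖b - z‖ ^ 2 ≤ ‖b - y‖ ^ 2 := by
    intro y hy
    have h1 : dist b z ≤ dist b y := by
      rw [← hdist]; exact Metric.infDist_le_dist_of_mem hy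
    rw [dist_eq_norm, dist_eq_norm] at h1
    exact pow_le_pow_left₀ (norm_nonneg _) h1 2
  obtain ⟨⟨f, J⟩, hp, c, hc0, hcJ, hsum⟩ := (hUmem z).1 hz
  have hindJ : LinearIndepOn ℝ (fun i => C i (f i)) (J : Set ι) := (Finset.mem_filter.1 hp).2
  simp only at hsum hcJ
  by_cases hzb : z = b
  · exact ⟨f, c, hc0, by rw [hsum, hzb]⟩
  exfalso
  have hw : b - z ≠ 0 := fun h => hzb (sub_eq_zero.1 h).symm
  have hwpos : 0 < ‖b - z‖ ^ 2 := by positivity
  set P : Finset ι := univ.filter (fun i => 0 < c i) with hP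
  have hPJ : P ⊆ J := by
    intro i hi
    by_contra hiJ
    have := (Finset.mem_filter.1 hi).2
    rw [hcJ i hiJ] at this
    exact lt_irrefl _ this
  have hcP : ∀ i, i ∉ P → c i = 0 := by
    intro i hi
    have : ¬ 0 < c i := fun h => hi (Finset.mem_filter.2 ⟨Finset.mem_univ _, h⟩)
    exact le_antisymm (not_lt.1 this) (hc0 i)
  have hindP : LinearIndepOn ℝ (fun i => C i (f i)) (P : Set ι) :=
    hindJ.mono (by exact_mod_cast hPJ)
  -- step 1: orthogonality
  have horth : ∀ i ∈ P, inner ℝ (b - z) (C i (f i)) = 0 := by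
    intro i hi
    have hci : 0 < c i := (Finset.mem_filter.1 hi).2
    apply quad_zero (A := ‖C i (f i)‖ ^ 2) hci
    intro t ht
    have hy : z + t • C i (f i) ∈ U := by
      refine (hUmem _).2 ⟨(f, P), Finset.mem_filter.2 ⟨Finset.mem_univ _, hindP⟩,
        fun j => c j + (if j = i then t else 0), ?_, ?_, ?_⟩
      · intro j
        by_cases hj : j = i
        · subst hj
          simp only [if_true]
          have := neg_le_of_abs_le ht
          linarith
        · simp only [hj, if_false, add_zero]; exact hc0 j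
      · intro j hj
        have hji : j ≠ i := by rintro rfl; exact hj hi
        simp only [hji, if_false, add_zero]; exact hcP j hj
      · simp only [add_smul, Finset.sum_add_distrib, ite_smul, zero_smul]
        rw [hsum, Finset.sum_ite_eq' Finset.univ i]
        simp
    have h2 := hmin _ hy
    rw [norm_step] at h2
    linarith
  -- step 2
  have hwz : inner ℝ (b - z) z = 0 := by
    have : inner ℝ (b - z) z = ∑ i, c i * inner ℝ (b - z) (C i (f i)) := by
      conv_lhs => rw [← hsum]
      rw [inner_sum]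
      apply Finset.sum_congr rfl
      intro i _
      rw [inner_smul_right, hsum]
    rw [this]
    apply Finset.sum_eq_zero
    intro i _
    by_cases hi : i ∈ P
    · rw [horth i hi, mul_zero]
    · rw [hcP i hi, zero_mul]
  have hwb : inner ℝ (b - z) b = ‖b - z‖ ^ 2 := by
    have h1 : inner ℝ (b - z) (b - z) = inner ℝ (b - z) b - inner ℝ (b - z) z := inner_sub_right _ _ _
    rw [hwz, sub_zero] at h1
    rw [← h1, real_inner_self_eq_norm_sq]
  -- step 3
  have hspanorth : ∀ x ∈ Submodule.span ℝ ((fun i => C i (f i)) '' (P : Set ι)),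
      inner ℝ (b - z) x = 0 := by
    intro x hx
    induction hx using Submodule.span_induction with
    | mem x hx =>
      obtain ⟨i, hi, rfl⟩ := hx
      exact horth i (by exact_mod_cast hi)
    | zero => simp
    | add x y _ _ hx hy => rw [inner_add_right, hx, hy, add_zero]
    | smul a x _ hx => rw [inner_smul_right, hx, mul_zero]
  have hex : ∃ i0, i0 ∉ P := by
    by_contra hcon
    push Not at hcon
    have hPu : (P : Set ι) = Set.univ := by
      ext i; simp only [Finset.mem_coe, Set.mem_univ, iff_true]; exact hcon i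
    have hli : LinearIndependent ℝ (fun i => C i (f i)) := by
      rw [hPu] at hindP
      exact linearIndepOn_univ_iff.1 hindP
    have hle := hli.fintype_card_le_finrank
    have hspan := hli.span_eq_top_of_card_eq_finrank' (le_antisymm hle hcard)
    have : inner ℝ (b - z) (b - z) = 0 := by
      apply hspanorth
      rw [hPu, Set.image_univ, hspan]
      trivial
    rw [real_inner_self_eq_norm_sq] at this
    linarith
  obtain ⟨i0, hi0⟩ := hex
  -- step 4
  obtain ⟨a, ha0, hasum⟩ := hb i0
  have hk : ∃ k0, 0 < inner ℝ (b - z) (C i0 k0) := by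
    by_contra hcon
    push Not at hcon
    have h1 : inner ℝ (b - z) b = ∑ k, a k * inner ℝ (b - z) (C i0 k) := by
      conv_lhs => rw [← hasum]
      rw [inner_sum]
      apply Finset.sum_congr rfl
      intro k _
      rw [inner_smul_right, hasum]
    have h2 : ∑ k, a k * inner ℝ (b - z) (C i0 k) ≤ 0 :=
      Finset.sum_nonpos fun k _ => mul_nonpos_of_nonneg_of_nonpos (ha0 k) (hcon k)
    rw [hwb] at h1
    linarith
  obtain ⟨k0, hk0⟩ := hk
  -- step 5
  set f' : ι → κ := Function.update f i0 k0 with hf'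
  have hf'i0 : f' i0 = k0 := by simp [hf']
  have hf'ne : ∀ i, i ≠ i0 → f' i = f i := by
    intro i hi; simp [hf', hi]
  have himg : (fun i => C i (f' i)) '' (P : Set ι) = (fun i => C i (f i)) '' (P : Set ι) := by
    apply Set.image_congr
    intro i hi
    have : i ≠ i0 := by rintro rfl; exact hi0 (by exact_mod_cast hi)
    simp only [hf'ne i this]
  have hindP' : LinearIndepOn ℝ (fun i => C i (f' i)) (P : Set ι) := by
    apply hindP.congr
    intro i hi
    have : i ≠ i0 := by rintro rfl; exact hi0 (by exact_mod_cast hi)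
    simp only [hf'ne i this]
  have hindI : LinearIndepOn ℝ (fun i => C i (f' i)) ((insert i0 P : Finset ι) : Set ι) := by
    rw [Finset.coe_insert]
    apply hindP'.insert
    intro hmem
    rw [himg] at hmem
    have h0 := hspanorth _ hmem
    simp only [hf'i0] at h0
    rw [h0] at hk0
    exact lt_irrefl _ hk0
  -- step 6
  have hfin : inner ℝ (b - z) (C i0 k0) ≤ 0 := by
    apply quad_nonpos (A := ‖C i0 k0‖ ^ 2)
    intro t ht
    have hy : z + t • C i0 k0 ∈ U := by
      refine (hUmem _).2 ⟨(f', insert i0 P), Finset.mem_filter.2 ⟨Finset.mem_univ _, hindI⟩,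
        fun j => c j + (if j = i0 then t else 0), ?_, ?_, ?_⟩
      · intro j
        by_cases hj : j = i0
        · subst hj
          simp only [if_true]
          have := hc0 j
          linarith
        · simp only [hj, if_false, add_zero]; exact hc0 j
      · intro j hj
        rw [Finset.mem_insert, not_or] at hj
        simp only [hj.1, if_false, add_zero]; exact hcP j hj.2
      · simp only [add_smul, Finset.sum_add_distrib, ite_smul, zero_smul]
        rw [Finset.sum_ite_eq' Finset.univ i0]
        simp only [Finset.mem_univ, if_true, hf'i0]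
        congr 1
        rw [← hsum]
        apply Finset.sum_congr rfl
        intro j _
        by_cases hj : j = i0
        · subst hj
          rw [hcP j hi0, zero_smul, zero_smul]
        · rw [hf'ne j hj]
    have h2 := hmin _ hy
    rw [norm_step] at h2
    linarith
  linarith

end Inner

end Color

theorem cone_colorful {W ι κ : Type*} [AddCommGroup W] [Module ℝ W] [FiniteDimensional ℝ W]
    [Fintype ι] [Fintype κ] [Nonempty κ] (C : ι → κ → W) (b : W)
    (hcard : finrank ℝ W ≤ Fintype.card ι)
    (hb : ∀ i, ∃ a : κ → ℝ, (∀ k, 0 ≤ a k) ∧ ∑ k, a k • C i k = b) :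
    ∃ (f : ι → κ) (c : ι → ℝ), (∀ i, 0 ≤ c i) ∧ ∑ i, c i • C i (f i) = b := by
  classical
  let e : W ≃ₗ[ℝ] EuclideanSpace ℝ (Fin (finrank ℝ W)) :=
    LinearEquiv.ofFinrankEq _ _ (by simp)
  obtain ⟨f, c, hc, hsum⟩ := Color.cone_colorful_inner (fun i k => e (C i k)) (e b)
    (by simpa using hcard) (by
      intro i
      obtain ⟨a, ha, hs⟩ := hb i
      exact ⟨a, ha, by rw [← hs, map_sum]; simp⟩)
  refine ⟨f, c, hc, ?_⟩
  apply e.injective
  rw [map_sum, ← hsum]
  simp

end Pool.Agent.MPa0a351
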