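import Pool.Agent.Lib.MP_a0a351_co.Generic

/-!
The conclusion from a pre-state with `k ≤ dim EE` (module CONC).
-/

set_option autoImplicit false

open Module Finset

namespace Pool.Agent.MPa0a351

variable {ι V : Type*} [Fintype ι] [NormedAddCommGroup V] [NormedSpace ℝ V]
  [FiniteDimensional ℝ V]

/-! module CONC -/
theorem conclude {d r k : ℕ} (hr : 1 ≤ r) (X : ι → V) (o : V) (A : Fin r → Finset ι)
    (h : PreState d X o A) (hk : k ≤ finrank ℝ (EE X o A)) :
    ∃ f : ι → Fin r, ∃ q : Fin (k + 1) → V, AffineIndependent ℝ q ∧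
      ∀ j : Fin (k + 1), ∀ i : Fin r, q j ∈ convexHull ℝ (X '' {m : ι | f m = i}) := by
  classical
  set E : Submodule ℝ V := EE X o A with hE
  -- independent directions
  set b : Fin k → V := fun j => ((Module.finBasis ℝ E) (Fin.castLE hk j) : V) with hb
  have hbind : LinearIndependent ℝ b := by
    have h1 : LinearIndependent ℝ (fun j : Fin k => (Module.finBasis ℝ E) (Fin.castLE hk j)) :=
      (Module.finBasis ℝ E).linearIndependent.comp _ (Fin.castLE_injective hk)
    exact h1.map' E.subtype (Submodule.ker_subtype E)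
  have hbE : ∀ j, b j ∈ E := fun j => ((Module.finBasis ℝ E) (Fin.castLE hk j)).2
  have hgood : ∀ᶠ ε in nhds (0 : ℝ), ∀ (j : Fin k) (i : Fin r),
      Circ (fun x => X x - (o + ε • b j)) (A i) := by
    rw [Filter.eventually_all]
    intro j
    rw [Filter.eventually_all]
    intro i
    refine GenericAux.circ_move (h.circ i) ?_
    exact (Submodule.mem_iInf _).1 (hbE j) i
  have hinf := infinite_of_mem_nhds (0 : ℝ) hgood
  obtain ⟨ε, hε, hε0⟩ := hinf.exists_notMem_finite (Set.finite_singleton (0 : ℝ))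
  have hε0' : ε ≠ 0 := by simpa using hε0
  have hε' : ∀ (j : Fin k) (i : Fin r), Circ (fun x => X x - (o + ε • b j)) (A i) := hε
  -- the colouring
  set f : ι → Fin r := fun m => if hm : ∃ i, m ∈ A i then hm.choose else ⟨0, hr⟩ with hf
  have hfA : ∀ i, ∀ m ∈ A i, f m = i := by
    intro i m hm
    have hex : ∃ i, m ∈ A i := ⟨i, hm⟩
    have h1 : f m = hex.choose := by simp only [hf, dif_pos hex]
    rw [h1]
    by_contra hne
    exact Finset.disjoint_left.1 (h.disj _ _ hne) hex.choose_spec hm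
  refine ⟨f, Fin.cons o (fun j => o + ε • b j), ?_, ?_⟩
  · rw [affineIndependent_iff_linearIndependent_vsub ℝ _ (0 : Fin (k + 1))]
    have h1 : LinearIndependent ℝ (fun j : Fin k => ε • b j) :=
      hbind.units_smul (fun _ => Units.mk0 ε hε0')
    have h2 : ∀ x : {x : Fin (k + 1) // x ≠ 0},
        ((Fin.cons o (fun j => o + ε • b j) : Fin (k + 1) → V) x -ᵥ
          (Fin.cons o (fun j => o + ε • b j) : Fin (k + 1) → V) 0)
        = ε • b ((x : Fin (k + 1)).pred x.2) := by
      rintro ⟨x, hx⟩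
      obtain ⟨y, rfl⟩ := Fin.exists_succ_eq.2 hx
      simp
    have h3 := h1.comp (fun x : {x : Fin (k + 1) // x ≠ 0} => (x : Fin (k + 1)).pred x.2) (by
      rintro ⟨x, hx⟩ ⟨y, hy⟩ hxy
      have := (Fin.pred_inj).1 hxy
      exact Subtype.ext this)
    rw [funext h2]
    exact h3
  · intro j i
    have hmem : ∀ m ∈ A i, X m ∈ X '' {m : ι | f m = i} := fun m hm => ⟨m, hfA i m hm, rfl⟩
    refine Fin.cases ?_ (fun j => ?_) j
    · exact GenericAux.mem_convexHull (h.circ i) hmem
    · exact GenericAux.mem_convexHull (hε' j i) hmem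

end Pool.Agent.MPa0a351
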