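import Pool.Agent.Lib.MP_a0a351_co.Gpl

/-!
Every element of a nonnegative dependence lies in a circuit (module CONF of MP_a0a351_co).
-/

set_option autoImplicit false

open Module Finset

namespace Pool.Agent.MPa0a351

variable {ι V : Type*} [Fintype ι] [AddCommGroup V] [Module ℝ V] [FiniteDimensional ℝ V]

namespace ConfAux

open GplAux

/-- Reduction of the support: if the support of a nonnegative dependence `b` has at least `d + 2`
elements, there is a nonnegative dependence with smaller support which is still positive at `x`. -/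
theorem reduce {d : ℕ} {y : ι → V} (hd : finrank ℝ V = d) (T : Finset ι) (b : ι → ℝ)
    (hb : ∀ i ∈ T, 0 < b i) (hb0 : ∀ i, i ∉ T → b i = 0) (hsum : ∑ i, b i • y i = 0) (x : ι)
    (hx : x ∈ T) (hT : d + 2 ≤ T.card) :
    ∃ (T' : Finset ι) (b' : ι → ℝ), T' ⊂ T ∧ x ∈ T' ∧ (∀ i ∈ T', 0 < b' i) ∧
      (∀ i, i ∉ T' → b' i = 0) ∧ ∑ i, b' i • y i = 0 := by
  classical
  -- a dependence supported on T.erase x
  have hcard : finrank ℝ V < (T.erase x).card := by
    rw [Finset.card_erase_of_mem hx]; omega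
  have hnli : ¬ LinearIndependent ℝ (fun i : (T.erase x : Finset ι) => y i) := by
    intro hli
    have := hli.fintype_card_le_finrank
    rw [Fintype.card_coe] at this
    omega
  rw [Fintype.not_linearIndependent_iff] at hnli
  obtain ⟨g, hg, i0, hi0⟩ := hnli
  let g1 : ι → ℝ := fun i => if hi : i ∈ T.erase x then g ⟨i, hi⟩ else 0
  have hg10 : ∀ i, i ∉ T.erase x → g1 i = 0 := fun i hi => dif_neg hi
  have hg1y : ∑ i, g1 i • y i = 0 := by
    rw [← sum_ext_zero g1 hg10, ← Finset.sum_coe_sort (T.erase x), ← hg]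
    exact Finset.sum_congr rfl (fun i _ => by simp only [g1, dif_pos i.2])
  have hg1i0 : g1 i0 ≠ 0 := by simp only [g1, dif_pos i0.2]; exact hi0
  -- wlog a positive entry
  obtain ⟨g2, hg20, hg2y, i1, hi1⟩ : ∃ g2 : ι → ℝ, (∀ i, i ∉ T.erase x → g2 i = 0) ∧
      ∑ i, g2 i • y i = 0 ∧ ∃ i1, 0 < g2 i1 := by
    rcases lt_or_gt_of_ne hg1i0 with hneg | hpos
    · refine ⟨fun i => - g1 i, fun i hi => by simp only [hg10 i hi, neg_zero], ?_, i0, by linarith⟩
      simp only [neg_smul, Finset.sum_neg_distrib, hg1y, neg_zero]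
    · exact ⟨g1, hg10, hg1y, i0, hpos⟩
  -- the minimal ratio
  set P := T.filter (fun i => 0 < g2 i) with hP
  have hi1T : i1 ∈ T := by
    by_contra hh
    have := hg20 i1 (fun hh' => hh (Finset.mem_of_mem_erase hh'))
    linarith
  have hPne : P.Nonempty := ⟨i1, by simp [hP, hi1T, hi1]⟩
  obtain ⟨m, hm, hmin⟩ := Finset.exists_min_image P (fun i => b i / g2 i) hPne
  have hmT : m ∈ T := (Finset.mem_filter.mp hm).1
  have hgm : 0 < g2 m := (Finset.mem_filter.mp hm).2
  set t := b m / g2 m with ht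
  have htpos : 0 < t := div_pos (hb m hmT) hgm
  set b' : ι → ℝ := fun i => b i - t * g2 i with hb'
  have hb'nn : ∀ i, 0 ≤ b' i := by
    intro i
    by_cases hiT : i ∈ T
    · by_cases hgi : 0 < g2 i
      · have h1 := hmin i (by simp [hP, hiT, hgi])
        have h2 : t * g2 i ≤ b i / g2 i * g2 i := mul_le_mul_of_nonneg_right h1 hgi.le
        rw [div_mul_cancel₀ _ hgi.ne'] at h2
        simp only [hb']; linarith
      · push Not at hgi
        have := hb i hiT
        have := mul_nonneg_of_nonpos_of_nonpos (neg_nonpos.mpr htpos.le) hgi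
        simp only [hb']; linarith
    · have h1 := hb0 i hiT
      have h2 := hg20 i (fun hh' => hiT (Finset.mem_of_mem_erase hh'))
      simp only [hb', h1, h2]; linarith
  have hb'm : b' m = 0 := by
    simp only [hb', ht]; rw [div_mul_cancel₀ _ hgm.ne', sub_self]
  have hb'x : 0 < b' x := by
    have := hg20 x (Finset.notMem_erase _ _)
    simp only [hb', this]
    have := hb x hx
    linarith
  refine ⟨T.filter (fun i => 0 < b' i), b', ?_, ?_, ?_, ?_, ?_⟩
  · refine Finset.ssubset_iff_subset_ne.mpr ⟨Finset.filter_subset _ _, fun heq => ?_⟩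
    have : m ∈ T.filter (fun i => 0 < b' i) := by rw [heq]; exact hmT
    have := (Finset.mem_filter.mp this).2
    rw [hb'm] at this
    exact lt_irrefl _ this
  · simp [hx, hb'x]
  · exact fun i hi => (Finset.mem_filter.mp hi).2
  · intro i hi
    by_cases hiT : i ∈ T
    · have : ¬ 0 < b' i := fun hh => hi (by simp [hiT, hh])
      exact le_antisymm (not_lt.mp this) (hb'nn i)
    · have h1 := hb0 i hiT
      have h2 := hg20 i (fun hh' => hiT (Finset.mem_of_mem_erase hh'))
      simp only [hb', h1, h2]; ring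
  · have : ∀ i, b' i • y i = b i • y i - t • (g2 i • y i) := by
      intro i; simp only [hb', sub_smul, mul_smul]
    simp only [this, Finset.sum_sub_distrib, ← Finset.smul_sum, hsum, hg2y, smul_zero, sub_zero]

end ConfAux

open ConfAux

theorem exists_circ_mem {d : ℕ} {y : ι → V} (hd : finrank ℝ V = d) (b : ι → ℝ)
    (hb : ∀ i, 0 ≤ b i) (hsum : ∑ i, b i • y i = 0) (x : ι) (hx : 0 < b x) :
    ∃ T : Finset ι, x ∈ T ∧ (∀ i ∈ T, 0 < b i) ∧ Circ y T ∧ T.card ≤ d + 1 := by
  classical
  -- strong induction on the support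
  have key : ∀ (n : ℕ) (T : Finset ι) (b' : ι → ℝ), T.card = n → x ∈ T → (∀ i ∈ T, 0 < b' i) →
      (∀ i, i ∉ T → b' i = 0) → ∑ i, b' i • y i = 0 →
      ∃ T' ⊆ T, x ∈ T' ∧ Circ y T' ∧ T'.card ≤ d + 1 := by
    intro n
    induction n using Nat.strong_induction_on with
    | _ n ih =>
      intro T b' hTn hxT hb' hb'0 hb'y
      by_cases hc : T.card ≤ d + 1
      · refine ⟨T, Finset.Subset.refl _, hxT, ?_, hc⟩
        have hs : 0 < ∑ i, b' i := by
          refine Finset.sum_pos' (fun i _ => ?_) ⟨x, Finset.mem_univ _, hb' x hxT⟩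
          by_cases hi : i ∈ T
          · exact (hb' i hi).le
          · exact (hb'0 i hi).ge
        refine ⟨fun i => b' i / ∑ j, b' j, fun i hi => div_pos (hb' i hi) hs,
          fun i hi => by simp only [hb'0 i hi, zero_div], ?_, ?_⟩
        · rw [← Finset.sum_div, div_self hs.ne']
        · have : ∀ i, (b' i / ∑ j, b' j) • y i = (∑ j, b' j)⁻¹ • (b' i • y i) := by
            intro i; rw [smul_smul]; congr 1; rw [div_eq_inv_mul]
          simp only [this, ← Finset.smul_sum, hb'y, smul_zero]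
      · obtain ⟨T1, b1, hss, hx1, hb1, hb10, hb1y⟩ := reduce hd T b' hb' hb'0 hb'y x hxT (by omega)
        obtain ⟨T', hT'T, hxT', hcirc, hcard⟩ := ih T1.card (by
          rw [← hTn]; exact Finset.card_lt_card hss) T1 b1 rfl hx1 hb1 hb10 hb1y
        exact ⟨T', hT'T.trans hss.1, hxT', hcirc, hcard⟩
  obtain ⟨T', hT'T, hxT', hcirc, hcard⟩ := key _ (univ.filter (fun i => 0 < b i)) b rfl
    (by simp [hx]) (fun i hi => (Finset.mem_filter.mp hi).2)
    (fun i hi => by
      have : ¬ 0 < b i := fun hh => hi (by simp [hh])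
      exact le_antisymm (not_lt.mp this) (hb i)) hsum
  exact ⟨T', hxT', fun i hi => (Finset.mem_filter.mp (hT'T hi)).2, hcirc, hcard⟩

end Pool.Agent.MPa0a351
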