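import Mathlib

/-!
A connectedness theorem for the colourful Caratheodory theorem, and the connectedness of the set of
Tverberg points (problem MP_a0a351_co).

`X` is a finite set of colours, `F x j` the `j`-th vector of the colour `x`, and a selection is a
function `f : X → κ`, choosing the vector `F x (f x)` of every colour `x`.  When `0` is in the
convex hull of every colour class and there are at least `dim + 2` colours, any two selections whose
convex hulls contain `0` are joined by a chain of selections such that, for consecutive members,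
`0` is even in the convex hull of the vectors chosen by both.
-/

set_option autoImplicit false

open Module Finset
open scoped RealInnerProductSpace

namespace Pool.Agent.MPa0a351.Conn

section General

variable {E : Type*} [AddCommGroup E] [Module ℝ E] {X κ : Type*} (F : X → κ → E)

/-- The convex hull of the vectors chosen by `f` with colours in `S`. -/
def hull {E : Type*} [AddCommGroup E] [Module ℝ E] {X κ : Type*} (F : X → κ → E) (S : Set X)
    (f : X → κ) : Set E := convexHull ℝ ((fun x => F x (f x)) '' S)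

theorem hull_mono {S T : Set X} (h : S ⊆ T) (f : X → κ) : hull F S f ⊆ hull F T f :=
  convexHull_mono (Set.image_mono h)

theorem hull_congr {S : Set X} {f g : X → κ} (h : ∀ x ∈ S, f x = g x) :
    hull F S f = hull F S g := by
  unfold hull
  congr 1
  exact Set.image_congr fun x hx => by rw [h x hx]

theorem mem_hull {S : Set X} {x : X} (hx : x ∈ S) (f : X → κ) : F x (f x) ∈ hull F S f :=
  subset_convexHull ℝ _ ⟨x, hx, rfl⟩

theorem hull_convex (S : Set X) (f : X → κ) : Convex ℝ (hull F S f) := convex_convexHull ℝ _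

/-- The colours where two selections agree. -/
def agr {X κ : Type*} (f g : X → κ) : Set X := {x | f x = g x}

theorem agr_symm (f g : X → κ) : agr f g = agr g f := by
  ext x
  exact ⟨fun h => Eq.symm h, fun h => Eq.symm h⟩

/-- The representations of `v` as a convex combination of the vectors `u x`. -/
def PP {E : Type*} [AddCommGroup E] [Module ℝ E] {X : Type*} [Fintype X] (u : X → E) (v : E) :
    Set (X → ℝ) := {a | (∀ x, 0 ≤ a x) ∧ ∑ x, a x = 1 ∧ ∑ x, a x • u x = v}

theorem mem_hull_iff [Fintype X] {S : Set X} {f : X → κ} {v : E} :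
    v ∈ hull F S f ↔ ∃ a ∈ PP (fun x => F x (f x)) v, ∀ x, x ∉ S → a x = 0 := by
  classical
  constructor
  · intro hv
    have hc : Convex ℝ {v : E | ∃ a ∈ PP (fun x => F x (f x)) v, ∀ x, x ∉ S → a x = 0} := by
      rintro v ⟨a, ⟨ha0, ha1, hav⟩, haS⟩ w ⟨b, ⟨hb0, hb1, hbw⟩, hbS⟩ s t hs ht hst
      refine ⟨fun x => s * a x + t * b x, ⟨fun x => add_nonneg (mul_nonneg hs (ha0 x))
        (mul_nonneg ht (hb0 x)), ?_, ?_⟩, fun x hx => by simp [haS x hx, hbS x hx]⟩
      · simp only [Finset.sum_add_distrib, ← Finset.mul_sum, ha1, hb1, mul_one, hst]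
      · simp only [add_smul, mul_smul, Finset.sum_add_distrib, ← Finset.smul_sum, hav, hbw]
    refine convexHull_min ?_ hc hv
    rintro _ ⟨x, hx, rfl⟩
    refine ⟨fun y => if y = x then 1 else 0, ⟨fun y => ?_, ?_, ?_⟩, fun y hy => ?_⟩
    · dsimp only
      split_ifs <;> norm_num
    · simp
    · simp
    · exact if_neg (by rintro rfl; exact hy hx)
  · rintro ⟨a, ⟨ha0, ha1, hav⟩, haS⟩
    have h1 : ∑ x ∈ univ.filter (fun x => x ∈ S), a x = 1 := by
      rw [← ha1, Finset.sum_filter]
      exact Finset.sum_congr rfl (fun x _ => by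
        split_ifs with h
        · rfl
        · exact (haS x h).symm)
    have h2 : ∑ x ∈ univ.filter (fun x => x ∈ S), a x • F x (f x) = v := by
      rw [← hav, Finset.sum_filter]
      exact Finset.sum_congr rfl (fun x _ => by
        split_ifs with h
        · rfl
        · rw [haS x h, zero_smul])
    rw [← h2]
    exact (hull_convex F S f).sum_mem (fun x _ => ha0 x) h1
      (fun x hx => mem_hull F (mem_filter.mp hx).2 f)

end General

section Inner

variable {E : Type*} [NormedAddCommGroup E] [InnerProductSpace ℝ E]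

/-- In a convex set, a point `w` on the near side of the supporting hyperplane at `v` gives a point
closer to the origin than `v`. -/
theorem exists_closer {s : Set E} (hs : Convex ℝ s) {v w : E} (hv : v ∈ s) (hw : w ∈ s)
    (h : ⟪v, w⟫ < ‖v‖ ^ 2) : ∃ p ∈ s, ‖p‖ < ‖v‖ := by
  by_contra hcon
  push Not at hcon
  have : Nonempty s := ⟨⟨v, hv⟩⟩
  have h1 : ‖(0 : E) - v‖ = ⨅ w : s, ‖(0 : E) - w‖ := by
    refine le_antisymm (le_ciInf fun w => ?_) (ciInf_le ⟨0, ?_⟩ (⟨v, hv⟩ : s))
    · simpa using hcon w.1 w.2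
    · rintro _ ⟨x, rfl⟩
      exact norm_nonneg _
  have h2 := (norm_eq_iInf_iff_real_inner_le_zero hs hv).mp h1 w hw
  rw [zero_sub, inner_neg_left, inner_sub_right, real_inner_self_eq_norm_sq] at h2
  linarith

/-- A convex hull inside a half space. -/
theorem half_space {s : Set E} {v p : E} {c : ℝ} (hs : ∀ w ∈ s, c ≤ ⟪v, w⟫)
    (hp : p ∈ convexHull ℝ s) : c ≤ ⟪v, p⟫ := by
  have hc : Convex ℝ {w : E | c ≤ ⟪v, w⟫} := by
    intro a ha b hb s t hs ht hst
    simp only [Set.mem_ofPred_eq] at ha hb ⊢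
    rw [inner_add_right, inner_smul_right, inner_smul_right]
    have : c = s * c + t * c := by rw [← add_mul, hst, one_mul]
    rw [this]
    exact add_le_add (mul_le_mul_of_nonneg_left ha hs) (mul_le_mul_of_nonneg_left hb ht)
  exact convexHull_min (t := {w : E | c ≤ ⟪v, w⟫}) hs hc hp

variable {X κ : Type*} (F : X → κ → E)

/-- The hull contains a point of norm less than `c`. -/
def Lt {E : Type*} [NormedAddCommGroup E] [InnerProductSpace ℝ E] {X κ : Type*} (F : X → κ → E)
    (S : Set X) (f : X → κ) (c : ℝ) : Prop := ∃ p ∈ hull F S f, ‖p‖ < c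

/-- The hull contains a point of norm at most `c`. -/
def Le {E : Type*} [NormedAddCommGroup E] [InnerProductSpace ℝ E] {X κ : Type*} (F : X → κ → E)
    (S : Set X) (f : X → κ) (c : ℝ) : Prop := ∃ p ∈ hull F S f, ‖p‖ ≤ c

/-- The chains at level `< c`. -/
def R {E : Type*} [NormedAddCommGroup E] [InnerProductSpace ℝ E] {X κ : Type*} (F : X → κ → E)
    (c : ℝ) : (X → κ) → (X → κ) → Prop :=
  Relation.ReflTransGen (fun f g => Lt F (agr f g) f c)

theorem R_refl (c : ℝ) (f : X → κ) : R F c f f := Relation.ReflTransGen.refl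

theorem R_trans {c : ℝ} {f g h : X → κ} (h1 : R F c f g) (h2 : R F c g h) : R F c f h :=
  Relation.ReflTransGen.trans h1 h2

theorem R_symm {c : ℝ} {f g : X → κ} (h1 : R F c f g) : R F c g f := by
  induction h1 with
  | refl => exact Relation.ReflTransGen.refl
  | tail _ h ih =>
    rename_i a b _
    obtain ⟨p, hp, hc⟩ := h
    refine Relation.ReflTransGen.head ⟨p, ?_, hc⟩ ih
    rw [agr_symm, ← hull_congr F (f := a) (g := b) (S := agr a b) (fun x hx => hx)]
    exact hp

theorem R_of_lt {c : ℝ} {f g : X → κ} (h : Lt F (agr f g) f c) : R F c f g :=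
  Relation.ReflTransGen.single h

/-- A good element gives a point closer to the origin. -/
theorem lt_of_good {S : Set X} {f : X → κ} {v : E} (hv : v ∈ hull F S f) {x : X} (hx : x ∈ S)
    (h : ⟪v, F x (f x)⟫ < ‖v‖ ^ 2) : Lt F S f ‖v‖ :=
  exists_closer (hull_convex F S f) hv (mem_hull F hx f) h

theorem exists_good_of_lt {S : Set X} {f : X → κ} {v : E} (h : Lt F S f ‖v‖) :
    ∃ x ∈ S, ⟪v, F x (f x)⟫ < ‖v‖ ^ 2 := by
  by_contra hcon
  push Not at hcon
  obtain ⟨p, hp, hc⟩ := h
  have h1 : ‖v‖ ^ 2 ≤ ⟪v, p⟫ := half_space (s := (fun x => F x (f x)) '' S) (by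
    rintro _ ⟨x, hx, rfl⟩
    exact hcon x hx) hp
  have h2 := real_inner_le_norm v p
  have h3 := norm_nonneg p
  have h4 : 0 < ‖v‖ := lt_of_le_of_lt h3 hc
  nlinarith

theorem exists_good (h0 : ∀ x, (0 : E) ∈ convexHull ℝ (Set.range (F x))) {v : E} (hv : v ≠ 0)
    (x : X) : ∃ j, ⟪v, F x j⟫ < ‖v‖ ^ 2 := by
  by_contra hcon
  push Not at hcon
  have h1 : ‖v‖ ^ 2 ≤ ⟪v, (0 : E)⟫ := half_space (s := Set.range (F x)) (by
    rintro _ ⟨j, rfl⟩
    exact hcon j) (h0 x)
  rw [inner_zero_right] at h1
  have : 0 < ‖v‖ := norm_pos_iff.mpr hv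
  nlinarith

section Fin

variable [FiniteDimensional ℝ E] [Fintype X] [DecidableEq X]

omit [DecidableEq X] [Fintype X] in
/-- A point `v` of the hull of the vectors of `S`, all of which are on the far side of the
hyperplane through `v`, is in the hull of at most `dim E` of them. -/
theorem exists_small {S : Set X} {h : X → κ} {v : E} (hv0 : v ≠ 0) (hv : v ∈ hull F S h)
    (hS : ∀ x ∈ S, ‖v‖ ^ 2 ≤ ⟪v, F x (h x)⟫) :
    ∃ S0 : Finset X, (S0 : Set X) ⊆ S ∧ S0.card ≤ finrank ℝ E ∧ v ∈ hull F (S0 : Set X) h := by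
  classical
  obtain ⟨I, _, z, w, hz, haff, hw, hw1, hwv⟩ := eq_pos_convex_span_of_mem_convexHull hv
  have hz' : ∀ i, ∃ x ∈ S, F x (h x) = z i := fun i => hz ⟨i, rfl⟩
  choose x hxS hx using hz'
  have hin : ∑ i, w i * (⟪v, z i⟫ - ‖v‖ ^ 2) = 0 := by
    have : ⟪v, ∑ i, w i • z i⟫ = ‖v‖ ^ 2 := by rw [hwv, real_inner_self_eq_norm_sq]
    rw [inner_sum] at this
    simp only [inner_smul_right] at this
    simp only [mul_sub, Finset.sum_sub_distrib, ← Finset.sum_mul, hw1, one_mul, this, sub_self]
  have hin0 : ∀ i, ⟪v, z i⟫ = ‖v‖ ^ 2 := by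
    intro i
    have h1 := (Finset.sum_eq_zero_iff_of_nonneg (fun i _ => mul_nonneg (hw i).le (by
      have := hS (x i) (hxS i)
      rw [hx i] at this
      linarith))).mp hin i (mem_univ i)
    rcases mul_eq_zero.mp h1 with h2 | h2
    · exact absurd h2 (hw i).ne'
    · linarith
  have hlin : LinearIndependent ℝ z := by
    rw [linearIndependent_iff']
    intro s a ha
    refine (affineIndependent_iff.mp haff) s a ?_ ha
    have h1 : ⟪v, ∑ i ∈ s, a i • z i⟫ = 0 := by rw [ha, inner_zero_right]
    rw [inner_sum] at h1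
    simp only [inner_smul_right, hin0, ← Finset.sum_mul] at h1
    rcases mul_eq_zero.mp h1 with h2 | h2
    · exact h2
    · exact absurd (pow_eq_zero_iff (two_ne_zero)|>.mp h2) (norm_ne_zero_iff.mpr hv0)
  have hcard : Fintype.card I ≤ finrank ℝ E := hlin.fintype_card_le_finrank
  refine ⟨univ.image x, ?_, ?_, ?_⟩
  · intro y hy
    simp only [coe_image, coe_univ, Set.image_univ, Set.mem_range] at hy
    obtain ⟨i, rfl⟩ := hy
    exact hxS i
  · exact (card_image_le).trans (by rw [card_univ]; exact hcard)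
  · rw [← hwv]
    refine (convex_convexHull ℝ _).sum_mem (fun i _ => (hw i).le) hw1 (fun i _ => ?_)
    refine subset_convexHull ℝ _ ⟨x i, by simp, hx i⟩

/-- Lemma L. -/
theorem lemmaL (hcard : finrank ℝ E + 2 ≤ Fintype.card X)
    (h0 : ∀ x, (0 : E) ∈ convexHull ℝ (Set.range (F x))) {S : Set X} {h f g : X → κ} {v : E}
    (hv0 : v ≠ 0) (hv : v ∈ hull F S h) (hS : ∀ x ∈ S, ‖v‖ ^ 2 ≤ ⟪v, F x (h x)⟫)
    (hf : ∀ x ∈ S, f x = h x) (hg : ∀ x ∈ S, g x = h x)
    (hfl : Lt F Set.univ f ‖v‖) (hgl : Lt F Set.univ g ‖v‖) : R F ‖v‖ f g := by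
  obtain ⟨S0, hS0, hS0c, hv'⟩ := exists_small F hv0 hv hS
  obtain ⟨x, -, hx⟩ := exists_good_of_lt F hfl
  obtain ⟨y, -, hy⟩ := exists_good_of_lt F hgl
  have hxS : x ∉ S := fun hh => by
    have := hS x hh
    rw [hf x hh] at hx
    linarith
  have hyS : y ∉ S := fun hh => by
    have := hS y hh
    rw [hg y hh] at hy
    linarith
  -- a link
  have link : ∀ a b : X → κ, (∀ t ∈ S, a t = h t) → (∀ t ∈ S, b t = h t) →
      ∀ t, a t = b t → ⟪v, F t (a t)⟫ < ‖v‖ ^ 2 → R F ‖v‖ a b := by
    intro a b ha hb t hab ht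
    refine R_of_lt F (lt_of_good F (v := v) ?_ (x := t) hab ht)
    rw [hull_congr F (g := a) (f := h) (S := (S0 : Set X)) (fun s hs => (ha s (hS0 hs)).symm)] at hv'
    refine hull_mono F (fun s hs => ?_) a hv'
    exact (ha s (hS0 hs)).trans (hb s (hS0 hs)).symm
  by_cases hxy : x = y
  · subst hxy
    have : ∃ y', y' ∉ insert x S0 := by
      by_contra hcon
      push Not at hcon
      have h1 : (univ : Finset X) ⊆ insert x S0 := fun t _ => hcon t
      have h2 := card_le_card h1
      have h3 := card_insert_le x S0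
      rw [card_univ] at h2
      omega
    obtain ⟨y', hy'⟩ := this
    rw [mem_insert, not_or] at hy'
    obtain ⟨j, hj⟩ := exists_good F h0 hv0 y'
    -- `y'` may be in `S`; work with `S0` instead
    have link' : ∀ a b : X → κ, (∀ t ∈ S0, a t = h t) → (∀ t ∈ S0, b t = h t) →
        ∀ t, a t = b t → ⟪v, F t (a t)⟫ < ‖v‖ ^ 2 → R F ‖v‖ a b := by
      intro a b ha hb t hab ht
      refine R_of_lt F (lt_of_good F (v := v) ?_ (x := t) hab ht)
      rw [hull_congr F (g := a) (f := h) (S := (S0 : Set X)) (fun s hs => (ha s hs).symm)] at hv'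
      refine hull_mono F (fun s hs => ?_) a hv'
      exact (ha s hs).trans (hb s hs).symm
    have hfS : ∀ t ∈ S0, f t = h t := fun t ht => hf t (hS0 ht)
    have hgS : ∀ t ∈ S0, g t = h t := fun t ht => hg t (hS0 ht)
    have hf'S : ∀ t ∈ S0, Function.update f y' j t = h t := fun t ht => by
      rw [Function.update_of_ne (by rintro rfl; exact hy'.2 ht), hfS t ht]
    have hg'S : ∀ t ∈ S0, Function.update g y' j t = h t := fun t ht => by
      rw [Function.update_of_ne (by rintro rfl; exact hy'.2 ht), hgS t ht]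
    refine R_trans F (link' f _ hfS hf'S x ?_ hx) (R_trans F (link' _ _ hf'S hg'S y' ?_ ?_)
      (R_symm F (link' g _ hgS hg'S x ?_ hy)))
    · rw [Function.update_of_ne (Ne.symm hy'.1)]
    · simp
    · simpa using hj
    · rw [Function.update_of_ne (Ne.symm hy'.1)]
  · have h'S : ∀ t ∈ S, Function.update f y (g y) t = h t := fun t ht => by
      rw [Function.update_of_ne (by rintro rfl; exact hyS ht), hf t ht]
    refine R_trans F (link f _ hf h'S x ?_ hx) (R_symm F (link g _ hg h'S y ?_ hy))
    · rw [Function.update_of_ne hxy]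
    · simp

/-- The link relation between colours. -/
def Lk {E : Type*} [AddCommGroup E] [Module ℝ E] {X : Type*} [Fintype X] (u : X → E) (v : E)
    (x y : X) : Prop := ∃ a ∈ PP u v, a x = 0 ∧ a y = 0

omit [DecidableEq X] in
/-- The chain lemma. -/
theorem chain (u : X → E) (v : E) (hcard : finrank ℝ E + 2 ≤ Fintype.card X) (hv0 : v ≠ 0)
    (hu : ∀ x, ‖v‖ ^ 2 ≤ ⟪v, u x⟫) (x y : X) (hx : ∃ a ∈ PP u v, a x = 0)
    (hy : ∃ a ∈ PP u v, a y = 0) : Relation.ReflTransGen (Lk u v) x y := by
  classical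
  have hvp : 0 < ‖v‖ ^ 2 := by
    have := norm_pos_iff.mpr hv0
    positivity
  obtain ⟨a, ha, hax⟩ := hx
  obtain ⟨b, hb, hby⟩ := hy
  by_cases hz : ∃ z, ‖v‖ ^ 2 < ⟪v, u z⟫
  · obtain ⟨z, hz⟩ := hz
    have key : ∀ a ∈ PP u v, a z = 0 := by
      intro a ha
      obtain ⟨h1, h2, h3⟩ := ha
      have hin : ∑ i, a i * (⟪v, u i⟫ - ‖v‖ ^ 2) = 0 := by
        have : ⟪v, ∑ i, a i • u i⟫ = ‖v‖ ^ 2 := by rw [h3, real_inner_self_eq_norm_sq]
        rw [inner_sum] at this
        simp only [inner_smul_right] at this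
        simp only [mul_sub, Finset.sum_sub_distrib, ← Finset.sum_mul, h2, one_mul, this, sub_self]
      have h4 := (Finset.sum_eq_zero_iff_of_nonneg (fun i _ => mul_nonneg (h1 i) (by
        have := hu i
        linarith))).mp hin z (mem_univ z)
      rcases mul_eq_zero.mp h4 with h5 | h5
      · exact h5
      · linarith
    exact Relation.ReflTransGen.head (b := z) ⟨a, ha, hax, key a ha⟩
      (Relation.ReflTransGen.single ⟨b, hb, key b hb, hby⟩)
  push Not at hz
  have hu' : ∀ x, ⟪v, u x⟫ = ‖v‖ ^ 2 := fun x => le_antisymm (hz x) (hu x)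
  -- a dependence vanishing at `x`
  obtain ⟨d, hd0, hdu, hdx, hdy⟩ : ∃ d : X → ℝ, d ≠ 0 ∧ ∑ z, d z • u z = 0 ∧ d x = 0 ∧ d y ≤ 0 := by
    let L : (X → ℝ) →ₗ[ℝ] E × ℝ := LinearMap.prod
      (∑ z, (LinearMap.proj z : (X → ℝ) →ₗ[ℝ] ℝ).smulRight (u z)) (LinearMap.proj x)
    have hker : LinearMap.ker L ≠ ⊥ := by
      apply LinearMap.ker_ne_bot_of_finrank_lt
      rw [Module.finrank_prod, Module.finrank_self, Module.finrank_fintype_fun_eq_card]
      omega
    obtain ⟨d, hd, hd0⟩ := (Submodule.ne_bot_iff _).mp hker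
    rw [LinearMap.mem_ker] at hd
    have hd1 : ∑ z, d z • u z = 0 := by
      have := congrArg Prod.fst hd
      simpa [L, LinearMap.sum_apply] using this
    have hd2 : d x = 0 := by
      have := congrArg Prod.snd hd
      simpa [L] using this
    rcases le_total (d y) 0 with h | h
    · exact ⟨d, hd0, hd1, hd2, h⟩
    · refine ⟨-d, neg_ne_zero.mpr hd0, ?_, by simp [hd2], by simpa using h⟩
      simp only [Pi.neg_apply, neg_smul, Finset.sum_neg_distrib, hd1, neg_zero]
  have hds : ∑ z, d z = 0 := by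
    have h1 : ⟪v, ∑ z, d z • u z⟫ = 0 := by rw [hdu, inner_zero_right]
    rw [inner_sum] at h1
    simp only [inner_smul_right, hu', ← Finset.sum_mul] at h1
    rcases mul_eq_zero.mp h1 with h2 | h2
    · exact h2
    · exact absurd h2 hvp.ne'
  set N : Finset X := univ.filter (fun z => d z < 0) with hN
  have hNne : N.Nonempty := by
    by_contra hcon
    rw [Finset.not_nonempty_iff_eq_empty, Finset.filter_eq_empty_iff] at hcon
    have h1 : ∀ z ∈ (univ : Finset X), 0 ≤ d z := fun z hz => not_lt.mp (hcon hz)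
    have h2 := (Finset.sum_eq_zero_iff_of_nonneg h1).mp hds
    exact hd0 (funext fun z => h2 z (mem_univ z))
  -- the curve
  let l : ℝ → X → ℝ := fun s z => (1 - s) * a z + s * b z
  let T : ℝ → ℝ := fun s => N.inf' hNne (fun z => l s z / (-d z))
  let γ : ℝ → X → ℝ := fun s z => l s z + T s * d z
  have hl : ∀ z, Continuous (fun s => l s z) := fun z => by
    simp only [l]
    fun_prop
  have hT : Continuous T := by
    simp only [T]
    exact Continuous.finset_inf'_apply hNne (fun z _ => (hl z).div_const _)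
  have hγ : ∀ z, Continuous (fun s => γ s z) := fun z => (hl z).add (hT.mul continuous_const)
  have hl0 : ∀ s ∈ Set.Icc (0 : ℝ) 1, ∀ z, 0 ≤ l s z := fun s hs z =>
    add_nonneg (mul_nonneg (by linarith [hs.2]) (ha.1 z)) (mul_nonneg hs.1 (hb.1 z))
  have hT0 : ∀ s ∈ Set.Icc (0 : ℝ) 1, 0 ≤ T s := fun s hs => by
    refine Finset.le_inf' hNne _ (fun z hz => div_nonneg (hl0 s hs z) ?_)
    have := (mem_filter.mp hz).2
    linarith
  have hγ0 : ∀ s ∈ Set.Icc (0 : ℝ) 1, ∀ z, 0 ≤ γ s z := fun s hs z => by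
    by_cases hz : d z < 0
    · have h1 : T s ≤ l s z / (-d z) := Finset.inf'_le _ (mem_filter.mpr ⟨mem_univ z, hz⟩)
      rw [le_div_iff₀ (by linarith)] at h1
      simp only [γ]
      linarith
    · exact add_nonneg (hl0 s hs z) (mul_nonneg (hT0 s hs) (not_lt.mp hz))
  have hγP : ∀ s ∈ Set.Icc (0 : ℝ) 1, γ s ∈ PP u v := fun s hs => by
    refine ⟨hγ0 s hs, ?_, ?_⟩
    · simp only [γ, l, Finset.sum_add_distrib, ← Finset.mul_sum, ha.2.1, hb.2.1, hds]
      ring
    · simp only [γ, l, add_smul, mul_smul, Finset.sum_add_distrib, ← Finset.smul_sum, ha.2.2,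
        hb.2.2, hdu, smul_zero, add_zero]
      rw [← add_smul]
      simp
  have hγz : ∀ s, ∃ z, γ s z = 0 := fun s => by
    obtain ⟨z, hzN, hz⟩ := Finset.exists_mem_eq_inf' hNne (fun z => l s z / (-d z))
    refine ⟨z, ?_⟩
    have hd : d z < 0 := (mem_filter.mp hzN).2
    simp only [γ, T]
    rw [hz, div_neg, neg_mul, div_mul_cancel₀ _ hd.ne]
    ring
  have hγx : γ 0 x = 0 := by
    simp only [γ, l, hax, hdx]
    ring
  have hγy : γ 1 y = 0 := by
    refine le_antisymm ?_ (hγ0 1 (by simp) y)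
    have := hT0 1 (by simp)
    simp only [γ, l, hby]
    nlinarith
  -- connectedness of `[0,1]`
  let A : Set ℝ := ⋃ z ∈ univ.filter (fun z => Relation.ReflTransGen (Lk u v) x z), {s | γ s z = 0}
  let B : Set ℝ := ⋃ z ∈ univ.filter (fun z => ¬ Relation.ReflTransGen (Lk u v) x z),
    {s | γ s z = 0}
  have hAc : IsClosed A := isClosed_biUnion_finset (fun z _ => isClosed_eq (hγ z) continuous_const)
  have hBc : IsClosed B := isClosed_biUnion_finset (fun z _ => isClosed_eq (hγ z) continuous_const)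
  by_contra hcon
  have hpc : IsPreconnected (Set.Icc (0 : ℝ) 1) := isPreconnected_Icc
  rw [isPreconnected_closed_iff] at hpc
  obtain ⟨s, hs, hsA, hsB⟩ := hpc A B hAc hBc (by
    intro s hs
    obtain ⟨z, hz⟩ := hγz s
    by_cases h : Relation.ReflTransGen (Lk u v) x z
    · left
      simp only [A, Set.mem_iUnion, mem_filter, mem_univ, true_and]
      exact ⟨z, h, hz⟩
    · right
      simp only [B, Set.mem_iUnion, mem_filter, mem_univ, true_and]
      exact ⟨z, h, hz⟩)
    ⟨0, by simp, by
      simp only [A, Set.mem_iUnion, mem_filter, mem_univ, true_and]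
      exact ⟨x, Relation.ReflTransGen.refl, hγx⟩⟩
    ⟨1, by simp, by
      simp only [B, Set.mem_iUnion, mem_filter, mem_univ, true_and]
      exact ⟨y, hcon, hγy⟩⟩
  simp only [A, B, Set.mem_iUnion, mem_filter, mem_univ, true_and] at hsA hsB
  obtain ⟨z, hz, hz0⟩ := hsA
  obtain ⟨w, hw, hw0⟩ := hsB
  exact hw (hz.tail ⟨γ s, hγP s hs, hz0, hw0⟩)

omit [FiniteDimensional ℝ E] [Fintype X] [DecidableEq X] in
theorem far_of_not_lt {S : Set X} {h : X → κ} {v : E} (hv : v ∈ hull F S h)
    (hh : ¬ Lt F S h ‖v‖) : ∀ x ∈ S, ‖v‖ ^ 2 ≤ ⟪v, F x (h x)⟫ := by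
  intro x hx
  by_contra hcon
  exact hh (lt_of_good F hv hx (not_le.mp hcon))

/-- Lemma M (the plateau). -/
theorem lemmaM (hcard : finrank ℝ E + 2 ≤ Fintype.card X)
    (h0 : ∀ x, (0 : E) ∈ convexHull ℝ (Set.range (F x))) {h f g : X → κ} {v : E} {c : ℝ}
    (hc0 : 0 < c) (hvc : ‖v‖ = c) (hh : ¬ Lt F Set.univ h c)
    (hfv : v ∈ hull F (agr f h) h) (hgv : v ∈ hull F (agr g h) h)
    (hfl : Lt F Set.univ f c) (hgl : Lt F Set.univ g c) : R F c f g := by
  subst hvc
  have hv0 : v ≠ 0 := norm_pos_iff.mp hc0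
  have hvu : v ∈ hull F Set.univ h := hull_mono F (Set.subset_univ _) h hfv
  have hu := far_of_not_lt F hvu hh
  choose j hj using exists_good F h0 hv0
  -- the exchanged selections
  have key : ∀ S : Set X, v ∈ hull F S h → ∀ x, x ∉ S →
      (∀ t ∈ S, Function.update h x (j x) t = h t) ∧
      Lt F Set.univ (Function.update h x (j x)) ‖v‖ := by
    intro S hS x hx
    have h1 : ∀ t ∈ S, Function.update h x (j x) t = h t := fun t ht => by
      rw [Function.update_of_ne (by rintro rfl; exact hx ht)]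
    refine ⟨h1, lt_of_good F (v := v) (x := x) ?_ (Set.mem_univ x) ?_⟩
    · rw [← hull_congr F h1] at hS
      exact hull_mono F (Set.subset_univ _) _ hS
    · simpa using hj x
  have side : ∀ e : X → κ, v ∈ hull F (agr e h) h → Lt F Set.univ e ‖v‖ →
      ∃ x, x ∉ agr e h ∧ R F ‖v‖ e (Function.update h x (j x)) := by
    intro e he hel
    have : ∃ x, x ∉ agr e h := by
      by_contra hcon
      push Not at hcon
      exact hh ((funext hcon : e = h) ▸ hel)
    obtain ⟨x, hx⟩ := this
    obtain ⟨k1, k2⟩ := key _ he x hx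
    exact ⟨x, hx, lemmaL F hcard h0 hv0 he (fun t _ => hu t (Set.mem_univ t)) (fun t ht => ht) k1
      hel k2⟩
  obtain ⟨x, hx, hxR⟩ := side f hfv hfl
  obtain ⟨y, hy, hyR⟩ := side g hgv hgl
  have hxP : ∃ a ∈ PP (fun t => F t (h t)) v, a x = 0 := by
    obtain ⟨a, ha, haS⟩ := (mem_hull_iff F).mp hfv
    exact ⟨a, ha, haS x hx⟩
  have hyP : ∃ a ∈ PP (fun t => F t (h t)) v, a y = 0 := by
    obtain ⟨a, ha, haS⟩ := (mem_hull_iff F).mp hgv
    exact ⟨a, ha, haS y hy⟩
  have hch := chain (fun t => F t (h t)) v hcard hv0 (fun t => hu t (Set.mem_univ t)) x y hxP hyP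
  refine R_trans F hxR (R_trans F ?_ (R_symm F hyR))
  clear hy hyR hyP
  induction hch with
  | refl => exact R_refl F _ _
  | tail _ h2 ih =>
    rename_i s t _
    refine R_trans F ih ?_
    obtain ⟨a, ha, has, hat⟩ := h2
    have hS : v ∈ hull F {z | z ≠ s ∧ z ≠ t} h := by
      rw [mem_hull_iff]
      refine ⟨a, ha, fun z hz => ?_⟩
      by_cases hzs : z = s
      · rw [hzs, has]
      · by_cases hzt : z = t
        · rw [hzt, hat]
        · exact absurd ⟨hzs, hzt⟩ hz
    obtain ⟨k1, k2⟩ := key _ hS s (fun hh => hh.1 rfl)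
    obtain ⟨k3, k4⟩ := key _ hS t (fun hh => hh.2 rfl)
    exact lemmaL F hcard h0 hv0 hS (fun t _ => hu t (Set.mem_univ t)) k1 k3 k2 k4

omit [FiniteDimensional ℝ E] [Fintype X] [DecidableEq X] in
theorem nearest_unique {S : Set X} {h : X → κ} {c : ℝ} (hh : ¬ Lt F S h c) {v w : E}
    (hv : v ∈ hull F S h) (hw : w ∈ hull F S h) (hvc : ‖v‖ = c) (hwc : ‖w‖ = c) : v = w := by
  have h1 : ‖v‖ ^ 2 ≤ ⟪v, w⟫ := by
    by_contra hcon
    have := exists_closer (hull_convex F S h) hv hw (not_le.mp hcon)
    rw [hvc] at this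
    exact hh this
  have h2 : ‖v - w‖ ^ 2 = ‖v‖ ^ 2 - 2 * ⟪v, w⟫ + ‖w‖ ^ 2 := norm_sub_sq_real v w
  rw [hvc] at h1 h2
  rw [hwc] at h2
  have h3 : ‖v - w‖ ^ 2 ≤ 0 := by rw [h2]; linarith
  have h4 : ‖v - w‖ = 0 := by
    have := norm_nonneg (v - w)
    nlinarith
  exact sub_eq_zero.mp (norm_eq_zero.mp h4)

omit [FiniteDimensional ℝ E] [Fintype X] [DecidableEq X] in
theorem norm_eq_of_not_lt {S T : Set X} {h : X → κ} {c : ℝ} (hh : ¬ Lt F T h c) (hST : S ⊆ T)
    {v : E} (hv : v ∈ hull F S h) (hvc : ‖v‖ ≤ c) : ‖v‖ = c := by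
  refine le_antisymm hvc ?_
  by_contra hcon
  exact hh ⟨v, hull_mono F hST h hv, not_le.mp hcon⟩

/-- The induction step: from chains at level `≤ c` to chains at level `< c`. -/
theorem step (hcard : finrank ℝ E + 2 ≤ Fintype.card X)
    (h0 : ∀ x, (0 : E) ∈ convexHull ℝ (Set.range (F x))) {c : ℝ} (hc0 : 0 < c)
    (hle : ∀ f g : X → κ, Le F Set.univ f c → Le F Set.univ g c →
      Relation.ReflTransGen (fun f g => Le F (agr f g) f c) f g) :
    ∀ f g : X → κ, Lt F Set.univ f c → Lt F Set.univ g c → R F c f g := by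
  intro f g hf hg
  have hchain := hle f g (by obtain ⟨p, hp, hpc⟩ := hf; exact ⟨p, hp, hpc.le⟩)
    (by obtain ⟨p, hp, hpc⟩ := hg; exact ⟨p, hp, hpc.le⟩)
  let Near : (X → κ) → (X → κ) → Prop := fun e h => Lt F Set.univ e c ∧
    ((Lt F Set.univ h c ∧ R F c e h) ∨
      (¬ Lt F Set.univ h c ∧ ∃ v ∈ hull F (agr e h) h, ‖v‖ ≤ c))
  have claim : ∀ h : X → κ, Relation.ReflTransGen (fun f g => Le F (agr f g) f c) f h →
      ∀ e, Near e h → R F c f e := by
    intro h hfh
    induction hfh with
    | refl =>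
      rintro e ⟨he, ⟨-, h1⟩ | ⟨h1, -⟩⟩
      · exact R_symm F h1
      · exact absurd hf h1
    | tail _ hlink ih =>
      rename_i h k _
      intro e he
      obtain ⟨v, hv, hvc⟩ := hlink
      have hvk : v ∈ hull F (agr h k) k := by
        rw [← hull_congr F (f := h) (g := k) (S := agr h k) (fun x hx => hx)]
        exact hv
      obtain ⟨hel, he⟩ := he
      by_cases hhl : Lt F Set.univ h c
      · -- `h` is good
        have hNear : Near h h := ⟨hhl, Or.inl ⟨hhl, R_refl F _ _⟩⟩
        refine R_trans F (ih h hNear) ?_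
        rcases he with ⟨hkl, hek⟩ | ⟨hkl, v', hv', hvc'⟩
        · -- good - good
          refine R_trans F ?_ (R_symm F hek)
          by_cases hl : Lt F (agr h k) h c
          · exact R_of_lt F hl
          · have hvc1 := norm_eq_of_not_lt F hl (Set.Subset.refl _) hv hvc
            subst hvc1
            exact lemmaL F hcard h0 (norm_pos_iff.mp hc0) hv (far_of_not_lt F hv hl)
              (fun t _ => rfl) (fun t ht => Eq.symm ht) hhl hkl
        · -- good - lost
          have hvc1 := norm_eq_of_not_lt F hkl (Set.subset_univ _) hvk hvc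
          have hvc2 := norm_eq_of_not_lt F hkl (Set.subset_univ _) hv' hvc'
          have hvv := nearest_unique F hkl (hull_mono F (Set.subset_univ _) _ hvk)
            (hull_mono F (Set.subset_univ _) _ hv') hvc1 hvc2
          rw [← hvv] at hv'
          exact lemmaM F hcard h0 hc0 hvc1 hkl hvk hv' hhl hel
      · -- `h` is lost
        rcases he with ⟨hkl, hek⟩ | ⟨hkl, v', hv', hvc'⟩
        · -- lost - good
          refine R_trans F (ih k ⟨hkl, Or.inr ⟨hhl, v, ?_, hvc⟩⟩) (R_symm F hek)
          rw [agr_symm]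
          exact hv
        · -- lost - lost
          have hvc1 := norm_eq_of_not_lt F hkl (Set.subset_univ _) hvk hvc
          have hvc2 := norm_eq_of_not_lt F hkl (Set.subset_univ _) hv' hvc'
          have hvv := nearest_unique F hkl (hull_mono F (Set.subset_univ _) _ hvk)
            (hull_mono F (Set.subset_univ _) _ hv') hvc1 hvc2
          rw [← hvv] at hv'
          by_cases hag : ∃ x, x ∉ agr h k
          · obtain ⟨x, hx⟩ := hag
            have hv0 : v ≠ 0 := norm_pos_iff.mp (hvc1.symm ▸ hc0)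
            obtain ⟨j, hj⟩ := exists_good F h0 hv0 x
            have hupd : ∀ t ∈ agr h k, Function.update h x j t = h t := fun t ht => by
              rw [Function.update_of_ne (by rintro rfl; exact hx ht)]
            have h1 : Lt F Set.univ (Function.update h x j) c := by
              rw [← hvc1]
              refine lt_of_good F (v := v) (x := x) ?_ (Set.mem_univ x) (by simpa using hj)
              rw [← hull_congr F hupd] at hv
              exact hull_mono F (Set.subset_univ _) _ hv
            refine R_trans F (ih (Function.update h x j) ⟨h1, Or.inr ⟨hhl, v, ?_, hvc⟩⟩) ?_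
            · exact hull_mono F (fun t ht => hupd t ht) _ hv
            · refine lemmaM F hcard h0 hc0 hvc1 hkl ?_ hv' h1 hel
              exact hull_mono F (fun t ht => (hupd t ht).trans ht) _ hvk
          · push Not at hag
            have : h = k := funext hag
            subst this
            refine ih e ⟨hel, Or.inr ⟨hhl, v, hv', hvc⟩⟩
  exact claim g hchain g ⟨hg, Or.inl ⟨hg, R_refl F _ _⟩⟩

omit [DecidableEq X] in
/-- The descent: chains at every positive level. -/
theorem descent [Finite κ] (hcard : finrank ℝ E + 2 ≤ Fintype.card X)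
    (h0 : ∀ x, (0 : E) ∈ convexHull ℝ (Set.range (F x))) :
    ∀ (n : ℕ) (c : ℝ), 0 < c →
      (Set.range (fun p : Set X × (X → κ) => Metric.infDist (0 : E) (hull F p.1 p.2)) ∩
        Set.Ici c).ncard = n →
      ∀ f g : X → κ, Lt F Set.univ f c → Lt F Set.univ g c → R F c f g := by
  classical
  set V : Set ℝ := Set.range (fun p : Set X × (X → κ) => Metric.infDist (0 : E) (hull F p.1 p.2))
    with hV
  have hVfin : V.Finite := Set.finite_range _
  have hmem : ∀ (S : Set X) (f : X → κ), Metric.infDist (0 : E) (hull F S f) ∈ V := fun S f =>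
    ⟨(S, f), rfl⟩
  have hne : ∀ (S : Set X) (f : X → κ), S.Nonempty → (hull F S f).Nonempty := by
    rintro S f ⟨x, hx⟩
    exact ⟨_, mem_hull F hx f⟩
  have hSne : ∀ (S : Set X) (f : X → κ), (hull F S f).Nonempty → S.Nonempty := by
    rintro S f h
    by_contra hcon
    rw [Set.not_nonempty_iff_eq_empty] at hcon
    rw [hcon] at h
    simp [hull] at h
  have hLt : ∀ (S : Set X) (f : X → κ) (c : ℝ), Lt F S f c ↔
      S.Nonempty ∧ Metric.infDist (0 : E) (hull F S f) < c := by
    intro S f c
    constructor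
    · rintro ⟨p, hp, hpc⟩
      refine ⟨hSne S f ⟨p, hp⟩, ?_⟩
      rw [Metric.infDist_lt_iff ⟨p, hp⟩]
      exact ⟨p, hp, by simpa using hpc⟩
    · rintro ⟨hS, h⟩
      rw [Metric.infDist_lt_iff (hne S f hS)] at h
      obtain ⟨p, hp, hpc⟩ := h
      exact ⟨p, hp, by simpa using hpc⟩
  have hLe : ∀ (S : Set X) (f : X → κ) (c : ℝ), S.Nonempty →
      Metric.infDist (0 : E) (hull F S f) ≤ c → Le F S f c := by
    intro S f c hS h
    have hcomp : IsCompact (hull F S f) :=
      (Set.Finite.image _ (Set.toFinite S)).isCompact_convexHull ℝ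
    obtain ⟨p, hp, hpd⟩ := hcomp.exists_infDist_eq_dist (hne S f hS) 0
    refine ⟨p, hp, ?_⟩
    rw [hpd] at h
    simpa using h
  intro n
  induction n using Nat.strong_induction_on with
  | _ n ih =>
    intro c hc0 hn f g hf hg
    have hXc : 2 ≤ Fintype.card X := le_trans (Nat.le_add_left _ _) hcard
    by_cases hempty : (V ∩ Set.Ici c) = ∅
    · -- everything is below `c`
      have hall : ∀ (S : Set X) (f : X → κ), S.Nonempty → Lt F S f c := by
        intro S f hS
        rw [hLt]
        refine ⟨hS, ?_⟩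
        by_contra hcon
        have : Metric.infDist (0 : E) (hull F S f) ∈ V ∩ Set.Ici c :=
          ⟨hmem S f, not_lt.mp hcon⟩
        rw [hempty] at this
        exact this
      obtain ⟨x, y, hxy⟩ := Fintype.exists_pair_of_one_lt_card (α := X) (by omega)
      refine R_trans F (R_of_lt F (f := f) (g := Function.update f y (g y))
        (hall _ _ ⟨x, ?_⟩)) (R_of_lt F (hall _ _ ⟨y, ?_⟩))
      · change f x = Function.update f y (g y) x
        rw [Function.update_of_ne hxy]
      · change Function.update f y (g y) y = g y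
        simp
    · -- the smallest value at least `c`
      have hne1 : (V ∩ Set.Ici c).Nonempty := Set.nonempty_iff_ne_empty.mpr hempty
      have hfin1 : (V ∩ Set.Ici c).Finite := hVfin.subset Set.inter_subset_left
      obtain ⟨c1, ⟨hc1V, hc1c⟩, hc1min⟩ := Set.exists_min_image _ (fun t => t) hfin1 hne1
      have hc1c' : c ≤ c1 := hc1c
      have hc10 : 0 < c1 := lt_of_lt_of_le hc0 hc1c'
      -- the next value
      have hfin2 : (insert (c1 + 1) (V ∩ Set.Ioi c1)).Finite :=
        (hVfin.subset Set.inter_subset_left).insert _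
      obtain ⟨c2, hc2mem, hc2min⟩ := Set.exists_min_image _ (fun t => t) hfin2
        (Set.insert_nonempty _ _)
      have hc12 : c1 < c2 := by
        rcases hc2mem with h | h
        · rw [h]
          linarith
        · exact h.2
      have hcardlt : (V ∩ Set.Ici c2).ncard < n := by
        rw [← hn]
        refine Set.ncard_lt_ncard ?_ hfin1
        refine ⟨fun t ht => ⟨ht.1, le_trans hc1c' (le_trans hc12.le ht.2)⟩, fun hcon => ?_⟩
        have := (hcon ⟨hc1V, hc1c'⟩).2
        exact absurd this (not_le.mpr hc12)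
      have hQ2 := ih _ hcardlt c2 (lt_trans hc10 hc12) rfl
      have hQ1 := step F hcard h0 hc10 (by
        intro f g hf hg
        have h1 : R F c2 f g := hQ2 f g (by
          obtain ⟨p, hp, hpc⟩ := hf
          exact ⟨p, hp, lt_of_le_of_lt hpc hc12⟩) (by
          obtain ⟨p, hp, hpc⟩ := hg
          exact ⟨p, hp, lt_of_le_of_lt hpc hc12⟩)
        refine Relation.ReflTransGen.mono ?_ _ _ h1
        intro a b hab
        rw [hLt] at hab
        refine hLe _ _ _ hab.1 ?_
        by_contra hcon
        have h2 := hc2min _ (Set.mem_insert_of_mem _ ⟨hmem (agr a b) a, not_le.mp hcon⟩)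
        exact absurd hab.2 (not_lt.mpr h2))
      have h1 : R F c1 f g := hQ1 f g (by
        obtain ⟨p, hp, hpc⟩ := hf
        exact ⟨p, hp, lt_of_lt_of_le hpc hc1c'⟩) (by
        obtain ⟨p, hp, hpc⟩ := hg
        exact ⟨p, hp, lt_of_lt_of_le hpc hc1c'⟩)
      refine Relation.ReflTransGen.mono ?_ _ _ h1
      intro a b hab
      rw [hLt] at hab ⊢
      refine ⟨hab.1, ?_⟩
      by_contra hcon
      have h2 := hc1min _ ⟨hmem (agr a b) a, not_lt.mp hcon⟩
      exact absurd hab.2 (not_lt.mpr h2)

omit [DecidableEq X] in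
/-- The connected colourful Caratheodory theorem (inner product form). -/
theorem main_inner [Finite κ] (hcard : finrank ℝ E + 2 ≤ Fintype.card X)
    (h0 : ∀ x, (0 : E) ∈ convexHull ℝ (Set.range (F x))) (f g : X → κ)
    (hf : (0 : E) ∈ hull F Set.univ f) (hg : (0 : E) ∈ hull F Set.univ g) :
    Relation.ReflTransGen (fun f g => (0 : E) ∈ hull F (agr f g) f) f g := by
  classical
  set V : Set ℝ := Set.range (fun p : Set X × (X → κ) => Metric.infDist (0 : E) (hull F p.1 p.2))
    with hV
  have hVfin : V.Finite := Set.finite_range _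
  have hfin2 : (insert (1 : ℝ) (V ∩ Set.Ioi 0)).Finite :=
    (hVfin.subset Set.inter_subset_left).insert _
  obtain ⟨c, hcmem, hcmin⟩ := Set.exists_min_image _ (fun t => t) hfin2 (Set.insert_nonempty _ _)
  have hc0 : 0 < c := by
    rcases hcmem with h | h
    · rw [h]
      norm_num
    · exact h.2
  have h1 := descent F hcard h0 _ c hc0 rfl f g ⟨0, hf, by simpa using hc0⟩
    ⟨0, hg, by simpa using hc0⟩
  refine Relation.ReflTransGen.mono ?_ _ _ h1
  rintro a b ⟨p, hp, hpc⟩
  have hlt : Metric.infDist (0 : E) (hull F (agr a b) a) < c := by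
    rw [Metric.infDist_lt_iff ⟨p, hp⟩]
    exact ⟨p, hp, by simpa using hpc⟩
  have hzero : Metric.infDist (0 : E) (hull F (agr a b) a) = 0 := by
    refine le_antisymm ?_ Metric.infDist_nonneg
    by_contra hcon
    have h2 := hcmin _ (Set.mem_insert_of_mem _ ⟨⟨(agr a b, a), rfl⟩, not_le.mp hcon⟩)
    exact absurd hlt (not_lt.mpr h2)
  have hclosed : IsClosed (hull F (agr a b) a) :=
    (Set.Finite.image _ (Set.toFinite (agr a b))).isClosed_convexHull ℝ
  exact (hclosed.mem_iff_infDist_zero ⟨p, hp⟩).mpr hzero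

end Fin

end Inner

/-- **Connected colourful Caratheodory theorem.**  Let `F x j` (`x : X` the colours) be vectors of a
real vector space `E` such that `0` is in the convex hull of every colour class, and suppose that
there are at least `dim E + 2` colours.  Any two selections `f, g` whose vectors have `0` in their
convex hull are joined by a chain of selections such that for consecutive members `a, b` the point
`0` is in the convex hull of the vectors chosen by both. -/
theorem connected_colourful {E : Type*} [AddCommGroup E] [Module ℝ E] [FiniteDimensional ℝ E]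
    {X κ : Type*} [Fintype X] [Finite κ] (F : X → κ → E)
    (hcard : finrank ℝ E + 2 ≤ Fintype.card X)
    (h0 : ∀ x, (0 : E) ∈ convexHull ℝ (Set.range (F x))) (f g : X → κ)
    (hf : (0 : E) ∈ hull F Set.univ f) (hg : (0 : E) ∈ hull F Set.univ g) :
    Relation.ReflTransGen (fun f g => (0 : E) ∈ hull F (agr f g) f) f g := by
  let e : E ≃ₗ[ℝ] EuclideanSpace ℝ (Fin (finrank ℝ E)) :=
    LinearEquiv.ofFinrankEq _ _ (by rw [finrank_euclideanSpace_fin])
  have hhull : ∀ (S : Set X) (f : X → κ), (0 : EuclideanSpace ℝ (Fin (finrank ℝ E))) ∈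
      hull (fun x j => e (F x j)) S f ↔ (0 : E) ∈ hull F S f := by
    intro S f
    have h1 : hull (fun x j => e (F x j)) S f = e '' hull F S f := by
      unfold hull
      rw [← e.coe_toLinearMap, LinearMap.image_convexHull, Set.image_image]
    rw [h1]
    constructor
    · rintro ⟨p, hp, hp0⟩
      have : p = 0 := by simpa using hp0
      rwa [this] at hp
    · intro h
      exact ⟨0, h, by simp⟩
  have h0' : ∀ x, (0 : EuclideanSpace ℝ (Fin (finrank ℝ E))) ∈
      convexHull ℝ (Set.range (fun j => e (F x j))) := by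
    intro x
    have h1 : convexHull ℝ (Set.range (fun j => e (F x j))) =
        e '' convexHull ℝ (Set.range (F x)) := by
      rw [← e.coe_toLinearMap, LinearMap.image_convexHull, ← Set.range_comp]
      rfl
    rw [h1]
    exact ⟨0, h0 x, by simp⟩
  have := main_inner (fun x j => e (F x j)) (by rw [finrank_euclideanSpace_fin]; exact hcard) h0'
    f g ((hhull _ _).mpr hf) ((hhull _ _).mpr hg)
  exact Relation.ReflTransGen.mono (fun a b hab => (hhull _ _).mp hab) _ _ this

end Pool.Agent.MPa0a351.Conn
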