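import Pool.Agent.Lib.MP_a0a351_co.Conn

/-!
Connectedness of the set of Tverberg points of `(d+1)(r-1)+2` or more points (any points), by
Sarkaria's tensor method and the connected colourful Caratheodory theorem.
-/

set_option autoImplicit false

open Module Finset

namespace Pool.Agent.MPa0a351.Conn

section Sarkaria

variable {V X : Type*} [AddCommGroup V] [Module ℝ V]

/-- The common points of the convex hulls of the parts of the partition `f`. -/
def T {V X : Type*} [AddCommGroup V] [Module ℝ V] {r : ℕ} (p : X → V) (f : X → Fin r) : Set V :=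
  {q | ∀ i, q ∈ convexHull ℝ (p '' {x | f x = i})}

/-- The common points of the convex hulls of the parts of the partition `f` of the set `S`. -/
def TS {V X : Type*} [AddCommGroup V] [Module ℝ V] {r : ℕ} (p : X → V) (S : Set X)
    (f : X → Fin r) : Set V :=
  {q | ∀ i, q ∈ convexHull ℝ (p '' {x | x ∈ S ∧ f x = i})}

/-- Sarkaria's vectors: in the coordinates `0, …, r' - 1` the parts `i < r'` are compared with the
last part. -/
def sark {V X : Type*} [AddCommGroup V] [Module ℝ V] {r' : ℕ} (p : X → V) (x : X)
    (j : Fin (r' + 1)) : Fin r' → V × ℝ := fun i =>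
  (if j = i.castSucc then (1 : ℝ) else if j = Fin.last r' then -1 else 0) • (p x, (1 : ℝ))

theorem sark_sum {r' : ℕ} (p : X → V) (x : X) : ∑ j, sark (r' := r') p x j = 0 := by
  funext i
  rw [Finset.sum_apply]
  simp only [sark, ← Finset.sum_smul]
  have : ∑ j : Fin (r' + 1), (if j = i.castSucc then (1 : ℝ) else if j = Fin.last r' then -1 else 0)
      = 0 := by
    rw [Fin.sum_univ_castSucc]
    have h1 : ∀ j : Fin r', (if j.castSucc = i.castSucc then (1 : ℝ) else
        if j.castSucc = Fin.last r' then -1 else 0) = if j = i then 1 else 0 := by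
      intro j
      by_cases h : j = i
      · simp [h]
      · rw [if_neg (fun hh => h (Fin.castSucc_injective _ hh)), if_neg h,
          if_neg (Fin.castSucc_lt_last j).ne]
    have h2 : (if Fin.last r' = i.castSucc then (1 : ℝ) else
        if Fin.last r' = Fin.last r' then -1 else 0) = -1 := by
      rw [if_neg (Fin.castSucc_lt_last i).ne', if_pos rfl]
    rw [h2]
    simp only [h1]
    simp
  rw [this, zero_smul]
  rfl

theorem sark_zero_mem {r' : ℕ} (p : X → V) (x : X) :
    (0 : Fin r' → V × ℝ) ∈ convexHull ℝ (Set.range (sark p x)) := by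
  have h1 : (0 : Fin r' → V × ℝ) = ∑ j : Fin (r' + 1), ((r' : ℝ) + 1)⁻¹ • sark p x j := by
    rw [← Finset.smul_sum, sark_sum, smul_zero]
  rw [h1]
  refine (convex_convexHull ℝ _).sum_mem (fun _ _ => by positivity) ?_
    (fun j _ => subset_convexHull ℝ _ ⟨j, rfl⟩)
  rw [Finset.sum_const, Finset.card_univ, Fintype.card_fin, nsmul_eq_mul]
  push_cast
  field_simp

/-- The Sarkaria equations, part by part. -/
theorem sark_eq [Fintype X] {r' : ℕ} (p : X → V) (f : X → Fin (r' + 1)) (a : X → ℝ)
    (i : Fin r') : (∑ x, a x • sark p x (f x)) i =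
      ∑ x, (if f x = i.castSucc then a x else 0) • (p x, (1 : ℝ)) -
        ∑ x, (if f x = Fin.last r' then a x else 0) • (p x, (1 : ℝ)) := by
  rw [Finset.sum_apply, ← Finset.sum_sub_distrib]
  refine Finset.sum_congr rfl fun x _ => ?_
  rw [← sub_smul, Pi.smul_apply, sark, smul_smul]
  congr 1
  by_cases h1 : f x = i.castSucc
  · rw [if_pos h1, if_pos h1, if_neg (by rw [h1]; exact (Fin.castSucc_lt_last i).ne)]
    ring
  · rw [if_neg h1, if_neg h1]
    split_ifs <;> ring

/-- Solutions of the Sarkaria equations give points common to the parts. -/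
theorem exists_TS [Fintype X] {r' : ℕ} (p : X → V) (S : Set X) (f : X → Fin (r' + 1))
    (h : (0 : Fin r' → V × ℝ) ∈ hull (sark p) S f) : (TS p S f).Nonempty := by
  classical
  obtain ⟨a, ⟨ha0, ha1, hav⟩, haS⟩ := (mem_hull_iff _).mp h
  -- the parts
  set M : Fin (r' + 1) → V × ℝ := fun j => ∑ x, (if f x = j then a x else 0) • (p x, (1 : ℝ))
    with hM
  have hMeq : ∀ j, M j = M (Fin.last r') := by
    intro j
    rcases Fin.eq_castSucc_or_eq_last j with ⟨i, rfl⟩ | rfl
    · have := congrFun hav i
      rw [sark_eq, Pi.zero_apply, sub_eq_zero] at this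
      exact this
    · rfl
  have hM2 : ∀ j, (M j).2 = ∑ x, (if f x = j then a x else 0) := by
    intro j
    simp only [hM, Prod.snd_sum, Prod.smul_snd, smul_eq_mul, mul_one]
  have hM1 : ∀ j, (M j).1 = ∑ x, (if f x = j then a x else 0) • p x := by
    intro j
    simp only [hM, Prod.fst_sum, Prod.smul_fst]
  have hs : ((r' : ℝ) + 1) * (M (Fin.last r')).2 = 1 := by
    have h1 : ∑ j, (M j).2 = 1 := by
      simp only [hM2]
      rw [Finset.sum_comm]
      simpa using ha1
    have h2 : ∑ j, (M j).2 = ∑ _j : Fin (r' + 1), (M (Fin.last r')).2 :=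
      Finset.sum_congr rfl (fun j _ => by rw [hMeq j])
    rw [h1, Finset.sum_const, Finset.card_univ, Fintype.card_fin, nsmul_eq_mul] at h2
    push_cast at h2
    exact h2.symm
  refine ⟨((r' : ℝ) + 1) • (M (Fin.last r')).1, fun j => ?_⟩
  have h1 : ((r' : ℝ) + 1) • (M (Fin.last r')).1 ∈
      hull (fun x (_ : Unit) => p x) {x | x ∈ S ∧ f x = j} (fun _ => ()) := by
    rw [mem_hull_iff]
    refine ⟨fun x => ((r' : ℝ) + 1) * (if f x = j then a x else 0), ⟨fun x => ?_, ?_, ?_⟩,
      fun x hx => ?_⟩
    · refine mul_nonneg (by positivity) ?_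
      split_ifs
      exacts [ha0 x, le_rfl]
    · rw [← Finset.mul_sum, ← hM2, hMeq j, hs]
    · simp only [mul_smul]
      rw [← Finset.smul_sum, ← hM1, hMeq j]
    · dsimp only
      split_ifs with hfx
      · rw [haS x (fun hh => hx ⟨hh, hfx⟩), mul_zero]
      · rw [mul_zero]
  exact h1

theorem hull_of_T [Fintype X] {r' : ℕ} (p : X → V) (f : X → Fin (r' + 1))
    (h : (T p f).Nonempty) : (0 : Fin r' → V × ℝ) ∈ hull (sark p) Set.univ f := by
  classical
  obtain ⟨q, hq⟩ := h
  have hq' : ∀ j, ∃ a ∈ PP p q, ∀ x, f x ≠ j → a x = 0 := by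
    intro j
    have h1 : q ∈ hull (fun x (_ : Unit) => p x) {x | f x = j} (fun _ => ()) := hq j
    rw [mem_hull_iff] at h1
    obtain ⟨a, ha, haS⟩ := h1
    exact ⟨a, ha, fun x hx => haS x hx⟩
  choose a ha haS using hq'
  have hite : ∀ j x, (if f x = j then a (f x) x else 0) = a j x := by
    intro j x
    split_ifs with hfx
    · rw [hfx]
    · exact (haS j x hfx).symm
  rw [mem_hull_iff]
  refine ⟨fun x => ((r' : ℝ) + 1)⁻¹ * a (f x) x, ⟨fun x => mul_nonneg (by positivity)
    ((ha (f x)).1 x), ?_, ?_⟩, fun x hx => absurd (Set.mem_univ x) hx⟩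
  · rw [← Finset.mul_sum]
    have h1 : ∑ x, a (f x) x = ∑ j, ∑ x, a j x := by
      rw [Finset.sum_comm]
      refine Finset.sum_congr rfl fun x _ => ?_
      rw [Finset.sum_congr rfl (fun j _ => (hite j x).symm)]
      simp
    rw [h1, Finset.sum_congr rfl (fun j _ => (ha j).2.1), Finset.sum_const, Finset.card_univ,
      Fintype.card_fin, nsmul_eq_mul]
    push_cast
    field_simp
  · have hpart : ∀ j, ∑ x, (if f x = j then ((r' : ℝ) + 1)⁻¹ * a (f x) x else 0) • (p x, (1 : ℝ)) =
        ((r' : ℝ) + 1)⁻¹ • (q, (1 : ℝ)) := by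
      intro j
      have h1 : ∀ x, (if f x = j then ((r' : ℝ) + 1)⁻¹ * a (f x) x else 0) • (p x, (1 : ℝ)) =
          ((r' : ℝ) + 1)⁻¹ • (a j x • (p x, (1 : ℝ))) := by
        intro x
        rw [smul_smul, ← hite j x, mul_ite, mul_zero]
      simp only [h1]
      rw [← Finset.smul_sum]
      congr 1
      refine Prod.ext ?_ ?_
      · rw [Prod.fst_sum]
        simpa using (ha j).2.2
      · rw [Prod.snd_sum]
        simpa using (ha j).2.1
    funext i
    rw [sark_eq, hpart, hpart, sub_self]
    rfl

end Sarkaria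

section Main

variable {V X : Type*} [AddCommGroup V] [Module ℝ V] [FiniteDimensional ℝ V] [Fintype X]

/-- **Chains of Tverberg partitions.**  For at least `(d + 1)(r - 1) + 2` points of a
`d`-dimensional space, any two partitions into `r` parts with intersecting convex hulls are joined
by a chain of partitions such that, for consecutive members `a, b`, the sets of common points of
the convex hulls of the parts of `a` and of the parts of `b` intersect; there is even a common point
of the convex hulls of the parts of the partial partition by the points with `a x = b x`. -/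
theorem tverberg_chain (r : ℕ) (p : X → V)
    (hcard : (finrank ℝ V + 1) * (r - 1) + 2 ≤ Fintype.card X) (f g : X → Fin r)
    (hf : (T p f).Nonempty) (hg : (T p g).Nonempty) :
    Relation.ReflTransGen (fun a b => (TS p {x | a x = b x} a).Nonempty) f g := by
  classical
  have hX : Nonempty X := by
    rw [← Fintype.card_pos_iff]
    omega
  obtain ⟨x⟩ := hX
  obtain ⟨r', rfl⟩ : ∃ r', r = r' + 1 := ⟨r - 1, by have := (f x).pos; omega⟩
  have h1 := connected_colourful (sark (r' := r') p) (by
    rw [Module.finrank_pi_fintype]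
    simp only [Module.finrank_prod, Module.finrank_self, Finset.sum_const, Finset.card_univ,
      Fintype.card_fin, smul_eq_mul]
    rw [Nat.add_sub_cancel] at hcard
    rw [mul_comm]
    exact hcard) (sark_zero_mem p) f g (hull_of_T p f hf) (hull_of_T p g hg)
  exact Relation.ReflTransGen.mono (fun a b hab => exists_TS p _ a hab) _ _ h1

omit [FiniteDimensional ℝ V] [Fintype X] in
theorem TS_agree {r : ℕ} (p : X → V) (a b : X → Fin r) :
    TS p {x | a x = b x} a ⊆ T p a ∩ T p b := by
  intro q hq
  refine ⟨fun i => convexHull_mono (Set.image_mono ?_) (hq i),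
    fun i => convexHull_mono (Set.image_mono ?_) (hq i)⟩
  · rintro x ⟨-, hx⟩
    exact hx
  · rintro x ⟨hab, hx⟩
    exact Eq.trans (Eq.symm hab) hx

/-- The partitions are joined by a chain in which consecutive members have a common Tverberg
point. -/
theorem tverberg_chain' (r : ℕ) (p : X → V)
    (hcard : (finrank ℝ V + 1) * (r - 1) + 2 ≤ Fintype.card X) (f g : X → Fin r)
    (hf : (T p f).Nonempty) (hg : (T p g).Nonempty) :
    Relation.ReflTransGen (fun a b => (T p a ∩ T p b).Nonempty) f g :=
  Relation.ReflTransGen.mono (fun a b hab => hab.mono (TS_agree p a b)) _ _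
    (tverberg_chain r p hcard f g hf hg)

omit [FiniteDimensional ℝ V] [Fintype X] in
theorem T_convex {r : ℕ} (p : X → V) (f : X → Fin r) : Convex ℝ (T p f) := by
  have : T p f = ⋂ i, convexHull ℝ (p '' {x | f x = i}) := by
    ext q
    simp [T]
  rw [this]
  exact convex_iInter fun i => convex_convexHull ℝ _

/-- **The set of `r`-divisible points is connected** for at least `(d + 1)(r - 1) + 2` points. -/
theorem isPreconnected_tverberg [TopologicalSpace V] [IsTopologicalAddGroup V]
    [ContinuousSMul ℝ V] (r : ℕ) (p : X → V)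
    (hcard : (finrank ℝ V + 1) * (r - 1) + 2 ≤ Fintype.card X) :
    IsPreconnected {q : V | ∃ f : X → Fin r, ∀ i, q ∈ convexHull ℝ (p '' {x | f x = i})} := by
  classical
  have h1 : {q : V | ∃ f : X → Fin r, ∀ i, q ∈ convexHull ℝ (p '' {x | f x = i})} =
      ⋃ f ∈ {f : X → Fin r | (T p f).Nonempty}, T p f := by
    ext q
    simp only [Set.mem_iUnion]
    constructor
    · rintro ⟨f, hf⟩
      exact ⟨f, ⟨q, hf⟩, hf⟩
    · rintro ⟨f, -, hf⟩
      exact ⟨f, hf⟩
  rw [h1]
  refine IsPreconnected.biUnion_of_reflTransGen (fun f _ => (T_convex p f).isPreconnected) ?_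
  intro f hf g hg
  refine Relation.ReflTransGen.mono (fun a b hab => ⟨hab, ?_⟩) _ _
    (tverberg_chain' r p hcard f g hf hg)
  exact hab.mono Set.inter_subset_left

/-- If every Tverberg partition has at most one common point, then there is only one Tverberg
point. -/
theorem tverberg_subsingleton (r : ℕ) (p : X → V)
    (hcard : (finrank ℝ V + 1) * (r - 1) + 2 ≤ Fintype.card X)
    (hsub : ∀ f : X → Fin r, (T p f).Subsingleton) (f g : X → Fin r) {q q' : V}
    (hq : q ∈ T p f) (hq' : q' ∈ T p g) : q = q' := by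
  have h1 := tverberg_chain' r p hcard f g ⟨q, hq⟩ ⟨q', hq'⟩
  have key : ∀ h, Relation.ReflTransGen (fun a b => (T p a ∩ T p b).Nonempty) f h → ∀ z ∈ T p h,
      z = q := by
    intro h hh
    induction hh with
    | refl => exact fun z hz => hsub f hz hq
    | tail _ hlink ih =>
      intro z hz
      obtain ⟨w, hw1, hw2⟩ := hlink
      rw [hsub _ hz hw2]
      exact ih w hw1
  exact (key g h1 q' hq').symm

end Main

end Pool.Agent.MPa0a351.Conn
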