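import Mathlib

/-!
Definitions for the relaxed Tverberg theorem (Reay's conjecture), problem MP_a0a351_co.

Everything is written in vector form: for a point `o` (a candidate Tverberg point) the vectors are
`y i = X i - o`.
-/

set_option autoImplicit false

open Module Finset

namespace Pool.Agent.MPa0a351

section Vec

variable {ι V : Type*} [Fintype ι] [AddCommGroup V] [Module ℝ V]

/-- Vector form of general position in dimension `d`: an affine dependence of the vectors `y i`
(coefficients with sum zero) whose support has at most `d + 1` elements is trivial. -/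
def GPV (d : ℕ) (y : ι → V) : Prop :=
  ∀ T : Finset ι, T.card ≤ d + 1 → ∀ a : ι → ℝ, (∀ i, i ∉ T → a i = 0) →
    ∑ i, a i = 0 → ∑ i, a i • y i = 0 → ∀ i, a i = 0

/-- `T` is the support of a positive linear dependence of the vectors `y i`, i.e. the point `0` is
in the relative interior of the convex hull of the `y i`, `i ∈ T`. -/
def Circ (y : ι → V) (T : Finset ι) : Prop :=
  ∃ a : ι → ℝ, (∀ i ∈ T, 0 < a i) ∧ (∀ i, i ∉ T → a i = 0) ∧ ∑ i, a i = 1 ∧ ∑ i, a i • y i = 0

/-- Linear span of the vectors `y i`, `i ∈ T`. -/
def Sp (y : ι → V) (T : Finset ι) : Submodule ℝ V := Submodule.span ℝ (y '' (T : Set ι))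

/-- A pre-state: disjoint sets `A i` of at most `d + 1` points with `o` in the relative interior of
the convex hull of each of them. -/
structure PreState (d : ℕ) {r : ℕ} (X : ι → V) (o : V) (A : Fin r → Finset ι) : Prop where
  disj : ∀ i j, i ≠ j → Disjoint (A i) (A j)
  card : ∀ i, (A i).card ≤ d + 1
  circ : ∀ i, Circ (fun x => X x - o) (A i)

/-- The directions in which all affine hulls of the `A i` extend. -/
def EE {r : ℕ} (X : ι → V) (o : V) (A : Fin r → Finset ι) : Submodule ℝ V :=
  ⨅ i, Sp (fun x => X x - o) (A i)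

/-- The setting of one row: a circuit `C` with `C.card = d + 1 - c`, a disjoint set `L` of vectors
which is positively spanning modulo `E`, all circuits inside `C ∪ L` have at most `C.card`
elements and their spans contain `E`. -/
structure Row (d c : ℕ) (y : ι → V) (E : Submodule ℝ V) (C L : Finset ι) [DecidableEq ι] : Prop where
  gp : GPV d y
  hd : finrank ℝ V = d
  disj : Disjoint C L
  circ : Circ y C
  card : C.card + c = d + 1
  pos : 1 ≤ c
  exch : ∀ T, T ⊆ C ∪ L → Circ y T → T.card ≤ d + 1 → T.card ≤ C.card ∧ E ≤ Sp y T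
  span : ∀ η : V →ₗ[ℝ] ℝ, η ≠ 0 → (∀ x ∈ E, η x = 0) → ∃ u ∈ L, η (y u) < 0

end Vec

end Pool.Agent.MPa0a351
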