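import Mathlib

/-!
Farkas' lemma and consequences (vector form), for MP_a0a351_co.  The first theorem (Bartl's
induction) is taken from `Pool.Agent.Lib.MP_24b5ff_co.Potential`.
-/

set_option autoImplicit false

namespace Pool.Agent.MPa0a351.Fk

open Module Finset

/-- Farkas' lemma (finitely many functionals). -/
theorem farkas {ι : Type*} (s : Finset ι) :
    ∀ {E : Type*} [AddCommGroup E] [Module ℝ E] (a : ι → E →ₗ[ℝ] ℝ) (b : E →ₗ[ℝ] ℝ),
      (∀ x, (∀ i ∈ s, a i x ≤ 0) → b x ≤ 0) →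
      ∃ u : ι → ℝ, (∀ i, 0 ≤ u i) ∧ ∀ x, b x = ∑ i ∈ s, u i * a i x := by
  classical
  induction s using Finset.induction_on with
  | empty =>
    intro E _ _ a b h
    refine ⟨fun _ => 0, fun _ => le_refl _, fun x => ?_⟩
    have h1 := h x (by simp)
    have h2 := h (-x) (by simp)
    rw [map_neg] at h2
    simp
    linarith
  | insert j s hj ih =>
    intro E _ _ a b h
    by_cases hb : ∀ x, (∀ i ∈ s, a i x ≤ 0) → b x ≤ 0
    · obtain ⟨u, hu0, hu⟩ := ih a b hb
      refine ⟨fun i => if i = j then 0 else u i, fun i => ?_, fun x => ?_⟩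
      · dsimp only
        split_ifs
        · exact le_refl _
        · exact hu0 i
      · rw [Finset.sum_insert hj, hu x]
        simp only [if_true, zero_mul, zero_add]
        refine Finset.sum_congr rfl fun i hi => ?_
        rw [if_neg (fun h : i = j => hj (h ▸ hi))]
    · push Not at hb
      obtain ⟨x0, hx0, hbx0⟩ := hb
      have hj0 : 0 < a j x0 := by
        by_contra hn
        have := h x0 (by
          intro i hi
          rcases Finset.mem_insert.mp hi with rfl | hi
          · exact not_lt.mp hn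
          · exact hx0 i hi)
        linarith
      set c := a j x0 with hc
      -- the projection
      let π : E →ₗ[ℝ] E := LinearMap.id - (a j).smulRight (c⁻¹ • x0)
      have hπ : ∀ x, π x = x - (a j x * c⁻¹) • x0 := by
        intro x
        simp [π, smul_smul]
      have key : ∀ x, (∀ i ∈ s, ((a i).comp π) x ≤ 0) → (b.comp π) x ≤ 0 := by
        intro x hx
        refine h (π x) ?_
        intro i hi
        rcases Finset.mem_insert.mp hi with rfl | hi
        · rw [hπ, map_sub, map_smul, smul_eq_mul, ← hc]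
          field_simp
          simp
        · exact hx i hi
      obtain ⟨u, hu0, hu⟩ := ih (fun i => (a i).comp π) (b.comp π) key
      have hs : ∑ i ∈ s, u i * a i x0 ≤ 0 :=
        Finset.sum_nonpos fun i hi => mul_nonpos_of_nonneg_of_nonpos (hu0 i) (hx0 i hi)
      refine ⟨fun i => if i = j then (b x0 - ∑ i ∈ s, u i * a i x0) * c⁻¹ else u i,
        fun i => ?_, fun x => ?_⟩
      · dsimp only
        split_ifs
        · exact mul_nonneg (by linarith) (inv_nonneg.mpr hj0.le)
        · exact hu0 i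
      · have h1 := hu x
        simp only [LinearMap.comp_apply, hπ, map_sub, map_smul, smul_eq_mul] at h1
        rw [Finset.sum_insert hj]
        simp only [if_true]
        have h2 : ∑ i ∈ s, (if i = j then (b x0 - ∑ i ∈ s, u i * a i x0) * c⁻¹ else u i) * a i x
            = ∑ i ∈ s, u i * a i x := by
          refine Finset.sum_congr rfl fun i hi => ?_
          rw [if_neg (fun h : i = j => hj (h ▸ hi))]
        have h3 : ∑ i ∈ s, u i * (a i x - a j x * c⁻¹ * a i x0)
            = ∑ i ∈ s, u i * a i x - a j x * c⁻¹ * ∑ i ∈ s, u i * a i x0 := by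
          rw [Finset.mul_sum, ← Finset.sum_sub_distrib]
          exact Finset.sum_congr rfl fun i _ => by ring
        rw [h2]
        rw [h3] at h1
        linarith


variable {ι V : Type*} [AddCommGroup V] [Module ℝ V] [FiniteDimensional ℝ V]

/-- Farkas' lemma in vector form. -/
theorem cone_mem (s : Finset ι) (u : ι → V) (v : V)
    (h : ∀ ξ : V →ₗ[ℝ] ℝ, (∀ i ∈ s, 0 ≤ ξ (u i)) → 0 ≤ ξ v) :
    ∃ c : ι → ℝ, (∀ i, 0 ≤ c i) ∧ ∑ i ∈ s, c i • u i = v := by
  obtain ⟨c, hc, hcv⟩ := farkas s (fun i => Dual.eval ℝ V (u i)) (Dual.eval ℝ V v) (by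
    intro ξ hξ
    have := h (-ξ) (fun i hi => by
      have := hξ i hi
      rw [Dual.eval_apply] at this
      rw [LinearMap.neg_apply]
      linarith)
    rw [LinearMap.neg_apply] at this
    rw [Dual.eval_apply]
    linarith)
  refine ⟨c, hc, ?_⟩
  have h1 : ∀ ξ : Dual ℝ V, ξ (∑ i ∈ s, c i • u i - v) = 0 := by
    intro ξ
    have := hcv ξ
    simp only [Dual.eval_apply] at this
    rw [map_sub, map_sum, this, sub_eq_zero]
    exact Finset.sum_congr rfl fun i _ => by rw [map_smul, smul_eq_mul]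
  exact sub_eq_zero.mp ((forall_dual_apply_eq_zero_iff ℝ _).mp h1)

/-- Stiemke's lemma. -/
theorem stiemke (s : Finset ι) (u : ι → V)
    (h : ∀ ξ : V →ₗ[ℝ] ℝ, (∀ i ∈ s, 0 ≤ ξ (u i)) → ∀ i ∈ s, ξ (u i) = 0) :
    ∃ b : ι → ℝ, (∀ i ∈ s, 0 < b i) ∧ (∀ i, i ∉ s → b i = 0) ∧ ∑ i ∈ s, b i • u i = 0 := by
  classical
  have h1 : ∀ j, ∃ c : ι → ℝ, (∀ i, 0 ≤ c i) ∧ (j ∈ s → ∑ i ∈ s, c i • u i = - u j) := by
    intro j
    by_cases hj : j ∈ s
    · obtain ⟨c, hc, hcs⟩ := cone_mem s u (- u j) (fun ξ hξ => by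
        rw [map_neg, h ξ hξ j hj, neg_zero])
      exact ⟨c, hc, fun _ => hcs⟩
    · exact ⟨fun _ => 0, fun _ => le_rfl, fun hh => absurd hh hj⟩
  choose c hc hcs using h1
  refine ⟨fun i => if i ∈ s then 1 + ∑ j ∈ s, c j i else 0, fun i hi => ?_, fun i hi => ?_, ?_⟩
  · simp only [if_pos hi]
    have : 0 ≤ ∑ j ∈ s, c j i := Finset.sum_nonneg fun j _ => hc j i
    linarith
  · exact if_neg hi
  · have h2 : ∑ i ∈ s, (if i ∈ s then 1 + ∑ j ∈ s, c j i else 0) • u i =
        ∑ i ∈ s, (u i + ∑ j ∈ s, c j i • u i) := by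
      refine Finset.sum_congr rfl fun i hi => ?_
      rw [if_pos hi, add_smul, one_smul, Finset.sum_smul]
    rw [h2, Finset.sum_add_distrib, Finset.sum_comm, ← Finset.sum_add_distrib]
    refine Finset.sum_eq_zero fun j hj => ?_
    rw [hcs j hj, add_neg_cancel]

/-- A function which is nonnegative on all nonnegative dependences is bounded below by a linear
functional. -/
theorem potential (s : Finset ι) (u : ι → V) (f : ι → ℝ)
    (h : ∀ c : ι → ℝ, (∀ i, 0 ≤ c i) → ∑ i ∈ s, c i • u i = 0 → 0 ≤ ∑ i ∈ s, c i * f i) :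
    ∃ ξ : V →ₗ[ℝ] ℝ, ∀ i ∈ s, ξ (u i) ≤ f i := by
  classical
  by_contra hcon
  push Not at hcon
  -- the cone of `(u i, f i)` and `(0, 1)` contains `(0, -1)`
  obtain ⟨c, hc, hcs⟩ := cone_mem (V := V × ℝ) (insertNone s)
    (fun i => Option.elim i ((0 : V), (1 : ℝ)) (fun i => (u i, f i))) ((0 : V), (-1 : ℝ)) (by
      intro Φ hΦ
      by_contra hneg
      push Not at hneg
      have h0 : 0 ≤ Φ (0, 1) := hΦ none (by simp)
      have hτ : 0 < Φ ((0 : V), (1 : ℝ)) := by
        have : ((0 : V), (-1 : ℝ)) = - ((0 : V), (1 : ℝ)) := by simp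
        rw [this, map_neg] at hneg
        linarith
      obtain ⟨i, hi, hif⟩ := hcon (-(Φ ((0 : V), (1 : ℝ)))⁻¹ • (Φ ∘ₗ LinearMap.inl ℝ V ℝ))
      have h1 : 0 ≤ Φ (u i, f i) := hΦ (some i) (by simpa using hi)
      have h2 : Φ (u i, f i) = Φ (u i, 0) + f i * Φ (0, 1) := by
        rw [← smul_eq_mul, ← map_smul, ← map_add]
        simp
      rw [LinearMap.smul_apply, LinearMap.comp_apply, LinearMap.inl_apply, smul_eq_mul] at hif
      have h3 : f i * Φ (0, 1) < (-(Φ ((0 : V), (1 : ℝ)))⁻¹ * Φ (u i, 0)) * Φ (0, 1) :=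
        mul_lt_mul_of_pos_right hif hτ
      have h4 : (-(Φ ((0 : V), (1 : ℝ)))⁻¹ * Φ (u i, 0)) * Φ (0, 1) = - Φ (u i, 0) := by
        field_simp
      rw [h4] at h3
      linarith)
  rw [Finset.sum_insertNone] at hcs
  simp only [Option.elim] at hcs
  have h1 := congrArg Prod.fst hcs
  have h2 := congrArg Prod.snd hcs
  simp only [Prod.fst_add, Prod.snd_add, Prod.fst_sum, Prod.snd_sum, Prod.smul_fst, Prod.smul_snd,
    smul_eq_mul, smul_zero, zero_add, mul_one] at h1 h2
  have h3 := h (fun i => c (some i)) (fun i => hc _) h1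
  have h4 := hc none
  linarith

end Pool.Agent.MPa0a351.Fk
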