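import Pool.Agent.Lib.MP_a0a351_co.Star0
import Pool.Agent.Lib.MP_a0a351_co.ModC

set_option autoImplicit false

open Module Finset

namespace Pool.Agent.MPa0a351

section Vec

variable {ι V : Type*} [Fintype ι] [AddCommGroup V] [Module ℝ V] [FiniteDimensional ℝ V]

theorem Row.star {d c : ℕ} {y : ι → V} [DecidableEq ι] {E : Submodule ℝ V} {C L : Finset ι}
    (h : Row d c y E C L) (k : ℕ) (hL : k + c + 1 ≤ L.card) :
    (k + 2) * c + finrank ℝ E ≤ d + k * (k - 1) := by
  classical
  obtain ⟨P, hPL, hPc, hPC⟩ := h.exists_P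
  have hCd := h.card
  have hEC : E ≤ Sp y C := (h.exch C subset_union_left h.circ (by omega)).2
  -- choose k elements outside P
  have hcard : k ≤ (L \ P).card := by
    rw [Finset.card_sdiff_of_subset hPL]; omega
  obtain ⟨X, hXL, hXc⟩ := Finset.exists_subset_card_eq hcard
  -- enumerate
  let g : Fin k ≃ X := (Finset.equivFinOfCardEq hXc).symm
  have hgL : ∀ t, (g t : ι) ∈ L := fun t => (Finset.mem_sdiff.mp (hXL (g t).2)).1
  have hgP : ∀ t, (g t : ι) ∉ P := fun t => (Finset.mem_sdiff.mp (hXL (g t).2)).2
  have hnb : ∀ t, ∃ z ∈ P, PC y C (insert (g t : ι) (P.erase z)) := fun t =>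
    h.neighbour hPL hPc hPC (hgL t) (hgP t)
  choose z hzP hPCt using hnb
  let Q : Fin k → Finset ι := fun t => insert (g t : ι) (P.erase (z t))
  have hQL : ∀ t, Q t ⊆ L := by
    intro t i hi
    rcases Finset.mem_insert.mp hi with rfl | hi
    · exact hgL t
    · exact hPL (Finset.mem_of_mem_erase hi)
  have hQc : ∀ t, (Q t).card = c + 1 := by
    intro t
    show (insert (g t : ι) (P.erase (z t))).card = c + 1
    rw [Finset.card_insert_of_notMem (fun hh => hgP t (Finset.mem_of_mem_erase hh)),
      Finset.card_erase_of_mem (hzP t)]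
    omega
  have hlift := fun t => h.lift (hQL t) (hQc t) (hPCt t)
  choose Z hZC hZc hTc hTcard hET using hlift
  obtain ⟨Z0, hZ0C, hZ0c, hT0c, hT0card, hET0⟩ := h.lift hPL hPc hPC
  -- the family
  let T : Fin (k + 1) → Finset ι := Fin.cons (P ∪ (C \ Z0)) (fun t => Q t ∪ (C \ Z t))
  have hT0 : T 0 = P ∪ (C \ Z0) := rfl
  have hTs : ∀ t : Fin k, T t.succ = Q t ∪ (C \ Z t) := fun t => rfl
  have hCP : ∀ P' : Finset ι, P' ⊆ L → ∀ Z' ⊆ C, C \ (P' ∪ (C \ Z')) = Z' := by
    intro P' hP' Z' hZ'
    ext i
    simp only [Finset.mem_sdiff, Finset.mem_union]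
    constructor
    · rintro ⟨hi, hn⟩
      by_contra hiZ
      exact hn (Or.inr ⟨hi, hiZ⟩)
    · intro hi
      refine ⟨hZ' hi, ?_⟩
      rintro (hh | hh)
      · exact Finset.disjoint_left.mp h.disj (hZ' hi) (hP' hh)
      · exact hh.2 hi
  have hneC : ∀ P' : Finset ι, P' ⊆ L → P'.card = c + 1 → ∀ Z' ⊆ C, P' ∪ (C \ Z') ≠ C := by
    intro P' hP' hc' Z' hZ' heq
    have : P' ⊆ C := by rw [← heq]; exact subset_union_left
    have hPne : P'.Nonempty := by rw [← Finset.card_pos]; omega
    obtain ⟨x, hx⟩ := hPne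
    exact Finset.disjoint_left.mp h.disj (this hx) (hP' hx)
  have hd0 : C \ T 0 = Z0 := by rw [hT0]; exact hCP P hPL Z0 hZ0C
  have hds : ∀ t : Fin k, C \ T t.succ = Z t := fun t => by
    rw [hTs]; exact hCP (Q t) (hQL t) (Z t) (hZC t)
  -- membership facts
  have hgC : ∀ t, (g t : ι) ∉ C := fun t hh => Finset.disjoint_left.mp h.disj hh (hgL t)
  have hmem : ∀ t : Fin k, (g t : ι) ∈ T t.succ := fun t => by
    rw [hTs]; exact Finset.mem_union_left _ (Finset.mem_insert_self _ _)
  have hnmem0 : ∀ t : Fin k, (g t : ι) ∉ T 0 := fun t hh => by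
    rw [hT0] at hh
    rcases Finset.mem_union.mp hh with hh | hh
    · exact hgP t hh
    · exact hgC t (Finset.mem_sdiff.mp hh).1
  have hnmem : ∀ t s : Fin k, t ≠ s → (g t : ι) ∉ T s.succ := fun t s hts hh => by
    rw [hTs] at hh
    rcases Finset.mem_union.mp hh with hh | hh
    · rcases Finset.mem_insert.mp hh with hh | hh
      · exact hts (g.injective (Subtype.ext hh))
      · exact hgP t (Finset.mem_of_mem_erase hh)
    · exact hgC t (Finset.mem_sdiff.mp hh).1
  refine star0 h.hd h.gp C h.circ hCd k T ?_ ?_ ?_ ?_ ?_ E hEC ?_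
  · intro t
    refine Fin.cases ?_ (fun t => ?_) t
    · exact hT0c
    · exact hTc t
  · intro t
    refine Fin.cases ?_ (fun t => ?_) t
    · exact hneC P hPL hPc Z0 hZ0C
    · exact hneC (Q t) (hQL t) (hQc t) (Z t) (hZC t)
  · intro t
    refine Fin.cases ?_ (fun t => ?_) t
    · exact hT0card
    · exact hTcard t
  · intro t
    refine Fin.cases ?_ (fun t => ?_) t
    · intro hh; exact absurd rfl hh
    · intro _
      rw [hd0, hds]
      have hne : T t.succ ≠ T 0 := fun heq => hnmem0 t (heq ▸ hmem t)
      have hU := h.gp.union (T := T t.succ) (T' := T 0) (hTc t) hT0c hne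
      have hsub : T t.succ ∪ T 0 ⊆ insert (g t : ι) P ∪ (C \ (Z t ∩ Z0)) := by
        intro i hi
        rw [hTs, hT0] at hi
        simp only [Finset.mem_union, Finset.mem_sdiff, Finset.mem_insert, Finset.mem_inter] at hi ⊢
        rcases hi with (hi | hi) | (hi | hi)
        · rcases Finset.mem_insert.mp hi with hi | hi
          · exact Or.inl (Or.inl hi)
          · exact Or.inl (Or.inr (Finset.mem_of_mem_erase hi))
        · exact Or.inr ⟨hi.1, fun hh => hi.2 hh.1⟩
        · exact Or.inl (Or.inr hi)
        · exact Or.inr ⟨hi.1, fun hh => hi.2 hh.2⟩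
      have h1 := (Finset.card_le_card hsub).trans (Finset.card_union_le _ _)
      rw [Finset.card_insert_of_notMem (hgP t), Finset.card_sdiff_of_subset
        (Finset.inter_subset_left.trans (hZC t))] at h1
      have h2 : (Z t ∩ Z0).card ≤ C.card :=
        Finset.card_le_card (Finset.inter_subset_left.trans (hZC t))
      omega
  · intro t s
    refine Fin.cases ?_ (fun t => ?_) t <;> refine Fin.cases ?_ (fun s => ?_) s
    · intro hh; exact absurd rfl hh
    · intro _
      rw [hd0, hds]
      have hne : T s.succ ≠ T 0 := fun heq => hnmem0 s (heq ▸ hmem s)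
      have hU := h.gp.union (T := T s.succ) (T' := T 0) (hTc s) hT0c hne
      have hsub : T s.succ ∪ T 0 ⊆ insert (g s : ι) P ∪ (C \ (Z s ∩ Z0)) := by
        intro i hi
        rw [hTs, hT0] at hi
        simp only [Finset.mem_union, Finset.mem_sdiff, Finset.mem_insert, Finset.mem_inter] at hi ⊢
        rcases hi with (hi | hi) | (hi | hi)
        · rcases Finset.mem_insert.mp hi with hi | hi
          · exact Or.inl (Or.inl hi)
          · exact Or.inl (Or.inr (Finset.mem_of_mem_erase hi))
        · exact Or.inr ⟨hi.1, fun hh => hi.2 hh.1⟩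
        · exact Or.inl (Or.inr hi)
        · exact Or.inr ⟨hi.1, fun hh => hi.2 hh.2⟩
      have h1 := (Finset.card_le_card hsub).trans (Finset.card_union_le _ _)
      rw [Finset.card_insert_of_notMem (hgP s), Finset.card_sdiff_of_subset
        (Finset.inter_subset_left.trans (hZC s))] at h1
      have h2 : (Z s ∩ Z0).card ≤ C.card :=
        Finset.card_le_card (Finset.inter_subset_left.trans (hZC s))
      rw [Finset.inter_comm]
      omega
    · intro _
      rw [hd0, hds]
      have hne : T t.succ ≠ T 0 := fun heq => hnmem0 t (heq ▸ hmem t)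
      have hU := h.gp.union (T := T t.succ) (T' := T 0) (hTc t) hT0c hne
      have hsub : T t.succ ∪ T 0 ⊆ insert (g t : ι) P ∪ (C \ (Z t ∩ Z0)) := by
        intro i hi
        rw [hTs, hT0] at hi
        simp only [Finset.mem_union, Finset.mem_sdiff, Finset.mem_insert, Finset.mem_inter] at hi ⊢
        rcases hi with (hi | hi) | (hi | hi)
        · rcases Finset.mem_insert.mp hi with hi | hi
          · exact Or.inl (Or.inl hi)
          · exact Or.inl (Or.inr (Finset.mem_of_mem_erase hi))
        · exact Or.inr ⟨hi.1, fun hh => hi.2 hh.1⟩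
        · exact Or.inl (Or.inr hi)
        · exact Or.inr ⟨hi.1, fun hh => hi.2 hh.2⟩
      have h1 := (Finset.card_le_card hsub).trans (Finset.card_union_le _ _)
      rw [Finset.card_insert_of_notMem (hgP t), Finset.card_sdiff_of_subset
        (Finset.inter_subset_left.trans (hZC t))] at h1
      have h2 : (Z t ∩ Z0).card ≤ C.card :=
        Finset.card_le_card (Finset.inter_subset_left.trans (hZC t))
      omega
    · intro hts
      rw [hds, hds]
      have hts' : t ≠ s := fun heq => hts (by rw [heq])
      have hne : T t.succ ≠ T s.succ := fun heq => hnmem t s hts' (heq ▸ hmem t)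
      have hU := h.gp.union (T := T t.succ) (T' := T s.succ) (hTc t) (hTc s) hne
      have hsub : T t.succ ∪ T s.succ ⊆ insert (g t : ι) (insert (g s : ι) P) ∪ (C \ (Z t ∩ Z s)) := by
        intro i hi
        rw [hTs, hTs] at hi
        simp only [Finset.mem_union, Finset.mem_sdiff, Finset.mem_insert, Finset.mem_inter] at hi ⊢
        rcases hi with (hi | hi) | (hi | hi)
        · rcases Finset.mem_insert.mp hi with hi | hi
          · exact Or.inl (Or.inl hi)
          · exact Or.inl (Or.inr (Or.inr (Finset.mem_of_mem_erase hi)))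
        · exact Or.inr ⟨hi.1, fun hh => hi.2 hh.1⟩
        · rcases Finset.mem_insert.mp hi with hi | hi
          · exact Or.inl (Or.inr (Or.inl hi))
          · exact Or.inl (Or.inr (Or.inr (Finset.mem_of_mem_erase hi)))
        · exact Or.inr ⟨hi.1, fun hh => hi.2 hh.2⟩
      have h1 := (Finset.card_le_card hsub).trans (Finset.card_union_le _ _)
      rw [Finset.card_sdiff_of_subset (Finset.inter_subset_left.trans (hZC t))] at h1
      have h3 := Finset.card_insert_le (g t : ι) (insert (g s : ι) P)
      have h4 := Finset.card_insert_le (g s : ι) P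
      have h2 : (Z t ∩ Z s).card ≤ C.card :=
        Finset.card_le_card (Finset.inter_subset_left.trans (hZC t))
      omega
  · intro t
    refine Fin.cases ?_ (fun t => ?_) t
    · exact hET0
    · exact hET t

end Vec

end Pool.Agent.MPa0a351
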