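import Pool.Agent.Lib.MP_a0a351_co.MaxS
import Pool.Agent.Lib.MP_a0a351_co.Bounds
import Pool.Agent.Lib.MP_a0a351_co.Star
import Pool.Agent.Lib.MP_a0a351_co.B4

set_option autoImplicit false

open Module Finset

namespace Pool.Agent.MPa0a351

/-- The numerical core: a failing max state does not exist in the given ranges. -/
theorem reay_core {ι V : Type*} [Fintype ι] [NormedAddCommGroup V] [NormedSpace ℝ V]
    [FiniteDimensional ℝ V] (d r k : ℕ) (hd : finrank ℝ V = d) (hr : 1 ≤ r) (hk : k ≤ d)
    (X : ι → V) (hX : GPV d X) (hcard : Fintype.card ι = (d + 1) * (r - 1) + 1 + k)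
    (hcase : r ≤ 5 ∨ (r ≤ 7 ∧ k + 3 ≤ d) ∨ (r - 2) * (r - 3) + k ≤ d) :
    ∃ f : ι → Fin r, ∃ q : Fin (k + 1) → V, AffineIndependent ℝ q ∧
      ∀ j : Fin (k + 1), ∀ i : Fin r, q j ∈ convexHull ℝ (X '' {m : ι | f m = i}) := by
  classical
  obtain ⟨o, A, h⟩ := exists_maxState d r hd hr X (by omega)
  by_cases hek : k ≤ finrank ℝ (EE X o A)
  · exact conclude hr X o A h.pre hek
  exfalso
  push Not at hek
  obtain ⟨hN, hL, hspan⟩ := h.numbers hd hr hX hek hcard
  set e := finrank ℝ (EE X o A) with he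
  set L := univ \ univ.biUnion A with hLdef
  have hrow : ∀ j, 1 ≤ d + 1 - (A j).card →
      Row d (d + 1 - (A j).card) (fun x => X x - o) (EE X o A) (A j) L := by
    intro j hj
    have hLj : ∀ i, Disjoint L (A i) := by
      intro i
      rw [Finset.disjoint_left]
      intro x hx hxj
      exact (Finset.mem_sdiff.mp hx).2 (Finset.mem_biUnion.mpr ⟨i, Finset.mem_univ _, hxj⟩)
    refine ⟨hX.sub o, hd, (hLj j).symm, h.pre.circ j, ?_, hj, ?_, hspan⟩
    · have := h.pre.card j
      omega
    · intro T hT hTc hTcard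
      refine h.exch j T (fun i hij => ?_) hTc hTcard
      refine Finset.disjoint_of_subset_left hT ?_
      rw [Finset.disjoint_union_left]
      exact ⟨h.pre.disj j i hij.symm, hLj i⟩
  have hed : e < d := by omega
  have b2 : ∀ j, 2 * (d + 1 - (A j).card) + e ≤ d := by
    intro j
    by_cases hj : 1 ≤ d + 1 - (A j).card
    · exact (hrow j hj).bound2
    · omega
  have b3 : ∀ j, 3 * (d + 1 - (A j).card) + e ≤ d := by
    intro j
    by_cases hj : 1 ≤ d + 1 - (A j).card
    · have := b2 j
      exact (hrow j hj).bound3 (by omega)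
    · omega
  rcases hcase with h5 | ⟨h7, hk3⟩ | hq
  · -- r ≤ 5
    have h1 : ∑ j : Fin r, 3 * (d + 1 - (A j).card) ≤ ∑ _j : Fin r, (d - e) :=
      Finset.sum_le_sum (fun j _ => by have := b3 j; omega)
    rw [← Finset.mul_sum] at h1
    simp only [Finset.sum_const, Finset.card_univ, Fintype.card_fin, smul_eq_mul] at h1
    have h2 : r * (d - e) ≤ 5 * (d - e) := Nat.mul_le_mul_right _ h5
    omega
  · -- r ≤ 7, k + 3 ≤ d
    have b4 : ∀ j, 4 * (d + 1 - (A j).card) + e ≤ d := by
      intro j
      by_cases hj : 1 ≤ d + 1 - (A j).card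
      · have := b3 j
        by_cases h2 : 2 ≤ d + 1 - (A j).card
        · exact (hrow j hj).bound4 (by omega)
        · omega
      · omega
    have h1 : ∑ j : Fin r, 4 * (d + 1 - (A j).card) ≤ ∑ _j : Fin r, (d - e) :=
      Finset.sum_le_sum (fun j _ => by have := b4 j; omega)
    rw [← Finset.mul_sum] at h1
    simp only [Finset.sum_const, Finset.card_univ, Fintype.card_fin, smul_eq_mul] at h1
    have h2 : r * (d - e) ≤ 7 * (d - e) := Nat.mul_le_mul_right _ h7
    omega
  · by_cases hr5 : r ≤ 5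
    · have h1 : ∑ j : Fin r, 3 * (d + 1 - (A j).card) ≤ ∑ _j : Fin r, (d - e) :=
        Finset.sum_le_sum (fun j _ => by have := b3 j; omega)
      rw [← Finset.mul_sum] at h1
      simp only [Finset.sum_const, Finset.card_univ, Fintype.card_fin, smul_eq_mul] at h1
      have h2 : r * (d - e) ≤ 5 * (d - e) := Nat.mul_le_mul_right _ hr5
      omega
    · push Not at hr5
      obtain ⟨t, rfl⟩ : ∃ t, r = t + 3 := ⟨r - 3, by omega⟩
      have e1 : t + 3 - 2 = t + 1 := by omega
      have e2 : t + 3 - 3 = t := by omega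
      rw [e1, e2] at hq
      have ht : 3 ≤ t := by omega
      -- (t+1)*t < d - e
      have hD : (t + 1) * t + 1 ≤ d - e := by omega
      have hbig : 3 * (t + 1) ≤ (t + 1) * t := by nlinarith
      have bs : ∀ j, (t + 3) * (d + 1 - (A j).card) ≤ (d - e) + (t + 1) * t := by
        intro j
        by_cases hj : 1 ≤ d + 1 - (A j).card
        · have := b3 j
          have h1 := (hrow j hj).star (t + 1) (by omega)
          have h2 : (t + 3) * (d + 1 - (A j).card) + e ≤ d + (t + 1) * t := by
            simpa only [Nat.add_sub_cancel] using h1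
          omega
        · have : d + 1 - (A j).card = 0 := by omega
          rw [this]
          omega
      have h1 : ∑ j : Fin (t + 3), (t + 3) * (d + 1 - (A j).card) ≤
          ∑ _j : Fin (t + 3), ((d - e) + (t + 1) * t) := Finset.sum_le_sum (fun j _ => bs j)
      rw [← Finset.mul_sum] at h1
      simp only [Finset.sum_const, Finset.card_univ, Fintype.card_fin, smul_eq_mul] at h1
      have h2 : ∑ j, (d + 1 - (A j).card) ≤ (d - e) + (t + 1) * t :=
        Nat.le_of_mul_le_mul_left h1 (by omega)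
      omega

theorem gpv_of_genPos {n d : ℕ} (p : Fin n → EuclideanSpace ℝ (Fin d))
    (hp : ∀ s : Finset (Fin n), s.card ≤ d + 1 →
      AffineIndependent ℝ (fun i : s => p (i : Fin n))) : GPV d p := by
  intro T hT a ha hsum hy i
  by_cases hi : i ∈ T
  · have h := hp T hT
    rw [affineIndependent_iff] at h
    have h1 : ∑ j ∈ (univ : Finset T), a j = 0 := by
      rw [Finset.sum_coe_sort T a, ← hsum]
      exact Finset.sum_subset (Finset.subset_univ _) (fun j _ hj => ha j hj)
    have h2 : ∑ j ∈ (univ : Finset T), a j • p j = 0 := by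
      rw [Finset.sum_coe_sort T (fun j => a j • p j), ← hy]
      exact Finset.sum_subset (Finset.subset_univ _) (fun j _ hj => by rw [ha j hj, zero_smul])
    exact h univ (fun j => a j) h1 h2 ⟨i, hi⟩ (Finset.mem_univ _)
  · exact ha i hi

theorem reay_main :
    ∀ (d r k n : ℕ), 1 ≤ r → k ≤ d → n = (d + 1) * (r - 1) + 1 + k →
      (r ≤ 5 ∨ (r ≤ 7 ∧ k + 3 ≤ d) ∨ (r - 2) * (r - 3) + k ≤ d) →
      ∀ p : Fin n → EuclideanSpace ℝ (Fin d),
        (∀ s : Finset (Fin n), s.card ≤ d + 1 →
          AffineIndependent ℝ (fun i : s => p (i : Fin n))) →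
        ∃ f : Fin n → Fin r, ∃ q : Fin (k + 1) → EuclideanSpace ℝ (Fin d),
          AffineIndependent ℝ q ∧
          ∀ j : Fin (k + 1), ∀ i : Fin r,
            q j ∈ convexHull ℝ (p '' {m : Fin n | f m = i}) := by
  intro d r k n hr hk hn hcase p hp
  exact reay_core d r k (by simp) hr hk p (gpv_of_genPos p hp) (by simpa using hn) hcase

end Pool.Agent.MPa0a351
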