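import Pool.Agent.Lib.MP_a0a351_co.Defs

/-!
Moving the centre of a pre-state: small moves inside `EE`, generic moves, and the conclusion
(module GENERIC and module CONC).
-/

set_option autoImplicit false

open Module Finset

namespace Pool.Agent.MPa0a351

namespace GenericAux

variable {ι V : Type*} [Fintype ι] [AddCommGroup V] [Module ℝ V]

/-- The centre is the barycentre of the points. -/
theorem center_eq {X : ι → V} {o : V} {a : ι → ℝ} (h1 : ∑ i, a i = 1)
    (h2 : ∑ i, a i • (X i - o) = 0) : ∑ i, a i • X i = o := by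
  have : ∑ i, a i • (X i - o) = ∑ i, a i • X i - (∑ i, a i) • o := by
    simp only [smul_sub, Finset.sum_sub_distrib, Finset.sum_smul]
  rw [this, h1, one_smul, sub_eq_zero] at h2
  exact h2

/-- Differences of the points span the same space as the vectors seen from the centre. -/
theorem sp_eq_vectorSpan {X : ι → V} {o : V} {T : Finset ι}
    (h : Circ (fun x => X x - o) T) :
    Sp (fun x => X x - o) T = vectorSpan ℝ (X '' (T : Set ι)) := by
  obtain ⟨a, ha, ha0, ha1, hsum⟩ := h
  have hc := center_eq ha1 hsum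
  apply le_antisymm
  · refine Submodule.span_le.2 ?_
    rintro _ ⟨x, hx, rfl⟩
    have e : X x - o = ∑ z, a z • (X x - X z) := by
      simp only [smul_sub, Finset.sum_sub_distrib, ← Finset.sum_smul, ha1, one_smul, hc]
    show X x - o ∈ _
    rw [e]
    refine Submodule.sum_mem _ fun z _ => ?_
    by_cases hz : z ∈ T
    · exact Submodule.smul_mem _ _ (vsub_mem_vectorSpan ℝ ⟨x, hx, rfl⟩ ⟨z, hz, rfl⟩)
    · rw [ha0 z hz, zero_smul]
      exact Submodule.zero_mem _
  · refine Submodule.span_le.2 ?_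
    rintro _ ⟨_, ⟨x, hx, rfl⟩, _, ⟨z, hz, rfl⟩, rfl⟩
    have e : X x -ᵥ X z = (X x - o) - (X z - o) := by
      rw [vsub_eq_sub]
      abel
    show X x -ᵥ X z ∈ _
    rw [e]
    exact Submodule.sub_mem _ (Submodule.subset_span ⟨x, hx, rfl⟩)
      (Submodule.subset_span ⟨z, hz, rfl⟩)

/-- The difference of two centres is a difference direction. -/
theorem sub_mem_vectorSpan {X : ι → V} {o o' : V} {T : Finset ι}
    (h : Circ (fun x => X x - o) T) (h' : Circ (fun x => X x - o') T) :
    o - o' ∈ vectorSpan ℝ (X '' (T : Set ι)) := by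
  rw [← sp_eq_vectorSpan h']
  obtain ⟨a, ha, ha0, ha1, hsum⟩ := h
  have hc := center_eq ha1 hsum
  have e : o - o' = ∑ i, a i • (X i - o') := by
    simp only [smul_sub, Finset.sum_sub_distrib, ← Finset.sum_smul, ha1, one_smul, hc]
  rw [e]
  refine Submodule.sum_mem _ fun z _ => ?_
  by_cases hz : z ∈ T
  · exact Submodule.smul_mem _ _ (Submodule.subset_span ⟨z, hz, rfl⟩)
  · rw [ha0 z hz, zero_smul]
    exact Submodule.zero_mem _

/-- Coefficients of an element of `Sp`. -/
theorem exists_coeff {y : ι → V} {T : Finset ι} {w : V} (hw : w ∈ Sp y T) :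
    ∃ g : ι → ℝ, (∀ i, i ∉ T → g i = 0) ∧ ∑ i, g i • y i = w := by
  classical
  unfold Sp at hw
  rw [Submodule.mem_span_image_finset_iff_exists_fun] at hw
  obtain ⟨c, hc⟩ := hw
  refine ⟨fun i => if h : i ∈ T then c ⟨i, h⟩ else 0, fun i hi => by simp [hi], ?_⟩
  rw [← hc]
  have h1 : ∑ i, (if h : i ∈ T then c ⟨i, h⟩ else 0) • y i
      = ∑ i ∈ T, (if h : i ∈ T then c ⟨i, h⟩ else 0) • y i := by
    symm
    apply Finset.sum_subset (Finset.subset_univ T)
    intro i _ hi
    simp [hi]
  rw [h1, ← Finset.sum_coe_sort T]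
  refine Finset.sum_congr rfl fun i _ => ?_
  simp

/-- Small moves of the centre along a direction of `Sp`. -/
theorem circ_move {X : ι → V} {o w : V} {T : Finset ι} (h : Circ (fun x => X x - o) T)
    (hw : w ∈ Sp (fun x => X x - o) T) :
    ∀ᶠ ε in nhds (0 : ℝ), Circ (fun x => X x - (o + ε • w)) T := by
  obtain ⟨a, ha, ha0, ha1, hsum⟩ := h
  obtain ⟨g, hg0, hg⟩ := exists_coeff hw
  have hpos : ∀ᶠ ε in nhds (0 : ℝ), ∀ x ∈ T, 0 < a x + ε * (g x - (∑ i, g i) * a x) := by
    rw [Filter.eventually_all_finset]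
    intro x hx
    have hcont : Continuous fun ε : ℝ => a x + ε * (g x - (∑ i, g i) * a x) := by fun_prop
    have h0 : 0 < a x + (0 : ℝ) * (g x - (∑ i, g i) * a x) := by simpa using ha x hx
    exact hcont.continuousAt.eventually (lt_mem_nhds h0)
  filter_upwards [hpos] with ε hε
  refine ⟨fun x => a x + ε * (g x - (∑ i, g i) * a x), hε, ?_, ?_, ?_⟩
  · intro i hi
    simp [ha0 i hi, hg0 i hi]
  · rw [Finset.sum_add_distrib, ← Finset.mul_sum, Finset.sum_sub_distrib, ← Finset.mul_sum, ha1]
    ring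
  · have hs : ∑ x, (a x + ε * (g x - (∑ i, g i) * a x)) = 1 := by
      rw [Finset.sum_add_distrib, ← Finset.mul_sum, Finset.sum_sub_distrib, ← Finset.mul_sum, ha1]
      ring
    have e : ∀ x, (a x + ε * (g x - (∑ i, g i) * a x)) • (X x - (o + ε • w))
        = (a x • (X x - o) + ε • (g x • (X x - o)) - (ε * (∑ i, g i)) • (a x • (X x - o)))
          - (a x + ε * (g x - (∑ i, g i) * a x)) • (ε • w) := by
      intro x
      module
    simp only [e, Finset.sum_sub_distrib, Finset.sum_add_distrib, ← Finset.smul_sum,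
      ← Finset.sum_smul]
    rw [Finset.sum_add_distrib] at hs
    simp only at hsum hg
    rw [hsum, hg, hs, smul_zero, sub_zero, zero_add, one_smul, sub_self]

/-- The centre of a circuit lies in the convex hull of its points. -/
theorem mem_convexHull {X : ι → V} {o : V} {T : Finset ι} (h : Circ (fun x => X x - o) T)
    {s : Set V} (hs : ∀ i ∈ T, X i ∈ s) : o ∈ convexHull ℝ s := by
  obtain ⟨a, ha, ha0, ha1, hsum⟩ := h
  have hc := center_eq ha1 hsum
  have h1 : ∑ i, a i • X i = ∑ i ∈ T, a i • X i := by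
    symm
    apply Finset.sum_subset (Finset.subset_univ T)
    intro i _ hi
    simp [ha0 i hi]
  have h2 : ∑ i, a i = ∑ i ∈ T, a i := by
    symm
    apply Finset.sum_subset (Finset.subset_univ T)
    intro i _ hi
    simp [ha0 i hi]
  rw [← hc, h1]
  refine (convex_convexHull ℝ s).sum_mem (fun i hi => (ha i hi).le) (by rw [← h2, ha1]) ?_
  exact fun i hi => subset_convexHull ℝ s (hs i hi)

end GenericAux

variable {ι V : Type*} [Fintype ι] [NormedAddCommGroup V] [NormedSpace ℝ V]
  [FiniteDimensional ℝ V]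

/-! module GENERIC -/
theorem exists_generic {d r : ℕ} (X : ι → V) (o : V) (A : Fin r → Finset ι)
    (h : PreState d X o A) :
    ∃ o', PreState d X o' A ∧ EE X o' A = EE X o A ∧
      ∀ T : Finset ι, Circ (fun x => X x - o') T → EE X o' A ≤ Sp (fun x => X x - o') T := by
  classical
  set E : Submodule ℝ V := EE X o A with hE
  have hEmem : ∀ v ∈ E, ∀ i, v ∈ Sp (fun x => X x - o) (A i) := fun v hv i =>
    (Submodule.mem_iInf _).1 hv i
  set D : Finset ι → Submodule ℝ V := fun T => vectorSpan ℝ (X '' (T : Set ι)) with hD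
  -- a direction avoiding all the bad subspaces
  obtain ⟨w, hw⟩ : ∃ w : E, ∀ T : Finset ι, ¬ E ≤ D T → (w : V) ∉ D T := by
    by_contra hcon
    push Not at hcon
    have hun : ⋃ T : {T : Finset ι // ¬ E ≤ D T},
        (((D T.1).comap E.subtype : Submodule ℝ E) : Set E) = Set.univ := by
      rw [Set.eq_univ_iff_forall]
      intro w
      obtain ⟨T, hT, hwT⟩ := hcon w
      exact Set.mem_iUnion.2 ⟨⟨T, hT⟩, hwT⟩
    obtain ⟨T, hT⟩ := Subspace.exists_eq_top_of_iUnion_eq_univ hun
    apply T.2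
    intro v hv
    have hmem : (⟨v, hv⟩ : E) ∈ ((D T.1).comap E.subtype : Submodule ℝ E) := by
      rw [hT]
      trivial
    exact hmem
  -- the good set of parameters
  have hgood : ∀ᶠ ε in nhds (0 : ℝ), ∀ i, Circ (fun x => X x - (o + ε • (w : V))) (A i) := by
    rw [Filter.eventually_all]
    intro i
    refine GenericAux.circ_move (h.circ i) ?_
    exact hEmem _ w.2 i
  have hinf := infinite_of_mem_nhds (0 : ℝ) hgood
  -- the bad set of parameters is finite
  set B : Set ℝ := ⋃ T : {T : Finset ι // ¬ E ≤ D T},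
    {ε : ℝ | Circ (fun x => X x - (o + ε • (w : V))) T.1} with hB
  have hBfin : B.Finite := by
    refine Set.finite_iUnion fun T => Set.Subsingleton.finite ?_
    intro ε1 h1 ε2 h2
    by_contra hne
    apply hw T.1 T.2
    have h3 := GenericAux.sub_mem_vectorSpan h1 h2
    have h4 : (o + ε1 • (w : V)) - (o + ε2 • (w : V)) = (ε1 - ε2) • (w : V) := by module
    rw [h4] at h3
    have h5 : (ε1 - ε2)⁻¹ • ((ε1 - ε2) • (w : V)) ∈ D T.1 := Submodule.smul_mem _ _ h3
    rwa [smul_smul, inv_mul_cancel₀ (sub_ne_zero.2 hne), one_smul] at h5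
  obtain ⟨ε, hε, hεB⟩ := hinf.exists_notMem_finite hBfin
  have hε' : ∀ i, Circ (fun x => X x - (o + ε • (w : V))) (A i) := hε
  have hEE : EE X (o + ε • (w : V)) A = E := by
    refine iInf_congr fun i => ?_
    rw [GenericAux.sp_eq_vectorSpan (hε' i), GenericAux.sp_eq_vectorSpan (h.circ i)]
  refine ⟨o + ε • (w : V), ⟨h.disj, h.card, hε'⟩, hEE, ?_⟩
  intro T hT
  rw [hEE, GenericAux.sp_eq_vectorSpan hT]
  by_contra hcon
  exact hεB (Set.mem_iUnion.2 ⟨⟨T, hcon⟩, hT⟩)

end Pool.Agent.MPa0a351
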