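import Pool.Agent.Lib.MP_a0a351_co.ConnT

/-!
When every Tverberg partition of `(d+1)(r-1)+2` or more points has only one Tverberg point `o`,
there are no conic solutions at `o`: no nonzero vector `v` is in the cones of the vectors `x - o`
of `r` disjoint sets of points `x`.
-/

set_option autoImplicit false

open Module Finset

namespace Pool.Agent.MPa0a351.Conn

variable {V X : Type*} [AddCommGroup V] [Module ℝ V] [Fintype X]

/-- Convex hulls in vector form, one direction. -/
theorem exists_coeff {p : X → V} {S : Set X} {q : V} (h : q ∈ convexHull ℝ (p '' S)) :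
    ∃ a : X → ℝ, (∀ x, 0 ≤ a x) ∧ (∀ x, x ∉ S → a x = 0) ∧ ∑ x, a x = 1 ∧
      ∑ x, a x • p x = q := by
  have h1 : q ∈ hull (fun x (_ : Unit) => p x) S (fun _ => ()) := h
  rw [mem_hull_iff] at h1
  obtain ⟨a, ⟨ha0, ha1, haq⟩, haS⟩ := h1
  exact ⟨a, ha0, haS, ha1, haq⟩

/-- Convex hulls in vector form, the other direction. -/
theorem mem_of_coeff {p : X → V} {S : Set X} {q : V} (a : X → ℝ) (ha0 : ∀ x, 0 ≤ a x)
    (haS : ∀ x, x ∉ S → a x = 0) (ha1 : ∑ x, a x = 1) (haq : ∑ x, a x • p x = q) :
    q ∈ convexHull ℝ (p '' S) := by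
  have h1 : q ∈ hull (fun x (_ : Unit) => p x) S (fun _ => ()) :=
    (mem_hull_iff _).mpr ⟨a, ⟨ha0, ha1, haq⟩, haS⟩
  exact h1

/-- Rescaling about a common point does not create segments of common points through it. -/
theorem rescale_subsingleton {r : ℕ} (p : X → V) (f : X → Fin r) (o : V) (s : X → ℝ)
    (hs : ∀ x, 0 < s x) (hsub : (T p f).Subsingleton)
    (ho : o ∈ T (fun x => o + s x • (p x - o)) f) :
    ∀ q ∈ T (fun x => o + s x • (p x - o)) f, q = o := by
  classical
  intro q hq
  have hsum : ∀ (a : X → ℝ), ∑ x, a x = 1 → ∀ z, ∑ x, a x • (o + s x • (p x - o)) = z →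
      ∑ x, (a x * s x) • (p x - o) = z - o := by
    intro a ha z hz
    rw [← hz]
    simp only [smul_add, Finset.sum_add_distrib, ← Finset.sum_smul, ha, one_smul, mul_smul]
    abel
  -- `o` is a common point for `p`
  have ho' : ∀ i, ∃ a : X → ℝ, (∀ x, 0 ≤ a x) ∧ (∀ x, f x ≠ i → a x = 0) ∧ ∑ x, a x = 1 ∧
      ∑ x, a x • (p x - o) = 0 := by
    intro i
    obtain ⟨a, ha0, haS, ha1, haq⟩ := exists_coeff (ho i)
    have h1 := hsum a ha1 o haq
    rw [sub_self] at h1
    have hpos : 0 < ∑ x, a x * s x := by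
      refine lt_of_le_of_ne (Finset.sum_nonneg fun x _ => mul_nonneg (ha0 x) (hs x).le) ?_
      intro h0
      have h2 := (Finset.sum_eq_zero_iff_of_nonneg
        (fun x _ => mul_nonneg (ha0 x) (hs x).le)).mp h0.symm
      have h3 : ∑ x, a x = 0 := Finset.sum_eq_zero fun x hx => by
        rcases mul_eq_zero.mp (h2 x hx) with h | h
        · exact h
        · exact absurd h (hs x).ne'
      rw [ha1] at h3
      exact one_ne_zero h3
    refine ⟨fun x => (∑ x, a x * s x)⁻¹ * (a x * s x), fun x => mul_nonneg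
      (inv_nonneg.mpr hpos.le) (mul_nonneg (ha0 x) (hs x).le), fun x hx => ?_, ?_, ?_⟩
    · dsimp only
      rw [haS x hx, zero_mul, mul_zero]
    · rw [← Finset.mul_sum, inv_mul_cancel₀ hpos.ne']
    · simp only [mul_smul _ (a _ * s _)]
      rw [← Finset.smul_sum, h1, smul_zero]
  choose a ha0 haS ha1 hao using ho'
  have hq' : ∀ i, ∃ b : X → ℝ, (∀ x, 0 ≤ b x) ∧ (∀ x, f x ≠ i → b x = 0) ∧
      ∑ x, b x • (p x - o) = q - o := by
    intro i
    obtain ⟨b, hb0, hbS, hb1, hbq⟩ := exists_coeff (hq i)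
    refine ⟨fun x => b x * s x, fun x => mul_nonneg (hb0 x) (hs x).le, fun x hx => ?_,
      hsum b hb1 q hbq⟩
    dsimp only
    rw [hbS x hx, zero_mul]
  choose b hb0 hbS hbq using hq'
  -- a small multiple of `q - o`
  obtain ⟨e, he0, he⟩ : ∃ e : ℝ, 0 < e ∧ ∀ i, e * ∑ x, b i x ≤ 1 := by
    have hM : 0 ≤ ∑ i, ∑ x, b i x :=
      Finset.sum_nonneg fun i _ => Finset.sum_nonneg fun x _ => hb0 i x
    refine ⟨(1 + ∑ i, ∑ x, b i x)⁻¹, by positivity, fun i => ?_⟩
    rw [inv_mul_le_iff₀ (by positivity), mul_one]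
    have : ∑ x, b i x ≤ ∑ i, ∑ x, b i x :=
      Finset.single_le_sum (f := fun i => ∑ x, b i x)
        (fun i _ => Finset.sum_nonneg fun x _ => hb0 i x) (mem_univ i)
    linarith
  have hT1 : o ∈ T p f := by
    intro i
    refine mem_of_coeff (a i) (ha0 i) (fun x hx => haS i x hx) (ha1 i) ?_
    have h1 := hao i
    simp only [smul_sub, Finset.sum_sub_distrib, ← Finset.sum_smul, ha1, one_smul] at h1
    exact sub_eq_zero.mp h1
  have hT2 : o + e • (q - o) ∈ T p f := by
    intro i
    refine mem_of_coeff (fun x => e * b i x + (1 - e * ∑ x, b i x) * a i x) (fun x =>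
      add_nonneg (mul_nonneg he0.le (hb0 i x)) (mul_nonneg (by linarith [he i]) (ha0 i x)))
      (fun x hx => ?_) ?_ ?_
    · rw [hbS i x hx, haS i x hx]
      ring
    · rw [Finset.sum_add_distrib, ← Finset.mul_sum, ← Finset.mul_sum, ha1]
      ring
    · have h1 : ∀ x, (e * b i x + (1 - e * ∑ x, b i x) * a i x) • p x =
          e • (b i x • (p x - o)) + (1 - e * ∑ x, b i x) • (a i x • (p x - o)) +
            (e * b i x + (1 - e * ∑ x, b i x) * a i x) • o := by
        intro x
        module
      simp only [h1, Finset.sum_add_distrib, ← Finset.smul_sum, hbq, hao, ← Finset.sum_smul,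
        ← Finset.mul_sum, ha1]
      module
  have h3 := hsub hT2 hT1
  have h4 : e • (q - o) = 0 := by
    have : o + e • (q - o) = o + 0 := by rw [h3, add_zero]
    exact add_left_cancel this
  rcases smul_eq_zero.mp h4 with h | h
  · exact absurd h he0.ne'
  · exact sub_eq_zero.mp h

/-- **No conic solutions.** -/
theorem no_conic [FiniteDimensional ℝ V] (r : ℕ) (p : X → V)
    (hcard : (finrank ℝ V + 1) * (r - 1) + 2 ≤ Fintype.card X)
    (hsub : ∀ f : X → Fin r, (T p f).Subsingleton) {o : V} {f : X → Fin r} (ho : o ∈ T p f)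
    (g : X → Fin r) (c : X → ℝ) (hc : ∀ x, 0 ≤ c x) (v : V)
    (hv : ∀ i, ∑ x, (if g x = i then c x else 0) • (p x - o) = v) : v = 0 := by
  classical
  by_contra hv0
  -- the rescaled points
  set n : Fin r → ℝ := fun i => ((univ.filter (fun x => g x = i ∧ 0 < c x)).card : ℝ) with hn
  set s : X → ℝ := fun x => if 0 < c x then n (g x) * c x else 1 with hs
  have hnpos : ∀ i, 0 < n i := by
    intro i
    simp only [hn, Nat.cast_pos, Finset.card_pos]
    by_contra hcon
    rw [Finset.not_nonempty_iff_eq_empty, Finset.filter_eq_empty_iff] at hcon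
    apply hv0
    rw [← hv i]
    refine Finset.sum_eq_zero fun x _ => ?_
    split_ifs with hgx
    · have h1 : ¬ 0 < c x := fun hh => hcon (mem_univ x) ⟨hgx, hh⟩
      have h2 : c x = 0 := le_antisymm (not_lt.mp h1) (hc x)
      rw [h2, zero_smul]
    · rw [zero_smul]
  have hspos : ∀ x, 0 < s x := by
    intro x
    simp only [hs]
    split_ifs with h
    · exact mul_pos (hnpos _) h
    · exact one_pos
  set ps : X → V := fun x => o + s x • (p x - o) with hps
  have hof : o ∈ T ps f := by
    intro i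
    obtain ⟨a, ha0, haS, ha1, haq⟩ := exists_coeff (ho i)
    have h1 : ∑ x, a x • (p x - o) = 0 := by
      simp only [smul_sub, Finset.sum_sub_distrib, ← Finset.sum_smul, ha1, one_smul, haq, sub_self]
    have hpos : 0 < ∑ x, a x * (s x)⁻¹ := by
      refine lt_of_le_of_ne (Finset.sum_nonneg fun x _ =>
        mul_nonneg (ha0 x) (inv_nonneg.mpr (hspos x).le)) ?_
      intro h0
      have h2 := (Finset.sum_eq_zero_iff_of_nonneg
        (fun x _ => mul_nonneg (ha0 x) (inv_nonneg.mpr (hspos x).le))).mp h0.symm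
      have h3 : ∑ x, a x = 0 := Finset.sum_eq_zero fun x hx => by
        rcases mul_eq_zero.mp (h2 x hx) with h | h
        · exact h
        · exact absurd h (inv_pos.mpr (hspos x)).ne'
      rw [ha1] at h3
      exact one_ne_zero h3
    refine mem_of_coeff (fun x => (∑ x, a x * (s x)⁻¹)⁻¹ * (a x * (s x)⁻¹)) (fun x => mul_nonneg
      (inv_nonneg.mpr hpos.le) (mul_nonneg (ha0 x) (inv_nonneg.mpr (hspos x).le)))
      (fun x hx => ?_) ?_ ?_
    · rw [haS x hx, zero_mul, mul_zero]
    · rw [← Finset.mul_sum, inv_mul_cancel₀ hpos.ne']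
    · have h2 : ∀ x, ((∑ x, a x * (s x)⁻¹)⁻¹ * (a x * (s x)⁻¹)) • ps x =
          ((∑ x, a x * (s x)⁻¹)⁻¹ * (a x * (s x)⁻¹)) • o +
            (∑ x, a x * (s x)⁻¹)⁻¹ • (a x • (p x - o)) := by
        intro x
        have : (s x)⁻¹ * s x = 1 := inv_mul_cancel₀ (hspos x).ne'
        simp only [hps, smul_add, smul_smul]
        congr 2
        rw [mul_assoc, mul_assoc, this, mul_one]
      simp only [h2, Finset.sum_add_distrib, ← Finset.smul_sum, h1, ← Finset.sum_smul,
        ← Finset.mul_sum, smul_zero, add_zero, inv_mul_cancel₀ hpos.ne', one_smul]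
  have hvg : o + v ∈ T ps g := by
    intro i
    refine mem_of_coeff (fun x => if g x = i ∧ 0 < c x then (n i)⁻¹ else 0) (fun x => ?_)
      (fun x hx => ?_) ?_ ?_
    · split_ifs
      · exact inv_nonneg.mpr (hnpos i).le
      · exact le_rfl
    · exact if_neg fun hh => hx hh.1
    · rw [← Finset.sum_filter, Finset.sum_const, nsmul_eq_mul]
      exact mul_inv_cancel₀ (hnpos i).ne'
    · have h1 : ∀ x, (if g x = i ∧ 0 < c x then (n i)⁻¹ else 0) • ps x =
          (if g x = i ∧ 0 < c x then (n i)⁻¹ else 0) • o +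
            (if g x = i then c x else 0) • (p x - o) := by
        intro x
        by_cases hgx : g x = i
        · by_cases hcx : 0 < c x
          · rw [if_pos ⟨hgx, hcx⟩, if_pos hgx]
            simp only [hps, hs, if_pos hcx, hgx, smul_add, smul_smul]
            congr 2
            rw [← mul_assoc, inv_mul_cancel₀ (hnpos i).ne', one_mul]
          · rw [if_neg fun hh => hcx hh.2, if_pos hgx,
              le_antisymm (not_lt.mp hcx) (hc x)]
            simp
        · rw [if_neg fun hh => hgx hh.1, if_neg hgx]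
          simp
      simp only [h1, Finset.sum_add_distrib, hv, ← Finset.sum_smul]
      congr 1
      rw [← Finset.sum_filter, Finset.sum_const, nsmul_eq_mul, mul_inv_cancel₀ (hnpos i).ne',
        one_smul]
  -- the chain
  have hch := tverberg_chain' r ps hcard f g ⟨o, hof⟩ ⟨o + v, hvg⟩
  have key : ∀ h, Relation.ReflTransGen (fun a b => (T ps a ∩ T ps b).Nonempty) f h →
      ∀ z ∈ T ps h, z = o := by
    intro h hh
    induction hh with
    | refl => exact rescale_subsingleton p f o s hspos (hsub f) hof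
    | tail _ hlink ih =>
      rename_i a b _
      obtain ⟨w, hw1, hw2⟩ := hlink
      rw [ih w hw1] at hw2
      exact rescale_subsingleton p b o s hspos (hsub b) hw2
  have h5 := key g hch (o + v) hvg
  exact hv0 (by simpa using h5)

end Pool.Agent.MPa0a351.Conn
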