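import Pool.Agent.Lib.MP_a0a351_co.Defs
import Pool.Agent.Lib.MP_a0a351_co.Color

set_option autoImplicit false

open Module Finset

namespace Pool.Agent.MPa0a351

/-- The diagonal map into the product of the quotients. -/
noncomputable def LemH.diag {V J : Type*} [AddCommGroup V] [Module ℝ V]
    (W : J → Submodule ℝ V) : V →ₗ[ℝ] (∀ j, V ⧸ W j) :=
  LinearMap.pi (fun j => (W j).mkQ)

theorem LemH.finrank_range {V J : Type*} [AddCommGroup V] [Module ℝ V]
    [FiniteDimensional ℝ V] (W : J → Submodule ℝ V) :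
    finrank ℝ (LinearMap.range (LemH.diag W)) = finrank ℝ (V ⧸ (⨅ j, W j)) := by
  have hker : LinearMap.ker (LemH.diag W) = ⨅ j, W j := by
    unfold LemH.diag
    rw [LinearMap.ker_pi]
    simp
  rw [← hker]
  exact (LinearEquiv.finrank_eq (LemH.diag W).quotKerEquivRange).symm

theorem lemmaH {V J ι : Type*} [AddCommGroup V] [Module ℝ V] [FiniteDimensional ℝ V]
    [Fintype J] [Nonempty J] [DecidableEq J] [Fintype ι] (W : J → Submodule ℝ V) (η : V →ₗ[ℝ] ℝ)
    (hη : ∀ x ∈ ⨅ j, W j, η x = 0) (u : ι → V) (hu : ∀ i, 0 < η (u i))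
    (hcard : ∑ j, finrank ℝ (V ⧸ W j) + 1 ≤ finrank ℝ (V ⧸ (⨅ j, W j)) + Fintype.card ι) :
    ∃ (f : ι → J) (c : ι → ℝ) (v : V), (∀ i, 0 ≤ c i) ∧ η v = 1 ∧
      ∀ j, v - ∑ i ∈ univ.filter (fun i => f i = j), c i • u i ∈ W j := by
  classical
  set D := LemH.diag W with hD
  have hDj : ∀ (x : V) (j : J), D x j = (W j).mkQ x := fun x j => rfl
  have hrange : finrank ℝ (LinearMap.range D) = finrank ℝ (V ⧸ (⨅ j, W j)) :=
    LemH.finrank_range W
  have hpi : finrank ℝ (∀ j, V ⧸ W j) = ∑ j, finrank ℝ (V ⧸ W j) := by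
    exact finrank_pi_fintype ℝ
  have hle : finrank ℝ (LinearMap.range D) ≤ finrank ℝ (∀ j, V ⧸ W j) :=
    Submodule.finrank_le _
  have hpos : 0 < Fintype.card ι := by omega
  obtain ⟨i0⟩ : Nonempty ι := Fintype.card_pos_iff.mp hpos
  set v0 : V := (η (u i0))⁻¹ • u i0 with hv0
  have hη0 : η v0 = 1 := by
    rw [hv0, map_smul, smul_eq_mul, inv_mul_cancel₀ (hu i0).ne']
  set K : Submodule ℝ (∀ j, V ⧸ W j) := (LinearMap.ker η).map D with hK
  have hsup : LinearMap.range D ≤ K ⊔ Submodule.span ℝ {D v0} := by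
    rintro _ ⟨x, rfl⟩
    have hx : D x = D (x - η x • v0) + η x • D v0 := by
      rw [map_sub, map_smul, sub_add_cancel]
    rw [hx]
    refine Submodule.add_mem_sup ?_ (Submodule.smul_mem _ _ (Submodule.mem_span_singleton_self _))
    refine Submodule.mem_map_of_mem ?_
    rw [LinearMap.mem_ker, map_sub, map_smul, hη0, smul_eq_mul, mul_one, sub_self]
  have hK1 : finrank ℝ (LinearMap.range D) ≤ finrank ℝ K + 1 := by
    calc finrank ℝ (LinearMap.range D) ≤ finrank ℝ ↥(K ⊔ Submodule.span ℝ {D v0}) :=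
          Submodule.finrank_mono hsup
      _ ≤ finrank ℝ K + finrank ℝ ↥(Submodule.span ℝ {D v0}) :=
          Submodule.finrank_add_le_finrank_add_finrank _ _
      _ ≤ finrank ℝ K + 1 := by
          have h1 : finrank ℝ ↥(Submodule.span ℝ {D v0}) ≤ 1 :=
            (finrank_span_le_card (R := ℝ) ({D v0} : Set (∀ j, V ⧸ W j))).trans (by simp)
          omega
  have hQ : finrank ℝ ((∀ j, V ⧸ W j) ⧸ K) + finrank ℝ K = finrank ℝ (∀ j, V ⧸ W j) :=
    Submodule.finrank_quotient_add_finrank K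
  have hQcard : finrank ℝ ((∀ j, V ⧸ W j) ⧸ K) ≤ Fintype.card ι := by omega
  have hsum : ∀ x : V, ∑ k, (Pi.single k ((W k).mkQ x) : ∀ j, V ⧸ W j) = D x := by
    intro x
    exact Finset.univ_sum_single (D x)
  obtain ⟨f, c, hc, hfc⟩ := cone_colorful
    (fun (i : ι) (j : J) => K.mkQ (Pi.single j ((W j).mkQ (u i)))) (K.mkQ (D v0)) hQcard
    (by
      intro i
      refine ⟨fun _ => (η (u i))⁻¹, fun _ => (inv_pos.mpr (hu i)).le, ?_⟩
      rw [← Finset.smul_sum, ← map_sum, hsum, ← map_smul, ← map_smul, ← sub_eq_zero, ← map_sub,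
        ← map_sub]
      rw [Submodule.mkQ_apply, Submodule.Quotient.mk_eq_zero]
      refine Submodule.mem_map_of_mem ?_
      rw [LinearMap.mem_ker, map_sub, map_smul, hη0, smul_eq_mul, inv_mul_cancel₀ (hu i).ne',
        sub_self])
  have hmem : (∑ i, c i • (Pi.single (f i) ((W (f i)).mkQ (u i)) : ∀ j, V ⧸ W j)) - D v0 ∈ K := by
    rw [← Submodule.Quotient.mk_eq_zero, ← Submodule.mkQ_apply, map_sub, map_sum, sub_eq_zero,
      ← hfc]
    refine Finset.sum_congr rfl fun i _ => ?_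
    rw [map_smul]
  obtain ⟨v1, hv1, hv1D⟩ := hmem
  refine ⟨f, c, v0 + v1, hc, ?_, ?_⟩
  · rw [map_add, hη0, LinearMap.mem_ker.mp hv1, add_zero]
  · intro j
    rw [← Submodule.Quotient.mk_eq_zero, ← Submodule.mkQ_apply, map_sub, sub_eq_zero, map_sum,
      ← hDj, map_add, hv1D, add_sub_cancel, Finset.sum_apply, Finset.sum_filter]
    refine Finset.sum_congr rfl fun i _ => ?_
    by_cases h : f i = j
    · subst h
      simp
    · rw [if_neg h, Pi.smul_apply, Pi.single_eq_of_ne (fun h' => h h'.symm), smul_zero]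

end Pool.Agent.MPa0a351
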