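import Pool.Agent.Lib.MP_a0a351_co.Defs
import Pool.Agent.Lib.MP_a0a351_co.LemH

set_option autoImplicit false

open Module Finset

namespace Pool.Agent.MPa0a351

namespace Half

/-- conic Caratheodory theorem -/
theorem carath {X ι : Type*} [AddCommGroup X] [Module ℝ X] [FiniteDimensional ℝ X] [Fintype ι]
    (y : ι → X) : ∀ (n : ℕ) (c : ι → ℝ), (∀ i, 0 ≤ c i) →
      (open Classical in (univ.filter (fun i => c i ≠ 0)).card) ≤ n →
      ∃ c' : ι → ℝ, (∀ i, 0 ≤ c' i) ∧ (∀ i, c i = 0 → c' i = 0) ∧
        ∑ i, c' i • y i = ∑ i, c i • y i ∧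
        (open Classical in (univ.filter (fun i => c' i ≠ 0)).card) ≤ finrank ℝ X := by
  classical
  intro n
  induction n with
  | zero =>
    intro c hc hn
    refine ⟨c, hc, fun _ h => h, rfl, ?_⟩
    exact le_trans hn (Nat.zero_le _)
  | succ n ih =>
    intro c hc hn
    by_cases hle : (univ.filter (fun i => c i ≠ 0)).card ≤ finrank ℝ X
    · exact ⟨c, hc, fun _ h => h, rfl, hle⟩
    · push Not at hle
      set S : Finset ι := univ.filter (fun i => c i ≠ 0) with hS
      have hdep : ¬ LinearIndependent ℝ (fun i : S => y i) := by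
        intro hli
        have := hli.fintype_card_le_finrank
        rw [Fintype.card_coe] at this
        omega
      obtain ⟨g0, hg0, i1, hi1⟩ := Fintype.not_linearIndependent_iff.1 hdep
      obtain ⟨g, hg, hgS, hpos⟩ : ∃ g : ι → ℝ, ∑ i, g i • y i = 0 ∧ (∀ i, i ∉ S → g i = 0) ∧
          ∃ i ∈ S, 0 < g i := by
        have key : ∀ s : ℝ, ∑ i, (if h : i ∈ S then s * g0 ⟨i, h⟩ else 0) • y i = 0 := by
          intro s
          have e1 : ∑ i, (if h : i ∈ S then s * g0 ⟨i, h⟩ else 0) • y i =
              ∑ i ∈ S, (if h : i ∈ S then s * g0 ⟨i, h⟩ else 0) • y i := by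
            symm
            apply Finset.sum_subset (Finset.subset_univ S)
            intro i _ hi
            rw [dif_neg hi, zero_smul]
          rw [e1, ← Finset.sum_coe_sort S]
          have e2 : ∑ i : S, (if h : (i : ι) ∈ S then s * g0 ⟨i, h⟩ else 0) • y i =
              s • ∑ i : S, g0 i • y i := by
            rw [Finset.smul_sum]
            apply Finset.sum_congr rfl
            intro i _
            rw [dif_pos i.2, mul_smul]
          rw [e2, hg0, smul_zero]
        rcases lt_or_gt_of_ne hi1 with h | h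
        · refine ⟨_, key (-1), fun i hi => dif_neg hi, i1, i1.2, ?_⟩
          rw [dif_pos i1.2]
          simp only [Subtype.coe_eta]
          linarith
        · refine ⟨_, key 1, fun i hi => dif_neg hi, i1, i1.2, ?_⟩
          rw [dif_pos i1.2]
          simp only [Subtype.coe_eta]
          linarith
      obtain ⟨ip, hipS, hip⟩ := hpos
      obtain ⟨i0, hi0, hmin⟩ := Finset.exists_min_image (S.filter (fun i => 0 < g i))
        (fun i => c i / g i) ⟨ip, Finset.mem_filter.2 ⟨hipS, hip⟩⟩
      rw [Finset.mem_filter] at hi0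
      obtain ⟨hi0S, hi0g⟩ := hi0
      set t := c i0 / g i0 with ht
      have ht0 : 0 ≤ t := div_nonneg (hc i0) hi0g.le
      have hc' : ∀ i, 0 ≤ c i - t * g i := by
        intro i
        by_cases hgi : 0 < g i
        · have hiS : i ∈ S := by
            by_contra hni
            rw [hgS i hni] at hgi
            exact lt_irrefl _ hgi
          have := hmin i (Finset.mem_filter.2 ⟨hiS, hgi⟩)
          have h2 : t ≤ c i / g i := this
          rw [le_div_iff₀ hgi] at h2
          linarith
        · push Not at hgi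
          have := mul_nonneg ht0 (neg_nonneg.2 hgi)
          have := hc i
          nlinarith
      have hz : ∀ i, c i = 0 → c i - t * g i = 0 := by
        intro i hi
        have : i ∉ S := by rw [hS, Finset.mem_filter]; exact fun h => h.2 hi
        rw [hi, hgS i this]; ring
      have hcardlt : (univ.filter (fun i => c i - t * g i ≠ 0)).card ≤ n := by
        have hsub : univ.filter (fun i => c i - t * g i ≠ 0) ⊆ S.erase i0 := by
          intro i hi
          rw [Finset.mem_filter] at hi
          rw [Finset.mem_erase]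
          refine ⟨?_, ?_⟩
          · rintro rfl
            apply hi.2
            rw [ht]
            field_simp
            ring
          · rw [hS, Finset.mem_filter]
            exact ⟨Finset.mem_univ _, fun h => hi.2 (hz i h)⟩
        have := Finset.card_le_card hsub
        rw [Finset.card_erase_of_mem hi0S] at this
        omega
      obtain ⟨c', h1, h2, h3, h4⟩ := ih (fun i => c i - t * g i) hc' hcardlt
      refine ⟨c', h1, fun i hi => h2 i (hz i hi), ?_, h4⟩
      rw [h3]
      have : ∑ i, (c i - t * g i) • y i = ∑ i, c i • y i - t • ∑ i, g i • y i := by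
        rw [Finset.smul_sum, ← Finset.sum_sub_distrib]
        apply Finset.sum_congr rfl
        intro i _
        rw [sub_smul, mul_smul]
      rw [this, hg, smul_zero, sub_zero]

theorem ultra_const {α : Type*} [Finite α] (U : Ultrafilter ℕ) (F : ℕ → α) :
    ∃ a, ∀ᶠ k in (U : Filter ℕ), F k = a := by
  have h : (⋃ a ∈ (Set.univ : Set α), {k | F k = a}) ∈ U := by
    have : (⋃ a ∈ (Set.univ : Set α), {k | F k = a}) = Set.univ := by
      ext k; simp
    rw [this]; exact Filter.univ_mem
  obtain ⟨a, _, ha⟩ := (Ultrafilter.finite_biUnion_mem_iff Set.finite_univ).1 h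
  exact ⟨a, ha⟩

end Half

theorem closedHalf {V J ι : Type*} [NormedAddCommGroup V] [NormedSpace ℝ V]
    [FiniteDimensional ℝ V] [Fintype J] [Nonempty J] [DecidableEq J] [Fintype ι]
    (W : J → Submodule ℝ V) (η : V →ₗ[ℝ] ℝ) (hη0 : η ≠ 0)
    (hη : ∀ x ∈ ⨅ j, W j, η x = 0) (u : ι → V) (hu : ∀ i, 0 ≤ η (u i))
    (hind : ∀ j, ∀ Q : Finset ι, Q.card ≤ finrank ℝ (V ⧸ W j) →
      LinearIndependent ℝ (fun i : Q => (W j).mkQ (u i)))
    (hcard : ∑ j, finrank ℝ (V ⧸ W j) + 1 ≤ finrank ℝ (V ⧸ (⨅ j, W j)) + Fintype.card ι) :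
    ∃ (f : ι → J) (c : ι → ℝ) (v : V), (∀ i, 0 ≤ c i) ∧ v ∉ (⨅ j, W j) ∧
      ∀ j, v - ∑ i ∈ univ.filter (fun i => f i = j), c i • u i ∈ W j := by
  classical
  obtain ⟨w, hw⟩ : ∃ w, η w = 1 := by
    obtain ⟨w0, hw0⟩ : ∃ w0, η w0 ≠ 0 := by
      by_contra hcon
      push Not at hcon
      exact hη0 (LinearMap.ext hcon)
    exact ⟨(η w0)⁻¹ • w0, by rw [map_smul, smul_eq_mul, inv_mul_cancel₀ hw0]⟩
  obtain ⟨E', hE'⟩ := Submodule.exists_isCompl (⨅ j, W j)
  -- one step for every k
  have step : ∀ k : ℕ, ∃ (f : ι → J) (c : ι → ℝ) (v : V), (∀ i, 0 ≤ c i) ∧ v ∈ E' ∧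
      ‖v‖ + ∑ i, c i = 1 ∧
      (∀ j, (univ.filter (fun i => f i = j ∧ c i ≠ 0)).card ≤ finrank ℝ (V ⧸ W j)) ∧
      ∀ j, v - ∑ i ∈ univ.filter (fun i => f i = j),
        c i • (u i + (1 / ((k : ℝ) + 1)) • w) ∈ W j := by
    intro k
    have hk : (0 : ℝ) < 1 / ((k : ℝ) + 1) := by positivity
    obtain ⟨f, c, v, h1, h2, h3⟩ := lemmaH W η hη (fun i => u i + (1 / ((k : ℝ) + 1)) • w)
      (fun i => by
        rw [map_add, map_smul, hw, smul_eq_mul, mul_one]
        have := hu i
        linarith) hcard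
    -- Caratheodory for every j
    have car : ∀ j, ∃ c' : ι → ℝ, (∀ i, 0 ≤ c' i) ∧ (∀ i, f i ≠ j → c' i = 0) ∧
        (v - ∑ i, c' i • (u i + (1 / ((k : ℝ) + 1)) • w) ∈ W j) ∧
        (univ.filter (fun i => c' i ≠ 0)).card ≤ finrank ℝ (V ⧸ W j) := by
      intro j
      obtain ⟨c', g1, g2, g3, g4⟩ := Half.carath
        (fun i => (W j).mkQ (u i + (1 / ((k : ℝ) + 1)) • w)) _
        (fun i => if f i = j then c i else 0)
        (fun i => by split_ifs; exact h1 i; exact le_refl _) le_rfl
      refine ⟨c', g1, fun i hi => g2 i (if_neg hi), ?_, g4⟩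
      have e1 : (W j).mkQ (v - ∑ i, c' i • (u i + (1 / ((k : ℝ) + 1)) • w)) = 0 := by
        rw [map_sub, map_sum]
        have e2 : ∑ i, (W j).mkQ (c' i • (u i + (1 / ((k : ℝ) + 1)) • w)) =
            ∑ i, c' i • (W j).mkQ (u i + (1 / ((k : ℝ) + 1)) • w) := by
          apply Finset.sum_congr rfl
          intro i _
          rw [map_smul]
        rw [e2, g3]
        have e3 := h3 j
        rw [← Submodule.Quotient.mk_eq_zero, ← Submodule.mkQ_apply, map_sub, map_sum,
          Finset.sum_filter] at e3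
        rw [← e3]
        congr 1
        apply Finset.sum_congr rfl
        intro i _
        split_ifs
        · rw [map_smul]
        · rw [zero_smul]
      rwa [Submodule.mkQ_apply, Submodule.Quotient.mk_eq_zero] at e1
    choose c' g1 g2 g3 g4 using car
    set C : ι → ℝ := fun i => c' (f i) i with hC
    -- component in the complement
    obtain ⟨e, he, v', hv', hev⟩ := Submodule.mem_sup.1
      (show v ∈ (⨅ j, W j) ⊔ E' by rw [hE'.sup_eq_top]; exact Submodule.mem_top)
    have hηv' : η v' = 1 := by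
      rw [← h2, ← hev, map_add, hη e he, zero_add]
    have hv'0 : v' ≠ 0 := by
      intro h0
      rw [h0, map_zero] at hηv'
      exact zero_ne_one hηv'
    have hN : 0 < ‖v'‖ + ∑ i, C i := by
      have : 0 < ‖v'‖ := norm_pos_iff.2 hv'0
      have : 0 ≤ ∑ i, C i := Finset.sum_nonneg fun i _ => g1 _ _
      linarith
    set N := ‖v'‖ + ∑ i, C i with hNdef
    refine ⟨f, fun i => N⁻¹ * C i, N⁻¹ • v', fun i => ?_, ?_, ?_, ?_, ?_⟩
    · exact mul_nonneg (inv_nonneg.2 hN.le) (g1 _ _)
    · exact E'.smul_mem _ hv'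
    · rw [norm_smul, Real.norm_of_nonneg (inv_nonneg.2 hN.le), ← Finset.mul_sum, ← mul_add,
        ← hNdef, inv_mul_cancel₀ hN.ne']
    · intro j
      refine le_trans (Finset.card_le_card ?_) (g4 j)
      intro i hi
      rw [Finset.mem_filter] at hi ⊢
      obtain ⟨_, hi1, hi2⟩ := hi
      refine ⟨Finset.mem_univ _, ?_⟩
      intro h0
      apply hi2
      simp only [hC, hi1, h0, mul_zero]
    · intro j
      have e1 : v' - ∑ i ∈ univ.filter (fun i => f i = j),
          C i • (u i + (1 / ((k : ℝ) + 1)) • w) ∈ W j := by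
        have e2 : ∑ i ∈ univ.filter (fun i => f i = j),
            C i • (u i + (1 / ((k : ℝ) + 1)) • w) =
            ∑ i, c' j i • (u i + (1 / ((k : ℝ) + 1)) • w) := by
          rw [Finset.sum_filter]
          apply Finset.sum_congr rfl
          intro i _
          split_ifs with hij
          · simp only [hC, hij]
          · rw [g2 j i hij, zero_smul]
        rw [e2]
        have e3 := (W j).sub_mem (g3 j) ((Submodule.mem_iInf W).1 he j)
        have e4 : v - ∑ i, c' j i • (u i + (1 / ((k : ℝ) + 1)) • w) - e =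
            v' - ∑ i, c' j i • (u i + (1 / ((k : ℝ) + 1)) • w) := by
          rw [← hev]; abel
        rwa [e4] at e3
      have e5 := (W j).smul_mem N⁻¹ e1
      rw [smul_sub, Finset.smul_sum] at e5
      convert e5 using 3
      rw [mul_smul]
  choose F c v h1 h2 h3 h4 h5 using step
  -- limit along an ultrafilter
  set U : Ultrafilter ℕ := Filter.hyperfilter ℕ with hU
  have hUle : (U : Filter ℕ) ≤ Filter.atTop := by
    rw [← Nat.cofinite_eq_atTop]
    exact Filter.hyperfilter_le_cofinite
  obtain ⟨f, hf⟩ := Half.ultra_const U F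
  obtain ⟨Q, hQ⟩ := Half.ultra_const U (fun k => univ.filter (fun i => c k i ≠ 0))
  have : ProperSpace V := FiniteDimensional.proper_real V
  have hball : ∀ k, (v k, c k) ∈ Metric.closedBall (0 : V × (ι → ℝ)) 1 := by
    intro k
    rw [mem_closedBall_zero_iff]
    have hs : 0 ≤ ∑ i, c k i := Finset.sum_nonneg fun i _ => h1 k i
    have hk := h3 k
    refine max_le ?_ ?_
    · change ‖v k‖ ≤ 1
      linarith
    · change ‖c k‖ ≤ 1
      rw [pi_norm_le_iff_of_nonneg zero_le_one]
      intro i
      rw [Real.norm_of_nonneg (h1 k i)]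
      have : c k i ≤ ∑ i, c k i := Finset.single_le_sum (fun i _ => h1 k i) (Finset.mem_univ i)
      have := norm_nonneg (v k)
      linarith
  obtain ⟨x, _, hx⟩ := (isCompact_closedBall (0 : V × (ι → ℝ)) 1).ultrafilter_le_nhds'
    (U.map (fun k => (v k, c k))) (by
      rw [Ultrafilter.mem_map]
      have : (fun k => (v k, c k)) ⁻¹' Metric.closedBall (0 : V × (ι → ℝ)) 1 = Set.univ := by
        ext k; simpa using hball k
      rw [this]; exact Filter.univ_mem)
  obtain ⟨v0, c0⟩ := x
  have hx' : Filter.Tendsto (fun k => (v k, c k)) (U : Filter ℕ) (nhds (v0, c0)) := hx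
  rw [nhds_prod_eq] at hx'
  have hv : Filter.Tendsto v (U : Filter ℕ) (nhds v0) := (Filter.tendsto_prod_iff'.1 hx').1
  have hc : Filter.Tendsto c (U : Filter ℕ) (nhds c0) := (Filter.tendsto_prod_iff'.1 hx').2
  have hci : ∀ i, Filter.Tendsto (fun k => c k i) (U : Filter ℕ) (nhds (c0 i)) :=
    fun i => (tendsto_pi_nhds.1 hc) i
  have hc0 : ∀ i, 0 ≤ c0 i := fun i =>
    ge_of_tendsto (hci i) (Filter.Eventually.of_forall fun k => h1 k i)
  have hv0 : v0 ∈ E' := by
    have hcl : IsClosed (E' : Set V) := E'.closed_of_finiteDimensional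
    exact hcl.mem_of_tendsto hv (Filter.Eventually.of_forall fun k => h2 k)
  have hsum : ‖v0‖ + ∑ i, c0 i = 1 := by
    have ht : Filter.Tendsto (fun k => ‖v k‖ + ∑ i, c k i) (U : Filter ℕ)
        (nhds (‖v0‖ + ∑ i, c0 i)) := hv.norm.add (tendsto_finsetSum _ fun i _ => hci i)
    have ht' : Filter.Tendsto (fun k => ‖v k‖ + ∑ i, c k i) (U : Filter ℕ) (nhds 1) := by
      have : (fun k => ‖v k‖ + ∑ i, c k i) = fun _ => (1 : ℝ) := funext h3
      rw [this]; exact tendsto_const_nhds
    exact tendsto_nhds_unique ht ht'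
  have hrel : ∀ j, v0 - ∑ i ∈ univ.filter (fun i => f i = j), c0 i • u i ∈ W j := by
    intro j
    have hcl : IsClosed ((W j : Submodule ℝ V) : Set V) := (W j).closed_of_finiteDimensional
    have hsc : Filter.Tendsto (fun k : ℕ => (1 / ((k : ℝ) + 1))) (U : Filter ℕ) (nhds 0) :=
      (tendsto_one_div_add_atTop_nhds_zero_nat (𝕜 := ℝ)).mono_left hUle
    have ht : Filter.Tendsto (fun k => v k - ∑ i ∈ univ.filter (fun i => f i = j),
        c k i • (u i + (1 / ((k : ℝ) + 1)) • w)) (U : Filter ℕ)
        (nhds (v0 - ∑ i ∈ univ.filter (fun i => f i = j), c0 i • (u i + (0 : ℝ) • w))) :=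
      hv.sub (tendsto_finsetSum _ fun i _ =>
        (hci i).smul (tendsto_const_nhds.add (hsc.smul_const w)))
    have hm := hcl.mem_of_tendsto ht (by
      filter_upwards [hf] with k hk
      have := h5 k j
      rw [hk] at this
      exact this)
    simpa using hm
  have hsupp : ∀ i, i ∉ Q → c0 i = 0 := by
    intro i hi
    have : Filter.Tendsto (fun k => c k i) (U : Filter ℕ) (nhds 0) := by
      apply Filter.Tendsto.congr' _ tendsto_const_nhds
      filter_upwards [hQ] with k hk
      by_contra hne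
      apply hi
      rw [← hk, Finset.mem_filter]
      exact ⟨Finset.mem_univ _, fun h => hne h.symm⟩
    exact tendsto_nhds_unique (hci i) this
  refine ⟨f, c0, v0, hc0, ?_, hrel⟩
  intro hvE
  have hv00 : v0 = 0 := by
    have : v0 ∈ (⨅ j, W j) ⊓ E' := ⟨hvE, hv0⟩
    rw [hE'.inf_eq_bot] at this
    exact (Submodule.mem_bot ℝ).1 this
  have hall : ∀ i, c0 i = 0 := by
    intro i
    set j := f i with hj
    have hr := hrel j
    rw [hv00, zero_sub] at hr
    have hr' := (W j).neg_mem hr
    rw [neg_neg] at hr'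
    -- the relevant index set
    obtain ⟨k, hk1, hk2⟩ := (hf.and hQ).exists
    have hcardQ : (Q.filter (fun i => f i = j)).card ≤ finrank ℝ (V ⧸ W j) := by
      refine le_trans (Finset.card_le_card ?_) (h4 k j)
      intro i' hi'
      rw [Finset.mem_filter] at hi' ⊢
      refine ⟨Finset.mem_univ _, ?_, ?_⟩
      · rw [hk1]; exact hi'.2
      · have := hi'.1
        rw [← hk2, Finset.mem_filter] at this
        exact this.2
    have hli := hind j _ hcardQ
    by_cases hiQ : i ∈ Q
    · rw [Fintype.linearIndependent_iff] at hli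
      have hz := hli (fun i' => c0 i') (by
        rw [Finset.sum_coe_sort (Q.filter (fun i => f i = j))
          (fun i' => c0 i' • (W j).mkQ (u i'))]
        have e1 : ∑ i' ∈ Q.filter (fun i => f i = j), c0 i' • (W j).mkQ (u i') =
            (W j).mkQ (∑ i' ∈ univ.filter (fun i => f i = j), c0 i' • u i') := by
          rw [map_sum]
          have e2 : ∀ i', (W j).mkQ (c0 i' • u i') = c0 i' • (W j).mkQ (u i') :=
            fun i' => map_smul _ _ _
          rw [Finset.sum_congr rfl fun i' _ => e2 i']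
          apply Finset.sum_subset
          · intro i' hi'
            rw [Finset.mem_filter] at hi' ⊢
            exact ⟨Finset.mem_univ _, hi'.2⟩
          · intro i' hi' hn
            rw [Finset.mem_filter] at hi'
            have : i' ∉ Q := fun hq => hn (Finset.mem_filter.2 ⟨hq, hi'.2⟩)
            rw [hsupp i' this, zero_smul]
        rw [e1, Submodule.mkQ_apply, Submodule.Quotient.mk_eq_zero]
        exact hr') ⟨i, Finset.mem_filter.2 ⟨hiQ, hj.symm⟩⟩
      exact hz
    · exact hsupp i hiQ
  rw [hv00, norm_zero, zero_add, Finset.sum_eq_zero fun i _ => hall i] at hsum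
  exact zero_ne_one hsum

theorem smallHalf {V ι : Type*} [AddCommGroup V] [Module ℝ V] [FiniteDimensional ℝ V] [Fintype ι]
    (E : Submodule ℝ V) (u : ι → V) (hpos : 0 < finrank ℝ (V ⧸ E))
    (hcard : Fintype.card ι ≤ finrank ℝ (V ⧸ E)) :
    ∃ η : V →ₗ[ℝ] ℝ, η ≠ 0 ∧ (∀ x ∈ E, η x = 0) ∧ ∀ i, 0 ≤ η (u i) := by
  classical
  have surj : Function.Surjective E.mkQ := Submodule.mkQ_surjective E
  have lift : ∀ g : (V ⧸ E) →ₗ[ℝ] ℝ, g ≠ 0 → (∀ i, 0 ≤ g (E.mkQ (u i))) →
      ∃ η : V →ₗ[ℝ] ℝ, η ≠ 0 ∧ (∀ x ∈ E, η x = 0) ∧ ∀ i, 0 ≤ η (u i) := by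
    intro g hg hgu
    refine ⟨g ∘ₗ E.mkQ, ?_, ?_, hgu⟩
    · intro h0
      apply hg
      refine LinearMap.ext fun y => ?_
      obtain ⟨x, rfl⟩ := surj y
      exact LinearMap.congr_fun h0 x
    · intro x hx
      have : E.mkQ x = 0 := by rwa [Submodule.mkQ_apply, Submodule.Quotient.mk_eq_zero]
      rw [LinearMap.comp_apply, this, map_zero]
  by_cases hspan : Submodule.span ℝ (Set.range fun i => E.mkQ (u i)) = ⊤
  · have hc : Fintype.card ι = finrank ℝ (V ⧸ E) := by
      apply le_antisymm hcard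
      have := finrank_range_le_card (R := ℝ) (fun i => E.mkQ (u i))
      rw [Set.finrank, hspan, finrank_top] at this
      exact this
    let b := basisOfTopLeSpanOfCardEqFinrank (fun i => E.mkQ (u i)) (le_of_eq hspan.symm) hc
    have hb : ∀ i, b i = E.mkQ (u i) := by
      intro i
      simp [b]
    have hval : ∀ i, b.constr ℝ (fun _ => (1 : ℝ)) (E.mkQ (u i)) = 1 := by
      intro i
      rw [← hb i, Module.Basis.constr_basis]
    apply lift (b.constr ℝ (fun _ => (1 : ℝ)))
    · intro h0
      have hne : Nonempty ι := by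
        rw [← Fintype.card_pos_iff, hc]; exact hpos
      obtain ⟨i⟩ := hne
      have := hval i
      rw [h0] at this
      exact zero_ne_one this
    · intro i
      rw [hval i]
      exact zero_le_one
  · obtain ⟨g, hg, hle⟩ := Submodule.exists_le_ker_of_lt_top _ (lt_top_iff_ne_top.2 hspan)
    apply lift g hg
    intro i
    have : E.mkQ (u i) ∈ LinearMap.ker g := hle (Submodule.subset_span ⟨i, rfl⟩)
    rw [LinearMap.mem_ker.1 this]

end Pool.Agent.MPa0a351
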