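import Pool.Agent.Lib.MP_a0a351_co.Defs
import Pool.Agent.Lib.MP_a0a351_co.Gpl

/-! MP_a0a351_co, module PROG: enlarging a pre-state. -/

set_option autoImplicit false

open Module Finset

namespace Pool.Agent.MPa0a351

namespace ProgX

variable {ι V : Type*} [AddCommGroup V] [Module ℝ V]

/-- conic Caratheodory modulo a subspace, one step -/
theorem cone_step (W : Submodule ℝ V) (y : ι → V) (v : V) (L : Finset ι) (c : ι → ℝ)
    (hc : ∀ x ∈ L, 0 < c x) (hv : v - ∑ x ∈ L, c x • y x ∈ W)
    (hdep : ¬ LinearIndependent ℝ (fun i : L => W.mkQ (y i))) :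
    ∃ (L' : Finset ι) (c' : ι → ℝ), L' ⊂ L ∧ (∀ x ∈ L', 0 < c' x) ∧
      v - ∑ x ∈ L', c' x • y x ∈ W := by
  classical
  rw [Fintype.linearIndependent_iff] at hdep
  push Not at hdep
  obtain ⟨g0, hg0, i0, hi0⟩ := hdep
  -- a dependence with a positive coefficient
  obtain ⟨g, hg, j0, hj0, hj1⟩ : ∃ g : ι → ℝ, ∑ x ∈ L, g x • y x ∈ W ∧ ∃ j0 ∈ L, 0 < g j0 := by
    have key : ∑ x ∈ L, (if h : x ∈ L then g0 ⟨x, h⟩ else 0) • y x ∈ W := by
      rw [← Submodule.Quotient.mk_eq_zero, ← Submodule.mkQ_apply, map_sum,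
        ← Finset.sum_coe_sort L]
      rw [← hg0]
      refine Finset.sum_congr rfl fun x _ => ?_
      rw [map_smul, dif_pos x.2]
    rcases lt_or_gt_of_ne hi0 with h | h
    · refine ⟨fun x => - (if h : x ∈ L then g0 ⟨x, h⟩ else 0), ?_, i0, i0.2, ?_⟩
      · simp only [neg_smul, Finset.sum_neg_distrib]
        exact W.neg_mem key
      · simp only [dif_pos i0.2]
        linarith
    · refine ⟨fun x => (if h : x ∈ L then g0 ⟨x, h⟩ else 0), key, i0, i0.2, ?_⟩
      simp only [dif_pos i0.2]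
      exact h
  -- the smallest quotient
  obtain ⟨m, hm, hmin⟩ := Finset.exists_min_image (L.filter fun x => 0 < g x) (fun x => c x / g x)
    ⟨j0, Finset.mem_filter.2 ⟨hj0, hj1⟩⟩
  rw [Finset.mem_filter] at hm
  set s : ℝ := c m / g m with hs
  have hs0 : 0 < s := div_pos (hc m hm.1) hm.2
  have hnn : ∀ x ∈ L, 0 ≤ c x - s * g x := by
    intro x hx
    rcases le_or_gt (g x) 0 with h | h
    · have := hc x hx
      nlinarith
    · have h2 := hmin x (Finset.mem_filter.2 ⟨hx, h⟩)
      rw [le_div_iff₀ h] at h2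
      linarith
  refine ⟨L.filter fun x => 0 < c x - s * g x, fun x => c x - s * g x, ?_, ?_, ?_⟩
  · refine Finset.filter_ssubset.2 ⟨m, hm.1, ?_⟩
    rw [hs, div_mul_cancel₀ _ hm.2.ne']
    simp
  · intro x hx
    exact (Finset.mem_filter.1 hx).2
  · have h1 : ∑ x ∈ L.filter (fun x => 0 < c x - s * g x), (c x - s * g x) • y x =
        ∑ x ∈ L, (c x - s * g x) • y x := by
      rw [Finset.sum_filter]
      refine Finset.sum_congr rfl fun x hx => ?_
      split_ifs with h
      · rfl
      · have : c x - s * g x = 0 := le_antisymm (not_lt.1 h) (hnn x hx)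
        rw [this, zero_smul]
    rw [h1]
    have h2 : v - ∑ x ∈ L, (c x - s * g x) • y x =
        (v - ∑ x ∈ L, c x • y x) + s • ∑ x ∈ L, g x • y x := by
      rw [Finset.smul_sum]
      simp only [sub_smul, Finset.sum_sub_distrib, mul_smul]
      abel
    rw [h2]
    exact W.add_mem hv (W.smul_mem _ hg)

/-- conic Caratheodory modulo a subspace -/
theorem cone_min (W : Submodule ℝ V) (y : ι → V) (v : V) (L : Finset ι) (c : ι → ℝ)
    (hc : ∀ x, 0 ≤ c x) (hv : v - ∑ x ∈ L, c x • y x ∈ W) :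
    ∃ (L' : Finset ι) (c' : ι → ℝ), L' ⊆ L ∧ (∀ x ∈ L', 0 < c' x) ∧
      v - ∑ x ∈ L', c' x • y x ∈ W ∧ LinearIndependent ℝ (fun i : L' => W.mkQ (y i)) := by
  classical
  have main : ∀ (n : ℕ) (L0 : Finset ι) (c : ι → ℝ), L0.card = n → L0 ⊆ L → (∀ x ∈ L0, 0 < c x) →
      v - ∑ x ∈ L0, c x • y x ∈ W → ∃ (L' : Finset ι) (c' : ι → ℝ), L' ⊆ L ∧ (∀ x ∈ L', 0 < c' x) ∧
      v - ∑ x ∈ L', c' x • y x ∈ W ∧ LinearIndependent ℝ (fun i : L' => W.mkQ (y i)) := by
    intro n
    induction n using Nat.strong_induction_on with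
    | _ n ih =>
      intro L0 c hn hL0 hc hv
      by_cases hli : LinearIndependent ℝ (fun i : L0 => W.mkQ (y i))
      · exact ⟨L0, c, hL0, hc, hv, hli⟩
      · obtain ⟨L1, c1, h1, h2, h3⟩ := cone_step W y v L0 c hc hv hli
        exact ih L1.card (hn ▸ Finset.card_lt_card h1) L1 c1 rfl (h1.1.trans hL0) h2 h3
  refine main _ (L.filter fun x => 0 < c x) c rfl (Finset.filter_subset _ _)
    (fun x hx => (Finset.mem_filter.1 hx).2) ?_
  rw [Finset.sum_filter]
  have h1 : ∑ x ∈ L, (if 0 < c x then c x • y x else 0) = ∑ x ∈ L, c x • y x := by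
    refine Finset.sum_congr rfl fun x _ => ?_
    split_ifs with h
    · rfl
    · rw [le_antisymm (not_lt.1 h) (hc x), zero_smul]
  rw [h1]
  exact hv

theorem mem_Sp [Fintype ι] {y : ι → V} {T : Finset ι} {w : V} (hw : w ∈ Sp y T) :
    ∃ γ : ι → ℝ, (∀ x, x ∉ T → γ x = 0) ∧ ∑ x, γ x • y x = w := by
  classical
  unfold Sp at hw
  induction hw using Submodule.span_induction with
  | mem w hw =>
    obtain ⟨x, hx, rfl⟩ := hw
    refine ⟨fun z => if z = x then 1 else 0, fun z hz => ?_, ?_⟩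
    · change (if z = x then (1 : ℝ) else 0) = 0
      rw [if_neg]
      rintro rfl
      exact hz hx
    · simp
  | zero => exact ⟨0, fun _ _ => rfl, by simp⟩
  | add a b _ _ ha hb =>
    obtain ⟨γ, h1, h2⟩ := ha
    obtain ⟨δ, h3, h4⟩ := hb
    refine ⟨γ + δ, fun x hx => by simp [h1 x hx, h3 x hx], ?_⟩
    simp only [Pi.add_apply, add_smul, Finset.sum_add_distrib, h2, h4]
  | smul r a _ ha =>
    obtain ⟨γ, h1, h2⟩ := ha
    refine ⟨r • γ, fun x hx => by simp [h1 x hx], ?_⟩
    simp only [Pi.smul_apply, smul_eq_mul, mul_smul, ← Finset.smul_sum, h2]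

theorem mem_Sp_of {y : ι → V} {T : Finset ι} {x : ι} (hx : x ∈ T) : y x ∈ Sp y T :=
  Submodule.subset_span ⟨x, hx, rfl⟩

end ProgX

open ProgX

variable {ι V : Type*} [Fintype ι] [NormedAddCommGroup V] [NormedSpace ℝ V]
  [FiniteDimensional ℝ V]

theorem progress {d r : ℕ} (X : ι → V) (hX : GPV d X) (o : V) (A : Fin r → Finset ι)
    (h : PreState d X o A) (L : Fin r → Finset ι)
    (hLL : ∀ i j, i ≠ j → Disjoint (L i) (L j)) (hLA : ∀ i j, Disjoint (L i) (A j))
    (v : V) (hv : v ∉ EE X o A) (c : ι → ℝ) (hc : ∀ i, 0 ≤ c i)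
    (hL : ∀ i, v - ∑ x ∈ L i, c x • (X x - o) ∈ Sp (fun x => X x - o) (A i))
    (hd : finrank ℝ V = d) :
    ∃ (o' : V) (A' : Fin r → Finset ι), PreState d X o' A' ∧
      finrank ℝ (EE X o A) < finrank ℝ (EE X o' A') := by
  classical
  set y : ι → V := fun x => X x - o with hy
  have hstep : ∀ i, ∃ (L' : Finset ι) (c' : ι → ℝ), L' ⊆ L i ∧ (∀ x ∈ L', 0 < c' x) ∧
      v - ∑ x ∈ L', c' x • y x ∈ Sp y (A i) ∧
      LinearIndependent ℝ (fun z : L' => (Sp y (A i)).mkQ (y z)) :=
    fun i => cone_min _ y v (L i) c hc (hL i)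
  choose L' c' hL' hc' hv' hli using hstep
  have hγ : ∀ i, ∃ γ : ι → ℝ, (∀ x, x ∉ A i → γ x = 0) ∧
      ∑ x, γ x • y x = v - ∑ x ∈ L' i, c' i x • y x := fun i => mem_Sp (hv' i)
  choose γ hγ0 hγ1 using hγ
  have ha : ∀ i, ∃ a : ι → ℝ, (∀ x ∈ A i, 0 < a x) ∧ (∀ x, x ∉ A i → a x = 0) ∧ ∑ x, a x = 1 ∧
      ∑ x, a x • y x = 0 := h.circ
  choose a ha1 ha2 ha3 ha4 using ha
  set S : Fin r → ℝ := fun i => ∑ x ∈ L' i, c' i x + ∑ x, γ i x with hS
  -- the size of the step
  obtain ⟨ε, hε0, hε⟩ : ∃ ε : ℝ, 0 < ε ∧ ∀ i, ∀ x, x ∈ A i →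
      0 < a i x + ε * (γ i x - S i * a i x) := by
    have h1 : ∀ i, ∀ x, ∀ᶠ ε : ℝ in nhdsWithin 0 (Set.Ioi 0), x ∈ A i →
        0 < a i x + ε * (γ i x - S i * a i x) := by
      intro i x
      by_cases hx : x ∈ A i
      · have hcont : Continuous fun ε : ℝ => a i x + ε * (γ i x - S i * a i x) := by fun_prop
        have h2 : ∀ᶠ ε : ℝ in nhds 0, 0 < a i x + ε * (γ i x - S i * a i x) :=
          (hcont.tendsto' 0 (a i x) (by simp)).eventually_const_lt (ha1 i x hx)
        exact (h2.filter_mono nhdsWithin_le_nhds).mono fun ε h _ => h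
      · exact Filter.Eventually.of_forall fun ε h => absurd h hx
    have h2 : ∀ᶠ ε : ℝ in nhdsWithin 0 (Set.Ioi 0), ∀ i, ∀ x, x ∈ A i →
        0 < a i x + ε * (γ i x - S i * a i x) :=
      Filter.eventually_all.2 fun i => Filter.eventually_all.2 fun x => h1 i x
    obtain ⟨ε, h3, h4⟩ := (h2.and self_mem_nhdsWithin).exists
    exact ⟨ε, h4, h3⟩
  set o' : V := o + ε • v with ho'
  set y' : ι → V := fun x => X x - o' with hy'
  have hyy : ∀ x, y' x = y x - ε • v := fun x => by simp only [hy', hy, ho']; abel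
  -- new sets
  refine ⟨o', fun i => A i ∪ L' i, ⟨?_, ?_, ?_⟩, ?_⟩
  · intro i j hij
    rw [Finset.disjoint_union_left, Finset.disjoint_union_right, Finset.disjoint_union_right]
    refine ⟨⟨h.disj i j hij, ?_⟩, ?_, ?_⟩
    · exact (Finset.disjoint_of_subset_left (hL' j) (hLA j i)).symm
    · exact Finset.disjoint_of_subset_left (hL' i) (hLA i j)
    · exact Finset.disjoint_of_subset_left (hL' i) (Finset.disjoint_of_subset_right (hL' j)
        (hLL i j hij))
  · intro i
    have h1 : (L' i).card ≤ finrank ℝ (V ⧸ Sp y (A i)) := by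
      have := (hli i).fintype_card_le_finrank
      simpa using this
    have h2 := (hX.sub o).finrank_circ (h.circ i) (h.card i)
    have h3 := Submodule.finrank_quotient_add_finrank (Sp y (A i))
    rw [hd] at h3
    have h4 := Finset.card_union_le (A i) (L' i)
    change finrank ℝ (Sp y (A i)) + 1 = (A i).card at h2
    change (A i ∪ L' i).card ≤ d + 1
    omega
  · intro i
    have hdis : Disjoint (A i) (L' i) :=
      (Finset.disjoint_of_subset_left (hL' i) (hLA i i)).symm
    refine ⟨fun x => a i x + ε * (γ i x - S i * a i x) + (if x ∈ L' i then ε * c' i x else 0),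
      ?_, ?_, ?_, ?_⟩
    · intro x hx
      rcases Finset.mem_union.1 hx with hx | hx
      · change 0 < a i x + ε * (γ i x - S i * a i x) + (if x ∈ L' i then ε * c' i x else 0)
        rw [if_neg (Finset.disjoint_left.1 hdis hx), add_zero]
        exact hε i x hx
      · have hx' : x ∉ A i := Finset.disjoint_right.1 hdis hx
        change 0 < a i x + ε * (γ i x - S i * a i x) + (if x ∈ L' i then ε * c' i x else 0)
        rw [if_pos hx, ha2 i x hx', hγ0 i x hx']
        have := mul_pos hε0 (hc' i x hx)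
        simpa using this
    · intro x hx
      rw [Finset.mem_union, not_or] at hx
      change a i x + ε * (γ i x - S i * a i x) + (if x ∈ L' i then ε * c' i x else 0) = 0
      rw [if_neg hx.2, ha2 i x hx.1, hγ0 i x hx.1]
      simp
    · rw [Finset.sum_add_distrib, Finset.sum_add_distrib, ← Finset.mul_sum,
        Finset.sum_sub_distrib, ← Finset.mul_sum, ha3, Finset.sum_ite_mem, Finset.univ_inter,
        ← Finset.mul_sum]
      simp only [hS]
      ring
    · have e1 : ∀ x, (a i x + ε * (γ i x - S i * a i x) +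
          (if x ∈ L' i then ε * c' i x else 0)) • (X x - o') =
          (1 - ε * S i) • (a i x • y x) + ε • (γ i x • y x) +
            ε • (if x ∈ L' i then c' i x • y x else 0) -
          (a i x + ε * (γ i x - S i * a i x) +
          (if x ∈ L' i then ε * c' i x else 0)) • (ε • v) := by
        intro x
        change _ • (y' x) = _
        rw [hyy x, smul_sub]
        congr 1
        split_ifs
        · module
        · module
      have e2 : ∑ x, (a i x + ε * (γ i x - S i * a i x) +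
          (if x ∈ L' i then ε * c' i x else 0)) = 1 := by
        rw [Finset.sum_add_distrib, Finset.sum_add_distrib, ← Finset.mul_sum,
          Finset.sum_sub_distrib, ← Finset.mul_sum, ha3, Finset.sum_ite_mem, Finset.univ_inter,
          ← Finset.mul_sum]
        simp only [hS]
        ring
      rw [Finset.sum_congr rfl fun x _ => e1 x, Finset.sum_sub_distrib, ← Finset.sum_smul, e2,
        one_smul, Finset.sum_add_distrib, Finset.sum_add_distrib, ← Finset.smul_sum, ha4,
        ← Finset.smul_sum, hγ1, ← Finset.smul_sum, Finset.sum_ite_mem, Finset.univ_inter]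
      module
  · -- spans
    have hvmem : ∀ i, v ∈ Sp y' (A i ∪ L' i) := by
      intro i
      have e1 : ∑ x, a i x • y' x = - (ε • v) := by
        have : ∀ x, a i x • y' x = a i x • y x - a i x • (ε • v) := fun x => by
          rw [hyy, smul_sub]
        rw [Finset.sum_congr rfl fun x _ => this x, Finset.sum_sub_distrib, ha4,
          ← Finset.sum_smul, ha3, one_smul, zero_sub]
      have e2 : ∑ x, a i x • y' x ∈ Sp y' (A i ∪ L' i) := by
        refine Submodule.sum_mem _ fun x _ => ?_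
        by_cases hx : x ∈ A i
        · exact Submodule.smul_mem _ _ (mem_Sp_of (Finset.mem_union_left _ hx))
        · rw [ha2 i x hx, zero_smul]
          exact Submodule.zero_mem _
      rw [e1, Submodule.neg_mem_iff] at e2
      have := Submodule.smul_mem _ ε⁻¹ e2
      rwa [smul_smul, inv_mul_cancel₀ hε0.ne', one_smul] at this
    have hle : ∀ i, Sp y (A i) ≤ Sp y' (A i ∪ L' i) := by
      intro i
      refine Submodule.span_le.2 ?_
      rintro _ ⟨x, hx, rfl⟩
      have e1 : y x = y' x + ε • v := by rw [hyy]; abel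
      rw [SetLike.mem_coe, e1]
      exact Submodule.add_mem _ (mem_Sp_of (Finset.mem_union_left _ hx))
        (Submodule.smul_mem _ _ (hvmem i))
    have h1 : EE X o A ≤ EE X o' (fun i => A i ∪ L' i) := by
      unfold EE
      exact iInf_mono hle
    have h2 : v ∈ EE X o' (fun i => A i ∪ L' i) := by
      unfold EE
      rw [Submodule.mem_iInf]
      exact hvmem
    refine Submodule.finrank_lt_finrank_of_lt (lt_of_le_of_ne h1 ?_)
    intro heq
    rw [← heq] at h2
    exact hv h2

end Pool.Agent.MPa0a351
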