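import Pool.Agent.Lib.MP_a0a351_co.Farkas
import Pool.Agent.Lib.MP_a0a351_co.LemH
import Pool.Agent.Lib.MP_a0a351_co.ModC
import Pool.Agent.Lib.MP_a0a351_co.Half
import Pool.Agent.Lib.MP_a0a351_co.Prog

/-!
When there are no conic solutions, the rest after the removal of `t < r` disjoint circuits is
positively spanning, and `r` disjoint circuits have total excess at least `2 d`.
-/

set_option autoImplicit false

open Module Finset

namespace Pool.Agent.MPa0a351

/-- There are no conic solutions: no nonzero vector is in the cones of `r` disjoint sets of the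
vectors `y x`. -/
def NC {ι V : Type*} [Fintype ι] [AddCommGroup V] [Module ℝ V] (r : ℕ) (y : ι → V) : Prop :=
  ∀ (g : ι → Fin r) (c : ι → ℝ) (v : V), (∀ x, 0 ≤ c x) →
    (∀ i, ∑ x, (if g x = i then c x else 0) • y x = v) → v = 0

section

variable {ι V : Type*} [Fintype ι] [AddCommGroup V] [Module ℝ V]

theorem NC.sets {r : ℕ} {y : ι → V} (h : NC r y) (hr : 1 ≤ r) (B : Fin r → Finset ι)
    (hB : ∀ i j, i ≠ j → Disjoint (B i) (B j)) (c : Fin r → ι → ℝ) (hc : ∀ i x, 0 ≤ c i x)
    (hcB : ∀ i x, x ∉ B i → c i x = 0) (v : V) (hv : ∀ i, ∑ x, c i x • y x = v) : v = 0 := by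
  classical
  let g : ι → Fin r := fun x => if h : ∃ i, x ∈ B i then h.choose else ⟨0, hr⟩
  have hg : ∀ i x, x ∈ B i → g x = i := by
    intro i x hx
    have hex : ∃ i, x ∈ B i := ⟨i, hx⟩
    have h1 : g x = hex.choose := dif_pos hex
    rw [h1]
    by_contra hne
    exact Finset.disjoint_left.mp (hB _ _ hne) hex.choose_spec hx
  refine h g (fun x => c (g x) x) v (fun x => hc _ x) (fun i => ?_)
  rw [← hv i]
  refine Finset.sum_congr rfl fun x _ => ?_
  by_cases hx : x ∈ B i
  · rw [if_pos (hg i x hx), hg i x hx]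
  · rw [hcB i x hx, zero_smul]
    split_ifs with hgx
    · rw [hgx, hcB i x hx, zero_smul]
    · rw [zero_smul]

/-- Elements of the span of a circuit are nonnegative combinations. -/
theorem Circ.cone {y : ι → V} {T : Finset ι} (hT : Circ y T) {w : V} (hw : w ∈ Sp y T) :
    ∃ b : ι → ℝ, (∀ x, 0 ≤ b x) ∧ (∀ x, x ∉ T → b x = 0) ∧ ∑ x, b x • y x = w := by
  classical
  obtain ⟨a, ha, ha0, -, hay⟩ := hT
  obtain ⟨g, hg0, hgw⟩ := ProgX.mem_Sp hw
  obtain ⟨t, -, ht⟩ := MODC.absorb T a ha g
  refine ⟨fun x => g x + t * a x, fun x => ?_, fun x hx => ?_, ?_⟩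
  · by_cases hx : x ∈ T
    · exact (ht x hx).le
    · dsimp only
      rw [hg0 x hx, ha0 x hx]
      simp
  · dsimp only
    rw [hg0 x hx, ha0 x hx]
    ring
  · simp only [add_smul, mul_smul, Finset.sum_add_distrib, ← Finset.smul_sum, hay, hgw, smul_zero,
      add_zero]

theorem NC.rows {r : ℕ} {y : ι → V} (h : NC r y) (hr : 1 ≤ r) (B P : Fin r → Finset ι)
    (hBB : ∀ i j, i ≠ j → Disjoint (B i) (B j)) (hPP : ∀ i j, i ≠ j → Disjoint (P i) (P j))
    (hPB : ∀ i j, Disjoint (P i) (B j)) (hB : ∀ j, B j = ∅ ∨ Circ y (B j)) (c : ι → ℝ)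
    (hc : ∀ x, 0 ≤ c x) (v : V) (hv : ∀ j, v - ∑ x ∈ P j, c x • y x ∈ Sp y (B j)) : v = 0 := by
  classical
  have hb : ∀ j, ∃ b : ι → ℝ, (∀ x, 0 ≤ b x) ∧ (∀ x, x ∉ B j → b x = 0) ∧
      ∑ x, b x • y x = v - ∑ x ∈ P j, c x • y x := by
    intro j
    rcases hB j with hj | hj
    · have h1 := hv j
      rw [hj] at h1
      simp only [Sp, Finset.coe_empty, Set.image_empty, Submodule.span_empty,
        Submodule.mem_bot] at h1
      exact ⟨fun _ => 0, fun _ => le_rfl, fun _ _ => rfl, by simp [h1]⟩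
    · exact hj.cone (hv j)
  choose b hb0 hbB hbv using hb
  refine h.sets hr (fun j => P j ∪ B j) ?_ (fun j x => (if x ∈ P j then c x else 0) + b j x)
    (fun j x => add_nonneg (by split_ifs; exacts [hc x, le_rfl]) (hb0 j x)) (fun j x hx => ?_) v
    (fun j => ?_)
  · intro i j hij
    rw [Finset.disjoint_union_left, Finset.disjoint_union_right, Finset.disjoint_union_right]
    exact ⟨⟨hPP i j hij, hPB i j⟩, ⟨(hPB j i).symm, hBB i j hij⟩⟩
  · rw [Finset.mem_union, not_or] at hx
    rw [if_neg hx.1, hbB j x hx.2, add_zero]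
  · simp only [add_smul, Finset.sum_add_distrib, hbv]
    have h1 : ∑ x, (if x ∈ P j then c x else 0) • y x = ∑ x ∈ P j, c x • y x := by
      simp only [ite_smul, zero_smul]
      rw [Finset.sum_ite_mem, Finset.univ_inter]
    rw [h1]
    abel

/-- The codimension of the span of a circuit or of the empty set. -/
theorem codim_le [FiniteDimensional ℝ V] {d : ℕ} (hd : finrank ℝ V = d) {y : ι → V}
    (hgp : GPV d y) {T : Finset ι} (hT : T = ∅ ∨ Circ y T) (hcard : T.card ≤ d + 1) :
    finrank ℝ (V ⧸ Sp y T) + T.card ≤ d + 1 := by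
  have h2 := Submodule.finrank_quotient_add_finrank (Sp y T)
  rcases hT with rfl | hT
  · rw [Finset.card_empty]
    omega
  · have h1 := hgp.finrank_circ hT hcard
    omega

end

section

variable {ι V : Type*} [Fintype ι] [AddCommGroup V] [Module ℝ V] [FiniteDimensional ℝ V]

/-- A nonnegative functional with as few zeros as possible on a set: the zeros form a circuit. -/
theorem exists_functional {d : ℕ} (hd : finrank ℝ V = d) {y : ι → V} (hgp : GPV d y)
    (Y : Finset ι) (η : V →ₗ[ℝ] ℝ) (hη : η ≠ 0) (hηY : ∀ u ∈ Y, 0 ≤ η (y u)) :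
    ∃ (ξ : V →ₗ[ℝ] ℝ) (K : Finset ι), ξ ≠ 0 ∧ K ⊆ Y ∧ (∀ u ∈ K, ξ (y u) = 0) ∧
      (∀ u ∈ Y, u ∉ K → 0 < ξ (y u)) ∧ K.card ≤ d ∧ (K = ∅ ∨ Circ y K) := by
  classical
  -- minimal number of zeros
  let S : Set ℕ := {n | ∃ ξ : V →ₗ[ℝ] ℝ, ξ ≠ 0 ∧ (∀ u ∈ Y, 0 ≤ ξ (y u)) ∧
    (Y.filter (fun u => ξ (y u) = 0)).card = n}
  have hS : S.Nonempty := ⟨_, η, hη, hηY, rfl⟩
  obtain ⟨ξ, hξ0, hξY, hξn⟩ := Nat.sInf_mem hS
  set K := Y.filter (fun u => ξ (y u) = 0) with hK
  have hmin : ∀ ξ' : V →ₗ[ℝ] ℝ, ξ' ≠ 0 → (∀ u ∈ Y, 0 ≤ ξ' (y u)) →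
      K.card ≤ (Y.filter (fun u => ξ' (y u) = 0)).card := by
    intro ξ' h1 h2
    rw [hξn]
    exact Nat.sInf_le ⟨ξ', h1, h2, rfl⟩
  have hKz : ∀ u ∈ K, ξ (y u) = 0 := fun u hu => (mem_filter.mp hu).2
  have hKc : K.card ≤ d := by
    by_contra hcon
    push Not at hcon
    have h1 := hgp.span hd K hcon
    apply hξ0
    apply LinearMap.ext
    intro x
    have hx : x ∈ Sp y K := by rw [h1]; exact Submodule.mem_top
    unfold Sp at hx
    have h2 : Submodule.span ℝ (y '' (K : Set ι)) ≤ LinearMap.ker ξ := by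
      rw [Submodule.span_le]
      rintro _ ⟨u, hu, rfl⟩
      exact hKz u hu
    exact h2 hx
  refine ⟨ξ, K, hξ0, filter_subset _ _, hKz, fun u hu huK => ?_, hKc, ?_⟩
  · refine lt_of_le_of_ne (hξY u hu) (fun h0 => huK (mem_filter.mpr ⟨hu, h0.symm⟩))
  · by_cases hKe : K = ∅
    · exact Or.inl hKe
    right
    -- Stiemke
    obtain ⟨b, hb, hb0, hbs⟩ := Fk.stiemke K y (by
      intro ζ hζ i hi
      by_contra hne
      have hpos : 0 < ζ (y i) := lt_of_le_of_ne (hζ i hi) (Ne.symm hne)
      -- a small multiple of `ζ`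
      obtain ⟨e, he0, he⟩ : ∃ e : ℝ, 0 < e ∧ ∀ u ∈ Y, u ∉ K → e * |ζ (y u)| < ξ (y u) := by
        by_cases hY : (Y \ K).Nonempty
        · obtain ⟨u0, hu0, hmin0⟩ := Finset.exists_min_image (Y \ K) (fun u => ξ (y u)) hY
          have hu0' := mem_sdiff.mp hu0
          have hp0 : 0 < ξ (y u0) := lt_of_le_of_ne (hξY u0 hu0'.1)
            (fun h0 => hu0'.2 (mem_filter.mpr ⟨hu0'.1, h0.symm⟩))
          have hM : 0 ≤ ∑ u ∈ Y, |ζ (y u)| := Finset.sum_nonneg fun u _ => abs_nonneg _
          refine ⟨ξ (y u0) * (1 + ∑ u ∈ Y, |ζ (y u)|)⁻¹, by positivity, fun u hu huK => ?_⟩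
          have h1 : |ζ (y u)| ≤ ∑ u ∈ Y, |ζ (y u)| :=
            Finset.single_le_sum (f := fun u => |ζ (y u)|) (fun u _ => abs_nonneg _) hu
          have h2 : |ζ (y u)| < 1 + ∑ u ∈ Y, |ζ (y u)| := by linarith
          have h3 : (1 + ∑ u ∈ Y, |ζ (y u)|)⁻¹ * |ζ (y u)| < 1 := by
            rw [inv_mul_lt_iff₀ (by linarith), mul_one]
            exact h2
          calc ξ (y u0) * (1 + ∑ u ∈ Y, |ζ (y u)|)⁻¹ * |ζ (y u)| =
              ξ (y u0) * ((1 + ∑ u ∈ Y, |ζ (y u)|)⁻¹ * |ζ (y u)|) := by ring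
            _ < ξ (y u0) * 1 := mul_lt_mul_of_pos_left h3 hp0
            _ ≤ ξ (y u) := by rw [mul_one]; exact hmin0 u (mem_sdiff.mpr ⟨hu, huK⟩)
        · rw [Finset.not_nonempty_iff_eq_empty, Finset.sdiff_eq_empty_iff_subset] at hY
          exact ⟨1, one_pos, fun u hu huK => absurd (hY hu) huK⟩
      have hnn : ∀ u ∈ Y, u ∉ K → 0 < (ξ + e • ζ) (y u) := by
        intro u hu huK
        have h1 := he u hu huK
        have h2 := neg_abs_le (ζ (y u))
        rw [LinearMap.add_apply, LinearMap.smul_apply, smul_eq_mul]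
        nlinarith
      have hK' : ∀ u ∈ K, (ξ + e • ζ) (y u) = e * ζ (y u) := by
        intro u hu
        rw [LinearMap.add_apply, LinearMap.smul_apply, smul_eq_mul, hKz u hu, zero_add]
      have hne0 : ξ + e • ζ ≠ 0 := by
        intro h0
        have h1 := hK' i hi
        rw [h0, LinearMap.zero_apply] at h1
        have := mul_pos he0 hpos
        linarith
      have h1 := hmin (ξ + e • ζ) hne0 (by
        intro u hu
        by_cases huK : u ∈ K
        · rw [hK' u huK]
          exact mul_nonneg he0.le (hζ u huK)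
        · exact (hnn u hu huK).le)
      have h2 : Y.filter (fun u => (ξ + e • ζ) (y u) = 0) ⊂ K := by
        refine Finset.ssubset_iff_subset_ne.mpr ⟨fun u hu => ?_, fun heq => ?_⟩
        · by_contra huK
          have := hnn u (mem_filter.mp hu).1 huK
          rw [(mem_filter.mp hu).2] at this
          exact lt_irrefl _ this
        · rw [← heq] at hi
          have h3 := (mem_filter.mp hi).2
          rw [LinearMap.add_apply, LinearMap.smul_apply, smul_eq_mul] at h3
          rw [heq] at hi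
          rw [hKz i hi, zero_add] at h3
          have := mul_pos he0 hpos
          linarith
      exact absurd (Finset.card_lt_card h2) (not_lt.mpr h1))
    have hKne : K.Nonempty := Finset.nonempty_iff_ne_empty.mpr hKe
    have hsum : 0 < ∑ i ∈ K, b i := Finset.sum_pos hb hKne
    have hsum' : ∑ i, b i = ∑ i ∈ K, b i :=
      (Finset.sum_subset (Finset.subset_univ K) (fun i _ hi => hb0 i hi)).symm
    have hbs' : ∑ i, b i • y i = 0 := by
      rw [← hbs]
      exact (Finset.sum_subset (Finset.subset_univ K)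
        (fun i _ hi => by rw [hb0 i hi, zero_smul])).symm
    refine ⟨fun i => (∑ i ∈ K, b i)⁻¹ * b i, fun i hi => mul_pos (inv_pos.mpr hsum) (hb i hi),
      fun i hi => by simp [hb0 i hi], ?_, ?_⟩
    · rw [← Finset.mul_sum, hsum', inv_mul_cancel₀ hsum.ne']
    · simp only [mul_smul]
      rw [← Finset.smul_sum, hbs', smul_zero]

/-- **4(c)**: the rest after the removal of `t < r` disjoint circuits is positively spanning. -/
theorem rest_spanning {d r t : ℕ} (hd : finrank ℝ V = d) {y : ι → V} (hgp : GPV d y)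
    (hNC : NC r y) (ht : t < r) (hcard : (d + 1) * (r - 1) + 2 ≤ Fintype.card ι)
    (Z : Fin t → Finset ι) (hZd : ∀ i j, i ≠ j → Disjoint (Z i) (Z j))
    (hZ : ∀ i, Circ y (Z i)) (hZc : ∀ i, (Z i).card ≤ d + 1) (η : V →ₗ[ℝ] ℝ) (hη : η ≠ 0) :
    ∃ u, (∀ i, u ∉ Z i) ∧ η (y u) < 0 := by
  classical
  by_contra hcon
  push Not at hcon
  set Y : Finset ι := univ \ univ.biUnion Z with hY
  have hYmem : ∀ u, u ∈ Y ↔ ∀ i, u ∉ Z i := by
    intro u
    simp [hY]
  obtain ⟨ξ, K, hξ0, hKY, hKz, hKpos, hKc, hK⟩ := exists_functional hd hgp Y η hη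
    (fun u hu => hcon u ((hYmem u).mp hu))
  -- the rows
  let B : Fin r → Finset ι := fun j => if h : j.1 < t then Z ⟨j, h⟩ else if j.1 = t then K else ∅
  have hBt : B ⟨t, ht⟩ = K := by simp [B]
  have hBc : ∀ j, B j = ∅ ∨ Circ y (B j) := by
    intro j
    by_cases h : j.1 < t
    · right
      simp only [B, dif_pos h]
      exact hZ _
    · by_cases h' : j.1 = t
      · simp only [B, dif_neg h, if_pos h']
        exact hK
      · left
        simp only [B, dif_neg h, if_neg h']
  have hBcard : ∀ j, (B j).card ≤ d + 1 := by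
    intro j
    by_cases h : j.1 < t
    · simp only [B, dif_pos h]
      exact hZc _
    · by_cases h' : j.1 = t
      · simp only [B, dif_neg h, if_pos h']
        omega
      · simp [B, dif_neg h, if_neg h']
  have hKZ : ∀ i, Disjoint K (Z i) := by
    intro i
    rw [Finset.disjoint_left]
    intro x hx
    exact (hYmem x).mp (hKY hx) i
  have hBB : ∀ i j, i ≠ j → Disjoint (B i) (B j) := by
    intro i j hij
    by_cases hi : i.1 < t
    · by_cases hj : j.1 < t
      · simp only [B, dif_pos hi, dif_pos hj]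
        exact hZd _ _ (fun h => hij (Fin.ext (by simpa using h)))
      · by_cases hj' : j.1 = t
        · simp only [B, dif_pos hi, dif_neg hj, if_pos hj']
          exact (hKZ _).symm
        · simp only [B, dif_neg hj, if_neg hj']
          exact disjoint_empty_right _
    · by_cases hi' : i.1 = t
      · by_cases hj : j.1 < t
        · simp only [B, dif_neg hi, if_pos hi', dif_pos hj]
          exact hKZ _
        · by_cases hj' : j.1 = t
          · exact absurd (Fin.ext (hi'.trans hj'.symm)) hij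
          · simp only [B, dif_neg hj, if_neg hj']
            exact disjoint_empty_right _
      · simp only [B, dif_neg hi, if_neg hi']
        exact disjoint_empty_left _
  set P : Finset ι := univ \ univ.biUnion B with hP
  have hPmem : ∀ u, u ∈ P ↔ ∀ j, u ∉ B j := by
    intro u
    simp [hP]
  have hPpos : ∀ u ∈ P, 0 < ξ (y u) := by
    intro u hu
    rw [hPmem] at hu
    refine hKpos u ?_ ?_
    · rw [hYmem]
      intro i
      have := hu ⟨i, lt_trans i.2 ht⟩
      simpa [B, i.2] using this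
    · have := hu ⟨t, ht⟩
      rwa [hBt] at this
  have hr : 1 ≤ r := by omega
  have : Nonempty (Fin r) := ⟨⟨0, by omega⟩⟩
  have hinf : (⨅ j, Sp y (B j)) = ⊥ := by
    rw [eq_bot_iff]
    intro v hv
    rw [Submodule.mem_iInf] at hv
    rw [Submodule.mem_bot]
    exact hNC.rows hr B (fun _ => ∅) hBB (fun _ _ _ => disjoint_empty_left _)
      (fun _ _ => disjoint_empty_left _) hBc (fun _ => 0) (fun _ => le_rfl) v
      (fun j => by simpa using hv j)
  have hbU : (univ.biUnion B).card = ∑ j, (B j).card :=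
    Finset.card_biUnion (fun i _ j _ hij => hBB i j hij)
  have hPc : P.card + ∑ j, (B j).card = Fintype.card ι := by
    rw [hP, Finset.card_sdiff_of_subset (Finset.subset_univ _), hbU, Finset.card_univ]
    have : ∑ j, (B j).card ≤ Fintype.card ι := by
      rw [← hbU]; exact Finset.card_le_univ _
    omega
  have hcod : ∑ j, finrank ℝ (V ⧸ Sp y (B j)) + ∑ j, (B j).card ≤ r * (d + 1) := by
    rw [← Finset.sum_add_distrib]
    refine (Finset.sum_le_sum fun j _ => codim_le hd hgp (hBc j) (hBcard j)).trans ?_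
    simp
  have hbot : finrank ℝ (V ⧸ (⨅ j, Sp y (B j))) = d := by
    rw [hinf]
    have := Submodule.finrank_quotient_add_finrank (⊥ : Submodule ℝ V)
    rw [finrank_bot, add_zero] at this
    rw [this, hd]
  have hrd : r * (d + 1) = (d + 1) * (r - 1) + (d + 1) := by
    obtain ⟨r', rfl⟩ : ∃ r', r = r' + 1 := ⟨r - 1, by omega⟩
    simp only [Nat.add_sub_cancel]; ring
  obtain ⟨f, c, v, hc, hv1, hvB⟩ := lemmaH (J := Fin r) (ι := P) (fun j => Sp y (B j)) ξ
    (by rw [hinf]; intro x hx; rw [Submodule.mem_bot] at hx; rw [hx, map_zero])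
    (fun i => y i) (fun i => hPpos i i.2) (by rw [hbot, Fintype.card_coe]; omega)
  -- a conic solution
  let Ps : Fin r → Finset ι := fun j => (univ.filter (fun i : P => f i = j)).map
    (Function.Embedding.subtype _)
  let c' : ι → ℝ := fun i => if hi : i ∈ P then c ⟨i, hi⟩ else 0
  have hv0 := hNC.rows hr B Ps hBB (by
      intro i j hij
      rw [Finset.disjoint_left]
      intro x hx hx'
      obtain ⟨a, ha, rfl⟩ := Finset.mem_map.mp hx
      obtain ⟨b, hb, hab⟩ := Finset.mem_map.mp hx'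
      have hab' : b = a := Subtype.ext hab
      rw [Finset.mem_filter] at ha hb
      rw [hab'] at hb
      exact hij (ha.2.symm.trans hb.2)) (by
      intro i j
      rw [Finset.disjoint_left]
      intro x hx hx'
      obtain ⟨a, -, rfl⟩ := Finset.mem_map.mp hx
      exact (hPmem _).mp a.2 j hx') hBc c' (by
      intro i
      by_cases hi : i ∈ P
      · simp only [c', dif_pos hi]; exact hc _
      · simp only [c', dif_neg hi]; exact le_rfl) v (by
      intro j
      have h1 := hvB j
      have h2 : ∑ x ∈ Ps j, c' x • y x = ∑ i ∈ univ.filter (fun i => f i = j), c i • y i := by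
        simp only [Ps, Finset.sum_map]
        refine Finset.sum_congr rfl (fun i _ => ?_)
        simp [c']
      rw [h2]
      exact h1)
  rw [hv0, map_zero] at hv1
  exact zero_ne_one hv1

end

section

variable {ι V : Type*} [Fintype ι] [NormedAddCommGroup V] [NormedSpace ℝ V]
  [FiniteDimensional ℝ V]

/-- **4(d)**: `r` disjoint circuits have total excess at least `2 d`. -/
theorem excess_ge {d r : ℕ} (hd : finrank ℝ V = d) (hd1 : 1 ≤ d) {y : ι → V} (hgp : GPV d y)
    (hNC : NC r y) (hr : 1 ≤ r) (hcard : Fintype.card ι = (d + 1) * (r - 1) + 2)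
    (Z : Fin r → Finset ι) (hZd : ∀ i j, i ≠ j → Disjoint (Z i) (Z j))
    (hZ : ∀ i, Circ y (Z i)) (hZc : ∀ i, (Z i).card ≤ d + 1) :
    2 * d ≤ ∑ j, (d + 1 - (Z j).card) := by
  classical
  by_contra hcon
  push Not at hcon
  have : Nonempty (Fin r) := ⟨⟨0, by omega⟩⟩
  set P : Finset ι := univ \ univ.biUnion Z with hP
  have hPmem : ∀ u, u ∈ P ↔ ∀ j, u ∉ Z j := by
    intro u
    simp [hP]
  have hBc : ∀ j, Z j = ∅ ∨ Circ y (Z j) := fun j => Or.inr (hZ j)
  have hinf : (⨅ j, Sp y (Z j)) = ⊥ := by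
    rw [eq_bot_iff]
    intro v hv
    rw [Submodule.mem_iInf] at hv
    rw [Submodule.mem_bot]
    exact hNC.rows hr Z (fun _ => ∅) hZd (fun _ _ _ => disjoint_empty_left _)
      (fun _ _ => disjoint_empty_left _) hBc (fun _ => 0) (fun _ => le_rfl) v
      (fun j => by simpa using hv j)
  have hbU : (univ.biUnion Z).card = ∑ j, (Z j).card :=
    Finset.card_biUnion (fun i _ j _ hij => hZd i j hij)
  have hPc : P.card + ∑ j, (Z j).card = Fintype.card ι := by
    rw [hP, Finset.card_sdiff_of_subset (Finset.subset_univ _), hbU, Finset.card_univ]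
    have : ∑ j, (Z j).card ≤ Fintype.card ι := by
      rw [← hbU]; exact Finset.card_le_univ _
    omega
  have hcod : ∀ j, finrank ℝ (V ⧸ Sp y (Z j)) = d + 1 - (Z j).card := by
    intro j
    have h2 := Submodule.finrank_quotient_add_finrank (Sp y (Z j))
    have h1 := hgp.finrank_circ (hZ j) (hZc j)
    have := hZc j
    omega
  have hN : ∑ j, (d + 1 - (Z j).card) + ∑ j, (Z j).card = r * (d + 1) := by
    rw [← Finset.sum_add_distrib,
      Finset.sum_congr rfl (fun j _ => Nat.sub_add_cancel (hZc j))]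
    simp
  have hrd : r * (d + 1) = (d + 1) * (r - 1) + (d + 1) := by
    obtain ⟨r', rfl⟩ : ∃ r', r = r' + 1 := ⟨r - 1, by omega⟩
    simp only [Nat.add_sub_cancel]; ring
  have hbot : finrank ℝ (V ⧸ (⊥ : Submodule ℝ V)) = d := by
    have := Submodule.finrank_quotient_add_finrank (⊥ : Submodule ℝ V)
    rw [finrank_bot, add_zero] at this
    rw [this, hd]
  obtain ⟨η, hη0, -, hηpos⟩ := smallHalf (ι := P) (⊥ : Submodule ℝ V) (fun i => y i)
    (by rw [hbot]; omega) (by rw [hbot, Fintype.card_coe]; omega)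
  obtain ⟨f, c, v, hc, hv1, hvB⟩ := closedHalf (J := Fin r) (ι := P) (fun j => Sp y (Z j)) η hη0
    (by rw [hinf]; intro x hx; rw [Submodule.mem_bot] at hx; rw [hx, map_zero])
    (fun i => y i) hηpos (by
      intro j Q hQ
      rw [hcod j] at hQ
      have h1 := hgp.indep (hZ j) (Q.map (Function.Embedding.subtype _)) (by
        rw [Finset.disjoint_right]
        intro x hx hx'
        obtain ⟨a, -, rfl⟩ := Finset.mem_map.mp hx
        exact (hPmem _).mp a.2 j hx') (by
        rw [Finset.card_map]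
        have := hZc j
        omega)
      exact h1.comp (fun i : Q => (⟨(i : P), Finset.mem_map_of_mem _ i.2⟩ :
        (Q.map (Function.Embedding.subtype (fun x => x ∈ P)) : Finset ι)))
        (fun a b hab => Subtype.ext (Subtype.ext (Subtype.mk.inj hab))))
    (by
      rw [Finset.sum_congr rfl (fun j _ => hcod j), hinf, hbot, Fintype.card_coe]
      omega)
  let Ps : Fin r → Finset ι := fun j => (univ.filter (fun i : P => f i = j)).map
    (Function.Embedding.subtype _)
  let c' : ι → ℝ := fun i => if hi : i ∈ P then c ⟨i, hi⟩ else 0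
  have hv0 := hNC.rows hr Z Ps hZd (by
      intro i j hij
      rw [Finset.disjoint_left]
      intro x hx hx'
      obtain ⟨a, ha, rfl⟩ := Finset.mem_map.mp hx
      obtain ⟨b, hb, hab⟩ := Finset.mem_map.mp hx'
      have hab' : b = a := Subtype.ext hab
      rw [Finset.mem_filter] at ha hb
      rw [hab'] at hb
      exact hij (ha.2.symm.trans hb.2)) (by
      intro i j
      rw [Finset.disjoint_left]
      intro x hx hx'
      obtain ⟨a, -, rfl⟩ := Finset.mem_map.mp hx
      exact (hPmem _).mp a.2 j hx') hBc c' (by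
      intro i
      by_cases hi : i ∈ P
      · simp only [c', dif_pos hi]; exact hc _
      · simp only [c', dif_neg hi]; exact le_rfl) v (by
      intro j
      have h1 := hvB j
      have h2 : ∑ x ∈ Ps j, c' x • y x = ∑ i ∈ univ.filter (fun i => f i = j), c i • y i := by
        simp only [Ps, Finset.sum_map]
        refine Finset.sum_congr rfl (fun i _ => ?_)
        simp [c']
      rw [h2]
      exact h1)
  rw [hinf, hv0] at hv1
  exact hv1 (Submodule.zero_mem _)

end

end Pool.Agent.MPa0a351
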