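import Pool.Agent.Lib.MP_a0a351_co.Conf
import Pool.Agent.Lib.MP_a0a351_co.LemH

/-!
Tverberg partition and Caratheodory reduction (module TVB of MP_a0a351_co).
-/

set_option autoImplicit false

open Module Finset

namespace Pool.Agent.MPa0a351

namespace TvbAux

variable {ι V : Type*} [Fintype ι] [AddCommGroup V] [Module ℝ V] [FiniteDimensional ℝ V]

/-- Caratheodory reduction in vector form. -/
theorem exists_small {d : ℕ} (hd : finrank ℝ V = d) (y : ι → V) (T : Finset ι) (b : ι → ℝ)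
    (hb : ∀ i, 0 ≤ b i) (hb0 : ∀ i, i ∉ T → b i = 0) (hs : ∑ i, b i = 1)
    (hsum : ∑ i, b i • y i = 0) : ∃ T' ⊆ T, T'.card ≤ d + 1 ∧ Circ y T' := by
  obtain ⟨x, -, hx⟩ : ∃ x ∈ univ, 0 < b x := by
    by_contra hcon
    push Not at hcon
    have : ∑ i, b i ≤ 0 := Finset.sum_nonpos (fun i hi => hcon i hi)
    linarith
  obtain ⟨T', -, hT'b, hcirc, hcard⟩ := exists_circ_mem hd b hb hsum x hx
  refine ⟨T', fun i hi => ?_, hcard, hcirc⟩
  by_contra hh
  have := hT'b i hi
  rw [hb0 i hh] at this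
  exact lt_irrefl _ this

end TvbAux

open TvbAux

theorem exists_preState {V ι : Type*} [AddCommGroup V] [Module ℝ V] [FiniteDimensional ℝ V]
    [Fintype ι] (d r : ℕ) (hd : finrank ℝ V = d) (hr : 1 ≤ r) (X : ι → V)
    (hcard : (d + 1) * (r - 1) + 1 ≤ Fintype.card ι) :
    ∃ (o : V) (A : Fin r → Finset ι), PreState d X o A := by
  classical
  have : Nonempty (Fin r) := ⟨⟨0, by omega⟩⟩
  have hfr : finrank ℝ (V × ℝ) = d + 1 := by
    rw [Module.finrank_prod, hd, Module.finrank_self]
  have hquot : finrank ℝ ((V × ℝ) ⧸ (⊥ : Submodule ℝ (V × ℝ))) = d + 1 := by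
    rw [← hfr]
    have := Submodule.finrank_quotient_add_finrank (⊥ : Submodule ℝ (V × ℝ))
    rw [finrank_bot, add_zero] at this
    exact this
  have hinf : (⨅ _j : Fin r, (⊥ : Submodule ℝ (V × ℝ))) = ⊥ := by
    rw [eq_bot_iff]
    exact iInf_le (fun _ : Fin r => (⊥ : Submodule ℝ (V × ℝ))) ⟨0, by omega⟩
  obtain ⟨f, c, v, hc, hv, hvW⟩ := lemmaH (J := Fin r) (ι := ι) (fun _ => (⊥ : Submodule ℝ (V × ℝ)))
    (LinearMap.snd ℝ V ℝ) (by rw [hinf]; intro x hx; rw [Submodule.mem_bot] at hx; rw [hx]; simp)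
    (fun i => (X i, (1 : ℝ))) (fun i => by simp) (by
      rw [hinf, hquot]
      simp only [hquot, Finset.sum_const, Finset.card_univ, Fintype.card_fin, smul_eq_mul]
      obtain ⟨r', rfl⟩ : ∃ r', r = r' + 1 := ⟨r - 1, by omega⟩
      simp only [Nat.add_sub_cancel] at hcard
      have : (r' + 1) * (d + 1) = (d + 1) * r' + (d + 1) := by ring
      omega)
  refine ⟨v.1, ?_⟩
  have hj : ∀ j : Fin r, ∃ A : Finset ι, A ⊆ univ.filter (fun i => f i = j) ∧ A.card ≤ d + 1 ∧
      Circ (fun x => X x - v.1) A := by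
    intro j
    have h1 := hvW j
    rw [Submodule.mem_bot, sub_eq_zero] at h1
    have h2 : v.1 = ∑ i ∈ univ.filter (fun i => f i = j), c i • X i := by
      conv_lhs => rw [h1]
      rw [Prod.fst_sum]
      rfl
    have h3 : (1 : ℝ) = ∑ i ∈ univ.filter (fun i => f i = j), c i := by
      have hv' : v.2 = 1 := hv
      rw [← hv']
      conv_lhs => rw [h1]
      rw [Prod.snd_sum]
      simp
    set b : ι → ℝ := fun i => if f i = j then c i else 0 with hb
    have hbs : ∑ i, b i = 1 := by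
      rw [h3, Finset.sum_filter]
    have hby : ∑ i, b i • (X i - v.1) = 0 := by
      simp only [smul_sub, Finset.sum_sub_distrib, ← Finset.sum_smul, hbs, one_smul]
      rw [sub_eq_zero]
      conv_rhs => rw [h2]
      rw [Finset.sum_filter]
      exact Finset.sum_congr rfl (fun i _ => by simp only [hb]; split_ifs <;> simp)
    exact exists_small hd (fun x => X x - v.1) (univ.filter (fun i => f i = j)) b
      (fun i => by simp only [hb]; split_ifs; exacts [hc i, le_rfl])
      (fun i hi => by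
        have : ¬ f i = j := fun hh => hi (by simp [hh])
        simp only [hb, if_neg this]) hbs hby |>.imp fun A hA => ⟨hA.1, hA.2.1, hA.2.2⟩
  choose A hAsub hAc hAcirc using hj
  refine ⟨A, ?_, hAc, hAcirc⟩
  intro i j hij
  rw [Finset.disjoint_left]
  intro x hx hx'
  have h1 := (Finset.mem_filter.mp (hAsub i hx)).2
  have h2 := (Finset.mem_filter.mp (hAsub j hx')).2
  exact hij (h1.symm.trans h2)

end Pool.Agent.MPa0a351
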