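import Pool.Agent.Lib.MP_a0a351_co.LPcore
import Pool.Agent.Lib.MP_a0a351_co.Rest
import Pool.Agent.Lib.MP_a0a351_co.NoConic
import Pool.Agent.Lib.MP_a0a351_co.Tvb
import Pool.Agent.Lib.MP_a0a351_co.Generic

/-!
The LP bound, the greedy choice of circuits and the theorem `k = 1` (MP_a0a351_co).
-/

set_option autoImplicit false

open Module Finset

namespace Pool.Agent.MPa0a351

namespace LP

variable {ι V : Type*} [Fintype ι] [AddCommGroup V] [Module ℝ V] [FiniteDimensional ℝ V]

theorem two_mul_choose_two (n : ℕ) : 2 * n.choose 2 = n * (n - 1) := by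
  rw [Nat.choose_two_right]
  exact Nat.mul_div_cancel' (Nat.even_mul_pred_self n).two_dvd

omit [Fintype ι] in
/-- Pair count. -/
theorem pair_count {α : Type*} [DecidableEq α] (S : Finset α) (T : α → Finset ι) (Z : Finset ι)
    (c : ℕ) [DecidableEq ι] (hTZ : ∀ P ∈ S, T P ⊆ Z) (hT : ∀ P ∈ S, c + 1 ≤ (T P).card)
    (hTT : ∀ P ∈ S, ∀ P' ∈ S, P ≠ P' → (T P ∩ T P').card ≤ 1) :
    S.card * (c * (c + 1)) ≤ Z.card * (Z.card - 1) := by
  have h1 : (S.biUnion (fun P => (T P).powersetCard 2)).card = ∑ P ∈ S, (T P).card.choose 2 := by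
    rw [Finset.card_biUnion]
    · exact Finset.sum_congr rfl fun P _ => Finset.card_powersetCard 2 (T P)
    · intro P hP P' hP' hne
      rw [Function.onFun, Finset.disjoint_left]
      intro A hA hA'
      rw [Finset.mem_powersetCard] at hA hA'
      have h2 : A ⊆ T P ∩ T P' := Finset.subset_inter hA.1 hA'.1
      have h3 := Finset.card_le_card h2
      have h4 := hTT P hP P' hP' hne
      omega
  have h2 : (S.biUnion (fun P => (T P).powersetCard 2)).card ≤ Z.card.choose 2 := by
    rw [← Finset.card_powersetCard]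
    refine Finset.card_le_card fun A hA => ?_
    rw [Finset.mem_biUnion] at hA
    obtain ⟨P, hP, hA⟩ := hA
    rw [Finset.mem_powersetCard] at hA ⊢
    exact ⟨hA.1.trans (hTZ P hP), hA.2⟩
  have h3 : S.card * (c + 1).choose 2 ≤ ∑ P ∈ S, (T P).card.choose 2 := by
    rw [← smul_eq_mul, ← Finset.sum_const]
    exact Finset.sum_le_sum fun P hP => Nat.choose_le_choose 2 (hT P hP)
  have h4 := two_mul_choose_two (c + 1)
  have h5 := two_mul_choose_two Z.card
  have h6 : S.card * (c + 1).choose 2 ≤ Z.card.choose 2 := by omega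
  rw [Nat.add_sub_cancel] at h4
  calc S.card * (c * (c + 1)) = 2 * (S.card * (c + 1).choose 2) := by
        rw [mul_comm c (c + 1), ← h4]
        ring
    _ ≤ 2 * Z.card.choose 2 := Nat.mul_le_mul_left 2 h6
    _ = Z.card * (Z.card - 1) := h5

/-- **The LP lemma.** -/
theorem lp_bound {d c : ℕ} (hd : finrank ℝ V = d) {y : ι → V} [DecidableEq ι] (hgp : GPV d y)
    {Z F : Finset ι} (hZF : Disjoint Z F) (hZ : Circ y Z) (hZc : Z.card + c = d + 1)
    (hspan : ∀ η : V →ₗ[ℝ] ℝ, η ≠ 0 → (∀ x ∈ Sp y Z, η x = 0) → ∃ u ∈ F, η (y u) < 0)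
    (hex : ∀ T ⊆ Z ∪ F, Circ y T → T.card ≤ d + 1 → T.card ≤ Z.card) :
    (F.card - c) * (c * (c + 1)) ≤ (d + 1 - c) * (d - c) := by
  classical
  obtain ⟨S, T, h1, h2, h3⟩ := lp_core hd hgp hZF hZ hZc hspan hex
  have h4 := pair_count S T Z c (fun P hP => (h2 P hP).2.2.1) (fun P hP => (h2 P hP).2.2.2.1) h3
  have h5 : F.card - c ≤ S.card := by omega
  have h6 : Z.card = d + 1 - c := by omega
  have h7 : Z.card - 1 = d - c := by omega
  rw [h7, h6] at h4
  exact (Nat.mul_le_mul_right _ h5).trans h4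

end LP

/-- The numbers. -/
theorem greedy_numbers (D r : ℕ) (hr : 1 ≤ r) (hD : 1 ≤ D) (c : ℕ → ℕ)
    (hmono : ∀ s, s + 1 < r → c s ≤ c (s + 1)) (hcD : ∀ s, s < r → c s ≤ D)
    (hN : 2 * D ≤ ∑ s ∈ range r, c s)
    (hlp : ∀ s, s < r → (((D : ℤ) + 1) * ((r : ℤ) - 2 - s) + 2 + ∑ i ∈ range s, (c i : ℤ)) *
      ((c s : ℤ) * (c s + 1)) ≤ ((D : ℤ) + 1 - c s) * (D - c s)) : False := by
  classical
  have hmono' : ∀ s t, s ≤ t → t < r → c s ≤ c t := by
    intro s t hst
    induction t, hst using Nat.le_induction with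
    | base => exact fun _ => le_rfl
    | succ t hst ih => exact fun ht => (ih (by omega)).trans (hmono t ht)
  obtain ⟨r', rfl⟩ : ∃ r', r = r' + 1 := ⟨r - 1, by omega⟩
  set m := c r' with hm
  have hmD : m ≤ D := hcD r' (by omega)
  -- the last circuit
  have hlast : (m : ℤ) * (m + 2) ≤ D := by
    have h1 := hlp r' (by omega)
    have h2 : (2 * D : ℤ) ≤ ∑ s ∈ range r', (c s : ℤ) + m := by
      rw [Finset.sum_range_succ] at hN
      exact_mod_cast hN
    rw [← hm] at h1
    have h3 : ((D : ℤ) + 1) * (((r' + 1 : ℕ) : ℤ) - 2 - r') = -((D : ℤ) + 1) := by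
      push_cast
      ring
    rw [h3] at h1
    have h4 : (0 : ℤ) ≤ (m : ℤ) * (m + 1) := by positivity
    have h5 : ((D : ℤ) + 1 - m) * ((m : ℤ) * (m + 1)) ≤ ((D : ℤ) + 1 - m) * (D - m) :=
      le_trans (mul_le_mul_of_nonneg_right (by linarith) h4) h1
    have h6 : (0 : ℤ) < (D : ℤ) + 1 - m := by
      have : (m : ℤ) ≤ D := by exact_mod_cast hmD
      linarith
    have h7 := le_of_mul_le_mul_left h5 h6
    linarith
  -- the number of circuits of excess at least `e`
  have hR : ∀ e, 1 ≤ e → e ≤ m →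
      (((range (r' + 1)).filter (fun s => e ≤ c s)).card : ℚ) ≤ 2 + D * (1 / e - 1 / (e + 1)) := by
    intro e he1 hem
    set A := (range (r' + 1)).filter (fun s => e ≤ c s) with hA
    have hAne : A.Nonempty := ⟨r', mem_filter.mpr ⟨mem_range.mpr (by omega), hem⟩⟩
    obtain ⟨s, hsA, hsmin⟩ := Finset.exists_min_image A (fun s => s) hAne
    obtain ⟨hsr, hse⟩ := mem_filter.mp hsA
    rw [mem_range] at hsr
    have hAs : A = Finset.Ico s (r' + 1) := by
      ext t
      rw [mem_Ico, hA, mem_filter, mem_range]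
      constructor
      · intro ht
        exact ⟨hsmin t (mem_filter.mpr ⟨mem_range.mpr ht.1, ht.2⟩), ht.1⟩
      · intro ht
        exact ⟨ht.2, hse.trans (hmono' s t ht.1 ht.2)⟩
    have hcard : (A.card : ℤ) = (r' : ℤ) + 1 - s := by
      rw [hAs, Nat.card_Ico]
      push_cast [Nat.cast_sub hsr.le]
      ring
    have h1 := hlp s hsr
    have hcs : (c s : ℤ) ≤ D := by exact_mod_cast hcD s hsr
    have hecs : (e : ℤ) ≤ c s := by exact_mod_cast hse
    have he1' : (1 : ℤ) ≤ e := by exact_mod_cast he1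
    have hsum : (0 : ℤ) ≤ ∑ i ∈ range s, (c i : ℤ) := by positivity
    -- the integer inequality
    have hint : ((A.card : ℤ) - 2) * ((e : ℤ) * (e + 1)) ≤ D := by
      by_cases hA2 : (A.card : ℤ) ≤ 2
      · have h2 : (0 : ℤ) ≤ (e : ℤ) * (e + 1) := by positivity
        nlinarith
      · push Not at hA2
        have h3 : ((D : ℤ) + 1) * ((A.card : ℤ) - 2) ≤
            ((D : ℤ) + 1) * (((r' + 1 : ℕ) : ℤ) - 2 - s) + 2 + ∑ i ∈ range s, (c i : ℤ) := by
          rw [hcard]
          push_cast
          nlinarith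
        have h4 : (e : ℤ) * (e + 1) ≤ (c s : ℤ) * (c s + 1) := by nlinarith
        have h5 : (0 : ℤ) ≤ ((D : ℤ) + 1) * ((A.card : ℤ) - 2) := by
          have : (0 : ℤ) ≤ D := by positivity
          nlinarith
        have h6 : ((D : ℤ) + 1) * ((A.card : ℤ) - 2) * ((e : ℤ) * (e + 1)) ≤
            ((D : ℤ) + 1 - c s) * (D - c s) := by
          calc ((D : ℤ) + 1) * ((A.card : ℤ) - 2) * ((e : ℤ) * (e + 1)) ≤
                ((D : ℤ) + 1) * ((A.card : ℤ) - 2) * ((c s : ℤ) * (c s + 1)) :=
                mul_le_mul_of_nonneg_left h4 h5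
            _ ≤ _ := (mul_le_mul_of_nonneg_right h3 (by positivity)).trans h1
        have h7 : ((D : ℤ) + 1 - c s) * (D - c s) ≤ ((D : ℤ) + 1) * D := by
          have h8 : (0 : ℤ) ≤ c s := by positivity
          nlinarith
        have h9 : ((D : ℤ) + 1) * (((A.card : ℤ) - 2) * ((e : ℤ) * (e + 1))) ≤ ((D : ℤ) + 1) * D := by
          rw [← mul_assoc]
          exact h6.trans h7
        exact le_of_mul_le_mul_left h9 (by positivity)
    have hintQ : ((A.card : ℚ) - 2) * ((e : ℚ) * (e + 1)) ≤ D := by exact_mod_cast hint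
    have he0 : (0 : ℚ) < e := by exact_mod_cast he1
    have h10 : (1 / (e : ℚ) - 1 / (e + 1)) = 1 / (e * (e + 1)) := by
      field_simp
      ring
    rw [h10]
    have h11 : (0 : ℚ) < (e : ℚ) * (e + 1) := by positivity
    have h12 : (A.card : ℚ) - 2 ≤ D * (1 / (e * (e + 1))) := by
      rw [mul_one_div, le_div_iff₀ h11]
      exact hintQ
    linarith
  -- double counting
  have hdouble : ∑ s ∈ range (r' + 1), c s =
      ∑ e ∈ Finset.Icc 1 m, ((range (r' + 1)).filter (fun s => e ≤ c s)).card := by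
    have h1 : ∀ s ∈ range (r' + 1), c s = ∑ e ∈ Finset.Icc 1 m, if e ≤ c s then 1 else 0 := by
      intro s hs
      have hsm : c s ≤ m := hmono' s r' (by have := mem_range.mp hs; omega) (by omega)
      rw [← Finset.sum_filter, Finset.sum_const, smul_eq_mul, mul_one]
      have : (Finset.Icc 1 m).filter (fun e => e ≤ c s) = Finset.Icc 1 (c s) := by
        ext e
        simp only [mem_filter, mem_Icc]
        omega
      rw [this, Nat.card_Icc]
      omega
    rw [Finset.sum_congr rfl h1, Finset.sum_comm]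
    refine Finset.sum_congr rfl fun e _ => ?_
    rw [Finset.card_filter]
  have htele : ∀ M : ℕ, ∑ e ∈ Finset.Icc 1 M, ((2 : ℚ) + D * (1 / e - 1 / (e + 1))) =
      2 * M + D * (1 - 1 / (M + 1)) := by
    intro M
    induction M with
    | zero => simp
    | succ M ih =>
      rw [Finset.sum_Icc_succ_top (by omega), ih]
      push_cast
      ring
  have hNQ : (2 * D : ℚ) ≤ 2 * m + D * (1 - 1 / (m + 1)) := by
    have h1 : (2 * D : ℚ) ≤ ∑ s ∈ range (r' + 1), (c s : ℚ) := by exact_mod_cast hN
    have h2 : (∑ s ∈ range (r' + 1), (c s : ℚ)) =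
        ∑ e ∈ Finset.Icc 1 m, (((range (r' + 1)).filter (fun s => e ≤ c s)).card : ℚ) := by
      exact_mod_cast hdouble
    rw [← htele m]
    refine (h1.trans h2.le).trans (Finset.sum_le_sum fun e he => ?_)
    rw [mem_Icc] at he
    exact hR e he.1 he.2
  have hlastQ : (m : ℚ) * (m + 2) ≤ D := by exact_mod_cast hlast
  have hDQ : (1 : ℚ) ≤ D := by exact_mod_cast hD
  have hmQ : (0 : ℚ) ≤ m := by positivity
  have h3 : (0 : ℚ) < D * (1 / (m + 1)) := by positivity
  nlinarith

section

variable {ι V : Type*} [Fintype ι] [NormedAddCommGroup V] [NormedSpace ℝ V]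
  [FiniteDimensional ℝ V]

/-- Greedy families of circuits. -/
structure Greedy (d : ℕ) (y : ι → V) (t : ℕ) (Z : ℕ → Finset ι) : Prop where
  disj : ∀ i j, i < t → j < t → i ≠ j → Disjoint (Z i) (Z j)
  circ : ∀ i, i < t → Circ y (Z i)
  card : ∀ i, i < t → (Z i).card ≤ d + 1
  max : ∀ s, s < t → ∀ T, Circ y T → T.card ≤ d + 1 → (∀ i, i < s → Disjoint T (Z i)) →
    T.card ≤ (Z s).card

theorem rest_spanning_nat {d r t : ℕ} (hd : finrank ℝ V = d) {y : ι → V} (hgp : GPV d y)
    (hNC : NC r y) (ht : t < r) (hcard : (d + 1) * (r - 1) + 2 ≤ Fintype.card ι)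
    {Z : ℕ → Finset ι} (hZd : ∀ i j, i < t → j < t → i ≠ j → Disjoint (Z i) (Z j))
    (hZ : ∀ i, i < t → Circ y (Z i)) (hZc : ∀ i, i < t → (Z i).card ≤ d + 1)
    (η : V →ₗ[ℝ] ℝ) (hη : η ≠ 0) : ∃ u, (∀ i, i < t → u ∉ Z i) ∧ η (y u) < 0 := by
  obtain ⟨u, h1, h2⟩ := rest_spanning hd hgp hNC ht hcard (fun i : Fin t => Z i)
    (fun i j hij => hZd i j i.2 j.2 (fun h => hij (Fin.ext h))) (fun i => hZ i i.2)
    (fun i => hZc i i.2) η hη
  exact ⟨u, fun i hi => h1 ⟨i, hi⟩, h2⟩

theorem exists_greedy {d r : ℕ} (hd : finrank ℝ V = d) (hd1 : 1 ≤ d) {y : ι → V}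
    (hgp : GPV d y) (hNC : NC r y) (hcard : (d + 1) * (r - 1) + 2 ≤ Fintype.card ι) :
    ∀ t, t ≤ r → ∃ Z : ℕ → Finset ι, Greedy d y t Z := by
  classical
  intro t
  induction t with
  | zero => exact fun _ => ⟨fun _ => ∅, ⟨fun i _ hi => absurd hi (by omega),
      fun i hi => absurd hi (by omega), fun i hi => absurd hi (by omega),
      fun i hi => absurd hi (by omega)⟩⟩
  | succ t ih =>
    intro ht
    obtain ⟨Z, hZ⟩ := ih (by omega)
    have hrest := rest_spanning_nat hd hgp hNC (by omega : t < r) hcard hZ.disj hZ.circ hZ.card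
    -- a circuit in the rest
    set Y : Finset ι := univ.filter (fun u => ∀ i, i < t → u ∉ Z i) with hY
    have hYmem : ∀ u, u ∈ Y ↔ ∀ i, i < t → u ∉ Z i := fun u => by simp [hY]
    have hex : ∃ T : Finset ι, T ⊆ Y ∧ Circ y T ∧ T.card ≤ d + 1 := by
      obtain ⟨b, hb, hb0, hbs⟩ := Fk.stiemke Y y (by
        intro ξ hξ i hi
        by_contra hne
        obtain ⟨u, hu, hu0⟩ := hrest ξ (by rintro rfl; exact hne rfl)
        exact absurd hu0 (not_lt.mpr (hξ u ((hYmem u).mpr hu))))
      have hbs' : ∑ i, b i • y i = 0 := by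
        rw [← hbs]
        exact (Finset.sum_subset (Finset.subset_univ Y)
          (fun i _ hi => by rw [hb0 i hi, zero_smul])).symm
      have hbnn : ∀ i, 0 ≤ b i := fun i => by
        by_cases hi : i ∈ Y
        · exact (hb i hi).le
        · rw [hb0 i hi]
      obtain ⟨η, hη⟩ : ∃ η : V →ₗ[ℝ] ℝ, η ≠ 0 := by
        have : Nontrivial V := Module.nontrivial_of_finrank_pos (R := ℝ) (by omega)
        obtain ⟨v, hv⟩ := exists_ne (0 : V)
        by_contra hcon
        push Not at hcon
        exact hv ((forall_dual_apply_eq_zero_iff ℝ v).mp fun φ => by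
          have := hcon φ
          rw [this, LinearMap.zero_apply])
      obtain ⟨u, hu, -⟩ := hrest η hη
      obtain ⟨T, -, hTb, hT, hTc⟩ := exists_circ_mem hd b hbnn hbs' u (hb u ((hYmem u).mpr hu))
      refine ⟨T, fun i hi => ?_, hT, hTc⟩
      by_contra hiY
      have := hTb i hi
      rw [hb0 i hiY] at this
      exact lt_irrefl _ this
    obtain ⟨T0, hT0⟩ := hex
    obtain ⟨T, hT, hTmax⟩ := Finset.exists_max_image
      (univ.filter (fun T : Finset ι => T ⊆ Y ∧ Circ y T ∧ T.card ≤ d + 1)) (fun T => T.card)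
      ⟨T0, mem_filter.mpr ⟨mem_univ _, hT0⟩⟩
    obtain ⟨-, hTY, hTc, hTcard⟩ := mem_filter.mp hT
    refine ⟨Function.update Z t T, ⟨?_, ?_, ?_, ?_⟩⟩
    · have hdis : ∀ i, i < t → Disjoint T (Z i) := fun i hi => by
        rw [Finset.disjoint_left]
        intro x hx
        exact (hYmem x).mp (hTY hx) i hi
      intro i j hi hj hij
      by_cases hit : i = t
      · subst hit
        rw [Function.update_self, Function.update_of_ne (Ne.symm hij)]
        exact hdis j (by omega)
      · by_cases hjt : j = t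
        · subst hjt
          rw [Function.update_self, Function.update_of_ne hij]
          exact (hdis i (by omega)).symm
        · rw [Function.update_of_ne hit, Function.update_of_ne hjt]
          exact hZ.disj i j (by omega) (by omega) hij
    · intro i hi
      by_cases hit : i = t
      · subst hit
        rw [Function.update_self]
        exact hTc
      · rw [Function.update_of_ne hit]
        exact hZ.circ i (by omega)
    · intro i hi
      by_cases hit : i = t
      · subst hit
        rw [Function.update_self]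
        exact hTcard
      · rw [Function.update_of_ne hit]
        exact hZ.card i (by omega)
    · intro s hs T' hT' hT'c hT'd
      by_cases hst : s = t
      · subst hst
        rw [Function.update_self]
        refine hTmax T' (mem_filter.mpr ⟨mem_univ _, fun x hx => ?_, hT', hT'c⟩)
        rw [hYmem]
        intro i hi hxi
        have := hT'd i hi
        rw [Function.update_of_ne (by omega)] at this
        exact Finset.disjoint_left.mp this hx hxi
      · rw [Function.update_of_ne hst]
        refine hZ.max s (by omega) T' hT' hT'c (fun i hi => ?_)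
        have := hT'd i hi
        rwa [Function.update_of_ne (by omega)] at this

/-- There is no configuration without conic solutions. -/
theorem not_NC {d r : ℕ} (hd : finrank ℝ V = d) (hd1 : 1 ≤ d) {y : ι → V} (hgp : GPV d y)
    (hr : 1 ≤ r) (hcard : Fintype.card ι = (d + 1) * (r - 1) + 2) : ¬ NC r y := by
  classical
  intro hNC
  obtain ⟨Z, hZ⟩ := exists_greedy hd hd1 hgp hNC hcard.ge r le_rfl
  have hpos : ∀ i, i < r → 1 ≤ (Z i).card := by
    intro i hi
    rw [Nat.one_le_iff_ne_zero]
    intro h0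
    rw [Finset.card_eq_zero] at h0
    obtain ⟨a, -, ha0, ha1, -⟩ := hZ.circ i hi
    have : ∑ i, a i = 0 := Finset.sum_eq_zero (fun j _ => ha0 j (by rw [h0]; simp))
    linarith
  refine greedy_numbers d r hr hd1 (fun s => d + 1 - (Z s).card) ?_ ?_ ?_ ?_
  · intro s hs
    have h1 := hZ.max s (by omega) (Z (s + 1)) (hZ.circ _ hs) (hZ.card _ hs)
      (fun i hi => hZ.disj _ _ hs (by omega) (by omega))
    omega
  · intro s hs
    have := hpos s hs
    omega
  · have h1 := excess_ge hd hd1 hgp hNC hr hcard (fun i : Fin r => Z i)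
      (fun i j hij => hZ.disj i j i.2 j.2 (fun h => hij (Fin.ext h))) (fun i => hZ.circ i i.2)
      (fun i => hZ.card i i.2)
    rw [Finset.sum_range]
    exact h1
  · intro s hs
    set F : Finset ι := univ.filter (fun u => ∀ i, i < s + 1 → u ∉ Z i) with hF
    have hFmem : ∀ u, u ∈ F ↔ ∀ i, i < s + 1 → u ∉ Z i := fun u => by simp [hF]
    have hZs := hZ.card s hs
    have hlp := LP.lp_bound (F := F) hd hgp (Z := Z s) (by
      rw [Finset.disjoint_right]
      intro x hx
      exact (hFmem x).mp hx s (by omega)) (hZ.circ s hs)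
      (show (Z s).card + (d + 1 - (Z s).card) = d + 1 by omega) (by
      intro η hη0 hη
      obtain ⟨u, hu, hu0⟩ := rest_spanning_nat hd hgp hNC hs hcard.ge
        (fun i j hi hj => hZ.disj i j (by omega) (by omega)) (fun i hi => hZ.circ i (by omega))
        (fun i hi => hZ.card i (by omega)) η hη0
      refine ⟨u, (hFmem u).mpr fun i hi hui => ?_, hu0⟩
      by_cases his : i = s
      · subst his
        have := hη (y u) (Submodule.subset_span ⟨u, hui, rfl⟩)
        rw [this] at hu0
        exact lt_irrefl _ hu0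
      · exact hu i (by omega) hui) (by
      intro T hT hTc hTcard
      refine hZ.max s hs T hTc hTcard (fun i hi => ?_)
      rw [Finset.disjoint_left]
      intro x hx hxi
      rcases Finset.mem_union.mp (hT hx) with h | h
      · exact Finset.disjoint_left.mp (hZ.disj i s (by omega) hs (by omega)) hxi h
      · exact (hFmem x).mp h i (by omega) hxi)
    -- the number of elements of `F`
    have hFc : F.card + ∑ i ∈ range (s + 1), (Z i).card = Fintype.card ι := by
      have h1 : ((range (s + 1)).biUnion Z).card = ∑ i ∈ range (s + 1), (Z i).card :=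
        Finset.card_biUnion (fun i hi j hj hij => hZ.disj i j
          (by have := mem_range.mp hi; omega) (by have := mem_range.mp hj; omega) hij)
      have h2 : F = univ \ (range (s + 1)).biUnion Z := by
        ext u
        rw [hFmem, mem_sdiff, mem_biUnion]
        constructor
        · intro h
          refine ⟨mem_univ _, ?_⟩
          rintro ⟨i, hi, hui⟩
          exact h i (mem_range.mp hi) hui
        · rintro ⟨-, h⟩ i hi hui
          exact h ⟨i, mem_range.mpr hi, hui⟩
      have h3 := Finset.card_sdiff_add_card_eq_card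
        (Finset.subset_univ ((range (s + 1)).biUnion Z))
      rw [← h2, h1, Finset.card_univ] at h3
      exact h3
    have hZc : ∀ i ∈ range (s + 1), ((Z i).card : ℤ) = d + 1 - ((d + 1 - (Z i).card : ℕ) : ℤ) := by
      intro i hi
      have := hZ.card i (by have := mem_range.mp hi; omega)
      omega
    have hFc' : (F.card : ℤ) = ((d : ℤ) + 1) * ((r : ℤ) - 1) + 2 - (((d : ℤ) + 1) * (s + 1) -
        ∑ i ∈ range (s + 1), ((d + 1 - (Z i).card : ℕ) : ℤ)) := by
      have h1 : (F.card : ℤ) + ∑ i ∈ range (s + 1), ((Z i).card : ℤ) =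
          ((d : ℤ) + 1) * ((r : ℤ) - 1) + 2 := by
        have h2 : (Fintype.card ι : ℤ) = ((d : ℤ) + 1) * ((r : ℤ) - 1) + 2 := by
          rw [hcard]
          push_cast [Nat.cast_sub hr]
          ring
        rw [← h2, ← hFc]
        push_cast
        ring
      rw [Finset.sum_congr rfl hZc, Finset.sum_sub_distrib, Finset.sum_const, card_range] at h1
      rw [← h1]
      simp only [nsmul_eq_mul]
      push_cast
      ring
    set c := d + 1 - (Z s).card with hc
    have hcd : c ≤ d := by
      have := hpos s hs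
      omega
    have hcast : (((d + 1 - c : ℕ) : ℤ) * ((d - c : ℕ) : ℤ)) = ((d : ℤ) + 1 - c) * (d - c) := by
      rw [Nat.cast_sub (by omega), Nat.cast_sub hcd]
      push_cast
      ring
    have hlp' : ((F.card : ℤ) - c) * ((c : ℤ) * (c + 1)) ≤ ((d : ℤ) + 1 - c) * (d - c) := by
      have h1 : (((F.card - c : ℕ) : ℤ) * ((c : ℤ) * (c + 1))) ≤ ((d : ℤ) + 1 - c) * (d - c) := by
        rw [← hcast]
        exact_mod_cast hlp
      refine le_trans (mul_le_mul_of_nonneg_right ?_ (by positivity)) h1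
      omega
    have hX : (F.card : ℤ) - c = ((d : ℤ) + 1) * ((r : ℤ) - 2 - s) + 2 +
        ∑ i ∈ range s, ((d + 1 - (Z i).card : ℕ) : ℤ) := by
      rw [hFc', Finset.sum_range_succ, ← hc]
      ring
    rw [hX] at hlp'
    exact hlp'

/-- **Reay's conjecture for `k = 1`**: any `(d + 1)(r - 1) + 2` points in general position have a
partition into `r` parts whose convex hulls have two different points in common. -/
theorem reay_one {d r : ℕ} (hd : finrank ℝ V = d) (hd1 : 1 ≤ d) (hr : 1 ≤ r) (X : ι → V)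
    (hX : GPV d X) (hcard : Fintype.card ι = (d + 1) * (r - 1) + 2) :
    ∃ f : ι → Fin r, ∃ q q' : V, q ≠ q' ∧ q ∈ Conn.T X f ∧ q' ∈ Conn.T X f := by
  classical
  by_contra hcon
  push Not at hcon
  have hsub : ∀ f : ι → Fin r, (Conn.T X f).Subsingleton := by
    intro f q hq q' hq'
    by_contra hne
    exact hcon f q q' hne hq hq'
  -- a Tverberg point
  obtain ⟨o, f, ho⟩ : ∃ (o : V) (f : ι → Fin r), o ∈ Conn.T X f := by
    obtain ⟨o, A, hA⟩ := exists_preState d r hd hr X (by omega)
    refine ⟨o, fun m => if hm : ∃ i, m ∈ A i then hm.choose else ⟨0, hr⟩, fun i => ?_⟩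
    refine GenericAux.mem_convexHull (hA.circ i) (fun m hm => ⟨m, ?_, rfl⟩)
    have hex : ∃ i, m ∈ A i := ⟨i, hm⟩
    change (if hm : ∃ i, m ∈ A i then hm.choose else ⟨0, hr⟩) = i
    rw [dif_pos hex]
    by_contra hne
    exact Finset.disjoint_left.1 (hA.disj _ _ hne) hex.choose_spec hm
  refine not_NC hd hd1 (hX.sub o) hr hcard ?_
  intro g c v hc hv
  exact Conn.no_conic r X (by rw [hd, hcard]) hsub ho g c hc v hv

end

end Pool.Agent.MPa0a351
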