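import Pool.Agent.Lib.MP_a0a351_co.LPE
import Pool.Agent.Lib.MP_a0a351_co.Greedy
import Pool.Agent.Lib.MP_a0a351_co.Final

/-!
All `k`: the LP lemma applied to every row of a failing max state (MP_a0a351_co).
-/

set_option autoImplicit false

open Module Finset

namespace Pool.Agent.MPa0a351

/-- Reay's conjecture for all `k` in the range of the LP lemma. -/
theorem reay_core2 {ι V : Type*} [Fintype ι] [NormedAddCommGroup V] [NormedSpace ℝ V]
    [FiniteDimensional ℝ V] (d r k : ℕ) (hd : finrank ℝ V = d) (hr : 1 ≤ r) (hk : k ≤ d)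
    (X : ι → V) (hX : GPV d X) (hcard : Fintype.card ι = (d + 1) * (r - 1) + 1 + k)
    (hcase : ∀ c e : ℕ, 1 ≤ c → e < k → c + e ≤ d →
      ((d : ℤ) + k - 2 * e - c) * (c * (c + 1)) ≤ ((d : ℤ) - e + 1 - c) * (d - e - c) →
        (r : ℤ) * c < 2 * (d - e)) :
    ∃ f : ι → Fin r, ∃ q : Fin (k + 1) → V, AffineIndependent ℝ q ∧
      ∀ j : Fin (k + 1), ∀ i : Fin r, q j ∈ convexHull ℝ (X '' {m : ι | f m = i}) := by
  classical
  obtain ⟨o, A, h⟩ := exists_maxState d r hd hr X (by omega)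
  by_cases hek : k ≤ finrank ℝ (EE X o A)
  · exact conclude hr X o A h.pre hek
  exfalso
  push Not at hek
  obtain ⟨hN, hL, hspan⟩ := h.numbers hd hr hX hek hcard
  set e := finrank ℝ (EE X o A) with he
  set L := univ \ univ.biUnion A with hLdef
  have hLj : ∀ i, Disjoint L (A i) := by
    intro i
    rw [Finset.disjoint_left]
    intro x hx hxj
    exact (Finset.mem_sdiff.mp hx).2 (Finset.mem_biUnion.mpr ⟨i, Finset.mem_univ _, hxj⟩)
  -- the number of unused elements
  have hbU : (univ.biUnion A).card = ∑ j, (A j).card :=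
    Finset.card_biUnion (fun i _ j _ hij => h.pre.disj i j hij)
  have hLc : L.card + ∑ j, (A j).card = Fintype.card ι := by
    rw [hLdef, Finset.card_sdiff_of_subset (Finset.subset_univ _), hbU, Finset.card_univ]
    have : ∑ j, (A j).card ≤ Fintype.card ι := by
      rw [← hbU]; exact Finset.card_le_univ _
    omega
  have hNsum : ∑ j, (d + 1 - (A j).card) + ∑ j, (A j).card = r * (d + 1) := by
    rw [← Finset.sum_add_distrib,
      Finset.sum_congr rfl (fun j _ => Nat.sub_add_cancel (h.pre.card j))]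
    simp
  have hr' : r * (d + 1) = (d + 1) * (r - 1) + (d + 1) := by
    obtain ⟨r', rfl⟩ : ∃ r', r = r' + 1 := ⟨r - 1, by omega⟩
    simp only [Nat.add_sub_cancel]; ring
  have hLN : L.card + d = ∑ j, (d + 1 - (A j).card) + k := by omega
  have hEle : ∀ j, EE X o A ≤ Sp (fun x => X x - o) (A j) := fun j => iInf_le _ j
  -- the LP bound for every row
  have hrow : ∀ j, 1 ≤ d + 1 - (A j).card →
      (((d : ℤ) + k - 2 * e - (d + 1 - (A j).card : ℕ)) *
        ((d + 1 - (A j).card : ℕ) * ((d + 1 - (A j).card : ℕ) + 1)) ≤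
      ((d : ℤ) - e + 1 - (d + 1 - (A j).card : ℕ)) * (d - e - (d + 1 - (A j).card : ℕ))) ∧
      (d + 1 - (A j).card) + e ≤ d := by
    intro j hj
    have hjc := h.pre.card j
    set c := d + 1 - (A j).card with hc
    have hfin := (hX.sub o).finrank_circ (h.pre.circ j) hjc
    have hEfin : e ≤ finrank ℝ (Sp (fun x => X x - o) (A j)) := Submodule.finrank_mono (hEle j)
    have hce : c + e ≤ d := by omega
    have hlp := LP.lp_bound_E (F := L) (c := c) hd (hX.sub o) (EE X o A) (hEle j) (hLj j).symm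
      (h.pre.circ j) (by omega) (by
        intro η hη0 hη
        exact hspan η hη0 (fun x hx => hη x (hEle j hx))) (by
        intro T hT hTc hTcard
        refine h.exch j T (fun i hij => ?_) hTc hTcard
        refine Finset.disjoint_of_subset_left hT ?_
        rw [Finset.disjoint_union_left]
        exact ⟨h.pre.disj j i hij.symm, hLj i⟩)
    have h1 : (A j).card - finrank ℝ (EE X o A) = d + 1 - c - e := by omega
    rw [h1] at hlp
    have h2 : ((d : ℤ) + k - 2 * e - c) ≤ ((L.card - c : ℕ) : ℤ) := by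
      have : (L.card : ℤ) + d = ((∑ j, (d + 1 - (A j).card) : ℕ) : ℤ) + k := by exact_mod_cast hLN
      have h3 : (2 * ((d - e : ℕ) : ℤ)) ≤ ((∑ j, (d + 1 - (A j).card) : ℕ) : ℤ) := by
        exact_mod_cast hN
      have h4 : ((d - e : ℕ) : ℤ) = d - e := by
        rw [Nat.cast_sub (by omega)]
      rw [h4] at h3
      have h5 : (L.card : ℤ) - c ≤ ((L.card - c : ℕ) : ℤ) := by omega
      linarith
    have h6 : (((d + 1 - c - e : ℕ) : ℤ) * ((d + 1 - c - e - 1 : ℕ) : ℤ)) =
        ((d : ℤ) - e + 1 - c) * (d - e - c) := by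
      have h7 : ((d + 1 - c - e : ℕ) : ℤ) = (d : ℤ) - e + 1 - c := by omega
      have h8 : ((d + 1 - c - e - 1 : ℕ) : ℤ) = (d : ℤ) - e - c := by omega
      rw [h7, h8]
    refine ⟨?_, hce⟩
    rw [← h6]
    refine (mul_le_mul_of_nonneg_right h2 (by positivity)).trans ?_
    exact_mod_cast hlp
  -- the largest excess
  have hfr : (univ : Finset (Fin r)).Nonempty := ⟨⟨0, by omega⟩, mem_univ _⟩
  obtain ⟨j0, -, hj0⟩ := Finset.exists_max_image (univ : Finset (Fin r))
    (fun j => d + 1 - (A j).card) hfr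
  set m := d + 1 - (A j0).card with hm
  have hNm : ∑ j, (d + 1 - (A j).card) ≤ r * m := by
    refine (Finset.sum_le_sum fun j _ => hj0 j (mem_univ j)).trans ?_
    simp
  have hed : e < d := by omega
  have hm1 : 1 ≤ m := by
    rw [Nat.one_le_iff_ne_zero]
    intro h0
    rw [h0] at hNm
    omega
  obtain ⟨h1, h2⟩ := hrow j0 hm1
  have h3 := hcase m e hm1 hek h2 h1
  have h4 : (2 * (d - e : ℕ) : ℤ) ≤ (r : ℤ) * m := by exact_mod_cast hN.trans hNm
  rw [Nat.cast_sub hed.le] at h4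
  linarith

/-- Explicit ranges. -/
theorem ranges (d r k : ℕ) (hk : k ≤ d)
    (hcase : r ≤ 5 ∨ (r ≤ 7 ∧ k + 2 ≠ d) ∨ (r ≤ 9 ∧ k = d) ∨ (r - 2) ^ 2 < 4 * (d - k + 2)) :
    ∀ c e : ℕ, 1 ≤ c → e < k → c + e ≤ d →
      ((d : ℤ) + k - 2 * e - c) * (c * (c + 1)) ≤ ((d : ℤ) - e + 1 - c) * (d - e - c) →
        (r : ℤ) * c < 2 * (d - e) := by
  intro c e hc he hce h
  -- notation `D = d - e`, `M = d - k`
  obtain ⟨D, hD⟩ : ∃ D : ℤ, D = (d : ℤ) - e := ⟨_, rfl⟩
  obtain ⟨M, hM⟩ : ∃ M : ℤ, M = (d : ℤ) - k := ⟨_, rfl⟩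
  have hc' : (1 : ℤ) ≤ c := by exact_mod_cast hc
  have hcD : (c : ℤ) ≤ D := by omega
  have hMD : M + 1 ≤ D := by omega
  have hM0 : 0 ≤ M := by omega
  have h1 : (2 * D - M - c) * ((c : ℤ) * (c + 1)) ≤ (D + 1 - c) * (D - c) := by
    have e1 : (2 * D - M - c : ℤ) = (d : ℤ) + k - 2 * e - c := by omega
    have e2 : (D + 1 - c : ℤ) = (d : ℤ) - e + 1 - c := by omega
    rw [e1, e2, hD]
    exact h
  rw [← hD]
  generalize (c : ℤ) = C at *
  have h2 : (D + 1 - C) * (C * (C + 1)) ≤ (D + 1 - C) * (D - C) := by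
    refine le_trans (mul_le_mul_of_nonneg_right ?_ (by positivity)) h1
    linarith
  have h3 : C * (C + 1) ≤ D - C := le_of_mul_le_mul_left h2 (by linarith)
  rcases hcase with h5 | ⟨h7, hk2⟩ | ⟨h9, hkd⟩ | hq
  · have h4 : (r : ℤ) ≤ 5 := by exact_mod_cast h5
    nlinarith
  · have h4 : (r : ℤ) ≤ 7 := by exact_mod_cast h7
    have hM2 : M ≠ 2 := by omega
    by_cases hC2 : 2 ≤ C
    · nlinarith
    · have hC1 : C = 1 := by omega
      subst hC1
      have h6 : 4 ≤ D := by
        by_contra hcon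
        have : D = 3 := by omega
        subst this
        omega
      nlinarith
  · have h4 : (r : ℤ) ≤ 9 := by exact_mod_cast h9
    have hM0' : M = 0 := by omega
    subst hM0'
    by_cases hC3 : 3 ≤ C
    · nlinarith
    · have hC12 : C = 1 ∨ C = 2 := by omega
      rcases hC12 with rfl | rfl
      · have h6 : 5 ≤ D := by nlinarith
        nlinarith
      · have h6 : 14 ≤ D := by nlinarith
        nlinarith
  · by_contra hcon
    push Not at hcon
    have hr0 : (2 : ℤ) * (C + 2) ≤ r := by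
      by_contra hcon2
      push Not at hcon2
      nlinarith
    have hr2 : (((r - 2 : ℕ) : ℤ)) = (r : ℤ) - 2 := by
      rw [Nat.cast_sub (by omega)]
      rfl
    have hq' : ((r : ℤ) - 2) ^ 2 < 4 * (M + 2) := by
      have h7 : (((r - 2) ^ 2 : ℕ) : ℤ) < ((4 * (d - k + 2) : ℕ) : ℤ) := by exact_mod_cast hq
      rw [Nat.cast_pow, hr2] at h7
      have h8 : ((4 * (d - k + 2) : ℕ) : ℤ) = 4 * (M + 2) := by
        push_cast [Nat.cast_sub hk]
        rw [hM]
      rw [h8] at h7
      exact h7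
    nlinarith

/-- The theorem for points of `ℝ^d`. -/
theorem reay_main2 :
    ∀ (d r k n : ℕ), 1 ≤ r → k ≤ d → n = (d + 1) * (r - 1) + 1 + k →
      (k = 1 ∨ r ≤ 5 ∨ (r ≤ 7 ∧ k + 2 ≠ d) ∨ (r ≤ 9 ∧ k = d) ∨ (r - 2) ^ 2 < 4 * (d - k + 2) ∨
        ∀ c e : ℕ, 1 ≤ c → e < k → c + e ≤ d →
          ((d : ℤ) + k - 2 * e - c) * (c * (c + 1)) ≤ ((d : ℤ) - e + 1 - c) * (d - e - c) →
            (r : ℤ) * c < 2 * (d - e)) →
      ∀ p : Fin n → EuclideanSpace ℝ (Fin d),
        (∀ s : Finset (Fin n), s.card ≤ d + 1 →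
          AffineIndependent ℝ (fun i : s => p (i : Fin n))) →
        ∃ f : Fin n → Fin r, ∃ q : Fin (k + 1) → EuclideanSpace ℝ (Fin d),
          AffineIndependent ℝ q ∧
          ∀ j : Fin (k + 1), ∀ i : Fin r,
            q j ∈ convexHull ℝ (p '' {m : Fin n | f m = i}) := by
  intro d r k n hr hk hn hcase p hp
  rcases hcase with rfl | hcase
  rotate_left
  · have hcase' : ∀ c e : ℕ, 1 ≤ c → e < k → c + e ≤ d →
          ((d : ℤ) + k - 2 * e - c) * (c * (c + 1)) ≤ ((d : ℤ) - e + 1 - c) * (d - e - c) →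
            (r : ℤ) * c < 2 * (d - e) := by
      rcases hcase with h | h | h | h | h
      · exact ranges d r k hk (Or.inl h)
      · exact ranges d r k hk (Or.inr (Or.inl h))
      · exact ranges d r k hk (Or.inr (Or.inr (Or.inl h)))
      · exact ranges d r k hk (Or.inr (Or.inr (Or.inr h)))
      · exact h
    exact reay_core2 d r k (by simp) hr hk p (gpv_of_genPos p hp) (by simpa using hn) hcase'
  · obtain ⟨f, q, q', hne, hq, hq'⟩ := reay_one (d := d) (r := r) (by simp) hk hr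
      p (gpv_of_genPos p hp) (by simpa using hn)
    refine ⟨f, ![q, q'], affineIndependent_of_ne ℝ hne, ?_⟩
    intro j i
    fin_cases j
    · exact hq i
    · exact hq' i

end Pool.Agent.MPa0a351
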