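import Mathlib

/-!
Finite chain complexes of words (MP_a0a351_co, S10471): definitions and basic facts.

A word is a function `w : U → Option ρ`: the letter `u` is placed in the column (row of the state)
`j` if `w u = some j`, and is not placed if `w u = none`. Words with `n` letters span the chains of
dimension `n - 1`. `Ex S K n` says: for EVERY sign function, every cycle of words with `n` letters
in `K` is a boundary. (Reduced homology of `K` in dimension `n - 1` vanishes.)
-/

set_option autoImplicit false
set_option linter.unusedSectionVars false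

open Finset

namespace Pool.Agent.MPa0a351.Hm

variable {U ρ : Type*} [Fintype U] [DecidableEq U] [Fintype ρ] [DecidableEq ρ]

/-- The set of placed letters of a word. -/
def supp (w : U → Option ρ) : Finset U := univ.filter fun u => w u ≠ none

/-- The letters placed in the column `j`. -/
def col (w : U → Option ρ) (j : ρ) : Finset U := univ.filter fun u => w u = some j

/-- Sign functions on the subsets of `S`: `s A u` is the sign of removing `u` from `A`. -/
structure Sg (S : Finset U) (s : Finset U → U → ℝ) : Prop where
  sq : ∀ A ⊆ S, ∀ u ∈ A, s A u * s A u = 1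
  anti : ∀ A ⊆ S, ∀ u ∈ A, ∀ v ∈ A, u ≠ v → s A u * s (A.erase u) v = -(s A v * s (A.erase v) u)

/-- The boundary: the coefficient of `bd s f` at `v` is the signed sum of the values of `f` at the
words obtained from `v` by placing one more letter. -/
noncomputable def bd (s : Finset U → U → ℝ) (f : (U → Option ρ) → ℝ) : (U → Option ρ) → ℝ :=
  fun v => ∑ u ∈ univ \ supp v, ∑ j, s (insert u (supp v)) u * f (Function.update v u (some j))

/-- `f` is a chain of words with `n` letters in `K`. -/
def Ch (K : Set (U → Option ρ)) (n : ℕ) (f : (U → Option ρ) → ℝ) : Prop :=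
  ∀ w, f w ≠ 0 → w ∈ K ∧ (supp w).card = n

/-- Exactness: for every sign function every cycle of words with `n` letters in `K` is a
boundary. -/
def Ex (S : Finset U) (K : Set (U → Option ρ)) (n : ℕ) : Prop :=
  ∀ s, Sg S s → ∀ f, Ch K n f → bd s f = 0 → ∃ g, Ch K (n + 1) g ∧ bd s g = f

/-- The words with letters in `S` and `col w j ∈ Γ j` for all `j` (deleted join). -/
def KK (Γ : ρ → Set (Finset U)) (S : Finset U) : Set (U → Option ρ) :=
  {w | supp w ⊆ S ∧ ∀ j, col w j ∈ Γ j}

/-- Closed under subsets. -/
def Dn (G : Set (Finset U)) : Prop := ∀ A ∈ G, ∀ B ⊆ A, B ∈ G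

/-- A set of words closed under removing letters, with letters in `S`. -/
def DnW (S : Finset U) (K : Set (U → Option ρ)) : Prop :=
  ∀ w ∈ K, supp w ⊆ S ∧ ∀ u, Function.update w u none ∈ K

/-- The link of a vertex. -/
def lk (G : Set (Finset U)) (u : U) : Set (Finset U) := {M | u ∉ M ∧ insert u M ∈ G}

/-- `c`-rows: complexes in which every set `σ` with at most `c - 1` elements of a set `Y` is in a
face `F ⊆ Y` that contains about half of `Y`. -/
structure RowC (S : Finset U) (c : ℕ) (G : Set (Finset U)) : Prop where
  dn : Dn G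
  emp : ∅ ∈ G
  big : ∀ Y ⊆ S, ∀ σ ⊆ Y, σ.card + 1 ≤ c →
    ∃ F ∈ G, σ ⊆ F ∧ F ⊆ Y ∧ 2 * (Y \ F).card + c ≤ max (Y.card + 1) c

section basic

omit [Fintype ρ]

theorem mem_supp {w : U → Option ρ} {u : U} : u ∈ supp w ↔ w u ≠ none := by
  simp [supp]

theorem mem_col {w : U → Option ρ} {j : ρ} {u : U} : u ∈ col w j ↔ w u = some j := by
  simp [col]

theorem col_subset (w : U → Option ρ) (j : ρ) : col w j ⊆ supp w := by
  intro u hu
  rw [mem_col] at hu
  rw [mem_supp, hu]
  simp

theorem supp_update_some (w : U → Option ρ) (u : U) (j : ρ) :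
    supp (Function.update w u (some j)) = insert u (supp w) := by
  ext x
  rw [Finset.mem_insert, mem_supp, mem_supp]
  by_cases h : x = u
  · subst h; simp
  · simp [h]

theorem supp_update_none (w : U → Option ρ) (u : U) :
    supp (Function.update w u none) = (supp w).erase u := by
  ext x
  rw [Finset.mem_erase, mem_supp, mem_supp]
  by_cases h : x = u
  · subst h; simp
  · simp [h]

theorem col_update_self (w : U → Option ρ) (u : U) (j : ρ) :
    col (Function.update w u (some j)) j = insert u (col w j) := by
  ext x
  rw [Finset.mem_insert, mem_col, mem_col]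
  by_cases h : x = u
  · subst h; simp
  · simp [h]

theorem col_update_ne (w : U → Option ρ) (u : U) {i j : ρ} (hij : i ≠ j) :
    col (Function.update w u (some j)) i = (col w i).erase u := by
  ext x
  rw [Finset.mem_erase, mem_col, mem_col]
  by_cases h : x = u
  · subst h; simp [Ne.symm hij]
  · simp [h]

theorem col_update_none (w : U → Option ρ) (u : U) (i : ρ) :
    col (Function.update w u none) i = (col w i).erase u := by
  ext x
  rw [Finset.mem_erase, mem_col, mem_col]
  by_cases h : x = u
  · subst h; simp
  · simp [h]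

theorem supp_none : supp (fun _ : U => (none : Option ρ)) = ∅ := by
  ext x; simp [mem_supp]

theorem col_none (j : ρ) : col (fun _ : U => (none : Option ρ)) j = ∅ := by
  ext x; simp [mem_col]

theorem update_none_of {w : U → Option ρ} {u : U} (h : u ∉ supp w) :
    Function.update w u none = w := by
  rw [mem_supp, not_not] at h
  rw [← h, Function.update_eq_self]

theorem col_disjoint (w : U → Option ρ) {i j : ρ} (h : i ≠ j) : Disjoint (col w i) (col w j) := by
  rw [Finset.disjoint_left]
  intro u hu hu'
  rw [mem_col] at hu hu'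
  rw [hu] at hu'
  exact h (Option.some_injective _ hu')

end basic

theorem biUnion_col (w : U → Option ρ) : univ.biUnion (col w) = supp w := by
  ext u
  rw [Finset.mem_biUnion, mem_supp]
  constructor
  · rintro ⟨j, -, hj⟩
    rw [mem_col] at hj
    rw [hj]
    simp
  · intro h
    obtain ⟨j, hj⟩ := Option.ne_none_iff_exists'.mp h
    exact ⟨j, mem_univ _, mem_col.mpr hj⟩

theorem card_supp (w : U → Option ρ) : (supp w).card = ∑ j, (col w j).card := by
  rw [← biUnion_col, Finset.card_biUnion]
  intro i _ j _ hij
  exact col_disjoint w hij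

theorem Dn.KK {Γ : ρ → Set (Finset U)} {S : Finset U} (h : ∀ j, Dn (Γ j)) : DnW S (KK Γ S) := by
  intro w hw
  refine ⟨hw.1, fun u => ⟨?_, fun j => ?_⟩⟩
  · rw [supp_update_none]
    exact (Finset.erase_subset _ _).trans hw.1
  · rw [col_update_none]
    exact h j _ (hw.2 j) _ (Finset.erase_subset _ _)

section linear

variable (s : Finset U → U → ℝ)

theorem bd_add (f g : (U → Option ρ) → ℝ) : bd s (f + g) = bd s f + bd s g := by
  funext v
  simp only [bd, Pi.add_apply, mul_add, Finset.sum_add_distrib]

theorem bd_sub (f g : (U → Option ρ) → ℝ) : bd s (f - g) = bd s f - bd s g := by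
  funext v
  simp only [bd, Pi.sub_apply, mul_sub, Finset.sum_sub_distrib]

theorem bd_zero : bd s (0 : (U → Option ρ) → ℝ) = 0 := by
  funext v
  simp [bd]

theorem bd_neg (f : (U → Option ρ) → ℝ) : bd s (-f) = -bd s f := by
  funext v
  simp only [bd, Pi.neg_apply, mul_neg, Finset.sum_neg_distrib]

theorem bd_smul (t : ℝ) (f : (U → Option ρ) → ℝ) : bd s (t • f) = t • bd s f := by
  funext v
  simp only [bd, Pi.smul_apply, smul_eq_mul, Finset.mul_sum]
  exact Finset.sum_congr rfl fun u _ => Finset.sum_congr rfl fun j _ => by ring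

end linear

theorem Ch.zero (K : Set (U → Option ρ)) (n : ℕ) : Ch K n 0 := fun _ hw => absurd rfl hw

theorem Ch.add {K : Set (U → Option ρ)} {n : ℕ} {f g : (U → Option ρ) → ℝ} (hf : Ch K n f)
    (hg : Ch K n g) : Ch K n (f + g) := by
  intro w hw
  by_cases h : f w = 0
  · refine hg w fun h' => hw ?_
    rw [Pi.add_apply, h, h', add_zero]
  · exact hf w h

theorem Ch.neg {K : Set (U → Option ρ)} {n : ℕ} {f : (U → Option ρ) → ℝ} (hf : Ch K n f) :
    Ch K n (-f) := fun w hw => hf w fun h => hw (by rw [Pi.neg_apply, h, neg_zero])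

theorem Ch.sub {K : Set (U → Option ρ)} {n : ℕ} {f g : (U → Option ρ) → ℝ} (hf : Ch K n f)
    (hg : Ch K n g) : Ch K n (f - g) := by
  rw [sub_eq_add_neg]
  exact hf.add hg.neg

theorem Ch.mono {K L : Set (U → Option ρ)} {n : ℕ} {f : (U → Option ρ) → ℝ} (hf : Ch K n f)
    (h : K ⊆ L) : Ch L n f := fun w hw => ⟨h (hf w hw).1, (hf w hw).2⟩

/-- The boundary of a chain is a chain. -/
theorem Ch.bd {S : Finset U} {K : Set (U → Option ρ)} {n : ℕ} {f : (U → Option ρ) → ℝ}
    (hK : DnW S K) (hf : Ch K (n + 1) f) (s : Finset U → U → ℝ) : Ch K n (bd s f) := by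
  intro v hv
  obtain ⟨u, hu, hu'⟩ := Finset.exists_ne_zero_of_sum_ne_zero hv
  obtain ⟨j, -, hj⟩ := Finset.exists_ne_zero_of_sum_ne_zero hu'
  have h1 : f (Function.update v u (some j)) ≠ 0 := fun h => hj (by rw [h, mul_zero])
  obtain ⟨h2, h3⟩ := hf _ h1
  have hu2 : u ∉ supp v := (Finset.mem_sdiff.mp hu).2
  constructor
  · have := (hK _ h2).2 u
    rwa [Function.update_idem, update_none_of hu2] at this
  · rw [supp_update_some, Finset.card_insert_of_notMem hu2] at h3
    omega

/-- A chain of words with no letters has boundary zero. -/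
theorem Ch.bd_eq_zero {K : Set (U → Option ρ)} {f : (U → Option ρ) → ℝ} (hf : Ch K 0 f)
    (s : Finset U → U → ℝ) : Hm.bd s f = 0 := by
  funext v
  refine Finset.sum_eq_zero fun u hu => Finset.sum_eq_zero fun j _ => ?_
  by_cases h : f (Function.update v u (some j)) = 0
  · rw [h, mul_zero]
  · have := (hf _ h).2
    rw [supp_update_some, Finset.card_insert_of_notMem (Finset.mem_sdiff.mp hu).2] at this
    omega

/-- The boundary of a boundary is zero. -/
theorem bd_bd {S : Finset U} {s : Finset U → U → ℝ} (hs : Sg S s) {f : (U → Option ρ) → ℝ}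
    (hf : ∀ w, f w ≠ 0 → supp w ⊆ S) : Hm.bd s (Hm.bd s f) = 0 := by
  funext v
  have key : ∀ u ∈ univ \ supp v, ∀ x ∈ univ \ insert u (supp v), ∀ j i,
      s (insert u (supp v)) u * (s (insert x (insert u (supp v))) x *
        f (Function.update (Function.update v u (some j)) x (some i))) =
      -(s (insert x (supp v)) x * (s (insert u (insert x (supp v))) u *
        f (Function.update (Function.update v x (some i)) u (some j)))) := by
    intro u hu x hx j i
    have hu2 : u ∉ supp v := (Finset.mem_sdiff.mp hu).2
    have hx2 : x ∉ insert u (supp v) := (Finset.mem_sdiff.mp hx).2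
    have hxu : x ≠ u := fun h => hx2 (by rw [h]; exact Finset.mem_insert_self _ _)
    have hx3 : x ∉ supp v := fun h => hx2 (Finset.mem_insert_of_mem h)
    rw [Function.update_comm hxu.symm, Finset.insert_comm]
    by_cases h : f (Function.update (Function.update v x (some i)) u (some j)) = 0
    · rw [h]; simp
    · have hsub := hf _ h
      rw [supp_update_some, supp_update_some] at hsub
      have h1 := hs.anti _ hsub u (Finset.mem_insert_self _ _) x
        (Finset.mem_insert_of_mem (Finset.mem_insert_self _ _)) hxu.symm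
      rw [Finset.erase_insert (by
        rw [Finset.mem_insert, not_or]; exact ⟨hxu.symm, hu2⟩)] at h1
      rw [Finset.insert_comm, Finset.erase_insert hx2] at h1
      rw [Finset.insert_comm]
      linear_combination (f (Function.update (Function.update v x (some i)) u (some j))) * h1
  have h2 : Hm.bd s (Hm.bd s f) v = ∑ u ∈ univ \ supp v, ∑ x ∈ (univ \ supp v).erase u,
      ∑ j, ∑ i, s (insert u (supp v)) u * (s (insert x (insert u (supp v))) x *
        f (Function.update (Function.update v u (some j)) x (some i))) := by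
    refine Finset.sum_congr rfl fun u hu => ?_
    have hset : ∀ j : ρ, univ \ supp (Function.update v u (some j)) = (univ \ supp v).erase u := by
      intro j
      rw [supp_update_some]
      ext x
      simp only [Finset.mem_sdiff, Finset.mem_univ, true_and, Finset.mem_insert, Finset.mem_erase]
      tauto
    rw [Finset.sum_comm]
    refine Finset.sum_congr rfl fun j _ => ?_
    rw [Hm.bd, hset, Finset.mul_sum]
    refine Finset.sum_congr rfl fun x _ => ?_
    rw [Finset.mul_sum, supp_update_some]
  have h3 : Hm.bd s (Hm.bd s f) v = -Hm.bd s (Hm.bd s f) v := by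
    conv_lhs => rw [h2]
    rw [h2]
    rw [← Finset.sum_neg_distrib]
    rw [Finset.sum_comm' (s := univ \ supp v) (t := fun u => (univ \ supp v).erase u)
      (t' := univ \ supp v) (s' := fun u => (univ \ supp v).erase u) (by
        intro x y
        simp only [Finset.mem_sdiff, Finset.mem_univ, true_and, Finset.mem_erase]
        tauto)]
    refine Finset.sum_congr rfl fun u hu => ?_
    rw [← Finset.sum_neg_distrib]
    refine Finset.sum_congr rfl fun x hx => ?_
    rw [Finset.sum_comm, ← Finset.sum_neg_distrib]
    refine Finset.sum_congr rfl fun i _ => ?_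
    rw [← Finset.sum_neg_distrib]
    refine Finset.sum_congr rfl fun j _ => ?_
    have hxu : x ≠ u := Finset.ne_of_mem_erase hx
    have hx2 := Finset.mem_of_mem_erase hx
    refine key x hx2 u ?_ _ _
    simp only [Finset.mem_sdiff, Finset.mem_univ, true_and, Finset.mem_insert, not_or] at hu hx2 ⊢
    exact ⟨hxu.symm, hu⟩
  have h4 : (0 : (U → Option ρ) → ℝ) v = 0 := rfl
  rw [h4]
  linarith

end Pool.Agent.MPa0a351.Hm
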