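import Pool.Agent.Lib.MP_a0a351_co.HmDefs

/-!
H6b of S10471 (MP_a0a351_co): a chain complex without harmonic chains is exact.
-/

set_option autoImplicit false
set_option linter.unusedSectionVars false

open Finset Module

namespace Pool.Agent.MPa0a351.Hm

variable {U ρ : Type*} [Fintype U] [DecidableEq U] [Fintype ρ] [DecidableEq ρ]

/-- H6b (linear algebra): no harmonic chains implies exactness. -/
theorem ex_of_harmonic {S : Finset U} {K : Set (U → Option ρ)} (hK : DnW S K) {n : ℕ}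
    (h : ∀ s, Sg S s → ∀ f, Ch K n f → bd s f = 0 →
      (∀ g, Ch K (n + 1) g → ∑ w, f w * bd s g w = 0) → f = 0) : Ex S K n := by
  intro s hs f hf hbf
  let B : Submodule ℝ (EuclideanSpace ℝ (U → Option ρ)) :=
    { carrier := {x | ∃ g, Ch K (n + 1) g ∧ bd s g = x.ofLp}
      zero_mem' := ⟨0, Ch.zero _ _, bd_zero s⟩
      add_mem' := by
        rintro x y ⟨g, hg, hx⟩ ⟨g', hg', hy⟩
        exact ⟨g + g', hg.add hg', by rw [bd_add, hx, hy]; rfl⟩
      smul_mem' := by
        rintro t x ⟨g, hg, hx⟩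
        refine ⟨t • g, fun w hw => hg w fun h0 => hw ?_, by rw [bd_smul, hx]; rfl⟩
        rw [Pi.smul_apply, h0, smul_zero] }
  obtain ⟨y, ⟨g, hg, hy⟩, z, hz, hyz⟩ :=
    B.exists_add_mem_mem_orthogonal (WithLp.toLp 2 f : EuclideanSpace ℝ (U → Option ρ))
  have hfz : f = bd s g + z.ofLp := by
    rw [hy]
    have := congrArg WithLp.ofLp hyz
    exact this
  have hz' : z.ofLp = f - bd s g := by rw [hfz, add_sub_cancel_left]
  have hzc : Ch K n z.ofLp := by
    rw [hz']
    exact hf.sub (Ch.bd hK hg s)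
  have hbb : bd s (bd s g) = 0 := bd_bd hs fun w hw => (hK w (hg w hw).1).1
  have hzb : bd s z.ofLp = 0 := by rw [hz', bd_sub, hbf, hbb, sub_zero]
  have hz0 : z.ofLp = 0 := by
    refine h s hs _ hzc hzb fun g' hg' => ?_
    have h1 := (Submodule.mem_orthogonal _ _).mp hz (WithLp.toLp 2 (bd s g')) ⟨g', hg', rfl⟩
    rw [PiLp.inner_apply] at h1
    simpa [RCLike.inner_apply, conj_trivial] using h1
  exact ⟨g, hg, by rw [hfz, hz0, add_zero]⟩

end Pool.Agent.MPa0a351.Hm
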