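import Pool.Agent.Lib.MP_a0a351_co.HmDefs

/-!
Perturbation to a nondegenerate configuration (module N4a of S10471).
-/

set_option autoImplicit false
set_option linter.unusedSectionVars false

open Finset Module

namespace Pool.Agent.MPa0a351.Hm

namespace HmPertAux

/-- A basis whose members are values of the maps `φ j`. -/
theorem exists_basis {V Q ρ : Type*} [AddCommGroup V] [Module ℝ V] [AddCommGroup Q] [Module ℝ Q]
    {m : ℕ} (b : Basis (Fin m) ℝ Q)
    (φ : ρ → V →ₗ[ℝ] Q) (hspan : ⨆ j, LinearMap.range (φ j) = ⊤) :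
    ∃ (g : Fin m → ρ) (z : Fin m → V), b.det (fun k => φ (g k) (z k)) ≠ 0 := by
  have hs : ⊤ ≤ Submodule.span ℝ (⋃ j, (LinearMap.range (φ j) : Set Q)) := by
    rw [← hspan, Submodule.span_iUnion]
    refine iSup_mono fun j => ?_
    rw [Submodule.span_eq]
  obtain ⟨b', hb'⟩ : ∃ b' : Basis (Fin m) ℝ Q, ∀ k, b' k ∈ ⋃ j, (LinearMap.range (φ j) : Set Q) := by
    have h1 := Basis.ofSpan_subset hs
    refine ⟨(Basis.ofSpan hs).reindex ((Basis.ofSpan hs).indexEquiv b), fun k => ?_⟩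
    rw [Basis.reindex_apply]
    exact h1 (Set.mem_range_self _)
  have h2 : ∀ k, ∃ j, ∃ v, φ j v = b' k := fun k => by
    obtain ⟨j, hj⟩ := Set.mem_iUnion.1 (hb' k)
    exact ⟨j, hj⟩
  choose g z hgz using h2
  refine ⟨g, z, ?_⟩
  have h3 : (fun k => φ (g k) (z k)) = b' := by
    funext k
    exact hgz k
  rw [h3]
  exact (b.isUnit_det b').ne_zero

/-- The determinant along a line with a nondegenerate direction has finitely many zeros. -/
theorem finite_zeros {Q : Type*} [AddCommGroup Q] [Module ℝ Q] {m : ℕ} (b : Basis (Fin m) ℝ Q)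
    (u w : Fin m → Q) (hw : b.det w ≠ 0) :
    {ε : ℝ | b.det (fun k => u k + ε • w k) = 0}.Finite := by
  set A := b.toMatrix u with hA
  set B := b.toMatrix w with hB
  have hB0 : B.det ≠ 0 := by rwa [hB, ← Basis.det_apply]
  have hBu : IsUnit B.det := isUnit_iff_ne_zero.2 hB0
  have h1 : ∀ ε : ℝ, b.det (fun k => u k + ε • w k) = B.det * (-(B⁻¹ * A)).charpoly.eval ε := by
    intro ε
    have e1 : b.toMatrix (fun k => u k + ε • w k) = A + ε • B := by
      ext i j
      simp [hA, hB, Basis.toMatrix_apply]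
    rw [Basis.det_apply, e1, Matrix.eval_charpoly, ← Matrix.det_mul]
    congr 1
    rw [mul_sub, mul_neg, ← mul_assoc, Matrix.mul_nonsing_inv B hBu, one_mul, sub_neg_eq_add,
      add_comm]
    congr 1
    rw [Matrix.scalar_apply, ← Matrix.smul_one_eq_diagonal, Matrix.mul_smul, mul_one]
  have h2 : {ε : ℝ | b.det (fun k => u k + ε • w k) = 0}
      ⊆ ((-(B⁻¹ * A)).charpoly.roots.toFinset : Set ℝ) := by
    intro ε hε
    have h3 : b.det (fun k => u k + ε • w k) = 0 := hε
    rw [h1] at h3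
    have h4 := (mul_eq_zero.1 h3).resolve_left hB0
    simp only [Finset.mem_coe, Multiset.mem_toFinset]
    rw [Polynomial.mem_roots (Matrix.charpoly_monic _).ne_zero]
    exact h4
  exact (Finset.finite_toSet _).subset h2

end HmPertAux

open HmPertAux

/-- N4a (perturbation to a nondegenerate configuration). -/
theorem perturb {V Q ρ : Type*} [AddCommGroup V] [Module ℝ V] [AddCommGroup Q] [Module ℝ Q]
    [Fintype ρ] {m : ℕ} (b : Basis (Fin m) ℝ Q)
    (φ : ρ → V →ₗ[ℝ] Q) (hspan : ⨆ j, LinearMap.range (φ j) = ⊤) (x : Fin (m + 1) → V)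
    (A : Set (Fin (m + 1) → ρ))
    (hA : ∀ f ∈ A, ∃ ℓ : Q →ₗ[ℝ] ℝ, ∀ u, 0 < ℓ (φ (f u) (x u))) :
    ∃ x' : Fin (m + 1) → V, (∀ f ∈ A, ∃ ℓ : Q →ₗ[ℝ] ℝ, ∀ u, 0 < ℓ (φ (f u) (x' u))) ∧
      ∃ g : Fin m → ρ, b.det (fun k => φ (g k) (x' k.succ)) ≠ 0 := by
  obtain ⟨g, z, hgz⟩ := exists_basis b φ hspan
  have hfin := finite_zeros b (fun k => φ (g k) (x k.succ)) (fun k => φ (g k) (z k)) hgz
  set z' : Fin (m + 1) → V := Fin.cons 0 z with hz'
  choose! ℓ hℓ using hA
  have hev : ∀ᶠ ε in nhds (0 : ℝ), ∀ f ∈ A, ∀ u,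
      0 < ℓ f (φ (f u) (x u)) + ε * ℓ f (φ (f u) (z' u)) := by
    have h1 : ∀ᶠ ε in nhds (0 : ℝ), ∀ f : Fin (m + 1) → ρ, f ∈ A → ∀ u,
        0 < ℓ f (φ (f u) (x u)) + ε * ℓ f (φ (f u) (z' u)) := by
      rw [Filter.eventually_all]
      intro f
      by_cases hf : f ∈ A
      · have h2 : ∀ᶠ ε in nhds (0 : ℝ), ∀ u,
            0 < ℓ f (φ (f u) (x u)) + ε * ℓ f (φ (f u) (z' u)) := by
          rw [Filter.eventually_all]
          intro u
          have hc : Filter.Tendsto (fun ε : ℝ => ℓ f (φ (f u) (x u)) + ε * ℓ f (φ (f u) (z' u)))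
              (nhds 0) (nhds (ℓ f (φ (f u) (x u)) + 0 * ℓ f (φ (f u) (z' u)))) := by
            apply Continuous.tendsto
            fun_prop
          rw [zero_mul, add_zero] at hc
          exact hc.eventually_const_lt (hℓ f hf u)
        filter_upwards [h2] with ε hε _
        exact hε
      · exact Filter.Eventually.of_forall fun ε hf' => absurd hf' hf
    exact h1
  obtain ⟨δ, hδ, h⟩ := Metric.eventually_nhds_iff.1 hev
  obtain ⟨ε, hε, hε'⟩ := (Set.Ioo_infinite hδ).exists_notMem_finite hfin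
  refine ⟨fun u => x u + ε • z' u, fun f hf => ⟨ℓ f, fun u => ?_⟩, g, ?_⟩
  · have h1 := h (y := ε) (by
      rw [Real.dist_eq, sub_zero, abs_of_pos hε.1]
      exact hε.2) f hf u
    rw [map_add, map_add, map_smul, map_smul, smul_eq_mul]
    exact h1
  · have h2 : (fun k : Fin m => φ (g k) ((fun u => x u + ε • z' u) k.succ)) =
        fun k => φ (g k) (x k.succ) + ε • φ (g k) (z k) := by
      funext k
      simp only [hz', Fin.cons_succ, map_add, map_smul]
    rw [h2]
    exact hε'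

end Pool.Agent.MPa0a351.Hm
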