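import Pool.Agent.Lib.MP_a0a351_co.HmDefs

/-!
Averaging over the slots (module H7 of S10471).
-/

set_option autoImplicit false
set_option linter.unusedSectionVars false

open Finset

namespace Pool.Agent.MPa0a351.Hm

variable {U ρ : Type*} [Fintype U] [DecidableEq U] [Fintype ρ] [DecidableEq ρ]

namespace HmSlotsAux

variable {k : ρ → ℕ}

/-- The column word of a slot word. -/
def pj (x : U → Option (Σ j, Fin (k j))) : U → Option ρ := fun u => (x u).map Sigma.fst

/-- Every slot is used at most once. -/
def Inj (x : U → Option (Σ j, Fin (k j))) : Prop := ∀ σ, (col x σ).card ≤ 1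

theorem supp_pj (x : U → Option (Σ j, Fin (k j))) : supp (pj x) = supp x := by
  ext u
  rw [mem_supp, mem_supp]
  unfold pj
  cases x u <;> simp

theorem pj_update (x : U → Option (Σ j, Fin (k j))) (u : U) (σ : Σ j, Fin (k j)) :
    pj (Function.update x u (some σ)) = Function.update (pj x) u (some σ.1) := by
  funext v
  by_cases h : v = u
  · subst h
    simp [pj]
  · simp [pj, h]

theorem pj_update_none (x : U → Option (Σ j, Fin (k j))) (u : U) :
    pj (Function.update x u none) = Function.update (pj x) u none := by
  funext v
  by_cases h : v = u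
  · subst h
    simp [pj]
  · simp [pj, h]

theorem fiber_sum (H : (U → Option (Σ j, Fin (k j))) → ℝ) (w : U → Option ρ) {u : U}
    (hu : u ∉ supp w) (j : ρ) :
    ∑ y ∈ univ.filter (fun y => pj (k := k) y = Function.update w u (some j)), H y =
      ∑ x ∈ univ.filter (fun x => pj (k := k) x = w), ∑ i : Fin (k j),
        H (Function.update x u (some ⟨j, i⟩)) := by
  rw [← Finset.sum_product']
  symm
  refine Finset.sum_bij (fun p _ => Function.update p.1 u (some ⟨j, p.2⟩)) ?_ ?_ ?_ ?_
  · rintro ⟨x, i⟩ hp
    rw [Finset.mem_product, Finset.mem_filter] at hp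
    rw [Finset.mem_filter]
    refine ⟨mem_univ _, ?_⟩
    rw [pj_update]
    simp only
    rw [hp.1.2]
  · rintro ⟨x, i⟩ hp ⟨x', i'⟩ hp' heq
    rw [Finset.mem_product, Finset.mem_filter] at hp hp'
    simp only at heq hp hp'
    have hx : x u = none := by
      by_contra h
      apply hu
      rw [← hp.1.2, supp_pj, mem_supp]
      exact h
    have hx' : x' u = none := by
      by_contra h
      apply hu
      rw [← hp'.1.2, supp_pj, mem_supp]
      exact h
    have h1 := congrFun heq u
    rw [Function.update_self, Function.update_self, Option.some_inj] at h1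
    have h2 : i = i' := by
      have := (Sigma.mk.inj h1).2
      exact eq_of_heq this
    have h3 : x = x' := by
      funext v
      by_cases hv : v = u
      · rw [hv, hx, hx']
      · have h4 := congrFun heq v
        rw [Function.update_of_ne hv, Function.update_of_ne hv] at h4
        exact h4
    rw [h2, h3]
  · intro y hy
    rw [Finset.mem_filter] at hy
    have h1 := congrFun hy.2 u
    rw [Function.update_self] at h1
    unfold pj at h1
    rw [Option.map_eq_some_iff] at h1
    obtain ⟨⟨j', i⟩, h2, h3⟩ := h1
    simp only at h3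
    subst h3
    refine ⟨(Function.update y u none, i), ?_, ?_⟩
    · rw [Finset.mem_product, Finset.mem_filter]
      refine ⟨⟨mem_univ _, ?_⟩, mem_univ _⟩
      simp only
      rw [pj_update_none, hy.2, Function.update_idem, update_none_of hu]
    · simp only
      rw [Function.update_idem, ← h2, Function.update_eq_self]
  · rintro ⟨x, i⟩ _
    rfl

theorem col_sub {x : U → Option (Σ j, Fin (k j))} {u : U} (hu : u ∉ supp x)
    (σ τ : Σ j, Fin (k j)) : col x τ ⊆ col (Function.update x u (some σ)) τ := by
  intro v hv
  have hvu : v ≠ u := fun h => hu (h ▸ col_subset x τ hv)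
  rw [mem_col] at hv ⊢
  rw [Function.update_of_ne hvu]
  exact hv

theorem inj_of_update {x : U → Option (Σ j, Fin (k j))} {u : U} (hu : u ∉ supp x)
    {σ : Σ j, Fin (k j)} (h : Inj (Function.update x u (some σ))) : Inj x := fun τ =>
  (Finset.card_le_card (col_sub hu σ τ)).trans (h τ)

theorem inj_update_iff {x : U → Option (Σ j, Fin (k j))} (hx : Inj x) {u : U} (hu : u ∉ supp x)
    (τ : Σ j, Fin (k j)) : Inj (Function.update x u (some τ)) ↔ col x τ = ∅ := by
  have hu' : u ∉ col x τ := fun h => hu (col_subset x τ h)
  constructor
  · intro h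
    have h1 := h τ
    rw [col_update_self, Finset.card_insert_of_notMem hu'] at h1
    exact Finset.card_eq_zero.mp (by omega)
  · intro h σ
    by_cases hσ : σ = τ
    · rw [hσ, col_update_self, h]
      simp
    · rw [col_update_ne x u hσ]
      exact (Finset.card_le_card (Finset.erase_subset _ _)).trans (hx σ)

theorem card_col_pj (x : U → Option (Σ j, Fin (k j))) (j : ρ) :
    (col (pj x) j).card = ∑ i : Fin (k j), (col x ⟨j, i⟩).card := by
  rw [← Finset.card_biUnion]
  · congr 1
    ext u
    rw [mem_col, Finset.mem_biUnion]
    unfold pj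
    rw [Option.map_eq_some_iff]
    constructor
    · rintro ⟨⟨j', i⟩, h1, h2⟩
      simp only at h2
      subst h2
      exact ⟨i, mem_univ _, mem_col.mpr h1⟩
    · rintro ⟨i, _, hi⟩
      rw [mem_col] at hi
      exact ⟨⟨j, i⟩, hi, rfl⟩
  · intro i _ i' _ hii
    refine col_disjoint x fun h => hii ?_
    exact eq_of_heq (Sigma.mk.inj h).2

theorem card_unused {x : U → Option (Σ j, Fin (k j))} (hx : Inj x) (j : ρ) :
    (univ.filter fun i : Fin (k j) => col x ⟨j, i⟩ = ∅).card + (col (pj x) j).card = k j := by
  have h1 : (col (pj x) j).card = (univ.filter fun i : Fin (k j) => ¬ col x ⟨j, i⟩ = ∅).card := by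
    rw [card_col_pj, Finset.card_filter]
    refine Finset.sum_congr rfl fun i _ => ?_
    by_cases h : col x ⟨j, i⟩ = ∅
    · rw [if_neg (not_not.mpr h), h, Finset.card_empty]
    · rw [if_pos h]
      have h2 := hx ⟨j, i⟩
      have h3 := Finset.card_pos.mpr (Finset.nonempty_iff_ne_empty.mpr h)
      omega
  rw [h1, Finset.card_filter_add_card_filter_not]
  simp

open Classical in
/-- The number of injective lifts. -/
noncomputable def NL (k : ρ → ℕ) (w : U → Option ρ) : ℝ :=
  ∑ x ∈ univ.filter (fun x => pj (k := k) x = w), if Inj x then (1 : ℝ) else 0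

theorem NL_update (v : U → Option ρ) {u : U} (hu : u ∉ supp v) (j : ρ) {m : ℕ}
    (hm : m + (col v j).card = k j) :
    NL k (Function.update v u (some j)) = NL k v * m := by
  classical
  unfold NL
  rw [fiber_sum _ _ hu, Finset.sum_mul]
  refine Finset.sum_congr rfl fun x hx => ?_
  have hxv : pj x = v := (Finset.mem_filter.mp hx).2
  have hux : u ∉ supp x := by
    rw [← supp_pj, hxv]
    exact hu
  by_cases h : Inj x
  · rw [if_pos h, one_mul]
    have h1 : ∀ i : Fin (k j), (if Inj (Function.update x u (some ⟨j, i⟩)) then (1 : ℝ) else 0) =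
        if col x ⟨j, i⟩ = ∅ then (1 : ℝ) else 0 := by
      intro i
      simp only [inj_update_iff h hux]
    rw [Finset.sum_congr rfl fun i _ => h1 i, Finset.sum_boole]
    have h2 := card_unused h j
    rw [hxv] at h2
    congr 1
    omega
  · rw [if_neg h, zero_mul]
    refine Finset.sum_eq_zero fun i _ => ?_
    rw [if_neg]
    exact fun h' => h (inj_of_update hux h')

theorem NL_pos : ∀ (N : ℕ) (w : U → Option ρ), (supp w).card = N →
    (∀ j, (col w j).card ≤ k j) → 0 < NL k w := by
  classical
  intro N
  induction N with
  | zero =>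
    intro w hw _
    have hw0 : w = fun _ => none := by
      funext u
      by_contra h
      have h1 : u ∈ supp w := mem_supp.mpr h
      rw [Finset.card_eq_zero.mp hw] at h1
      exact absurd h1 (Finset.notMem_empty u)
    unfold NL
    have h0 : ∀ x ∈ univ.filter (fun x => pj (k := k) x = w), 0 ≤ if Inj x then (1 : ℝ) else 0 := by
      intro x _
      split_ifs
      · exact zero_le_one
      · exact le_rfl
    refine lt_of_lt_of_le zero_lt_one ?_
    have h1 : (fun _ : U => (none : Option (Σ j, Fin (k j)))) ∈
        univ.filter (fun x => pj (k := k) x = w) := by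
      rw [Finset.mem_filter, hw0]
      exact ⟨mem_univ _, rfl⟩
    have h2 := Finset.single_le_sum h0 h1
    have h3 : Inj (fun _ : U => (none : Option (Σ j, Fin (k j)))) := by
      intro σ
      rw [col_none]
      simp
    rw [if_pos h3] at h2
    exact h2
  | succ N ih =>
    intro w hw hcol
    obtain ⟨u, hu⟩ : (supp w).Nonempty := by
      rw [← Finset.card_pos]
      omega
    obtain ⟨j, hj⟩ := Option.ne_none_iff_exists'.mp (mem_supp.mp hu)
    obtain ⟨w', hw'⟩ : ∃ w', w' = Function.update w u none := ⟨_, rfl⟩
    have hu' : u ∉ supp w' := by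
      rw [hw', supp_update_none]
      exact Finset.notMem_erase u _
    have hww : w = Function.update w' u (some j) := by
      rw [hw', Function.update_idem, ← hj, Function.update_eq_self]
    have hcj : (col w j).card = (col w' j).card + 1 := by
      rw [hww, col_update_self, Finset.card_insert_of_notMem]
      exact fun h => hu' (col_subset w' j h)
    have hkj := hcol j
    have h1 := NL_update (k := k) w' hu' j (m := k j - (col w' j).card) (by omega)
    rw [← hww] at h1
    rw [h1]
    refine mul_pos (ih w' ?_ ?_) ?_
    · rw [hw', supp_update_none, Finset.card_erase_of_mem hu]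
      omega
    · intro i
      rw [hw', col_update_none]
      exact (Finset.card_le_card (Finset.erase_subset _ _)).trans (hcol i)
    · exact_mod_cast (by omega : 0 < k j - (col w' j).card)

end HmSlotsAux

open HmSlotsAux

/-- H7: averaging over the slots. -/
theorem skel_ex (S : Finset U) (k : ρ → ℕ) {n : ℕ}
    (h : Ex S (KK (fun _ : (Σ j, Fin (k j)) => {M : Finset U | M.card ≤ 1}) S) n) :
    Ex S (KK (fun j : ρ => {M : Finset U | M.card ≤ k j}) S) n := by
  classical
  intro s hs f hf hbf
  obtain ⟨F, hFdef⟩ : ∃ F : (U → Option (Σ j, Fin (k j))) → ℝ, F = fun x =>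
      if supp x ⊆ S ∧ Inj x then f (pj x) / NL k (pj x) else 0 := ⟨_, rfl⟩
  have hF : Ch (KK (fun _ : (Σ j, Fin (k j)) => {M : Finset U | M.card ≤ 1}) S) n F := by
    intro x hx
    rw [hFdef] at hx
    simp only at hx
    by_cases h1 : supp x ⊆ S ∧ Inj x
    · rw [if_pos h1] at hx
      have h2 : f (pj x) ≠ 0 := fun h' => hx (by rw [h', zero_div])
      refine ⟨⟨h1.1, h1.2⟩, ?_⟩
      rw [← supp_pj]
      exact (hf _ h2).2
    · rw [if_neg h1] at hx
      exact absurd rfl hx
  have hbF : bd s F = 0 := by
    funext x
    rw [Pi.zero_apply]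
    by_cases hx : supp x ⊆ S ∧ Inj x
    · have key : ∀ u ∈ univ \ supp x,
          ∑ σ, s (insert u (supp x)) u * F (Function.update x u (some σ)) =
          (∑ j, s (insert u (supp (pj x))) u * f (Function.update (pj x) u (some j)))
            / NL k (pj x) := by
        intro u hu
        have hux : u ∉ supp x := (Finset.mem_sdiff.mp hu).2
        have hupx : u ∉ supp (pj x) := by rw [supp_pj]; exact hux
        rw [Fintype.sum_sigma, Finset.sum_div, supp_pj]
        refine Finset.sum_congr rfl fun j _ => ?_
        rw [← Finset.mul_sum, mul_div_assoc]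
        congr 1
        by_cases hf0 : f (Function.update (pj x) u (some j)) = 0
        · rw [hf0, zero_div]
          refine Finset.sum_eq_zero fun i _ => ?_
          rw [hFdef]
          simp only
          rw [pj_update, hf0, zero_div]
          split_ifs <;> rfl
        · obtain ⟨⟨h1, h2⟩, _⟩ := hf _ hf0
          have h3 : (col (Function.update (pj x) u (some j)) j).card ≤ k j := h2 j
          rw [col_update_self, Finset.card_insert_of_notMem
            (fun h' => hupx (col_subset _ _ h'))] at h3
          have h4 := card_unused hx.2 j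
          obtain ⟨m, hm⟩ : ∃ m, m = (univ.filter fun i : Fin (k j) => col x ⟨j, i⟩ = ∅).card :=
            ⟨_, rfl⟩
          rw [← hm] at h4
          have hm0 : (m : ℝ) ≠ 0 := by
            have : m ≠ 0 := by omega
            exact_mod_cast this
          have h5 : ∀ i : Fin (k j), F (Function.update x u (some ⟨j, i⟩)) =
              if col x ⟨j, i⟩ = ∅ then f (Function.update (pj x) u (some j)) /
                NL k (Function.update (pj x) u (some j)) else 0 := by
            intro i
            rw [hFdef]
            simp only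
            rw [pj_update]
            have h6 : (supp (Function.update x u (some (⟨j, i⟩ : Σ j, Fin (k j)))) ⊆ S ∧
                Inj (Function.update x u (some ⟨j, i⟩))) ↔ col x ⟨j, i⟩ = ∅ := by
              rw [inj_update_iff hx.2 hux]
              constructor
              · exact fun h' => h'.2
              · intro h'
                refine ⟨?_, h'⟩
                rw [← supp_pj, pj_update]
                exact h1
            simp only [h6]
          rw [Finset.sum_congr rfl fun i _ => h5 i, ← Finset.sum_filter, Finset.sum_const, ← hm,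
            nsmul_eq_mul, NL_update (pj x) hupx j h4]
          field_simp
      unfold bd
      rw [Finset.sum_congr rfl key, ← Finset.sum_div]
      have h7 := congrFun hbf (pj x)
      unfold bd at h7
      rw [supp_pj] at h7
      rw [supp_pj, h7, Pi.zero_apply, zero_div]
    · unfold bd
      refine Finset.sum_eq_zero fun u hu => Finset.sum_eq_zero fun σ _ => ?_
      have hux : u ∉ supp x := (Finset.mem_sdiff.mp hu).2
      rw [hFdef]
      simp only
      rw [if_neg, mul_zero]
      rintro ⟨h1, h2⟩
      apply hx
      refine ⟨?_, inj_of_update hux h2⟩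
      rw [supp_update_some] at h1
      exact (Finset.subset_insert _ _).trans h1
  obtain ⟨H, hH, hbH⟩ := h s hs F hF hbF
  obtain ⟨g, hg⟩ : ∃ g : (U → Option ρ) → ℝ, g = fun w =>
      ∑ x ∈ univ.filter (fun x => pj (k := k) x = w), H x := ⟨_, rfl⟩
  refine ⟨g, ?_, ?_⟩
  · intro w hw
    rw [hg] at hw
    obtain ⟨x, hx, hx0⟩ := Finset.exists_ne_zero_of_sum_ne_zero hw
    rw [Finset.mem_filter] at hx
    obtain ⟨⟨h1, h2⟩, h3⟩ := hH x hx0
    rw [← hx.2, supp_pj]
    refine ⟨⟨by rw [supp_pj]; exact h1, fun j => ?_⟩, h3⟩
    have h4 := card_unused (show Inj x from h2) j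
    show (col (pj x) j).card ≤ k j
    omega
  · funext w
    have h1 : bd s g w = ∑ x ∈ univ.filter (fun x => pj (k := k) x = w), bd s H x := by
      have h2 : ∀ x ∈ univ.filter (fun x => pj (k := k) x = w), bd s H x =
          ∑ u ∈ univ \ supp w, ∑ j, ∑ i : Fin (k j), s (insert u (supp w)) u *
            H (Function.update x u (some ⟨j, i⟩)) := by
        intro x hx
        rw [Finset.mem_filter] at hx
        unfold bd
        rw [← hx.2, supp_pj]
        refine Finset.sum_congr rfl fun u _ => ?_
        rw [Fintype.sum_sigma]
      rw [Finset.sum_congr rfl h2, Finset.sum_comm]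
      unfold bd
      refine Finset.sum_congr rfl fun u hu => ?_
      have huw : u ∉ supp w := (Finset.mem_sdiff.mp hu).2
      rw [Finset.sum_comm]
      refine Finset.sum_congr rfl fun j _ => ?_
      rw [hg]
      simp only
      rw [fiber_sum H w huw j, Finset.mul_sum]
      refine Finset.sum_congr rfl fun x _ => ?_
      rw [Finset.mul_sum]
    rw [h1, hbH, hFdef]
    by_cases hf0 : f w = 0
    · rw [hf0]
      refine Finset.sum_eq_zero fun x hx => ?_
      rw [Finset.mem_filter] at hx
      rw [hx.2, hf0, zero_div]
      split_ifs <;> rfl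
    · obtain ⟨⟨h2, h3⟩, _⟩ := hf w hf0
      have hpos := NL_pos (k := k) _ w rfl h3
      have h4 : ∀ x ∈ univ.filter (fun x => pj (k := k) x = w),
          (if supp x ⊆ S ∧ Inj x then f (pj x) / NL k (pj x) else 0) =
            f w / NL k w * (if Inj x then (1 : ℝ) else 0) := by
        intro x hx
        rw [Finset.mem_filter] at hx
        have h5 : supp x ⊆ S := by
          rw [← supp_pj, hx.2]
          exact h2
        rw [hx.2]
        by_cases h6 : Inj x
        · rw [if_pos ⟨h5, h6⟩, if_pos h6, mul_one]
        · rw [if_neg (fun h' => h6 h'.2), if_neg h6, mul_zero]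
      rw [Finset.sum_congr rfl h4, ← Finset.mul_sum]
      have h7 : ∑ x ∈ univ.filter (fun x => pj (k := k) x = w), (if Inj x then (1 : ℝ) else 0) =
          NL k w := by
        unfold NL
        exact Finset.sum_congr rfl fun x _ => by congr
      rw [h7]
      exact div_mul_cancel₀ _ hpos.ne'

end Pool.Agent.MPa0a351.Hm
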