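import Pool.Agent.Lib.MP_a0a351_co.LPDefs

/-!
LP lemma, module LP1: a point of a polyhedron where the tight constraints span.
-/

set_option autoImplicit false

open Module Finset

namespace Pool.Agent.MPa0a351

namespace LP1Aux

variable {U J : Type*} [AddCommGroup U] [Module ℝ U] [FiniteDimensional ℝ U] [Finite J]

omit [FiniteDimensional ℝ U] in
theorem step (μ : J → U) (M : J → ℝ) (w : U →ₗ[ℝ] ℝ) (h0 : ∀ P, w (μ P) ≤ M P) (P1 : J)
    (hP1 : μ P1 ∉ Submodule.span ℝ (μ '' {P | w (μ P) = M P})) :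
    ∃ w' : U →ₗ[ℝ] ℝ, (∀ P, w' (μ P) ≤ M P) ∧
      Submodule.span ℝ (μ '' {P | w (μ P) = M P}) <
        Submodule.span ℝ (μ '' {P | w' (μ P) = M P}) := by
  classical
  have hv : ∃ v : U →ₗ[ℝ] ℝ, 0 < v (μ P1) ∧
      ∀ x ∈ Submodule.span ℝ (μ '' {P | w (μ P) = M P}), v x = 0 := by
    obtain ⟨f, hf, hf'⟩ := Submodule.exists_le_ker_of_notMem hP1
    rcases lt_or_gt_of_ne hf with h1 | h1
    · exact ⟨-f, by rw [LinearMap.neg_apply]; linarith, fun x hx => by
        rw [LinearMap.neg_apply, show f x = 0 from hf' hx, neg_zero]⟩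
    · exact ⟨f, h1, fun x hx => hf' hx⟩
  obtain ⟨v, hv1, hv0⟩ := hv
  have := Fintype.ofFinite J
  obtain ⟨Q, hQ, hQmin⟩ := Finset.exists_min_image
    (Finset.univ.filter fun P => 0 < v (μ P)) (fun P => (M P - w (μ P)) / v (μ P))
    ⟨P1, by simp [hv1]⟩
  have hQpos : 0 < v (μ Q) := (Finset.mem_filter.1 hQ).2
  obtain ⟨t, ht⟩ : ∃ t : ℝ, t = (M Q - w (μ Q)) / v (μ Q) := ⟨_, rfl⟩
  have ht0 : 0 ≤ t := by
    rw [ht]
    exact div_nonneg (by linarith [h0 Q]) hQpos.le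
  have hap : ∀ P, (w + t • v) (μ P) = w (μ P) + t * v (μ P) := fun P => by
    rw [LinearMap.add_apply, LinearMap.smul_apply, smul_eq_mul]
  have htight : ∀ P, w (μ P) = M P → (w + t • v) (μ P) = M P := by
    intro P hP
    rw [hap, hv0 _ (Submodule.subset_span ⟨P, hP, rfl⟩), mul_zero, add_zero, hP]
  have hQt : (w + t • v) (μ Q) = M Q := by
    rw [hap, ht, div_mul_cancel₀ _ hQpos.ne']
    ring
  refine ⟨w + t • v, fun P => ?_, ?_⟩
  · rw [hap]
    by_cases hP : 0 < v (μ P)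
    · have h1 := hQmin P (Finset.mem_filter.2 ⟨Finset.mem_univ _, hP⟩)
      rw [← ht, le_div_iff₀ hP] at h1
      linarith
    · have h1 : t * v (μ P) ≤ 0 := mul_nonpos_of_nonneg_of_nonpos ht0 (not_lt.1 hP)
      linarith [h0 P]
  · refine lt_of_le_of_ne (Submodule.span_mono (Set.image_mono fun P hP => htight P hP)) ?_
    intro heq
    have h1 : μ Q ∈ Submodule.span ℝ (μ '' {P | w (μ P) = M P}) := by
      rw [heq]
      exact Submodule.subset_span ⟨Q, hQt, rfl⟩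
    exact hQpos.ne' (hv0 _ h1)

theorem main (μ : J → U) (M : J → ℝ) (n : ℕ) : ∀ w : U →ₗ[ℝ] ℝ, (∀ P, w (μ P) ≤ M P) →
    finrank ℝ U ≤ finrank ℝ (Submodule.span ℝ (μ '' {P | w (μ P) = M P})) + n →
    ∃ w : U →ₗ[ℝ] ℝ, (∀ P, w (μ P) ≤ M P) ∧
      Submodule.span ℝ (Set.range μ) ≤ Submodule.span ℝ (μ '' {P | w (μ P) = M P}) := by
  induction n with
  | zero =>
    intro w hw hn
    refine ⟨w, hw, ?_⟩
    have : Submodule.span ℝ (μ '' {P | w (μ P) = M P}) = ⊤ :=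
      Submodule.eq_top_of_finrank_eq (le_antisymm (Submodule.finrank_le _) (by simpa using hn))
    rw [this]
    exact le_top
  | succ n ih =>
    intro w hw hn
    by_cases hall : ∀ P, μ P ∈ Submodule.span ℝ (μ '' {P | w (μ P) = M P})
    · refine ⟨w, hw, Submodule.span_le.2 ?_⟩
      rintro _ ⟨P, rfl⟩
      exact hall P
    · push Not at hall
      obtain ⟨P1, hP1⟩ := hall
      obtain ⟨w', hw', hlt⟩ := step μ M w hw P1 hP1
      have := Submodule.finrank_lt_finrank_of_lt hlt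
      exact ih w' hw' (by omega)

end LP1Aux

/-- module LP1: a point of a polyhedron where the tight constraints span. -/
theorem lp_point {U J : Type*} [AddCommGroup U] [Module ℝ U] [FiniteDimensional ℝ U] [Finite J]
    (μ : J → U) (M : J → ℝ) (w0 : U →ₗ[ℝ] ℝ) (h0 : ∀ P, w0 (μ P) ≤ M P) :
    ∃ w : U →ₗ[ℝ] ℝ, (∀ P, w (μ P) ≤ M P) ∧
      Submodule.span ℝ (Set.range μ) ≤ Submodule.span ℝ (μ '' {P | w (μ P) = M P}) :=
  LP1Aux.main μ M (finrank ℝ U) w0 h0 (by omega)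

end Pool.Agent.MPa0a351
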