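import Pool.Agent.Lib.MP_a0a351_co.LPDefs

set_option autoImplicit false

open Module Finset

namespace Pool.Agent.MPa0a351

variable {ι V : Type*} [Fintype ι] [AddCommGroup V] [Module ℝ V] [FiniteDimensional ℝ V]

/-- module LP2a: existence of coordinates. -/
theorem exists_crd {y : ι → V} {C : Finset ι} (hC : Circ y C) :
    ∃ (a : ι → ℝ) (β : V →ₗ[ℝ] (ι → ℝ)), Crd y C a β := by
  classical
  obtain ⟨a, ha, ha0, _, hsum⟩ := hC
  -- coefficient vectors supported on `C`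
  let W : Submodule ℝ (ι → ℝ) :=
    { carrier := {b | ∀ i, i ∉ C → b i = 0}
      add_mem' := fun {a b} ha hb i hi => by
        rw [Pi.add_apply, ha i hi, hb i hi, add_zero]
      zero_mem' := fun _ _ => rfl
      smul_mem' := fun t b hb i hi => by rw [Pi.smul_apply, hb i hi, smul_zero] }
  have hW : ∀ b : ι → ℝ, b ∈ W ↔ ∀ i, i ∉ C → b i = 0 := fun b => Iff.rfl
  have hmem : ∀ b : W, ev y b.1 ∈ Sp y C := by
    intro b
    rw [ev_apply]
    refine Submodule.sum_mem _ fun i _ => ?_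
    by_cases hi : i ∈ C
    · exact Submodule.smul_mem _ _ (Submodule.subset_span ⟨i, hi, rfl⟩)
    · rw [(hW b.1).1 b.2 i hi, zero_smul]
      exact zero_mem _
  let ψ : W →ₗ[ℝ] Sp y C := ((ev y).comp W.subtype).codRestrict (Sp y C) hmem
  have hψ : ∀ b : W, ((ψ b : Sp y C) : V) = ∑ i, b.1 i • y i := fun b => rfl
  have hsurj : LinearMap.range ψ = ⊤ := by
    rw [LinearMap.range_eq_top]
    rintro ⟨x, hx⟩
    obtain ⟨g, hg, hgx⟩ := MODC.exists_of_mem_Sp y C x hx
    refine ⟨⟨g, (hW g).2 hg⟩, ?_⟩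
    apply Subtype.ext
    rw [hψ]
    exact hgx
  obtain ⟨s, hs⟩ := ψ.exists_rightInverse_of_surjective hsurj
  obtain ⟨β, hβ⟩ := LinearMap.exists_extend s
  refine ⟨a, W.subtype.comp β, ha, ha0, hsum, ?_, ?_⟩
  · intro v i hi
    exact (hW _).1 (β v).2 i hi
  · intro w hw
    have h1 : β w = s ⟨w, hw⟩ := by rw [← hβ]; rfl
    have h2 : ψ (s ⟨w, hw⟩) = ⟨w, hw⟩ := by
      have := LinearMap.congr_fun hs ⟨w, hw⟩
      simpa using this
    have h3 := hψ (s ⟨w, hw⟩)
    rw [h2] at h3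
    rw [LinearMap.comp_apply, h1]
    exact h3.symm

end Pool.Agent.MPa0a351
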