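import Pool.Agent.Lib.MP_a0a351_co.LPDefs

set_option autoImplicit false

open Module Finset

namespace Pool.Agent.MPa0a351

variable {ι V : Type*} [Fintype ι] [AddCommGroup V] [Module ℝ V] [FiniteDimensional ℝ V]

/-- module LP2b: conical decomposition of the nonnegative dependences modulo the span of `C`. -/
theorem RowW.conic {d c : ℕ} {y : ι → V} [DecidableEq ι] {E : Submodule ℝ V} {C L : Finset ι}
    (h : RowW d c y E C L) (K : Set (ι → ℝ)) (h0 : (0 : ι → ℝ) ∈ K)
    (hadd : ∀ a ∈ K, ∀ b ∈ K, a + b ∈ K) (hcirc : ∀ P μ, PCirc y C L c P μ → μ ∈ K)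
    (b : ι → ℝ) (hb : ∀ i, 0 ≤ b i) (hbD : b ∈ DL y C L) : b ∈ K := by
  classical
  have hq := LPW.finrank_quot h
  have main : ∀ n : ℕ, ∀ b : ι → ℝ, (∀ i, 0 ≤ b i) → b ∈ DL y C L →
      (univ.filter fun i => b i ≠ 0).card ≤ n → b ∈ K := by
    intro n
    induction n with
    | zero =>
      intro b _ _ hn
      have h1 : b = 0 := by
        funext i
        by_contra hi
        have h2 : i ∈ univ.filter fun i => b i ≠ 0 := mem_filter.2 ⟨mem_univ _, hi⟩
        have := card_pos.2 ⟨i, h2⟩
        omega
      rw [h1]
      exact h0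
    | succ n ih =>
      intro b hb hbD hn
      by_cases hb0 : ∀ i, b i = 0
      · have h1 : b = 0 := funext hb0
        rw [h1]
        exact h0
      push Not at hb0
      obtain ⟨i0, hi0⟩ := hb0
      rw [mem_DL] at hbD
      obtain ⟨hbL, hbC⟩ := hbD
      set S : Finset ι := univ.filter fun i => b i ≠ 0 with hS
      have hSL : S ⊆ L := by
        intro i hi
        rw [hS, mem_filter] at hi
        by_contra hiL
        exact hi.2 (hbL i hiL)
      have hbS : ∀ i, i ∉ S → b i = 0 := by
        intro i hi
        by_contra hne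
        exact hi (mem_filter.2 ⟨mem_univ _, hne⟩)
      have hsumpos : 0 < ∑ i, b i := by
        have h1 : 0 < b i0 := lt_of_le_of_ne (hb i0) (Ne.symm hi0)
        exact lt_of_lt_of_le h1 (single_le_sum (fun i _ => hb i) (mem_univ i0))
      have hrel : ∑ i, b i • (Sp y C).mkQ (y i) = 0 := by
        have h1 : (Sp y C).mkQ (∑ i, b i • y i) = 0 := by
          rw [Submodule.mkQ_apply, Submodule.Quotient.mk_eq_zero]
          exact hbC
        rw [map_sum] at h1
        rw [← h1]
        exact sum_congr rfl fun i _ => (map_smul _ _ _).symm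
      obtain ⟨P, hPS, hPne, hPcard, a, ha, ha0, hasum⟩ :=
        MODC.caratheodory (fun i => (Sp y C).mkQ (y i)) S b hb hbS hsumpos hrel
      have hmem : ∑ i, a i • y i ∈ Sp y C := by
        rw [← Submodule.Quotient.mk_eq_zero, ← Submodule.mkQ_apply, map_sum]
        rw [← hasum]
        refine Finset.sum_congr rfl fun i _ => ?_
        rw [map_smul]
      have hPL : P ⊆ L := hPS.trans hSL
      have hcard : P.card = c + 1 := by
        have h1 : c + 1 ≤ P.card := by
          obtain ⟨i, hi⟩ := hPne
          exact LPW.card_ge h hPL a ha0 ⟨i, (ha i hi).ne'⟩ hmem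
        omega
      -- the minimal ratio
      obtain ⟨j, hj, hjmin⟩ := P.exists_min_image (fun i => b i / a i) hPne
      have haj := ha j hj
      have hbj : 0 < b j := by
        have h1 : b j ≠ 0 := by
          have := hPS hj
          rw [hS, mem_filter] at this
          exact this.2
        exact lt_of_le_of_ne (hb j) (Ne.symm h1)
      set t : ℝ := b j / a j with ht
      have ht0 : 0 < t := div_pos hbj haj
      have hP1 : PCirc y C L c P (t • a) := by
        refine ⟨hPL, hcard, ?_, ?_, ?_⟩
        · intro i hi
          rw [Pi.smul_apply, smul_eq_mul]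
          exact mul_pos ht0 (ha i hi)
        · intro i hi
          rw [Pi.smul_apply, ha0 i hi, smul_zero]
        · have h1 : ∑ i, (t • a) i • y i = t • ∑ i, a i • y i := by
            rw [smul_sum]
            exact sum_congr rfl fun i _ => by rw [Pi.smul_apply, smul_assoc]
          rw [h1]
          exact Submodule.smul_mem _ _ hmem
      have hta : t • a ∈ DL y C L := by
        rw [mem_DL]
        exact ⟨fun i hi => hP1.zero i fun hP => hi (hPL hP), hP1.mem⟩
      have hnn : ∀ i, 0 ≤ (b - t • a) i := by
        intro i
        rw [Pi.sub_apply, Pi.smul_apply, smul_eq_mul, sub_nonneg]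
        by_cases hi : i ∈ P
        · have h1 := hjmin i hi
          have h2 := ha i hi
          calc t * a i ≤ b i / a i * a i := mul_le_mul_of_nonneg_right h1 h2.le
            _ = b i := div_mul_cancel₀ _ h2.ne'
        · rw [ha0 i hi, mul_zero]
          exact hb i
      have hlt : (univ.filter fun i => (b - t • a) i ≠ 0).card ≤ n := by
        have h1 : (univ.filter fun i => (b - t • a) i ≠ 0) ⊆ S.erase j := by
          intro i hi
          rw [mem_filter, Pi.sub_apply, Pi.smul_apply, smul_eq_mul] at hi
          rw [mem_erase]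
          refine ⟨?_, ?_⟩
          · rintro rfl
            apply hi.2
            rw [ht, div_mul_cancel₀ _ haj.ne', sub_self]
          · by_contra hiS
            apply hi.2
            rw [hbS i hiS, ha0 i fun hP => hiS (hPS hP), mul_zero, sub_zero]
        have h2 := card_le_card h1
        rw [card_erase_of_mem (hPS hj)] at h2
        omega
      have hrest := ih (b - t • a) hnn (sub_mem (mem_DL.2 ⟨hbL, hbC⟩) hta) hlt
      have h3 := hadd _ hrest _ (hcirc P _ hP1)
      rwa [sub_add_cancel] at h3
  exact main _ b hb hbD le_rfl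

end Pool.Agent.MPa0a351
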