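import Pool.Agent.Lib.MP_a0a351_co.LPDefs
import Pool.Agent.Lib.MP_a0a351_co.LP2b

/-!
MP_a0a351_co, module LP2c: the positive circuits span the dependences modulo the span of `C`.
-/

set_option autoImplicit false

open Module Finset

namespace Pool.Agent.MPa0a351

variable {ι V : Type*} [Fintype ι] [AddCommGroup V] [Module ℝ V] [FiniteDimensional ℝ V]

/-- module LP2c: a strictly positive dependence, hence the circuits span `DL`. -/
theorem RowW.span_DL {d c : ℕ} {y : ι → V} [DecidableEq ι] {E : Submodule ℝ V} {C L : Finset ι}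
    (h : RowW d c y E C L) (K : Submodule ℝ (ι → ℝ)) (hcirc : ∀ P μ, PCirc y C L c P μ → μ ∈ K) :
    DL y C L ≤ K := by
  obtain ⟨P, hPL, hP, hPC⟩ := h.exists_P
  obtain ⟨A, hA, hA0, hAs⟩ := h.full hPL hP hPC L
  have hcone : ∀ b : ι → ℝ, (∀ i, 0 ≤ b i) → b ∈ DL y C L → b ∈ K := fun b hb hbD =>
    h.conic (K : Set (ι → ℝ)) (zero_mem K) (fun _ ha _ hb => add_mem ha hb) hcirc b hb hbD
  -- the restriction of `A` to `L`
  set b0 : ι → ℝ := fun i => if i ∈ L then A i else 0 with hb0
  have hb0pos : ∀ i ∈ L, 0 < b0 i := by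
    intro i hi
    simp only [hb0, if_pos hi]
    exact hA i (Finset.mem_union_right _ hi)
  have hb0nn : ∀ i, 0 ≤ b0 i := by
    intro i
    by_cases hi : i ∈ L
    · exact (hb0pos i hi).le
    · simp only [hb0, if_neg hi, le_refl]
  have hb0D : b0 ∈ DL y C L := by
    rw [mem_DL]
    refine ⟨fun i hi => by simp only [hb0, if_neg hi], ?_⟩
    have h1 : ∑ i, b0 i • y i = -∑ i, (if i ∈ C then A i else 0) • y i := by
      rw [eq_neg_iff_add_eq_zero, ← Finset.sum_add_distrib, ← hAs]
      refine Finset.sum_congr rfl fun i _ => ?_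
      rw [← add_smul]
      congr 1
      simp only [hb0]
      by_cases hiC : i ∈ C
      · rw [if_neg (Finset.disjoint_left.1 h.disj hiC), if_pos hiC, zero_add]
      · by_cases hiL : i ∈ L
        · rw [if_pos hiL, if_neg hiC, add_zero]
        · rw [if_neg hiL, if_neg hiC, add_zero, hA0 i]
          simp only [Finset.mem_union, not_or]
          exact ⟨⟨hiC, fun hiP => hiL (hPL hiP)⟩, hiL⟩
    rw [h1]
    exact neg_mem (MODC.mem_Sp_sum y C _ fun i hi => if_neg hi)
  intro b hb
  obtain ⟨t, ht, htb⟩ := MODC.absorb L b0 hb0pos b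
  have h1 : b + t • b0 ∈ K := by
    refine hcone _ (fun i => ?_) (add_mem hb (Submodule.smul_mem _ _ hb0D))
    rw [Pi.add_apply, Pi.smul_apply, smul_eq_mul]
    by_cases hi : i ∈ L
    · exact (htb i hi).le
    · have h2 := (mem_DL.1 hb).1 i hi
      rw [h2, zero_add]
      exact mul_nonneg ht.le (hb0nn i)
  have h2 : t • b0 ∈ K := Submodule.smul_mem _ _ (hcone _ hb0nn hb0D)
  have h3 : b = (b + t • b0) - t • b0 := by rw [add_sub_cancel_right]
  rw [h3]
  exact sub_mem h1 h2

end Pool.Agent.MPa0a351
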