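import Pool.Agent.Lib.MP_a0a351_co.LPDefs

/-!
LP lemma, module LP2d: dimension of the space of dependences modulo the span of `C`.
-/

set_option autoImplicit false

open Module Finset

namespace Pool.Agent.MPa0a351

variable {ι V : Type*} [Fintype ι] [AddCommGroup V] [Module ℝ V] [FiniteDimensional ℝ V]

/-- module LP2d: dimension of `DL`. -/
theorem RowW.finrank_DL {d c : ℕ} {y : ι → V} [DecidableEq ι] {E : Submodule ℝ V}
    {C L : Finset ι} (h : RowW d c y E C L) : L.card ≤ finrank ℝ (DL y C L) + c := by
  let ext : (L → ℝ) →ₗ[ℝ] (ι → ℝ) :=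
    { toFun := fun b i => if hi : i ∈ L then b ⟨i, hi⟩ else 0
      map_add' := by
        intro a b
        funext i
        by_cases hi : i ∈ L <;> simp [hi]
      map_smul' := by
        intro t b
        funext i
        by_cases hi : i ∈ L <;> simp [hi] }
  have hext : ∀ (b : L → ℝ) (i : ι), ext b i = if hi : i ∈ L then b ⟨i, hi⟩ else 0 :=
    fun _ _ => rfl
  have hinj : Function.Injective ext := by
    intro a b hab
    funext i
    have h1 := congrFun hab i
    rw [hext, hext, dif_pos i.2, dif_pos i.2] at h1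
    exact h1
  let f : (L → ℝ) →ₗ[ℝ] V ⧸ Sp y C := (Sp y C).mkQ.comp ((ev y).comp ext)
  have hf : ∀ b, b ∈ LinearMap.ker f → ext b ∈ DL y C L := by
    intro b hb
    refine ⟨fun i hi => ?_, ?_⟩
    · rw [hext, dif_neg hi]
    · rw [LinearMap.mem_ker] at hb
      have h1 : (Sp y C).mkQ (ev y (ext b)) = 0 := hb
      rwa [Submodule.mkQ_apply, Submodule.Quotient.mk_eq_zero] at h1
  let g : LinearMap.ker f →ₗ[ℝ] DL y C L :=
    LinearMap.codRestrict (DL y C L) (ext.comp (LinearMap.ker f).subtype) (fun b => hf b b.2)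
  have hg : Function.Injective g := by
    intro a b hab
    have h1 : ext (a : L → ℝ) = ext (b : L → ℝ) := congrArg Subtype.val hab
    exact Subtype.ext (hinj h1)
  have h1 := LinearMap.finrank_le_finrank_of_injective hg
  have h2 := LinearMap.finrank_range_add_finrank_ker f
  have h3 : finrank ℝ (LinearMap.range f) ≤ finrank ℝ (V ⧸ Sp y C) := Submodule.finrank_le _
  rw [LPW.finrank_quot h] at h3
  rw [Module.finrank_fintype_fun_eq_card, Fintype.card_coe] at h2
  omega

end Pool.Agent.MPa0a351
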