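import Pool.Agent.Lib.MP_a0a351_co.LPDefs

/-!
LP lemma, module LP2e: uniqueness of a positive circuit modulo the span of `C`.
-/

set_option autoImplicit false

open Module Finset

namespace Pool.Agent.MPa0a351

variable {ι V : Type*} [Fintype ι] [AddCommGroup V] [Module ℝ V] [FiniteDimensional ℝ V]

/-- module LP2e: uniqueness of the circuit on `P`. -/
theorem RowW.circ_unique {d c : ℕ} {y : ι → V} [DecidableEq ι] {E : Submodule ℝ V}
    {C L : Finset ι} (h : RowW d c y E C L) {P : Finset ι} {μ g : ι → ℝ} (hμ : PCirc y C L c P μ)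
    (hg : ∀ i, i ∉ P → g i = 0) (hgC : ∑ i, g i • y i ∈ Sp y C) : ∃ s : ℝ, g = s • μ := by
  have hPne : P.Nonempty := Finset.card_pos.1 (by rw [hμ.card]; omega)
  obtain ⟨i0, hi0⟩ := hPne
  have hm0 := hμ.pos i0 hi0
  refine ⟨g i0 / μ i0, ?_⟩
  by_contra hne
  have hex : ∃ i, (g - (g i0 / μ i0) • μ) i ≠ 0 := by
    by_contra hcon
    push Not at hcon
    apply hne
    funext i
    have := hcon i
    rw [Pi.sub_apply] at this
    linarith
  have hsup : ∀ i, i ∉ P.erase i0 → (g - (g i0 / μ i0) • μ) i = 0 := by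
    intro i hi
    rw [Pi.sub_apply, Pi.smul_apply, smul_eq_mul]
    by_cases h0 : i = i0
    · rw [h0, div_mul_cancel₀ _ hm0.ne', sub_self]
    · have hiP : i ∉ P := fun hh => hi (Finset.mem_erase.2 ⟨h0, hh⟩)
      rw [hg i hiP, hμ.zero i hiP, mul_zero, sub_zero]
  have hmem : ∑ i, (g - (g i0 / μ i0) • μ) i • y i ∈ Sp y C := by
    have : ∑ i, (g - (g i0 / μ i0) • μ) i • y i =
        ∑ i, g i • y i - (g i0 / μ i0) • ∑ i, μ i • y i := by
      rw [Finset.smul_sum, ← Finset.sum_sub_distrib]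
      refine Finset.sum_congr rfl fun i _ => ?_
      rw [Pi.sub_apply, Pi.smul_apply, smul_eq_mul, sub_smul, mul_smul]
    rw [this]
    exact Submodule.sub_mem _ hgC (Submodule.smul_mem _ _ hμ.mem)
  have hcard := LPW.card_ge h ((Finset.erase_subset _ _).trans hμ.sub)
    (g - (g i0 / μ i0) • μ) hsup hex hmem
  rw [Finset.card_erase_of_mem hi0, hμ.card] at hcard
  omega

end Pool.Agent.MPa0a351
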