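import Pool.Agent.Lib.MP_a0a351_co.LPDefs
import Pool.Agent.Lib.MP_a0a351_co.LP2e

/-!
LP lemma, module LP3: the labels with minimal ratio.
-/

set_option autoImplicit false

open Module Finset

namespace Pool.Agent.MPa0a351

variable {ι V : Type*} [Fintype ι] [AddCommGroup V] [Module ℝ V] [FiniteDimensional ℝ V]

/-- module LP3: the labels with minimal ratio: at least `c + 1`, all in one class. -/
theorem RowW.argmin {d c : ℕ} {y : ι → V} [DecidableEq ι] {E : Submodule ℝ V}
    {C L : Finset ι} (h : RowW d c y E C L) {a : ι → ℝ} {β : V →ₗ[ℝ] (ι → ℝ)} (hβ : Crd y C a β)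
    {P : Finset ι} {μ : ι → ℝ} (hμ : PCirc y C L c P μ) (m : ℝ) (T : Finset ι) (hTC : T ⊆ C)
    (hT : ∀ z ∈ T, al y a β z μ = m) (hT' : ∀ z ∈ C, z ∉ T → m < al y a β z μ)
    (hTne : T.Nonempty) :
    c + 1 ≤ T.card ∧ ∀ z ∈ T, ∀ z' ∈ T, ∀ ε ∈ E, β ε z / a z = β ε z' / a z' := by
  have hdisj : Disjoint C P := Finset.disjoint_of_subset_right hμ.sub h.disj
  have hμC : ∀ i ∈ C, μ i = 0 := fun i hi => hμ.zero i (Finset.disjoint_left.1 hdisj hi)
  obtain ⟨w, hw⟩ : ∃ w : V, w = ∑ i, μ i • y i := ⟨_, rfl⟩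
  have hwC : w ∈ Sp y C := hw ▸ hμ.mem
  have hal : ∀ z ∈ C, β w z = -(a z * al y a β z μ) := by
    intro z hz
    have haz := (hβ.apos z hz).ne'
    rw [al_apply, ← hw]
    field_simp
  obtain ⟨g, hg⟩ : ∃ g : ι → ℝ, g = fun i => μ i - β w i - m * a i := ⟨_, rfl⟩
  have hgi : ∀ i, g i = μ i - β w i - m * a i := fun i => by rw [hg]
  have hgC : ∀ i ∈ C, g i = a i * (al y a β i μ - m) := by
    intro i hi
    rw [hgi, hμC i hi, hal i hi]
    ring
  have hgT0 : ∀ i ∈ T, g i = 0 := by
    intro i hi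
    rw [hgC i (hTC hi), hT i hi, sub_self, mul_zero]
  have hgP : ∀ i ∈ P, g i = μ i := by
    intro i hi
    have h1 : i ∉ C := Finset.disjoint_right.1 hdisj hi
    rw [hgi, hβ.bzero w i h1, hβ.azero i h1]
    ring
  have hgpos : ∀ i ∈ P ∪ (C \ T), 0 < g i := by
    intro i hi
    rw [Finset.mem_union, Finset.mem_sdiff] at hi
    rcases hi with hi | ⟨hiC, hiT⟩
    · rw [hgP i hi]
      exact hμ.pos i hi
    · rw [hgC i hiC]
      exact mul_pos (hβ.apos i hiC) (sub_pos.2 (hT' i hiC hiT))
  have hgout : ∀ i, i ∉ P ∪ (C \ T) → g i = 0 := by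
    intro i hi
    rw [Finset.mem_union, Finset.mem_sdiff] at hi
    push Not at hi
    by_cases hiC : i ∈ C
    · exact hgT0 i (hi.2 hiC)
    · rw [hgi, hβ.bzero w i hiC, hβ.azero i hiC, hμ.zero i hi.1]
      ring
  have hgs : ∑ i, g i • y i = 0 := by
    have : ∑ i, g i • y i = ∑ i, μ i • y i - ∑ i, β w i • y i - m • ∑ i, a i • y i := by
      rw [Finset.smul_sum, ← Finset.sum_sub_distrib, ← Finset.sum_sub_distrib]
      refine Finset.sum_congr rfl fun i _ => ?_
      rw [hgi, sub_smul, sub_smul, mul_smul]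
    rw [this, hβ.bsum w hwC, ← hw, hβ.asum]
    simp
  have hPne : P.Nonempty := Finset.card_pos.1 (by rw [hμ.card]; omega)
  have hgsum : 0 < ∑ i, g i := by
    obtain ⟨p, hp⟩ := hPne
    refine Finset.sum_pos' (fun i _ => ?_)
      ⟨p, Finset.mem_univ _, hgpos p (Finset.mem_union_left _ hp)⟩
    by_cases hi : i ∈ P ∪ (C \ T)
    · exact (hgpos i hi).le
    · rw [hgout i hi]
  have hcirc : Circ y (P ∪ (C \ T)) := by
    refine ⟨fun i => g i / ∑ j, g j, ?_, ?_, ?_, ?_⟩
    · intro i hi
      exact div_pos (hgpos i hi) hgsum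
    · intro i hi
      dsimp only
      rw [hgout i hi, zero_div]
    · rw [← Finset.sum_div, div_self hgsum.ne']
    · have : ∑ i, (g i / ∑ j, g j) • y i = (∑ j, g j)⁻¹ • ∑ i, g i • y i := by
        rw [Finset.smul_sum]
        refine Finset.sum_congr rfl fun i _ => ?_
        rw [smul_smul, div_eq_inv_mul]
      rw [this, hgs, smul_zero]
  have hdisj' : Disjoint P (C \ T) :=
    Finset.disjoint_of_subset_right Finset.sdiff_subset hdisj.symm
  have hcardT : (P ∪ (C \ T)).card = P.card + (C.card - T.card) := by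
    rw [Finset.card_union_of_disjoint hdisj', Finset.card_sdiff_of_subset hTC]
  have hTpos : 1 ≤ T.card := Finset.card_pos.2 hTne
  have hTle : T.card ≤ C.card := Finset.card_le_card hTC
  have hsub : P ∪ (C \ T) ⊆ C ∪ L := by
    intro i hi
    rw [Finset.mem_union, Finset.mem_sdiff] at hi
    rw [Finset.mem_union]
    rcases hi with hi | hi
    · exact Or.inr (hμ.sub hi)
    · exact Or.inl hi.1
  have hPc := hμ.card
  have hCc := h.card
  obtain ⟨hle, hE⟩ := h.exch _ hsub hcirc (by omega)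
  refine ⟨by omega, ?_⟩
  obtain ⟨aC, haC, haC0, haC1, haCs⟩ := h.circ
  have key : ∀ ε ∈ E, ∃ τ : ℝ, ∀ z ∈ T, β ε z / a z = τ := by
    intro ε hε
    have hεC : ε ∈ Sp y C := (h.exch C Finset.subset_union_left h.circ (by omega)).2 hε
    obtain ⟨x, hx0, hx⟩ := MODC.exists_of_mem_Sp y _ ε (hE hε)
    obtain ⟨s, hs⟩ := h.circ_unique hμ (g := fun i => if i ∈ P then x i else 0)
      (fun i hi => if_neg hi) (by
        have h1 : ∑ i, (if i ∈ P then x i else 0) • y i =
            ε - ∑ i, (if i ∈ P then 0 else x i) • y i := by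
          rw [← hx, ← Finset.sum_sub_distrib]
          refine Finset.sum_congr rfl fun i _ => ?_
          by_cases hi : i ∈ P
          · rw [if_pos hi, if_pos hi, zero_smul, sub_zero]
          · rw [if_neg hi, if_neg hi, zero_smul, sub_self]
        rw [h1]
        refine Submodule.sub_mem _ hεC (MODC.mem_Sp_sum _ _ _ fun i hi => ?_)
        by_cases hiP : i ∈ P
        · exact if_pos hiP
        · rw [if_neg hiP]
          exact hx0 i (by
            rw [Finset.mem_union, Finset.mem_sdiff]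
            tauto))
    have hsP : ∀ i ∈ P, x i = s * μ i := by
      intro i hi
      have := congrFun hs i
      rw [Pi.smul_apply, smul_eq_mul, if_pos hi] at this
      exact this
    have hdep := GplAux.dep_eq h.gp (Finset.Subset.refl C) (by omega) aC haC0 haC1 haCs
      (fun i => β ε i - (x i - s * g i)) (fun i hi => by
        rw [hβ.bzero ε i hi]
        by_cases hiP : i ∈ P
        · rw [hsP i hiP, hgP i hiP]
          ring
        · have h1 : i ∉ P ∪ (C \ T) := by
            rw [Finset.mem_union, Finset.mem_sdiff]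
            tauto
          rw [hx0 i h1, hgout i h1]
          ring) (by
        have : ∑ i, (β ε i - (x i - s * g i)) • y i =
            ∑ i, β ε i • y i - (∑ i, x i • y i - s • ∑ i, g i • y i) := by
          rw [Finset.smul_sum, ← Finset.sum_sub_distrib, ← Finset.sum_sub_distrib]
          refine Finset.sum_congr rfl fun i _ => ?_
          rw [sub_smul, sub_smul, mul_smul]
        rw [this, hβ.bsum ε hεC, hx, hgs]
        simp)
    have hadep := GplAux.dep_eq h.gp (Finset.Subset.refl C) (by omega) aC haC0 haC1 haCs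
      a hβ.azero hβ.asum
    refine ⟨(∑ j, (β ε j - (x j - s * g j))) / ∑ j, a j, fun z hz => ?_⟩
    have hzC := hTC hz
    have h1 := hdep z
    have hznot : z ∉ P ∪ (C \ T) := by
      rw [Finset.mem_union, Finset.mem_sdiff]
      rintro (hh | hh)
      · exact Finset.disjoint_right.1 hdisj hh hzC
      · exact hh.2 hz
    rw [hx0 z hznot, hgT0 z hz, mul_zero, sub_zero, sub_zero] at h1
    have h2 := hadep z
    have h3 : aC z ≠ 0 := (haC z hzC).ne'
    rw [h1, h2, mul_div_mul_right _ _ h3]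
  intro z hz z' hz' ε hε
  obtain ⟨τ, hτ⟩ := key ε hε
  rw [hτ z hz, hτ z' hz']

end Pool.Agent.MPa0a351
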