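import Pool.Agent.Lib.MP_a0a351_co.LPDefs

/-!
REAY, module LP4: two tight circuits share at most one label.
-/

set_option autoImplicit false

open Module Finset

namespace Pool.Agent.MPa0a351

variable {ι V : Type*} [Fintype ι] [AddCommGroup V] [Module ℝ V] [FiniteDimensional ℝ V]

/-- A dependence modulo the span of `C` supported on `P ∪ {x}` with coefficient `1` at `x`. -/
theorem RowW.share_aux {d c : ℕ} {y : ι → V} [DecidableEq ι] {E : Submodule ℝ V}
    {C L : Finset ι} (h : RowW d c y E C L) {P : Finset ι} (hPL : P ⊆ L) (hP : P.card = c + 1)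
    {x : ι} (hx : x ∈ L) (hxP : x ∉ P) : ∃ g : ι → ℝ, g x = 1 ∧
      (∀ i, i ≠ x → i ∉ P → g i = 0) ∧ g ∈ DL y C L := by
  have hdisj : Disjoint C P := Finset.disjoint_of_subset_right hPL h.disj
  have htop : Sp y (C ∪ P) = ⊤ := h.gp.span h.hd _ (by
    rw [Finset.card_union_of_disjoint hdisj]
    have := h.card
    omega)
  obtain ⟨β, hβ0, hβ⟩ := MODC.exists_of_mem_Sp y (C ∪ P) (-(y x)) (by rw [htop]; trivial)
  refine ⟨fun i => if i = x then 1 else if i ∈ P then β i else 0, if_pos rfl, ?_, ?_⟩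
  · intro i hi hiP
    simp only
    rw [if_neg hi, if_neg hiP]
  · rw [mem_DL]
    constructor
    · intro i hi
      have h1 : i ≠ x := by rintro rfl; exact hi hx
      have h2 : i ∉ P := fun hh => hi (hPL hh)
      rw [if_neg h1, if_neg h2]
    · have hyx : ∑ i, (if i = x then (1 : ℝ) else 0) • y i = y x := by simp
      have hdec : ∑ i, (if i = x then (1 : ℝ) else if i ∈ P then β i else 0) • y i
          = ∑ i, ((if i ∈ P then β i else 0) - β i) • y i := by
        have h3 : ∀ i, (if i = x then (1 : ℝ) else if i ∈ P then β i else 0) • y i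
            = (if i = x then (1 : ℝ) else 0) • y i + (if i ∈ P then β i else 0) • y i := by
          intro i
          rw [← add_smul]
          congr 1
          by_cases hix : i = x
          · subst hix
            rw [if_pos rfl, if_pos rfl, if_neg hxP]; ring
          · rw [if_neg hix, if_neg hix]; ring
        have h4 : ∀ i, ((if i ∈ P then β i else 0) - β i) • y i
            = (if i ∈ P then β i else 0) • y i - β i • y i := by
          intro i; rw [sub_smul]
        simp only [h3, h4, Finset.sum_add_distrib, Finset.sum_sub_distrib, hyx, hβ]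
        abel
      rw [hdec]
      apply MODC.mem_Sp_sum
      intro i hi
      by_cases hiP : i ∈ P
      · rw [if_pos hiP, sub_self]
      · rw [if_neg hiP, hβ0 i (by rw [Finset.mem_union]; tauto)]; ring

omit [FiniteDimensional ℝ V] in
theorem PCirc.mem_DL' {y : ι → V} {C L : Finset ι} {c : ℕ} {P : Finset ι} {μ : ι → ℝ}
    (h : PCirc y C L c P μ) : μ ∈ DL y C L :=
  ⟨fun i hi => h.zero i (fun hh => hi (h.sub hh)), h.mem⟩

/-- module LP4: two tight circuits share at most one label. -/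
theorem RowW.share {d c : ℕ} {y : ι → V} [DecidableEq ι] {E : Submodule ℝ V}
    {C L : Finset ι} (h : RowW d c y E C L) {a : ι → ℝ} {β : V →ₗ[ℝ] (ι → ℝ)} (hβ : Crd y C a β)
    {P P' : Finset ι} {μ μ' : ι → ℝ} (hμ : PCirc y C L c P μ) (hμ' : PCirc y C L c P' μ')
    (hne : P ≠ P') (w : (ι → ℝ) →ₗ[ℝ] ℝ)
    (hw : ∀ z ∈ C, ∀ g : ι → ℝ, (∀ i, 0 ≤ g i) → g ∈ DL y C L → w g ≤ al y a β z g)
    {z z' : ι} (hz : z ∈ C) (hz' : z' ∈ C) (hzz : z ≠ z') (h1 : al y a β z μ = w μ)
    (h2 : al y a β z' μ = w μ) (h3 : al y a β z μ' = w μ') (h4 : al y a β z' μ' = w μ') :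
    False := by
  -- an element of `P'` outside of `P`
  obtain ⟨x, hxP', hxP⟩ : ∃ x ∈ P', x ∉ P := by
    by_contra hno
    push Not at hno
    exact hne (Finset.eq_of_subset_of_card_le (fun i hi => hno i hi)
      (by rw [hμ.card, hμ'.card])).symm
  have hxL : x ∈ L := hμ'.sub hxP'
  have hxC : x ∉ C := Finset.disjoint_right.1 h.disj hxL
  obtain ⟨g, hgx, hg0, hgD⟩ := h.share_aux hμ.sub hμ.card hxL hxP
  have hμD := hμ.mem_DL'
  have hμ'D := hμ'.mem_DL'
  have hμ0 : ∀ i, 0 ≤ μ i := by
    intro i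
    by_cases hi : i ∈ P
    · exact (hμ.pos i hi).le
    · rw [hμ.zero i hi]
  have hμ'0 : ∀ i, 0 ≤ μ' i := by
    intro i
    by_cases hi : i ∈ P'
    · exact (hμ'.pos i hi).le
    · rw [hμ'.zero i hi]
  -- a small `ε`
  obtain ⟨ε, hε, hεb⟩ : ∃ ε : ℝ, 0 < ε ∧ ∀ i, ε * |g i| ≤ μ i + μ' i := by
    have hpos : ∀ i ∈ P ∪ P', 0 < μ i + μ' i := by
      intro i hi
      rcases Finset.mem_union.1 hi with hi | hi
      · have := hμ.pos i hi; have := hμ'0 i; linarith
      · have := hμ'.pos i hi; have := hμ0 i; linarith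
    have hout : ∀ i, i ∉ P ∪ P' → g i = 0 := by
      intro i hi
      rw [Finset.mem_union] at hi
      push Not at hi
      exact hg0 i (by rintro rfl; exact hi.2 hxP') hi.1
    have hSne : (P ∪ P').Nonempty := ⟨x, Finset.mem_union_right _ hxP'⟩
    obtain ⟨i₀, hi₀, hmin⟩ := Finset.exists_min_image (P ∪ P')
      (fun i => (μ i + μ' i) / (|g i| + 1)) hSne
    refine ⟨(μ i₀ + μ' i₀) / (|g i₀| + 1), by have := hpos i₀ hi₀; positivity, ?_⟩
    intro i
    by_cases hi : i ∈ P ∪ P'
    · have h5 := hmin i hi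
      have h6 := hpos i hi
      have h7 : 0 < |g i| + 1 := by positivity
      rw [le_div_iff₀ h7] at h5
      have h8 : 0 ≤ (μ i₀ + μ' i₀) / (|g i₀| + 1) := by have := hpos i₀ hi₀; positivity
      nlinarith [abs_nonneg (g i)]
    · rw [hout i hi]
      simp only [abs_zero, mul_zero]
      have := hμ0 i; have := hμ'0 i; linarith
  -- equality at `g`
  have key : ∀ ζ ∈ C, al y a β ζ μ = w μ → al y a β ζ μ' = w μ' → al y a β ζ g = w g := by
    intro ζ hζ e1 e2
    have h5 := hw ζ hζ (μ + μ' + ε • g) (by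
      intro i
      have := hεb i
      have h6 := neg_abs_le (g i)
      simp only [Pi.add_apply, Pi.smul_apply, smul_eq_mul]
      nlinarith) (add_mem (add_mem hμD hμ'D) (Submodule.smul_mem _ _ hgD))
    have h6 := hw ζ hζ (μ + μ' - ε • g) (by
      intro i
      have := hεb i
      have h6 := le_abs_self (g i)
      simp only [Pi.add_apply, Pi.sub_apply, Pi.smul_apply, smul_eq_mul]
      nlinarith) (sub_mem (add_mem hμD hμ'D) (Submodule.smul_mem _ _ hgD))
    simp only [map_add, map_sub, map_smul, smul_eq_mul] at h5 h6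
    rw [e1, e2] at h5 h6
    have h7 : ε * w g ≤ ε * al y a β ζ g := by linarith
    have h8 : ε * al y a β ζ g ≤ ε * w g := by linarith
    exact le_antisymm (le_of_mul_le_mul_left h8 hε) (le_of_mul_le_mul_left h7 hε)
  have k1 := key z hz h1 h3
  have k2 := key z' hz' h2 h4
  -- lifts
  have hlift : ∀ b : ι → ℝ, b ∈ DL y C L →
      ∑ i, (b i - β (∑ j, b j • y j) i - w b * a i) • y i = 0 := by
    intro b hb
    have h5 : ∀ i, (b i - β (∑ j, b j • y j) i - w b * a i) • y i
        = b i • y i - β (∑ j, b j • y j) i • y i - w b • (a i • y i) := by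
      intro i; rw [sub_smul, sub_smul, mul_smul]
    simp only [h5, Finset.sum_sub_distrib, ← Finset.smul_sum, hβ.asum, smul_zero, sub_zero]
    rw [hβ.bsum _ (mem_DL.1 hb).2, sub_self]
  have hvan : ∀ b : ι → ℝ, b ∈ DL y C L → ∀ ζ ∈ C, al y a β ζ b = w b →
      b ζ - β (∑ j, b j • y j) ζ - w b * a ζ = 0 := by
    intro b hb ζ hζ he
    have h5 : b ζ = 0 := hb.1 ζ (Finset.disjoint_left.1 h.disj hζ)
    have h6 := hβ.apos ζ hζ
    rw [al_apply] at he
    rw [h5, ← he]
    field_simp
    ring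
  have hLout : ∀ b : ι → ℝ, ∀ i, i ∉ C → b i - β (∑ j, b j • y j) i - w b * a i = b i := by
    intro b i hi
    rw [hβ.bzero _ i hi, hβ.azero i hi]; ring
  set G₁ : ι → ℝ := fun i => μ i - β (∑ j, μ j • y j) i - w μ * a i with hG₁
  set G₂ : ι → ℝ := fun i => g i - β (∑ j, g j • y j) i - w g * a i with hG₂
  have e1 : ∑ i, G₁ i • y i = 0 := hlift μ hμD
  have e2 : ∑ i, G₂ i • y i = 0 := hlift g hgD
  set W : Finset ι := insert x P ∪ ((C.erase z).erase z') with hW
  have hWc : W.card ≤ d + 1 := by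
    have h5 : (insert x P).card ≤ P.card + 1 := Finset.card_insert_le _ _
    have h6 : ((C.erase z).erase z').card = C.card - 1 - 1 := by
      rw [Finset.card_erase_of_mem (Finset.mem_erase.2 ⟨hzz.symm, hz'⟩),
        Finset.card_erase_of_mem hz]
    have h7 := Finset.card_union_le (insert x P) ((C.erase z).erase z')
    have h8 := h.card
    have h9 := hμ.card
    have h10 : 2 ≤ C.card := by
      have : ({z, z'} : Finset ι) ⊆ C := by
        intro i hi
        simp only [Finset.mem_insert, Finset.mem_singleton] at hi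
        rcases hi with rfl | rfl
        · exact hz
        · exact hz'
      have h11 := Finset.card_le_card this
      rwa [Finset.card_pair hzz] at h11
    rw [hW]
    omega
  have hW1 : ∀ i, i ∉ W → G₁ i = 0 ∧ G₂ i = 0 := by
    intro i hi
    rw [hW, Finset.mem_union, Finset.mem_insert, Finset.mem_erase, Finset.mem_erase] at hi
    push Not at hi
    obtain ⟨⟨hix, hiP⟩, hiC⟩ := hi
    by_cases hC : i ∈ C
    · have h5 : i = z ∨ i = z' := by
        by_contra hno
        push Not at hno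
        exact hiC hno.2 hno.1 hC
      rcases h5 with rfl | rfl
      · exact ⟨hvan μ hμD i hC h1, hvan g hgD i hC k1⟩
      · exact ⟨hvan μ hμD i hC h2, hvan g hgD i hC k2⟩
    · refine ⟨?_, ?_⟩
      · rw [hG₁]; simp only; rw [hLout μ i hC, hμ.zero i hiP]
      · rw [hG₂]; simp only; rw [hLout g i hC, hg0 i hix hiP]
  have hG₁x : G₁ x = 0 := by
    rw [hG₁]; simp only; rw [hLout μ x hxC, hμ.zero x hxP]
  have hG₂x : G₂ x = 1 := by
    rw [hG₂]; simp only; rw [hLout g x hxC, hgx]
  set s₁ : ℝ := ∑ i, G₁ i with hs₁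
  set s₂ : ℝ := ∑ i, G₂ i with hs₂
  have hD := h.gp W hWc (fun i => s₂ * G₁ i - s₁ * G₂ i)
    (fun i hi => by
      obtain ⟨h5, h6⟩ := hW1 i hi
      simp only [h5, h6]; ring)
    (by rw [Finset.sum_sub_distrib, ← Finset.mul_sum, ← Finset.mul_sum, ← hs₁, ← hs₂]; ring)
    (by
      have h5 : ∀ i, (s₂ * G₁ i - s₁ * G₂ i) • y i = s₂ • (G₁ i • y i) - s₁ • (G₂ i • y i) := by
        intro i; rw [sub_smul, mul_smul, mul_smul]
      simp only [h5, Finset.sum_sub_distrib, ← Finset.smul_sum, e1, e2, smul_zero, sub_zero]) x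
  simp only [hG₁x, hG₂x] at hD
  have hs0 : s₁ = 0 := by linarith
  have hG1z := h.gp W hWc G₁ (fun i hi => (hW1 i hi).1) (by rw [← hs₁]; exact hs0) e1
  have hPne : P.Nonempty := Finset.card_pos.1 (by rw [hμ.card]; omega)
  obtain ⟨p, hp⟩ := hPne
  have hpC : p ∉ C := Finset.disjoint_right.1 h.disj (hμ.sub hp)
  have h5 := hG1z p
  rw [hG₁] at h5
  simp only at h5
  rw [hLout μ p hpC] at h5
  have := hμ.pos p hp
  linarith

end Pool.Agent.MPa0a351
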