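import Pool.Agent.Lib.MP_a0a351_co.LPDefs

set_option autoImplicit false

open Module Finset

namespace Pool.Agent.MPa0a351

/-- module LP5: counting pairs. -/
theorem pair_count {ι κ J : Type*} [DecidableEq ι] (C : Finset ι) (cls : ι → κ) (e c : ℕ)
    (R0 : Finset ι) (hR0 : R0 ⊆ C) (hR0c : R0.card = e + 1) (hR0i : Set.InjOn cls R0)
    (S : Finset J) (T : J → Finset ι) (hTC : ∀ j ∈ S, T j ⊆ C) (hTc : ∀ j ∈ S, c + 1 ≤ (T j).card)
    (hTcls : ∀ j ∈ S, ∀ z ∈ T j, ∀ z' ∈ T j, cls z = cls z')
    (hTT : ∀ j ∈ S, ∀ j' ∈ S, j ≠ j' → (T j ∩ T j').card ≤ 1) :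
    S.card * (c * (c + 1)) ≤ (C.card - e) * (C.card - e - 1) := by
  classical
  -- the pairs
  set U : Finset (ι × ι) := S.biUnion fun j => (T j).offDiag with hU
  have hdisj : Set.PairwiseDisjoint (S : Set J) fun j => (T j).offDiag := by
    intro j hj j' hj' hne
    rw [Function.onFun, Finset.disjoint_left]
    rintro ⟨z, z'⟩ h1 h2
    rw [mem_offDiag] at h1 h2
    have h3 := hTT j hj j' hj' hne
    have h4 : ({z, z'} : Finset ι) ⊆ T j ∩ T j' := by
      intro x hx
      rw [mem_insert, mem_singleton] at hx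
      rcases hx with rfl | rfl
      · exact mem_inter.2 ⟨h1.1, h2.1⟩
      · exact mem_inter.2 ⟨h1.2.1, h2.2.1⟩
    have h5 := card_le_card h4
    rw [card_pair h1.2.2] at h5
    omega
  have hlow : S.card * (c * (c + 1)) ≤ U.card := by
    rw [hU, card_biUnion hdisj, ← smul_eq_mul]
    refine card_nsmul_le_sum S _ _ fun j hj => ?_
    rw [offDiag_card]
    have h1 := hTc j hj
    obtain ⟨k, hk⟩ := Nat.exists_eq_add_of_le h1
    rw [hk]
    have h2 : (c + 1 + k) * (c + 1 + k) = (c + k) * (c + 1 + k) + (c + 1 + k) := by ring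
    rw [h2, Nat.add_sub_cancel]
    exact Nat.mul_le_mul (by omega) (by omega)
  -- membership
  have hmem : ∀ z z', (z, z') ∈ U → z ∈ C ∧ z' ∈ C ∧ z ≠ z' ∧ cls z = cls z' := by
    intro z z' h
    rw [hU, mem_biUnion] at h
    obtain ⟨j, hj, h⟩ := h
    rw [mem_offDiag] at h
    exact ⟨hTC j hj h.1, hTC j hj h.2.1, h.2.2, hTcls j hj z h.1 z' h.2.1⟩
  -- the map
  set φ : ι → Option ι := fun z => if z ∈ R0 then none else some z with hφ
  have hφ1 : ∀ z, z ∈ R0 → φ z = none := fun z hz => by rw [hφ]; exact if_pos hz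
  have hφ2 : ∀ z, z ∉ R0 → φ z = some z := fun z hz => by rw [hφ]; exact if_neg hz
  have hφn : ∀ z, φ z = none → z ∈ R0 := by
    intro z h
    by_contra hz
    rw [hφ2 z hz] at h
    exact Option.some_ne_none _ h
  have hφs : ∀ z w, z ∉ R0 → φ z = φ w → z = w := by
    intro z w hz h
    rw [hφ2 z hz] at h
    by_cases hw : w ∈ R0
    · rw [hφ1 w hw] at h
      exact absurd h (Option.some_ne_none _)
    · rw [hφ2 w hw] at h
      exact Option.some.inj h
  have himg : (C.image φ).card ≤ C.card - e := by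
    have h1 : C.image φ ⊆ insert none ((C \ R0).image some) := by
      intro x hx
      rw [mem_image] at hx
      obtain ⟨z, hz, rfl⟩ := hx
      by_cases h : z ∈ R0
      · rw [hφ1 z h]
        exact mem_insert_self _ _
      · rw [hφ2 z h]
        exact mem_insert_of_mem (mem_image_of_mem _ (mem_sdiff.2 ⟨hz, h⟩))
    have h2 := card_le_card h1
    have h3 := card_insert_le (none : Option ι) ((C \ R0).image some)
    have h4 : ((C \ R0).image some).card ≤ (C \ R0).card := card_image_le
    have h5 := card_sdiff_of_subset hR0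
    have h6 := card_le_card hR0
    omega
  have hup : U.card ≤ (C.image φ).offDiag.card := by
    refine card_le_card_of_injOn (fun p => (φ p.1, φ p.2)) ?_ ?_
    · rintro ⟨z, z'⟩ h
      obtain ⟨h1, h2, h3, h4⟩ := hmem z z' h
      rw [mem_coe, mem_offDiag]
      refine ⟨mem_image_of_mem _ h1, mem_image_of_mem _ h2, ?_⟩
      intro h5
      change φ z = φ z' at h5
      by_cases hz : z ∈ R0
      · rw [hφ1 z hz] at h5
        exact h3 (hR0i hz (hφn z' h5.symm) h4)
      · exact h3 (hφs z z' hz h5)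
    · rintro ⟨z, z'⟩ h ⟨w, w'⟩ h' heq
      obtain ⟨_, _, h3, h4⟩ := hmem z z' h
      obtain ⟨_, _, k3, k4⟩ := hmem w w' h'
      have e1 : φ z = φ w := congrArg Prod.fst heq
      have e2 : φ z' = φ w' := congrArg Prod.snd heq
      by_cases hz : z ∈ R0
      · have hw : w ∈ R0 := hφn w (by rw [← e1]; exact hφ1 z hz)
        have hz' : z' ∉ R0 := fun hz' => h3 (hR0i hz hz' h4)
        have e3 : z' = w' := hφs z' w' hz' e2
        have e4 : z = w := hR0i hz hw (by rw [h4, e3, k4])
        rw [e3, e4]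
      · have e3 : z = w := hφs z w hz e1
        by_cases hz' : z' ∈ R0
        · have hw' : w' ∈ R0 := hφn w' (by rw [← e2]; exact hφ1 z' hz')
          have e4 : z' = w' := hR0i hz' hw' (by rw [← h4, e3, k4])
          rw [e3, e4]
        · have e4 : z' = w' := hφs z' w' hz' e2
          rw [e3, e4]
  calc S.card * (c * (c + 1)) ≤ U.card := hlow
    _ ≤ (C.image φ).offDiag.card := hup
    _ = (C.image φ).card * ((C.image φ).card - 1) := by
        rw [offDiag_card, Nat.mul_sub_one]
    _ ≤ (C.card - e) * (C.card - e - 1) := Nat.mul_le_mul himg (Nat.sub_le_sub_right himg 1)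

end Pool.Agent.MPa0a351
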