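import Pool.Agent.Lib.MP_a0a351_co.LPDefs

/-!
REAY, module LP6: `finrank E + 1` labels in different classes.
-/

set_option autoImplicit false

open Module Finset

namespace Pool.Agent.MPa0a351

variable {ι V : Type*} [Fintype ι] [AddCommGroup V] [Module ℝ V] [FiniteDimensional ℝ V]

/-- module LP6: `finrank E + 1` labels in different classes. -/
theorem exists_reps {y : ι → V} {C : Finset ι} {a : ι → ℝ} {β : V →ₗ[ℝ] (ι → ℝ)}
    (hβ : Crd y C a β) (hC : C.Nonempty) (E : Submodule ℝ V) (hE : E ≤ Sp y C) :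
    ∃ R0 ⊆ C, R0.card = finrank ℝ E + 1 ∧
      Set.InjOn (fun z : ι => (fun ε : E => β ε z / a z)) (R0 : Set ι) := by
  classical
  -- the ratio at `z`, as a linear functional on `E`
  let ψ : ι → (E →ₗ[ℝ] ℝ) := fun z => (a z)⁻¹ • ((LinearMap.proj z).comp (β.comp E.subtype))
  have hψ : ∀ z (ε : E), ψ z ε = β ε z / a z := by
    intro z ε
    show (a z)⁻¹ * β ε z = _
    rw [mul_comm, div_eq_mul_inv]
  let Ψ : Finset (E →ₗ[ℝ] ℝ) := C.image ψ
  obtain ⟨z₀, hz₀⟩ := hC
  have hz₀Ψ : ψ z₀ ∈ Ψ := Finset.mem_image_of_mem ψ hz₀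
  -- the injective linear map
  let F : E →ₗ[ℝ] ((Ψ.erase (ψ z₀) : Finset (E →ₗ[ℝ] ℝ)) → ℝ) :=
    LinearMap.pi (fun f => (f : E →ₗ[ℝ] ℝ) - ψ z₀)
  have hF : Function.Injective F := by
    rw [← LinearMap.ker_eq_bot, LinearMap.ker_eq_bot']
    intro ε hε
    have h1 : ∀ z ∈ C, ψ z ε = ψ z₀ ε := by
      intro z hz
      by_cases he : ψ z = ψ z₀
      · rw [he]
      · have h2 : ψ z ∈ Ψ.erase (ψ z₀) :=
          Finset.mem_erase.2 ⟨he, Finset.mem_image_of_mem ψ hz⟩
        have h3 := congrFun hε ⟨ψ z, h2⟩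
        have h4 : ψ z ε - ψ z₀ ε = 0 := h3
        linarith
    have h5 : ∀ z, β (ε : V) z = ψ z₀ ε * a z := by
      intro z
      by_cases hz : z ∈ C
      · have h6 := h1 z hz
        rw [hψ z ε] at h6
        have h7 := hβ.apos z hz
        rw [← h6]
        field_simp
      · rw [hβ.bzero _ z hz, hβ.azero z hz, mul_zero]
    have h8 := hβ.bsum (ε : V) (hE ε.2)
    have h9 : ∀ i, β (ε : V) i • y i = ψ z₀ ε • (a i • y i) := by
      intro i; rw [h5 i, mul_smul]
    simp only [h9, ← Finset.smul_sum, hβ.asum, smul_zero] at h8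
    exact Subtype.ext h8.symm
  have hcard : finrank ℝ E + 1 ≤ Ψ.card := by
    have h1 := LinearMap.finrank_le_finrank_of_injective hF
    rw [Module.finrank_fintype_fun_eq_card, Fintype.card_coe, Finset.card_erase_of_mem hz₀Ψ] at h1
    have h2 : 0 < Ψ.card := Finset.card_pos.2 ⟨_, hz₀Ψ⟩
    omega
  obtain ⟨Φ, hΦ, hΦc⟩ := Finset.exists_subset_card_eq hcard
  have hpre : ∀ f : (Φ : Finset (E →ₗ[ℝ] ℝ)), ∃ z ∈ C, ψ z = f := by
    intro f
    exact Finset.mem_image.1 (hΦ f.2)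
  choose g hgC hg using hpre
  have hginj : Function.Injective g := by
    intro f f' hff
    apply Subtype.ext
    rw [← hg f, ← hg f', hff]
  refine ⟨Finset.univ.map ⟨g, hginj⟩, ?_, ?_, ?_⟩
  · intro z hz
    rw [Finset.mem_map] at hz
    obtain ⟨f, _, rfl⟩ := hz
    exact hgC f
  · rw [Finset.card_map, Finset.card_univ, Fintype.card_coe, hΦc]
  · intro z hz z' hz' hzz
    rw [Finset.mem_coe, Finset.mem_map] at hz hz'
    obtain ⟨f, _, rfl⟩ := hz
    obtain ⟨f', _, rfl⟩ := hz'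
    have h1 : ψ (g f) = ψ (g f') := by
      ext ε
      rw [hψ, hψ]
      exact congrFun hzz ε
    rw [hg f, hg f'] at h1
    show g f = g f'
    rw [Subtype.ext h1]

end Pool.Agent.MPa0a351
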