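import Pool.Agent.Lib.MP_a0a351_co.RowW

/-!
Definitions for the LP lemma (bound for one row).
-/

set_option autoImplicit false

open Module Finset

namespace Pool.Agent.MPa0a351

variable {ι V : Type*} [Fintype ι] [AddCommGroup V] [Module ℝ V]

/-- A positive circuit `μ` modulo the span of `C`, supported on `P ⊆ L` with `c + 1` elements. -/
structure PCirc (y : ι → V) (C L : Finset ι) (c : ℕ) (P : Finset ι) (μ : ι → ℝ) : Prop where
  sub : P ⊆ L
  card : P.card = c + 1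
  pos : ∀ i ∈ P, 0 < μ i
  zero : ∀ i, i ∉ P → μ i = 0
  mem : ∑ i, μ i • y i ∈ Sp y C

/-- Circuit coefficients `a` of `C` and linear coordinates `β` on the span of `C`. -/
structure Crd (y : ι → V) (C : Finset ι) (a : ι → ℝ) (β : V →ₗ[ℝ] (ι → ℝ)) : Prop where
  apos : ∀ i ∈ C, 0 < a i
  azero : ∀ i, i ∉ C → a i = 0
  asum : ∑ i, a i • y i = 0
  bzero : ∀ v i, i ∉ C → β v i = 0
  bsum : ∀ w ∈ Sp y C, ∑ i, β w i • y i = w

/-- The sum of the vectors with coefficients `b`, as a linear map in `b`. -/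
noncomputable def ev (y : ι → V) : (ι → ℝ) →ₗ[ℝ] V where
  toFun b := ∑ i, b i • y i
  map_add' := by intro a b; simp only [Pi.add_apply, add_smul, Finset.sum_add_distrib]
  map_smul' := by
    intro a b
    simp only [Pi.smul_apply, smul_eq_mul, mul_smul, RingHom.id_apply, Finset.smul_sum]

theorem ev_apply (y : ι → V) (b : ι → ℝ) : ev y b = ∑ i, b i • y i := rfl

/-- The ratio at the label `z ∈ C` of the lift of `b`: minus the `z`-coordinate of `∑ b i • y i`
divided by `a z`. -/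
noncomputable def al (y : ι → V) (a : ι → ℝ) (β : V →ₗ[ℝ] (ι → ℝ)) (z : ι) : (ι → ℝ) →ₗ[ℝ] ℝ :=
  (-(a z)⁻¹) • ((LinearMap.proj z).comp (β.comp (ev y)))

theorem al_apply (y : ι → V) (a : ι → ℝ) (β : V →ₗ[ℝ] (ι → ℝ)) (z : ι) (b : ι → ℝ) :
    al y a β z b = -(a z)⁻¹ * β (∑ i, b i • y i) z := rfl

/-- The dependences modulo the span of `C`, supported on `L`. -/
def DL (y : ι → V) (C L : Finset ι) : Submodule ℝ (ι → ℝ) where
  carrier := {b | (∀ i, i ∉ L → b i = 0) ∧ ev y b ∈ Sp y C}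
  add_mem' := by
    rintro a b ⟨ha, ha'⟩ ⟨hb, hb'⟩
    refine ⟨fun i hi => ?_, ?_⟩
    · rw [Pi.add_apply, ha i hi, hb i hi, add_zero]
    · rw [map_add]; exact add_mem ha' hb'
  zero_mem' := ⟨fun _ _ => rfl, by rw [map_zero]; exact zero_mem _⟩
  smul_mem' := by
    rintro t b ⟨hb, hb'⟩
    refine ⟨fun i hi => ?_, ?_⟩
    · rw [Pi.smul_apply, hb i hi, smul_zero]
    · rw [map_smul]; exact Submodule.smul_mem _ _ hb'

theorem mem_DL {y : ι → V} {C L : Finset ι} {b : ι → ℝ} :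
    b ∈ DL y C L ↔ (∀ i, i ∉ L → b i = 0) ∧ ∑ i, b i • y i ∈ Sp y C := Iff.rfl

end Pool.Agent.MPa0a351
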