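import Pool.Agent.Lib.MP_a0a351_co.LPcore
import Pool.Agent.Lib.MP_a0a351_co.LP5

/-!
The LP lemma at a generic point of a sheet `p + E`: all circuits have `E` in their span
(MP_a0a351_co, E version).
-/

set_option autoImplicit false

open Module Finset

namespace Pool.Agent.MPa0a351

namespace LP

variable {ι V : Type*} [Fintype ι] [AddCommGroup V] [Module ℝ V] [FiniteDimensional ℝ V]

omit [FiniteDimensional ℝ V] in
/-- The labels outside the circuit `P ∪ (Z \ T)` are in one class. -/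
theorem class_of_circ {d c : ℕ} {y : ι → V} [DecidableEq ι] (hgp : GPV d y) {Z P T : Finset ι}
    (hZc : Z.card + c = d + 1) (hPZ : Disjoint P Z) (hPc : P.card = c + 1)
    (hTZ : T ⊆ Z) (hQ : Circ y (P ∪ (Z \ T))) (a0 : ι → ℝ) (ha00 : ∀ i, i ∉ Z → a0 i = 0)
    (ha01 : ∑ i, a0 i = 1) (ha0y : ∑ i, a0 i • y i = 0) (A : V →ₗ[ℝ] (ι → ℝ))
    (hA : ∀ w ∈ Sp y Z, (∀ i, i ∉ Z → A w i = 0) ∧ ∑ i, A w i • y i = w)
    (v : V) (hvZ : v ∈ Sp y Z) (hvQ : v ∈ Sp y (P ∪ (Z \ T))) :
    ∃ t : ℝ, ∀ z ∈ T, A v z = t * a0 z := by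
  classical
  obtain ⟨e, he, he0, -, hey⟩ := hQ
  obtain ⟨b, hb0, hbv⟩ := ProgX.mem_Sp hvQ
  obtain ⟨hA1, hA2⟩ := hA v hvZ
  obtain ⟨p0, hp0⟩ : P.Nonempty := by
    rw [← Finset.card_pos]
    omega
  have hep : e p0 ≠ 0 := (he p0 (mem_union_left _ hp0)).ne'
  set g : ι → ℝ := fun i => A v i - b i - (A v p0 - b p0) / e p0 * e i with hg
  have h1 := GplAux.dep_eq hgp (C := Z) (T := (P ∪ Z).erase p0) (by
      intro i hi
      refine mem_erase.mpr ⟨?_, mem_union_right _ hi⟩
      rintro rfl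
      exact Finset.disjoint_left.mp hPZ hp0 hi) (by
      rw [Finset.card_erase_of_mem (mem_union_left _ hp0), Finset.card_union_of_disjoint hPZ]
      omega) a0 ha00 ha01 ha0y g (by
      intro i hi
      by_cases hip : i = p0
      · subst hip
        simp only [hg]
        field_simp
        ring
      · have hi' : i ∉ P ∪ Z := fun hh => hi (mem_erase.mpr ⟨hip, hh⟩)
        have hiQ : i ∉ P ∪ (Z \ T) := fun hh => hi' (by
          rcases Finset.mem_union.mp hh with h | h
          · exact mem_union_left _ h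
          · exact mem_union_right _ (mem_sdiff.mp h).1)
        simp only [hg]
        rw [hA1 i (fun hh => hi' (mem_union_right _ hh)), hb0 i hiQ, he0 i hiQ]
        ring) (by
      have h2 : ∀ i, g i • y i = A v i • y i - b i • y i -
          ((A v p0 - b p0) / e p0) • (e i • y i) := by
        intro i
        simp only [hg]
        module
      simp only [h2, Finset.sum_sub_distrib, ← Finset.smul_sum, hA2, hbv, hey]
      simp)
  refine ⟨∑ j, g j, fun z hz => ?_⟩
  have hzQ : z ∉ P ∪ (Z \ T) := by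
    rw [Finset.mem_union, not_or]
    exact ⟨fun hh => Finset.disjoint_left.mp hPZ hh (hTZ hz), fun hh => (mem_sdiff.mp hh).2 hz⟩
  have h3 := h1 z
  simp only [hg] at h3
  rw [hb0 z hzQ, he0 z hzQ] at h3
  simp only [hg]
  linarith

/-- There are at least `dim E + 1` classes. -/
theorem exists_reps' {y : ι → V} {Z : Finset ι} [DecidableEq ι] (hZne : Z.Nonempty) (a0 : ι → ℝ)
    (ha0 : ∀ i ∈ Z, 0 < a0 i) (ha00 : ∀ i, i ∉ Z → a0 i = 0) (ha0y : ∑ i, a0 i • y i = 0)
    (A : V →ₗ[ℝ] (ι → ℝ))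
    (hA : ∀ w ∈ Sp y Z, (∀ i, i ∉ Z → A w i = 0) ∧ ∑ i, A w i • y i = w)
    (E : Submodule ℝ V) (hE : E ≤ Sp y Z) :
    ∃ R0 ⊆ Z, R0.card = finrank ℝ E + 1 ∧
      Set.InjOn (fun z : ι => (fun v : E => A v z / a0 z)) (R0 : Set ι) := by
  classical
  set cls : ι → (E → ℝ) := fun z => (fun v : E => A v z / a0 z) with hcls
  set I := Z.image cls with hI
  obtain ⟨z0, hz0⟩ := hZne
  -- the number of classes
  have hcard : finrank ℝ E + 1 ≤ I.card := by
    let Λ : E →ₗ[ℝ] ((I.erase (cls z0) : Finset (E → ℝ)) → ℝ) :=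
      { toFun := fun v k => (k : E → ℝ) v - cls z0 v
        map_add' := fun v w => by
          funext k
          obtain ⟨z, hz, hzk⟩ := Finset.mem_image.mp (Finset.mem_of_mem_erase k.2)
          simp only [← hzk, hcls, Pi.add_apply, Submodule.coe_add, map_add]
          ring
        map_smul' := fun t v => by
          funext k
          obtain ⟨z, hz, hzk⟩ := Finset.mem_image.mp (Finset.mem_of_mem_erase k.2)
          simp only [← hzk, hcls, Pi.smul_apply, Submodule.coe_smul, map_smul, smul_eq_mul,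
            RingHom.id_apply]
          ring }
    have hinj : LinearMap.ker Λ = ⊥ := by
      rw [eq_bot_iff]
      intro v hv
      rw [LinearMap.mem_ker] at hv
      have h1 : ∀ z ∈ Z, A v z = cls z0 v * a0 z := by
        intro z hz
        have h2 : cls z v = cls z0 v := by
          by_cases hzz : cls z = cls z0
          · rw [hzz]
          · have := congrFun hv ⟨cls z, Finset.mem_erase.mpr ⟨hzz, Finset.mem_image_of_mem _ hz⟩⟩
            exact sub_eq_zero.mp this
        rw [← h2]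
        simp only [hcls]
        rw [div_mul_cancel₀ _ (ha0 z hz).ne']
      obtain ⟨h3, h4⟩ := hA v (hE v.2)
      have h5 : (v : V) = 0 := by
        rw [← h4]
        have h6 : ∀ i, A v i • y i = cls z0 v • (a0 i • y i) := by
          intro i
          by_cases hi : i ∈ Z
          · rw [h1 i hi, mul_smul]
          · rw [h3 i hi, ha00 i hi, zero_smul, smul_zero]
        simp only [h6, ← Finset.smul_sum, ha0y, smul_zero]
      rw [Submodule.mem_bot]
      exact Subtype.ext h5
    have h1 := LinearMap.finrank_le_finrank_of_injective (LinearMap.ker_eq_bot.mp hinj)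
    rw [Module.finrank_fintype_fun_eq_card, Fintype.card_coe,
      Finset.card_erase_of_mem (Finset.mem_image_of_mem _ hz0)] at h1
    have h2 : 0 < I.card := Finset.card_pos.mpr ⟨_, Finset.mem_image_of_mem _ hz0⟩
    rw [← hI] at h1
    omega
  obtain ⟨J, hJI, hJc⟩ := Finset.exists_subset_card_eq hcard
  have hch : ∀ k : J, ∃ z ∈ Z, cls z = k := fun k => by
    obtain ⟨z, hz, hzk⟩ := Finset.mem_image.mp (hJI k.2)
    exact ⟨z, hz, hzk⟩
  choose rep hrepZ hrep using hch
  refine ⟨univ.image rep, ?_, ?_, ?_⟩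
  · intro z hz
    obtain ⟨k, -, rfl⟩ := Finset.mem_image.mp hz
    exact hrepZ k
  · rw [Finset.card_image_of_injective, Finset.card_univ, Fintype.card_coe, hJc]
    intro k l hkl
    apply Subtype.ext
    rw [← hrep k, ← hrep l, hkl]
  · intro z hz z' hz' hzz
    rw [Finset.mem_coe] at hz hz'
    obtain ⟨k, -, rfl⟩ := Finset.mem_image.mp hz
    obtain ⟨l, -, rfl⟩ := Finset.mem_image.mp hz'
    have : (k : E → ℝ) = l := by rw [← hrep k, ← hrep l]; exact hzz
    rw [Subtype.ext this]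

/-- **The LP lemma, E version.** -/
theorem lp_bound_E {d c : ℕ} (hd : finrank ℝ V = d) {y : ι → V} [DecidableEq ι] (hgp : GPV d y)
    {Z F : Finset ι} (E : Submodule ℝ V) (hE : E ≤ Sp y Z) (hZF : Disjoint Z F) (hZ : Circ y Z)
    (hZc : Z.card + c = d + 1)
    (hspan : ∀ η : V →ₗ[ℝ] ℝ, η ≠ 0 → (∀ x ∈ Sp y Z, η x = 0) → ∃ u ∈ F, η (y u) < 0)
    (hex : ∀ T ⊆ Z ∪ F, Circ y T → T.card ≤ d + 1 → T.card ≤ Z.card ∧ E ≤ Sp y T) :
    (F.card - c) * (c * (c + 1)) ≤ (Z.card - finrank ℝ E) * (Z.card - finrank ℝ E - 1) := by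
  classical
  obtain ⟨S, T, h1, h2, h3⟩ := lp_core hd hgp hZF hZ hZc hspan (fun T h h' h'' => (hex T h h' h'').1)
  have hZ' := hZ
  obtain ⟨a0, ha0, ha00, ha01, ha0y⟩ := hZ'
  obtain ⟨A, hA⟩ := exists_coord y Z
  have hZne : Z.Nonempty := by
    by_contra hne
    rw [Finset.not_nonempty_iff_eq_empty] at hne
    have : ∑ i, a0 i = 0 := Finset.sum_eq_zero (fun i _ => ha00 i (by simp [hne]))
    linarith
  obtain ⟨R0, hR0Z, hR0c, hR0i⟩ := exists_reps' hZne a0 ha0 ha00 ha0y A hA E hE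
  have h4 := pair_count Z (fun z : ι => (fun v : E => A v z / a0 z)) (finrank ℝ E) c R0 hR0Z hR0c
    hR0i S T (fun P hP => (h2 P hP).2.2.1) (fun P hP => (h2 P hP).2.2.2.1) (by
      intro P hP z hz z' hz'
      obtain ⟨g1, g2, g3, g4, g5, g6⟩ := h2 P hP
      funext v
      have hvQ := (hex (P ∪ (Z \ T P)) (Finset.union_subset (g1.trans subset_union_right)
        (sdiff_subset.trans subset_union_left)) g5 g6).2 v.2
      obtain ⟨t, ht⟩ := class_of_circ hgp hZc (Finset.disjoint_of_subset_left g1 hZF.symm) g2 g3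
        g5 a0 ha00 ha01 ha0y A hA v (hE v.2) hvQ
      rw [ht z hz, ht z' hz', mul_div_cancel_right₀ _ (ha0 z (g3 hz)).ne',
        mul_div_cancel_right₀ _ (ha0 z' (g3 hz')).ne']) h3
  exact (Nat.mul_le_mul_right _ (by omega)).trans h4

end LP

end Pool.Agent.MPa0a351
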