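import Pool.Agent.Lib.MP_a0a351_co.Farkas
import Pool.Agent.Lib.MP_a0a351_co.Conf
import Pool.Agent.Lib.MP_a0a351_co.Prog

/-!
The LP lemma: a circuit of smallest excess `c` in a set positively spanning modulo its span
(module LP of MP_a0a351_co, after helper58).
-/

set_option autoImplicit false

open Module Finset

namespace Pool.Agent.MPa0a351

namespace LP

variable {ι : Type*} [Fintype ι]

/-- Conformal decomposition: a functional which is nonnegative on (chosen) circuit dependences is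
nonnegative on nonnegative dependences. -/
theorem conf_nonneg {U : Type*} [AddCommGroup U] [Module ℝ U] [FiniteDimensional ℝ U] {c : ℕ}
    (hc : finrank ℝ U = c) (u : ι → U) (F : Finset ι) (m : Finset ι → ι → ℝ)
    (hm : ∀ P ⊆ F, Circ u P → P.card ≤ c + 1 → (∀ i ∈ P, 0 < m P i) ∧ (∀ i, i ∉ P → m P i = 0) ∧
      ∑ i, m P i = 1 ∧ ∑ i, m P i • u i = 0)
    (f : ι → ℝ) (h : ∀ P ⊆ F, Circ u P → P.card ≤ c + 1 → 0 ≤ ∑ i, m P i * f i) :
    ∀ (n : ℕ) (b : ι → ℝ), (univ.filter (fun i => 0 < b i)).card = n → (∀ i, 0 ≤ b i) →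
      (∀ i, i ∉ F → b i = 0) → ∑ i, b i • u i = 0 → 0 ≤ ∑ i, b i * f i := by
  classical
  intro n
  induction n using Nat.strong_induction_on with
  | _ n ih =>
    intro b hn hb hbF hbs
    by_cases hzero : ∀ i, b i = 0
    · simp [hzero]
    push Not at hzero
    obtain ⟨x, hx⟩ := hzero
    have hx0 : 0 < b x := lt_of_le_of_ne (hb x) (Ne.symm hx)
    obtain ⟨T, hxT, hTb, hT, hTc⟩ := exists_circ_mem hc b hb hbs x hx0
    have hTF : T ⊆ F := by
      intro i hi
      by_contra hiF
      have := hTb i hi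
      rw [hbF i hiF] at this
      exact lt_irrefl _ this
    obtain ⟨hm1, hm2, hm3, hm4⟩ := hm T hTF hT hTc
    obtain ⟨j, hjT, hj⟩ := Finset.exists_min_image T (fun i => b i / m T i) ⟨x, hxT⟩
    set t := b j / m T j with ht
    have ht0 : 0 < t := div_pos (hTb j hjT) (hm1 j hjT)
    set b' : ι → ℝ := fun i => b i - t * m T i with hb'
    have hb'0 : ∀ i, 0 ≤ b' i := by
      intro i
      by_cases hi : i ∈ T
      · have h1 := hj i hi
        have h2 : t * m T i ≤ b i / m T i * m T i := mul_le_mul_of_nonneg_right h1 (hm1 i hi).le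
        rw [div_mul_cancel₀ _ (hm1 i hi).ne'] at h2
        simp only [hb']
        linarith
      · simp only [hb', hm2 i hi, mul_zero, sub_zero]
        exact hb i
    have hb'j : b' j = 0 := by
      simp only [hb', ht]
      rw [div_mul_cancel₀ _ (hm1 j hjT).ne', sub_self]
    have hlt : (univ.filter (fun i => 0 < b' i)).card < n := by
      rw [← hn]
      refine Finset.card_lt_card (Finset.ssubset_iff_subset_ne.mpr ⟨fun i hi => ?_, fun heq => ?_⟩)
      · rw [Finset.mem_filter] at hi ⊢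
        refine ⟨mem_univ _, lt_of_lt_of_le hi.2 ?_⟩
        simp only [hb']
        have : 0 ≤ t * m T i := by
          by_cases hiT : i ∈ T
          · exact mul_nonneg ht0.le (hm1 i hiT).le
          · rw [hm2 i hiT, mul_zero]
        linarith
      · have h1 : j ∈ univ.filter (fun i => 0 < b i) := mem_filter.mpr ⟨mem_univ _, hTb j hjT⟩
        rw [← heq] at h1
        have := (mem_filter.mp h1).2
        rw [hb'j] at this
        exact lt_irrefl _ this
    have h1 := ih _ hlt b' rfl hb'0 (fun i hi => by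
      simp only [hb']
      rw [hbF i hi, hm2 i (fun hh => hi (hTF hh))]
      ring) (by
      have : ∀ i, b' i • u i = b i • u i - t • (m T i • u i) := by
        intro i
        simp only [hb', sub_smul, mul_smul]
      simp only [this, Finset.sum_sub_distrib, ← Finset.smul_sum, hbs, hm4, smul_zero, sub_zero])
    have h2 := mul_nonneg ht0.le (h T hTF hT hTc)
    have h3 : ∑ i, b i * f i = ∑ i, b' i * f i + t * ∑ i, m T i * f i := by
      rw [Finset.mul_sum, ← Finset.sum_add_distrib]
      refine Finset.sum_congr rfl fun i _ => ?_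
      simp only [hb']
      ring
    rw [h3]
    exact add_nonneg h1 h2

/-- A minimal face of a polyhedron: a feasible point whose tight constraints span all
constraints. -/
theorem exists_vertex {α : Type*} (S : Finset α) (m : α → ι → ℝ) (M : α → ℝ) :
    ∀ (n : ℕ) (w : ι → ℝ), (∀ p ∈ S, ∑ i, m p i * w i ≤ M p) →
      Fintype.card ι - finrank ℝ (Submodule.span ℝ (m '' {p | p ∈ S ∧ ∑ i, m p i * w i = M p})) = n →
      ∃ w : ι → ℝ, (∀ p ∈ S, ∑ i, m p i * w i ≤ M p) ∧
        ∀ f : ι → ℝ, (∀ p ∈ S, ∑ i, m p i * w i = M p → ∑ i, m p i * f i = 0) →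
          ∀ p ∈ S, ∑ i, m p i * f i = 0 := by
  classical
  intro n
  induction n using Nat.strong_induction_on with
  | _ n ih =>
    intro w hw hn
    by_cases hgood : ∀ f : ι → ℝ, (∀ p ∈ S, ∑ i, m p i * w i = M p → ∑ i, m p i * f i = 0) →
        ∀ p ∈ S, ∑ i, m p i * f i = 0
    · exact ⟨w, hw, hgood⟩
    push Not at hgood
    -- a direction
    obtain ⟨f, hf, p0, hp0, hfp⟩ : ∃ f : ι → ℝ, (∀ p ∈ S, ∑ i, m p i * w i = M p →
        ∑ i, m p i * f i = 0) ∧ ∃ p ∈ S, 0 < ∑ i, m p i * f i := by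
      obtain ⟨f, hf, p0, hp0, hfp⟩ := hgood
      rcases lt_or_gt_of_ne hfp with h | h
      · refine ⟨-f, fun p hp hpt => ?_, p0, hp0, ?_⟩
        · simp only [Pi.neg_apply, mul_neg, Finset.sum_neg_distrib, hf p hp hpt, neg_zero]
        · simp only [Pi.neg_apply, mul_neg, Finset.sum_neg_distrib]
          linarith
      · exact ⟨f, hf, p0, hp0, h⟩
    obtain ⟨p1, hp1, hmin⟩ := Finset.exists_min_image (S.filter (fun p => 0 < ∑ i, m p i * f i))
      (fun p => (M p - ∑ i, m p i * w i) / ∑ i, m p i * f i) ⟨p0, mem_filter.mpr ⟨hp0, hfp⟩⟩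
    have hp1S := (mem_filter.mp hp1).1
    have hp1f := (mem_filter.mp hp1).2
    set t := (M p1 - ∑ i, m p1 i * w i) / ∑ i, m p1 i * f i with ht
    have ht0 : 0 ≤ t := div_nonneg (sub_nonneg.mpr (hw p1 hp1S)) hp1f.le
    have hexp : ∀ p, ∑ i, m p i * (w i + t * f i) = ∑ i, m p i * w i + t * ∑ i, m p i * f i := by
      intro p
      rw [Finset.mul_sum, ← Finset.sum_add_distrib]
      exact Finset.sum_congr rfl fun i _ => by ring
    have hw' : ∀ p ∈ S, ∑ i, m p i * (w i + t * f i) ≤ M p := by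
      intro p hp
      rw [hexp]
      by_cases hpf : 0 < ∑ i, m p i * f i
      · have h1 := hmin p (mem_filter.mpr ⟨hp, hpf⟩)
        have h2 : t * ∑ i, m p i * f i ≤ M p - ∑ i, m p i * w i := by
          rw [← le_div_iff₀ hpf]
          exact h1
        linarith
      · have h1 := mul_nonneg ht0 (neg_nonneg.mpr (not_lt.mp hpf))
        have h2 := hw p hp
        rw [mul_neg] at h1
        linarith
    have htight : ∑ i, m p1 i * (w i + t * f i) = M p1 := by
      rw [hexp, ht, div_mul_cancel₀ _ hp1f.ne']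
      ring
    -- the span grows
    set A := Submodule.span ℝ (m '' {p | p ∈ S ∧ ∑ i, m p i * w i = M p}) with hA
    set A' := Submodule.span ℝ (m '' {p | p ∈ S ∧ ∑ i, m p i * (w i + t * f i) = M p}) with hA'
    have hAA' : A < A' := by
      refine lt_of_le_of_ne (Submodule.span_mono (Set.image_mono ?_)) fun heq => ?_
      · rintro p ⟨hp, hpt⟩
        refine ⟨hp, ?_⟩
        rw [hexp, hpt, hf p hp hpt, mul_zero, add_zero]
      · have h1 : m p1 ∈ A := by
          rw [heq]
          exact Submodule.subset_span ⟨p1, ⟨hp1S, htight⟩, rfl⟩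
        let L : (ι → ℝ) →ₗ[ℝ] ℝ := ∑ i, (f i) • (LinearMap.proj i : (ι → ℝ) →ₗ[ℝ] ℝ)
        have hL : ∀ g : ι → ℝ, L g = ∑ i, g i * f i := by
          intro g
          simp only [L, LinearMap.sum_apply, LinearMap.smul_apply, LinearMap.proj_apply,
            smul_eq_mul]
          exact Finset.sum_congr rfl fun i _ => mul_comm _ _
        have h2 : A ≤ LinearMap.ker L := by
          rw [hA, Submodule.span_le]
          rintro _ ⟨p, ⟨hp, hpt⟩, rfl⟩
          change L (m p) = 0
          rw [hL]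
          exact hf p hp hpt
        have h3 : L (m p1) = 0 := h2 h1
        rw [hL] at h3
        linarith
    have hfin := Submodule.finrank_lt_finrank_of_lt hAA'
    have hle : finrank ℝ A' ≤ Fintype.card ι := by
      have := Submodule.finrank_le A'
      rwa [Module.finrank_fintype_fun_eq_card] at this
    have hlt : Fintype.card ι - finrank ℝ A' < n := by omega
    exact ih _ hlt (fun i => w i + t * f i) hw' rfl

variable {V : Type*} [AddCommGroup V] [Module ℝ V] [FiniteDimensional ℝ V]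

omit [FiniteDimensional ℝ V] in
/-- A linear map giving coefficients of the elements of `Sp y Z`. -/
theorem exists_coord (y : ι → V) (Z : Finset ι) :
    ∃ A : V →ₗ[ℝ] (ι → ℝ), ∀ w ∈ Sp y Z, (∀ i, i ∉ Z → A w i = 0) ∧ ∑ i, A w i • y i = w := by
  classical
  -- the combination map
  let S : (↥Z → ℝ) →ₗ[ℝ] V := Fintype.linearCombination ℝ (fun i : Z => y i)
  have hS : ∀ g, S g = ∑ i, g i • y i := fun g => by
    simp [S, Fintype.linearCombination_apply]
  have hrange : LinearMap.range S = Sp y Z := by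
    rw [Fintype.range_linearCombination]
    unfold Sp
    congr 1
    ext v
    simp
  obtain ⟨κ, hκ⟩ := S.rangeRestrict.exists_rightInverse_of_surjective
    (LinearMap.range_rangeRestrict S)
  obtain ⟨g, hg⟩ := LinearMap.exists_extend κ
  let ext : (↥Z → ℝ) →ₗ[ℝ] (ι → ℝ) :=
    { toFun := fun a i => if h : i ∈ Z then a ⟨i, h⟩ else 0
      map_add' := fun a b => by
        funext i
        by_cases h : i ∈ Z <;> simp [h]
      map_smul' := fun t a => by
        funext i
        by_cases h : i ∈ Z <;> simp [h] }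
  refine ⟨ext ∘ₗ g, fun w hw => ⟨fun i hi => ?_, ?_⟩⟩
  · simp [ext, hi]
  · have h1 : ∑ i, (ext ∘ₗ g) w i • y i = S (g w) := by
      rw [hS, ← Finset.sum_subset (Finset.subset_univ Z) (fun i _ hi => by simp [ext, hi]),
        ← Finset.sum_coe_sort Z]
      exact Finset.sum_congr rfl fun i _ => by simp [ext]
    rw [h1]
    have hw' : w ∈ LinearMap.range S := by rw [hrange]; exact hw
    have h2 : g w = κ ⟨w, hw'⟩ := by
      have := LinearMap.congr_fun hg ⟨w, hw'⟩
      exact this
    rw [h2]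
    have h3 := LinearMap.congr_fun hκ ⟨w, hw'⟩
    exact congrArg Subtype.val h3

omit [FiniteDimensional ℝ V] in
theorem circ_of_pos {y : ι → V} {T : Finset ι} (hT : T.Nonempty) (e : ι → ℝ)
    (he : ∀ i ∈ T, 0 < e i) (he0 : ∀ i, i ∉ T → e i = 0) (hes : ∑ i, e i • y i = 0) :
    Circ y T := by
  have hsum' : ∑ i, e i = ∑ i ∈ T, e i :=
    (Finset.sum_subset (Finset.subset_univ T) (fun i _ hi => he0 i hi)).symm
  have hsum : 0 < ∑ i, e i := by
    rw [hsum']
    exact Finset.sum_pos he hT
  refine ⟨fun i => (∑ i, e i)⁻¹ * e i, fun i hi => mul_pos (inv_pos.mpr hsum) (he i hi),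
    fun i hi => by simp [he0 i hi], ?_, ?_⟩
  · rw [← Finset.mul_sum, inv_mul_cancel₀ hsum.ne']
  · simp only [mul_smul]
    rw [← Finset.smul_sum, hes, smul_zero]

/-- The LP lemma, combinatorial core. -/
theorem lp_core {d c : ℕ} (hd : finrank ℝ V = d) {y : ι → V} [DecidableEq ι] (hgp : GPV d y)
    {Z F : Finset ι} (hZF : Disjoint Z F) (hZ : Circ y Z) (hZc : Z.card + c = d + 1)
    (hspan : ∀ η : V →ₗ[ℝ] ℝ, η ≠ 0 → (∀ x ∈ Sp y Z, η x = 0) → ∃ u ∈ F, η (y u) < 0)
    (hex : ∀ T ⊆ Z ∪ F, Circ y T → T.card ≤ d + 1 → T.card ≤ Z.card) :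
    ∃ (S : Finset (Finset ι)) (T : Finset ι → Finset ι), F.card ≤ S.card + c ∧
      (∀ P ∈ S, P ⊆ F ∧ P.card = c + 1 ∧ T P ⊆ Z ∧ c + 1 ≤ (T P).card ∧
        Circ y (P ∪ (Z \ T P)) ∧ (P ∪ (Z \ T P)).card ≤ d + 1) ∧
      ∀ P ∈ S, ∀ P' ∈ S, P ≠ P' → (T P ∩ T P').card ≤ 1 := by
  classical
  -- the quotient
  set W := Sp y Z with hW
  set u : ι → V ⧸ W := fun i => W.mkQ (y i) with hu
  have hU : finrank ℝ (V ⧸ W) = c := by
    have h1 := hgp.finrank_circ hZ (by omega)
    have h2 := Submodule.finrank_quotient_add_finrank W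
    rw [← hW] at h1
    omega
  have hZ' := hZ
  obtain ⟨a0, ha0, ha00, ha01, ha0y⟩ := hZ'
  have hZne : Z.Nonempty := by
    by_contra hne
    rw [Finset.not_nonempty_iff_eq_empty] at hne
    have : ∑ i, a0 i = 0 := Finset.sum_eq_zero (fun i _ => ha00 i (by simp [hne]))
    linarith
  obtain ⟨A, hA⟩ := exists_coord y Z
  -- the circuits of `F` modulo `W`
  have hcard : ∀ P ⊆ F, Circ u P → P.card ≤ c + 1 → P.card = c + 1 := by
    intro P hPF hP hPc
    refine le_antisymm hPc ?_
    by_contra hcon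
    push Not at hcon
    have h1 := hgp.indep hZ P (Finset.disjoint_of_subset_right hPF hZF) (by omega)
    obtain ⟨a, ha, ha1, ha2, ha3⟩ := hP
    rw [Fintype.linearIndependent_iff] at h1
    have h2 := h1 (fun i => a i) (by
      rw [← ha3, ← Finset.sum_subset (Finset.subset_univ P)
        (fun i _ hi => by rw [ha1 i hi, zero_smul]), ← Finset.sum_coe_sort P])
    have h3 : ∑ i, a i = 0 := Finset.sum_eq_zero (fun i _ => by
      by_cases hi : i ∈ P
      · exact h2 ⟨i, hi⟩
      · exact ha1 i hi)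
    rw [ha2] at h3
    exact one_ne_zero h3
  let m : Finset ι → ι → ℝ := fun P => if h : Circ u P then h.choose else 0
  have hm : ∀ P, Circ u P → (∀ i ∈ P, 0 < m P i) ∧ (∀ i, i ∉ P → m P i = 0) ∧
      ∑ i, m P i = 1 ∧ ∑ i, m P i • u i = 0 := by
    intro P hP
    have h1 : m P = hP.choose := dif_pos hP
    rw [h1]
    exact hP.choose_spec
  have hm0 : ∀ P, Circ u P → ∀ i, 0 ≤ m P i := by
    intro P hP i
    by_cases hi : i ∈ P
    · exact ((hm P hP).1 i hi).le
    · rw [(hm P hP).2.1 i hi]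
  set PS : Finset (Finset ι) := F.powerset.filter (fun P => Circ u P ∧ P.card ≤ c + 1) with hPS
  have hPSmem : ∀ P, P ∈ PS ↔ P ⊆ F ∧ Circ u P ∧ P.card ≤ c + 1 := by
    intro P
    rw [hPS, mem_filter, mem_powerset]
  -- the coordinates
  let al : ι → ι → ℝ := fun i z => -(A (y i) z) / a0 z
  let L : ι → Finset ι → ℝ := fun z P => ∑ i, m P i * al i z
  let M : Finset ι → ℝ := fun P => Z.inf' hZne (fun z => L z P)
  let T : Finset ι → Finset ι := fun P => Z.filter (fun z => L z P = M P)
  have hML : ∀ P, ∀ z ∈ Z, M P ≤ L z P := fun P z hz => Finset.inf'_le _ hz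
  have hTne : ∀ P, (T P).Nonempty := by
    intro P
    obtain ⟨z, hz, hzm⟩ := Finset.exists_mem_eq_inf' hZne (fun z => L z P)
    exact ⟨z, mem_filter.mpr ⟨hz, hzm.symm⟩⟩
  -- the circuits `P ∪ (Z \ T P)`
  have hdisjP : ∀ P ⊆ F, ∀ i ∈ P, i ∉ Z := fun P hP i hi hiZ =>
    Finset.disjoint_left.mp hZF hiZ (hP hi)
  have hcirc : ∀ P ⊆ F, Circ u P → Circ y (P ∪ (Z \ T P)) := by
    intro P hPF hP
    obtain ⟨h1, h2, h3, h4⟩ := hm P hP
    have hPne : P.Nonempty := by
      by_contra hne
      rw [Finset.not_nonempty_iff_eq_empty] at hne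
      have : ∑ i, m P i = 0 := Finset.sum_eq_zero (fun i _ => h2 i (by simp [hne]))
      linarith
    set w := ∑ i, m P i • y i with hw
    have hwW : w ∈ W := by
      rw [← Submodule.Quotient.mk_eq_zero, ← Submodule.mkQ_apply, hw, map_sum, ← h4]
      exact Finset.sum_congr rfl fun i _ => by rw [map_smul]
    have hAw : ∀ z, A w z = ∑ i, m P i * A (y i) z := by
      intro z
      rw [hw, map_sum, Finset.sum_apply]
      exact Finset.sum_congr rfl fun i _ => by rw [map_smul, Pi.smul_apply, smul_eq_mul]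
    have hLA : ∀ z ∈ Z, a0 z * L z P = - A w z := by
      intro z hz
      have h0 := (ha0 z hz).ne'
      rw [hAw, Finset.mul_sum, ← Finset.sum_neg_distrib]
      refine Finset.sum_congr rfl fun i _ => ?_
      simp only [al]
      field_simp
    refine circ_of_pos (hPne.mono subset_union_left)
      (fun i => m P i + if i ∈ Z then a0 i * (L i P - M P) else 0) (fun i hi => ?_) (fun i hi => ?_) ?_
    · rcases Finset.mem_union.mp hi with hiP | hiZ
      · rw [if_neg (hdisjP P hPF i hiP), add_zero]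
        exact h1 i hiP
      · rw [mem_sdiff, mem_filter] at hiZ
        rw [if_pos hiZ.1]
        have hlt : M P < L i P :=
          lt_of_le_of_ne (hML P i hiZ.1) (fun hh => hiZ.2 ⟨hiZ.1, hh.symm⟩)
        have h5 := mul_pos (ha0 i hiZ.1) (sub_pos.mpr hlt)
        have h6 := hm0 P hP i
        linarith
    · rw [Finset.mem_union, not_or] at hi
      rw [h2 i hi.1, zero_add]
      split_ifs with hiZ
      · have : i ∈ T P := by
          by_contra hh
          exact hi.2 (mem_sdiff.mpr ⟨hiZ, hh⟩)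
        rw [(mem_filter.mp this).2, sub_self, mul_zero]
      · rfl
    · have h5 : ∀ i, (m P i + if i ∈ Z then a0 i * (L i P - M P) else 0) • y i =
          m P i • y i + (- (A w i • y i) - M P • (a0 i • y i)) := by
        intro i
        by_cases hi : i ∈ Z
        · rw [if_pos hi, mul_sub, hLA i hi]
          module
        · rw [if_neg hi, ha00 i hi, (hA w hwW).1 i hi]
          module
      simp only [h5, Finset.sum_add_distrib, Finset.sum_sub_distrib, Finset.sum_neg_distrib,
        ← Finset.smul_sum, ha0y, (hA w hwW).2, ← hw]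
      module
  have hcircc : ∀ P ⊆ F, P.card = c + 1 → (P ∪ (Z \ T P)).card + (T P).card = d + 2 := by
    intro P hPF hP
    have h1 : Disjoint P (Z \ T P) := by
      rw [Finset.disjoint_left]
      intro i hi hi'
      exact hdisjP P hPF i hi (mem_sdiff.mp hi').1
    have h2 : T P ⊆ Z := filter_subset _ _
    have h3 := Finset.card_sdiff_add_card_eq_card h2
    rw [Finset.card_union_of_disjoint h1, hP]
    omega
  -- the vertex
  let w0 : ι → ℝ := fun i => Z.inf' hZne (fun z => al i z)
  obtain ⟨w, hw, hwt⟩ := exists_vertex PS m M _ w0 (by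
    intro P hP
    have hP' := (hPSmem P).mp hP
    refine Finset.le_inf' hZne _ (fun z hz => ?_)
    exact Finset.sum_le_sum fun i _ =>
      mul_le_mul_of_nonneg_left (Finset.inf'_le _ hz) (hm0 P hP'.2.1 i)) rfl
  set S := PS.filter (fun P => ∑ i, m P i * w i = M P) with hS
  have hSmem : ∀ P, P ∈ S ↔ P ∈ PS ∧ ∑ i, m P i * w i = M P := fun P => mem_filter
  -- nonnegativity on nonnegative dependences
  have hconf : ∀ f : ι → ℝ, (∀ P ∈ PS, 0 ≤ ∑ i, m P i * f i) → ∀ b : ι → ℝ, (∀ i, 0 ≤ b i) →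
      (∀ i, i ∉ F → b i = 0) → ∑ i, b i • u i = 0 → 0 ≤ ∑ i, b i * f i := by
    intro f hf b hb hbF hbs
    exact conf_nonneg hU u F m (fun P _ hP _ => hm P hP) f
      (fun P h1 h2 h3 => hf P ((hPSmem P).mpr ⟨h1, h2, h3⟩)) _ b rfl hb hbF hbs
  have hpot : ∀ f : ι → ℝ, (∀ P ∈ PS, 0 ≤ ∑ i, m P i * f i) →
      ∃ ξ : (V ⧸ W) →ₗ[ℝ] ℝ, ∀ i ∈ F, ξ (u i) ≤ f i := by
    intro f hf
    refine Fk.potential F u f (fun b hb hbs => ?_)
    have h1 := hconf f hf (fun i => if i ∈ F then b i else 0) (fun i => by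
      split_ifs
      exacts [hb i, le_rfl]) (fun i hi => if_neg hi) (by
      simp only [ite_smul, zero_smul]
      rw [Finset.sum_ite_mem, Finset.univ_inter]
      exact hbs)
    simp only [ite_mul, zero_mul] at h1
    rw [Finset.sum_ite_mem, Finset.univ_inter] at h1
    exact h1
  -- a strictly positive dependence of `F` modulo `W`
  obtain ⟨b1, hb1, hb10, hb1s⟩ := Fk.stiemke F u (by
    intro ξ hξ i hi
    by_contra hne
    obtain ⟨j, hj, hj0⟩ := hspan (ξ ∘ₗ W.mkQ) (by
      intro h0
      apply hne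
      exact LinearMap.congr_fun h0 (y i)) (by
      intro x hx
      have : W.mkQ x = 0 := by rwa [Submodule.mkQ_apply, Submodule.Quotient.mk_eq_zero]
      rw [LinearMap.comp_apply, this, map_zero])
    exact absurd hj0 (not_lt.mpr (hξ j hj)))
  have hb1s' : ∑ i, b1 i • u i = 0 := by
    rw [← hb1s]
    exact (Finset.sum_subset (Finset.subset_univ F)
      (fun i _ hi => by rw [hb10 i hi, zero_smul])).symm
  have hb1nn : ∀ i, 0 ≤ b1 i := fun i => by
    by_cases hi : i ∈ F
    · exact (hb1 i hi).le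
    · rw [hb10 i hi]
  have hrow : ∀ f : ι → ℝ, (∀ P ∈ PS, ∑ i, m P i * f i = 0) →
      ∃ ξ : (V ⧸ W) →ₗ[ℝ] ℝ, ∀ i ∈ F, ξ (u i) = f i := by
    intro f hf
    obtain ⟨ξ, hξ⟩ := hpot f (fun P hP => (hf P hP).ge)
    refine ⟨ξ, fun i hi => ?_⟩
    have h1 : 0 ≤ ∑ i, b1 i * f i := hconf f (fun P hP => (hf P hP).ge) b1 hb1nn hb10 hb1s'
    have h2 : 0 ≤ ∑ i, b1 i * (-f) i := hconf (-f) (fun P hP => by
      simp only [Pi.neg_apply, mul_neg, Finset.sum_neg_distrib, hf P hP, neg_zero]
      exact le_rfl) b1 hb1nn hb10 hb1s'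
    simp only [Pi.neg_apply, mul_neg, Finset.sum_neg_distrib] at h2
    have h3 : ∑ i, b1 i * ξ (u i) = 0 := by
      have : ξ (∑ i, b1 i • u i) = 0 := by rw [hb1s', map_zero]
      rw [map_sum] at this
      simpa only [map_smul, smul_eq_mul] using this
    have h4 : ∑ i ∈ F, b1 i * (f i - ξ (u i)) = 0 := by
      have h5 : ∑ i ∈ F, b1 i * (f i - ξ (u i)) = ∑ i, b1 i * (f i - ξ (u i)) :=
        Finset.sum_subset (Finset.subset_univ F) (fun i _ hi => by rw [hb10 i hi, zero_mul])
      rw [h5]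
      simp only [mul_sub, Finset.sum_sub_distrib, h3]
      linarith
    have h6 := (Finset.sum_eq_zero_iff_of_nonneg (fun i hi => mul_nonneg (hb1 i hi).le
      (sub_nonneg.mpr (hξ i hi)))).mp h4 i hi
    rcases mul_eq_zero.mp h6 with h7 | h7
    · exact absurd h7 (hb1 i hi).ne'
    · linarith
  refine ⟨S, T, ?_, ?_, ?_⟩
  · -- the number of tight circuits
    let Λ : (F → ℝ) →ₗ[ℝ] (S → ℝ) :=
      { toFun := fun f P => ∑ i : F, m P i * f i
        map_add' := fun f g => by
          funext P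
          simp only [Pi.add_apply, mul_add, Finset.sum_add_distrib]
        map_smul' := fun t f => by
          funext P
          simp only [Pi.smul_apply, smul_eq_mul, RingHom.id_apply, Finset.mul_sum]
          exact Finset.sum_congr rfl fun i _ => by ring }
    let Ξ : Dual ℝ (V ⧸ W) →ₗ[ℝ] (F → ℝ) :=
      { toFun := fun ξ i => ξ (u i)
        map_add' := fun f g => by
          funext i
          rfl
        map_smul' := fun t f => by
          funext i
          rfl }
    have hker : LinearMap.ker Λ ≤ LinearMap.range Ξ := by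
      intro f hf
      rw [LinearMap.mem_ker] at hf
      set f' : ι → ℝ := fun i => if h : i ∈ F then f ⟨i, h⟩ else 0 with hf'
      have hff : ∀ P ∈ PS, ∑ i, m P i * f' i = ∑ i : F, m P i * f i := by
        intro P hP
        rw [← Finset.sum_subset (Finset.subset_univ F)
          (fun i _ hi => by simp only [hf', dif_neg hi, mul_zero]),
          ← Finset.sum_coe_sort F (fun i => m P i * f' i)]
        exact Finset.sum_congr rfl fun i _ => by simp [hf']
      have h1 := hwt f' (fun P hP hPt => by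
        rw [hff P hP]
        exact congrFun hf ⟨P, (hSmem P).mpr ⟨hP, hPt⟩⟩)
      obtain ⟨ξ, hξ⟩ := hrow f' h1
      refine ⟨ξ, ?_⟩
      funext i
      change ξ (u i) = f i
      rw [hξ i i.2]
      simp [hf']
    have h1 := LinearMap.finrank_range_add_finrank_ker Λ
    have h2 : finrank ℝ (LinearMap.ker Λ) ≤ c := by
      refine (Submodule.finrank_mono hker).trans ?_
      refine (LinearMap.finrank_range_le Ξ).trans ?_
      rw [Subspace.dual_finrank_eq, hU]
    have h3 : finrank ℝ (LinearMap.range Λ) ≤ S.card := by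
      refine (Submodule.finrank_le _).trans ?_
      rw [Module.finrank_fintype_fun_eq_card, Fintype.card_coe]
    rw [Module.finrank_fintype_fun_eq_card, Fintype.card_coe] at h1
    omega
  · intro P hP
    obtain ⟨hP1, hP2, hP3⟩ := (hPSmem P).mp ((hSmem P).mp hP).1
    have h1 := hcard P hP1 hP2 hP3
    have h2 := hcircc P hP1 h1
    have h3 := (hTne P).card_pos
    have h4 : P ∪ (Z \ T P) ⊆ Z ∪ F :=
      Finset.union_subset (hP1.trans subset_union_right) (sdiff_subset.trans subset_union_left)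
    have h5 := hex _ h4 (hcirc P hP1 hP2) (by omega)
    exact ⟨hP1, h1, filter_subset _ _, by omega, hcirc P hP1 hP2, by omega⟩
  · intro P hP P' hP' hne
    by_contra hcon
    push Not at hcon
    obtain ⟨z, hz, z', hz', hzz'⟩ := Finset.one_lt_card.mp hcon
    rw [mem_inter] at hz hz'
    obtain ⟨hPPS, hPt⟩ := (hSmem P).mp hP
    obtain ⟨hPPS', hPt'⟩ := (hSmem P').mp hP'
    have hzZ : z ∈ Z := (mem_filter.mp hz.1).1
    have hzZ' : z' ∈ Z := (mem_filter.mp hz'.1).1
    -- potentials
    have key : ∀ z ∈ Z, ∃ ξ : (V ⧸ W) →ₗ[ℝ] ℝ, (∀ i ∈ F, ξ (u i) ≤ al i z - w i) ∧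
        ∀ P ∈ S, z ∈ T P → ∀ i ∈ P, ξ (u i) = al i z - w i := by
      intro z hz
      obtain ⟨ξ, hξ⟩ := hpot (fun i => al i z - w i) (fun P hP => by
        have h1 := hML P z hz
        have h2 := hw P hP
        simp only [mul_sub, Finset.sum_sub_distrib]
        change 0 ≤ L z P - _
        linarith)
      refine ⟨ξ, hξ, fun P hP hzP i hi => ?_⟩
      obtain ⟨hPPS, hPt⟩ := (hSmem P).mp hP
      obtain ⟨hP1, hP2, hP3⟩ := (hPSmem P).mp hPPS
      obtain ⟨h1, h2, h3, h4⟩ := hm P hP2
      have h5 : ∑ i, m P i * ξ (u i) = 0 := by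
        have : ξ (∑ i, m P i • u i) = 0 := by rw [h4, map_zero]
        rw [map_sum] at this
        simpa only [map_smul, smul_eq_mul] using this
      have h6 : ∑ i ∈ P, m P i * (al i z - w i - ξ (u i)) = 0 := by
        have h7 : ∑ i ∈ P, m P i * (al i z - w i - ξ (u i)) =
            ∑ i, m P i * (al i z - w i - ξ (u i)) :=
          Finset.sum_subset (Finset.subset_univ P) (fun i _ hi => by rw [h2 i hi, zero_mul])
        rw [h7]
        simp only [mul_sub, Finset.sum_sub_distrib, h5, hPt]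
        have h8 : L z P = M P := (mem_filter.mp hzP).2
        change L z P - M P - 0 = 0
        rw [h8]
        ring
      have h9 := (Finset.sum_eq_zero_iff_of_nonneg (fun i hi => mul_nonneg (h1 i hi).le
        (by have := hξ i (hP1 hi); linarith))).mp h6 i hi
      rcases mul_eq_zero.mp h9 with h10 | h10
      · exact absurd h10 (h1 i hi).ne'
      · linarith
    obtain ⟨ξ, -, hξt⟩ := key z hzZ
    obtain ⟨ξ', -, hξt'⟩ := key z' hzZ'
    -- the functional
    let Φ : V →ₗ[ℝ] ℝ := (-(a0 z)⁻¹) • (LinearMap.proj z ∘ₗ A) + (a0 z')⁻¹ • (LinearMap.proj z' ∘ₗ A)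
      - ξ ∘ₗ W.mkQ + ξ' ∘ₗ W.mkQ
    have hΦ : ∀ v, Φ v = -(a0 z)⁻¹ * A v z + (a0 z')⁻¹ * A v z' - ξ (W.mkQ v) + ξ' (W.mkQ v) := by
      intro v
      simp [Φ]
    have hΦP : ∀ Q ∈ S, z ∈ T Q → z' ∈ T Q → ∀ i ∈ Q, Φ (y i) = 0 := by
      intro Q hQ hzQ hzQ' i hi
      rw [hΦ]
      have h1 := hξt Q hQ hzQ i hi
      have h2 := hξt' Q hQ hzQ' i hi
      simp only [al, hu] at h1 h2
      rw [h1, h2]
      ring
    have hΦZ : ∀ x ∈ Z, ∃ t : ℝ, ∀ j ∈ Z, A (y x) j = (if j = x then 1 else 0) + t * a0 j := by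
      intro x hx
      have hyx : y x ∈ W := Submodule.subset_span ⟨x, hx, rfl⟩
      obtain ⟨h1, h2⟩ := hA (y x) hyx
      have h3 := GplAux.dep_eq hgp (C := Z) (T := Z) (Finset.Subset.refl _) (by omega) a0 ha00
        ha01 ha0y (fun j => A (y x) j - if j = x then 1 else 0) (fun j hj => by
          rw [h1 j hj, if_neg (by rintro rfl; exact hj hx), sub_zero]) (by
          simp only [sub_smul, Finset.sum_sub_distrib, h2, ite_smul, one_smul, zero_smul,
            Finset.sum_ite_eq', Finset.mem_univ, if_true, sub_self])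
      refine ⟨∑ j, (A (y x) j - if j = x then 1 else 0), fun j _ => ?_⟩
      have := h3 j
      linarith
    have hmkZ : ∀ x ∈ Z, W.mkQ (y x) = 0 := by
      intro x hx
      rw [Submodule.mkQ_apply, Submodule.Quotient.mk_eq_zero]
      exact Submodule.subset_span ⟨x, hx, rfl⟩
    have hΦz : ∀ x ∈ Z, x ≠ z → x ≠ z' → Φ (y x) = 0 := by
      intro x hx h1 h2
      obtain ⟨t, ht⟩ := hΦZ x hx
      rw [hΦ, ht z hzZ, ht z' hzZ', if_neg (Ne.symm h1), if_neg (Ne.symm h2), hmkZ x hx, map_zero,
        map_zero]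
      have h3 := (ha0 z hzZ).ne'
      have h4 := (ha0 z' hzZ').ne'
      field_simp
      ring
    have hΦ0 : Φ (y z) ≠ 0 := by
      obtain ⟨t, ht⟩ := hΦZ z hzZ
      rw [hΦ, ht z hzZ, ht z' hzZ', if_pos rfl, if_neg (Ne.symm hzz'), hmkZ z hzZ, map_zero,
        map_zero]
      have h3 := (ha0 z hzZ).ne'
      have h4 := (ha0 z' hzZ').ne'
      have h5 : -(a0 z)⁻¹ * (1 + t * a0 z) + (a0 z')⁻¹ * (0 + t * a0 z') - 0 + 0 = -(a0 z)⁻¹ := by
        field_simp
        ring
      rw [h5]
      exact neg_ne_zero.mpr (inv_ne_zero h3)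
    -- `Φ` vanishes on `d + 1` elements
    obtain ⟨hP1, hP2, hP3⟩ := (hPSmem P).mp hPPS
    obtain ⟨hP1', hP2', hP3'⟩ := (hPSmem P').mp hPPS'
    have hc1 := hcard P hP1 hP2 hP3
    have hc2 := hcard P' hP1' hP2' hP3'
    set Q := (P ∪ P') ∪ ((Z.erase z).erase z') with hQ
    have hQc : d + 1 ≤ Q.card := by
      have h1 : Disjoint (P ∪ P') ((Z.erase z).erase z') := by
        rw [Finset.disjoint_left]
        intro i hi hi'
        have hiZ : i ∈ Z := Finset.mem_of_mem_erase (Finset.mem_of_mem_erase hi')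
        rcases Finset.mem_union.mp hi with h | h
        · exact hdisjP P hP1 i h hiZ
        · exact hdisjP P' hP1' i h hiZ
      have h2 : P.card < (P ∪ P').card := by
        refine Finset.card_lt_card (Finset.ssubset_iff_subset_ne.mpr
          ⟨subset_union_left, fun heq => ?_⟩)
        have h3 : P' ⊆ P := by rw [heq]; exact subset_union_right
        exact hne (Finset.eq_of_subset_of_card_le h3 (by omega)).symm
      have h3 : ((Z.erase z).erase z').card = Z.card - 2 := by
        rw [Finset.card_erase_of_mem (Finset.mem_erase.mpr ⟨Ne.symm hzz', hzZ'⟩),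
          Finset.card_erase_of_mem hzZ]
        omega
      have h4 : 2 ≤ Z.card := Finset.one_lt_card.mpr ⟨z, hzZ, z', hzZ', hzz'⟩
      rw [hQ, Finset.card_union_of_disjoint h1, h3]
      omega
    have hspanQ := hgp.span hd Q hQc
    have h7 : Sp y Q ≤ LinearMap.ker Φ := by
      unfold Sp
      rw [Submodule.span_le]
      rintro _ ⟨i, hi, rfl⟩
      change Φ (y i) = 0
      rcases Finset.mem_union.mp (Finset.mem_coe.mp hi) with h | h
      · rcases Finset.mem_union.mp h with h | h
        · exact hΦP P hP hz.1 hz'.1 i h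
        · exact hΦP P' hP' hz.2 hz'.2 i h
      · rw [Finset.mem_erase, Finset.mem_erase] at h
        exact hΦz i h.2.2 h.2.1 h.1
    rw [hspanQ] at h7
    exact hΦ0 (h7 Submodule.mem_top)

end LP

end Pool.Agent.MPa0a351
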