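import Pool.Agent.Lib.MP_a0a351_co.Half
import Pool.Agent.Lib.MP_a0a351_co.Tvb
import Pool.Agent.Lib.MP_a0a351_co.Prog
import Pool.Agent.Lib.MP_a0a351_co.Conc

set_option autoImplicit false

open Module Finset

namespace Pool.Agent.MPa0a351

variable {ι V : Type*} [Fintype ι] [NormedAddCommGroup V] [NormedSpace ℝ V]
  [FiniteDimensional ℝ V]

/-- A pre-state with maximal `dim E`, generic point and maximal sum of cardinalities. -/
structure MaxState (d : ℕ) {r : ℕ} (X : ι → V) (o : V) (A : Fin r → Finset ι) : Prop where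
  pre : PreState d X o A
  maxE : ∀ (o' : V) (A' : Fin r → Finset ι), PreState d X o' A' →
    finrank ℝ (EE X o' A') ≤ finrank ℝ (EE X o A)
  exch : ∀ j, ∀ T : Finset ι, (∀ i, i ≠ j → Disjoint T (A i)) → Circ (fun x => X x - o) T →
    T.card ≤ d + 1 → T.card ≤ (A j).card ∧ EE X o A ≤ Sp (fun x => X x - o) T

theorem exists_maxState (d r : ℕ) (hd : finrank ℝ V = d) (hr : 1 ≤ r) (X : ι → V)
    (hcard : (d + 1) * (r - 1) + 1 ≤ Fintype.card ι) :
    ∃ (o : V) (A : Fin r → Finset ι), MaxState d X o A := by
  classical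
  -- maximal e
  let p : ℕ → Prop := fun e => ∃ (o : V) (A : Fin r → Finset ι), PreState d X o A ∧
    finrank ℝ (EE X o A) = e
  have hp0 : ∃ e, p e := by
    obtain ⟨o, A, h⟩ := exists_preState d r hd hr X hcard
    exact ⟨_, o, A, h, rfl⟩
  have hpb : ∀ e, p e → e ≤ d := by
    rintro e ⟨o, A, -, rfl⟩
    rw [← hd]
    exact Submodule.finrank_le _
  obtain ⟨e0, he0⟩ := hp0
  set e := Nat.findGreatest p d with he
  have hpe : p e := Nat.findGreatest_spec (hpb e0 he0) he0
  have hmaxe : ∀ e', p e' → e' ≤ e := fun e' h' => Nat.le_findGreatest (hpb e' h') h'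
  -- maximal sum
  let q : ℕ → Prop := fun s => ∃ (o : V) (A : Fin r → Finset ι), PreState d X o A ∧
    finrank ℝ (EE X o A) = e ∧
    (∀ T : Finset ι, Circ (fun x => X x - o) T → EE X o A ≤ Sp (fun x => X x - o) T) ∧
    ∑ i, (A i).card = s
  have hq0 : ∃ s, q s := by
    obtain ⟨o, A, h, hE⟩ := hpe
    obtain ⟨o', h', hEE, hgen⟩ := exists_generic X o A h
    exact ⟨_, o', A, h', by rw [hEE, hE], hgen, rfl⟩
  have hqb : ∀ s, q s → s ≤ r * (d + 1) := by
    rintro s ⟨o, A, h, -, -, rfl⟩
    calc ∑ i, (A i).card ≤ ∑ _i : Fin r, (d + 1) := Finset.sum_le_sum (fun i _ => h.card i)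
      _ = r * (d + 1) := by simp
  obtain ⟨s0, hs0⟩ := hq0
  set s := Nat.findGreatest q (r * (d + 1)) with hs
  have hqs : q s := Nat.findGreatest_spec (hqb s0 hs0) hs0
  have hmaxs : ∀ s', q s' → s' ≤ s := fun s' h' => Nat.le_findGreatest (hqb s' h') h'
  obtain ⟨o, A, hpre, hE, hgen, hsum⟩ := hqs
  refine ⟨o, A, hpre, ?_, ?_⟩
  · intro o' A' h'
    rw [hE]
    exact hmaxe _ ⟨o', A', h', rfl⟩
  · intro j T hTd hT hTc
    refine ⟨?_, hgen T hT⟩
    -- exchange
    set A' := Function.update A j T with hA'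
    have hpre' : PreState d X o A' := by
      refine ⟨?_, ?_, ?_⟩
      · intro i i' hii'
        by_cases hi : i = j
        · subst hi
          rw [hA', Function.update_self, Function.update_of_ne hii'.symm]
          exact hTd i' hii'.symm
        · by_cases hi' : i' = j
          · subst hi'
            rw [hA', Function.update_self, Function.update_of_ne hi]
            exact (hTd i hi).symm
          · rw [hA', Function.update_of_ne hi, Function.update_of_ne hi']
            exact hpre.disj i i' hii'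
      · intro i
        by_cases hi : i = j
        · subst hi; rw [hA', Function.update_self]; exact hTc
        · rw [hA', Function.update_of_ne hi]; exact hpre.card i
      · intro i
        by_cases hi : i = j
        · subst hi; rw [hA', Function.update_self]; exact hT
        · rw [hA', Function.update_of_ne hi]; exact hpre.circ i
    have hEle : EE X o A ≤ EE X o A' := by
      refine le_iInf (fun i => ?_)
      by_cases hi : i = j
      · subst hi; rw [hA', Function.update_self]; exact hgen T hT
      · rw [hA', Function.update_of_ne hi]; exact iInf_le _ i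
    have hEeq : EE X o A = EE X o A' :=
      Submodule.eq_of_le_of_finrank_le hEle (by rw [hE]; exact hmaxe _ ⟨o, A', hpre', rfl⟩)
    have hq' : q (∑ i, (A' i).card) :=
      ⟨o, A', hpre', by rw [← hEeq, hE], fun T' hT' => by rw [← hEeq]; exact hgen T' hT', rfl⟩
    have h1 := hmaxs _ hq'
    rw [← hsum] at h1
    have h2 : ∑ i, (A' i).card = ∑ i ∈ univ.erase j, (A i).card + T.card := by
      rw [← Finset.sum_erase_add _ _ (Finset.mem_univ j), hA', Function.update_self]
      congr 1
      exact Finset.sum_congr rfl (fun i hi => by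
        rw [Function.update_of_ne (Finset.ne_of_mem_erase hi)])
    have h3 : ∑ i, (A i).card = ∑ i ∈ univ.erase j, (A i).card + (A j).card :=
      (Finset.sum_erase_add _ _ (Finset.mem_univ j)).symm
    omega

variable {d r : ℕ} {X : ι → V} {o : V} {A : Fin r → Finset ι}

theorem finrank_quot_sp (hd : finrank ℝ V = d) (hX : GPV d X) (h : PreState d X o A) (j : Fin r) :
    finrank ℝ (V ⧸ Sp (fun x => X x - o) (A j)) + (A j).card = d + 1 := by
  have h1 := (hX.sub o).finrank_circ (h.circ j) (h.card j)
  have h2 := Submodule.finrank_quotient_add_finrank (Sp (fun x => X x - o) (A j))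
  omega

/-- No progress is possible from a max state. -/
theorem MaxState.no_progress [DecidableEq ι] (h : MaxState d X o A) (hd : finrank ℝ V = d) (hr : 1 ≤ r)
    (hX : GPV d X) (L : Finset ι) (hL : ∀ j, Disjoint L (A j)) (η : V →ₗ[ℝ] ℝ) (hη0 : η ≠ 0)
    (hη : ∀ x ∈ EE X o A, η x = 0) (hpos : ∀ x ∈ L, 0 ≤ η (X x - o))
    (hcard : ∑ j, (d + 1 - (A j).card) + 1 + finrank ℝ (EE X o A) ≤ d + L.card) : False := by
  classical
  have : Nonempty (Fin r) := ⟨⟨0, by omega⟩⟩
  set y : ι → V := fun x => X x - o with hy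
  have hgy : GPV d y := hX.sub o
  set W : Fin r → Submodule ℝ V := fun j => Sp y (A j) with hW
  have hWE : (⨅ j, W j) = EE X o A := rfl
  have hcod : ∀ j, finrank ℝ (V ⧸ W j) = d + 1 - (A j).card := fun j => by
    have := finrank_quot_sp hd hX h.pre j
    show finrank ℝ (V ⧸ Sp (fun x => X x - o) (A j)) = _
    omega
  have hE := Submodule.finrank_quotient_add_finrank (EE X o A)
  have hmain := closedHalf (J := Fin r) (ι := L) W η hη0 (by rw [hWE]; exact hη)
    (fun i => y i) (fun i => hpos i i.2) ?_ ?_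
  · obtain ⟨f, c, v, hc, hv, hvW⟩ := hmain
    -- build the sets
    let Ls : Fin r → Finset ι := fun j => (univ.filter (fun i : L => f i = j)).map
      (Function.Embedding.subtype _)
    let c' : ι → ℝ := fun i => if hi : i ∈ L then c ⟨i, hi⟩ else 0
    have g1 : ∀ i j, i ≠ j → Disjoint (Ls i) (Ls j) := by
      intro i j hij
      rw [Finset.disjoint_left]
      intro x hx hx'
      obtain ⟨a, ha, rfl⟩ := Finset.mem_map.mp hx
      obtain ⟨b, hb, hab⟩ := Finset.mem_map.mp hx'
      have hab' : b = a := Subtype.ext hab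
      rw [Finset.mem_filter] at ha hb
      rw [hab'] at hb
      exact hij (ha.2.symm.trans hb.2)
    have g2 : ∀ i j, Disjoint (Ls i) (A j) := by
      intro i j
      rw [Finset.disjoint_left]
      intro x hx hx'
      obtain ⟨a, -, rfl⟩ := Finset.mem_map.mp hx
      exact Finset.disjoint_left.mp (hL j) a.2 hx'
    have g3 : ∀ i, 0 ≤ c' i := by
      intro i
      by_cases hi : i ∈ L
      · simp only [c', dif_pos hi]; exact hc _
      · simp only [c', dif_neg hi]; exact le_rfl
    have g4 : ∀ j, v - ∑ x ∈ Ls j, c' x • (X x - o) ∈ Sp (fun x => X x - o) (A j) := by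
      intro j
      have h1 := hvW j
      have h2 : ∑ x ∈ Ls j, c' x • (X x - o) = ∑ i ∈ univ.filter (fun i => f i = j), c i • y i := by
        simp only [Ls, Finset.sum_map]
        refine Finset.sum_congr rfl (fun i _ => ?_)
        simp [c', hy]
      rw [h2]
      exact h1
    obtain ⟨o', A', h', hlt⟩ := progress X hX o A h.pre Ls g1 g2 v hv c' g3 g4 hd
    have := h.maxE o' A' h'
    omega
  · intro j Q hQ
    have hcod' := hcod j
    rw [hcod'] at hQ
    have h1 := (hX.sub o).indep (h.pre.circ j) (Q.map (Function.Embedding.subtype _)) ?_ ?_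
    · have h2 := h1.comp (fun i : Q => (⟨(i : L), Finset.mem_map_of_mem _ i.2⟩ :
        (Q.map (Function.Embedding.subtype (fun x => x ∈ L)) : Finset ι)))
        (fun a b hab => Subtype.ext (Subtype.ext (Subtype.mk.inj hab)))
      exact h2
    · rw [Finset.disjoint_right]
      intro x hx hx'
      obtain ⟨a, -, rfl⟩ := Finset.mem_map.mp hx
      exact Finset.disjoint_left.mp (hL j) a.2 hx'
    · rw [Finset.card_map]
      have := h.pre.card j
      omega
  · rw [hWE, Fintype.card_coe]
    have h1 : ∑ j, finrank ℝ (V ⧸ W j) = ∑ j, (d + 1 - (A j).card) :=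
      Finset.sum_congr rfl (fun j _ => hcod j)
    rw [h1]
    omega

theorem MaxState.numbers [DecidableEq ι] (h : MaxState d X o A) (hd : finrank ℝ V = d) (hr : 1 ≤ r)
    (hX : GPV d X) {k : ℕ} (hk : finrank ℝ (EE X o A) < k)
    (hcard : Fintype.card ι = (d + 1) * (r - 1) + 1 + k) :
    2 * (d - finrank ℝ (EE X o A)) ≤ ∑ j, (d + 1 - (A j).card) ∧
    d - finrank ℝ (EE X o A) + 1 ≤ (univ \ univ.biUnion A).card ∧
    ∀ η : V →ₗ[ℝ] ℝ, η ≠ 0 → (∀ x ∈ EE X o A, η x = 0) →
      ∃ u ∈ univ \ univ.biUnion A, η (X u - o) < 0 := by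
  classical
  set e := finrank ℝ (EE X o A) with he
  set L := univ \ univ.biUnion A with hLdef
  have hed : e ≤ d := by rw [he, ← hd]; exact Submodule.finrank_le _
  have hLA : ∀ j, Disjoint L (A j) := by
    intro j
    rw [Finset.disjoint_left]
    intro x hx hxj
    exact (Finset.mem_sdiff.mp hx).2 (Finset.mem_biUnion.mpr ⟨j, Finset.mem_univ _, hxj⟩)
  have hbU : (univ.biUnion A).card = ∑ j, (A j).card :=
    Finset.card_biUnion (fun i _ j _ hij => h.pre.disj i j hij)
  have hLc : L.card + ∑ j, (A j).card = Fintype.card ι := by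
    rw [hLdef, Finset.card_sdiff_of_subset (Finset.subset_univ _), hbU, Finset.card_univ]
    have : ∑ j, (A j).card ≤ Fintype.card ι := by
      rw [← hbU]; exact Finset.card_le_univ _
    omega
  set N := ∑ j, (d + 1 - (A j).card) with hN
  have hNsum : N + ∑ j, (A j).card = r * (d + 1) := by
    rw [hN, ← Finset.sum_add_distrib]
    rw [Finset.sum_congr rfl (fun j _ => Nat.sub_add_cancel (h.pre.card j))]
    simp
  have hr' : r * (d + 1) = (d + 1) * (r - 1) + (d + 1) := by
    obtain ⟨r', rfl⟩ : ∃ r', r = r' + 1 := ⟨r - 1, by omega⟩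
    simp only [Nat.add_sub_cancel]; ring
  have hLN : L.card + d = N + k := by omega
  -- positively spanning
  have hspan : ∀ η : V →ₗ[ℝ] ℝ, η ≠ 0 → (∀ x ∈ EE X o A, η x = 0) →
      ∃ u ∈ L, η (X u - o) < 0 := by
    intro η hη0 hη
    by_contra hcon
    push Not at hcon
    exact h.no_progress hd hr hX L hLA η hη0 hη hcon (by omega)
  -- the main inequality
  have hmain : 2 * (d - e) ≤ N := by
    by_contra hcon
    push Not at hcon
    have hDpos : 0 < d - e := by omega
    have hE := Submodule.finrank_quotient_add_finrank (EE X o A)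
    have hQ : finrank ℝ (V ⧸ EE X o A) = d - e := by omega
    set m := N + 1 - (d - e) with hm
    have hmL : m ≤ L.card := by omega
    obtain ⟨L', hL'L, hL'c⟩ := Finset.exists_subset_card_eq hmL
    obtain ⟨η, hη0, hη, hηpos⟩ := smallHalf (ι := L') (EE X o A) (fun i => X i - o)
      (by rw [hQ]; exact hDpos) (by rw [Fintype.card_coe, hL'c, hQ]; omega)
    exact h.no_progress hd hr hX L' (fun j => Finset.disjoint_of_subset_left hL'L (hLA j)) η hη0 hη
      (fun x hx => hηpos ⟨x, hx⟩) (by omega)
  refine ⟨hmain, by omega, hspan⟩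

end Pool.Agent.MPa0a351
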