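import Pool.Agent.Lib.MP_a0a351_co.Final

/-!
Reay's relaxed Tverberg conjecture (dimension of the set of Tverberg points), for points in
general position, for all `r ≤ 5` in every dimension, for `r ≤ 7` when `k ≤ d - 3`, and for
every `r` with `(r - 2) * (r - 3) + k ≤ d`.

Proof: maximise the dimension of the intersection of the linear spans of the parts of a
Tverberg partition into circuits, then, in case of a failure, study the circuits inside the union
of one part and the set of all unused points (three circuits, four circuits, a star of circuits).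
-/

set_option autoImplicit false

open Module

namespace Pool.Agent.MPa0a351.OldSmallR

/-- Any `(d+1)(r-1)+1+k` points of `ℝ^d` in general position (`k ≤ d`) can be split into `r` parts
whose convex hulls share `k + 1` affinely independent points, provided `r ≤ 5`, or `r ≤ 7` and
`k + 3 ≤ d`, or `(r - 2)(r - 3) + k ≤ d`. -/
theorem small_r :
    ∀ (d r k n : ℕ), 1 ≤ r → k ≤ d → n = (d + 1) * (r - 1) + 1 + k →
      (r ≤ 5 ∨ (r ≤ 7 ∧ k + 3 ≤ d) ∨ (r - 2) * (r - 3) + k ≤ d) →
      ∀ p : Fin n → EuclideanSpace ℝ (Fin d),
        (∀ s : Finset (Fin n), s.card ≤ d + 1 →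
          AffineIndependent ℝ (fun i : s => p (i : Fin n))) →
        ∃ f : Fin n → Fin r, ∃ q : Fin (k + 1) → EuclideanSpace ℝ (Fin d),
          AffineIndependent ℝ q ∧
          ∀ j : Fin (k + 1), ∀ i : Fin r,
            q j ∈ convexHull ℝ (p '' {m : Fin n | f m = i}) :=
  Pool.Agent.MPa0a351.reay_main

end Pool.Agent.MPa0a351.OldSmallR
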