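import Pool.Agent.Lib.MP_a0a351_co.Bounds

/-!
Weak rows: like `Row`, but the set `L` is only assumed to be positively spanning modulo the span of
`C`. Basic facts (copied from `ModC`).
-/

set_option autoImplicit false

open Module Finset

namespace Pool.Agent.MPa0a351

/-- The setting of one row, weak version: `L` is positively spanning modulo the span of `C`. -/
structure RowW {ι V : Type*} [Fintype ι] [AddCommGroup V] [Module ℝ V] (d c : ℕ) (y : ι → V)
    (E : Submodule ℝ V) (C L : Finset ι) [DecidableEq ι] : Prop where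
  gp : GPV d y
  hd : finrank ℝ V = d
  disj : Disjoint C L
  circ : Circ y C
  card : C.card + c = d + 1
  pos : 1 ≤ c
  exch : ∀ T, T ⊆ C ∪ L → Circ y T → T.card ≤ d + 1 → T.card ≤ C.card ∧ E ≤ Sp y T
  span : ∀ η : V →ₗ[ℝ] ℝ, η ≠ 0 → (∀ x ∈ Sp y C, η x = 0) → ∃ u ∈ L, η (y u) < 0

variable {ι V : Type*} [Fintype ι] [AddCommGroup V] [Module ℝ V] [FiniteDimensional ℝ V]

theorem Row.toRowW {d c : ℕ} {y : ι → V} [DecidableEq ι] {E : Submodule ℝ V} {C L : Finset ι}
    (h : Row d c y E C L) : RowW d c y E C L :=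
  ⟨h.gp, h.hd, h.disj, h.circ, h.card, h.pos, h.exch, fun η hη0 hη => h.span η hη0
    (fun x hx => hη x (MODC.E_le h hx))⟩

namespace LPW

theorem finrank_quot {d c : ℕ} {y : ι → V} [DecidableEq ι] {E : Submodule ℝ V} {C L : Finset ι}
    (h : RowW d c y E C L) : finrank ℝ (V ⧸ Sp y C) = c := by
  have h1 := h.gp.finrank_circ h.circ (by have := h.card; omega)
  have h2 := Submodule.finrank_quotient_add_finrank (Sp y C)
  have h3 := h.hd
  have h4 := h.card
  omega

/-- A positive dependence modulo `Sp y C` has more than `c` terms. -/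
theorem card_ge {d c : ℕ} {y : ι → V} [DecidableEq ι] {E : Submodule ℝ V} {C L : Finset ι}
    (h : RowW d c y E C L) {P : Finset ι} (hPL : P ⊆ L) (b : ι → ℝ) (hb : ∀ i, i ∉ P → b i = 0)
    (hbne : ∃ i, b i ≠ 0) (hsum : ∑ i, b i • y i ∈ Sp y C) : c + 1 ≤ P.card := by
  by_contra hlt
  have hdisj : Disjoint C P := Finset.disjoint_of_subset_right hPL h.disj
  have hind := h.gp.indep h.circ P hdisj (by have := h.card; omega)
  have hz : ∑ i : P, b i • (Sp y C).mkQ (y i) = 0 := by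
    have h1 : (Sp y C).mkQ (∑ i, b i • y i) = 0 := by
      rw [Submodule.mkQ_apply, Submodule.Quotient.mk_eq_zero]; exact hsum
    rw [map_sum] at h1
    have h2 : ∑ i ∈ P, b i • (Sp y C).mkQ (y i) = ∑ i, (Sp y C).mkQ (b i • y i) := by
      rw [← Finset.sum_subset (Finset.subset_univ P)]
      · refine Finset.sum_congr rfl fun i _ => ?_
        rw [map_smul]
      · intro i _ hi
        rw [hb i hi, zero_smul, map_zero]
    rw [Finset.sum_coe_sort P (fun i => b i • (Sp y C).mkQ (y i)), h2, h1]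
  have hall := Fintype.linearIndependent_iff.1 hind (fun i => b i) hz
  obtain ⟨i, hi⟩ := hbne
  by_cases hiP : i ∈ P
  · exact hi (hall ⟨i, hiP⟩)
  · exact hi (hb i hiP)

end LPW

theorem RowW.exists_P {d c : ℕ} {y : ι → V} [DecidableEq ι] {E : Submodule ℝ V} {C L : Finset ι}
    (h : RowW d c y E C L) : ∃ P ⊆ L, P.card = c + 1 ∧ PC y C P := by
  have hq := LPW.finrank_quot h
  obtain ⟨b, hb0, hbL, hb1, hbs⟩ := MODC.gordan (fun i => (Sp y C).mkQ (y i)) L (by
    intro η
    by_cases hη : η.comp (Sp y C).mkQ = 0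
    · -- find some element of `L`
      have hne : ∃ η' : V →ₗ[ℝ] ℝ, η' ≠ 0 ∧ ∀ x ∈ Sp y C, η' x = 0 := by
        have hlt : Sp y C < ⊤ := by
          rw [lt_top_iff_ne_top]
          intro htop
          rw [htop] at hq
          have h2 : finrank ℝ (V ⧸ (⊤ : Submodule ℝ V)) = 0 := by
            have := Submodule.finrank_quotient_add_finrank (⊤ : Submodule ℝ V)
            rw [finrank_top] at this
            omega
          have := h.pos
          omega
        obtain ⟨φ, hφ0, hφ⟩ := Submodule.exists_le_ker_of_lt_top _ hlt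
        exact ⟨φ, hφ0, fun x hx => hφ hx⟩
      obtain ⟨η', hη'0, hη'E⟩ := hne
      obtain ⟨u, hu, _⟩ := h.span η' hη'0 hη'E
      refine ⟨u, hu, ?_⟩
      have : η ((Sp y C).mkQ (y u)) = (η.comp (Sp y C).mkQ) (y u) := rfl
      rw [this, hη]
      simp
    · obtain ⟨u, hu, hu0⟩ := h.span _ hη (by
        intro x hx
        have hxC := hx
        have : (Sp y C).mkQ x = 0 := by
          rw [Submodule.mkQ_apply, Submodule.Quotient.mk_eq_zero]; exact hxC
        rw [LinearMap.comp_apply, this, map_zero])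
      exact ⟨u, hu, hu0.le⟩)
  obtain ⟨P, hPL, hPne, hPcard, a, ha, ha0, hasum⟩ :=
    MODC.caratheodory (fun i => (Sp y C).mkQ (y i)) L b hb0 hbL (by rw [hb1]; norm_num) hbs
  have hmem : ∑ i, a i • y i ∈ Sp y C := by
    rw [← Submodule.Quotient.mk_eq_zero, ← Submodule.mkQ_apply, map_sum]
    rw [← hasum]
    refine Finset.sum_congr rfl fun i _ => ?_
    rw [map_smul]
  refine ⟨P, hPL, ?_, a, ha, ha0, hmem⟩
  have h1 : c + 1 ≤ P.card := by
    obtain ⟨i, hi⟩ := hPne
    exact LPW.card_ge h hPL a ha0 ⟨i, (ha i hi).ne'⟩ hmem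
  omega

namespace LPW

/-- A strictly positive dependence on `C ∪ P`. -/
theorem pos_dep {d c : ℕ} {y : ι → V} [DecidableEq ι] {E : Submodule ℝ V} {C L : Finset ι}
    (h : RowW d c y E C L) {P : Finset ι} (hPL : P ⊆ L) (hPC : PC y C P) :
    ∃ a : ι → ℝ, (∀ i ∈ C ∪ P, 0 < a i) ∧ (∀ i, i ∉ C ∪ P → a i = 0) ∧
      ∑ i, a i • y i = 0 := by
  obtain ⟨b, hbP, hb0, hbs⟩ := hPC
  obtain ⟨γ, hγ0, hγ⟩ := MODC.exists_of_mem_Sp y C _ hbs
  obtain ⟨aC, haC, haC0, _, haCs⟩ := h.circ
  have hdisj : Disjoint C P := Finset.disjoint_of_subset_right hPL h.disj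
  obtain ⟨t, _, ht⟩ := MODC.absorb C aC haC (fun i => -(γ i))
  refine ⟨fun i => b i - γ i + t * aC i, ?_, ?_, ?_⟩
  · intro i hi
    dsimp only
    rw [Finset.mem_union] at hi
    rcases hi with hi | hi
    · have h1 : b i = 0 := hb0 i (Finset.disjoint_left.1 hdisj hi)
      have := ht i hi
      rw [h1]; linarith
    · have h1 : i ∉ C := Finset.disjoint_right.1 hdisj hi
      rw [hγ0 i h1, haC0 i h1]
      have := hbP i hi
      linarith
  · intro i hi
    rw [Finset.mem_union] at hi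
    push Not at hi
    dsimp only
    rw [hb0 i hi.2, hγ0 i hi.1, haC0 i hi.1]; ring
  · have : ∑ i, (b i - γ i + t * aC i) • y i
        = ∑ i, b i • y i - ∑ i, γ i • y i + t • ∑ i, aC i • y i := by
      rw [Finset.smul_sum, ← Finset.sum_sub_distrib, ← Finset.sum_add_distrib]
      refine Finset.sum_congr rfl fun i _ => ?_
      rw [add_smul, sub_smul, mul_smul]
    rw [this, hγ, haCs]; simp

/-- The cone over `C ∪ P` is everything, with strictly positive coefficients. -/
theorem cone_full {d c : ℕ} {y : ι → V} [DecidableEq ι] {E : Submodule ℝ V} {C L : Finset ι}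
    (h : RowW d c y E C L) {P : Finset ι} (hPL : P ⊆ L) (hP : P.card = c + 1) (hPC : PC y C P)
    (v : V) : ∃ a : ι → ℝ, (∀ i ∈ C ∪ P, 0 < a i) ∧ (∀ i, i ∉ C ∪ P → a i = 0) ∧
      ∑ i, a i • y i = v := by
  have hdisj : Disjoint C P := Finset.disjoint_of_subset_right hPL h.disj
  have htop : Sp y (C ∪ P) = ⊤ := h.gp.span h.hd _ (by
    rw [Finset.card_union_of_disjoint hdisj]
    have := h.card
    omega)
  obtain ⟨β, hβ0, hβ⟩ := MODC.exists_of_mem_Sp y (C ∪ P) v (by rw [htop]; trivial)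
  obtain ⟨e, he, he0, hes⟩ := pos_dep h hPL hPC
  obtain ⟨t, _, ht⟩ := MODC.absorb (C ∪ P) e he β
  refine ⟨fun i => β i + t * e i, ht, ?_, ?_⟩
  · intro i hi
    dsimp only
    rw [hβ0 i hi, he0 i hi]; ring
  · have : ∑ i, (β i + t * e i) • y i = ∑ i, β i • y i + t • ∑ i, e i • y i := by
      rw [Finset.smul_sum, ← Finset.sum_add_distrib]
      refine Finset.sum_congr rfl fun i _ => ?_
      rw [add_smul, mul_smul]
    rw [this, hβ, hes]; simp

end LPW

theorem RowW.full {d c : ℕ} {y : ι → V} [DecidableEq ι] {E : Submodule ℝ V} {C L : Finset ι}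
    (h : RowW d c y E C L) {P : Finset ι} (hPL : P ⊆ L) (hP : P.card = c + 1) (hPC : PC y C P)
    (Q : Finset ι) : ∃ a : ι → ℝ, (∀ i ∈ C ∪ P ∪ Q, 0 < a i) ∧
      (∀ i, i ∉ C ∪ P ∪ Q → a i = 0) ∧ ∑ i, a i • y i = 0 := by
  obtain ⟨a, ha, ha0, has⟩ := LPW.cone_full h hPL hP hPC
    (-∑ i, (if i ∈ Q \ (C ∪ P) then (1 : ℝ) else 0) • y i)
  refine ⟨fun i => a i + (if i ∈ Q \ (C ∪ P) then (1 : ℝ) else 0), ?_, ?_, ?_⟩
  · intro i hi
    dsimp only
    by_cases h1 : i ∈ C ∪ P
    · have := ha i h1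
      have h2 : (0 : ℝ) ≤ (if i ∈ Q \ (C ∪ P) then (1 : ℝ) else 0) := by
        split_ifs <;> norm_num
      linarith
    · have h2 : i ∈ Q \ (C ∪ P) := by
        rw [Finset.mem_sdiff]
        rw [Finset.mem_union] at hi
        exact ⟨hi.resolve_left h1, h1⟩
      rw [ha0 i h1, if_pos h2]; norm_num
  · intro i hi
    dsimp only
    rw [Finset.mem_union] at hi
    push Not at hi
    have h2 : i ∉ Q \ (C ∪ P) := fun hh => hi.2 (Finset.mem_sdiff.1 hh).1
    rw [ha0 i hi.1, if_neg h2]; norm_num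
  · simp only [add_smul, Finset.sum_add_distrib]
    rw [has]; simp

end Pool.Agent.MPa0a351
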