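import Pool.Agent.Lib.MP_a0a351_co.T3

set_option autoImplicit false

open Module Finset

namespace Pool.Agent.MPa0a351

section Vec

variable {ι V : Type*} [Fintype ι] [AddCommGroup V] [Module ℝ V] [FiniteDimensional ℝ V]

namespace Star0

open T3

/-- Partial sums of the annihilators. -/
def BB (y : ι → V) (C : Finset ι) (Tn : ℕ → Finset ι) : ℕ → Submodule ℝ (Dual ℝ V)
  | 0 => (Sp y C).dualAnnihilator
  | t + 1 => BB y C Tn t ⊔ (Sp y (Tn t)).dualAnnihilator

omit [Fintype ι] [FiniteDimensional ℝ V] in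
theorem BB_vanish (y : ι → V) (C : Finset ι) (Tn : ℕ → Finset ι) (t : ℕ) :
    ∀ η ∈ BB y C Tn t, ∀ x ∈ C, (∀ s < t, x ∈ Tn s) → η (y x) = 0 := by
  induction t with
  | zero =>
    intro η hη x hx _
    exact vanish_of_mem hη hx
  | succ t ih =>
    intro η hη x hx hs
    obtain ⟨η0, h0, η1, h1, rfl⟩ := Submodule.mem_sup.1 hη
    rw [LinearMap.add_apply, ih η0 h0 x hx (fun s hst => hs s (by omega)),
      vanish_of_mem h1 (hs t (by omega)), add_zero]

omit [Fintype ι] [FiniteDimensional ℝ V] in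
theorem BB_le (y : ι → V) (C : Finset ι) (Tn : ℕ → Finset ι) (F : Submodule ℝ V)
    (hC : F ≤ Sp y C) (hT : ∀ s, F ≤ Sp y (Tn s)) (t : ℕ) :
    BB y C Tn t ≤ F.dualAnnihilator := by
  induction t with
  | zero => exact Submodule.dualAnnihilator_anti hC
  | succ t ih => exact sup_le ih (Submodule.dualAnnihilator_anti (hT t))

/-- The bound for the intersection with the next annihilator. -/
theorem inter_bound {d : ℕ} {y : ι → V} [DecidableEq ι] (hd : finrank ℝ V = d) (h : GPV d y)
    (C : Finset ι) (hC : Circ y C) (Tn : ℕ → Finset ι) (t : ℕ) (hT : Circ y (Tn (t + 1)))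
    (hTC : Tn (t + 1) ≠ C)
    (h1 : ((C \ Tn (t + 1)) ∩ (C \ Tn 0)).card ≤ 1)
    (h2 : ∀ s < t, ((C \ Tn (t + 1)) ∩ (C \ Tn (s + 1))).card ≤ 2) :
    finrank ℝ (BB y C Tn (t + 1) ⊓ (Sp y (Tn (t + 1))).dualAnnihilator : Submodule ℝ (Dual ℝ V))
      ≤ 2 * t := by
  set W : Finset ι := (Finset.range (t + 1)).biUnion
    (fun s => (C \ Tn (t + 1)) ∩ (C \ Tn s)) with hW
  have hWc : W.card ≤ 2 * t + 1 := by
    refine Finset.card_biUnion_le.trans ?_
    rw [Finset.sum_range_succ']
    have : ∑ s ∈ Finset.range t, ((C \ Tn (t + 1)) ∩ (C \ Tn (s + 1))).card ≤ ∑ _s ∈ Finset.range t, 2 :=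
      Finset.sum_le_sum fun s hs => h2 s (Finset.mem_range.1 hs)
    rw [Finset.sum_const, Finset.card_range, smul_eq_mul] at this
    omega
  have hWC : W ⊆ C := by
    intro x hx
    obtain ⟨s, _, hxs⟩ := Finset.mem_biUnion.1 hx
    exact (Finset.mem_sdiff.1 (Finset.mem_inter.1 hxs).1).1
  -- values outside `W` vanish
  have hval : ∀ η ∈ (BB y C Tn (t + 1) ⊓ (Sp y (Tn (t + 1))).dualAnnihilator :
      Submodule ℝ (Dual ℝ V)), ∀ x ∈ C, x ∉ W → η (y x) = 0 := by
    rintro η ⟨hη1, hη2⟩ x hx hxW
    by_cases hxt : x ∈ Tn (t + 1)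
    · exact vanish_of_mem hη2 hxt
    · refine BB_vanish y C Tn (t + 1) η hη1 x hx fun s hs => ?_
      by_contra hcon
      refine hxW (Finset.mem_biUnion.2 ⟨s, Finset.mem_range.2 hs, ?_⟩)
      exact Finset.mem_inter.2 ⟨Finset.mem_sdiff.2 ⟨hx, hxt⟩, Finset.mem_sdiff.2 ⟨hx, hcon⟩⟩
  -- a functional vanishing on `C` and on `Tn (t + 1)` is zero
  have hzero : ∀ η ∈ (Sp y (Tn (t + 1))).dualAnnihilator, (∀ x ∈ C, η (y x) = 0) → η = 0 := by
    intro η hη hηC
    have hu := h.union hC hT (Ne.symm hTC)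
    refine eq_zero_of_vanish hd h (C ∪ Tn (t + 1)) (by omega) η fun x hx => ?_
    rcases Finset.mem_union.1 hx with hx | hx
    · exact hηC x hx
    · exact vanish_of_mem hη hx
  -- choose a smaller set on which the values determine the functional
  obtain ⟨W', hW'c, hW'⟩ : ∃ W' : Finset ι, W'.card ≤ 2 * t ∧
      ∀ η ∈ (BB y C Tn (t + 1) ⊓ (Sp y (Tn (t + 1))).dualAnnihilator :
      Submodule ℝ (Dual ℝ V)), (∀ x ∈ W', η (y x) = 0) → η = 0 := by
    rcases W.eq_empty_or_nonempty with hWe | ⟨w0, hw0⟩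
    · refine ⟨∅, by simp, fun η hη _ => hzero η hη.2 fun x hx => hval η hη x hx (by simp [hWe])⟩
    · refine ⟨W.erase w0, ?_, fun η hη hv => hzero η hη.2 fun x hx => ?_⟩
      · rw [Finset.card_erase_of_mem hw0]; omega
      · have hrest : ∀ x ∈ C, x ≠ w0 → η (y x) = 0 := by
          intro x hx hne
          by_cases hxW : x ∈ W
          · exact hv x (Finset.mem_erase.2 ⟨hne, hxW⟩)
          · exact hval η hη x hx hxW
        by_cases hxw : x = w0
        · subst hxw
          obtain ⟨a, ha1, ha2, ha3, ha4⟩ := hC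
          have e1 : ∑ i, a i * η (y i) = 0 := by
            have := congrArg η ha4
            rw [map_sum, map_zero] at this
            rw [← this]
            refine Finset.sum_congr rfl fun i _ => ?_
            rw [map_smul, smul_eq_mul]
          have e2 : ∑ i, a i * η (y i) = a x * η (y x) := by
            refine Finset.sum_eq_single x (fun i _ hi => ?_) (fun hi => absurd (Finset.mem_univ _) hi)
            by_cases hiC : i ∈ C
            · rw [hrest i hiC hi, mul_zero]
            · rw [ha2 i hiC, zero_mul]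
          rw [e2] at e1
          rcases mul_eq_zero.1 e1 with e3 | e3
          · exact absurd e3 (ha1 x hx).ne'
          · exact e3
        · exact hrest x hx hxw
  let Φ : (BB y C Tn (t + 1) ⊓ (Sp y (Tn (t + 1))).dualAnnihilator : Submodule ℝ (Dual ℝ V))
      →ₗ[ℝ] (W' → ℝ) :=
    { toFun := fun η x => η.1 (y x)
      map_add' := fun η η' => by ext x; simp
      map_smul' := fun r η => by ext x; simp }
  have hΦ : Function.Injective Φ := by
    intro η η' hη
    have h3 : ∀ x ∈ W', (η.1 - η'.1) (y x) = 0 := fun x hx => by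
      have h4 : η.1 (y x) = η'.1 (y x) := congrFun hη ⟨x, hx⟩
      rw [LinearMap.sub_apply, h4, sub_self]
    exact Subtype.ext (sub_eq_zero.1 (hW' (η.1 - η'.1) (Submodule.sub_mem _ η.2 η'.2) h3))
  have := LinearMap.finrank_le_finrank_of_injective hΦ
  rw [Module.finrank_fintype_fun_eq_card, Fintype.card_coe] at this
  omega

end Star0

open T3 Star0 in
theorem star0 {d c : ℕ} {y : ι → V} [DecidableEq ι] (hd : finrank ℝ V = d) (h : GPV d y)
    (C : Finset ι) (hC : Circ y C) (hCc : C.card + c = d + 1) (k : ℕ)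
    (T : Fin (k + 1) → Finset ι) (hT : ∀ t, Circ y (T t)) (hTC : ∀ t, T t ≠ C)
    (hcard : ∀ t, (T t).card ≤ C.card)
    (h1 : ∀ t, t ≠ 0 → ((C \ T t) ∩ (C \ T 0)).card ≤ 1)
    (h2 : ∀ t s, t ≠ s → ((C \ T t) ∩ (C \ T s)).card ≤ 2)
    (F : Submodule ℝ V) (hFC : F ≤ Sp y C) (hF : ∀ t, F ≤ Sp y (T t)) :
    (k + 2) * c + finrank ℝ F ≤ d + k * (k - 1) := by
  set Tn : ℕ → Finset ι := fun t => if ht : t < k + 1 then T ⟨t, ht⟩ else C with hTn
  have hTn' : ∀ t (ht : t < k + 1), Tn t = T ⟨t, ht⟩ := fun t ht => by simp only [hTn, dif_pos ht]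
  have hNt : ∀ t, t < k + 1 → c ≤ finrank ℝ (Sp y (Tn t)).dualAnnihilator := by
    intro t ht
    rw [hTn' t ht]
    have a1 := hcard ⟨t, ht⟩
    have a2 := finrank_ann hd h (hT ⟨t, ht⟩) (by omega)
    omega
  have hNC : finrank ℝ (Sp y C).dualAnnihilator = c := by
    have := finrank_ann hd h hC (by omega)
    omega
  have key : ∀ t, t ≤ k → (t + 2) * c ≤ finrank ℝ (BB y C Tn (t + 1)) + t * (t - 1) := by
    intro t
    induction t with
    | zero =>
      intro _
      have e1 : (Sp y C).dualAnnihilator ⊓ (Sp y (Tn 0)).dualAnnihilator = ⊥ := by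
        rw [Submodule.eq_bot_iff]
        rintro η ⟨a0, a1⟩
        rw [hTn' 0 (by omega)] at a1
        have hu := h.union hC (hT ⟨0, by omega⟩) (Ne.symm (hTC _))
        refine eq_zero_of_vanish hd h (C ∪ T ⟨0, by omega⟩) (by omega) η fun x hx => ?_
        rcases Finset.mem_union.1 hx with hx | hx
        · exact vanish_of_mem a0 hx
        · exact vanish_of_mem a1 hx
      have f1 := Submodule.finrank_sup_add_finrank_inf_eq (Sp y C).dualAnnihilator
        (Sp y (Tn 0)).dualAnnihilator
      rw [e1, finrank_bot, hNC] at f1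
      have f2 := hNt 0 (by omega)
      have f3 : BB y C Tn (0 + 1) = (Sp y C).dualAnnihilator ⊔ (Sp y (Tn 0)).dualAnnihilator := rfl
      rw [f3]
      omega
    | succ t ih =>
      intro ht
      have ih' := ih (by omega)
      have f1 := Submodule.finrank_sup_add_finrank_inf_eq (BB y C Tn (t + 1))
        (Sp y (Tn (t + 1))).dualAnnihilator
      have f2 := hNt (t + 1) (by omega)
      have f3 := inter_bound hd h C hC Tn t (by rw [hTn' _ (by omega)]; exact hT _)
        (by rw [hTn' _ (by omega)]; exact hTC _)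
        (by
          rw [hTn' _ (by omega), hTn' 0 (by omega)]
          exact h1 _ (by
            intro hcon
            have := congrArg Fin.val hcon
            simp at this))
        (fun s hs => by
          rw [hTn' _ (by omega), hTn' (s + 1) (by omega)]
          refine h2 _ _ ?_
          intro hcon
          have := congrArg Fin.val hcon
          simp at this
          omega)
      have f4 : BB y C Tn (t + 1 + 1) = BB y C Tn (t + 1) ⊔ (Sp y (Tn (t + 1))).dualAnnihilator := rfl
      rw [f4]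
      have f5 : (t + 1) * (t + 1 - 1) = t * (t - 1) + 2 * t := by
        cases t with
        | zero => rfl
        | succ t =>
          simp only [Nat.add_sub_cancel]
          ring
      rw [f5]
      have f6 : (t + 1 + 2) * c = (t + 2) * c + c := by ring
      rw [f6]
      omega
  have g1 := key k le_rfl
  have g2 : BB y C Tn (k + 1) ≤ F.dualAnnihilator := by
    refine BB_le y C Tn F hFC (fun s => ?_) (k + 1)
    by_cases hs : s < k + 1
    · rw [hTn' s hs]; exact hF _
    · simp only [hTn, dif_neg hs]; exact hFC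
  have g3 := Submodule.finrank_mono g2
  have g4 := Subspace.finrank_add_finrank_dualAnnihilator_eq F
  omega

end Vec

end Pool.Agent.MPa0a351
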