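import Pool.Agent.Lib.MP_a0a351_co.Gpl

set_option autoImplicit false

open Module Finset

namespace Pool.Agent.MPa0a351

section Vec

variable {ι V : Type*} [Fintype ι] [AddCommGroup V] [Module ℝ V] [FiniteDimensional ℝ V]

namespace T3

/-- A functional vanishing on `d + 1` of the vectors is zero. -/
theorem eq_zero_of_vanish {d : ℕ} {y : ι → V} (hd : finrank ℝ V = d) (h : GPV d y)
    (S : Finset ι) (hS : d + 1 ≤ S.card) (η : Dual ℝ V) (hη : ∀ x ∈ S, η (y x) = 0) : η = 0 := by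
  have h1 : Sp y S ≤ LinearMap.ker η := by
    refine Submodule.span_le.2 ?_
    rintro _ ⟨x, hx, rfl⟩
    exact hη x hx
  rw [h.span hd S hS, top_le_iff] at h1
  exact LinearMap.ker_eq_top.1 h1

omit [Fintype ι] [FiniteDimensional ℝ V] in
theorem vanish_of_mem {y : ι → V} {T : Finset ι} {η : Dual ℝ V}
    (hη : η ∈ (Sp y T).dualAnnihilator) {x : ι} (hx : x ∈ T) : η (y x) = 0 :=
  (Submodule.mem_dualAnnihilator η).1 hη _ (Submodule.subset_span ⟨x, hx, rfl⟩)

theorem finrank_ann {d : ℕ} {y : ι → V} (hd : finrank ℝ V = d) (h : GPV d y)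
    {T : Finset ι} (hT : Circ y T) (hcard : T.card ≤ d + 1) :
    finrank ℝ (Sp y T).dualAnnihilator + T.card = d + 1 := by
  have h1 := h.finrank_circ hT hcard
  have h2 := Subspace.finrank_add_finrank_dualAnnihilator_eq (Sp y T)
  omega

end T3

open T3 in
theorem three_circuits {d : ℕ} {y : ι → V} [DecidableEq ι] (hd : finrank ℝ V = d) (h : GPV d y)
    (S : Finset ι) (hS : S.card = d + 3) (T : Fin 3 → Finset ι) (hT : ∀ i, Circ y (T i))
    (hsub : ∀ i, T i ⊆ S) (hcard : ∀ i, (T i).card ≤ d + 1) (hne : ∀ i j, i ≠ j → T i ≠ T j)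
    (F : Submodule ℝ V) (hF : ∀ i, F ≤ Sp y (T i)) :
    ∑ i, (d + 1 - (T i).card) + finrank ℝ F ≤ d := by
  have hN : ∀ i, finrank ℝ (Sp y (T i)).dualAnnihilator = d + 1 - (T i).card := fun i => by
    have := finrank_ann hd h (hT i) (hcard i)
    omega
  have hsmall : ∀ i j, i ≠ j → (S \ (T i ∪ T j)).card ≤ 1 := fun i j hij => by
    have h1 := h.union (hT i) (hT j) (hne i j hij)
    have h2 := Finset.card_sdiff_add_card_eq_card (Finset.union_subset (hsub i) (hsub j))
    omega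
  have e1 : (Sp y (T 0)).dualAnnihilator ⊓ (Sp y (T 1)).dualAnnihilator = ⊥ := by
    rw [Submodule.eq_bot_iff]
    rintro η ⟨h0, h1⟩
    have h2 := h.union (hT 0) (hT 1) (hne 0 1 (by decide))
    refine eq_zero_of_vanish hd h (T 0 ∪ T 1) (by omega) η fun x hx => ?_
    rcases Finset.mem_union.1 hx with hx | hx
    · exact vanish_of_mem h0 hx
    · exact vanish_of_mem h1 hx
  have e2 : ((Sp y (T 0)).dualAnnihilator ⊔ (Sp y (T 1)).dualAnnihilator) ⊓
      (Sp y (T 2)).dualAnnihilator = ⊥ := by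
    rw [Submodule.eq_bot_iff]
    rintro η ⟨h01, h2⟩
    obtain ⟨η0, h0, η1, h1, rfl⟩ := Submodule.mem_sup.1 h01
    have hc : ((S \ (T 0 ∪ T 2)) ∪ (S \ (T 1 ∪ T 2))).card ≤ 2 := by
      have := Finset.card_union_le (S \ (T 0 ∪ T 2)) (S \ (T 1 ∪ T 2))
      have a1 := hsmall 0 2 (by decide)
      have a2 := hsmall 1 2 (by decide)
      omega
    have hc' : d + 1 ≤ (S \ ((S \ (T 0 ∪ T 2)) ∪ (S \ (T 1 ∪ T 2)))).card := by
      have := Finset.le_card_sdiff ((S \ (T 0 ∪ T 2)) ∪ (S \ (T 1 ∪ T 2))) S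
      omega
    refine eq_zero_of_vanish hd h _ hc' _ fun x hx => ?_
    simp only [Finset.mem_sdiff, Finset.mem_union, not_or, not_and, not_not] at hx
    obtain ⟨hxS, hx1, hx2⟩ := hx
    by_cases hx3 : x ∈ T 2
    · exact vanish_of_mem h2 hx3
    · have a0 : x ∈ T 0 := by
        by_contra hcon
        exact hx3 (hx1 hxS hcon)
      have a1 : x ∈ T 1 := by
        by_contra hcon
        exact hx3 (hx2 hxS hcon)
      rw [LinearMap.add_apply, vanish_of_mem h0 a0, vanish_of_mem h1 a1, add_zero]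
  have f1 := Submodule.finrank_sup_add_finrank_inf_eq (Sp y (T 0)).dualAnnihilator
    (Sp y (T 1)).dualAnnihilator
  have f2 := Submodule.finrank_sup_add_finrank_inf_eq
    ((Sp y (T 0)).dualAnnihilator ⊔ (Sp y (T 1)).dualAnnihilator) (Sp y (T 2)).dualAnnihilator
  rw [e1, finrank_bot] at f1
  rw [e2, finrank_bot] at f2
  have f3 : (Sp y (T 0)).dualAnnihilator ⊔ (Sp y (T 1)).dualAnnihilator ⊔
      (Sp y (T 2)).dualAnnihilator ≤ F.dualAnnihilator :=
    sup_le (sup_le (Submodule.dualAnnihilator_anti (hF 0)) (Submodule.dualAnnihilator_anti (hF 1)))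
      (Submodule.dualAnnihilator_anti (hF 2))
  have f4 := Submodule.finrank_mono f3
  have f5 := Subspace.finrank_add_finrank_dualAnnihilator_eq F
  rw [Fin.sum_univ_three, ← hN 0, ← hN 1, ← hN 2]
  omega

end Vec

end Pool.Agent.MPa0a351
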