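import Mathlib

/-!
Definitions for the topological part of Reay's conjecture (MP_a0a351_co, S10471): chains with real
coefficients on complexes of words `w : U → Option J` (`U` = colours, linearly ordered, `J` = rows),
deleted joins of rows, rows of a given rank.
-/

set_option autoImplicit false

open Module Finset

namespace Pool.Agent.MPa0a351.Top

section Chains

variable {U J : Type*} [Fintype U] [LinearOrder U] [Fintype J] [DecidableEq J]

omit [LinearOrder U] [Fintype J] [DecidableEq J] in
/-- The colours used by a word. -/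
def supp (w : U → Option J) : Finset U := univ.filter (fun u => (w u).isSome)

omit [Fintype J] [DecidableEq J] in
/-- The sign of the colour `u` with respect to the word `w`. -/
def eps (u : U) (w : U → Option J) : ℝ := (-1) ^ ((supp w).filter (fun v => v < u)).card

omit [DecidableEq J] in
/-- The boundary of a chain (a real function on the words). -/
def bd (x : (U → Option J) → ℝ) : (U → Option J) → ℝ :=
  fun w => ∑ u ∈ univ \ supp w, eps u w * ∑ j, x (Function.update w u (some j))

omit [LinearOrder U] [Fintype J] [DecidableEq J] in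
/-- A chain of `K` supported on the words with `n` letters. -/
def IsCh (K : Set (U → Option J)) (n : ℕ) (x : (U → Option J) → ℝ) : Prop :=
  ∀ w, x w ≠ 0 → w ∈ K ∧ (supp w).card = n

omit [Fintype U] [LinearOrder U] [Fintype J] [DecidableEq J] in
/-- `v` is a subword of `w`. -/
def Sub (v w : U → Option J) : Prop := ∀ u, v u = none ∨ v u = w u

omit [Fintype U] [LinearOrder U] [Fintype J] [DecidableEq J] in
/-- Down-closed families of words. -/
def Dn (K : Set (U → Option J)) : Prop := ∀ w ∈ K, ∀ v, Sub v w → v ∈ K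

omit [Fintype U] [Fintype J] [DecidableEq J] in
/-- Erase the letters at the colours of `A`. -/
def ers (w : U → Option J) (A : Finset U) : U → Option J := fun u => if u ∈ A then none else w u

omit [DecidableEq J] in
/-- Every cycle of `K` on words with fewer than `t` letters is a boundary in `K`. -/
def Ac (K : Set (U → Option J)) (t : ℕ) : Prop :=
  ∀ n < t, ∀ x, IsCh K n x → bd x = 0 → ∃ y, IsCh K (n + 1) y ∧ bd y = x

end Chains

section Rows

variable {U J : Type*} [Fintype U] [LinearOrder U] [Fintype J] [DecidableEq J]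

omit [LinearOrder U] [Fintype J] in
/-- The colours which the word `w` puts in the row `j`. -/
def sl (w : U → Option J) (j : J) : Finset U := univ.filter (fun u => w u = some j)

omit [Fintype U] [LinearOrder U] in
/-- Down-closed families of sets of colours. -/
def DnS (Γ : Set (Finset U)) : Prop := ∀ A ∈ Γ, ∀ B ⊆ A, B ∈ Γ

omit [LinearOrder U] [Fintype J] in
/-- The deleted join of the rows `Γ j` on the colours `T`. -/
def DJ (Γ : J → Set (Finset U)) (T : Finset U) : Set (U → Option J) :=
  {w | supp w ⊆ T ∧ ∀ j, sl w j ∈ Γ j}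

omit [Fintype U] in
/-- The link of `A` in a complex. -/
def lk (A : Finset U) (Γ : Set (Finset U)) : Set (Finset U) := {M | Disjoint M A ∧ M ∪ A ∈ Γ}

omit [Fintype J] in
/-- The rows of the link of a word `g` of the deleted join. -/
def lkR (Γ : J → Set (Finset U)) (g : U → Option J) : J → Set (Finset U) :=
  fun j => lk (sl g j) (Γ j)

omit [Fintype U] [LinearOrder U] in
/-- A complex containing the pointed sets of a configuration in general position in `ℝ^ρ`. -/
def Row (ρ : ℕ) (T : Finset U) (Γ : Set (Finset U)) : Prop :=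
  DnS Γ ∧ ∃ x : U → (Fin ρ → ℝ),
    (∀ Q ⊆ T, Q.card ≤ ρ → LinearIndependent ℝ (fun i : Q => x i)) ∧
    ∀ L ⊆ T, (∃ h : (Fin ρ → ℝ) →ₗ[ℝ] ℝ, ∀ u ∈ L, 0 < h (x u)) → L ∈ Γ

end Rows

/-- The bound of Theorem F. -/
def phi (c D : ℕ) : ℕ :=
  if D < c * (c + 2) then D else c + (D - c) * (D - c + 1) / (c * (c + 1))

/-- The abstract rules for building the complex of one row (`H X A`: the complex `A` in the
contracted row is good). -/
structure Rules {U : Type*} [DecidableEq U] (T : Finset U) (ρ : ℕ) (μ : ℕ → ℕ)
    (H : Finset U → Set (Finset U) → Prop) : Prop where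
  void : ∀ X ⊆ T, H X ∅
  leaf : ∀ X ⊆ T, X.card < ρ → ∀ G ⊆ T \ X, μ X.card ≤ G.card → H X {L | L ⊆ G}
  free : ∀ X ⊆ T, ρ ≤ X.card → ∀ A : Set (Finset U), DnS A → H X A
  add : ∀ X ⊆ T, ∀ X' ⊆ T \ X, ∀ A A' B : Set (Finset U), DnS A → DnS A' → DnS B →
    (∀ L ⊆ T \ X, (L ∈ A' ↔ L ∈ A ∨ (X' ⊆ L ∧ L \ X' ∈ B))) → X' ∉ A →
    H X A → H (X ∪ X') B → H X A'

end Pool.Agent.MPa0a351.Top
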