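import Mathlib
import Pool.Agent.Lib.MP_a0a351_co.TopDefs

/-!
Module A0 of the topological part of Reay's conjecture: `bd_bd`, `bd_add`, `ac_void`, `ac_cone`
and Lemma 0 (`ac_add`, adding `L * Λ` to a complex of words).
-/

set_option autoImplicit false
set_option linter.unusedSectionVars false

open Module Finset

namespace Pool.Agent.MPa0a351.Top

section A0
variable {U J : Type*} [Fintype U] [LinearOrder U] [Fintype J] [DecidableEq J]

namespace TopA0

/-- elementary sign -/
noncomputable def sg (v w : U) : ℝ := if w < v then -1 else 1

/-- sign of a colour in front of a set of colours -/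
noncomputable def es (v : U) (S : Finset U) : ℝ := ∏ w ∈ S, sg v w

/-- sign of a set of colours in front of a set of colours -/
noncomputable def eL (L M : Finset U) : ℝ := ∏ v ∈ L, es v M

lemma sg_mul_self (v w : U) : sg v w * sg v w = 1 := by
  unfold sg; split_ifs <;> norm_num

lemma sg_swap {v w : U} (h : v ≠ w) : sg v w * sg w v = -1 := by
  unfold sg
  rcases lt_or_gt_of_ne h with h1 | h1
  · simp [h1, not_lt.mpr h1.le]
  · simp [h1, not_lt.mpr h1.le]

lemma es_insert {v w : U} {S : Finset U} (h : w ∉ S) : es v (insert w S) = sg v w * es v S := by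
  simp [es, Finset.prod_insert h]

lemma es_mul_self (v : U) (S : Finset U) : es v S * es v S = 1 := by
  unfold es
  rw [← Finset.prod_mul_distrib]
  exact Finset.prod_eq_one (fun w _ => sg_mul_self v w)

lemma eps_eq (v : U) (w : U → Option J) : eps v w = es v (supp w) := by
  unfold eps es sg
  rw [Finset.prod_ite]
  simp

lemma es_union {v : U} {S T : Finset U} (h : Disjoint S T) : es v (S ∪ T) = es v S * es v T := by
  simp [es, Finset.prod_union h]

lemma es_swap {v w : U} {S : Finset U} (hvw : v ≠ w) (hv : v ∉ S) (hw : w ∉ S) :
    es v S * es w (insert v S) = - (es w S * es v (insert w S)) := by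
  rw [es_insert hv, es_insert hw]
  have h := sg_swap hvw
  have h1 := sg_mul_self v w
  have h3 : sg w v = - sg v w := by
    have : sg v w * (sg v w * sg w v) = sg v w * (-1) := by rw [h]
    rw [← mul_assoc, h1, one_mul] at this
    linarith
  rw [h3]; ring

lemma es_swap' {v w : U} {S : Finset U} (hvw : v ≠ w) (hv : v ∉ S) (hw : w ∉ S) :
    es v (insert w S) * es w (insert v S) = - (es v S * es w S) := by
  have h := es_swap hvw hv hw
  have h1 := es_mul_self v S
  have h2 := es_mul_self v (insert w S)
  calc es v (insert w S) * es w (insert v S)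
      = es v (insert w S) * ((es v S * es v S) * es w (insert v S)) := by rw [h1, one_mul]
    _ = es v (insert w S) * es v S * (es v S * es w (insert v S)) := by ring
    _ = - (es v (insert w S) * es v (insert w S)) * (es v S * es w S) := by rw [h]; ring
    _ = _ := by rw [h2]; ring

lemma eL_mul_self (L M : Finset U) : eL L M * eL L M = 1 := by
  unfold eL
  rw [← Finset.prod_mul_distrib]
  exact Finset.prod_eq_one (fun v _ => es_mul_self v M)

lemma es_mul_eL {L M : Finset U} {w : U} (hwL : w ∉ L) (hwM : w ∉ M) (hd : Disjoint L M) :
    es w (L ∪ M) * eL L (insert w M) = (-1) ^ L.card * (es w M * eL L M) := by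
  have h1 : eL L (insert w M) = (∏ v ∈ L, sg v w) * eL L M := by
    unfold eL
    rw [← Finset.prod_mul_distrib]
    exact Finset.prod_congr rfl (fun v _ => es_insert hwM)
  have h2 : es w L * (∏ v ∈ L, sg v w) = (-1) ^ L.card := by
    unfold es
    rw [← Finset.prod_mul_distrib, ← Finset.prod_const]
    refine Finset.prod_congr rfl (fun v hv => ?_)
    exact sg_swap (fun h => hwL (h ▸ hv))
  rw [es_union hd, h1, ← h2]
  ring

lemma mem_supp {w : U → Option J} {u : U} : u ∈ supp w ↔ w u ≠ none := by
  simp [supp, Option.isSome_iff_ne_none]

lemma not_mem_supp {w : U → Option J} {u : U} : u ∉ supp w ↔ w u = none := by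
  rw [mem_supp, not_not]

lemma supp_update (w : U → Option J) (u : U) (j : J) :
    supp (Function.update w u (some j)) = insert u (supp w) := by
  ext v
  rw [mem_supp, Finset.mem_insert, mem_supp]
  by_cases h : v = u
  · subst h; simp
  · simp [Function.update_of_ne h, h]

lemma bd_apply (x : (U → Option J) → ℝ) (w : U → Option J) :
    bd x w = ∑ u ∈ univ \ supp w, es u (supp w) * ∑ j, x (Function.update w u (some j)) := by
  unfold bd
  exact Finset.sum_congr rfl (fun u _ => by rw [eps_eq])

lemma mem_compl_supp {w : U → Option J} {u : U} : u ∈ univ \ supp w ↔ u ∉ supp w := by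
  simp

lemma bd_sub (x y : (U → Option J) → ℝ) : bd (x - y) = bd x - bd y := by
  funext w
  simp only [bd_apply, Pi.sub_apply]
  rw [← Finset.sum_sub_distrib]
  exact Finset.sum_congr rfl (fun v _ => by rw [Finset.sum_sub_distrib]; ring)

lemma bd_zero : bd (0 : (U → Option J) → ℝ) = 0 := by
  funext w; simp [bd_apply]

lemma sub_update {w : U → Option J} {u : U} (hu : u ∉ supp w) (j : J) :
    Sub w (Function.update w u (some j)) := by
  intro v
  by_cases h : v = u
  · subst h; exact Or.inl (not_mem_supp.1 hu)
  · exact Or.inr (by rw [Function.update_of_ne h])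

lemma IsCh.bd {K : Set (U → Option J)} (hK : Dn K) {n : ℕ} {x : (U → Option J) → ℝ}
    (hx : IsCh K (n + 1) x) : IsCh K n (bd x) := by
  intro w hw
  rw [bd_apply] at hw
  obtain ⟨v, hv, hv'⟩ := Finset.exists_ne_zero_of_sum_ne_zero hw
  rw [mem_compl_supp] at hv
  obtain ⟨j, _, hj⟩ := Finset.exists_ne_zero_of_sum_ne_zero (right_ne_zero_of_mul hv')
  obtain ⟨h2, h3⟩ := hx _ hj
  refine ⟨hK _ h2 _ (sub_update hv j), ?_⟩
  rw [supp_update, Finset.card_insert_of_notMem hv] at h3
  omega

/-- glueing of two words -/
def gl (L M : U → Option J) : U → Option J := fun u => if (L u).isSome then L u else M u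

lemma gl_mem {L M : U → Option J} {u : U} (h : u ∈ supp L) : gl L M u = L u := by
  rw [mem_supp, ← Option.isSome_iff_ne_none] at h
  simp [gl, h]

lemma gl_notMem {L M : U → Option J} {u : U} (h : u ∉ supp L) : gl L M u = M u := by
  rw [not_mem_supp] at h
  simp [gl, h]

lemma supp_gl (L M : U → Option J) : supp (gl L M) = supp L ∪ supp M := by
  ext u
  rw [Finset.mem_union]
  by_cases h : u ∈ supp L
  · simp only [h, true_or, iff_true]
    rw [mem_supp, gl_mem h]
    exact mem_supp.1 h
  · simp only [h, false_or]
    rw [mem_supp, gl_notMem h, mem_supp]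

lemma sub_gl (L M : U → Option J) : Sub L (gl L M) := by
  intro u
  by_cases h : u ∈ supp L
  · exact Or.inr (gl_mem h).symm
  · exact Or.inl (not_mem_supp.1 h)

lemma ers_gl {L M : U → Option J} (h : Disjoint (supp M) (supp L)) :
    ers (gl L M) (supp L) = M := by
  funext u
  unfold ers
  by_cases hu : u ∈ supp L
  · rw [if_pos hu]
    have : u ∉ supp M := fun h' => (Finset.disjoint_left.1 h) h' hu
    exact (not_mem_supp.1 this).symm
  · rw [if_neg hu, gl_notMem hu]

lemma gl_ers {L w : U → Option J} (h : Sub L w) : gl L (ers w (supp L)) = w := by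
  funext u
  by_cases hu : u ∈ supp L
  · rw [gl_mem hu]
    rcases h u with h1 | h1
    · exact absurd h1 (mem_supp.1 hu)
    · exact h1
  · rw [gl_notMem hu]
    unfold ers
    rw [if_neg hu]

lemma supp_ers (w : U → Option J) (A : Finset U) : supp (ers w A) = supp w \ A := by
  ext u
  rw [mem_supp, Finset.mem_sdiff, mem_supp]
  unfold ers
  by_cases hu : u ∈ A <;> simp [hu]

lemma update_gl {L M : U → Option J} {v : U} (hv : v ∉ supp L) (k : J) :
    Function.update (gl L M) v (some k) = gl L (Function.update M v (some k)) := by
  funext u
  by_cases h : u = v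
  · subst h
    rw [Function.update_self, gl_notMem hv, Function.update_self]
  · rw [Function.update_of_ne h]
    by_cases hu : u ∈ supp L
    · rw [gl_mem hu, gl_mem hu]
    · rw [gl_notMem hu, gl_notMem hu, Function.update_of_ne h]

end TopA0

open TopA0

theorem bd_bd (x : (U → Option J) → ℝ) : bd (bd x) = 0 := by
  classical
  funext w
  set S := supp w with hS
  set g : U → U → ℝ := fun u v =>
    if u ∉ S ∧ v ∉ S ∧ u ≠ v then
      es u S * es v (insert u S) *
        ∑ j, ∑ k, x (Function.update (Function.update w u (some j)) v (some k)) else 0 with hg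
  have h1 : bd (bd x) w = ∑ u, ∑ v, g u v := by
    rw [bd_apply, ← Finset.sum_subset (Finset.subset_univ (univ \ supp w))]
    · refine Finset.sum_congr rfl (fun u hu => ?_)
      rw [mem_compl_supp] at hu
      have e1 : ∀ j, bd x (Function.update w u (some j)) =
          ∑ v, if u ∉ S ∧ v ∉ S ∧ u ≠ v then es v (insert u S) *
            ∑ k, x (Function.update (Function.update w u (some j)) v (some k)) else 0 := by
        intro j
        rw [bd_apply, supp_update,
          ← Finset.sum_subset (Finset.subset_univ (univ \ insert u (supp w)))]
        · refine Finset.sum_congr rfl (fun v hv => ?_)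
          rw [Finset.mem_sdiff, Finset.mem_insert, not_or] at hv
          rw [if_pos ⟨hu, hv.2.2, fun h => hv.2.1 h.symm⟩]
        · intro v _ hv
          rw [Finset.mem_sdiff, not_and, not_not, Finset.mem_insert] at hv
          rw [if_neg]
          rintro ⟨_, h2, h3⟩
          rcases hv (Finset.mem_univ v) with h | h
          · exact h3 h.symm
          · exact h2 h
      rw [Finset.sum_congr rfl (fun j _ => e1 j), Finset.sum_comm, Finset.mul_sum]
      refine Finset.sum_congr rfl (fun v _ => ?_)
      simp only [hg]
      by_cases h : u ∉ S ∧ v ∉ S ∧ u ≠ v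
      · simp only [if_pos h]
        rw [← Finset.mul_sum]
        ring
      · simp only [if_neg h, Finset.sum_const_zero, mul_zero]
    · intro u _ hu
      rw [mem_compl_supp, not_not] at hu
      refine Finset.sum_eq_zero (fun v _ => ?_)
      simp only [hg]
      rw [if_neg]
      rintro ⟨h1, _, _⟩
      exact h1 hu
  have h2 : ∀ u v, g u v = - g v u := by
    intro u v
    simp only [hg]
    by_cases h : u ∉ S ∧ v ∉ S ∧ u ≠ v
    · rw [if_pos h, if_pos ⟨h.2.1, h.1, h.2.2.symm⟩, es_swap h.2.2 h.1 h.2.1, Finset.sum_comm]
      have : ∀ k j, x (Function.update (Function.update w u (some j)) v (some k))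
          = x (Function.update (Function.update w v (some k)) u (some j)) := by
        intro k j
        rw [Function.update_comm h.2.2]
      simp only [this]
      ring
    · rw [if_neg h, if_neg (fun h' => h ⟨h'.2.1, h'.1, h'.2.2.symm⟩)]
      simp
  have h3 : ∑ u, ∑ v, g u v = - ∑ u, ∑ v, g u v := by
    calc ∑ u, ∑ v, g u v = ∑ v, ∑ u, g u v := Finset.sum_comm
      _ = ∑ v, ∑ u, - g v u := by
          refine Finset.sum_congr rfl (fun v _ => Finset.sum_congr rfl (fun u _ => h2 u v))
      _ = - ∑ u, ∑ v, g u v := by
          rw [← Finset.sum_neg_distrib]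
          exact Finset.sum_congr rfl (fun v _ => by rw [Finset.sum_neg_distrib])
  rw [h1]
  simp only [Pi.zero_apply]
  linarith

theorem bd_add (x y : (U → Option J) → ℝ) : bd (x + y) = bd x + bd y := by
  funext w
  simp only [bd_apply, Pi.add_apply]
  rw [← Finset.sum_add_distrib]
  exact Finset.sum_congr rfl (fun v _ => by rw [Finset.sum_add_distrib]; ring)

theorem ac_void (t : ℕ) : Ac (∅ : Set (U → Option J)) t := by
  intro n _ x hx _
  have : x = 0 := by
    funext S
    by_contra h
    exact (hx S h).1
  exact ⟨0, fun w hw => absurd rfl hw, by rw [bd_zero, this]⟩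

/-- Cones are acyclic: the letter `j` at the colour `u` can be added to every word of `K`. -/
theorem ac_cone {K : Set (U → Option J)} (hK : Dn K) (u : U) (j : J)
    (hv : ∀ w ∈ K, (w u = none ∨ w u = some j) ∧ Function.update w u (some j) ∈ K) (t : ℕ) :
    Ac K t := by
  classical
  intro n _ x hx hbx
  set y : (U → Option J) → ℝ := fun w =>
    if w u = some j then es u (supp (Function.update w u none)) * x (Function.update w u none)
    else 0 with hy
  have hre : ∀ w : U → Option J, w u = some j →
      Function.update (Function.update w u none) u (some j) = w := by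
    intro w hw
    rw [Function.update_idem, ← hw, Function.update_eq_self]
  have hne : ∀ w : U → Option J, u ∉ supp (Function.update w u none) := by
    intro w; rw [not_mem_supp]; simp
  have hsupp : ∀ w : U → Option J, w u = some j →
      supp w = insert u (supp (Function.update w u none)) := by
    intro w hw
    conv_lhs => rw [← hre w hw]
    rw [supp_update]
  refine ⟨y, ?_, ?_⟩
  · intro w hw
    simp only [hy] at hw
    by_cases h : w u = some j
    · rw [if_pos h] at hw
      obtain ⟨h1, h2⟩ := hx _ (right_ne_zero_of_mul hw)
      have h3 := (hv _ h1).2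
      rw [hre w h] at h3
      refine ⟨h3, ?_⟩
      rw [hsupp w h, Finset.card_insert_of_notMem (hne w), h2]
    · rw [if_neg h] at hw
      exact absurd rfl hw
  · funext w
    rw [bd_apply]
    by_cases h0 : w u = none
    · have hu : u ∉ supp w := not_mem_supp.2 h0
      rw [Finset.sum_eq_single u]
      · rw [Finset.sum_eq_single j]
        · have e1 : Function.update (Function.update w u (some j)) u none = w := by
            rw [Function.update_idem, ← h0, Function.update_eq_self]
          simp only [hy, Function.update_self, if_true, e1]
          rw [← mul_assoc, es_mul_self, one_mul]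
        · intro k _ hk
          simp only [hy, Function.update_self]
          rw [if_neg]
          intro h; exact hk (Option.some.inj h)
        · intro h; exact absurd (Finset.mem_univ j) h
      · intro v _ hvu
        rw [Finset.sum_eq_zero, mul_zero]
        intro k _
        simp only [hy]
        rw [if_neg]
        rw [Function.update_of_ne (Ne.symm hvu), h0]
        simp
      · intro h
        exact absurd (mem_compl_supp.2 hu) h
    · by_cases h1 : w u = some j
      · set w0 := Function.update w u none with hw0
        have hu0 : u ∉ supp w0 := hne w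
        have hsw : supp w = insert u (supp w0) := hsupp w h1
        have hbx0 : bd x w0 = 0 := by rw [hbx]; rfl
        rw [bd_apply] at hbx0
        have hsplit : univ \ supp w0 = insert u (univ \ supp w) := by
          ext v
          rw [Finset.mem_insert, mem_compl_supp, mem_compl_supp, hsw, Finset.mem_insert]
          by_cases hvu : v = u
          · subst hvu; simp [hu0]
          · simp [hvu]
        have huw : u ∉ univ \ supp w := by
          rw [mem_compl_supp, not_not, hsw]; exact Finset.mem_insert_self _ _
        rw [hsplit, Finset.sum_insert huw] at hbx0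
        have e2 : ∑ k, x (Function.update w0 u (some k)) = x w := by
          rw [Finset.sum_eq_single j]
          · rw [hw0, hre w h1]
          · intro k _ hk
            by_contra hne'
            rcases (hv _ (hx _ hne').1).1 with h | h
            · simp at h
            · rw [Function.update_self] at h
              exact hk (Option.some.inj h)
          · intro h; exact absurd (Finset.mem_univ j) h
        rw [e2] at hbx0
        have e3 : ∑ v ∈ univ \ supp w, es v (supp w) * ∑ k, y (Function.update w v (some k))
            = - (es u (supp w0)) * ∑ v ∈ univ \ supp w, es v (supp w0) *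
                ∑ k, x (Function.update w0 v (some k)) := by
          rw [Finset.mul_sum]
          refine Finset.sum_congr rfl (fun v hv' => ?_)
          rw [mem_compl_supp, hsw, Finset.mem_insert, not_or] at hv'
          obtain ⟨hvu, hv0⟩ := hv'
          have e4 : ∀ k, y (Function.update w v (some k)) =
              es u (insert v (supp w0)) * x (Function.update w0 v (some k)) := by
            intro k
            have e5 : Function.update (Function.update w v (some k)) u none
                = Function.update w0 v (some k) := by
              rw [hw0, Function.update_comm hvu]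
            simp only [hy]
            rw [if_pos (by rw [Function.update_of_ne (Ne.symm hvu)]; exact h1), e5, supp_update]
          rw [Finset.sum_congr rfl (fun k _ => e4 k), ← Finset.mul_sum, ← mul_assoc, hsw,
            es_swap' hvu hv0 hu0]
          ring
        rw [e3]
        have e6 : ∑ v ∈ univ \ supp w, es v (supp w0) *
                ∑ k, x (Function.update w0 v (some k)) = - (es u (supp w0) * x w) := by
          linarith
        rw [e6]
        have := es_mul_self u (supp w0)
        calc -es u (supp w0) * -(es u (supp w0) * x w)
            = (es u (supp w0) * es u (supp w0)) * x w := by ring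
          _ = x w := by rw [this, one_mul]
      · have hxw : x w = 0 := by
          by_contra h
          rcases (hv _ (hx _ h).1).1 with h' | h'
          · exact h0 h'
          · exact h1 h'
        rw [hxw]
        refine Finset.sum_eq_zero (fun v hv' => ?_)
        rw [mem_compl_supp] at hv'
        have hvu : u ≠ v := by
          rintro rfl
          exact hv' (mem_supp.2 h0)
        rw [Finset.sum_eq_zero, mul_zero]
        intro k _
        simp only [hy]
        rw [if_neg]
        rw [Function.update_of_ne hvu]
        exact h1

/-- Lemma 0. -/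
theorem ac_add {K K' Λ : Set (U → Option J)} {L : U → Option J} {t : ℕ} (hK : Dn K)
    (hK' : Dn K') (hΛ : Dn Λ) (hΛL : ∀ M ∈ Λ, Disjoint (supp M) (supp L))
    (hiff : ∀ w, w ∈ K' ↔ w ∈ K ∨ (Sub L w ∧ ers w (supp L) ∈ Λ)) (hL : L ∉ K)
    (h1 : Ac K t) (h2 : Ac Λ (t - (supp L).card)) : Ac K' t := by
  classical
  intro n hn x hx hbx
  have hKK' : K ⊆ K' := fun S hS => (hiff S).2 (Or.inl hS)
  have hglK' : ∀ M ∈ Λ, gl L M ∈ K' := by
    intro M hM
    refine (hiff _).2 (Or.inr ⟨sub_gl L M, ?_⟩)
    rw [ers_gl (hΛL M hM)]; exact hM
  -- words of `K'` containing `L`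
  have hnewΛ : ∀ w ∈ K', Sub L w → ers w (supp L) ∈ Λ := by
    intro w hw hs
    rcases (hiff w).1 hw with h | h
    · exact absurd (hK _ h _ hs) hL
    · exact h.2
  have hnewM : ∀ M, Disjoint (supp M) (supp L) → gl L M ∈ K' → M ∈ Λ := by
    intro M hd hM
    have := hnewΛ _ hM (sub_gl L M)
    rwa [ers_gl hd] at this
  set y : (U → Option J) → ℝ := fun M =>
    if M ∈ Λ then eL (supp L) (supp M) * x (gl L M) else 0 with hy
  have hycard : ∀ M, y M ≠ 0 → M ∈ Λ ∧ (supp L).card + (supp M).card = n := by
    intro M hM
    simp only [hy] at hM
    by_cases h : M ∈ Λ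
    · rw [if_pos h] at hM
      have h3 := (hx _ (right_ne_zero_of_mul hM)).2
      rw [supp_gl, Finset.card_union_of_disjoint (hΛL M h).symm] at h3
      exact ⟨h, h3⟩
    · rw [if_neg h] at hM
      exact absurd rfl hM
  -- adding a letter at a colour of `L` leaves `Λ`
  have hLout : ∀ (M : U → Option J) (v : U) (k : J), v ∈ supp L →
      Function.update M v (some k) ∉ Λ := by
    intro M v k hv h
    have := hΛL _ h
    rw [supp_update] at this
    exact (Finset.disjoint_left.1 this) (Finset.mem_insert_self v _) hv
  have hby : bd y = 0 := by
    funext M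
    rw [bd_apply]
    by_cases hM : M ∈ Λ
    · have h0 : bd x (gl L M) = 0 := by rw [hbx]; rfl
      rw [bd_apply, supp_gl] at h0
      have hd : Disjoint (supp L) (supp M) := (hΛL M hM).symm
      have e1 : ∑ v ∈ univ \ supp M, es v (supp M) * ∑ k, y (Function.update M v (some k))
          = ∑ v ∈ univ \ (supp L ∪ supp M), es v (supp M) *
              ∑ k, y (Function.update M v (some k)) := by
        symm
        apply Finset.sum_subset
        · intro v hv
          rw [Finset.mem_sdiff, Finset.mem_union, not_or] at hv
          rw [Finset.mem_sdiff]; exact ⟨hv.1, hv.2.2⟩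
        · intro v hv hv'
          rw [Finset.mem_sdiff] at hv hv'
          have hvL : v ∈ supp L := by
            by_contra h
            exact hv' ⟨hv.1, by rw [Finset.mem_union]; tauto⟩
          rw [Finset.sum_eq_zero, mul_zero]
          intro k _
          simp only [hy, if_neg (hLout M v k hvL)]
      rw [e1]
      have e2 : ∑ v ∈ univ \ (supp L ∪ supp M), es v (supp M) *
              ∑ k, y (Function.update M v (some k))
          = ((-1) ^ (supp L).card * eL (supp L) (supp M)) *
            ∑ v ∈ univ \ (supp L ∪ supp M), es v (supp L ∪ supp M) *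
              ∑ k, x (Function.update (gl L M) v (some k)) := by
        rw [Finset.mul_sum]
        refine Finset.sum_congr rfl (fun v hv => ?_)
        rw [Finset.mem_sdiff, Finset.mem_union, not_or] at hv
        obtain ⟨_, hvL, hvM⟩ := hv
        have e3 : ∀ k, y (Function.update M v (some k)) =
            eL (supp L) (insert v (supp M)) * x (Function.update (gl L M) v (some k)) := by
          intro k
          rw [update_gl hvL]
          simp only [hy]
          by_cases hx0 : x (gl L (Function.update M v (some k))) = 0
          · rw [hx0, mul_zero, mul_zero, ite_self]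
          · have hdk : Disjoint (supp (Function.update M v (some k))) (supp L) := by
              rw [supp_update, Finset.disjoint_insert_left]
              exact ⟨hvL, hd.symm⟩
            rw [if_pos (hnewM _ hdk (hx _ hx0).1), supp_update]
        rw [Finset.sum_congr rfl (fun k _ => e3 k), ← Finset.mul_sum]
        have h5 := es_mul_eL hvL hvM hd
        have h8 := es_mul_self v (supp L ∪ supp M)
        have h10 := es_mul_self v (supp M)
        have h9 : eL (supp L) (insert v (supp M)) =
            es v (supp L ∪ supp M) * ((-1) ^ (supp L).card * (es v (supp M) * eL (supp L) (supp M))) := by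
          rw [← h5, ← mul_assoc, h8, one_mul]
        rw [h9]
        set sx := ∑ k, x (Function.update (gl L M) v (some k))
        calc es v (supp M) * (es v (supp L ∪ supp M) * ((-1) ^ (supp L).card *
                (es v (supp M) * eL (supp L) (supp M))) * sx)
            = (es v (supp M) * es v (supp M)) * (((-1) ^ (supp L).card * eL (supp L) (supp M)) *
                (es v (supp L ∪ supp M) * sx)) := by ring
          _ = _ := by rw [h10, one_mul]
      rw [e2, h0, mul_zero]; rfl
    · refine Finset.sum_eq_zero (fun v hv => ?_)
      rw [mem_compl_supp] at hv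
      rw [Finset.sum_eq_zero, mul_zero]
      intro k _
      have : Function.update M v (some k) ∉ Λ := fun h => hM (hΛ _ h _ (sub_update hv k))
      simp only [hy, if_neg this]
  obtain ⟨z, hz, hbz⟩ : ∃ z : (U → Option J) → ℝ,
      (∀ M, z M ≠ 0 → M ∈ Λ ∧ (supp L).card + (supp M).card = n + 1) ∧ bd z = y := by
    by_cases hLn : (supp L).card ≤ n
    · obtain ⟨z, hz, hbz⟩ := h2 (n - (supp L).card) (by omega) y
        (fun M hM => ⟨(hycard M hM).1, by have := (hycard M hM).2; omega⟩) hby
      exact ⟨z, fun M hM => ⟨(hz M hM).1, by have := (hz M hM).2; omega⟩, hbz⟩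
    · refine ⟨0, fun M hM => absurd rfl hM, ?_⟩
      rw [bd_zero]
      funext M
      by_contra h
      have := (hycard M (Ne.symm h)).2
      omega
  set Z : (U → Option J) → ℝ := fun w =>
    if Sub L w then (-1) ^ (supp L).card * eL (supp L) (supp (ers w (supp L))) *
      z (ers w (supp L)) else 0 with hZ
  have hZgl : ∀ M, Disjoint (supp M) (supp L) →
      Z (gl L M) = (-1) ^ (supp L).card * eL (supp L) (supp M) * z M := by
    intro M hM
    simp only [hZ]
    rw [if_pos (sub_gl L M), ers_gl hM]
  have hZOn : IsCh K' (n + 1) Z := by
    intro w hw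
    simp only [hZ] at hw
    by_cases h : Sub L w
    · rw [if_pos h] at hw
      obtain ⟨h3, h4⟩ := hz _ (right_ne_zero_of_mul hw)
      refine ⟨(hiff w).2 (Or.inr ⟨h, h3⟩), ?_⟩
      have e : supp w = supp L ∪ supp (ers w (supp L)) := by
        rw [← supp_gl, gl_ers h]
      rw [e, Finset.card_union_of_disjoint (hΛL _ h3).symm]
      exact h4
    · rw [if_neg h] at hw
      exact absurd rfl hw
  have hbZ : ∀ M ∈ Λ, bd Z (gl L M) = x (gl L M) := by
    intro M hM
    have hd : Disjoint (supp L) (supp M) := (hΛL M hM).symm
    rw [bd_apply, supp_gl]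
    have e1 : ∑ v ∈ univ \ (supp L ∪ supp M), es v (supp L ∪ supp M) *
          ∑ k, Z (Function.update (gl L M) v (some k))
        = eL (supp L) (supp M) * ∑ v ∈ univ \ (supp L ∪ supp M), es v (supp M) *
            ∑ k, z (Function.update M v (some k)) := by
      rw [Finset.mul_sum]
      refine Finset.sum_congr rfl (fun v hv => ?_)
      rw [Finset.mem_sdiff, Finset.mem_union, not_or] at hv
      obtain ⟨_, hvL, hvM⟩ := hv
      have e3 : ∀ k, Z (Function.update (gl L M) v (some k)) =
          (-1) ^ (supp L).card * eL (supp L) (insert v (supp M)) *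
            z (Function.update M v (some k)) := by
        intro k
        have hdk : Disjoint (supp (Function.update M v (some k))) (supp L) := by
          rw [supp_update, Finset.disjoint_insert_left]
          exact ⟨hvL, hd.symm⟩
        rw [update_gl hvL, hZgl _ hdk, supp_update]
      rw [Finset.sum_congr rfl (fun k _ => e3 k), ← Finset.mul_sum]
      have h5 := es_mul_eL hvL hvM hd
      have h6 : ((-1 : ℝ) ^ (supp L).card) * (-1) ^ (supp L).card = 1 := by
        rw [← mul_pow]; norm_num
      set sz := ∑ k, z (Function.update M v (some k))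
      calc es v (supp L ∪ supp M) * ((-1) ^ (supp L).card * eL (supp L) (insert v (supp M)) * sz)
          = (-1) ^ (supp L).card * (es v (supp L ∪ supp M) * eL (supp L) (insert v (supp M))) * sz := by
            ring
        _ = ((-1) ^ (supp L).card * (-1) ^ (supp L).card) *
              (eL (supp L) (supp M) * (es v (supp M) * sz)) := by
            rw [h5]; ring
        _ = _ := by rw [h6, one_mul]
    have e2 : ∑ v ∈ univ \ (supp L ∪ supp M), es v (supp M) *
            ∑ k, z (Function.update M v (some k)) = bd z M := by
      rw [bd_apply]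
      apply Finset.sum_subset
      · intro v hv
        rw [Finset.mem_sdiff, Finset.mem_union, not_or] at hv
        rw [Finset.mem_sdiff]; exact ⟨hv.1, hv.2.2⟩
      · intro v hv hv'
        rw [Finset.mem_sdiff] at hv hv'
        have hvL : v ∈ supp L := by
          by_contra h
          exact hv' ⟨hv.1, by rw [Finset.mem_union]; tauto⟩
        rw [Finset.sum_eq_zero, mul_zero]
        intro k _
        by_contra h
        exact hLout M v k hvL (hz _ h).1
    rw [e1, e2, hbz]
    simp only [hy, if_pos hM]
    rw [← mul_assoc, eL_mul_self, one_mul]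
  have hrest : IsCh K n (x - bd Z) := by
    intro w hw
    have hzb : IsCh K' n (bd Z) := IsCh.bd hK' hZOn
    have hwK' : w ∈ K' ∧ (supp w).card = n := by
      by_cases h : x w = 0
      · have : bd Z w ≠ 0 := by
          intro h'
          apply hw
          simp [h, h']
        exact hzb w this
      · exact hx w h
    refine ⟨?_, hwK'.2⟩
    rcases (hiff w).1 hwK'.1 with h | ⟨h, h'⟩
    · exact h
    · exfalso
      apply hw
      have := hbZ _ h'
      rw [gl_ers h] at this
      simp [this]
  obtain ⟨y', hy', hby'⟩ := h1 n hn (x - bd Z) hrest (by rw [bd_sub, hbx, bd_bd, sub_zero])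
  refine ⟨y' + Z, ?_, ?_⟩
  · intro w hw
    by_cases h : y' w = 0
    · refine hZOn w (fun h' => hw ?_)
      simp [h, h']
    · exact ⟨hKK' (hy' w h).1, (hy' w h).2⟩
  · rw [bd_add, hby']
    simp

end A0

end Pool.Agent.MPa0a351.Top
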