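import Pool.Agent.Lib.MP_a0a351_co.TopA0

/-!
Deleted joins: adding faces to one row (MP_a0a351_co, S10471).
-/

set_option autoImplicit false

open Module Finset

namespace Pool.Agent.MPa0a351.Top

section Rows
variable {U J : Type*} [Fintype U] [LinearOrder U] [Fintype J] [DecidableEq J]

namespace TopA1

omit [LinearOrder U] [Fintype J] [DecidableEq J] in
theorem mem_supp {w : U → Option J} {u : U} : u ∈ supp w ↔ w u ≠ none := by
  unfold supp
  rw [mem_filter]
  constructor
  · rintro ⟨-, h⟩ h'
    rw [h'] at h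
    exact absurd h (by simp)
  · intro h
    exact ⟨mem_univ u, Option.isSome_iff_ne_none.mpr h⟩

omit [LinearOrder U] [Fintype J] in
theorem mem_sl {w : U → Option J} {j : J} {u : U} : u ∈ sl w j ↔ w u = some j := by
  unfold sl
  rw [mem_filter]
  exact ⟨fun h => h.2, fun h => ⟨mem_univ u, h⟩⟩

omit [LinearOrder U] [Fintype J] in
theorem sl_sub_supp (w : U → Option J) (j : J) : sl w j ⊆ supp w := by
  intro u hu
  rw [mem_sl] at hu
  rw [mem_supp, hu]
  exact fun h => absurd h (by simp)

omit [Fintype U] [LinearOrder U] [Fintype J] in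
theorem dnS_update {Γ : J → Set (Finset U)} (hΓ : ∀ j, DnS (Γ j)) (s : J) {A : Set (Finset U)}
    (hA : DnS A) (j : J) : DnS (Function.update Γ s A j) := by
  by_cases h : j = s
  · rw [h, Function.update_self]
    exact hA
  · rw [Function.update_of_ne h]
    exact hΓ j

omit [LinearOrder U] [Fintype J] in
theorem mem_DJ_update {Γ : J → Set (Finset U)} {s : J} {A : Set (Finset U)} {T : Finset U}
    {w : U → Option J} : w ∈ DJ (Function.update Γ s A) T ↔
      supp w ⊆ T ∧ sl w s ∈ A ∧ ∀ j, j ≠ s → sl w j ∈ Γ j := by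
  constructor
  · rintro ⟨h1, h2⟩
    refine ⟨h1, ?_, fun j hj => ?_⟩
    · have h := h2 s
      rwa [Function.update_self] at h
    · have h := h2 j
      rwa [Function.update_of_ne hj] at h
  · rintro ⟨h1, h2, h3⟩
    refine ⟨h1, fun j => ?_⟩
    by_cases hj : j = s
    · rw [hj, Function.update_self]
      exact h2
    · rw [Function.update_of_ne hj]
      exact h3 j hj

/-- The word with the letter `s` at the colours of `X`. -/
def wd (X : Finset U) (s : J) : U → Option J := fun u => if u ∈ X then some s else none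

omit [Fintype J] [DecidableEq J] in
theorem supp_wd (X : Finset U) (s : J) : supp (wd X s) = X := by
  ext u
  rw [mem_supp]
  unfold wd
  by_cases h : u ∈ X
  · rw [if_pos h]
    exact ⟨fun _ => h, fun _ h' => absurd h' (by simp)⟩
  · rw [if_neg h]
    exact ⟨fun h' => absurd rfl h', fun h' => absurd h' h⟩

omit [Fintype J] in
theorem sl_wd (X : Finset U) (s : J) : sl (wd X s) s = X := by
  ext u
  rw [mem_sl]
  unfold wd
  by_cases h : u ∈ X
  · rw [if_pos h]
    exact ⟨fun _ => h, fun _ => rfl⟩
  · rw [if_neg h]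
    exact ⟨fun h' => absurd h' (by simp), fun h' => absurd h' h⟩

omit [Fintype J] in
theorem sl_ers (w : U → Option J) (X : Finset U) (j : J) : sl (ers w X) j = sl w j \ X := by
  ext u
  rw [mem_sl, mem_sdiff, mem_sl]
  unfold ers
  by_cases h : u ∈ X
  · rw [if_pos h]
    exact ⟨fun h' => absurd h' (by simp), fun h' => absurd h h'.2⟩
  · rw [if_neg h]
    exact ⟨fun h' => ⟨h', h⟩, fun h' => h'.1⟩

omit [Fintype J] [DecidableEq J] in
theorem supp_ers (w : U → Option J) (X : Finset U) : supp (ers w X) = supp w \ X := by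
  ext u
  rw [mem_supp, mem_sdiff, mem_supp]
  unfold ers
  by_cases h : u ∈ X
  · rw [if_pos h]
    exact ⟨fun h' => absurd rfl h', fun h' => absurd h h'.2⟩
  · rw [if_neg h]
    exact ⟨fun h' => ⟨h', h⟩, fun h' => h'.1⟩

end TopA1

open TopA1

omit [Fintype J] in
theorem dn_DJ {Γ : J → Set (Finset U)} (hΓ : ∀ j, DnS (Γ j)) (T : Finset U) : Dn (DJ Γ T) := by
  rintro w ⟨h1, h2⟩ v hv
  constructor
  · intro u hu
    apply h1
    rw [mem_supp] at hu ⊢
    rcases hv u with h | h
    · exact absurd h hu
    · rwa [h] at hu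
  · intro j
    refine hΓ j (sl w j) (h2 j) (sl v j) ?_
    intro u hu
    rw [mem_sl] at hu ⊢
    rcases hv u with h | h
    · rw [h] at hu
      exact absurd hu (by simp)
    · rwa [h] at hu

/-- Lemma 0 for one row. -/
theorem row_add {Γ : J → Set (Finset U)} (hΓ : ∀ j, DnS (Γ j)) (s : J) {T X : Finset U}
    (hX : X ⊆ T) {A A' B : Set (Finset U)} (hA : DnS A) (hA' : DnS A') (hB : DnS B)
    (hiff : ∀ L ⊆ T, (L ∈ A' ↔ L ∈ A ∨ (X ⊆ L ∧ L \ X ∈ B))) (hXA : X ∉ A) {t : ℕ}
    (h1 : Ac (DJ (Function.update Γ s A) T) t)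
    (h2 : Ac (DJ (Function.update Γ s B) (T \ X)) (t - X.card)) :
    Ac (DJ (Function.update Γ s A') T) t := by
  refine ac_add (L := wd X s) (Λ := DJ (Function.update Γ s B) (T \ X))
    (dn_DJ (dnS_update hΓ s hA) T) (dn_DJ (dnS_update hΓ s hA') T)
    (dn_DJ (dnS_update hΓ s hB) (T \ X)) ?_ ?_ ?_ h1 ?_
  · intro M hM
    rw [supp_wd]
    exact disjoint_of_subset_left hM.1 sdiff_disjoint
  · intro w
    rw [supp_wd, mem_DJ_update, mem_DJ_update, mem_DJ_update, sl_ers, supp_ers]
    constructor
    · rintro ⟨hw, hs, hj⟩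
      rcases (hiff (sl w s) ((sl_sub_supp w s).trans hw)).mp hs with h | h
      · exact Or.inl ⟨hw, h, hj⟩
      · refine Or.inr ⟨?_, sdiff_subset_sdiff hw (Subset.refl X), h.2, fun j hjs => ?_⟩
        · intro u
          unfold wd
          by_cases hu : u ∈ X
          · rw [if_pos hu]
            exact Or.inr (mem_sl.mp (h.1 hu)).symm
          · rw [if_neg hu]
            exact Or.inl rfl
        · rw [sl_ers]
          exact hΓ j _ (hj j hjs) _ sdiff_subset
    · rintro (⟨hw, hs, hj⟩ | ⟨hL, hw, hs, hj⟩)
      · exact ⟨hw, (hiff (sl w s) ((sl_sub_supp w s).trans hw)).mpr (Or.inl hs), hj⟩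
      · have hXs : ∀ u ∈ X, w u = some s := by
          intro u hu
          have h := hL u
          unfold wd at h
          rw [if_pos hu] at h
          rcases h with h | h
          · exact absurd h (by simp)
          · exact h.symm
        have hwT : supp w ⊆ T := by
          intro u hu
          by_cases huX : u ∈ X
          · exact hX huX
          · exact (mem_sdiff.mp (hw (mem_sdiff.mpr ⟨hu, huX⟩))).1
        refine ⟨hwT, ?_, fun j hjs => ?_⟩
        · refine (hiff (sl w s) ((sl_sub_supp w s).trans hwT)).mpr (Or.inr ⟨?_, hs⟩)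
          intro u hu
          exact mem_sl.mpr (hXs u hu)
        · have h := hj j hjs
          rw [sl_ers, sdiff_eq_self_of_disjoint] at h
          · exact h
          · rw [disjoint_left]
            intro u hu huX
            rw [mem_sl, hXs u huX] at hu
            exact hjs (Option.some.inj hu).symm
  · intro h
    rw [mem_DJ_update, sl_wd] at h
    exact hXA h.2.1
  · rw [supp_wd]
    exact h2

/-- Lemma 3 (free row). -/
theorem free_row {Γ : J → Set (Finset U)} (hΓ : ∀ j, DnS (Γ j)) (s : J) {T : Finset U}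
    {A : Set (Finset U)} (hA : DnS A) {t : ℕ}
    (h : ∀ L ⊆ T, Ac (DJ (Function.update Γ s {∅}) (T \ L)) (t - L.card)) :
    Ac (DJ (Function.update Γ s A) T) t := by
  classical
  induction hn : (T.powerset.filter (fun L => L ∈ A)).card using Nat.strong_induction_on
    generalizing A with
  | _ n ih =>
    rcases (T.powerset.filter (fun L => L ∈ A)).eq_empty_or_nonempty with he | hne
    · have h0 : DJ (Function.update Γ s A) T = ∅ := by
        refine Set.eq_empty_of_forall_notMem fun w hw => ?_
        rw [mem_DJ_update] at hw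
        have h1 : sl w s ∈ T.powerset.filter (fun L => L ∈ A) := by
          rw [mem_filter, mem_powerset]
          exact ⟨(sl_sub_supp w s).trans hw.1, hw.2.1⟩
        rw [he] at h1
        exact absurd h1 (notMem_empty _)
      rw [h0]
      exact ac_void t
    · obtain ⟨X, hX, hmax⟩ := exists_max_image _ Finset.card hne
      rw [mem_filter, mem_powerset] at hX
      obtain ⟨A0, hA0m⟩ : ∃ A0 : Set (Finset U), ∀ L, L ∈ A0 ↔ L ∈ A ∧ ¬ X ⊆ L :=
        ⟨{L | L ∈ A ∧ ¬ X ⊆ L}, fun _ => Iff.rfl⟩
      have hA0 : DnS A0 := by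
        intro L hL M hM
        rw [hA0m] at hL ⊢
        exact ⟨hA L hL.1 M hM, fun h' => hL.2 (h'.trans hM)⟩
      have hB : DnS ({∅} : Set (Finset U)) := by
        intro L hL M hM
        rw [Set.mem_singleton_iff] at hL ⊢
        rw [hL] at hM
        exact subset_empty.mp hM
      refine row_add hΓ s hX.1 hA0 hA hB ?_
        (fun h' => ((hA0m X).mp h').2 (Subset.refl X)) ?_ (h X hX.1)
      · intro L hL
        rw [hA0m]
        constructor
        · intro hLA
          by_cases hXL : X ⊆ L
          · right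
            have h1 := hmax L (by rw [mem_filter, mem_powerset]; exact ⟨hL, hLA⟩)
            have h2 : X = L := eq_of_subset_of_card_le hXL h1
            rw [← h2]
            exact ⟨Subset.refl X, by rw [sdiff_self]; exact rfl⟩
          · exact Or.inl ⟨hLA, hXL⟩
        · rintro (h' | ⟨h1, h2⟩)
          · exact h'.1
          · rw [Set.mem_singleton_iff, sdiff_eq_empty_iff_subset] at h2
            rw [Subset.antisymm h2 h1]
            exact hX.2
      · refine ih _ ?_ hA0 rfl
        rw [← hn]
        refine card_lt_card ?_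
        rw [ssubset_iff_of_subset]
        · refine ⟨X, ?_, ?_⟩
          · rw [mem_filter, mem_powerset]
            exact hX
          · intro h'
            rw [mem_filter, hA0m] at h'
            exact h'.2.2 (Subset.refl X)
        · intro L hL
          rw [mem_filter, hA0m] at hL
          rw [mem_filter]
          exact ⟨hL.1, hL.2.1⟩

end Rows

end Pool.Agent.MPa0a351.Top
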