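import Pool.Agent.Lib.MP_a0a351_co.TopA0

/-!
REAY (MP_a0a351_co), module A3: Lemma 1 (a simplex row) and Lemma 2 (a simplex row covering all the
colours).
-/

set_option autoImplicit false

open Module Finset

namespace Pool.Agent.MPa0a351.Top

namespace A3

variable {U J : Type*} [Fintype U] [LinearOrder U] [Fintype J] [DecidableEq J]

/-- glue two words: `g` wins. -/
def glue (g M : U → Option J) : U → Option J := fun u => if g u = none then M u else g u

omit [LinearOrder U] [Fintype J] [DecidableEq J] in
theorem mem_supp {w : U → Option J} {u : U} : u ∈ supp w ↔ w u ≠ none := by
  simp [supp, Option.isSome_iff_ne_none]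

omit [LinearOrder U] [Fintype J] in
theorem mem_sl {w : U → Option J} {u : U} {j : J} : u ∈ sl w j ↔ w u = some j := by
  simp [sl]

omit [Fintype U] [LinearOrder U] [Fintype J] [DecidableEq J] in
theorem sub_refl (w : U → Option J) : Sub w w := fun _ => Or.inr rfl

omit [Fintype U] [LinearOrder U] [Fintype J] [DecidableEq J] in
theorem sub_trans {a b c : U → Option J} (h1 : Sub a b) (h2 : Sub b c) : Sub a c := by
  intro u
  rcases h1 u with h | h
  · exact Or.inl h
  · rcases h2 u with h' | h'
    · left; rw [h, h']
    · right; rw [h, h']

omit [LinearOrder U] [Fintype J] [DecidableEq J] in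
theorem supp_sub {a b : U → Option J} (h : Sub a b) : supp a ⊆ supp b := by
  intro u hu
  rw [mem_supp] at hu ⊢
  rcases h u with h' | h'
  · exact absurd h' hu
  · rwa [← h']

omit [LinearOrder U] [Fintype J] [DecidableEq J] in
theorem sub_eq_of_card {a b : U → Option J} (h : Sub a b) (hc : (supp b).card ≤ (supp a).card) :
    a = b := by
  have hs : supp a = supp b := Finset.eq_of_subset_of_card_le (supp_sub h) hc
  funext u
  rcases h u with h' | h'
  · have : u ∉ supp b := by
      rw [← hs, mem_supp]
      simp [h']
    rw [mem_supp, not_not] at this
    rw [h', this]
  · exact h'

omit [Fintype U] [LinearOrder U] [Fintype J] [DecidableEq J] in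
theorem sub_glue_left (g M : U → Option J) : Sub g (glue g M) := by
  intro u
  unfold glue
  by_cases h : g u = none
  · exact Or.inl h
  · right; rw [if_neg h]

omit [Fintype U] [LinearOrder U] [Fintype J] [DecidableEq J] in
theorem glue_mono {g M M' : U → Option J} (h : Sub M M') : Sub (glue g M) (glue g M') := by
  intro u
  unfold glue
  by_cases hg : g u = none
  · rw [if_pos hg, if_pos hg]; exact h u
  · right; rw [if_neg hg, if_neg hg]

omit [Fintype J] [DecidableEq J] in
theorem glue_ers {g w : U → Option J} (h : Sub g w) : glue g (ers w (supp g)) = w := by
  funext u
  unfold glue ers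
  by_cases hg : g u = none
  · rw [if_pos hg, if_neg]
    rw [mem_supp, not_not]; exact hg
  · rw [if_neg hg]
    rcases h u with h' | h'
    · exact absurd h' hg
    · exact h'

omit [Fintype U] [Fintype J] [DecidableEq J] in
theorem sub_ers (w : U → Option J) (A : Finset U) : Sub (ers w A) w := by
  intro u
  unfold ers
  by_cases hu : u ∈ A
  · left; rw [if_pos hu]
  · right; rw [if_neg hu]

/-- The pieces lemma: a family is built from the void family by adding the pieces
`{w | hd w = g}` in the order of the rank of `g`. -/
theorem ac_pieces {K : Set (U → Option J)} (hK : Dn K) (hd : (U → Option J) → (U → Option J))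
    (rk : (U → Option J) → ℕ) {t : ℕ} (h1 : ∀ w ∈ K, Sub (hd w) w)
    (h1' : ∀ w ∈ K, hd (hd w) = hd w)
    (h2 : ∀ w ∈ K, ∀ v, Sub v w → hd v = hd w ∨ rk (hd v) < rk (hd w))
    (h3 : ∀ g ∈ K, hd g = g →
      Ac {M | Disjoint (supp M) (supp g) ∧ glue g M ∈ K ∧ hd (glue g M) = g}
        (t - (supp g).card)) : Ac K t := by
  classical
  -- the levels
  have key : ∀ n : ℕ, Ac {w | w ∈ K ∧ rk (hd w) < n} t := by
    intro n
    induction n with
    | zero =>
      have : {w | w ∈ K ∧ rk (hd w) < 0} = (∅ : Set (U → Option J)) := by
        ext w; simp
      rw [this]
      exact ac_void t
    | succ n ih =>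
      have hS : ∀ S : Finset (U → Option J),
          Ac {w | w ∈ K ∧ (rk (hd w) < n ∨ (rk (hd w) = n ∧ hd w ∈ S))} t := by
        intro S
        induction S using Finset.induction_on with
        | empty =>
          have : {w | w ∈ K ∧ (rk (hd w) < n ∨ (rk (hd w) = n ∧ hd w ∈ (∅ : Finset (U → Option J))))}
              = {w | w ∈ K ∧ rk (hd w) < n} := by
            ext w; simp
          rw [this]
          exact ih
        | insert g S hgS ihS =>
          by_cases hg : g ∈ K ∧ hd g = g ∧ rk g = n
          · obtain ⟨hgK, hgg, hgn⟩ := hg
            refine ac_add (K := {w | w ∈ K ∧ (rk (hd w) < n ∨ (rk (hd w) = n ∧ hd w ∈ S))})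
              (Λ := {M | Disjoint (supp M) (supp g) ∧ glue g M ∈ K ∧ hd (glue g M) = g})
              (L := g) ?_ ?_ ?_ ?_ ?_ ?_ ihS (h3 g hgK hgg)
            · -- Dn
              intro w hw v hv
              refine ⟨hK w hw.1 v hv, ?_⟩
              rcases h2 w hw.1 v hv with h | h
              · rw [h]; exact hw.2
              · left
                rcases hw.2 with h' | h'
                · omega
                · omega
            · intro w hw v hv
              refine ⟨hK w hw.1 v hv, ?_⟩
              rcases h2 w hw.1 v hv with h | h
              · rw [h]; exact hw.2
              · left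
                rcases hw.2 with h' | h'
                · omega
                · omega
            · intro M hM M' hM'
              have hKM : glue g M' ∈ K := hK _ hM.2.1 _ (glue_mono hM')
              refine ⟨?_, hKM, ?_⟩
              · exact Finset.disjoint_of_subset_left (supp_sub hM') hM.1
              · rcases h2 _ hM.2.1 _ (glue_mono hM') with h | h
                · rw [h]; exact hM.2.2
                · rcases h2 _ hKM g (sub_glue_left g M') with h' | h'
                  · rw [← h', hgg]
                  · rw [hM.2.2] at h
                    rw [hgg] at h'
                    omega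
            · intro M hM; exact hM.1
            · intro w
              constructor
              · rintro ⟨hw, h⟩
                rcases h with h | ⟨h, h'⟩
                · left; exact ⟨hw, Or.inl h⟩
                · rcases Finset.mem_insert.1 h' with h' | h'
                  · right
                    have hsub : Sub g w := by rw [← h']; exact h1 w hw
                    refine ⟨hsub, ?_, ?_, ?_⟩
                    · rw [Finset.disjoint_left]
                      intro u hu hu'
                      rw [mem_supp] at hu
                      apply hu
                      unfold ers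
                      rw [if_pos hu']
                    · rw [glue_ers hsub]; exact hw
                    · rw [glue_ers hsub]; exact h'
                  · left; exact ⟨hw, Or.inr ⟨h, h'⟩⟩
              · rintro (⟨hw, h⟩ | ⟨hsub, h⟩)
                · refine ⟨hw, ?_⟩
                  rcases h with h | ⟨h, h'⟩
                  · exact Or.inl h
                  · exact Or.inr ⟨h, Finset.mem_insert_of_mem h'⟩
                · have hh := h.2
                  rw [glue_ers hsub] at hh
                  refine ⟨hh.1, Or.inr ⟨?_, ?_⟩⟩
                  · rw [hh.2]; exact hgn
                  · rw [hh.2]; exact Finset.mem_insert_self _ _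
            · rintro ⟨-, h⟩
              rw [hgg] at h
              rcases h with h | h
              · omega
              · exact hgS h.2
          · have : {w | w ∈ K ∧ (rk (hd w) < n ∨ (rk (hd w) = n ∧ hd w ∈ insert g S))}
                = {w | w ∈ K ∧ (rk (hd w) < n ∨ (rk (hd w) = n ∧ hd w ∈ S))} := by
              ext w
              simp only [Set.mem_ofPred_eq, Finset.mem_insert]
              constructor
              · rintro ⟨hw, h⟩
                refine ⟨hw, ?_⟩
                rcases h with h | ⟨h, h'⟩
                · exact Or.inl h
                · rcases h' with h' | h'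
                  · exfalso
                    apply hg
                    have hgK : g ∈ K := by
                      rw [← h']; exact hK w hw _ (h1 w hw)
                    refine ⟨hgK, ?_, ?_⟩
                    · rw [← h']; exact h1' w hw
                    · rw [← h']; exact h
                  · exact Or.inr ⟨h, h'⟩
              · rintro ⟨hw, h⟩
                refine ⟨hw, ?_⟩
                rcases h with h | ⟨h, h'⟩
                · exact Or.inl h
                · exact Or.inr ⟨h, Or.inr h'⟩
            rw [this]
            exact ihS
      have := hS Finset.univ
      have h' : {w | w ∈ K ∧ (rk (hd w) < n ∨ (rk (hd w) = n ∧ hd w ∈ (Finset.univ : Finset (U → Option J))))}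
          = {w | w ∈ K ∧ rk (hd w) < n + 1} := by
        ext w
        simp only [Set.mem_ofPred_eq, Finset.mem_univ, and_true]
        constructor
        · rintro ⟨hw, h⟩; exact ⟨hw, by omega⟩
        · rintro ⟨hw, h⟩; exact ⟨hw, by omega⟩
      rw [← h']
      exact this
  obtain ⟨N, hN⟩ : ∃ N : ℕ, ∀ w : U → Option J, rk (hd w) < N := by
    refine ⟨(Finset.univ : Finset (U → Option J)).sup (fun w => rk (hd w)) + 1, fun w => ?_⟩
    exact Nat.lt_succ_of_le
      (Finset.le_sup (f := fun w => rk (hd w)) (Finset.mem_univ w))
  have : {w | w ∈ K ∧ rk (hd w) < N} = K := by
    ext w; exact ⟨fun h => h.1, fun h => ⟨h, hN w⟩⟩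
  rw [← this]
  exact key N

omit [Fintype J] in
theorem ers_sl_apply (w : U → Option J) (s : J) (u : U) :
    ers w (sl w s) u = if w u = some s then none else w u := by
  unfold ers
  simp only [mem_sl]

omit [Fintype J] in
theorem sl_ers_self (w : U → Option J) (s : J) : sl (ers w (sl w s)) s = ∅ := by
  ext u
  rw [mem_sl, ers_sl_apply]
  simp only [Finset.notMem_empty, iff_false]
  by_cases h : w u = some s
  · rw [if_pos h]; simp
  · rw [if_neg h]; exact h

omit [Fintype J] in
theorem ers_sl_of_empty {w : U → Option J} {s : J} (h : sl w s = ∅) : ers w (sl w s) = w := by
  funext u
  rw [ers_sl_apply, if_neg]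
  intro hu
  have : u ∈ sl w s := mem_sl.2 hu
  rw [h] at this
  simp at this

omit [Fintype J] in
theorem ers_sl_mono {v w : U → Option J} (s : J) (h : Sub v w) :
    Sub (ers v (sl v s)) (ers w (sl w s)) := by
  intro u
  rw [ers_sl_apply, ers_sl_apply]
  rcases h u with h' | h'
  · left; rw [h']; simp
  · rw [h']
    by_cases hu : w u = some s
    · left; rw [if_pos hu]
    · right; rfl

omit [LinearOrder U] [Fintype J] in
theorem sl_sub {v w : U → Option J} (h : Sub v w) (j : J) : sl v j ⊆ sl w j := by
  intro u hu
  rw [mem_sl] at hu ⊢
  rcases h u with h' | h'
  · rw [h'] at hu; simp at hu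
  · rw [← h']; exact hu

omit [LinearOrder U] [Fintype J] in
theorem dn_DJ' {Γ : J → Set (Finset U)} (hΓ : ∀ j, DnS (Γ j)) (T : Finset U) : Dn (DJ Γ T) := by
  intro w hw v hv
  exact ⟨(supp_sub hv).trans hw.1, fun j => hΓ j _ (hw.2 j) _ (sl_sub hv j)⟩

end A3

open A3

section Rows

variable {U J : Type*} [Fintype U] [LinearOrder U] [Fintype J] [DecidableEq J]

/-- Lemma 1: a simplex row `2^G`. -/
theorem leaf {Γ : J → Set (Finset U)} (hΓ : ∀ j, DnS (Γ j)) (s : J) {T G : Finset U}
    (hG : G ⊆ T) {t : ℕ} (h : ∀ g ∈ DJ (Function.update Γ s {∅}) T, supp g = G →
      Ac (DJ (lkR (Function.update Γ s {∅}) g) (T \ G)) (t - G.card)) :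
    Ac (DJ (Function.update Γ s {L | L ⊆ G}) T) t := by
  classical
  -- `om w` = the letters of `w` in the other rows
  set om : (U → Option J) → (U → Option J) := fun w => ers w (sl w s) with hom
  set hd : (U → Option J) → (U → Option J) := fun w =>
    if G ⊆ supp (om w) then ers w (univ \ G) else om w with hhd
  set rk : (U → Option J) → ℕ := fun w =>
    if G ⊆ supp w then T.card + 1 else (supp w).card with hrk
  have hΓ' : ∀ j, DnS (Function.update Γ s {L | L ⊆ G} j) := by
    intro j
    by_cases hj : j = s
    · subst hj
      rw [Function.update_self]
      intro A hA B hB
      exact hB.trans hA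
    · rw [Function.update_of_ne hj]; exact hΓ j
  have hK := dn_DJ' hΓ' T
  have homsub : ∀ w, Sub (om w) w := fun w => sub_ers w _
  have homom : ∀ w, om (om w) = om w := by
    intro w
    exact ers_sl_of_empty (sl_ers_self w s)
  have hslK : ∀ w ∈ DJ (Function.update Γ s {L | L ⊆ G}) T, sl w s ⊆ G := by
    intro w hw
    have := hw.2 s
    rw [Function.update_self] at this
    exact this
  -- if `G ⊆ supp (om w)` then the row `s` of `w ∈ K` is empty
  have hsl0 : ∀ w ∈ DJ (Function.update Γ s {L | L ⊆ G}) T, G ⊆ supp (om w) → sl w s = ∅ := by
    intro w hw hGw
    rw [Finset.eq_empty_iff_forall_notMem]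
    intro u hu
    have h1 := hGw (hslK w hw hu)
    rw [mem_supp, hom] at h1
    simp only at h1
    rw [ers_sl_apply, if_pos (mem_sl.1 hu)] at h1
    exact h1 rfl
  have herG : ∀ w : U → Option J, G ⊆ supp w → supp (ers w (univ \ G)) = G := by
    intro w hw
    ext u
    rw [mem_supp]
    unfold ers
    constructor
    · intro hu
      by_contra hu'
      apply hu
      rw [if_pos]
      simp [hu']
    · intro hu
      rw [if_neg (by simp [hu])]
      exact mem_supp.1 (hw hu)
  have herr : ∀ w : U → Option J, supp w ⊆ G → ers w (univ \ G) = w := by
    intro w hw
    funext u
    unfold ers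
    by_cases hu : u ∈ G
    · rw [if_neg (by simp [hu])]
    · rw [if_pos (by simp [hu])]
      have : u ∉ supp w := fun h => hu (hw h)
      rw [mem_supp, not_not] at this
      exact this.symm
  refine ac_pieces hK hd rk ?_ ?_ ?_ ?_
  · intro w _
    rw [hhd]
    simp only
    split_ifs with hc
    · exact sub_ers _ _
    · exact homsub w
  · intro w hw
    by_cases hc : G ⊆ supp (om w)
    · have e1 : hd w = ers w (univ \ G) := by rw [hhd]; simp only; rw [if_pos hc]
      have hs0 := hsl0 w hw hc
      have e2 : om (hd w) = hd w := by
        apply ers_sl_of_empty
        rw [e1]
        apply Finset.subset_empty.1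
        rw [← hs0]
        exact sl_sub (sub_ers _ _) s
      have e3 : supp (hd w) = G := by
        rw [e1]
        exact herG w (hc.trans (supp_sub (homsub w)))
      have e4 : hd (hd w) = ers (hd w) (univ \ G) := by
        rw [hhd]; simp only
        rw [if_pos]
        change G ⊆ supp (om (hd w))
        rw [e2, e3]
      rw [e4]
      exact herr _ (by rw [e3])
    · have e1 : hd w = om w := by rw [hhd]; simp only; rw [if_neg hc]
      rw [e1]
      have : hd (om w) = om (om w) := by
        rw [hhd]; simp only; rw [if_neg]
        rw [homom]; exact hc
      rw [this, homom]
  · intro w hw v hv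
    by_cases hcv : G ⊆ supp (om v)
    · left
      have hcw : G ⊆ supp (om w) := hcv.trans (supp_sub (ers_sl_mono s hv))
      have e1 : hd w = ers w (univ \ G) := by rw [hhd]; simp only; rw [if_pos hcw]
      have e2 : hd v = ers v (univ \ G) := by rw [hhd]; simp only; rw [if_pos hcv]
      rw [e1, e2]
      funext u
      unfold ers
      by_cases hu : u ∈ G
      · rw [if_neg (by simp [hu]), if_neg (by simp [hu])]
        have h3 : v u ≠ none := mem_supp.1 (supp_sub (homsub v) (hcv hu))
        rcases hv u with h4 | h4
        · exact absurd h4 h3
        · exact h4
      · rw [if_pos (by simp [hu]), if_pos (by simp [hu])]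
    · have e2 : hd v = om v := by rw [hhd]; simp only; rw [if_neg hcv]
      by_cases hcw : G ⊆ supp (om w)
      · right
        have e1 : hd w = ers w (univ \ G) := by rw [hhd]; simp only; rw [if_pos hcw]
        have e3 : supp (hd w) = G := by
          rw [e1]; exact herG w (hcw.trans (supp_sub (homsub w)))
        have e4 : rk (hd w) = T.card + 1 := by
          rw [hrk]; simp only; rw [if_pos]; rw [e3]
        have e5 : rk (hd v) = (supp (om v)).card := by
          rw [e2, hrk]; simp only; rw [if_neg hcv]
        rw [e4, e5]
        have h6 : supp (om v) ⊆ T :=
          (supp_sub (homsub v)).trans ((supp_sub hv).trans hw.1)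
        exact Nat.lt_succ_of_le (Finset.card_le_card h6)
      · have e1 : hd w = om w := by rw [hhd]; simp only; rw [if_neg hcw]
        have hsub : Sub (om v) (om w) := ers_sl_mono s hv
        by_cases hlt : (supp (om w)).card ≤ (supp (om v)).card
        · left
          rw [e1, e2]
          exact sub_eq_of_card hsub hlt
        · right
          rw [e1, e2, hrk]
          simp only
          rw [if_neg hcv, if_neg hcw]
          exact not_le.1 hlt
  · intro g hg hgg
    by_cases hc : G ⊆ supp (om g)
    · -- second type
      have hs0 := hsl0 g hg hc
      have e1 : hd g = ers g (univ \ G) := by rw [hhd]; simp only; rw [if_pos hc]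
      have e3 : supp g = G := by
        rw [← hgg, e1]; exact herG g (hc.trans (supp_sub (homsub g)))
      have hgD : g ∈ DJ (Function.update Γ s {∅}) T := by
        refine ⟨hg.1, fun j => ?_⟩
        by_cases hj : j = s
        · subst hj
          rw [Function.update_self, hs0]
          rfl
        · have := hg.2 j
          rw [Function.update_of_ne hj] at this ⊢
          exact this
      have hset : {M | Disjoint (supp M) (supp g) ∧
          glue g M ∈ DJ (Function.update Γ s {L | L ⊆ G}) T ∧ hd (glue g M) = g}
          = DJ (lkR (Function.update Γ s {∅}) g) (T \ G) := by
        ext M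
        have hslg : Disjoint (supp M) (supp g) → ∀ j, sl (glue g M) j = sl M j ∪ sl g j := by
          intro hd' j
          ext u
          rw [mem_sl, Finset.mem_union, mem_sl, mem_sl]
          unfold glue
          by_cases hgu : g u = none
          · rw [if_pos hgu]
            simp [hgu]
          · rw [if_neg hgu]
            have : u ∉ supp M := fun h' => (Finset.disjoint_left.1 hd' h') (mem_supp.2 hgu)
            rw [mem_supp, not_not] at this
            simp [this]
        constructor
        · rintro ⟨hM1, hM2, hM3⟩
          refine ⟨?_, fun j => ?_⟩
          · intro u hu
            rw [Finset.mem_sdiff]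
            constructor
            · apply hM2.1
              rw [mem_supp]
              unfold glue
              have : u ∉ supp g := Finset.disjoint_left.1 hM1 hu
              rw [mem_supp, not_not] at this
              rw [if_pos this]
              exact mem_supp.1 hu
            · rw [← e3]
              exact Finset.disjoint_left.1 hM1 hu
          · have hdis : Disjoint (sl M j) (sl g j) := by
              rw [Finset.disjoint_left]
              intro u hu hu'
              have hu1 : u ∈ supp M := by rw [mem_supp, mem_sl.1 hu]; simp
              have hu2 : u ∈ supp g := by rw [mem_supp, mem_sl.1 hu']; simp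
              exact Finset.disjoint_left.1 hM1 hu1 hu2
            refine ⟨hdis, ?_⟩
            by_cases hj : j = s
            · subst hj
              rw [Function.update_self, hs0, Finset.union_empty]
              -- the slice of M in the row s is empty
              have h5 : sl (glue g M) j ⊆ G := hslK _ hM2
              rw [hslg hM1, hs0, Finset.union_empty] at h5
              have h6 : sl M j = ∅ := by
                rw [Finset.eq_empty_iff_forall_notMem]
                intro u hu
                have hu1 : u ∈ supp M := by rw [mem_supp, mem_sl.1 hu]; simp
                have hu2 : u ∈ supp g := by rw [e3]; exact h5 hu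
                exact Finset.disjoint_left.1 hM1 hu1 hu2
              rw [h6]; rfl
            · have := hM2.2 j
              rw [Function.update_of_ne hj] at this ⊢
              rw [hslg hM1] at this
              exact this
        · rintro ⟨hM1, hM2⟩
          have hdis : Disjoint (supp M) (supp g) := by
            rw [Finset.disjoint_left]
            intro u hu hu'
            rw [e3] at hu'
            exact (Finset.mem_sdiff.1 (hM1 hu)).2 hu'
          have hMs : sl M s = ∅ := by
            have := (hM2 s).2
            rw [Function.update_self, hs0, Finset.union_empty] at this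
            exact this
          have hgls : sl (glue g M) s = ∅ := by
            rw [hslg hdis, hMs, hs0]; rfl
          have hmem : glue g M ∈ DJ (Function.update Γ s {L | L ⊆ G}) T := by
            refine ⟨?_, fun j => ?_⟩
            · intro u hu
              rw [mem_supp] at hu
              unfold glue at hu
              by_cases hgu : g u = none
              · rw [if_pos hgu] at hu
                exact (Finset.mem_sdiff.1 (hM1 (mem_supp.2 hu))).1
              · exact hg.1 (mem_supp.2 hgu)
            · by_cases hj : j = s
              · subst hj
                rw [Function.update_self, hgls]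
                exact Finset.empty_subset _
              · have := (hM2 j).2
                rw [Function.update_of_ne hj] at this ⊢
                rw [hslg hdis]
                exact this
          refine ⟨hdis, hmem, ?_⟩
          have e6 : om (glue g M) = glue g M := ers_sl_of_empty hgls
          have e7 : G ⊆ supp (glue g M) := by
            rw [← e3]; exact supp_sub (sub_glue_left g M)
          rw [hhd]; simp only
          rw [if_pos (by rw [e6]; exact e7)]
          funext u
          unfold ers
          by_cases hu : u ∈ G
          · rw [if_neg (by simp [hu])]
            unfold glue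
            rw [if_neg]
            rw [← e3] at hu
            exact mem_supp.1 hu
          · rw [if_pos (by simp [hu])]
            rw [← e3, mem_supp, not_not] at hu
            exact hu.symm
      rw [hset, e3]
      exact h g hgD e3
    · -- first type: a cone
      have e1 : hd g = om g := by rw [hhd]; simp only; rw [if_neg hc]
      have hog : om g = g := by rw [← e1]; exact hgg
      rw [hog] at hc
      obtain ⟨u₀, hu₀, hu₀'⟩ := Finset.not_subset.1 hc
      have hprop : ∀ M, (Disjoint (supp M) (supp g) ∧
          glue g M ∈ DJ (Function.update Γ s {L | L ⊆ G}) T ∧ hd (glue g M) = g) →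
          om (glue g M) = g := by
        rintro M ⟨hM1, hM2, hM3⟩
        by_cases hc' : G ⊆ supp (om (glue g M))
        · exfalso
          have e2 : hd (glue g M) = ers (glue g M) (univ \ G) := by
            rw [hhd]; simp only; rw [if_pos hc']
          have e4 : supp g = G := by
            rw [← hM3, e2]
            exact herG _ (hc'.trans (supp_sub (homsub _)))
          exact hc (by rw [e4])
        · have e2 : hd (glue g M) = om (glue g M) := by
            rw [hhd]; simp only; rw [if_neg hc']
          rw [← e2]; exact hM3
      refine ac_cone ?_ u₀ s ?_ _
      · -- Dn
        intro M hM M' hM'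
        have hom' := hprop M hM
        refine ⟨Finset.disjoint_of_subset_left (supp_sub hM') hM.1,
          hK _ hM.2.1 _ (glue_mono hM'), ?_⟩
        have e5 : om (glue g M') = g := by
          funext u
          have h6 : Sub (om (glue g M')) (om (glue g M)) := ers_sl_mono s (glue_mono hM')
          rw [hom'] at h6
          have h7 : Sub g (om (glue g M')) := by
            have := ers_sl_mono s (sub_glue_left g M')
            change Sub (om g) (om (glue g M')) at this
            rwa [hog] at this
          rcases h6 u with h8 | h8
          · rcases h7 u with h9 | h9
            · rw [h8, h9]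
            · exact h9.symm
          · exact h8
        rw [hhd]; simp only
        rw [if_neg (by rw [e5]; exact hc)]
        exact e5
      · intro M hM
        have hom' := hprop M hM
        have hgu₀ : g u₀ = none := by
          by_contra hne
          exact hu₀' (mem_supp.2 hne)
        have hMu : M u₀ = none ∨ M u₀ = some s := by
          have h8 : om (glue g M) u₀ = none := by rw [hom']; exact hgu₀
          change ers (glue g M) (sl (glue g M) s) u₀ = none at h8
          rw [ers_sl_apply] at h8
          have h9 : glue g M u₀ = M u₀ := by unfold glue; rw [if_pos hgu₀]
          rw [h9] at h8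
          by_cases h10 : M u₀ = some s
          · exact Or.inr h10
          · rw [if_neg h10] at h8; exact Or.inl h8
        refine ⟨hMu, ?_⟩
        -- the glued word
        have hglu : glue g (Function.update M u₀ (some s))
            = Function.update (glue g M) u₀ (some s) := by
          funext u
          by_cases hu : u = u₀
          · subst hu
            rw [Function.update_self]
            unfold glue
            rw [if_pos hgu₀, Function.update_self]
          · rw [Function.update_of_ne hu]
            unfold glue
            rw [Function.update_of_ne hu]
        have hglM : glue g M u₀ = none ∨ glue g M u₀ = some s := by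
          have h9 : glue g M u₀ = M u₀ := by unfold glue; rw [if_pos hgu₀]
          rw [h9]; exact hMu
        have e5 : om (Function.update (glue g M) u₀ (some s)) = g := by
          have e5' : om (Function.update (glue g M) u₀ (some s)) = om (glue g M) := by
            funext u
            change ers _ (sl _ s) u = ers _ (sl _ s) u
            rw [ers_sl_apply, ers_sl_apply]
            by_cases hu : u = u₀
            · subst hu
              rw [Function.update_self, if_pos rfl]
              rcases hglM with h' | h'
              · rw [h']; simp
              · rw [h']; simp
            · rw [Function.update_of_ne hu]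
          rw [e5', hom']
        refine ⟨?_, ?_, ?_⟩
        · rw [Finset.disjoint_left]
          intro u hu hu'
          by_cases h11 : u = u₀
          · subst h11
            exact (mem_supp.1 hu') hgu₀
          · rw [mem_supp, Function.update_of_ne h11] at hu
            exact Finset.disjoint_left.1 hM.1 (mem_supp.2 hu) hu'
        · rw [hglu]
          refine ⟨?_, fun j => ?_⟩
          · intro u hu
            by_cases h11 : u = u₀
            · subst h11; exact hG hu₀
            · rw [mem_supp, Function.update_of_ne h11] at hu
              exact hM.2.1.1 (mem_supp.2 hu)
          · by_cases hj : j = s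
            · subst hj
              rw [Function.update_self]
              intro u hu
              rw [mem_sl] at hu
              by_cases h11 : u = u₀
              · subst h11; exact hu₀
              · rw [Function.update_of_ne h11] at hu
                exact hslK _ hM.2.1 (mem_sl.2 hu)
            · have h12 := hM.2.1.2 j
              have h13 : sl (Function.update (glue g M) u₀ (some s)) j = sl (glue g M) j := by
                ext u
                rw [mem_sl, mem_sl]
                by_cases h11 : u = u₀
                · subst h11
                  rw [Function.update_self]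
                  rcases hglM with h' | h'
                  · rw [h']; simp [Ne.symm hj]
                  · rw [h']
                · rw [Function.update_of_ne h11]
              rw [h13]
              exact h12
        · rw [hglu, hhd]; simp only
          rw [if_neg (by rw [e5]; exact hc)]
          exact e5

/-- Lemma 2 with one simplex row containing all the colours. -/
theorem cover {Γ : J → Set (Finset U)} (hΓ : ∀ j, DnS (Γ j)) {T : Finset U} (s : J)
    (hs : T ∈ Γ s) : Ac (DJ Γ T) T.card := by
  have h1 : DJ (Function.update Γ s {L | L ⊆ T}) T = DJ Γ T := by
    ext w
    constructor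
    · rintro ⟨hw1, hw2⟩
      refine ⟨hw1, fun j => ?_⟩
      have := hw2 j
      by_cases hj : j = s
      · subst hj
        rw [Function.update_self] at this
        exact hΓ j _ hs _ this
      · rw [Function.update_of_ne hj] at this
        exact this
    · rintro ⟨hw1, hw2⟩
      refine ⟨hw1, fun j => ?_⟩
      by_cases hj : j = s
      · subst hj
        rw [Function.update_self]
        intro u hu
        exact hw1 (mem_supp.2 (by rw [mem_sl.1 hu]; simp))
      · rw [Function.update_of_ne hj]
        exact hw2 j
  rw [← h1]
  refine leaf hΓ s (Finset.Subset.refl T) ?_
  intro g _ _ n hn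
  rw [Nat.sub_self] at hn
  exact absurd hn (Nat.not_lt_zero n)

end Rows

end Pool.Agent.MPa0a351.Top
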