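import Pool.Agent.Lib.MP_a0a351_co.TopDefs

/-!
Module B1 of the topological part of MP_a0a351_co: the Morse decomposition of the complex of the
pointed subsets of a vector configuration (nearest point stratification).
-/


set_option autoImplicit false

open Module Finset

namespace Pool.Agent.MPa0a351.Top
namespace Morse

variable {E : Type*} [NormedAddCommGroup E] [InnerProductSpace ℝ E] [FiniteDimensional ℝ E]
variable {U : Type*}

/-- The nearest point of a simplicial cone. -/
theorem proj_cone (S : Finset U) (y : U → E) (hS : LinearIndependent ℝ (fun i : S => y i))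
    (w : E) :
    ∃ l : U → ℝ, (∀ u, 0 ≤ l u) ∧ (∀ u ∈ S, 0 ≤ inner ℝ (w + ∑ v ∈ S, l v • y v) (y u)) ∧
      (∀ u ∈ S, l u * inner ℝ (w + ∑ v ∈ S, l v • y v) (y u) = 0) := by
  classical
  set T : (S → ℝ) →ₗ[ℝ] E := Fintype.linearCombination ℝ (fun i : S => y i) with hT
  have hinj : Function.Injective T := by
    rw [hT]
    exact linearIndependent_iff_injective_fintypeLinearCombination.mp hS
  have hTa : ∀ a : S → ℝ, T a = ∑ i, a i • y i := fun a => by
    rw [hT, Fintype.linearCombination_apply]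
  set C : Set (S → ℝ) := {a | ∀ i, 0 ≤ a i} with hC
  have hCcl : IsClosed C := by
    rw [hC]
    simp only [Set.ofPred_forall]
    exact isClosed_iInter fun i => isClosed_le continuous_const (continuous_apply i)
  have hK : IsClosed (T '' C) :=
    (LinearMap.isClosedEmbedding_of_injective (LinearMap.ker_eq_bot.mpr hinj)).isClosedMap _ hCcl
  have hCc : Convex ℝ C := by
    intro a ha b hb s t hs ht _ i
    simp only [Pi.add_apply, Pi.smul_apply, smul_eq_mul]
    have := ha i
    have := hb i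
    positivity
  have hKc : Convex ℝ (T '' C) := hCc.linear_image T
  have hKn : (T '' C).Nonempty := ⟨0, 0, fun i => le_refl _, map_zero T⟩
  have : CompleteSpace E := FiniteDimensional.complete ℝ E
  obtain ⟨v, hv, hmin⟩ := exists_norm_eq_iInf_of_complete_convex hKn hK.isComplete hKc (-w)
  rw [norm_eq_iInf_iff_real_inner_le_zero hKc hv] at hmin
  obtain ⟨a, ha, rfl⟩ := hv
  set l : U → ℝ := fun u => if h : u ∈ S then a ⟨u, h⟩ else 0 with hl
  have hsum : ∑ v ∈ S, l v • y v = T a := by
    rw [hTa, ← Finset.sum_attach S]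
    refine Finset.sum_congr rfl fun i _ => ?_
    simp [hl]
  have hneg : -w - T a = -(w + T a) := by abel
  have h0 : ∀ b ∈ C, inner ℝ (w + T a) (T a) ≤ inner ℝ (w + T a) (T b) := by
    intro b hb
    have := hmin (T b) ⟨b, hb, rfl⟩
    rw [hneg, inner_neg_left, inner_sub_right] at this
    linarith
  have h1 : inner ℝ (w + T a) (T a) = 0 := by
    have e1 := h0 0 (fun i => le_refl _)
    have e2 := h0 ((2 : ℝ) • a) (fun i => by
      simp only [Pi.smul_apply, smul_eq_mul]
      have := ha i
      positivity)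
    rw [map_zero, inner_zero_right] at e1
    rw [map_smul, inner_smul_right] at e2
    linarith
  have h2 : ∀ u ∈ S, 0 ≤ inner ℝ (w + T a) (y u) := by
    intro u hu
    have := h0 (Pi.single ⟨u, hu⟩ 1) (fun i => by
      by_cases h : i = ⟨u, hu⟩
      · subst h
        simp
      · rw [Pi.single_eq_of_ne h])
    rw [h1] at this
    have e : T (Pi.single ⟨u, hu⟩ 1) = y u := by
      rw [hTa, Finset.sum_eq_single (⟨u, hu⟩ : S)]
      · simp
      · intro b _ hb
        rw [Pi.single_eq_of_ne hb, zero_smul]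
      · intro h
        exact absurd (Finset.mem_univ _) h
    rwa [e] at this
  refine ⟨l, fun u => ?_, fun u hu => ?_, fun u hu => ?_⟩
  · simp only [hl]
    split_ifs with h
    · exact ha _
    · exact le_refl _
  · rw [hsum]
    exact h2 u hu
  · rw [hsum]
    have e : ∑ u ∈ S, l u * inner ℝ (w + T a) (y u) = 0 := by
      have : inner ℝ (w + T a) (∑ v ∈ S, l v • y v) = 0 := by rw [hsum, h1]
      rw [inner_sum] at this
      simpa [inner_smul_right] using this
    have hnn : ∀ u ∈ S, 0 ≤ l u * inner ℝ (w + T a) (y u) := by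
      intro v hv
      refine mul_nonneg ?_ (h2 v hv)
      simp only [hl]
      split_ifs
      exact ha _
    exact (Finset.sum_eq_zero_iff_of_nonneg hnn).mp e u hu

/-- `S` is good with vector `h`: the projection of `w` has positive coefficients. -/
def Good (y : U → E) (w : E) (S : Finset U) (h : E) : Prop :=
  (∃ l : U → ℝ, (∀ u ∈ S, 0 < l u) ∧ h = w + ∑ v ∈ S, l v • y v) ∧ ∀ u ∈ S, inner ℝ h (y u) = 0

theorem good_of_proj (S : Finset U) (y : U → E) (hS : LinearIndependent ℝ (fun i : S => y i))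
    (w : E) : ∃ S' ⊆ S, ∃ h, Good y w S' h ∧ (∀ u ∈ S, 0 ≤ inner ℝ h (y u)) := by
  classical
  obtain ⟨l, hl0, hl1, hl2⟩ := proj_cone S y hS w
  refine ⟨S.filter (fun u => 0 < l u), Finset.filter_subset _ _, w + ∑ v ∈ S, l v • y v,
    ⟨⟨l, fun u hu => (Finset.mem_filter.mp hu).2, ?_⟩, fun u hu => ?_⟩, hl1⟩
  · congr 1
    rw [Finset.sum_filter]
    refine Finset.sum_congr rfl fun u _ => ?_
    split_ifs with h
    · rfl
    · rw [le_antisymm (not_lt.mp h) (hl0 u), zero_smul]
  · have h := Finset.mem_filter.mp hu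
    have := hl2 u h.1
    rcases mul_eq_zero.mp this with h' | h'
    · exact absurd h' (ne_of_gt h.2)
    · exact h'

omit [FiniteDimensional ℝ E] in
/-- If `h` is nonnegative on `S` then `⟪h, h'⟫ ≥ ⟪h, w⟫`. -/
theorem Good.le {y : U → E} {w : E} {S : Finset U} {h' : E} (hg : Good y w S h') (h : E)
    (hh : ∀ u ∈ S, 0 ≤ inner ℝ h (y u)) : inner ℝ h w ≤ inner ℝ h h' := by
  obtain ⟨⟨l, hl, rfl⟩, _⟩ := hg
  rw [inner_add_right, inner_sum]
  have : 0 ≤ ∑ i ∈ S, inner ℝ h (l i • y i) := by
    refine Finset.sum_nonneg fun i hi => ?_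
    rw [inner_smul_right]
    exact mul_nonneg (hl i hi).le (hh i hi)
  linarith

omit [FiniteDimensional ℝ E] in
theorem Good.self {y : U → E} {w : E} {S : Finset U} {h : E} (hg : Good y w S h) :
    inner ℝ h h = inner ℝ h w := by
  obtain ⟨⟨l, hl, e⟩, h0⟩ := hg
  have h1 : inner ℝ h h = inner ℝ h (w + ∑ v ∈ S, l v • y v) := by rw [← e]
  rw [h1, inner_add_right, inner_sum]
  have : ∑ i ∈ S, inner ℝ h (l i • y i) = 0 := by
    refine Finset.sum_eq_zero fun i hi => ?_
    rw [inner_smul_right, h0 i hi, mul_zero]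
  rw [this, add_zero]

omit [FiniteDimensional ℝ E] in
/-- Comparison of two good sets: `h` is nonnegative on `S'`. -/
theorem Good.cmp {y : U → E} {w : E} {S S' : Finset U} {h h' : E} (hg : Good y w S h)
    (hg' : Good y w S' h') (hh : ∀ u ∈ S', 0 ≤ inner ℝ h (y u)) : ‖h' - h‖ ^ 2 ≤ ‖h'‖ ^ 2 - ‖h‖ ^ 2 := by
  have h1 := hg'.le h hh
  rw [← hg.self] at h1
  rw [← real_inner_self_eq_norm_sq, ← real_inner_self_eq_norm_sq, ← real_inner_self_eq_norm_sq,
    inner_sub_left, inner_sub_right, inner_sub_right, real_inner_comm h h']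
  linarith


omit [FiniteDimensional ℝ E] in
theorem Good.uniq {y : U → E} {w : E} {S : Finset U} {h h' : E} (hg : Good y w S h)
    (hg' : Good y w S h') : h' = h := by
  have h1 := hg.cmp hg' (fun u hu => by rw [hg.2 u hu])
  have h2 := hg'.cmp hg (fun u hu => by rw [hg'.2 u hu])
  rw [norm_sub_rev] at h2
  have h3 : ‖h' - h‖ ^ 2 ≤ 0 := by linarith
  have h4 : ‖h' - h‖ = 0 := by
    have := sq_nonneg ‖h' - h‖
    exact pow_eq_zero_iff (two_ne_zero) |>.mp (le_antisymm h3 this)
  exact sub_eq_zero.mp (norm_eq_zero.mp h4)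

theorem exists_generic {n : ℕ} (hE : finrank ℝ E = n) (hn : 1 ≤ n) (W : Finset U) (y : U → E)
    (hgp : ∀ Q ⊆ W, Q.card ≤ n → LinearIndependent ℝ (fun i : Q => y i)) :
    ∃ w : E, ∀ S ⊆ W, S.card < n → ∀ h, Good y w S h →
      h ≠ 0 ∧ ∀ u ∈ W, u ∉ S → inner ℝ h (y u) ≠ 0 := by
  classical
  let p : (↥(W.powerset) × Option ↥W) → Submodule ℝ E := fun q =>
    match q.2 with
    | none => if q.1.1.card < n then Submodule.span ℝ (y '' (q.1.1 : Set U)) else ⊥
    | some u => if q.1.1.card < n ∧ (u : U) ∉ q.1.1 then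
        Submodule.span ℝ (y '' (q.1.1 : Set U)) ⊔
          (Submodule.span ℝ (y '' ((insert (u : U) q.1.1 : Finset U) : Set U)))ᗮ else ⊥
  have hbot : (⊥ : Submodule ℝ E) ≠ ⊤ := by
    intro h
    have h1 : finrank ℝ (⊤ : Submodule ℝ E) = n := by rw [finrank_top, hE]
    rw [← h, finrank_bot] at h1
    omega
  have hspan : ∀ S : Finset U, finrank ℝ (Submodule.span ℝ (y '' (S : Set U))) ≤ S.card := by
    intro S
    have := finrank_span_finset_le_card (R := ℝ) (S.image y)
    rw [Finset.coe_image] at this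
    exact this.trans Finset.card_image_le
  have hp : ∀ q, p q ≠ ⊤ := by
    rintro ⟨⟨S, hS⟩, o⟩
    have hSW := Finset.mem_powerset.mp hS
    cases o with
    | none =>
      simp only [p]
      split_ifs with hc
      · intro h
        have h1 : finrank ℝ (⊤ : Submodule ℝ E) = n := by rw [finrank_top, hE]
        rw [← h] at h1
        have := hspan S
        omega
      · exact hbot
    | some u =>
      simp only [p]
      split_ifs with hc
      · intro h
        obtain ⟨b, hb, a, ha, hab⟩ :=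
          (Submodule.span ℝ (y '' (S : Set U))).exists_add_mem_mem_orthogonal (y u)
        have hSu : insert (u : U) S ⊆ W := Finset.insert_subset u.2 hSW
        have hcard : (insert (u : U) S).card ≤ n := by
          rw [Finset.card_insert_of_notMem hc.2]
          exact hc.1
        have hind := hgp _ hSu hcard
        -- `y u` is not in the span
        have hnot : y u ∉ Submodule.span ℝ (y '' (S : Set U)) := by
          intro hmem
          have hi : (⟨u, Finset.mem_insert_self _ _⟩ : ↥(insert (u : U) S)) ∉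
              (Subtype.val ⁻¹' (S : Set U) : Set ↥(insert (u : U) S)) := by
            simpa using hc.2
          have := hind.notMem_span_image hi
          apply this
          convert hmem using 2
          ext z
          constructor
          · rintro ⟨i, hi, rfl⟩
            exact ⟨i.1, hi, rfl⟩
          · rintro ⟨i, hi, rfl⟩
            exact ⟨⟨i, Finset.mem_insert_of_mem hi⟩, hi, rfl⟩
        have ha0 : a ≠ 0 := by
          rintro rfl
          rw [add_zero] at hab
          exact hnot (hab ▸ hb)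
        have hamem : a ∈ Submodule.span ℝ (y '' ((insert (u : U) S : Finset U) : Set U)) := by
          have : a = y u - b := by rw [hab]; abel
          rw [this]
          refine Submodule.sub_mem _ (Submodule.subset_span ⟨u, by simp, rfl⟩) ?_
          refine Submodule.span_mono (Set.image_mono ?_) hb
          rw [Finset.coe_insert]
          exact Set.subset_insert _ _
        have htop : a ∈ Submodule.span ℝ (y '' (S : Set U)) ⊔
          (Submodule.span ℝ (y '' ((insert (u : U) S : Finset U) : Set U)))ᗮ := by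
          rw [h]
          exact Submodule.mem_top
        obtain ⟨b', hb', c, hc', e⟩ := Submodule.mem_sup.mp htop
        have h1 : inner ℝ a b' = 0 := by
          rw [real_inner_comm]
          exact (Submodule.mem_orthogonal _ _).mp ha b' hb'
        have h2 : inner ℝ a c = 0 := (Submodule.mem_orthogonal _ _).mp hc' a hamem
        have h3 : inner ℝ a a = 0 := by
          have h4 : inner ℝ a (b' + c) = 0 := by rw [inner_add_right, h1, h2, add_zero]
          rwa [e] at h4
        exact ha0 (inner_self_eq_zero.mp h3)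
      · exact hbot
  have hne : (⋃ i, (p i : Set E)) ≠ Set.univ := by
    intro h
    obtain ⟨i, hi⟩ := Subspace.exists_eq_top_of_iUnion_eq_univ h
    exact hp i hi
  obtain ⟨w, hw⟩ := (Set.ne_univ_iff_exists_notMem _).mp hne
  rw [Set.mem_iUnion] at hw
  push Not at hw
  refine ⟨w, fun S hS hSn h hg => ⟨?_, fun u hu huS h0 => ?_⟩⟩
  · rintro rfl
    apply hw (⟨S, Finset.mem_powerset.mpr hS⟩, none)
    simp only [p]
    rw [if_pos hSn]
    obtain ⟨⟨l, hl, e⟩, _⟩ := hg
    have : w = - ∑ v ∈ S, l v • y v := eq_neg_of_add_eq_zero_left e.symm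
    rw [this]
    refine Submodule.neg_mem _ (Submodule.sum_mem _ fun v hv => Submodule.smul_mem _ _ ?_)
    exact Submodule.subset_span ⟨v, hv, rfl⟩
  · apply hw (⟨S, Finset.mem_powerset.mpr hS⟩, some ⟨u, hu⟩)
    simp only [p]
    rw [if_pos ⟨hSn, huS⟩]
    obtain ⟨⟨l, hl, e⟩, h1⟩ := hg
    have : w = (- ∑ v ∈ S, l v • y v) + h := by rw [e]; abel
    rw [this]
    refine Submodule.add_mem_sup ?_ ?_
    · refine Submodule.neg_mem _ (Submodule.sum_mem _ fun v hv => Submodule.smul_mem _ _ ?_)
      exact Submodule.subset_span ⟨v, hv, rfl⟩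
    · rw [Submodule.mem_orthogonal]
      intro z hz
      induction hz using Submodule.span_induction with
      | mem z hz =>
        obtain ⟨v, hv, rfl⟩ := hz
        rw [real_inner_comm]
        rw [Finset.mem_coe, Finset.mem_insert] at hv
        rcases hv with rfl | hv
        · exact h0
        · exact h1 v hv
      | zero => exact inner_zero_left _
      | add a b _ _ ha hb => rw [inner_add_left, ha, hb, add_zero]
      | smul r a _ ha => rw [inner_smul_left, ha, mul_zero]

theorem exists_dual (S : Finset U) (y : U → E) (hS : LinearIndependent ℝ (fun i : S => y i)) :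
    ∃ g : E, ∀ u ∈ S, inner ℝ g (y u) = 1 := by
  obtain ⟨f, hf⟩ := LinearMap.exists_extend ((Basis.span hS).constr ℝ (fun _ => (1 : ℝ)))
  have : CompleteSpace E := FiniteDimensional.complete ℝ E
  refine ⟨(InnerProductSpace.toDual ℝ E).symm (LinearMap.toContinuousLinearMap f), fun u hu => ?_⟩
  rw [InnerProductSpace.toDual_symm_apply]
  simp only [LinearMap.coe_toContinuousLinearMap']
  have h1 : y u = ((Basis.span hS) ⟨u, hu⟩ : E) := by
    rw [Basis.span_apply]
  rw [h1]
  have h2 := LinearMap.congr_fun hf ((Basis.span hS) ⟨u, hu⟩)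
  simp only [LinearMap.comp_apply, Submodule.subtype_apply, Basis.constr_basis] at h2
  exact h2

/-- Perturbation. -/
theorem perturb (W : Finset U) (y : U → E) (S : Finset U)
    (hS : LinearIndependent ℝ (fun i : S => y i)) (h : E) (hh : h ≠ 0)
    (h0 : ∀ u ∈ S, inner ℝ h (y u) = 0) (hne : ∀ u ∈ W, u ∉ S → inner ℝ h (y u) ≠ 0) :
    ∃ t > 0, ∀ s : ℝ, |s| ≤ t → ∃ h' : E, h' ≠ 0 ∧ (∀ u ∈ S, inner ℝ h' (y u) = s) ∧
      ∀ u ∈ W, u ∉ S → 0 < inner ℝ h' (y u) * inner ℝ h (y u) := by
  classical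
  obtain ⟨g, hg⟩ := exists_dual S y hS
  have hev : ∀ᶠ s : ℝ in nhds 0, h + s • g ≠ 0 ∧ ∀ u ∈ W, u ∉ S →
      0 < inner ℝ (h + s • g) (y u) * inner ℝ h (y u) := by
    refine Filter.Eventually.and ?_ ?_
    · have hc : Continuous (fun s : ℝ => h + s • g) := by fun_prop
      have := hc.tendsto 0
      simp only [zero_smul, add_zero] at this
      exact this.eventually_ne hh
    · rw [Filter.eventually_all_finset]
      intro u hu
      by_cases huS : u ∈ S
      · exact Filter.Eventually.of_forall fun s h => absurd huS h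
      · have hc : Continuous (fun s : ℝ => inner ℝ (h + s • g) (y u) * inner ℝ h (y u)) := by
          fun_prop
        have := hc.tendsto 0
        simp only [zero_smul, add_zero] at this
        have hpos : 0 < inner ℝ h (y u) * inner ℝ h (y u) :=
          mul_self_pos.mpr (hne u hu huS)
        filter_upwards [this.eventually (lt_mem_nhds hpos)] with s hs _
        exact hs
  obtain ⟨t, ht, hball⟩ := Metric.eventually_nhds_iff.mp hev
  refine ⟨t / 2, by positivity, fun s hs => ?_⟩
  have := hball (y := s) (by rw [Real.dist_eq, sub_zero]; linarith)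
  refine ⟨h + s • g, this.1, fun u hu => ?_, this.2⟩
  rw [inner_add_left, h0 u hu, inner_smul_left, hg u hu]
  simp


theorem morse_aux {n : ℕ} (hE : finrank ℝ E = n) (hn : 1 ≤ n) [DecidableEq U] (W : Finset U)
    (y : U → E)
    (hgp : ∀ Q ⊆ W, Q.card ≤ n → LinearIndependent ℝ (fun i : Q => y i)) (m : ℕ)
    (hdeep : ∀ h : E, h ≠ 0 → (∀ u ∈ W, inner ℝ h (y u) ≠ 0) →
      m ≤ (W.filter (fun u => 0 < inner ℝ h (y u))).card) :
    ∃ (N : ℕ) (X G : Fin N → Finset U),
      (∀ k, X k ⊆ W ∧ (X k).card < n ∧ G k ⊆ W ∧ Disjoint (X k) (G k) ∧ m ≤ (G k).card ∧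
        ∃ h : E, ∀ u ∈ X k ∪ G k, 0 < inner ℝ h (y u)) ∧
      (∀ L ⊆ W, L.card < n → ∃ k, X k ⊆ L ∧ L ⊆ X k ∪ G k) ∧
      (∀ k, ∀ L, L ⊆ X k ∪ G k → X k ⊆ L ∨ ∃ k' < k, X k' ⊆ L ∧ L ⊆ X k' ∪ G k') ∧
      (∀ k, ∀ k' < k, ¬ (X k' ⊆ X k ∧ X k ⊆ X k' ∪ G k')) := by
  classical
  obtain ⟨w, hw⟩ := exists_generic hE hn W y hgp
  set SS : Finset (Finset U) :=
    W.powerset.filter (fun S => S.card < n ∧ ∃ h, Good y w S h) with hSS
  have hmem : ∀ S, S ∈ SS ↔ S ⊆ W ∧ S.card < n ∧ ∃ h, Good y w S h := fun S => by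
    rw [hSS, Finset.mem_filter, Finset.mem_powerset]
  have hex : ∀ S : Finset U, ∃ h, S ∈ SS → Good y w S h := by
    intro S
    by_cases hS : S ∈ SS
    · obtain ⟨h, hh⟩ := ((hmem S).mp hS).2.2
      exact ⟨h, fun _ => hh⟩
    · exact ⟨0, fun h => absurd h hS⟩
  choose H hH using hex
  have hHne : ∀ S ∈ SS, H S ≠ 0 := fun S hS =>
    (hw S ((hmem S).mp hS).1 ((hmem S).mp hS).2.1 _ (hH S hS)).1
  have hHgen : ∀ S ∈ SS, ∀ u ∈ W, u ∉ S → inner ℝ (H S) (y u) ≠ 0 := fun S hS =>
    (hw S ((hmem S).mp hS).1 ((hmem S).mp hS).2.1 _ (hH S hS)).2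
  have hHw : ∀ S ∈ SS, 0 < inner ℝ (H S) w := by
    intro S hS
    rw [← (hH S hS).self]
    exact real_inner_self_pos.mpr (hHne S hS)
  let e : ↥SS ≃ Fin SS.card := SS.equivFin
  let f : Fin SS.card → ℝ := fun i => -‖H (e.symm i).1‖
  let σ := Tuple.sort f
  have hσ : Monotone (f ∘ σ) := Tuple.monotone_sort f
  let X : Fin SS.card → Finset U := fun k => (e.symm (σ k)).1
  have hX : ∀ k, X k ∈ SS := fun k => (e.symm (σ k)).2
  have hXinj : ∀ k k', X k = X k' → k = k' := by
    intro k k' h
    exact σ.injective (e.symm.injective (Subtype.ext h))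
  have hXsurj : ∀ S ∈ SS, ∃ k, X k = S := by
    intro S hS
    refine ⟨σ.symm (e ⟨S, hS⟩), ?_⟩
    simp [X]
  have hord : ∀ k k', ‖H (X k)‖ < ‖H (X k')‖ → k' < k := by
    intro k k' h
    by_contra hc
    have h1 := hσ (not_lt.mp hc)
    simp only [Function.comp_apply, f] at h1
    change -‖H (X k)‖ ≤ -‖H (X k')‖ at h1
    linarith
  let G : Fin SS.card → Finset U := fun k => W.filter (fun u => 0 < inner ℝ (H (X k)) (y u))
  have hind : ∀ S ⊆ W, S.card < n → LinearIndependent ℝ (fun i : S => y i) :=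
    fun S hS hSn => hgp S hS hSn.le
  have hX0 : ∀ k, ∀ u ∈ X k, inner ℝ (H (X k)) (y u) = 0 := fun k => (hH _ (hX k)).2
  have hXG0 : ∀ k, ∀ u ∈ X k ∪ G k, 0 ≤ inner ℝ (H (X k)) (y u) := by
    intro k u hu
    rcases Finset.mem_union.mp hu with hu | hu
    · rw [hX0 k u hu]
    · exact (Finset.mem_filter.mp hu).2.le
  refine ⟨SS.card, X, G, fun k => ?_, fun L hL hLn => ?_, fun k L hL => ?_, fun k k' hk => ?_⟩
  · have hXk := (hmem _).mp (hX k)
    obtain ⟨t, ht, hpert⟩ := perturb W y (X k) (hind _ hXk.1 hXk.2.1) (H (X k)) (hHne _ (hX k))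
      (hX0 k) (hHgen _ (hX k))
    refine ⟨hXk.1, hXk.2.1, Finset.filter_subset _ _, ?_, ?_, ?_⟩
    · rw [Finset.disjoint_left]
      intro u hu hu'
      have := (Finset.mem_filter.mp hu').2
      rw [hX0 k u hu] at this
      exact lt_irrefl _ this
    · obtain ⟨h', h'0, h'S, h'W⟩ := hpert (-t) (by rw [abs_neg, abs_of_pos ht])
      refine (hdeep h' h'0 ?_).trans (Finset.card_le_card ?_)
      · intro u hu
        by_cases huS : u ∈ X k
        · rw [h'S u huS]
          linarith
        · intro h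
          have := h'W u hu huS
          rw [h, zero_mul] at this
          exact lt_irrefl _ this
      · intro u hu
        obtain ⟨huW, hu0⟩ := Finset.mem_filter.mp hu
        refine Finset.mem_filter.mpr ⟨huW, ?_⟩
        by_cases huS : u ∈ X k
        · rw [h'S u huS] at hu0
          linarith
        · exact (pos_iff_pos_of_mul_pos (h'W u huW huS)).mp hu0
    · obtain ⟨h', h'0, h'S, h'W⟩ := hpert t (by rw [abs_of_pos ht])
      refine ⟨h', fun u hu => ?_⟩
      by_cases huS : u ∈ X k
      · rw [h'S u huS]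
        exact ht
      · rcases Finset.mem_union.mp hu with hu | hu
        · exact absurd hu huS
        · obtain ⟨huW, hu0⟩ := Finset.mem_filter.mp hu
          exact (pos_iff_pos_of_mul_pos (h'W u huW huS)).mpr hu0
  · obtain ⟨S', hS', h, hg, hpos⟩ := good_of_proj L y (hind L hL hLn) w
    have hS'W := hS'.trans hL
    have hS'n : S'.card < n := (Finset.card_le_card hS').trans_lt hLn
    have hSm : S' ∈ SS := (hmem _).mpr ⟨hS'W, hS'n, h, hg⟩
    have hHh : H S' = h := hg.uniq (hH _ hSm)
    obtain ⟨k, hk⟩ := hXsurj S' hSm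
    refine ⟨k, hk ▸ hS', fun u hu => ?_⟩
    by_cases huS : u ∈ X k
    · exact Finset.mem_union_left _ huS
    · refine Finset.mem_union_right _ (Finset.mem_filter.mpr ⟨hL hu, ?_⟩)
      have h1 := hpos u hu
      have h2 := hHgen _ (hX k) u (hL hu) huS
      rw [hk, hHh] at h2 ⊢
      exact lt_of_le_of_ne h1 (Ne.symm h2)
  · by_cases hXL : X k ⊆ L
    · exact Or.inl hXL
    · right
      have hLW : L ⊆ W := hL.trans (Finset.union_subset ((hmem _).mp (hX k)).1
        (Finset.filter_subset _ _))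
      -- the good subset of `L` with the shortest vector
      have hemp : (∅ : Finset U) ∈ SS.filter (fun S => S ⊆ L) := by
        refine Finset.mem_filter.mpr ⟨(hmem _).mpr ⟨Finset.empty_subset _, ?_, w, ?_⟩,
          Finset.empty_subset _⟩
        · rw [Finset.card_empty]
          exact hn
        · exact ⟨⟨fun _ => 1, by simp, by simp⟩, by simp⟩
      obtain ⟨S, hS, hSmin⟩ := Finset.exists_min_image (SS.filter (fun S => S ⊆ L))
        (fun S => ‖H S‖) ⟨_, hemp⟩
      obtain ⟨hSS', hSL⟩ := Finset.mem_filter.mp hS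
      have hSm := (hmem _).mp hSS'
      have hLG : ∀ u ∈ L, u ∉ S → 0 < inner ℝ (H S) (y u) := by
        intro u hu huS
        by_contra hneg
        have hne := hHgen S hSS' u (hLW hu) huS
        have hlt : inner ℝ (H S) (y u) < 0 := lt_of_le_of_ne (not_lt.mp hneg) hne
        have hS1 : insert u S ⊆ W := Finset.insert_subset (hLW hu) hSm.1
        have hS1n : (insert u S).card ≤ n := by
          rw [Finset.card_insert_of_notMem huS]
          exact hSm.2.1
        obtain ⟨S', hS', h', hg, hpos⟩ := good_of_proj _ y (hgp _ hS1 hS1n) w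
        have hS'L : S' ⊆ L := hS'.trans (Finset.insert_subset hu hSL)
        have hcmp := hg.cmp (hH S hSS') (fun v hv => hpos v (Finset.mem_insert_of_mem hv))
        have hne' : H S - h' ≠ 0 := by
          intro h
          rw [sub_eq_zero.mp h] at hlt
          have := hpos u (Finset.mem_insert_self _ _)
          linarith
        have hlt' : ‖h'‖ < ‖H S‖ := by
          have h1 : 0 < ‖H S - h'‖ ^ 2 := by
            have := norm_pos_iff.mpr hne'
            positivity
          have h2 : ‖h'‖ ^ 2 < ‖H S‖ ^ 2 := by linarith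
          exact lt_of_pow_lt_pow_left₀ 2 (norm_nonneg _) h2
        have h'0 : h' ≠ 0 := by
          rintro rfl
          have h1 := hg.le (H (X k)) (fun v hv => hXG0 k v (hL (hS'L hv)))
          rw [inner_zero_right] at h1
          have := hHw _ (hX k)
          linarith
        have hS'n : S'.card < n := by
          refine lt_of_le_of_ne ((Finset.card_le_card hS').trans hS1n) ?_
          intro hcard
          have hli : LinearIndependent ℝ (fun i : S' => y i) :=
            hgp _ (hS'.trans hS1) (le_of_eq hcard)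
          have htop : Submodule.span ℝ (Set.range (fun i : S' => y i)) = ⊤ := by
            apply hli.span_eq_top_of_card_eq_finrank'
            rw [Fintype.card_coe, hcard, hE]
          have hmem' : h' ∈ (Submodule.span ℝ (Set.range (fun i : S' => y i)))ᗮ := by
            rw [Submodule.mem_orthogonal]
            intro z hz
            induction hz using Submodule.span_induction with
            | mem z hz =>
              obtain ⟨v, rfl⟩ := hz
              rw [real_inner_comm]
              exact hg.2 v.1 v.2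
            | zero => exact inner_zero_left _
            | add a b _ _ ha hb => rw [inner_add_left, ha, hb, add_zero]
            | smul r a _ ha => rw [inner_smul_left, ha, mul_zero]
          rw [htop, Submodule.top_orthogonal_eq_bot, Submodule.mem_bot] at hmem'
          exact h'0 hmem'
        have hS'SS : S' ∈ SS := (hmem _).mpr ⟨hS'.trans hS1, hS'n, h', hg⟩
        have := hSmin S' (Finset.mem_filter.mpr ⟨hS'SS, hS'L⟩)
        rw [hg.uniq (hH _ hS'SS)] at this
        linarith
      obtain ⟨k', hk'⟩ := hXsurj S hSS'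
      have hcmp := (hH _ (hX k)).cmp (hH S hSS') (fun v hv => hXG0 k v (hL (hSL hv)))
      have hneq : H S - H (X k) ≠ 0 := by
        intro h
        obtain ⟨v, hv, hvL⟩ := Finset.not_subset.mp hXL
        have h1 := hHgen S hSS' v (((hmem _).mp (hX k)).1 hv) (fun h => hvL (hSL h))
        rw [sub_eq_zero.mp h] at h1
        exact h1 (hX0 k v hv)
      refine ⟨k', ?_, ?_, ?_⟩
      · apply hord
        rw [hk']
        have h1 : 0 < ‖H S - H (X k)‖ ^ 2 := by
          have := norm_pos_iff.mpr hneq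
          positivity
        have h2 : ‖H (X k)‖ ^ 2 < ‖H S‖ ^ 2 := by linarith
        exact lt_of_pow_lt_pow_left₀ 2 (norm_nonneg _) h2
      · rw [hk']
        exact hSL
      · intro u hu
        by_cases huS : u ∈ S
        · exact Finset.mem_union_left _ (hk' ▸ huS)
        · refine Finset.mem_union_right _ (Finset.mem_filter.mpr ⟨hLW hu, ?_⟩)
          rw [hk']
          exact hLG u hu huS
  · rintro ⟨h1, h2⟩
    have c1 := (hH _ (hX k')).cmp (hH _ (hX k)) (fun v hv => hXG0 k' v (h2 hv))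
    have c2 := (hH _ (hX k)).cmp (hH _ (hX k')) (fun v hv => by rw [hX0 k v (h1 hv)])
    rw [norm_sub_rev] at c2
    have h3 : ‖H (X k) - H (X k')‖ ^ 2 ≤ 0 := by linarith
    have h4 : ‖H (X k) - H (X k')‖ = 0 :=
      pow_eq_zero_iff (two_ne_zero) |>.mp (le_antisymm h3 (sq_nonneg _))
    have h5 := sub_eq_zero.mp (norm_eq_zero.mp h4)
    have h6 : X k' = X k := by
      refine Finset.Subset.antisymm h1 fun v hv => ?_
      by_contra hv'
      have := hHgen _ (hX k') v (((hmem _).mp (hX k)).1 hv) hv'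
      rw [← h5] at this
      exact this (hX0 k v hv)
    exact absurd (hXinj _ _ h6) (ne_of_lt hk)

end Morse

variable {U : Type*}

theorem morse [LinearOrder U] {n : ℕ} (hn : 1 ≤ n) (W : Finset U) (x : U → (Fin n → ℝ))
    (hgp : ∀ Q ⊆ W, Q.card ≤ n → LinearIndependent ℝ (fun i : Q => x i)) (m : ℕ)
    (hdeep : ∀ h : (Fin n → ℝ) →ₗ[ℝ] ℝ, h ≠ 0 → (∀ u ∈ W, h (x u) ≠ 0) →
      m ≤ (W.filter (fun u => 0 < h (x u))).card) :
    ∃ (N : ℕ) (X G : Fin N → Finset U),
      (∀ k, X k ⊆ W ∧ (X k).card < n ∧ G k ⊆ W ∧ Disjoint (X k) (G k) ∧ m ≤ (G k).card ∧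
        ∃ h : (Fin n → ℝ) →ₗ[ℝ] ℝ, ∀ u ∈ X k ∪ G k, 0 < h (x u)) ∧
      (∀ L ⊆ W, L.card < n → ∃ k, X k ⊆ L ∧ L ⊆ X k ∪ G k) ∧
      (∀ k, ∀ L, L ⊆ X k ∪ G k → X k ⊆ L ∨ ∃ k' < k, X k' ⊆ L ∧ L ⊆ X k' ∪ G k') ∧
      (∀ k, ∀ k' < k, ¬ (X k' ⊆ X k ∧ X k ⊆ X k' ∪ G k')) := by
  classical
  let ε : EuclideanSpace ℝ (Fin n) ≃ₗ[ℝ] (Fin n → ℝ) :=
    (WithLp.linearEquiv 2 ℝ (Fin n → ℝ))
  let y : U → EuclideanSpace ℝ (Fin n) := fun u => ε.symm (x u)
  let F : EuclideanSpace ℝ (Fin n) → ((Fin n → ℝ) →ₗ[ℝ] ℝ) := fun h =>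
    ((innerSL ℝ h : EuclideanSpace ℝ (Fin n) →L[ℝ] ℝ) : EuclideanSpace ℝ (Fin n) →ₗ[ℝ] ℝ).comp
      (ε.symm : (Fin n → ℝ) →ₗ[ℝ] EuclideanSpace ℝ (Fin n))
  have hF : ∀ h u, F h (x u) = inner ℝ h (y u) := fun h u => rfl
  have hF0 : ∀ h, h ≠ 0 → F h ≠ 0 := by
    intro h hh hz
    apply hh
    have : F h (ε h) = 0 := by rw [hz]; rfl
    have h2 : F h (ε h) = inner ℝ h h := by
      change inner ℝ h (ε.symm (ε h)) = _
      rw [LinearEquiv.symm_apply_apply]
    rw [h2] at this
    exact inner_self_eq_zero.mp this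
  obtain ⟨N, X, G, h1, h2, h3, h4⟩ := Morse.morse_aux (E := EuclideanSpace ℝ (Fin n))
    (finrank_euclideanSpace_fin) hn W y
    (fun Q hQ hQn => (hgp Q hQ hQn).map' (ε.symm : (Fin n → ℝ) →ₗ[ℝ] EuclideanSpace ℝ (Fin n))
      (LinearEquiv.ker _)) m
    (fun h hh hne => by
      simpa only [hF] using hdeep (F h) (hF0 h hh) (fun u hu => by rw [hF]; exact hne u hu))
  refine ⟨N, X, G, fun k => ?_, h2, h3, h4⟩
  obtain ⟨a1, a2, a3, a4, a5, h, a6⟩ := h1 k
  exact ⟨a1, a2, a3, a4, a5, F h, fun u hu => by rw [hF]; exact a6 u hu⟩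

end Pool.Agent.MPa0a351.Top
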