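import Pool.Agent.Lib.MP_a0a351_co.TopG
import Pool.Agent.Lib.MP_a0a351_co.TopB1

/-!
Module B2: the recursion on the rank of one row (REAY, MP_a0a351_co).
-/

set_option autoImplicit false

open Module Finset

namespace Pool.Agent.MPa0a351.Top

namespace TopB2

variable {U : Type*} [LinearOrder U] {T : Finset U} {ρ : ℕ} {μ : ℕ → ℕ}
  {H : Finset U → Set (Finset U) → Prop} {Γ : Set (Finset U)}

/-- The link restricted to `W`. -/
def Rst (Γ : Set (Finset U)) (X W : Finset U) : Set (Finset U) := {M | M ∈ lk X Γ ∧ M ⊆ W}

theorem dnS_lk (hΓ : DnS Γ) (X : Finset U) : DnS (lk X Γ) := by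
  rintro A ⟨hA, hA'⟩ B hB
  exact ⟨Finset.disjoint_of_subset_left hB hA, hΓ _ hA' _ (Finset.union_subset_union_left hB)⟩

theorem dnS_Rst (hΓ : DnS Γ) (X W : Finset U) : DnS (Rst Γ X W) := by
  rintro A ⟨hA, hA'⟩ B hB
  exact ⟨dnS_lk hΓ X A hA B hB, hB.trans hA'⟩

omit [LinearOrder U] in
theorem dnS_pow (G : Finset U) : DnS {L | L ⊆ G} := fun _ hA _ hB => hB.trans hA

omit [LinearOrder U] in
theorem dnS_empty : DnS ({∅} : Set (Finset U)) := by
  intro A hA B hB
  rw [Set.mem_singleton_iff] at hA ⊢
  subst hA
  exact Finset.subset_empty.mp hB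

/-- transfer to a family with the same members inside `T \ X` -/
theorem congr (hH : Rules T ρ μ H) {X : Finset U} (hX : X ⊆ T) {A A' : Set (Finset U)}
    (hA : DnS A) (hA' : DnS A') (h : ∀ L ⊆ T \ X, (L ∈ A' ↔ L ∈ A)) (hHA : H X A) : H X A' := by
  refine hH.add X hX ∅ (Finset.empty_subset _) ∅ A' A (by intro _ h; exact absurd h (Set.notMem_empty _))
    hA' hA ?_ (Set.notMem_empty _) (hH.void X hX) (by rwa [Finset.union_empty])
  intro L hL
  rw [h L hL]
  simp

/-- adding free faces -/
theorem free_completion (hH : Rules T ρ μ H) {X W : Finset U} (hX : X ⊆ T) (hW : W ⊆ T \ X)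
    {A : Set (Finset U)} (hA : DnS A) (hHA : H X A) :
    ∀ (n : ℕ) (A' : Set (Finset U)), DnS A' → A ⊆ A' → (∀ L ∈ A', L ⊆ W) →
      (∀ L ∈ A', L ∉ A → ρ ≤ (X ∪ L).card) →
      (open Classical in (W.powerset.filter (fun L => L ∈ A' ∧ L ∉ A)).card = n) → H X A' := by
  classical
  intro n
  induction n with
  | zero =>
    intro A' hA' hAA' hW' hfree hn
    have : A' = A := by
      refine Set.Subset.antisymm (fun L hL => ?_) hAA'
      by_contra hLA
      have : L ∈ W.powerset.filter (fun L => L ∈ A' ∧ L ∉ A) :=
        Finset.mem_filter.mpr ⟨Finset.mem_powerset.mpr (hW' L hL), hL, hLA⟩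
      rw [Finset.card_eq_zero] at hn
      rw [hn] at this
      exact absurd this (Finset.notMem_empty _)
    rw [this]
    exact hHA
  | succ n ih =>
    intro A' hA' hAA' hW' hfree hn
    have hne : (W.powerset.filter (fun L => L ∈ A' ∧ L ∉ A)).Nonempty := by
      rw [← Finset.card_pos]
      omega
    obtain ⟨L, hL, hmax⟩ := Finset.exists_max_image _ Finset.card hne
    obtain ⟨hLW, hLA', hLA⟩ := Finset.mem_filter.mp hL
    have hLW' := Finset.mem_powerset.mp hLW
    set A'' : Set (Finset U) := {M | M ∈ A' ∧ M ≠ L} with hA''
    have hA''d : DnS A'' := by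
      rintro M ⟨hM, hML⟩ M' hM'
      refine ⟨hA' M hM M' hM', ?_⟩
      rintro rfl
      by_cases hMA : M ∈ A
      · exact hLA (hA M hMA _ hM')
      · have h1 := hmax M (Finset.mem_filter.mpr ⟨Finset.mem_powerset.mpr (hW' M hM), hM, hMA⟩)
        exact hML (Finset.eq_of_subset_of_card_le hM' h1).symm
    have hHA'' : H X A'' := by
      refine ih A'' hA''d ?_ (fun M hM => hW' M hM.1) (fun M hM => hfree M hM.1) ?_
      · intro M hM
        refine ⟨hAA' hM, ?_⟩
        rintro rfl
        exact hLA hM
      · have : W.powerset.filter (fun M => M ∈ A'' ∧ M ∉ A) =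
            (W.powerset.filter (fun M => M ∈ A' ∧ M ∉ A)).erase L := by
          ext M
          simp only [Finset.mem_filter, Finset.mem_erase, hA'', Set.mem_ofPred_eq]
          tauto
        have h' : (W.powerset.filter (fun M => M ∈ A'' ∧ M ∉ A)).card = n := by
          rw [this, Finset.card_erase_of_mem hL, hn]
          rfl
        convert h'
    have hLT : L ⊆ T \ X := hLW'.trans hW
    refine hH.add X hX L hLT A'' A' {∅} hA''d hA' dnS_empty ?_ (fun h => h.2 rfl) hHA'' ?_
    · intro M hM
      constructor
      · intro hMA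
        by_cases hML : M = L
        · right
          subst hML
          exact ⟨Finset.Subset.refl _, by simp⟩
        · left
          exact ⟨hMA, hML⟩
      · rintro (h | ⟨h1, h2⟩)
        · exact h.1
        · rw [Set.mem_singleton_iff, Finset.sdiff_eq_empty_iff_subset] at h2
          rw [Finset.Subset.antisymm h2 h1]
          exact hLA'
    · refine hH.free _ (Finset.union_subset hX (hLT.trans Finset.sdiff_subset)) (hfree L hLA' hLA) _
        dnS_empty

theorem addOne (hΓ : DnS Γ) (hH : Rules T ρ μ H) {X W : Finset U} (hX : X ⊆ T) {b : U}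
    (hb : b ∈ T \ X) (hbW : b ∉ W) (h1 : H X (Rst Γ X W))
    (h2 : H (X ∪ {b}) (Rst Γ (X ∪ {b}) W)) : H X (Rst Γ X (insert b W)) := by
  refine hH.add X hX {b} (Finset.singleton_subset_iff.mpr hb) (Rst Γ X W) _ (Rst Γ (X ∪ {b}) W)
    (dnS_Rst hΓ _ _) (dnS_Rst hΓ _ _) (dnS_Rst hΓ _ _) ?_ ?_ h1 h2
  · intro L hL
    have hbX : b ∉ X := (Finset.mem_sdiff.mp hb).2
    have hLX : Disjoint L X := by
      rw [Finset.disjoint_left]
      intro u hu
      exact (Finset.mem_sdiff.mp (hL hu)).2
    constructor
    · rintro ⟨⟨-, hLΓ⟩, hLW⟩
      by_cases hbL : b ∈ L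
      · right
        refine ⟨Finset.singleton_subset_iff.mpr hbL, ⟨?_, ?_⟩, ?_⟩
        · rw [Finset.disjoint_left]
          intro u hu hu'
          rw [Finset.mem_sdiff, Finset.mem_singleton] at hu
          rcases Finset.mem_union.mp hu' with h | h
          · exact Finset.disjoint_left.mp hLX hu.1 h
          · exact hu.2 (Finset.mem_singleton.mp h)
        · have : L \ {b} ∪ (X ∪ {b}) = L ∪ X := by
            ext u
            simp only [Finset.mem_union, Finset.mem_sdiff, Finset.mem_singleton]
            constructor
            · rintro (h | h | rfl)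
              · exact Or.inl h.1
              · exact Or.inr h
              · exact Or.inl hbL
            · rintro (h | h)
              · by_cases hub : u = b
                · exact Or.inr (Or.inr hub)
                · exact Or.inl ⟨h, hub⟩
              · exact Or.inr (Or.inl h)
          rw [this]
          exact hLΓ
        · intro u hu
          rw [Finset.mem_sdiff, Finset.mem_singleton] at hu
          rcases Finset.mem_insert.mp (hLW hu.1) with h | h
          · exact absurd h hu.2
          · exact h
      · left
        refine ⟨⟨hLX, hLΓ⟩, ?_⟩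
        intro u hu
        rcases Finset.mem_insert.mp (hLW hu) with h | h
        · subst h
          exact absurd hu hbL
        · exact h
    · rintro (⟨h1, h2⟩ | ⟨h1, ⟨-, h3⟩, h4⟩)
      · exact ⟨h1, h2.trans (Finset.subset_insert _ _)⟩
      · rw [Finset.singleton_subset_iff] at h1
        refine ⟨⟨hLX, hΓ _ h3 _ ?_⟩, ?_⟩
        · intro u hu
          simp only [Finset.mem_union, Finset.mem_sdiff, Finset.mem_singleton] at hu ⊢
          rcases hu with h | h
          · by_cases hub : u = b
            · exact Or.inr (Or.inr hub)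
            · exact Or.inl ⟨h, hub⟩
          · exact Or.inr (Or.inl h)
        · intro u hu
          by_cases hub : u = b
          · subst hub
            exact Finset.mem_insert_self _ _
          · exact Finset.mem_insert_of_mem (h4 (Finset.mem_sdiff.mpr ⟨hu, by simpa using hub⟩))
  · rintro ⟨-, h⟩
    exact hbW (Finset.singleton_subset_iff.mp h)

theorem addMany (hΓ : DnS Γ) (hH : Rules T ρ μ H) {X W₀ : Finset U} (hX : X ⊆ T)
    (h0 : H X (Rst Γ X W₀)) (S : Finset U) :
    Disjoint S W₀ → S ⊆ T \ X → (∀ b ∈ S, ∀ W', W₀ ⊆ W' → W' ⊆ W₀ ∪ S → b ∉ W' →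
      H (X ∪ {b}) (Rst Γ (X ∪ {b}) W')) → H X (Rst Γ X (W₀ ∪ S)) := by
  induction S using Finset.induction_on with
  | empty =>
    intro _ _ _
    rw [Finset.union_empty]
    exact h0
  | insert b S hb ih =>
    intro hd hS h
    rw [Finset.disjoint_insert_left] at hd
    have hbT : b ∈ T \ X := hS (Finset.mem_insert_self _ _)
    have h1 := ih hd.2 ((Finset.subset_insert _ _).trans hS) (fun b' hb' W' h1 h2 h3 =>
      h b' (Finset.mem_insert_of_mem hb') W' h1 (h2.trans
        (Finset.union_subset_union_right (Finset.subset_insert _ _))) h3)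
    rw [Finset.union_insert]
    have hb' : b ∉ W₀ ∪ S := by
      rw [Finset.mem_union, not_or]
      exact ⟨hd.1, hb⟩
    refine addOne hΓ hH hX hbT hb' h1 ?_
    exact h b (Finset.mem_insert_self _ _) _ Finset.subset_union_left
      (Finset.union_subset_union_right (Finset.subset_insert _ _)) hb'

theorem leafR (hΓ : DnS Γ) (hH : Rules T ρ μ H) {X G : Finset U} (hX : X ⊆ T)
    (hXc : X.card < ρ) (hG : G ⊆ T \ X) (hGl : G ∈ lk X Γ) (hμG : μ X.card ≤ G.card) :
    H X (Rst Γ X G) := by
  refine congr hH hX (dnS_pow G) (dnS_Rst hΓ _ _) ?_ (hH.leaf X hX hXc G hG hμG)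
  intro L _
  constructor
  · rintro ⟨-, h⟩
    exact h
  · intro h
    exact ⟨dnS_lk hΓ X G hGl L h, h⟩

theorem anti {μ : ℕ → ℕ} (hμ : ∀ i, μ (i + 1) ≤ μ i - 1) {i j : ℕ} (hij : i ≤ j) : μ j ≤ μ i := by
  induction j, hij using Nat.le_induction with
  | base => exact le_rfl
  | succ j _ ih => exact (hμ j).trans ((Nat.sub_le _ _).trans ih)

end TopB2

open TopB2

theorem geo {U : Type*} [LinearOrder U] {ρ : ℕ} (_hρ : 1 ≤ ρ) {T : Finset U}
    {Γ : Set (Finset U)} (hΓ : Row ρ T Γ)
    (hT : ρ ≤ T.card) {μ : ℕ → ℕ} (hμ : ∀ i, μ (i + 1) ≤ μ i - 1)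
    (hnum : μ 0 ≤ ρ ∨ ∀ i < ρ, ∑ l ∈ range i, (μ l - 1) + 2 * μ i ≤ T.card + 1)
    {H : Finset U → Set (Finset U) → Prop} (hH : Rules T ρ μ H) : H ∅ Γ := by
  classical
  have hd : DnS Γ := hΓ.1
  have key : ∀ n : ℕ, ∀ X ⊆ T, X ∈ Γ → X.card + n = ρ → ∀ W ⊆ T \ X, n ≤ W.card →
      (μ X.card ≤ n ∨ ∀ j, X.card ≤ j → j < ρ →
        ∑ l ∈ Ico X.card j, (μ l - 1) + 2 * μ j ≤ W.card + 1) → H X (Rst Γ X W) := by
    intro n
    induction n with
    | zero =>
      intro X hX hXΓ hXc W hW _ _
      exact hH.free X hX (by omega) _ (dnS_Rst hd _ _)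
    | succ n ih =>
      intro X hX hXΓ hXc W hW hWc hcond
      have hXρ : X.card < ρ := by omega
      have hlink : Row (n + 1) (T \ X) (lk X Γ) := by
        have := hΓ.link hXΓ hX
        have h1 : ρ - X.card = n + 1 := by omega
        rwa [h1] at this
      -- one more element
      have hone : ∀ b ∈ T \ X, X ∪ {b} ⊆ T ∧ X ∪ {b} ∈ Γ ∧ (X ∪ {b}).card = X.card + 1 := by
        intro b hb
        have hbX : b ∉ X := (Finset.mem_sdiff.mp hb).2
        refine ⟨Finset.union_subset hX (Finset.singleton_subset_iff.mpr
          (Finset.mem_sdiff.mp hb).1), ?_, ?_⟩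
        · have h1 := hlink.small (L := {b}) (Finset.singleton_subset_iff.mpr hb) (by simp)
          rw [Finset.union_comm]
          exact h1.2
        · rw [Finset.card_union_of_disjoint (Finset.disjoint_singleton_right.mpr hbX),
            Finset.card_singleton]
      -- the induction hypothesis for one more element
      have hstep : ∀ b ∈ T \ X, ∀ W' ⊆ T \ X, b ∉ W' → n ≤ W'.card →
          (μ (X.card + 1) ≤ n ∨ ∀ j, X.card + 1 ≤ j → j < ρ →
            ∑ l ∈ Ico (X.card + 1) j, (μ l - 1) + 2 * μ j ≤ W'.card + 1) →
          H (X ∪ {b}) (Rst Γ (X ∪ {b}) W') := by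
        intro b hb W' hW' hbW' hWc' hcond'
        obtain ⟨h1, h2, h3⟩ := hone b hb
        refine ih (X ∪ {b}) h1 h2 (by omega) W' ?_ hWc' (by rwa [h3])
        intro u hu
        have := Finset.mem_sdiff.mp (hW' hu)
        rw [Finset.mem_sdiff, Finset.mem_union, not_or]
        refine ⟨this.1, this.2, ?_⟩
        rw [Finset.mem_singleton]
        rintro rfl
        exact hbW' hu
      by_cases hP : μ X.card ≤ n + 1
      · -- case (P)
        obtain ⟨G, hGW, hGc⟩ := Finset.exists_subset_card_eq hWc
        have hGl : G ∈ lk X Γ := hlink.small (hGW.trans hW) (by omega)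
        have h0 := leafR hd hH hX hXρ (hGW.trans hW) hGl (by omega)
        have h1 := addMany hd hH hX h0 (W \ G) Finset.sdiff_disjoint
          (Finset.sdiff_subset.trans hW) ?_
        · rwa [Finset.union_sdiff_of_subset hGW] at h1
        · intro b hb W' hGW' hW'W hbW'
          have hb' : b ∈ T \ X := hW (Finset.mem_sdiff.mp hb).1
          have hW'T : W' ⊆ T \ X := by
            refine hW'W.trans ?_
            rw [Finset.union_sdiff_of_subset hGW]
            exact hW
          have h2 := Finset.card_le_card hGW'
          refine hstep b hb' W' hW'T hbW' (by omega) (Or.inl ?_)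
          have := hμ X.card
          omega
      · -- case (Q)
        push Not at hP
        have hQ : ∀ j, X.card ≤ j → j < ρ →
            ∑ l ∈ Ico X.card j, (μ l - 1) + 2 * μ j ≤ W.card + 1 := by
          rcases hcond with h | h
          · omega
          · exact h
        have hQi := hQ X.card le_rfl hXρ
        rw [Finset.Ico_self, Finset.sum_empty, zero_add] at hQi
        obtain ⟨-, x, hgp, hpt⟩ := hlink
        by_cases hdeep : ∀ h : (Fin (n + 1) → ℝ) →ₗ[ℝ] ℝ, h ≠ 0 → (∀ u ∈ W, h (x u) ≠ 0) →
            μ X.card ≤ (W.filter (fun u => 0 < h (x u))).card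
        · -- deep case
          obtain ⟨N, Xs, G, hXG, hall, hdn, hnew⟩ := morse (by omega) W x
            (fun Q hQW hQc => hgp Q (hQW.trans hW) hQc) (μ X.card) hdeep
          let A : ℕ → Set (Finset U) := fun m => {L | ∃ k : Fin N, k.val < m ∧ Xs k ⊆ L ∧
            L ⊆ Xs k ∪ G k}
          have hAd : ∀ m, DnS (A m) := by
            rintro m L ⟨k, hk, hk1, hk2⟩ L' hL'
            rcases hdn k L' (hL'.trans hk2) with h | ⟨k', hk', h1, h2⟩
            · exact ⟨k, hk, h, hL'.trans hk2⟩
            · exact ⟨k', lt_trans (Fin.lt_def.mp hk') hk, h1, h2⟩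
          have hAH : ∀ m ≤ N, H X (A m) := by
            intro m
            induction m with
            | zero =>
              intro _
              have : A 0 = ∅ := by
                ext L
                simp [A]
              rw [this]
              exact hH.void X hX
            | succ m ihm =>
              intro hm
              let k : Fin N := ⟨m, by omega⟩
              obtain ⟨h1, h2, h3, h4, h5, -⟩ := hXG k
              have hXk : Xs k ⊆ T \ X := h1.trans hW
              have hdisj : Disjoint X (Xs k) := by
                rw [Finset.disjoint_right]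
                intro u hu
                exact (Finset.mem_sdiff.mp (hXk hu)).2
              have hcard : (X ∪ Xs k).card = X.card + (Xs k).card :=
                Finset.card_union_of_disjoint hdisj
              refine hH.add X hX (Xs k) hXk (A m) (A (m + 1)) {L | L ⊆ G k} (hAd m) (hAd (m + 1))
                (dnS_pow _) ?_ ?_ (ihm (by omega)) ?_
              · intro L _
                constructor
                · rintro ⟨k', hk', h6, h7⟩
                  by_cases hkk : k'.val < m
                  · exact Or.inl ⟨k', hkk, h6, h7⟩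
                  · right
                    have : k' = k := Fin.ext (by simp only [k]; omega)
                    subst this
                    exact ⟨h6, by
                      rw [Set.mem_ofPred_eq]
                      intro u hu
                      rw [Finset.mem_sdiff] at hu
                      rcases Finset.mem_union.mp (h7 hu.1) with h | h
                      · exact absurd h hu.2
                      · exact h⟩
                · rintro (⟨k', hk', h6, h7⟩ | ⟨h6, h7⟩)
                  · exact ⟨k', by omega, h6, h7⟩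
                  · refine ⟨k, by simp [k], h6, ?_⟩
                    intro u hu
                    by_cases huX : u ∈ Xs k
                    · exact Finset.mem_union_left _ huX
                    · exact Finset.mem_union_right _ (h7 (Finset.mem_sdiff.mpr ⟨hu, huX⟩))
              · rintro ⟨k', hk', h6, h7⟩
                exact hnew k k' (Fin.lt_def.mpr hk') ⟨h6, h7⟩
              · refine hH.leaf _ (Finset.union_subset hX (hXk.trans Finset.sdiff_subset))
                  (by omega) _ ?_ ?_
                · intro u hu
                  have hu' := Finset.mem_sdiff.mp (hW (h3 hu))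
                  rw [Finset.mem_sdiff, Finset.mem_union, not_or]
                  exact ⟨hu'.1, hu'.2, fun h => Finset.disjoint_left.mp h4 h hu⟩
                · exact (anti hμ (by omega : X.card ≤ (X ∪ Xs k).card)).trans h5
          refine free_completion hH hX hW (hAd N) (hAH N le_rfl) _ _ (dnS_Rst hd _ _) ?_
            (fun L hL => hL.2) ?_ rfl
          · rintro L ⟨k, -, h6, h7⟩
            obtain ⟨h1, -, h3, h4, h5, h, hh⟩ := hXG k
            have hLW : L ⊆ W := h7.trans (Finset.union_subset h1 h3)
            refine ⟨hpt L (hLW.trans hW) ⟨h, fun u hu => hh u (h7 hu)⟩, hLW⟩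
          · intro L hL hLA
            have h1 : n + 1 ≤ L.card := by
              by_contra hcon
              push Not at hcon
              obtain ⟨k, hk1, hk2⟩ := hall L hL.2 hcon
              exact hLA ⟨k, k.2, hk1, hk2⟩
            have h2 : (X ∪ L).card = X.card + L.card := Finset.card_union_of_disjoint hL.1.1.symm
            omega
        · -- shallow case
          push Not at hdeep
          obtain ⟨h, hh0, hhW, hlt⟩ := hdeep
          set B := W.filter (fun u => 0 < h (x u)) with hB
          set G := W.filter (fun u => ¬ 0 < h (x u)) with hG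
          have hGW : G ⊆ W := Finset.filter_subset _ _
          have hBW : B ⊆ W := Finset.filter_subset _ _
          have hcard : B.card + G.card = W.card := Finset.card_filter_add_card_filter_not _
          have hGl : G ∈ lk X Γ := by
            refine hpt G (hGW.trans hW) ⟨-h, fun u hu => ?_⟩
            obtain ⟨hu1, hu2⟩ := Finset.mem_filter.mp hu
            have := hhW u hu1
            rw [LinearMap.neg_apply]
            push Not at hu2
            have := lt_of_le_of_ne hu2 this
            linarith
          have h0 := leafR hd hH hX hXρ (hGW.trans hW) hGl (by omega)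
          have hGB : G ∪ B = W := by
            rw [Finset.union_comm]
            exact Finset.filter_union_filter_not_eq _ _
          have h1 := addMany hd hH hX h0 B ?_ (hBW.trans hW) ?_
          · rwa [hGB] at h1
          · exact Finset.disjoint_filter_filter_not _ _ _
          · intro b hb W' hGW' hW'W hbW'
            rw [hGB] at hW'W
            have h2 := Finset.card_le_card hGW'
            refine hstep b (hW (hBW hb)) W' (hW'W.trans hW) hbW' (by omega) (Or.inr ?_)
            intro j hj hjρ
            have h3 := hQ j (by omega) hjρ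
            rw [Finset.sum_eq_sum_Ico_succ_bot (by omega)] at h3
            omega
  have hemp : (∅ : Finset U) ∈ Γ := hΓ.small (Finset.empty_subset _) (by simp)
  have h1 := key ρ ∅ (Finset.empty_subset _) hemp (by simp) T (by simp) hT (by
    rcases hnum with h | h
    · left
      simpa using h
    · right
      intro j _ hj
      have := h j hj
      simpa using this)
  refine congr hH (Finset.empty_subset _) (dnS_Rst hd _ _) hd ?_ h1
  intro L hL
  rw [Finset.sdiff_empty] at hL
  simp only [Rst, lk, Set.mem_ofPred_eq, Finset.disjoint_empty_right, Finset.union_empty, true_and]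
  tauto

end Pool.Agent.MPa0a351.Top
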