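import Pool.Agent.Lib.MP_a0a351_co.TopDefs

/-!
REAY (MP_a0a351_co), module B3: the bound `phi` and the inequality (N) of Theorem F.
-/

set_option autoImplicit false

open Finset

namespace Pool.Agent.MPa0a351.Top

/-- `phi` dominates the identity. -/
theorem phi_ge {c D : ℕ} (hc : 1 ≤ c) : D ≤ phi c D := by
  unfold phi
  split_ifs with h
  · exact le_rfl
  · push Not at h
    obtain ⟨x, rfl⟩ : ∃ x, D = c + x :=
      ⟨D - c, by nlinarith [Nat.sub_add_cancel (show c ≤ D by nlinarith)]⟩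
    rw [Nat.add_sub_cancel_left]
    have hx : c * (c + 1) ≤ x := by nlinarith
    have : x ≤ x * (x + 1) / (c * (c + 1)) := by
      rw [Nat.le_div_iff_mul_le (by positivity)]
      nlinarith
    omega

theorem phi_mono {c : ℕ} (hc : 1 ≤ c) : Monotone (phi c) := by
  refine monotone_nat_of_le_succ fun D => ?_
  by_cases h : D + 1 < c * (c + 2)
  · unfold phi
    rw [if_pos h, if_pos (by omega)]
    omega
  · by_cases h' : D < c * (c + 2)
    · refine le_trans ?_ (phi_ge (D := D + 1) hc)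
      unfold phi
      rw [if_pos h']
      omega
    · unfold phi
      rw [if_neg h, if_neg h']
      have : (D - c) * (D - c + 1) / (c * (c + 1))
          ≤ (D + 1 - c) * (D + 1 - c + 1) / (c * (c + 1)) :=
        Nat.div_le_div_right (Nat.mul_le_mul (by omega) (by omega))
      omega

/-- the LP bound is at most `phi` -/
theorem le_phi {c D m : ℕ} (hc : 1 ≤ c) (hcD : c ≤ D)
    (h : (m - c) * (c * (c + 1)) ≤ (D + 1 - c) * (D - c)) : m ≤ phi c D := by
  obtain ⟨x, rfl⟩ := Nat.exists_eq_add_of_le hcD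
  have e1 : c + x + 1 - c = x + 1 := by omega
  have e2 : c + x - c = x := by omega
  rw [e1, e2] at h
  unfold phi
  rw [e2]
  split_ifs with hD
  · have hx : x + 1 ≤ c * (c + 1) := by nlinarith
    have : m - c ≤ x := by
      by_contra hcon
      push Not at hcon
      nlinarith
    omega
  · have : m - c ≤ x * (x + 1) / (c * (c + 1)) := by
      rw [Nat.le_div_iff_mul_le (by positivity)]
      linarith
    omega

namespace TopB3

theorem phi_lower (c x : ℕ) : c + x * (x + 1) / (c * (c + 1)) ≤ phi c (c + x) := by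
  unfold phi
  split_ifs with h
  · have hx : x + 1 ≤ c * (c + 1) := by nlinarith
    have : x * (x + 1) / (c * (c + 1)) ≤ x := by
      refine Nat.div_le_of_le_mul ?_
      nlinarith
    omega
  · rw [Nat.add_sub_cancel_left]

/-- The polynomial inequality (N), multiplied by `6`. -/
theorem ineqN {c k ρ x : ℤ} (hk : 1 ≤ k) (hkρ : k ≤ ρ) (hρc : ρ ≤ c) (hx : c * (c + 1) ≤ x) :
    0 ≤ 6 * (c * (c + 1)) * (c - 1) + 6 * x * (x + 1)
      - 3 * (2 * x + 1) * (ρ * (ρ + 1) - k * (k + 1))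
      + (ρ * (ρ + 1) * (2 * ρ + 1) - k * (k + 1) * (2 * k + 1))
      + 3 * (c * (c + 1)) * ((ρ - k) * (ρ - k - 1))
      - 12 * (k * (2 * x + 1 - k)) + 12 * (c * (c + 1)) * (ρ - k) + 12 := by
  have hc : 1 ≤ c := by linarith
  have hQ : 0 ≤ c * (c + 1) := by positivity
  -- replace `ρ` by `c`
  have h1 : 0 ≤ (c - ρ) * (6 * x * (c + ρ) + 6 * x + 2 - 2 * (c ^ 2 + c * ρ + ρ ^ 2)) := by
    refine mul_nonneg (by linarith) ?_
    have h2 : c * ρ ≤ c * c := mul_le_mul_of_nonneg_left hρc (by linarith)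
    have h3 : ρ ^ 2 ≤ c ^ 2 := by nlinarith
    have h4 : c * c ≤ x := by nlinarith
    have h5 : x * 1 ≤ x * (c + ρ) := mul_le_mul_of_nonneg_left (by linarith) (by nlinarith)
    nlinarith
  have h2 : 0 ≤ 3 * (c * (c + 1)) * ((ρ - k) * (ρ - k - 1)) := by
    refine mul_nonneg (by linarith) ?_
    rcases eq_or_lt_of_le hkρ with h | h
    · rw [h]; simp
    · exact mul_nonneg (by linarith) (by linarith)
  have h3 : 0 ≤ 12 * (c * (c + 1)) * (ρ - k) := mul_nonneg (by linarith) (by linarith)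
  -- the case `ρ = c`
  have h4 : 0 ≤ (x - c * (c + 1)) * (x - 1) := by
    refine mul_nonneg (by linarith) ?_
    nlinarith
  have h5 : 0 ≤ (k - 1) * (k - 2) * (x - k * (k + 1)) := by
    refine mul_nonneg ?_ ?_
    · rcases eq_or_lt_of_le hk with h | h
      · rw [← h]; simp
      · exact mul_nonneg (by linarith) (by linarith)
    · have : k * (k + 1) ≤ c * (c + 1) := by nlinarith
      linarith
  have h6 : 0 ≤ k * (k - 1) * (3 * (k + 1) * (k - 2) - (k - 5)) := by
    rcases eq_or_lt_of_le hk with h | h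
    · rw [← h]; norm_num
    · refine mul_nonneg (mul_nonneg (by linarith) (by linarith)) ?_
      nlinarith
  have h7 : 0 ≤ c * (c + 1) * (8 * c - 14) + 12 := by
    rcases eq_or_lt_of_le hc with h | h
    · rw [← h]; norm_num
    · have : 0 ≤ c * (c + 1) * (8 * c - 14) := mul_nonneg hQ (by linarith)
      linarith
  nlinarith

section

variable {c x t δ ρ : ℕ} (hc : 1 ≤ c) (hρc : ρ ≤ c) (hx : c * (c + 1) ≤ x)
  (ht : t + δ = c + x * (x + 1) / (c * (c + 1))) {μ : ℕ → ℕ}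
  (hμ : ∀ i, μ i = t - i - phi c (c + x + i - ρ))

include hc hρc hx ht hμ

/-- The upper bound for `μ`. -/
theorem mu_le {i : ℕ} (hi : i < ρ) (h1 : 1 ≤ μ i) :
    (c * (c + 1) : ℤ) * (μ i - 1) ≤ (ρ - i) * (2 * x + 1 - (ρ - i))
        - c * (c + 1) * δ - c * (c + 1) * i - 1 := by
  have hix : ρ - i ≤ x := by nlinarith [Nat.sub_le ρ i]
  obtain ⟨y, hy⟩ : ∃ y, x = y + (ρ - i) := ⟨x - (ρ - i), by omega⟩
  have hi' : c + x + i - ρ = c + y := by omega
  have hmu := hμ i
  rw [hi'] at hmu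
  have hPge := phi_lower c y
  set P : ℕ := phi c (c + y) with hP
  have hQ : 0 < c * (c + 1) := by positivity
  have hd1 : c * (c + 1) * (x * (x + 1) / (c * (c + 1))) ≤ x * (x + 1) := Nat.mul_div_le _ _
  have hd2 : y * (y + 1) < c * (c + 1) * (y * (y + 1) / (c * (c + 1)) + 1) :=
    Nat.lt_mul_div_succ _ hQ
  set D1 : ℕ := x * (x + 1) / (c * (c + 1)) with hD1
  set D2 : ℕ := y * (y + 1) / (c * (c + 1)) with hD2
  have hμz : (μ i : ℤ) = t - i - P := by omega
  have hyz : (y : ℤ) = x - (ρ - i) := by omega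
  zify at hd1 hd2 hPge ht hQ
  have e1 : (μ i : ℤ) - 1 ≤ D1 - D2 - δ - i - 1 := by rw [hμz]; linarith
  have e2 := mul_le_mul_of_nonneg_left e1 hQ.le
  rw [hyz] at hd2
  nlinarith

/-- The bound for the partial sums, multiplied by `6 c (c + 1)`. -/
theorem sum_le (hdec : ∀ i, μ (i + 1) ≤ μ i - 1) (i : ℕ) (hi : i < ρ) (h1 : 1 ≤ μ i) :
    6 * (c * (c + 1) : ℤ) * ((∑ l ∈ range i, (μ l - 1) : ℕ) : ℤ)
      ≤ 3 * (2 * x + 1) * (ρ * (ρ + 1) - (ρ - i) * (ρ - i + 1))
      - (ρ * (ρ + 1) * (2 * ρ + 1) - (ρ - i) * (ρ - i + 1) * (2 * (ρ - i) + 1))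
      - 3 * (c * (c + 1)) * (i * (i - 1)) - 6 * (c * (c + 1)) * δ * i - 6 * i := by
  induction i with
  | zero => simp
  | succ i ih =>
    have h2 : 1 ≤ μ i := by have := hdec i; omega
    have ih' := ih (by omega) h2
    have hm := mu_le hc hρc hx ht hμ (show i < ρ by omega) h2
    rw [sum_range_succ]
    have e1 : ((∑ l ∈ range i, (μ l - 1) + (μ i - 1) : ℕ) : ℤ)
        = ((∑ l ∈ range i, (μ l - 1) : ℕ) : ℤ) + (μ i - 1) := by
      push_cast [h2]
      rfl
    rw [e1, mul_add]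
    push_cast
    push_cast at ih'
    nlinarith

/-- The inequality for `μ i ≥ 1`. -/
theorem main (hdec : ∀ i, μ (i + 1) ≤ μ i - 1) {i : ℕ} (hi : i < ρ) (h1 : 1 ≤ μ i) :
    ∑ l ∈ range i, (μ l - 1) + 2 * μ i ≤ t + 1 := by
  have hs := sum_le hc hρc hx ht hμ hdec i hi h1
  have hm := mu_le hc hρc hx ht hμ hi h1
  set S : ℕ := ∑ l ∈ range i, (μ l - 1) with hS
  have hQ : 0 < c * (c + 1) := by positivity
  have hd1 : x * (x + 1) < c * (c + 1) * (x * (x + 1) / (c * (c + 1)) + 1) :=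
    Nat.lt_mul_div_succ _ hQ
  set D1 : ℕ := x * (x + 1) / (c * (c + 1)) with hD1
  by_contra hcon
  push Not at hcon
  zify at hcon hd1 ht hQ hi hρc hx
  have hN := ineqN (c := c) (k := ρ - i) (ρ := ρ) (x := x) (by linarith)
    (by have : (0 : ℤ) ≤ i := Int.natCast_nonneg _
        linarith) hρc hx
  have hδ : (0 : ℤ) ≤ δ := Int.natCast_nonneg _
  have hi0 : (0 : ℤ) ≤ i := Int.natCast_nonneg _
  have hδ' : 0 ≤ (c * (c + 1) : ℤ) * δ := mul_nonneg hQ.le hδ
  have hδ'' : 0 ≤ (c * (c + 1) : ℤ) * δ * i := mul_nonneg hδ' hi0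
  have e3 : (1 : ℤ) ≤ S + 2 * (μ i - 1) - t + 1 := by linarith
  have e4 := mul_le_mul_of_nonneg_left e3 hQ.le
  have e5 : (c * (c + 1) : ℤ) * (t + δ) = c * (c + 1) * (c + D1) := by rw [ht]
  nlinarith

end

end TopB3

open TopB3 in
theorem num {c D ρ t : ℕ} (hc : 1 ≤ c) (hρ : 1 ≤ ρ) (hρc : ρ ≤ c) (ht : t ≤ phi c D)
    (hρt : ρ < t) (μ : ℕ → ℕ) (hμ : ∀ i, μ i = t - i - phi c (D + i - ρ)) :
    (∀ i, μ (i + 1) ≤ μ i - 1) ∧
    (μ 0 ≤ ρ ∨ ∀ i < ρ, ∑ l ∈ range i, (μ l - 1) + 2 * μ i ≤ t + 1) := by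
  have hdec : ∀ i, μ (i + 1) ≤ μ i - 1 := by
    intro i
    have h1 := hμ i
    have h2 := hμ (i + 1)
    have h3 : phi c (D + i - ρ) ≤ phi c (D + (i + 1) - ρ) := phi_mono hc (by omega)
    omega
  refine ⟨hdec, ?_⟩
  by_cases hD : D < c * (c + 2)
  · left
    have h1 : phi c D = D := by unfold phi; rw [if_pos hD]
    have h2 := phi_ge (D := D + 0 - ρ) hc
    have h3 := hμ 0
    omega
  · right
    push Not at hD
    obtain ⟨x, rfl⟩ : ∃ x, D = c + x := ⟨D - c, by
      have : c ≤ D := by nlinarith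
      omega⟩
    have hx : c * (c + 1) ≤ x := by nlinarith
    have h1 : phi c (c + x) = c + x * (x + 1) / (c * (c + 1)) := by
      unfold phi
      rw [if_neg (by omega), Nat.add_sub_cancel_left]
    rw [h1] at ht
    obtain ⟨δ, hδ⟩ : ∃ δ, t + δ = c + x * (x + 1) / (c * (c + 1)) := ⟨_, Nat.add_sub_of_le ht⟩
    intro i
    induction i with
    | zero =>
      intro hi
      rcases Nat.eq_zero_or_pos (μ 0) with h0 | h0
      · rw [h0]; simp
      · exact main hc hρc hx hδ hμ hdec hi h0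
    | succ i ih =>
      intro hi
      rcases Nat.eq_zero_or_pos (μ (i + 1)) with h0 | h0
      · have := ih (by omega)
        rw [h0, sum_range_succ]
        omega
      · exact main hc hρc hx hδ hμ hdec hi h0

end Pool.Agent.MPa0a351.Top
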