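import Pool.Agent.Lib.MP_a0a351_co.TopDefs

/-!
Geometry of rows: restriction, small sets, links (MP_a0a351_co, S10471).
-/

set_option autoImplicit false

open Module Finset

namespace Pool.Agent.MPa0a351.Top

namespace TopG

theorem eps_exists {U : Type*} [DecidableEq U] (L : Finset U) (a b : U → ℝ)
    (ha : ∀ u ∈ L, 0 < a u) : ∃ ε : ℝ, 0 < ε ∧ ∀ δ, 0 < δ → δ ≤ ε → ∀ u ∈ L, 0 < a u + δ * b u := by
  induction L using Finset.induction_on with
  | empty => exact ⟨1, one_pos, fun δ _ _ u hu => absurd hu (notMem_empty u)⟩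
  | insert v L hv ih =>
    obtain ⟨ε, hε, h⟩ := ih (fun u hu => ha u (mem_insert_of_mem hu))
    have hav : 0 < a v := ha v (mem_insert_self v L)
    have hb : 0 < |b v| + 1 := by positivity
    refine ⟨min ε (a v / (|b v| + 1)), lt_min hε (div_pos hav hb), fun δ hδ hδ2 u hu => ?_⟩
    rcases mem_insert.mp hu with h' | h'
    · rw [h']
      have h1 : δ ≤ a v / (|b v| + 1) := hδ2.trans (min_le_right _ _)
      rw [le_div_iff₀ hb] at h1
      have h2 := neg_abs_le (b v)
      nlinarith
    · exact h δ hδ (hδ2.trans (min_le_left _ _)) u h'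

end TopG

open TopG

section Rows
variable {U J : Type*} [Fintype U] [LinearOrder U] [Fintype J] [DecidableEq J]

omit [Fintype U] [LinearOrder U] in
theorem TopG.exists_one {ρ : ℕ} (x : U → (Fin ρ → ℝ)) (A : Finset U)
    (hA : LinearIndependent ℝ (fun i : A => x i)) :
    ∃ f : (Fin ρ → ℝ) →ₗ[ℝ] ℝ, ∀ a ∈ A, f (x a) = 1 := by
  obtain ⟨f, hf⟩ := LinearMap.exists_extend ((Basis.span hA).constr ℝ (fun _ : A => (1 : ℝ)))
  refine ⟨f, ?_⟩
  intro a ha
  have hmem : x a ∈ Submodule.span ℝ (Set.range (fun i : A => x i)) :=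
    Submodule.subset_span ⟨⟨a, ha⟩, rfl⟩
  have h1 := LinearMap.congr_fun hf ⟨x a, hmem⟩
  rw [LinearMap.comp_apply, Submodule.subtype_apply] at h1
  rw [h1]
  have h2 : (⟨x a, hmem⟩ : Submodule.span ℝ (Set.range (fun i : A => x i))) =
      Basis.span hA ⟨a, ha⟩ := by
    apply Subtype.ext
    rw [Basis.span_apply]
  rw [h2]
  exact Basis.constr_basis _ ℝ _ _

omit [Fintype U] in
theorem Row.mono {ρ : ℕ} {T T' : Finset U} {Γ : Set (Finset U)} (h : Row ρ T Γ) (hT : T' ⊆ T) :
    Row ρ T' Γ := by
  obtain ⟨hdn, x, hx, hpt⟩ := h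
  exact ⟨hdn, x, fun Q hQ => hx Q (hQ.trans hT), fun L hL => hpt L (hL.trans hT)⟩

omit [Fintype U] in
theorem Row.small {ρ : ℕ} {T : Finset U} {Γ : Set (Finset U)} (h : Row ρ T Γ) {L : Finset U}
    (hL : L ⊆ T) (hLc : L.card ≤ ρ) : L ∈ Γ := by
  obtain ⟨hdn, x, hx, hpt⟩ := h
  obtain ⟨f, hf⟩ := exists_one x L (hx L hL hLc)
  refine hpt L hL ⟨f, fun u hu => ?_⟩
  rw [hf u hu]
  exact one_pos

omit [Fintype U] in
theorem Row.link {ρ : ℕ} {T : Finset U} {Γ : Set (Finset U)} (h : Row ρ T Γ) {A : Finset U}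
    (hA : A ∈ Γ) (hAT : A ⊆ T) : Row (ρ - A.card) (T \ A) (lk A Γ) := by
  classical
  obtain ⟨hdn, x, hx, hpt⟩ := h
  refine ⟨?_, ?_⟩
  · rintro M ⟨h1, h2⟩ N hN
    exact ⟨disjoint_of_subset_left hN h1, hdn _ h2 _ (union_subset_union hN (Subset.refl A))⟩
  · rcases le_or_gt ρ A.card with hle | hlt
    · have h0 : ρ - A.card = 0 := Nat.sub_eq_zero_of_le hle
      rw [h0]
      refine ⟨fun _ => 0, ?_, ?_⟩
      · intro Q _ hQc
        have hQ0 : Q = ∅ := card_eq_zero.mp (Nat.le_zero.mp hQc)
        subst hQ0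
        exact linearIndependent_empty_type
      · rintro L _ ⟨k, hk⟩
        have hL0 : L = ∅ := by
          rw [eq_empty_iff_forall_notMem]
          intro u hu
          have h1 := hk u hu
          have h2 : k 0 = 0 := map_zero k
          have h3 : (0 : Fin 0 → ℝ) = (fun _ => (0 : ℝ)) := rfl
          exact absurd h1 (by
            show ¬ 0 < k 0
            rw [h2]
            exact lt_irrefl 0)
        rw [hL0]
        refine ⟨disjoint_empty_left A, ?_⟩
        rw [empty_union]
        exact hA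
    · set W : Submodule ℝ (Fin ρ → ℝ) := Submodule.span ℝ (Set.range (fun i : A => x i)) with hW
      have hAind : LinearIndependent ℝ (fun i : A => x i) := hx A hAT hlt.le
      have hWdim : finrank ℝ W = A.card := by
        rw [hW, finrank_span_eq_card hAind, Fintype.card_coe]
      have hqdim : finrank ℝ ((Fin ρ → ℝ) ⧸ W) = ρ - A.card := by
        have h1 := W.finrank_quotient_add_finrank
        rw [hWdim, finrank_fin_fun] at h1
        omega
      let e := (finBasisOfFinrankEq ℝ ((Fin ρ → ℝ) ⧸ W) hqdim).equivFun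
      refine ⟨fun u => e (W.mkQ (x u)), ?_, ?_⟩
      · intro Q hQ hQc
        have hdisj : Disjoint Q A := disjoint_of_subset_left hQ sdiff_disjoint
        have hQT : Q ∪ A ⊆ T := union_subset (hQ.trans sdiff_subset) hAT
        have hind := hx (Q ∪ A) hQT (by rw [card_union_of_disjoint hdisj]; omega)
        have hd := hind.disjoint_span_image (s := {i | (i : U) ∈ Q}) (t := {i | (i : U) ∈ A}) (by
          rw [Set.disjoint_left]
          intro i hi hi'
          exact (disjoint_left.mp hdisj) hi hi')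
        have hQind : LinearIndependent ℝ (fun i : Q => x i) :=
          hx Q (hQ.trans sdiff_subset) (by omega)
        have e1 : (fun i : Q => e (W.mkQ (x i))) =
            (e.toLinearMap ∘ₗ W.mkQ) ∘ (fun i : Q => x i) := rfl
        rw [e1]
        refine hQind.map ?_
        have hker : LinearMap.ker (e.toLinearMap ∘ₗ W.mkQ) = W := by
          rw [LinearEquiv.ker_comp, Submodule.ker_mkQ]
        rw [hker]
        have e2 : Set.range (fun i : Q => x i) =
            (fun i : (Q ∪ A : Finset U) => x i) '' {i | (i : U) ∈ Q} := by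
          ext y
          constructor
          · rintro ⟨i, rfl⟩
            exact ⟨⟨i, mem_union_left A i.2⟩, i.2, rfl⟩
          · rintro ⟨i, hi, rfl⟩
            exact ⟨⟨i, hi⟩, rfl⟩
        have e3 : Set.range (fun i : A => x i) =
            (fun i : (Q ∪ A : Finset U) => x i) '' {i | (i : U) ∈ A} := by
          ext y
          constructor
          · rintro ⟨i, rfl⟩
            exact ⟨⟨i, mem_union_right Q i.2⟩, i.2, rfl⟩
          · rintro ⟨i, hi, rfl⟩
            exact ⟨⟨i, hi⟩, rfl⟩
        rw [hW, e2, e3]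
        exact hd
      · rintro L hL ⟨k, hk⟩
        have hdisj : Disjoint L A := disjoint_of_subset_left hL sdiff_disjoint
        refine ⟨hdisj, ?_⟩
        obtain ⟨f, hf1⟩ := exists_one x A hAind
        obtain ⟨ε, hε, hε2⟩ := eps_exists L (fun u => k (e (W.mkQ (x u)))) (fun u => f (x u)) hk
        refine hpt _ (union_subset (hL.trans sdiff_subset) hAT)
          ⟨k ∘ₗ e.toLinearMap ∘ₗ W.mkQ + ε • f, ?_⟩
        intro u hu
        rw [LinearMap.add_apply, LinearMap.smul_apply, smul_eq_mul]
        rcases mem_union.mp hu with h' | h'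
        · exact hε2 ε hε le_rfl u h'
        · have hmem : x u ∈ W := Submodule.subset_span ⟨⟨u, h'⟩, rfl⟩
          have h1 : W.mkQ (x u) = 0 := by
            rw [Submodule.mkQ_apply]
            exact (Submodule.Quotient.mk_eq_zero W).mpr hmem
          rw [LinearMap.comp_apply, LinearMap.comp_apply, h1, map_zero, map_zero, hf1 u h',
            zero_add, mul_one]
          exact hε

end Rows

end Pool.Agent.MPa0a351.Top
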