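import Pool.Agent.Lib.MP_a0a351_co.TopDefs
import Pool.Agent.Lib.MP_a0a351_co.TopA0
import Pool.Agent.Lib.MP_a0a351_co.TopA1
import Pool.Agent.Lib.MP_a0a351_co.TopA3
import Pool.Agent.Lib.MP_a0a351_co.TopG
import Pool.Agent.Lib.MP_a0a351_co.TopB2
import Pool.Agent.Lib.MP_a0a351_co.TopB3

/-!
# Theorem F (MP_a0a351_co, S10471): deleted joins of rows of rank `ρ j ≤ c` on at most `phi c D`
colours are acyclic in all degrees below the top one
-/

set_option autoImplicit false

open Module Finset

namespace Pool.Agent.MPa0a351.Top

section C

variable {U J : Type*} [Fintype U] [LinearOrder U] [Fintype J] [DecidableEq J]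

namespace TopC

omit [Fintype U] [LinearOrder U] in
theorem dnS_empty : DnS ({∅} : Set (Finset U)) := by
  intro A hA B hB
  rw [Set.mem_singleton_iff] at hA ⊢
  subst hA
  exact Finset.subset_empty.mp hB

omit [Fintype U] in
theorem lk_empty {A : Finset U} (hA : A = ∅) : lk A ({∅} : Set (Finset U)) = {∅} := by
  subst hA
  ext M
  simp [lk]

omit [LinearOrder U] [Fintype J] in
theorem sum_sl (g : U → Option J) (R : Finset J) : ∑ j ∈ R, (sl g j).card ≤ (supp g).card := by
  classical
  rw [← Finset.card_biUnion]
  · apply Finset.card_le_card
    intro u hu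
    simp only [mem_biUnion, sl, supp, mem_filter, mem_univ, true_and] at hu ⊢
    obtain ⟨j, _, hj⟩ := hu
    rw [hj]
    rfl
  · intro i _ j _ hij
    rw [Function.onFun, Finset.disjoint_left]
    intro u hi hj
    simp only [sl, mem_filter, mem_univ, true_and] at hi hj
    rw [hi] at hj
    exact hij (Option.some.inj hj)

omit [LinearOrder U] [Fintype J] in
theorem sl_subset (g : U → Option J) (j : J) : sl g j ⊆ supp g := by
  intro u hu
  simp only [sl, supp, mem_filter, mem_univ, true_and] at hu ⊢
  rw [hu]
  rfl

theorem phi_zero {c : ℕ} (hc : 1 ≤ c) : phi c 0 = 0 := by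
  have : 0 < c * (c + 2) := by positivity
  simp [phi, this]

omit [DecidableEq J] in
theorem ac_zero (K : Set (U → Option J)) {t : ℕ} (ht : t = 0) : Ac K t := by
  intro n hn
  omega

end TopC

open TopC in
/-- Theorem F. -/
theorem thmF {c : ℕ} (hc : 1 ≤ c) (R₀ : Finset J) (Γ : J → Set (Finset U)) (T : Finset U)
    (hR : ∀ j, j ∉ R₀ → Γ j = {∅}) (ρ : J → ℕ) (hρ : ∀ j, ρ j ≤ c)
    (hΓ : ∀ j ∈ R₀, Row (ρ j) T (Γ j)) (D : ℕ) (hD : T.card + D ≤ ∑ j ∈ R₀, ρ j + 1)
    (ht : T.card ≤ phi c D) : Ac (DJ Γ T) T.card := by
  obtain ⟨n, hn⟩ : ∃ n, R₀.card = n := ⟨_, rfl⟩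
  induction n generalizing R₀ Γ T ρ D with
  | zero =>
    rw [Finset.card_eq_zero] at hn
    subst hn
    rw [Finset.sum_empty] at hD
    by_cases hT0 : T.card = 0
    · rw [hT0]
      exact ac_zero _ rfl
    · have hD0 : D = 0 := by omega
      rw [hD0, phi_zero hc] at ht
      omega
  | succ n ih =>
    by_cases hT0 : T.card = 0
    · rw [hT0]
      exact ac_zero _ rfl
    have hD1 : 1 ≤ D := by
      by_contra h
      have hD0 : D = 0 := by omega
      rw [hD0, phi_zero hc] at ht
      omega
    obtain ⟨s, hs, hs1⟩ : ∃ s ∈ R₀, 1 ≤ ρ s := by
      by_contra h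
      push Not at h
      have : ∑ j ∈ R₀, ρ j = 0 := Finset.sum_eq_zero fun j hj => by
        have := h j hj
        omega
      omega
    have hdn : ∀ j, DnS (Γ j) := by
      intro j
      by_cases hj : j ∈ R₀
      · exact (hΓ j hj).1
      · rw [hR j hj]
        exact dnS_empty
    have hcard : (R₀.erase s).card = n := by
      rw [Finset.card_erase_of_mem hs, hn]
      rfl
    have hsum : ∑ j ∈ R₀.erase s, ρ j + ρ s = ∑ j ∈ R₀, ρ j := Finset.sum_erase_add _ _ hs
    rcases Nat.lt_or_ge (ρ s) T.card with hlt | hge
    · obtain ⟨hμ, hnum⟩ := num hc hs1 (hρ s) ht hlt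
        (fun i => T.card - i - phi c (D + i - ρ s)) (fun _ => rfl)
      have key := geo hs1 (hΓ s hs) hlt.le (μ := fun i => T.card - i - phi c (D + i - ρ s)) hμ hnum
        (H := fun X A => Ac (DJ (Function.update Γ s A) (T \ X)) (T.card - X.card)) ?_
      · simpa using key
      refine ⟨?_, ?_, ?_, ?_⟩
      · -- void
        intro X _
        have : DJ (Function.update Γ s (∅ : Set (Finset U))) (T \ X) = ∅ := by
          ext w
          simp only [DJ, Set.mem_ofPred_eq, Set.mem_empty_iff_false, iff_false, not_and]
          intro _ h
          have := h s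
          rw [Function.update_self] at this
          exact this
        show Ac _ _
        rw [this]
        exact ac_void _
      · -- leaf
        intro X hX hXρ G hG hGμ
        refine leaf hdn s hG ?_
        intro g hg hgG
        have hT' : ((T \ X) \ G).card + G.card + X.card = T.card := by
          have h1 := Finset.card_sdiff_add_card_eq_card hG
          have h2 := Finset.card_sdiff_add_card_eq_card hX
          omega
        have hTc : T.card - X.card - G.card = ((T \ X) \ G).card := by omega
        rw [hTc]
        replace hGμ : T.card - X.card - phi c (D + X.card - ρ s) ≤ G.card := hGμ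
        rcases Nat.lt_or_ge (D + X.card) (ρ s) with hsm | hbg
        · have h0 : D + X.card - ρ s = 0 := by omega
          rw [h0, phi_zero hc] at hGμ
          exact ac_zero _ (by omega)
        have hgs : ∀ j, sl g j ∈ Function.update Γ s {∅} j := hg.2
        have hgj : ∀ j, j ∉ R₀.erase s → sl g j = ∅ ∧ Function.update Γ s {∅} j = {∅} := by
          intro j hj
          have h1 : Function.update Γ s ({∅} : Set (Finset U)) j = {∅} := by
            by_cases hjs : j = s
            · subst hjs
              rw [Function.update_self]
            · rw [Function.update_of_ne hjs]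
              apply hR
              intro hj'
              exact hj (Finset.mem_erase.mpr ⟨hjs, hj'⟩)
          refine ⟨?_, h1⟩
          have := hgs j
          rw [h1] at this
          exact this
        refine ih (R₀.erase s) (lkR (Function.update Γ s {∅}) g) ((T \ X) \ G) ?_
          (fun j => ρ j - (sl g j).card) (fun j => le_trans (Nat.sub_le _ _) (hρ j)) ?_
          (D + X.card - ρ s) ?_ ?_ hcard
        · intro j hj
          obtain ⟨h1, h2⟩ := hgj j hj
          simp only [lkR]
          rw [h2]
          exact lk_empty h1
        · intro j hj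
          have hjs : j ≠ s := (Finset.mem_erase.mp hj).1
          have hjR : j ∈ R₀ := (Finset.mem_erase.mp hj).2
          have h1 : sl g j ∈ Γ j := by
            have := hgs j
            rwa [Function.update_of_ne hjs] at this
          have h2 : sl g j ⊆ G := by
            rw [← hgG]
            exact sl_subset g j
          have h3 : sl g j ⊆ T := fun u hu => (Finset.mem_sdiff.mp (hG (h2 hu))).1
          have h4 := Row.link (hΓ j hjR) h1 h3
          have h5 : lkR (Function.update Γ s {∅}) g j = lk (sl g j) (Γ j) := by
            simp only [lkR]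
            rw [Function.update_of_ne hjs]
          rw [h5]
          refine Row.mono h4 ?_
          intro u hu
          simp only [Finset.mem_sdiff] at hu ⊢
          exact ⟨hu.1.1, fun h => hu.2 (h2 h)⟩
        · have h1 : ∑ j ∈ R₀.erase s, ρ j ≤
              ∑ j ∈ R₀.erase s, (ρ j - (sl g j).card) + G.card := by
            have h2 := sum_sl g (R₀.erase s)
            rw [hgG] at h2
            have h3 : ∑ j ∈ R₀.erase s, ρ j ≤
                ∑ j ∈ R₀.erase s, ((ρ j - (sl g j).card) + (sl g j).card) :=
              Finset.sum_le_sum fun j _ => by omega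
            rw [Finset.sum_add_distrib] at h3
            omega
          omega
        · omega
      · -- free
        intro X hX hXρ A hA
        refine free_row hdn s hA ?_
        intro L hL
        have hT' : ((T \ X) \ L).card + L.card + X.card = T.card := by
          have h1 := Finset.card_sdiff_add_card_eq_card hL
          have h2 := Finset.card_sdiff_add_card_eq_card hX
          omega
        have hTc : T.card - X.card - L.card = ((T \ X) \ L).card := by omega
        rw [hTc]
        refine ih (R₀.erase s) (Function.update Γ s {∅}) ((T \ X) \ L) ?_ ρ hρ ?_ D ?_ ?_ hcard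
        · intro j hj
          by_cases hjs : j = s
          · subst hjs
            rw [Function.update_self]
          · rw [Function.update_of_ne hjs]
            apply hR
            intro hj'
            exact hj (Finset.mem_erase.mpr ⟨hjs, hj'⟩)
        · intro j hj
          rw [Function.update_of_ne (Finset.mem_erase.mp hj).1]
          refine Row.mono (hΓ j (Finset.mem_erase.mp hj).2) ?_
          intro u hu
          simp only [Finset.mem_sdiff] at hu
          exact hu.1.1
        · omega
        · omega
      · -- add
        intro X hX X' hX' A A' B hA hA' hB hiff hXA h1 h2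
        refine row_add hdn s hX' hA hA' hB hiff hXA h1 ?_
        have h3 : T \ (X ∪ X') = (T \ X) \ X' := by
          ext u
          simp only [Finset.mem_sdiff, Finset.mem_union]
          tauto
        have h4 : (X ∪ X').card = X.card + X'.card := by
          apply Finset.card_union_of_disjoint
          rw [Finset.disjoint_left]
          intro u hu hu'
          exact (Finset.mem_sdiff.mp (hX' hu')).2 hu
        simp only [h3, h4] at h2
        rw [Nat.sub_sub]
        exact h2
    · exact cover hdn s ((hΓ s hs).small subset_rfl hge)

end C

end Pool.Agent.MPa0a351.Top
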