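import Mathlib

/-!
Module RADO of Reay's conjecture (MP_a0a351_co): Rado's theorem on independent transversals, for
vectors in a finite dimensional real space.
-/

set_option autoImplicit false
set_option linter.unusedSectionVars false

open Module Finset

namespace Pool.Agent.MPa0a351.Top

namespace Rado

variable {ι J E : Type*} [DecidableEq ι] [DecidableEq J] [AddCommGroup E]
    [Module ℝ E] [FiniteDimensional ℝ E]

/-- The span of the admissible vectors. -/
def sp (f : ι → J → E) (A : ι → Finset J) (S : Finset ι) : Submodule ℝ E :=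
  Submodule.span ℝ {x | ∃ i ∈ S, ∃ j ∈ A i, f i j = x}

lemma mem_sp {f : ι → J → E} {A : ι → Finset J} {S : Finset ι} {i : ι} (hi : i ∈ S) {j : J}
    (hj : j ∈ A i) : f i j ∈ sp f A S :=
  Submodule.subset_span ⟨i, hi, j, hj, rfl⟩

lemma sp_le {f : ι → J → E} {A : ι → Finset J} {S : Finset ι} {V : Submodule ℝ E}
    (h : ∀ i ∈ S, ∀ j ∈ A i, f i j ∈ V) : sp f A S ≤ V := by
  apply Submodule.span_le.2
  rintro x ⟨i, hi, j, hj, rfl⟩
  exact h i hi j hj

/-- The rank condition. -/
def Good (f : ι → J → E) (S : Finset ι) (A : ι → Finset J) : Prop :=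
  ∀ S' ⊆ S, S'.card ≤ finrank ℝ (sp f A S')

lemma step {f : ι → J → E} {S : Finset ι} {A : ι → Finset J} (hA : Good f S A) {i₀ : ι}
    {j₁ j₂ : J} (hj : j₁ ≠ j₂) :
    Good f S (Function.update A i₀ ((A i₀).erase j₁)) ∨
      Good f S (Function.update A i₀ ((A i₀).erase j₂)) := by
  by_contra hcon
  rw [not_or] at hcon
  obtain ⟨h1, h2⟩ := hcon
  unfold Good at h1 h2
  push Not at h1 h2
  obtain ⟨S₁, hS₁, h1⟩ := h1
  obtain ⟨S₂, hS₂, h2⟩ := h2
  have key : ∀ (j : J) (T : Finset ι), T ⊆ S →
      finrank ℝ (sp f (Function.update A i₀ ((A i₀).erase j)) T) < T.card → i₀ ∈ T := by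
    intro j T hT hlt
    by_contra hi
    have hle : sp f A T ≤ sp f (Function.update A i₀ ((A i₀).erase j)) T := by
      apply sp_le
      intro i hiT j' hj'
      apply mem_sp hiT
      have : i ≠ i₀ := by rintro rfl; exact hi hiT
      rw [Function.update_of_ne this]
      exact hj'
    have := (hA T hT).trans (Submodule.finrank_mono hle)
    omega
  have hi1 := key j₁ S₁ hS₁ h1
  have hi2 := key j₂ S₂ hS₂ h2
  set V₁ := sp f (Function.update A i₀ ((A i₀).erase j₁)) S₁
  set V₂ := sp f (Function.update A i₀ ((A i₀).erase j₂)) S₂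
  have hsup : sp f A (S₁ ∪ S₂) ≤ V₁ ⊔ V₂ := by
    apply sp_le
    intro i hi j hj'
    by_cases hii : i = i₀
    · subst hii
      by_cases hjj : j = j₁
      · apply (le_sup_right : V₂ ≤ V₁ ⊔ V₂)
        apply mem_sp hi2
        rw [Function.update_self, Finset.mem_erase]
        exact ⟨by rw [hjj]; exact hj, hj'⟩
      · apply (le_sup_left : V₁ ≤ V₁ ⊔ V₂)
        apply mem_sp hi1
        rw [Function.update_self, Finset.mem_erase]
        exact ⟨hjj, hj'⟩
    · rcases Finset.mem_union.1 hi with h | h
      · apply (le_sup_left : V₁ ≤ V₁ ⊔ V₂)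
        apply mem_sp h
        rw [Function.update_of_ne hii]
        exact hj'
      · apply (le_sup_right : V₂ ≤ V₁ ⊔ V₂)
        apply mem_sp h
        rw [Function.update_of_ne hii]
        exact hj'
  have hinf : sp f A ((S₁ ∩ S₂).erase i₀) ≤ V₁ ⊓ V₂ := by
    apply sp_le
    intro i hi j hj'
    rw [Finset.mem_erase, Finset.mem_inter] at hi
    obtain ⟨hii, hi1', hi2'⟩ := hi
    refine Submodule.mem_inf.2 ⟨?_, ?_⟩
    · apply mem_sp hi1'
      rw [Function.update_of_ne hii]
      exact hj'
    · apply mem_sp hi2'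
      rw [Function.update_of_ne hii]
      exact hj'
  have e1 := Submodule.finrank_sup_add_finrank_inf_eq V₁ V₂
  have e2 := (hA _ (Finset.union_subset hS₁ hS₂)).trans (Submodule.finrank_mono hsup)
  have e3 := (hA _ ((Finset.erase_subset _ _).trans
    (Finset.inter_subset_left.trans hS₁))).trans (Submodule.finrank_mono hinf)
  have e4 : ((S₁ ∩ S₂).erase i₀).card + 1 = (S₁ ∩ S₂).card :=
    Finset.card_erase_add_one (Finset.mem_inter.2 ⟨hi1, hi2⟩)
  have e5 := Finset.card_union_add_card_inter S₁ S₂
  omega

lemma main [Nonempty J] (f : ι → J → E) (S : Finset ι) (n : ℕ) :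
    ∀ A : ι → Finset J, ∑ i ∈ S, (A i).card = n → Good f S A →
      ∃ g : ι → J, LinearIndependent ℝ (fun i : S => f i (g i)) := by
  induction n using Nat.strong_induction_on with
  | _ n ih =>
    intro A hn hA
    by_cases hex : ∃ i₀ ∈ S, 1 < (A i₀).card
    · obtain ⟨i₀, hi₀, hc⟩ := hex
      obtain ⟨j₁, hj₁, j₂, hj₂, hj⟩ := Finset.one_lt_card.1 hc
      have hlt : ∀ j ∈ A i₀, ∑ i ∈ S, (Function.update A i₀ ((A i₀).erase j) i).card < n := by
        intro j hj'
        rw [← hn]
        apply Finset.sum_lt_sum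
        · intro i _
          by_cases hii : i = i₀
          · subst hii
            rw [Function.update_self]
            exact Finset.card_le_card (Finset.erase_subset _ _)
          · rw [Function.update_of_ne hii]
        · refine ⟨i₀, hi₀, ?_⟩
          rw [Function.update_self]
          exact Finset.card_erase_lt_of_mem hj'
      rcases step hA (i₀ := i₀) hj with h | h
      · exact ih _ (hlt j₁ hj₁) _ rfl h
      · exact ih _ (hlt j₂ hj₂) _ rfl h
    · push Not at hex
      have hne : ∀ i ∈ S, (A i).Nonempty := by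
        intro i hi
        by_contra hem
        rw [Finset.not_nonempty_iff_eq_empty] at hem
        have h1 := hA {i} (Finset.singleton_subset_iff.2 hi)
        have h2 : sp f A {i} ≤ ⊥ := by
          apply sp_le
          intro i' hi' j hj
          rw [Finset.mem_singleton] at hi'
          subst hi'
          rw [hem] at hj
          exact absurd hj (Finset.notMem_empty _)
        have h3 := Submodule.finrank_mono h2
        rw [Finset.card_singleton] at h1
        rw [finrank_bot] at h3
        omega
      have hg : ∀ i, ∃ j, i ∈ S → j ∈ A i := by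
        intro i
        by_cases hi : i ∈ S
        · obtain ⟨j, hj⟩ := hne i hi
          exact ⟨j, fun _ => hj⟩
        · exact ⟨Classical.arbitrary J, fun h => absurd h hi⟩
      choose g hg using hg
      refine ⟨g, ?_⟩
      rw [linearIndependent_iff_card_le_finrank_span, Fintype.card_coe]
      refine (hA S (Finset.Subset.refl S)).trans ?_
      apply Submodule.finrank_mono
      apply sp_le
      intro i hi j hj
      apply Submodule.subset_span
      refine ⟨⟨i, hi⟩, ?_⟩
      have : g i = j := Finset.card_le_one.1 (hex i hi) _ (hg i hi) _ hj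
      change f i (g i) = f i j
      rw [this]

end Rado

theorem rado {ι J E : Type*} [Fintype ι] [DecidableEq ι] [Fintype J] [Nonempty J] [AddCommGroup E]
    [Module ℝ E] [FiniteDimensional ℝ E] (f : ι → J → E) (S : Finset ι)
    (h : ∀ S' ⊆ S, S'.card ≤
      finrank ℝ (Submodule.span ℝ {x | ∃ i ∈ S', ∃ j, f i j = x})) :
    ∃ g : ι → J, LinearIndependent ℝ (fun i : S => f i (g i)) := by
  classical
  refine Rado.main f S _ (fun _ => univ) rfl ?_
  intro S' hS'
  refine (h S' hS').trans (Submodule.finrank_mono ?_)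
  apply Submodule.span_le.2
  rintro x ⟨i, hi, j, rfl⟩
  exact Rado.mem_sp hi (Finset.mem_univ j)

end Pool.Agent.MPa0a351.Top
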