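import Pool.Agent.Lib.MP_a0a351_co.TopDefs

/-!
Reay's conjecture (MP_a0a351_co), module T0: a complex of words which contains all words with
independent vectors and which is acyclic contains a word with a positive dependence. The cycle is
the sum of `det w · w` over the words which omit one fixed colour; the cocycle is
`w ↦ sign det w · [q ∈ cone w]`.
-/

set_option autoImplicit false

open Module Finset

namespace Pool.Agent.MPa0a351.Top

namespace T0aux

/-! ### The ends of a line in the positive orthant -/

theorem ends_one {ι : Type*} [Fintype ι] [DecidableEq ι] (x μ : ι → ℝ) (hneg : ∃ i, μ i < 0)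
    (hgen : ∀ t : ℝ, ∀ i k, i ≠ k → x i + t * μ i = 0 → x k + t * μ k = 0 → False)
    (i : ι) (hi : 0 < μ i) (hP : ∀ k, k ≠ i → 0 < x k + (-(x i / μ i)) * μ k) :
    ∃ i', μ i' < 0 ∧ ∀ k, k ≠ i' → 0 < x k + (-(x i' / μ i')) * μ k := by
  classical
  -- the smallest `t` at which a coordinate with negative slope vanishes
  obtain ⟨i0, hi0⟩ := hneg
  obtain ⟨i', hi'mem, hmin⟩ := Finset.exists_min_image (univ.filter (fun k => μ k < 0))
    (fun k => -(x k / μ k)) ⟨i0, by simp [hi0]⟩
  have hi' : μ i' < 0 := by simpa using hi'mem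
  refine ⟨i', hi', ?_⟩
  set t0 := -(x i / μ i) with ht0
  set t1 := -(x i' / μ i') with ht1
  have hz : ∀ a m : ℝ, m ≠ 0 → a + (-(a / m)) * m = 0 := by
    intro a m hm
    rw [neg_mul, div_mul_cancel₀ _ hm]; ring
  have h1 : x i' + t1 * μ i' = 0 := hz _ _ hi'.ne
  have hlt : t0 < t1 := by
    have h2 := hP i' (by rintro rfl; linarith)
    by_contra hcon
    push Not at hcon
    have : x i' + t0 * μ i' ≤ x i' + t1 * μ i' := by
      have := mul_le_mul_of_nonpos_right hcon hi'.le
      linarith
    linarith
  have h0 : x i + t0 * μ i = 0 := hz _ _ hi.ne'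
  intro k hk
  rcases lt_trichotomy (μ k) 0 with hk0 | hk0 | hk0
  · -- negative slope
    have h3 : t1 ≤ -(x k / μ k) := hmin k (by simp [hk0])
    have h4 : x k + (-(x k / μ k)) * μ k = 0 := hz _ _ hk0.ne
    have h5 : 0 ≤ x k + t1 * μ k := by
      have := mul_le_mul_of_nonpos_right h3 hk0.le
      linarith
    rcases h5.lt_or_eq with h | h
    · exact h
    · exact absurd h1 (fun h1 => hgen t1 i' k (Ne.symm hk) h1 h.symm)
  · have hki : k ≠ i := by rintro rfl; linarith
    have := hP k hki
    rw [hk0] at this ⊢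
    simpa using this
  · by_cases hki : k = i
    · subst hki
      nlinarith
    · have := hP k hki
      nlinarith

/-- The signed number of the ends of the intersection of a line with the positive orthant is
zero. -/
theorem ends_sum {ι : Type*} [Fintype ι] [DecidableEq ι] (x μ : ι → ℝ) (hpos : ∃ i, 0 < μ i)
    (hneg : ∃ i, μ i < 0)
    (hgen : ∀ t : ℝ, ∀ i k, i ≠ k → x i + t * μ i = 0 → x k + t * μ k = 0 → False)
    (P : ι → Prop) [DecidablePred P]
    (hP : ∀ i, P i ↔ μ i ≠ 0 ∧ ∀ k, k ≠ i → 0 < x k + (-(x i / μ i)) * μ k) :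
    ∑ i, (if P i then (SignType.sign (μ i) : ℝ) else 0) = 0 := by
  classical
  -- uniqueness
  have huniq : ∀ i i', P i → P i' → 0 < μ i → 0 < μ i' → i = i' := by
    intro i i' h h' hm hm'
    by_contra hne
    have h1 := ((hP i).1 h).2 i' (Ne.symm hne)
    have h2 := ((hP i').1 h').2 i hne
    have e1 : x i' = x i' / μ i' * μ i' := by field_simp
    have e2 : x i = x i / μ i * μ i := by field_simp
    set a := x i / μ i with ha
    set b := x i' / μ i' with hb
    have h3 : 0 < (b - a) * μ i' := by nlinarith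
    have h4 : 0 < (a - b) * μ i := by nlinarith
    have h5 : 0 < b - a := (mul_pos_iff_of_pos_right hm').1 h3
    have h6 : 0 < a - b := (mul_pos_iff_of_pos_right hm).1 h4
    linarith
  have huniq' : ∀ i i', P i → P i' → μ i < 0 → μ i' < 0 → i = i' := by
    intro i i' h h' hm hm'
    by_contra hne
    have h1 := ((hP i).1 h).2 i' (Ne.symm hne)
    have h2 := ((hP i').1 h').2 i hne
    have hm0 : μ i ≠ 0 := hm.ne
    have hm0' : μ i' ≠ 0 := hm'.ne
    have e1 : x i' = x i' / μ i' * μ i' := by field_simp
    have e2 : x i = x i / μ i * μ i := by field_simp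
    set a := x i / μ i with ha
    set b := x i' / μ i' with hb
    have h3 : 0 < (a - b) * (-μ i') := by nlinarith
    have h4 : 0 < (b - a) * (-μ i) := by nlinarith
    have h5 : 0 < a - b := (mul_pos_iff_of_pos_right (by linarith : (0:ℝ) < -μ i')).1 h3
    have h6 : 0 < b - a := (mul_pos_iff_of_pos_right (by linarith : (0:ℝ) < -μ i)).1 h4
    linarith
  -- existence
  have hex : (∃ i, P i ∧ 0 < μ i) → ∃ i', P i' ∧ μ i' < 0 := by
    rintro ⟨i, h, hm⟩
    obtain ⟨i', hi', hi''⟩ := ends_one x μ hneg hgen i hm ((hP i).1 h).2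
    exact ⟨i', (hP i').2 ⟨hi'.ne, hi''⟩, hi'⟩
  have hex' : (∃ i, P i ∧ μ i < 0) → ∃ i', P i' ∧ 0 < μ i' := by
    rintro ⟨i, h, hm⟩
    obtain ⟨i', hi', hi''⟩ := ends_one x (fun k => -μ k)
      (by obtain ⟨k, hk⟩ := hpos; exact ⟨k, by simpa using hk⟩)
      (by
        intro t a k hak h1 h2
        exact hgen (-t) a k hak (by linarith) (by linarith)) i (by simpa using hm)
      (by
        intro k hk
        have := ((hP i).1 h).2 k hk
        have e : -(x i / -μ i) * -μ k = -(x i / μ i) * μ k := by rw [div_neg]; ring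
        simpa [e] using this)
    have hi1 : 0 < μ i' := by simpa using hi'
    refine ⟨i', (hP i').2 ⟨hi1.ne', ?_⟩, hi1⟩
    intro k hk
    have := hi'' k hk
    have e : -(x i' / -μ i') * -μ k = -(x i' / μ i') * μ k := by rw [div_neg]; ring
    simpa [e] using this
  by_cases hA : ∃ i, P i ∧ 0 < μ i
  · obtain ⟨i', hPi', hi'⟩ := hex hA
    obtain ⟨i, hPi, hi⟩ := hA
    have hne : i ≠ i' := by rintro rfl; linarith
    have hsum : ∑ k, (if P k then (SignType.sign (μ k) : ℝ) else 0) =
        ∑ k ∈ ({i, i'} : Finset ι), (if P k then (SignType.sign (μ k) : ℝ) else 0) := by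
      symm
      apply Finset.sum_subset (Finset.subset_univ _)
      intro k _ hk
      simp only [Finset.mem_insert, Finset.mem_singleton, not_or] at hk
      by_cases hPk : P k
      · exfalso
        rcases lt_or_gt_of_ne ((hP k).1 hPk).1 with h | h
        · exact hk.2 (huniq' k i' hPk hPi' h hi')
        · exact hk.1 (huniq k i hPk hPi h hi)
      · simp [hPk]
    rw [hsum, Finset.sum_pair hne]
    simp [hPi, hPi', sign_pos hi, sign_neg hi']
  · apply Finset.sum_eq_zero
    intro k _
    by_cases hPk : P k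
    · exfalso
      rcases lt_or_gt_of_ne ((hP k).1 hPk).1 with h | h
      · exact hA (hex' ⟨k, hPk, h⟩)
      · exact hA ⟨k, hPk, h⟩
    · simp [hPk]

/-! ### Vectors `v 0, …, v n` in `ℝ^n` -/

/-- The determinant of the vectors `v k`, `k ≠ i`. -/
noncomputable def dt {n : ℕ} (v : Fin (n + 1) → (Fin n → ℝ)) (i : Fin (n + 1)) : ℝ :=
  Matrix.det (Matrix.of (fun a k => v (i.succAbove k) a))

/-- Cramer's relation. -/
theorem cramer {n : ℕ} (v : Fin (n + 1) → (Fin n → ℝ)) :
    ∑ i : Fin (n + 1), ((-1) ^ (i : ℕ) * dt v i) • v i = 0 := by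
  ext a
  simp only [Finset.sum_apply, Pi.smul_apply, smul_eq_mul, Pi.zero_apply]
  let A : Matrix (Fin (n + 1)) (Fin (n + 1)) ℝ :=
    Matrix.of (fun r c => Fin.cases (v c a) (fun r' => v c r') r)
  have h1 : A.det = 0 := by
    apply Matrix.det_zero_of_row_eq (i := 0) (j := a.succ) (Fin.succ_ne_zero a).symm
    ext c
    simp [A]
  rw [Matrix.det_succ_row_zero] at h1
  rw [← h1]
  apply Finset.sum_congr rfl
  intro i _
  have h2 : A.submatrix Fin.succ i.succAbove = Matrix.of (fun a k => v (i.succAbove k) a) := by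
    ext r c
    simp [A]
  rw [h2, dt]
  simp [A]
  ring

/-- A dependence of the vectors `v k`, `k ≠ i`, is trivial if their determinant is not zero. -/
theorem dep_zero {n : ℕ} (v : Fin (n + 1) → (Fin n → ℝ)) (i : Fin (n + 1)) (hi : dt v i ≠ 0)
    (y : Fin (n + 1) → ℝ) (hyi : y i = 0) (hy : ∑ k, y k • v k = 0) : y = 0 := by
  rw [Fin.sum_univ_succAbove _ i, hyi, zero_smul, zero_add] at hy
  have h1 : (Matrix.of (fun a k => v (i.succAbove k) a)).mulVec (fun k => y (i.succAbove k)) = 0 := by
    ext a
    have h2 := congrFun hy a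
    simp only [Finset.sum_apply, Pi.smul_apply, smul_eq_mul, Pi.zero_apply] at h2
    simp only [Matrix.mulVec, dotProduct, Matrix.of_apply, Pi.zero_apply]
    rw [← h2]
    exact Finset.sum_congr rfl fun k _ => mul_comm _ _
  have h3 := Matrix.eq_zero_of_mulVec_eq_zero hi h1
  funext k
  rcases Fin.eq_self_or_eq_succAbove i k with rfl | ⟨k', rfl⟩
  · exact hyi
  · exact congrFun h3 k'

/-- The vectors `v k`, `k ≠ i`, span if their determinant is not zero. -/
theorem exists_coord {n : ℕ} (v : Fin (n + 1) → (Fin n → ℝ)) (i : Fin (n + 1)) (hi : dt v i ≠ 0)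
    (q : Fin n → ℝ) : ∃ y : Fin (n + 1) → ℝ, y i = 0 ∧ ∑ k, y k • v k = q := by
  set A : Matrix (Fin n) (Fin n) ℝ := Matrix.of (fun a k => v (i.succAbove k) a) with hA
  have hu : IsUnit A.det := (isUnit_iff_ne_zero).2 hi
  refine ⟨i.insertNth 0 (A⁻¹.mulVec q), by simp, ?_⟩
  rw [Fin.sum_univ_succAbove _ i]
  simp only [Fin.insertNth_apply_same, zero_smul, zero_add, Fin.insertNth_apply_succAbove]
  have h1 : A.mulVec (A⁻¹.mulVec q) = q := by
    rw [Matrix.mulVec_mulVec, Matrix.mul_nonsing_inv _ hu, Matrix.one_mulVec]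
  ext a
  have h2 := congrFun h1 a
  simp only [Finset.sum_apply, Pi.smul_apply, smul_eq_mul]
  rw [← h2]
  simp only [Matrix.mulVec, dotProduct, hA, Matrix.of_apply]
  exact Finset.sum_congr rfl fun k _ => mul_comm _ _

/-- The vector `q` lies in the open cone of the vectors `v k`, `k ≠ i`. -/
def InC {n : ℕ} (v : Fin (n + 1) → (Fin n → ℝ)) (q : Fin n → ℝ) (i : Fin (n + 1)) : Prop :=
  dt v i ≠ 0 ∧ ∃ y : Fin (n + 1) → ℝ, y i = 0 ∧ (∀ k, k ≠ i → 0 < y k) ∧ ∑ k, y k • v k = q

open scoped Classical in
/-- The signed number of the cones containing a generic vector is zero. -/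
theorem cone_sum {n : ℕ} (v : Fin (n + 1) → (Fin n → ℝ)) (q : Fin n → ℝ)
    (hno : ∀ b : Fin (n + 1) → ℝ, (∀ i, 0 ≤ b i) → ∑ i, b i • v i = 0 → b = 0)
    (hq : ∀ y : Fin (n + 1) → ℝ, ∑ i, y i • v i = q → ∀ i k, i ≠ k → y i = 0 → y k = 0 → False) :
    ∑ i : Fin (n + 1), (-1 : ℝ) ^ (i : ℕ) *
      (if InC v q i then (SignType.sign (dt v i) : ℝ) else 0) = 0 := by
  by_cases hall : ∀ i, dt v i = 0
  · apply Finset.sum_eq_zero
    intro i _
    rw [if_neg (fun h => h.1 (hall i)), mul_zero]
  push Not at hall
  obtain ⟨i0, hi0⟩ := hall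
  set μ : Fin (n + 1) → ℝ := fun i => (-1) ^ (i : ℕ) * dt v i with hμ
  have hμ0 : ∀ i, μ i = 0 ↔ dt v i = 0 := by
    intro i
    simp [hμ]
  have hcr : ∑ i, μ i • v i = 0 := cramer v
  obtain ⟨x, hx0, hx⟩ := exists_coord v i0 hi0 q
  -- every solution lies on the line
  have hline : ∀ y : Fin (n + 1) → ℝ, ∑ k, y k • v k = q → ∃ t : ℝ, ∀ k, y k = x k + t * μ k := by
    intro y hy
    refine ⟨(y i0 - x i0) / μ i0, ?_⟩
    have hm0 : μ i0 ≠ 0 := fun h => hi0 ((hμ0 i0).1 h)
    have h1 := dep_zero v i0 hi0 (fun k => y k - x k - (y i0 - x i0) / μ i0 * μ k)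
      (by field_simp; ring) (by
        simp only [sub_smul, mul_smul, Finset.sum_sub_distrib]
        rw [← Finset.smul_sum, hcr, hx, hy, smul_zero]
        simp)
    intro k
    have := congrFun h1 k
    simp only [Pi.zero_apply] at this
    linarith
  have hline' : ∀ t : ℝ, ∑ k, (x k + t * μ k) • v k = q := by
    intro t
    simp only [add_smul, mul_smul, Finset.sum_add_distrib]
    rw [← Finset.smul_sum, hcr, hx, smul_zero, add_zero]
  have hpos : ∃ i, 0 < μ i := by
    by_contra hcon
    push Not at hcon
    have := hno (fun i => -μ i) (fun i => by simpa using hcon i) (by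
      simp only [neg_smul, Finset.sum_neg_distrib, hcr, neg_zero])
    have h2 := congrFun this i0
    simp only [Pi.zero_apply, neg_eq_zero] at h2
    exact hi0 ((hμ0 i0).1 h2)
  have hneg : ∃ i, μ i < 0 := by
    by_contra hcon
    push Not at hcon
    have := hno μ hcon hcr
    exact hi0 ((hμ0 i0).1 (congrFun this i0))
  have hgen : ∀ t : ℝ, ∀ i k, i ≠ k → x i + t * μ i = 0 → x k + t * μ k = 0 → False := by
    intro t i k hik h1 h2
    exact hq (fun k => x k + t * μ k) (hline' t) i k hik h1 h2
  have hP : ∀ i, InC v q i ↔ μ i ≠ 0 ∧ ∀ k, k ≠ i → 0 < x k + (-(x i / μ i)) * μ k := by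
    intro i
    constructor
    · rintro ⟨h1, y, hy0, hypos, hy⟩
      have hm : μ i ≠ 0 := fun h => h1 ((hμ0 i).1 h)
      refine ⟨hm, ?_⟩
      obtain ⟨t, ht⟩ := hline y hy
      have h3 : t = -(x i / μ i) := by
        have := ht i
        rw [hy0] at this
        field_simp
        linarith
      intro k hk
      rw [← h3, ← ht k]
      exact hypos k hk
    · rintro ⟨h1, h2⟩
      refine ⟨fun h => h1 ((hμ0 i).2 h), fun k => x k + (-(x i / μ i)) * μ k, ?_, h2, hline' _⟩
      change x i + -(x i / μ i) * μ i = 0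
      rw [neg_mul, div_mul_cancel₀ _ h1]
      ring
  have key := ends_sum x μ hpos hneg hgen (InC v q) hP
  refine Eq.trans ?_ key
  apply Finset.sum_congr rfl
  intro i _
  by_cases hi : InC v q i
  · rw [if_pos hi, if_pos hi, hμ]
    simp only [sign_mul]
    rcases neg_one_pow_eq_or ℝ (i : ℕ) with h | h <;> simp [h]
  · rw [if_neg hi, if_neg hi, mul_zero]

/-! ### Words -/

section Words

variable {n : ℕ} {J : Type*}

/-- The vector of the letter at the colour `u`. -/
def vl (f : Fin (n + 1) → J → (Fin n → ℝ)) (w : Fin (n + 1) → Option J) :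
    Fin (n + 1) → (Fin n → ℝ) := fun u => (w u).elim 0 (f u)

theorem dt_update (f : Fin (n + 1) → J → (Fin n → ℝ)) (w : Fin (n + 1) → Option J)
    (i : Fin (n + 1)) (o : Option J) : dt (vl f (Function.update w i o)) i = dt (vl f w) i := by
  unfold dt
  congr 1
  ext a k
  simp [vl, Fin.succAbove_ne]

theorem dt_none {f : Fin (n + 1) → J → (Fin n → ℝ)} {w : Fin (n + 1) → Option J}
    {i : Fin (n + 1)} (h : dt (vl f w) i ≠ 0) {k : Fin (n + 1)} (hk : k ≠ i) : w k ≠ none := by
  intro hw
  obtain ⟨k', rfl⟩ := Fin.exists_succAbove_eq hk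
  apply h
  unfold dt
  apply Matrix.det_eq_zero_of_column_eq_zero k'
  intro a
  simp [vl, hw]

theorem inC_update (f : Fin (n + 1) → J → (Fin n → ℝ)) (w : Fin (n + 1) → Option J)
    (i : Fin (n + 1)) (o : Option J) (q : Fin n → ℝ) :
    InC (vl f (Function.update w i o)) q i ↔ InC (vl f w) q i := by
  unfold InC
  rw [dt_update]
  refine and_congr Iff.rfl (exists_congr fun y => ?_)
  constructor
  · rintro ⟨h1, h2, h3⟩
    refine ⟨h1, h2, ?_⟩
    rw [← h3]
    apply Finset.sum_congr rfl
    intro k _
    by_cases hk : k = i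
    · subst hk; rw [h1, zero_smul, zero_smul]
    · simp [vl, hk]
  · rintro ⟨h1, h2, h3⟩
    refine ⟨h1, h2, ?_⟩
    rw [← h3]
    apply Finset.sum_congr rfl
    intro k _
    by_cases hk : k = i
    · subst hk; rw [h1, zero_smul, zero_smul]
    · simp [vl, hk]

/-- Linear independence of the letters of a word. -/
theorem li_iff (f : Fin (n + 1) → J → (Fin n → ℝ)) (w : Fin (n + 1) → Option J) :
    LinearIndependent ℝ (fun u : supp w => (w u).elim 0 (f u)) ↔
      ∀ y : Fin (n + 1) → ℝ, (∀ u, u ∉ supp w → y u = 0) → ∑ u, y u • vl f w u = 0 → y = 0 := by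
  classical
  rw [Fintype.linearIndependent_iff]
  constructor
  · intro h y hy hsum
    have h1 := h (fun u : supp w => y u) (by
      refine Eq.trans ?_ hsum
      rw [Finset.sum_coe_sort (supp w) (fun u => y u • (w u).elim 0 (f u))]
      apply Finset.sum_subset (Finset.subset_univ _)
      intro u _ hu
      rw [hy u hu, zero_smul])
    funext u
    by_cases hu : u ∈ supp w
    · exact h1 ⟨u, hu⟩
    · exact hy u hu
  · intro h g hg i
    have h1 := h (fun u => if hu : u ∈ supp w then g ⟨u, hu⟩ else 0) (fun u hu => by simp [hu]) (by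
      refine Eq.trans ?_ hg
      rw [← Finset.sum_subset (Finset.subset_univ (supp w))
        (fun u _ hu => by simp [hu]), ← Finset.sum_coe_sort (supp w)]
      apply Finset.sum_congr rfl
      intro u _
      simp [vl])
    have h2 := congrFun h1 i
    simpa using h2

theorem li_of_dt {f : Fin (n + 1) → J → (Fin n → ℝ)} {w : Fin (n + 1) → Option J}
    {i : Fin (n + 1)} (hi : w i = none) (h : dt (vl f w) i ≠ 0) :
    LinearIndependent ℝ (fun u : supp w => (w u).elim 0 (f u)) := by
  rw [li_iff]
  intro y hy hsum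
  exact dep_zero _ i h y (hy i (by simp [supp, hi])) hsum

theorem supp_of_dt {f : Fin (n + 1) → J → (Fin n → ℝ)} {w : Fin (n + 1) → Option J}
    {i : Fin (n + 1)} (hi : w i = none) (h : dt (vl f w) i ≠ 0) : supp w = univ.erase i := by
  ext u
  simp only [supp, Finset.mem_filter, Finset.mem_univ, true_and, Finset.mem_erase, and_true]
  constructor
  · rintro h1 rfl
    rw [hi] at h1
    simp at h1
  · intro hu
    exact Option.isSome_iff_ne_none.2 (dt_none h hu)

theorem dt_of_li {f : Fin (n + 1) → J → (Fin n → ℝ)} {w : Fin (n + 1) → Option J}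
    (hc : (supp w).card = n)
    (h : LinearIndependent ℝ (fun u : supp w => (w u).elim 0 (f u))) :
    ∃ i, w i = none ∧ dt (vl f w) i ≠ 0 := by
  classical
  rw [li_iff] at h
  have h1 : ∃ i, i ∉ supp w := by
    by_contra hcon
    push Not at hcon
    have : supp w = univ := by ext u; simp [hcon u]
    rw [this, Finset.card_univ, Fintype.card_fin] at hc
    omega
  obtain ⟨i, hi⟩ := h1
  have hsupp : supp w = univ.erase i := by
    apply Finset.eq_of_subset_of_card_le
    · intro u hu
      exact Finset.mem_erase.2 ⟨by rintro rfl; exact hi hu, Finset.mem_univ _⟩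
    · rw [Finset.card_erase_of_mem (Finset.mem_univ _), Finset.card_univ, Fintype.card_fin, hc]
      omega
  have hin : w i = none := by
    simpa [supp] using hi
  refine ⟨i, hin, ?_⟩
  intro hdt
  unfold dt at hdt
  obtain ⟨y, hy0, hy⟩ := Matrix.exists_mulVec_eq_zero_iff.2 hdt
  have h2 := h (i.insertNth 0 y) (by
    intro u hu
    rw [hsupp] at hu
    simp only [Finset.mem_erase, Finset.mem_univ, and_true, not_not] at hu
    subst hu
    simp) (by
    rw [Fin.sum_univ_succAbove _ i]
    simp only [Fin.insertNth_apply_same, zero_smul, zero_add, Fin.insertNth_apply_succAbove]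
    ext a
    have h3 := congrFun hy a
    simp only [Matrix.mulVec, dotProduct, Matrix.of_apply, Pi.zero_apply] at h3
    simp only [Finset.sum_apply, Pi.smul_apply, smul_eq_mul, Pi.zero_apply]
    rw [← h3]
    exact Finset.sum_congr rfl fun k _ => mul_comm _ _)
  apply hy0
  funext k
  have := congrFun h2 (i.succAbove k)
  simpa using this

/-- The sum over the label of one letter is zero. -/
theorem sum_dt [Fintype J] {f : Fin (n + 1) → J → (Fin n → ℝ)} (hbal : ∀ u, ∑ j, f u j = 0)
    (w : Fin (n + 1) → Option J) {i u : Fin (n + 1)} (hu : u ≠ i) :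
    ∑ j, dt (vl f (Function.update w u (some j))) i = 0 := by
  classical
  obtain ⟨k', rfl⟩ := Fin.exists_succAbove_eq hu
  set A : Matrix (Fin n) (Fin n) ℝ := Matrix.of (fun a k => vl f w (i.succAbove k) a) with hA
  have h1 : ∀ j, dt (vl f (Function.update w (i.succAbove k') (some j))) i =
      Matrix.cramer A (f (i.succAbove k') j) k' := by
    intro j
    rw [Matrix.cramer_apply]
    unfold dt
    congr 1
    ext a k
    by_cases hk : k = k'
    · subst hk
      simp [vl]
    · rw [Matrix.updateCol_ne hk]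
      have : i.succAbove k ≠ i.succAbove k' := fun h => hk (Fin.succAbove_right_injective h)
      simp [vl, this, hA]
  simp only [h1]
  rw [← Finset.sum_apply k' univ (fun j => Matrix.cramer A (f (i.succAbove k') j)),
    ← map_sum, hbal, map_zero]
  rfl

/-- Summation by parts. -/
theorem adj [Fintype J] [DecidableEq J] (F A : (Fin (n + 1) → Option J) → ℝ) :
    ∑ w, F w * bd A w = ∑ h, A h * ∑ u ∈ supp h,
      eps u (Function.update h u none) * F (Function.update h u none) := by
  classical
  have h1 : ∑ w, F w * bd A w = ∑ u, ∑ w ∈ univ.filter (fun w : Fin (n + 1) → Option J => w u = none),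
      ∑ j, F w * eps u w * A (Function.update w u (some j)) := by
    rw [Finset.sum_comm' (s := univ) (t := fun u => univ.filter
      (fun w : Fin (n + 1) → Option J => w u = none)) (t' := univ)
      (s' := fun w => univ \ supp w) (by
        intro u w
        simp [supp])]
    apply Finset.sum_congr rfl
    intro w _
    unfold bd
    rw [Finset.mul_sum]
    apply Finset.sum_congr rfl
    intro u _
    rw [← mul_assoc, Finset.mul_sum]
  have h2 : ∑ h, A h * ∑ u ∈ supp h,
      eps u (Function.update h u none) * F (Function.update h u none) =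
      ∑ u, ∑ h ∈ univ.filter (fun h : Fin (n + 1) → Option J => h u ≠ none),
        A h * (eps u (Function.update h u none) * F (Function.update h u none)) := by
    rw [Finset.sum_comm' (s := univ) (t := fun u => univ.filter
      (fun h : Fin (n + 1) → Option J => h u ≠ none)) (t' := univ)
      (s' := fun h => supp h) (by
        intro u h
        simp [supp, Option.isSome_iff_ne_none])]
    apply Finset.sum_congr rfl
    intro h _
    rw [Finset.mul_sum]
  rw [h1, h2]
  apply Finset.sum_congr rfl
  intro u _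
  rw [← Finset.sum_product']
  apply Finset.sum_bij (fun (p : (Fin (n + 1) → Option J) × J) _ =>
    Function.update p.1 u (some p.2))
  · rintro ⟨w, j⟩ hw
    simp
  · rintro ⟨w, j⟩ hw ⟨w', j'⟩ hw' heq
    simp only [Finset.mem_product, Finset.mem_filter, Finset.mem_univ, true_and, and_true] at hw hw'
    simp only at heq
    have e1 : j = j' := by
      have := congrFun heq u
      simpa using this
    have e2 : w = w' := by
      funext k
      by_cases hk : k = u
      · subst hk; rw [hw, hw']
      · have := congrFun heq k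
        simpa [hk] using this
    rw [e1, e2]
  · intro h hh
    simp only [Finset.mem_filter, Finset.mem_univ, true_and] at hh
    obtain ⟨j, hj⟩ := Option.ne_none_iff_exists'.1 hh
    refine ⟨(Function.update h u none, j), by simp, ?_⟩
    funext k
    by_cases hk : k = u
    · subst hk; simp [hj]
    · simp [hk]
  · rintro ⟨w, j⟩ hw
    simp only [Finset.mem_product, Finset.mem_filter, Finset.mem_univ, true_and, and_true] at hw
    have e : Function.update (Function.update w u (some j)) u none = w := by
      funext k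
      by_cases hk : k = u
      · subst hk; simp [hw]
      · simp [hk]
    simp only [e]
    ring

/-- A moment vector avoids a given proper subspace for almost all parameters. -/
theorem finite_bad (v : Fin (n + 1) → (Fin n → ℝ)) (i : Fin (n + 1)) (hi : dt v i ≠ 0)
    (S : Submodule ℝ (Fin n → ℝ)) (hS : S < ⊤) :
    {t : ℝ | ∑ k : Fin n, t ^ (k : ℕ) • v (i.succAbove k) ∈ S}.Finite := by
  obtain ⟨φ, hφ0, hφ⟩ := Submodule.exists_le_ker_of_lt_top S hS
  set P : Polynomial ℝ := ∑ k : Fin n, Polynomial.C (φ (v (i.succAbove k))) *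
    Polynomial.X ^ (k : ℕ) with hP
  have hP0 : P ≠ 0 := by
    intro h0
    apply hφ0
    have hc : ∀ k : Fin n, φ (v (i.succAbove k)) = 0 := by
      intro k
      have h1 : P.coeff (k : ℕ) = φ (v (i.succAbove k)) := by
        rw [hP, Polynomial.finsetSum_coeff]
        rw [Finset.sum_eq_single k]
        · simp
        · intro k' _ hk'
          rw [Polynomial.coeff_C_mul_X_pow, if_neg]
          intro h
          exact hk' (Fin.ext h.symm)
        · simp
      rw [← h1, h0, Polynomial.coeff_zero]
    ext1 k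
    ext
    obtain ⟨y, hy0, hy⟩ := exists_coord v i hi (LinearMap.single ℝ (fun _ => ℝ) k 1)
    simp only [LinearMap.comp_apply, LinearMap.zero_apply]
    rw [← hy, map_sum]
    apply Finset.sum_eq_zero
    intro m _
    rw [map_smul]
    rcases Fin.eq_self_or_eq_succAbove i m with rfl | ⟨m', rfl⟩
    · rw [hy0, zero_smul]
    · rw [hc, smul_zero]
  apply (Polynomial.finite_setOfPred_isRoot hP0).subset
  intro t ht
  have h1 := hφ ht
  rw [LinearMap.mem_ker, map_sum] at h1
  simp only [Set.mem_ofPred_eq, Polynomial.IsRoot.def]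
  rw [hP, Polynomial.eval_finsetSum]
  rw [← h1]
  apply Finset.sum_congr rfl
  intro k _
  simp only [Polynomial.eval_mul, Polynomial.eval_C, Polynomial.eval_pow, Polynomial.eval_X,
    map_smul, smul_eq_mul]
  ring

/-- A generic vector in the cone of an independent word. -/
theorem exists_q [Finite J] (f : Fin (n + 1) → J → (Fin n → ℝ)) (w : Fin (n + 1) → Option J)
    (i : Fin (n + 1)) (hi : dt (vl f w) i ≠ 0) :
    ∃ q : Fin n → ℝ, InC (vl f w) q i ∧ ∀ h : Fin (n + 1) → Option J, ∀ y : Fin (n + 1) → ℝ,
      ∑ u, y u • vl f h u = q → ∀ a k, a ≠ k → y a = 0 → y k = 0 → False := by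
  classical
  let S : (Fin (n + 1) → Option J) × Fin (n + 1) × Fin (n + 1) → Submodule ℝ (Fin n → ℝ) :=
    fun p => Submodule.span ℝ ((((univ.erase p.2.1).erase p.2.2).image (vl f p.1) :
      Finset (Fin n → ℝ)) : Set (Fin n → ℝ))
  have hS : ∀ p, p.2.1 ≠ p.2.2 → S p < ⊤ := by
    intro p hp
    rw [lt_top_iff_ne_top]
    intro htop
    have h1 : finrank ℝ (S p) ≤ (((univ.erase p.2.1).erase p.2.2).image (vl f p.1)).card :=
      finrank_span_finset_le_card _
    rw [htop, finrank_top, Module.finrank_fin_fun] at h1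
    have h2 : (((univ.erase p.2.1).erase p.2.2).image (vl f p.1)).card ≤
        ((univ.erase p.2.1).erase p.2.2).card := Finset.card_image_le
    rw [Finset.card_erase_of_mem (Finset.mem_erase.2 ⟨hp.symm, Finset.mem_univ _⟩),
      Finset.card_erase_of_mem (Finset.mem_univ _), Finset.card_univ, Fintype.card_fin] at h2
    have h3 : 0 < n := by
      rcases Nat.eq_zero_or_pos n with h0 | h0
      · subst h0
        exact absurd (Fin.ext (by have := p.2.1.isLt; have := p.2.2.isLt; omega)) hp
      · exact h0
    omega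
  have hfin : (⋃ p : {p : (Fin (n + 1) → Option J) × Fin (n + 1) × Fin (n + 1) // p.2.1 ≠ p.2.2},
      {t : ℝ | ∑ k : Fin n, t ^ (k : ℕ) • vl f w (i.succAbove k) ∈ S p}).Finite :=
    Set.finite_iUnion fun p => finite_bad _ i hi _ (hS p p.2)
  obtain ⟨t, ht0, ht⟩ := ((Set.Ioi_infinite (0 : ℝ)).sdiff hfin).nonempty
  refine ⟨∑ k : Fin n, t ^ (k : ℕ) • vl f w (i.succAbove k), ⟨hi, i.insertNth 0
    (fun k : Fin n => t ^ (k : ℕ)), by simp, ?_, ?_⟩, ?_⟩
  · intro k hk
    obtain ⟨k', rfl⟩ := Fin.exists_succAbove_eq hk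
    simp only [Fin.insertNth_apply_succAbove]
    exact pow_pos ht0 _
  · rw [Fin.sum_univ_succAbove _ i]
    simp
  · intro h y hy a k hak hya hyk
    apply ht
    rw [Set.mem_iUnion]
    refine ⟨⟨(h, a, k), hak⟩, ?_⟩
    simp only [Set.mem_ofPred_eq]
    rw [← hy]
    apply Submodule.sum_mem
    intro u _
    by_cases hua : u = a
    · subst hua; rw [hya, zero_smul]; exact Submodule.zero_mem _
    by_cases huk : u = k
    · subst huk; rw [hyk, zero_smul]; exact Submodule.zero_mem _
    apply Submodule.smul_mem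
    apply Submodule.subset_span
    simp only [Finset.coe_image, Set.mem_image, Finset.mem_coe, Finset.mem_erase, Finset.mem_univ,
      and_true]
    exact ⟨u, ⟨huk, hua⟩, rfl⟩

end Words

end T0aux

open T0aux

/-- Module T0. -/
theorem T0 {n : ℕ} {J : Type*} [Fintype J] [DecidableEq J] (f : Fin (n + 1) → J → (Fin n → ℝ))
    (hbal : ∀ u, ∑ j, f u j = 0) (K : Set (Fin (n + 1) → Option J)) (hK : Dn K)
    (hind : ∀ w : Fin (n + 1) → Option J,
      LinearIndependent ℝ (fun u : supp w => (w u).elim 0 (f u)) → w ∈ K)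
    (hne : ∃ w : Fin (n + 1) → Option J, (supp w).card = n ∧
      LinearIndependent ℝ (fun u : supp w => (w u).elim 0 (f u)))
    (hA : Ac K (n + 1)) :
    ∃ w ∈ K, ∃ b : Fin (n + 1) → ℝ, (∀ u, 0 ≤ b u) ∧ b ≠ 0 ∧ (∀ u, w u = none → b u = 0) ∧
      ∑ u, b u • (w u).elim 0 (f u) = 0 := by
  classical
  by_contra hcon
  push Not at hcon
  obtain ⟨w0, hw0c, hw0⟩ := hne
  obtain ⟨i0, hi0, hdt0⟩ := dt_of_li hw0c hw0
  obtain ⟨q, hq0, hq⟩ := exists_q f w0 i0 hdt0
  -- the cycle
  set Ξ : (Fin (n + 1) → Option J) → ℝ := fun w => if w i0 = none then dt (vl f w) i0 else 0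
    with hΞ
  -- the cocycle
  set ψi : Fin (n + 1) → (Fin (n + 1) → Option J) → ℝ := fun i w =>
    if w i = none ∧ InC (vl f w) q i then (SignType.sign (dt (vl f w) i) : ℝ) else 0 with hψi
  set ψ : (Fin (n + 1) → Option J) → ℝ := fun w => ∑ i, ψi i w with hψ
  have hψone : ∀ (w : Fin (n + 1) → Option J) (i : Fin (n + 1)), (∀ k, k ≠ i → w k ≠ none) →
      ψ w = ψi i w := by
    intro w i hw
    rw [hψ]
    apply Finset.sum_eq_single i
    · intro k _ hk
      rw [hψi]
      simp only
      rw [if_neg]
      rintro ⟨h1, -⟩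
      exact hw k hk h1
    · intro h
      exact absurd (Finset.mem_univ _) h
  have hΞch : IsCh K n Ξ := by
    intro w hw
    have h1 : w i0 = none := by
      by_contra h
      exact hw (by rw [hΞ]; simp only; rw [if_neg h])
    have h2 : dt (vl f w) i0 ≠ 0 := by
      intro h
      exact hw (by rw [hΞ]; simp only; rw [if_pos h1, h])
    refine ⟨hind w (li_of_dt h1 h2), ?_⟩
    rw [supp_of_dt h1 h2, Finset.card_erase_of_mem (Finset.mem_univ _), Finset.card_univ,
      Fintype.card_fin]
    rfl
  have hΞbd : bd Ξ = 0 := by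
    funext w
    unfold bd
    apply Finset.sum_eq_zero
    intro u hu
    have hzero : ∑ j, Ξ (Function.update w u (some j)) = 0 := by
      rw [hΞ]
      simp only
      by_cases hui : u = i0
      · subst hui
        simp
      · by_cases hwi : w i0 = none
        · have : ∀ j, Function.update w u (some j) i0 = none := by
            intro j
            rw [Function.update_of_ne (Ne.symm hui), hwi]
          simp only [this, if_true]
          exact sum_dt hbal w hui
        · have : ∀ j, ¬ (Function.update w u (some j) i0 = none) := by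
            intro j
            rw [Function.update_of_ne (Ne.symm hui)]
            exact hwi
          simp only [this, if_false, Finset.sum_const_zero]
    rw [hzero, mul_zero]
  obtain ⟨y, hy, hbdy⟩ := hA n (Nat.lt_succ_self n) Ξ hΞch hΞbd
  -- the pairing is positive
  have hterm : ∀ w, 0 ≤ ψ w * Ξ w := by
    intro w
    by_cases h1 : w i0 = none
    · by_cases h2 : dt (vl f w) i0 = 0
      · have : Ξ w = 0 := by rw [hΞ]; simp only; rw [if_pos h1, h2]
        rw [this, mul_zero]
      · rw [hψone w i0 (fun k hk => dt_none h2 hk)]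
        rw [hψi, hΞ]
        simp only
        rw [if_pos h1]
        by_cases h3 : w i0 = none ∧ InC (vl f w) q i0
        · rw [if_pos h3, sign_mul_self]
          exact abs_nonneg _
        · rw [if_neg h3, zero_mul]
    · have : Ξ w = 0 := by rw [hΞ]; simp only; rw [if_neg h1]
      rw [this, mul_zero]
  have hpos : 0 < ∑ w, ψ w * Ξ w := by
    apply Finset.sum_pos' (fun w _ => hterm w)
    refine ⟨w0, Finset.mem_univ _, ?_⟩
    rw [hψone w0 i0 (fun k hk => dt_none hdt0 hk)]
    rw [hψi, hΞ]
    simp only
    rw [if_pos hi0, if_pos ⟨hi0, hq0⟩, sign_mul_self]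
    exact abs_pos.2 hdt0
  -- the pairing is zero
  have hzero : ∑ w, ψ w * Ξ w = 0 := by
    rw [← hbdy, adj]
    apply Finset.sum_eq_zero
    intro h _
    by_cases hyh : y h = 0
    · rw [hyh, zero_mul]
    obtain ⟨hhK, hhc⟩ := hy h hyh
    have hsupp : supp h = univ := by
      apply Finset.eq_univ_of_card
      rw [hhc, Fintype.card_fin]
    have hfull : ∀ u, h u ≠ none := by
      intro u hu
      have : u ∈ supp h := by rw [hsupp]; exact Finset.mem_univ _
      simp [supp, hu] at this
    have hkey := cone_sum (vl f h) q (by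
      intro b hb hsum
      by_contra hb0
      exact hcon h hhK b hb hb0 (fun u hu => absurd hu (hfull u)) hsum) (hq h)
    have hsum : ∑ u ∈ supp h, eps u (Function.update h u none) * ψ (Function.update h u none) = 0 := by
      refine Eq.trans ?_ hkey
      rw [hsupp]
      apply Finset.sum_congr rfl
      intro u _
      have e1 : eps u (Function.update h u none) = (-1) ^ (u : ℕ) := by
        unfold eps
        congr 1
        have : (supp (Function.update h u none)).filter (fun v => v < u) = Finset.Iio u := by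
          ext v
          simp only [supp, Finset.mem_filter, Finset.mem_univ, true_and, Finset.mem_Iio]
          constructor
          · exact fun hv => hv.2
          · intro hv
            refine ⟨?_, hv⟩
            rw [Function.update_of_ne hv.ne]
            exact Option.isSome_iff_ne_none.2 (hfull v)
        rw [this, Fin.card_Iio]
      have e2 : ψ (Function.update h u none) =
          if InC (vl f h) q u then (SignType.sign (dt (vl f h) u) : ℝ) else 0 := by
        rw [hψone (Function.update h u none) u (fun k hk => by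
          rw [Function.update_of_ne hk]; exact hfull k)]
        rw [hψi]
        simp only [Function.update_self, true_and]
        rw [dt_update]
        simp only [inC_update]
      rw [e1, e2]
    rw [hsum, mul_zero]
  exact absurd hzero hpos.ne'

end Pool.Agent.MPa0a351.Top
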