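import Pool.Agent.Lib.MP_a0a351_co.TopPR
import Pool.Agent.Lib.MP_a0a351_co.TopA1
import Pool.Agent.Lib.MP_a0a351_co.TopT0
import Pool.Agent.Lib.MP_a0a351_co.TopRado

/-!
REAY (MP_a0a351_co), module D4: Lemma T (TOP from the acyclicity of the deleted joins).
-/

set_option autoImplicit false

open Module Finset

namespace Pool.Agent.MPa0a351.Top

section D4
variable {V U J : Type*} [AddCommGroup V] [Module ℝ V] [FiniteDimensional ℝ V]
  [Fintype J] [DecidableEq J]

namespace TopD4

/-- The diagonal map. -/
noncomputable def diag (W : J → Submodule ℝ V) : V →ₗ[ℝ] (∀ j, V ⧸ W j) :=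
  LinearMap.pi (fun j => (W j).mkQ)

/-- The quotient of the sum of the rows by the diagonal. -/
abbrev QQ (W : J → Submodule ℝ V) := (∀ j, V ⧸ W j) ⧸ LinearMap.range (diag W)

/-- The vector of the colour `u` in the row `j`. -/
noncomputable def FF (W : J → Submodule ℝ V) (y : U → V) (u : U) (j : J) : QQ W :=
  (LinearMap.range (diag W)).mkQ (Pi.single j ((W j).mkQ (y u)))

omit [FiniteDimensional ℝ V] in
theorem sum_FF (W : J → Submodule ℝ V) (y : U → V) (u : U) : ∑ j, FF W y u j = 0 := by
  unfold FF
  rw [← map_sum, Finset.univ_sum_single, Submodule.mkQ_apply, Submodule.Quotient.mk_eq_zero]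
  exact ⟨y u, rfl⟩

omit [DecidableEq J] in
theorem finrank_QQ (W : J → Submodule ℝ V) :
    finrank ℝ (QQ W) + finrank ℝ (V ⧸ ⨅ j, W j) = ∑ j, finrank ℝ (V ⧸ W j) := by
  have h1 := Submodule.finrank_quotient_add_finrank (LinearMap.range (diag W))
  have hker : LinearMap.ker (diag W) = ⨅ j, W j := by
    unfold diag
    rw [LinearMap.ker_pi]
    simp
  have h2 : finrank ℝ (LinearMap.range (diag W)) = finrank ℝ (V ⧸ ⨅ j, W j) := by
    rw [← hker]
    exact (LinearEquiv.finrank_eq (LinearMap.quotKerEquivRange (diag W))).symm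
  rw [h2] at h1
  rw [h1, Module.finrank_pi_fintype]

omit [FiniteDimensional ℝ V] [Fintype J] in
/-- From a dependence with nonnegative coefficients on a word of the deleted join to TOP. -/
theorem final_step (W : J → Submodule ℝ V) (y : U → V) {m : ℕ} (e : Fin m → U)
    (he : Function.Injective e) (w : Fin m → Option J)
    (hw : w ∈ DJ (PR W (y ∘ e)) (univ : Finset (Fin m))) (b : Fin m → ℝ) (hb0 : ∀ i, 0 ≤ b i)
    (hb : b ≠ 0) (hbn : ∀ i, w i = none → b i = 0)
    (hsum : ∑ i, b i • (w i).elim 0 (FF W y (e i)) = 0) :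
    ∃ (v : V) (L : J → Finset U) (c : U → ℝ), v ∉ ⨅ j, W j ∧
      (∀ i j, i ≠ j → Disjoint (L i) (L j)) ∧ (∀ u, 0 ≤ c u) ∧
      ∀ j, v - ∑ u ∈ L j, c u • y u ∈ W j := by
  classical
  have h1 : (LinearMap.range (diag W)).mkQ
      (∑ i, b i • (w i).elim 0 (fun j => Pi.single j ((W j).mkQ (y (e i))))) = 0 := by
    rw [← hsum, map_sum]
    refine Finset.sum_congr rfl fun i _ => ?_
    rw [map_smul]
    congr 1
    cases w i with
    | none => simp
    | some j => rfl
  rw [Submodule.mkQ_apply, Submodule.Quotient.mk_eq_zero] at h1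
  obtain ⟨v, hv⟩ := h1
  have hvj : ∀ j, (W j).mkQ v = ∑ i ∈ sl w j, b i • (W j).mkQ (y (e i)) := by
    intro j
    have h2 := congrFun hv j
    have h3 : diag W v j = (W j).mkQ v := rfl
    rw [h3] at h2
    rw [h2, Finset.sum_apply]
    unfold sl
    rw [Finset.sum_filter]
    refine Finset.sum_congr rfl fun i _ => ?_
    rw [Pi.smul_apply]
    cases hwi : w i with
    | none => simp
    | some j' =>
      by_cases hj : j' = j
      · subst hj
        simp
      · rw [if_neg (fun h => hj (Option.some.inj h))]
        have : (Pi.single j' ((W j').mkQ (y (e i))) : ∀ j, V ⧸ W j) j = 0 :=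
          Pi.single_eq_of_ne (fun h => hj h.symm) _
        simp only [Option.elim_some]
        rw [this, smul_zero]
  have hc : ∀ i, Function.extend e b 0 (e i) = b i := fun i => he.extend_apply b 0 i
  refine ⟨v, fun j => (sl w j).image e, Function.extend e b 0, ?_, ?_, ?_, ?_⟩
  · intro hvm
    rw [Submodule.mem_iInf] at hvm
    apply hb
    funext i
    cases hwi : w i with
    | none => exact hbn i hwi
    | some j =>
      obtain ⟨h, hh⟩ := hw.2 j
      have h2 : (W j).mkQ v = 0 := by
        rw [Submodule.mkQ_apply, Submodule.Quotient.mk_eq_zero]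
        exact hvm j
      rw [hvj j] at h2
      have h3 := congrArg h h2
      rw [map_sum, map_zero] at h3
      have h4 : ∀ k ∈ sl w j, 0 ≤ h (b k • (W j).mkQ (y (e k))) := by
        intro k hk
        rw [map_smul, smul_eq_mul]
        exact mul_nonneg (hb0 k) (hh k hk).le
      have hi : i ∈ sl w j := by
        unfold sl
        rw [Finset.mem_filter]
        exact ⟨Finset.mem_univ _, hwi⟩
      have h5 := (Finset.sum_eq_zero_iff_of_nonneg h4).mp h3 i hi
      rw [map_smul, smul_eq_mul] at h5
      exact (mul_eq_zero.mp h5).resolve_right (hh i hi).ne'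
  · intro i j hij
    rw [Finset.disjoint_left]
    intro u hu hu'
    rw [Finset.mem_image] at hu hu'
    obtain ⟨k, hk, rfl⟩ := hu
    obtain ⟨k', hk', hkk⟩ := hu'
    rw [he hkk] at hk'
    unfold sl at hk hk'
    rw [Finset.mem_filter] at hk hk'
    exact hij (Option.some.inj (hk.2.symm.trans hk'.2))
  · intro u
    by_cases hu : ∃ i, e i = u
    · obtain ⟨i, rfl⟩ := hu
      rw [hc]
      exact hb0 i
    · rw [Function.extend_apply' _ _ _ hu]
      rfl
  · intro j
    rw [← Submodule.Quotient.mk_eq_zero, ← Submodule.mkQ_apply, map_sub, hvj, map_sum,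
      Finset.sum_image (fun a _ b _ hab => he hab), sub_eq_zero]
    refine Finset.sum_congr rfl fun i _ => ?_
    rw [map_smul, hc]

/-- The span of the vectors of a set of colours. -/
noncomputable def sp (W : J → Submodule ℝ V) (y : U → V) (S : Finset U) : Submodule ℝ (QQ W) :=
  Submodule.span ℝ {x | ∃ u ∈ S, ∃ j, FF W y u j = x}

omit [FiniteDimensional ℝ V] [Fintype J] in
theorem sp_mono (W : J → Submodule ℝ V) (y : U → V) {S T : Finset U} (h : S ⊆ T) :
    sp W y S ≤ sp W y T :=
  Submodule.span_mono (fun _ ⟨u, hu, hj⟩ => ⟨u, h hu, hj⟩)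

/-- A minimal set of colours whose vectors are dependent for every choice of rows. -/
theorem exists_min [Fintype U] [DecidableEq U] (W : J → Submodule ℝ V) (y : U → V)
    (hcard : finrank ℝ (QQ W) + 1 = Fintype.card U) :
    ∃ S : Finset U, ∃ b ∈ S, finrank ℝ (sp W y S) + 1 = S.card ∧
      ∀ S' ⊆ S.erase b, S'.card ≤ finrank ℝ (sp W y S') := by
  classical
  have hex : ∃ n, ∃ S : Finset U, S.Nonempty ∧ finrank ℝ (sp W y S) + 1 ≤ S.card ∧
      S.card = n := by
    refine ⟨_, univ, ?_, ?_, rfl⟩
    · rw [← Finset.card_pos, Finset.card_univ]; omega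
    · rw [Finset.card_univ]
      have := Submodule.finrank_le (sp W y (univ : Finset U))
      omega
  obtain ⟨S, hSne, hS, hSc⟩ := Nat.find_spec hex
  have hmin : ∀ S' : Finset U, S'.card < S.card → S'.card ≤ finrank ℝ (sp W y S') := by
    intro S' hS'
    rcases S'.eq_empty_or_nonempty with rfl | hne
    · rw [Finset.card_empty]; exact Nat.zero_le _
    by_contra hcon
    push Not at hcon
    exact Nat.find_min hex (m := S'.card) (by omega) ⟨S', hne, by omega, rfl⟩
  obtain ⟨b, hb⟩ := hSne
  have hcb : (S.erase b).card + 1 = S.card := Finset.card_erase_add_one hb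
  refine ⟨S, b, hb, ?_, ?_⟩
  · have h1 := hmin (S.erase b) (by omega)
    have h2 := Submodule.finrank_mono (sp_mono W y (Finset.erase_subset b S))
    omega
  · intro S' hS'
    have := Finset.card_le_card hS'
    exact hmin S' (by omega)

/-- A functional which is one on an independent family. -/
theorem exists_one {ι E : Type*} [AddCommGroup E] [Module ℝ E] {v : ι → E}
    (hv : LinearIndependent ℝ v) : ∃ h : E →ₗ[ℝ] ℝ, ∀ i, h (v i) = 1 := by
  obtain ⟨h, hh⟩ := LinearMap.exists_extend
    ((Finsupp.lsum ℝ (fun _ : ι => (LinearMap.id : ℝ →ₗ[ℝ] ℝ))).comp hv.repr)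
  refine ⟨h, fun i => ?_⟩
  have h1 := LinearMap.congr_fun hh ⟨v i, Submodule.subset_span ⟨i, rfl⟩⟩
  rw [LinearMap.comp_apply, LinearMap.comp_apply, Submodule.subtype_apply] at h1
  rw [h1, hv.repr_eq_single i _ rfl]
  simp

end TopD4

open TopD4

/-- Lemma T. -/
theorem top_of_ac [Fintype U] [DecidableEq U] (W : J → Submodule ℝ V) (y : U → V)
    (hcard : ∑ j, finrank ℝ (V ⧸ W j) + 1 = finrank ℝ (V ⧸ ⨅ j, W j) + Fintype.card U)
    (hA : ∀ (m : ℕ) (e : Fin m → U), Function.Injective e →
      Ac (DJ (PR W (y ∘ e)) (univ : Finset (Fin m))) m) :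
    ∃ (v : V) (L : J → Finset U) (c : U → ℝ), v ∉ ⨅ j, W j ∧
      (∀ i j, i ≠ j → Disjoint (L i) (L j)) ∧ (∀ u, 0 ≤ c u) ∧
      ∀ j, v - ∑ u ∈ L j, c u • y u ∈ W j := by
  classical
  have hQ := finrank_QQ W
  obtain ⟨S, b, hb, hSr, hSer⟩ := exists_min W y (by omega)
  -- the index type
  obtain ⟨n, hn⟩ : ∃ n, S.card = n + 1 := ⟨finrank ℝ (sp W y S), hSr.symm⟩
  have hfr : finrank ℝ (sp W y S) = n := by omega
  let e0 : Fin (n + 1) ≃ S := (S.equivFinOfCardEq hn).symm
  let e : Fin (n + 1) → U := fun i => (e0 i : U)
  have he : Function.Injective e := fun i j hij => e0.injective (Subtype.ext hij)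
  have heS : ∀ i, e i ∈ S := fun i => (e0 i).2
  let φ : sp W y S ≃ₗ[ℝ] (Fin n → ℝ) := LinearEquiv.ofFinrankEq _ _ (by rw [hfr]; simp)
  have hmem : ∀ i j, FF W y (e i) j ∈ sp W y S := fun i j =>
    Submodule.subset_span ⟨e i, heS i, j, rfl⟩
  let G : Fin (n + 1) → J → sp W y S := fun i j => ⟨FF W y (e i) j, hmem i j⟩
  let f : Fin (n + 1) → J → (Fin n → ℝ) := fun i j => φ (G i j)
  have hbal : ∀ i, ∑ j, f i j = 0 := by
    intro i
    have h1 : ∑ j, G i j = 0 := by
      apply Subtype.ext
      rw [Submodule.coe_sum]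
      exact sum_FF W y (e i)
    simp only [f]
    rw [← map_sum, h1, map_zero]
  have helim : ∀ (w : Fin (n + 1) → Option J) (i : Fin (n + 1)),
      (w i).elim 0 (f i) = φ ((w i).elim 0 (G i)) := by
    intro w i
    cases w i with
    | none => simp
    | some j => rfl
  have helim2 : ∀ (w : Fin (n + 1) → Option J) (i : Fin (n + 1)),
      (((w i).elim 0 (G i) : sp W y S) : QQ W) = (w i).elim 0 (FF W y (e i)) := by
    intro w i
    cases w i with
    | none => simp
    | some j => rfl
  have hJ : Nonempty J := by
    by_contra hJ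
    rw [not_nonempty_iff] at hJ
    have hnone : ∀ (w : Fin 1 → Option J) (i : Fin 1), w i = none := by
      intro w i
      cases w i with
      | none => rfl
      | some j => exact (hJ.false j).elim
    obtain ⟨z, _, hz⟩ := hA 1 (fun _ => b) (Function.injective_of_subsingleton _) 0 one_pos
      (fun _ => 1) (by
        intro w _
        refine ⟨⟨Finset.subset_univ _, fun j => (hJ.false j).elim⟩, ?_⟩
        rw [Finset.card_eq_zero, Finset.eq_empty_iff_forall_notMem]
        intro i hi
        unfold supp at hi
        rw [Finset.mem_filter, hnone w i] at hi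
        simp at hi) (by
        funext w
        unfold bd
        simp)
    have h1 := congrFun hz (fun _ => none)
    unfold bd at h1
    simp at h1
  -- the word of Rado's theorem
  obtain ⟨g, hg⟩ := rado (FF W y) (S.erase b) hSer
  have hind : ∀ w : Fin (n + 1) → Option J,
      LinearIndependent ℝ (fun u : supp w => (w u).elim 0 (f u)) →
        w ∈ DJ (PR W (y ∘ e)) (univ : Finset (Fin (n + 1))) := by
    -- independent words are pointed
    intro w hw
    refine ⟨Finset.subset_univ _, fun j => ?_⟩
    have h1 : LinearIndependent ℝ (fun i : sl w j => (W j).mkQ (y (e i))) := by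
      let ψ : (V ⧸ W j) →ₗ[ℝ] QQ W :=
        (LinearMap.range (diag W)).mkQ.comp (LinearMap.single ℝ (fun j => V ⧸ W j) j)
      refine LinearIndependent.of_comp ψ ?_
      have hs : ∀ i : sl w j, (i : Fin (n + 1)) ∈ supp w := by
        rintro ⟨i, hi⟩
        unfold sl at hi
        unfold supp
        rw [Finset.mem_filter] at hi ⊢
        refine ⟨Finset.mem_univ _, ?_⟩
        simp only
        rw [hi.2]
        rfl
      have h2 := hw.comp (fun i : sl w j => (⟨i, hs i⟩ : supp w))
        (fun a b hab => Subtype.ext (congrArg (fun z : supp w => (z : Fin (n + 1))) hab))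
      have h3 : LinearIndependent ℝ (fun i : sl w j => G i j) := by
        refine LinearIndependent.of_comp φ.toLinearMap ?_
        convert h2 using 1
        funext i
        have hi : w i = some j := by
          have := i.2
          unfold sl at this
          exact (Finset.mem_filter.mp this).2
        simp only [Function.comp_apply]
        rw [hi]
        rfl
      exact h3.map' (sp W y S).subtype (Submodule.ker_subtype _)
    obtain ⟨h, hh⟩ := exists_one h1
    exact ⟨h, fun i hi => by
      have := hh ⟨i, hi⟩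
      simp only [Function.comp_apply]
      rw [this]
      exact one_pos⟩
  have hne : ∃ w : Fin (n + 1) → Option J, (supp w).card = n ∧
      LinearIndependent ℝ (fun u : supp w => (w u).elim 0 (f u)) := by
    -- the nondegenerate word
    refine ⟨fun i => if e i = b then none else some (g (e i)), ?_, ?_⟩
    · have h1 : supp (fun i => if e i = b then none else some (g (e i)))
          = univ.erase (e0.symm ⟨b, hb⟩) := by
        ext i
        unfold supp
        rw [Finset.mem_filter, Finset.mem_erase]
        beta_reduce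
        by_cases hi : e i = b
        · have hi2 : i = e0.symm ⟨b, hb⟩ := by
            rw [Equiv.eq_symm_apply]
            exact Subtype.ext hi
          rw [if_pos hi]
          constructor
          · rintro ⟨_, h⟩
            exact absurd h (by simp)
          · rintro ⟨h, _⟩
            exact absurd hi2 h
        · have hi2 : i ≠ e0.symm ⟨b, hb⟩ := by
            rintro rfl
            apply hi
            simp [e]
          rw [if_neg hi]
          exact ⟨fun _ => ⟨hi2, Finset.mem_univ _⟩, fun _ => ⟨Finset.mem_univ _, rfl⟩⟩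
      rw [h1, Finset.card_erase_of_mem (Finset.mem_univ _), Finset.card_univ, Fintype.card_fin]
      rfl
    · set w : Fin (n + 1) → Option J := fun i => if e i = b then none else some (g (e i)) with hw
      have hs : ∀ i : supp w, e i ∈ S.erase b := by
        rintro ⟨i, hi⟩
        unfold supp at hi
        rw [Finset.mem_filter] at hi
        rw [Finset.mem_erase]
        refine ⟨?_, heS i⟩
        intro h
        rw [hw] at hi
        simp [h] at hi
      have h2 := hg.comp (fun i : supp w => (⟨e i, hs i⟩ : (S.erase b : Finset U)))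
        (fun a c hac => Subtype.ext (he (congrArg (fun z : (S.erase b : Finset U) => (z : U)) hac)))
      have h3 : LinearIndependent ℝ (fun i : supp w => G i (g (e i))) := by
        refine LinearIndependent.of_comp (sp W y S).subtype ?_
        exact h2
      have h4 := h3.map' φ.toLinearMap φ.ker
      have h5 : (fun i : supp w => (w i).elim 0 (f i))
          = (φ.toLinearMap ∘ fun i : supp w => G i (g (e i))) := by
        funext i
        have hi : w i = some (g (e i)) := if_neg (Finset.mem_erase.mp (hs i)).1
        simp only [Function.comp_apply]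
        rw [hi]
        rfl
      rw [h5]
      exact h4
  obtain ⟨w, hw, β, hβ0, hβ, hβn, hβs⟩ := T0 f hbal (DJ (PR W (y ∘ e)) univ)
    (dn_DJ (dnS_PR W (y ∘ e)) univ) hind hne (hA (n + 1) e he)
  refine final_step W y e he w hw β hβ0 hβ hβn ?_
  have h1 : φ (∑ i, β i • (w i).elim 0 (G i)) = 0 := by
    rw [← hβs, map_sum]
    refine Finset.sum_congr rfl fun i _ => ?_
    rw [map_smul, helim]
  rw [LinearEquiv.map_eq_zero_iff] at h1
  have h2 := congrArg (Submodule.subtype (sp W y S)) h1
  rw [map_sum, map_zero] at h2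
  refine (Finset.sum_congr rfl fun i _ => ?_).trans h2
  rw [map_smul, Submodule.subtype_apply, helim2]

end D4

end Pool.Agent.MPa0a351.Top
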