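import Pool.Agent.Lib.MP_a0a351_co.TopPR

/-!
Two steps of Lemma T of MP_a0a351_co: words whose vectors are independent have pointed slices, and
a nonnegative dependence of a word gives a conic solution.
-/

set_option autoImplicit false

open Module Finset

namespace Pool.Agent.MPa0a351.Top

namespace TopD4b

variable {V J E : Type*} [AddCommGroup V] [Module ℝ V] [Fintype J] [DecidableEq J]
  [AddCommGroup E] [Module ℝ E]

omit [Fintype J] in
/-- Words whose vectors are independent have pointed slices. -/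
theorem indep_mem {m : ℕ} (W : J → Submodule ℝ V) (y : Fin m → V)
    (i : (j : J) → (V ⧸ W j) →ₗ[ℝ] E) (w : Fin m → Option J)
    (h : LinearIndependent ℝ
      (fun u : supp w => (w u).elim 0 (fun j => i j ((W j).mkQ (y u))))) :
    w ∈ DJ (PR W y) (univ : Finset (Fin m)) := by
  refine ⟨Finset.subset_univ _, fun j => ?_⟩
  have hsub : ∀ u : sl w j, (u : Fin m) ∈ supp w := by
    intro u
    have hu := (Finset.mem_filter.mp u.2).2
    exact Finset.mem_filter.mpr ⟨Finset.mem_univ _, by rw [hu]; rfl⟩
  have h1 := h.comp (fun u : sl w j => (⟨u, hsub u⟩ : supp w)) (by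
    intro a b hab
    have := congrArg (fun z : supp w => (z : Fin m)) hab
    exact Subtype.ext this)
  have h2 : LinearIndependent ℝ (fun u : sl w j => i j ((W j).mkQ (y u))) := by
    convert h1 using 1
    funext u
    have hu := (Finset.mem_filter.mp u.2).2
    simp only [Function.comp_apply]
    rw [hu]
    rfl
  have h3 : LinearIndependent ℝ (fun u : sl w j => (W j).mkQ (y u)) :=
    LinearIndependent.of_comp (i j) h2
  obtain ⟨f, hf⟩ := LinearMap.exists_extend ((Basis.span h3).constr ℝ (fun _ => (1 : ℝ)))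
  refine ⟨f, fun u hu => ?_⟩
  have h4 : (W j).mkQ (y u) = ((Basis.span h3) ⟨u, hu⟩ : V ⧸ W j) := by
    rw [Basis.span_apply]
  have h5 := LinearMap.congr_fun hf ((Basis.span h3) ⟨u, hu⟩)
  simp only [LinearMap.comp_apply, Submodule.subtype_apply, Basis.constr_basis] at h5
  rw [h4, h5]
  exact one_pos

/-- From a nonnegative dependence of a word to a conic solution. -/
theorem conclude {m : ℕ} (W : J → Submodule ℝ V) (y : Fin m → V)
    (i : (j : J) → (V ⧸ W j) →ₗ[ℝ] E)
    (hker : ∀ z : (j : J) → V ⧸ W j, ∑ j, i j (z j) = 0 → ∃ v : V, ∀ j, (W j).mkQ v = z j)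
    (w : Fin m → Option J) (hw : w ∈ DJ (PR W y) (univ : Finset (Fin m))) (b : Fin m → ℝ)
    (hb : ∀ u, 0 ≤ b u) (hb0 : b ≠ 0) (hbn : ∀ u, w u = none → b u = 0)
    (hsum : ∑ u, b u • (w u).elim 0 (fun j => i j ((W j).mkQ (y u))) = 0) :
    ∃ v : V, v ∉ ⨅ j, W j ∧ ∀ j, v - ∑ u ∈ sl w j, b u • y u ∈ W j := by
  obtain ⟨v, hv⟩ := hker (fun j => (W j).mkQ (∑ u ∈ sl w j, b u • y u)) (by
    rw [← hsum]
    have e1 : ∀ j, i j ((W j).mkQ (∑ u ∈ sl w j, b u • y u)) =
        ∑ u, if w u = some j then b u • i j ((W j).mkQ (y u)) else 0 := by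
      intro j
      rw [map_sum, map_sum, ← Finset.sum_filter]
      refine Finset.sum_congr rfl fun u _ => ?_
      rw [map_smul, map_smul]
    rw [Finset.sum_congr rfl (fun j _ => e1 j), Finset.sum_comm]
    refine Finset.sum_congr rfl fun u _ => ?_
    cases hwu : w u with
    | none => simp
    | some j0 =>
      rw [Finset.sum_eq_single j0]
      · simp
      · intro j _ hj
        rw [if_neg]
        intro h
        exact hj (Option.some.inj h).symm
      · intro h
        exact absurd (Finset.mem_univ _) h)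
  refine ⟨v, fun hmem => ?_, fun j => ?_⟩
  · have hu : ∃ u, b u ≠ 0 := by
      by_contra hc
      push Not at hc
      exact hb0 (funext hc)
    obtain ⟨u, hu⟩ := hu
    obtain ⟨j, hj⟩ : ∃ j, w u = some j := by
      cases hwu : w u with
      | none => exact absurd (hbn u hwu) hu
      | some j => exact ⟨j, rfl⟩
    obtain ⟨h, hh⟩ := hw.2 j
    have h0 : (W j).mkQ v = 0 := by
      rw [Submodule.mkQ_apply, Submodule.Quotient.mk_eq_zero]
      exact (Submodule.mem_iInf _).mp hmem j
    have h1 := hv j
    rw [h0] at h1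
    have h2 : ∑ u ∈ sl w j, b u * h ((W j).mkQ (y u)) = 0 := by
      have := congrArg h h1
      rw [map_zero] at this
      simp only [map_sum, map_smul, smul_eq_mul] at this
      exact this.symm
    have h3 : 0 < ∑ u ∈ sl w j, b u * h ((W j).mkQ (y u)) := by
      refine Finset.sum_pos' (fun u' hu' => mul_nonneg (hb u') (hh u' hu').le)
        ⟨u, Finset.mem_filter.mpr ⟨Finset.mem_univ _, hj⟩, ?_⟩
      exact mul_pos (lt_of_le_of_ne (hb u) (Ne.symm hu))
        (hh u (Finset.mem_filter.mpr ⟨Finset.mem_univ _, hj⟩))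
    linarith
  · have := hv j
    rw [← sub_eq_zero, ← map_sub, Submodule.mkQ_apply, Submodule.Quotient.mk_eq_zero] at this
    exact this

end TopD4b
end Pool.Agent.MPa0a351.Top
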