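import Pool.Agent.Lib.MP_a0a351_co.TopPR
import Pool.Agent.Lib.MP_a0a351_co.TopC
import Pool.Agent.Lib.MP_a0a351_co.TopA3

set_option autoImplicit false

/-!
The deleted join of the rows of a state is acyclic.
-/

open Module Finset

namespace Pool.Agent.MPa0a351.Top

section E1
variable {V J : Type*} [AddCommGroup V] [Module ℝ V] [Fintype J] [DecidableEq J]

theorem ac_PR [FiniteDimensional ℝ V] {c D m : ℕ} (hc : 1 ≤ c) (W : J → Submodule ℝ V)
    (y : Fin m → V)
    (hgp : ∀ j, ∀ Q : Finset (Fin m), Q.card ≤ finrank ℝ (V ⧸ W j) →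
      LinearIndependent ℝ (fun i : Q => (W j).mkQ (y i)))
    (hcj : ∀ j, finrank ℝ (V ⧸ W j) ≤ c) (hD : m + D ≤ ∑ j, finrank ℝ (V ⧸ W j) + 1)
    (hm : m ≤ phi c D) : Ac (DJ (PR W y) (univ : Finset (Fin m))) m := by
  have h := thmF hc (univ : Finset J) (PR W y) (univ : Finset (Fin m))
    (fun j hj => absurd (mem_univ j) hj) (fun j => finrank ℝ (V ⧸ W j)) hcj
    (fun j _ => row_PR W y j univ (hgp j)) D (by simpa using hD) (by simpa using hm)
  simpa using h

theorem ac_PR_simplex {m : ℕ} (W : J → Submodule ℝ V) (y : Fin m → V) (j : J)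
    (h : ∃ h : (V ⧸ W j) →ₗ[ℝ] ℝ, ∀ u, 0 < h ((W j).mkQ (y u))) :
    Ac (DJ (PR W y) (univ : Finset (Fin m))) m := by
  obtain ⟨h, hh⟩ := h
  have h1 := cover (Γ := PR W y) (fun j => dnS_PR W y j) (T := (univ : Finset (Fin m))) j
    ⟨h, fun u _ => hh u⟩
  simpa using h1

end E1

end Pool.Agent.MPa0a351.Top
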