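import Pool.Agent.Lib.MP_a0a351_co.TopD4
import Pool.Agent.Lib.MP_a0a351_co.TopE1
import Pool.Agent.Lib.MP_a0a351_co.LPE
import Pool.Agent.Lib.MP_a0a351_co.Greedy
import Pool.Agent.Lib.MP_a0a351_co.Final

/-!
Module E2: Reay's conjecture (MP_a0a351_co) from the failing max state, the LP lemma, Theorem F and
Lemma T.
-/

set_option autoImplicit false

open Module Finset

namespace Pool.Agent.MPa0a351.Top

/-- Reay's conjecture in vector form. -/
theorem reay_full {ι V : Type*} [Fintype ι] [NormedAddCommGroup V] [NormedSpace ℝ V]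
    [FiniteDimensional ℝ V] (d r k : ℕ) (hd : finrank ℝ V = d) (hr : 1 ≤ r) (hk : k ≤ d)
    (X : ι → V) (hX : GPV d X) (hcard : Fintype.card ι = (d + 1) * (r - 1) + 1 + k) :
    ∃ f : ι → Fin r, ∃ q : Fin (k + 1) → V, AffineIndependent ℝ q ∧
      ∀ j : Fin (k + 1), ∀ i : Fin r, q j ∈ convexHull ℝ (X '' {m : ι | f m = i}) := by
  classical
  obtain ⟨o, A, h⟩ := exists_maxState d r hd hr X (by omega)
  by_cases hek : k ≤ finrank ℝ (EE X o A)
  · exact conclude hr X o A h.pre hek
  exfalso
  push Not at hek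
  obtain ⟨hN, hL, hspan⟩ := h.numbers hd hr hX hek hcard
  set e := finrank ℝ (EE X o A) with he
  set L := univ \ univ.biUnion A with hLdef
  have hLj : ∀ i, Disjoint L (A i) := by
    intro i
    rw [Finset.disjoint_left]
    intro x hx hxj
    exact (Finset.mem_sdiff.mp hx).2 (Finset.mem_biUnion.mpr ⟨i, Finset.mem_univ _, hxj⟩)
  -- the number of unused elements
  have hbU : (univ.biUnion A).card = ∑ j, (A j).card :=
    Finset.card_biUnion (fun i _ j _ hij => h.pre.disj i j hij)
  have hLc : L.card + ∑ j, (A j).card = Fintype.card ι := by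
    rw [hLdef, Finset.card_sdiff_of_subset (Finset.subset_univ _), hbU, Finset.card_univ]
    have : ∑ j, (A j).card ≤ Fintype.card ι := by
      rw [← hbU]; exact Finset.card_le_univ _
    omega
  have hNsum : ∑ j, (d + 1 - (A j).card) + ∑ j, (A j).card = r * (d + 1) := by
    rw [← Finset.sum_add_distrib,
      Finset.sum_congr rfl (fun j _ => Nat.sub_add_cancel (h.pre.card j))]
    simp
  have hr' : r * (d + 1) = (d + 1) * (r - 1) + (d + 1) := by
    obtain ⟨r', rfl⟩ : ∃ r', r = r' + 1 := ⟨r - 1, by omega⟩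
    simp only [Nat.add_sub_cancel]; ring
  have hLN : L.card + d = ∑ j, (d + 1 - (A j).card) + k := by omega
  have hEle : ∀ j, EE X o A ≤ Sp (fun x => X x - o) (A j) := fun j => iInf_le _ j
  set y : ι → V := fun x => X x - o with hy
  set W : Fin r → Submodule ℝ V := fun j => Sp y (A j) with hW
  have hWE : (⨅ j, W j) = EE X o A := rfl
  have hcod : ∀ j, finrank ℝ (V ⧸ W j) = d + 1 - (A j).card := fun j => by
    have := finrank_quot_sp hd hX h.pre j
    show finrank ℝ (V ⧸ Sp (fun x => X x - o) (A j)) = _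
    omega
  have hEq := Submodule.finrank_quotient_add_finrank (EE X o A)
  have hed : e < d := by omega
  -- the largest excess
  have hfr : (univ : Finset (Fin r)).Nonempty := ⟨⟨0, by omega⟩, mem_univ _⟩
  obtain ⟨j0, -, hj0⟩ := Finset.exists_max_image (univ : Finset (Fin r))
    (fun j => d + 1 - (A j).card) hfr
  set c := d + 1 - (A j0).card with hc
  have hNm : ∑ j, (d + 1 - (A j).card) ≤ r * c := by
    refine (Finset.sum_le_sum fun j _ => hj0 j (mem_univ j)).trans ?_
    simp
  have hc1 : 1 ≤ c := by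
    rw [Nat.one_le_iff_ne_zero]
    intro h0
    rw [h0] at hNm
    omega
  -- the LP bound for the row `j0`
  have hjc := h.pre.card j0
  have hfin := (hX.sub o).finrank_circ (h.pre.circ j0) hjc
  have hEfin : e ≤ finrank ℝ (Sp (fun x => X x - o) (A j0)) := Submodule.finrank_mono (hEle j0)
  have hce : c + e ≤ d := by omega
  have hlp := LP.lp_bound_E (F := L) (c := c) hd (hX.sub o) (EE X o A) (hEle j0) (hLj j0).symm
    (h.pre.circ j0) (by omega) (by
      intro η hη0 hη
      exact hspan η hη0 (fun x hx => hη x (hEle j0 hx))) (by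
      intro T hT hTc hTcard
      refine h.exch j0 T (fun i hij => ?_) hTc hTcard
      refine Finset.disjoint_of_subset_left hT ?_
      rw [Finset.disjoint_union_left]
      exact ⟨h.pre.disj j0 i hij.symm, hLj i⟩)
  have hLphi : L.card ≤ phi c (d - e) := by
    refine le_phi hc1 (by omega) ?_
    have h1 : (A j0).card - finrank ℝ (EE X o A) = d - e + 1 - c := by omega
    have h2 : (A j0).card - finrank ℝ (EE X o A) - 1 = d - e - c := by omega
    rw [h2, h1] at hlp
    exact hlp
  -- the colours
  set m := ∑ j, (d + 1 - (A j).card) + 1 - (d - e) with hm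
  have hmL : m ≤ L.card := by omega
  obtain ⟨L', hL'L, hL'c⟩ := Finset.exists_subset_card_eq hmL
  have hgp : ∀ (m' : ℕ) (g : Fin m' → L'), Function.Injective g → ∀ j, ∀ Q : Finset (Fin m'),
      Q.card ≤ finrank ℝ (V ⧸ W j) →
        LinearIndependent ℝ (fun i : Q => (W j).mkQ (y (g i))) := by
    intro m' g hg j Q hQ
    have hcod' := hcod j
    rw [hcod'] at hQ
    have hg' : Function.Injective (fun i : Fin m' => (g i : ι)) :=
      Subtype.val_injective.comp hg
    have h1 := (hX.sub o).indep (h.pre.circ j) (Q.map ⟨_, hg'⟩) ?_ ?_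
    · have h2 := h1.comp (fun i : Q => (⟨(g i : ι), Finset.mem_map_of_mem _ i.2⟩ :
        (Q.map ⟨_, hg'⟩ : Finset ι)))
        (fun a b hab => Subtype.ext (hg' (Subtype.mk.inj hab)))
      exact h2
    · rw [Finset.disjoint_right]
      intro x hx hx'
      obtain ⟨a, -, rfl⟩ := Finset.mem_map.mp hx
      exact Finset.disjoint_left.mp (hLj j) (hL'L (g a).2) hx'
    · rw [Finset.card_map]
      have := h.pre.card j
      omega
  have hsum : ∑ j, finrank ℝ (V ⧸ W j) = ∑ j, (d + 1 - (A j).card) :=
    Finset.sum_congr rfl (fun j _ => hcod j)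
  obtain ⟨v, Ls, a, hv, hdis, ha, hvW⟩ := top_of_ac (U := L') W (fun i => y i) (by
    rw [hsum, hWE, Fintype.card_coe, hL'c]
    omega) (by
    intro m' g hg
    have hm' : m' ≤ m := by
      have := Fintype.card_le_of_injective g hg
      rw [Fintype.card_fin, Fintype.card_coe, hL'c] at this
      exact this
    refine ac_PR (c := c) (D := d - e) hc1 W _ (hgp m' g hg) (fun j => ?_) ?_ ?_
    · rw [hcod j]
      exact hj0 j (mem_univ j)
    · rw [hsum]
      omega
    · exact hm'.trans (hmL.trans hLphi))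
  -- progress
  let Ls' : Fin r → Finset ι := fun j => (Ls j).map (Function.Embedding.subtype _)
  let a' : ι → ℝ := fun i => if hi : i ∈ L' then a ⟨i, hi⟩ else 0
  have g1 : ∀ i j, i ≠ j → Disjoint (Ls' i) (Ls' j) := by
    intro i j hij
    exact (Finset.disjoint_map _).mpr (hdis i j hij)
  have g2 : ∀ i j, Disjoint (Ls' i) (A j) := by
    intro i j
    rw [Finset.disjoint_left]
    intro x hx hx'
    obtain ⟨b, -, rfl⟩ := Finset.mem_map.mp hx
    exact Finset.disjoint_left.mp (hLj j) (hL'L b.2) hx'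
  have g3 : ∀ i, 0 ≤ a' i := by
    intro i
    by_cases hi : i ∈ L'
    · simp only [a', dif_pos hi]; exact ha _
    · simp only [a', dif_neg hi]; exact le_rfl
  have g4 : ∀ j, v - ∑ x ∈ Ls' j, a' x • (X x - o) ∈ Sp (fun x => X x - o) (A j) := by
    intro j
    have h1 := hvW j
    have h2 : ∑ x ∈ Ls' j, a' x • (X x - o) = ∑ i ∈ Ls j, a i • y i := by
      simp only [Ls', Finset.sum_map]
      refine Finset.sum_congr rfl (fun i _ => ?_)
      simp [a', hy]
    rw [h2]
    exact h1
  obtain ⟨o', A', h', hlt⟩ := progress X hX o A h.pre Ls' g1 g2 v hv a' g3 g4 hd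
  have := h.maxE o' A' h'
  omega

end Pool.Agent.MPa0a351.Top
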