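import Pool.Agent.Lib.MP_a0a351_co.TopDefs

set_option autoImplicit false

/-!
The pointed sets `PR W y j` of the rows of a state, and the fact that they form rows.
-/

open Module Finset

namespace Pool.Agent.MPa0a351.Top

section PRows
variable {V U J : Type*} [AddCommGroup V] [Module ℝ V]

/-- The pointed sets of the row `j`. -/
def PR (W : J → Submodule ℝ V) (y : U → V) (j : J) : Set (Finset U) :=
  {L | ∃ h : (V ⧸ W j) →ₗ[ℝ] ℝ, ∀ u ∈ L, 0 < h ((W j).mkQ (y u))}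

theorem dnS_PR (W : J → Submodule ℝ V) (y : U → V) (j : J) : DnS (PR W y j) := by
  rintro A ⟨h, hh⟩ B hBA
  exact ⟨h, fun u hu => hh u (hBA hu)⟩

theorem row_PR [FiniteDimensional ℝ V] (W : J → Submodule ℝ V) (y : U → V) (j : J)
    (T : Finset U)
    (hgp : ∀ Q : Finset U, Q.card ≤ finrank ℝ (V ⧸ W j) →
      LinearIndependent ℝ (fun i : Q => (W j).mkQ (y i))) :
    Row (finrank ℝ (V ⧸ W j)) T (PR W y j) := by
  refine ⟨dnS_PR W y j, ?_⟩
  let e : (V ⧸ W j) ≃ₗ[ℝ] (Fin (finrank ℝ (V ⧸ W j)) → ℝ) :=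
    LinearEquiv.ofFinrankEq _ _ (by simp)
  refine ⟨fun u => e ((W j).mkQ (y u)), ?_, ?_⟩
  · intro Q _ hQ
    exact (hgp Q hQ).map' e.toLinearMap (LinearEquiv.ker e)
  · rintro L _ ⟨h, hh⟩
    exact ⟨h.comp e.toLinearMap, fun u hu => hh u hu⟩

end PRows

end Pool.Agent.MPa0a351.Top
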